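import Pool.Agent.PPX.Stmts

set_option autoImplicit false

namespace PPX

open Filter Topology

namespace BTS_

theorem bt_zero : bt 0 = 1 := by simp [bt]

theorem bt_pos (k : ℕ) : 0 < bt k := by
  unfold bt
  have := Nat.centralBinom_pos k
  positivity

theorem bt_succ (k : ℕ) : bt (k + 1) * (2 * (k : ℝ) + 2) = bt k * (2 * (k : ℝ) + 1) := by
  have h : ((k : ℝ) + 1) * (Nat.centralBinom (k + 1) : ℝ) =
      2 * (2 * (k : ℝ) + 1) * (Nat.centralBinom k : ℝ) := by
    exact_mod_cast Nat.succ_mul_centralBinom_succ k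
  unfold bt
  rw [pow_succ]
  field_simp
  linarith

theorem bt_le_one (k : ℕ) : bt k ≤ 1 := by
  unfold bt
  rw [div_le_one (by positivity)]
  exact_mod_cast Nat.centralBinom_le_four_pow k

theorem bt_sq (k : ℕ) : bt k ^ 2 * (2 * (k : ℝ) + 1) ≤ 1 := by
  induction k with
  | zero => simp [bt_zero]
  | succ k ih =>
    have hk : (0 : ℝ) ≤ k := Nat.cast_nonneg k
    have h := bt_succ k
    have h1 : bt (k + 1) ^ 2 * (2 * (k : ℝ) + 2) ^ 2 = bt k ^ 2 * (2 * (k : ℝ) + 1) ^ 2 := by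
      rw [← mul_pow, h, mul_pow]
    push_cast
    have h2 : bt k ^ 2 * (2 * (k : ℝ) + 1) * ((2 * (k : ℝ) + 1) * (2 * k + 3)) ≤
        1 * ((2 * (k : ℝ) + 1) * (2 * k + 3)) := mul_le_mul_of_nonneg_right ih (by positivity)
    have h3 : bt (k + 1) ^ 2 * (2 * ((k : ℝ) + 1) + 1) * (2 * (k : ℝ) + 2) ^ 2 ≤
        1 * (2 * (k : ℝ) + 2) ^ 2 := by
      calc bt (k + 1) ^ 2 * (2 * ((k : ℝ) + 1) + 1) * (2 * (k : ℝ) + 2) ^ 2
          = bt k ^ 2 * (2 * (k : ℝ) + 1) * ((2 * (k : ℝ) + 1) * (2 * k + 3)) := by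
            linear_combination (2 * (k : ℝ) + 3) * h1
        _ ≤ 1 * ((2 * (k : ℝ) + 1) * (2 * k + 3)) := h2
        _ ≤ 1 * (2 * (k : ℝ) + 2) ^ 2 := by nlinarith
    exact le_of_mul_le_mul_right h3 (by positivity)

theorem ec_zero : ec 0 = -1 := by
  unfold ec
  rw [bt_zero]
  norm_num

theorem ec_succ (k : ℕ) : ec (k + 1) = bt k - bt (k + 1) := by
  have hk : (0 : ℝ) ≤ k := Nat.cast_nonneg k
  have h := bt_succ k
  unfold ec
  push_cast
  have h1 : 2 * ((k : ℝ) + 1) - 1 ≠ 0 := by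
    have : (0 : ℝ) < 2 * ((k : ℝ) + 1) - 1 := by linarith
    exact this.ne'
  rw [div_eq_iff h1]
  linear_combination h

theorem ec_sum (N : ℕ) : ∑ k ∈ Finset.range (N + 1), ec k = -bt N := by
  induction N with
  | zero => simp [ec_zero, bt_zero]
  | succ N ih =>
    rw [Finset.sum_range_succ, ih, ec_succ]
    ring

theorem ec_pos (k : ℕ) (hk : 1 ≤ k) : 0 < ec k := by
  unfold ec
  have h1 : (1 : ℝ) ≤ k := by exact_mod_cast hk
  have h2 := bt_pos k
  apply div_pos h2
  linarith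

theorem ec_le (k : ℕ) (hk : 1 ≤ k) : 2 * (k : ℝ) * ec k ≤ 1 := by
  obtain ⟨j, rfl⟩ : ∃ j, k = j + 1 := ⟨k - 1, by omega⟩
  have h := bt_succ j
  have h1 := ec_succ j
  have h2 := bt_le_one j
  push_cast
  have h3 : 2 * ((j : ℝ) + 1) * ec (j + 1) = bt j := by
    rw [h1]
    linear_combination -h
  rw [h3]
  exact h2

theorem ec_ge (k : ℕ) (hk : 1 ≤ k) : 1 / (8 * (k : ℝ) ^ 2) ≤ ec k := by
  have h1 : (1 : ℝ) ≤ k := by exact_mod_cast hk
  have h2 : (4 : ℝ) ^ k ≤ 2 * k * (Nat.centralBinom k : ℝ) := by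
    have := Nat.four_pow_le_two_mul_self_mul_centralBinom k hk
    exact_mod_cast this
  have h3 : 1 ≤ 2 * (k : ℝ) * bt k := by
    unfold bt
    rw [mul_div_assoc', le_div_iff₀ (by positivity), one_mul]
    exact h2
  unfold ec
  rw [div_le_div_iff₀ (by positivity) (by linarith)]
  have h4 : 0 < bt k := bt_pos k
  nlinarith

theorem choose_bt (n : ℕ) : Ring.choose ((1 / 2 : ℝ) + n - 1) n = bt n := by
  rw [← Ring.multichoose_eq]
  have h : (n.factorial : ℝ) * Ring.multichoose (1 / 2 : ℝ) n =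
      (ascPochhammer ℝ n).eval (1 / 2) := by
    rw [← nsmul_eq_mul, Ring.factorial_nsmul_multichoose_eq_ascPochhammer,
      Polynomial.ascPochhammer_smeval_eq_eval]
  have h2 : ∀ m : ℕ, (ascPochhammer ℝ m).eval (1 / 2) = m.factorial * bt m := by
    intro m
    induction m with
    | zero => simp [bt_zero]
    | succ m ih =>
      rw [ascPochhammer_succ_eval, ih, Nat.factorial_succ]
      have := bt_succ m
      push_cast
      linear_combination (-(m.factorial : ℝ) / 2) * this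
  rw [h2 n] at h
  have h3 : (n.factorial : ℝ) ≠ 0 := by
    exact_mod_cast n.factorial_ne_zero
  exact mul_left_cancel₀ h3 h

theorem one (t : ℝ) (h0 : 0 ≤ t) (h1 : t < 1) :
    HasSum (fun k : ℕ => bt k * t ^ k) (1 / √(1 - t)) := by
  have h := Real.one_div_one_sub_rpow_hasFPowerSeriesOnBall_zero (1 / 2)
  have hm : t ∈ Metric.eball (0 : ℝ) 1 := by
    simp only [Metric.mem_eball, edist_zero_right]
    rw [enorm_eq_nnnorm]
    have : ‖t‖₊ < 1 := by
      rw [← NNReal.coe_lt_coe, coe_nnnorm, Real.norm_eq_abs, abs_of_nonneg h0]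
      exact h1
    exact_mod_cast this
  have h2 := h.hasSum hm
  simp only [zero_add] at h2
  rw [← Real.sqrt_eq_rpow] at h2
  refine h2.congr_fun ?_ |> fun h => h
  intro k
  rw [FormalMultilinearSeries.ofScalars_apply_eq, choose_bt]
  simp

theorem two_lt (t : ℝ) (h0 : 0 ≤ t) (h1 : t < 1) :
    HasSum (fun k : ℕ => ec k * t ^ k) (-√(1 - t)) := by
  have h := one t h0 h1
  set S : ℝ := 1 / √(1 - t) with hS
  have h2 : HasSum (fun k : ℕ => t * (bt k * t ^ k)) (t * S) := h.mul_left t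
  have h3 : HasSum (fun k : ℕ => bt (k + 1) * t ^ (k + 1)) (S - 1) := by
    have := (hasSum_nat_add_iff' 1).mpr h
    simpa [bt_zero] using this
  have h4 := h2.sub h3
  have h5 : HasSum (fun k : ℕ => ec (k + 1) * t ^ (k + 1)) (t * S - (S - 1)) := by
    refine h4.congr_fun ?_ |> fun h => h
    intro k
    rw [ec_succ]
    ring
  have h6 : HasSum (fun k : ℕ => ec k * t ^ k) (t * S - (S - 1) + ec 0 * t ^ 0) := by
    have := (hasSum_nat_add_iff (f := fun k : ℕ => ec k * t ^ k) 1).mp h5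
    simpa using this
  have h7 : t * S - (S - 1) + ec 0 * t ^ 0 = -√(1 - t) := by
    rw [ec_zero, hS]
    have hp : 0 < √(1 - t) := Real.sqrt_pos.mpr (by linarith)
    have hs : √(1 - t) * √(1 - t) = 1 - t := Real.mul_self_sqrt (by linarith)
    field_simp
    nlinarith
  rw [← h7]
  exact h6

theorem bt_tendsto : Tendsto bt atTop (𝓝 0) := by
  have h : ∀ k : ℕ, bt k ≤ √(1 / ((k : ℝ) + 1)) := by
    intro k
    apply Real.le_sqrt_of_sq_le
    rw [le_div_iff₀ (by positivity)]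
    have := bt_sq k
    have hk : (0 : ℝ) ≤ k := Nat.cast_nonneg k
    nlinarith [sq_nonneg (bt k)]
  have h2 : Tendsto (fun k : ℕ => √(1 / ((k : ℝ) + 1))) atTop (𝓝 0) := by
    have h3 := tendsto_one_div_add_atTop_nhds_zero_nat (𝕜 := ℝ)
    have h4 := (Real.continuous_sqrt.tendsto 0).comp h3
    rw [Real.sqrt_zero] at h4
    exact h4
  exact squeeze_zero (fun k => (bt_pos k).le) h h2

theorem two_one : HasSum (fun k : ℕ => ec k) 0 := by
  have h : HasSum (fun k : ℕ => ec (k + 1)) 1 := by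
    rw [hasSum_iff_tendsto_nat_of_nonneg]
    · have h1 : ∀ N : ℕ, ∑ i ∈ Finset.range N, ec (i + 1) = 1 - bt N := by
        intro N
        have h2 := ec_sum N
        rw [Finset.sum_range_succ', ec_zero] at h2
        linarith
      simp_rw [h1]
      have := bt_tendsto.const_sub 1
      simpa using this
    · intro i
      exact (ec_pos (i + 1) (by omega)).le
  have h2 := (hasSum_nat_add_iff (f := fun k : ℕ => ec k) 1).mp h
  simpa [ec_zero] using h2

end BTS_

open BTS_ in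
theorem bts_proof : Stmt_BTS := by
  refine ⟨one, ?_, fun k => ⟨bt_pos k, bt_le_one k, bt_sq k⟩,
    fun k hk => ⟨ec_pos k hk, ec_le k hk, ec_ge k hk⟩, ec_sum⟩
  intro t h0 h1
  rcases lt_or_eq_of_le h1 with h | h
  · exact two_lt t h0 h
  · subst h
    simpa using two_one

end PPX
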