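import Pool.Agent.PPX.Stmts

/-!
# Squad PPX, module KSR: the power series of the kernel
-/

set_option autoImplicit false

namespace PPX

open MeasureTheory Set Filter Topology
open PPI PPG
open scoped Pointwise

namespace KSR_

noncomputable section

/-- Lebesgue measure on the half line -/
abbrev mu0 : Measure ℝ := volume.restrict (Ioi 0)

abbrev mu3 : Measure (ℝ × ℝ × ℝ) := mu0.prod (mu0.prod mu0)

theorem mu3_eq : mu3 = (volume : Measure (ℝ × ℝ × ℝ)).restrict (Ioi 0 ×ˢ Ioi 0 ×ˢ Ioi 0) := by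
  rw [mu3, mu0, Measure.prod_restrict, Measure.prod_restrict]
  rfl

theorem ae_pos : ∀ᵐ y ∂mu3, 0 < y.1 ∧ 0 < y.2.1 ∧ 0 < y.2.2 := by
  rw [mu3_eq]
  have h : MeasurableSet ((Ioi 0 ×ˢ Ioi 0 ×ˢ Ioi 0 : Set (ℝ × ℝ × ℝ))) :=
    measurableSet_Ioi.prod (measurableSet_Ioi.prod measurableSet_Ioi)
  filter_upwards [ae_restrict_mem h] with y hy
  exact ⟨hy.1, hy.2.1, hy.2.2⟩

theorem ae_pos2 : ∀ᵐ y ∂(mu0.prod mu0), 0 < y.1 ∧ 0 < y.2 := by
  have h0 : mu0.prod mu0 = (volume : Measure (ℝ × ℝ)).restrict (Ioi 0 ×ˢ Ioi 0) := by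
    rw [mu0, Measure.prod_restrict]
    rfl
  rw [h0]
  have h : MeasurableSet ((Ioi 0 ×ˢ Ioi 0 : Set (ℝ × ℝ))) :=
    measurableSet_Ioi.prod measurableSet_Ioi
  filter_upwards [ae_restrict_mem h] with y hy
  exact ⟨hy.1, hy.2⟩

/-- the integrand of the Gamma function -/
def gm (s x : ℝ) : ℝ := Real.exp (-x) * x ^ (s - 1)

theorem gm_int {s : ℝ} (hs : 0 < s) : Integrable (gm s) mu0 := Real.GammaIntegral_convergent hs

theorem gm_val {s : ℝ} (hs : 0 < s) : ∫ x, gm s x ∂mu0 = Real.Gamma s :=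
  (Real.Gamma_eq_integral hs).symm

theorem gm_nonneg (s : ℝ) {x : ℝ} (hx : 0 < x) : 0 ≤ gm s x :=
  mul_nonneg (Real.exp_pos _).le (Real.rpow_nonneg hx.le _)

theorem gm_meas (s : ℝ) : Measurable (gm s) := by
  unfold gm
  fun_prop

theorem gm_mul (s : ℝ) {x : ℝ} (hx : 0 < x) : x * gm s x = gm (s + 1) x := by
  unfold gm
  have h : x ^ (s + 1 - 1) = x * x ^ (s - 1) := by
    rw [add_sub_right_comm, Real.rpow_add hx, Real.rpow_one, mul_comm]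
  rw [h]
  ring

/-- the integral over `z` -/
theorem int_z (m : ℕ) {w : ℝ} (hw : 0 < w) :
    Integrable (fun z : ℝ => (w / (z + w)) ^ (m + 2)) mu0 ∧
    ∫ z, (w / (z + w)) ^ (m + 2) ∂mu0 = w / (m + 1) := by
  set g : ℝ → ℝ := fun z => -(w / (m + 1)) * (w / (z + w)) ^ (m + 1) with hg
  have hm : ((m : ℝ) + 1) ≠ 0 := by positivity
  have hder : ∀ z ∈ Ici (0 : ℝ), HasDerivAt g ((w / (z + w)) ^ (m + 2)) z := by
    intro z hz
    have hz' : (0 : ℝ) ≤ z := hz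
    have hne : z + w ≠ 0 := by positivity
    have h1 : HasDerivAt (fun z : ℝ => w / (z + w)) ((0 * (z + w) - w * 1) / (z + w) ^ 2) z :=
      (hasDerivAt_const z w).div ((hasDerivAt_id z).add_const w) hne
    have h2 := (h1.pow (m + 1)).const_mul (-(w / (m + 1)))
    refine h2.congr_deriv ?_
    have h3 : (0 * (z + w) - w * 1) / (z + w) ^ 2 = -((w / (z + w)) * (w / (z + w)) / w) := by
      field_simp
      ring
    rw [h3]
    generalize w / (z + w) = q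
    simp only [Nat.add_sub_cancel]
    push_cast
    field_simp
    rw [← pow_add]
  have hpos : ∀ z ∈ Ioi (0 : ℝ), 0 ≤ (w / (z + w)) ^ (m + 2) := by
    intro z hz
    have hz' : (0 : ℝ) < z := hz
    positivity
  have hlim : Tendsto g atTop (𝓝 0) := by
    have h1 : Tendsto (fun z : ℝ => w / (z + w)) atTop (𝓝 0) :=
      tendsto_const_nhds.div_atTop (tendsto_atTop_add_const_right _ _ tendsto_id)
    have h2 := (h1.pow (m + 1)).const_mul (-(w / (m + 1)))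
    simpa [hg] using h2
  have hcont : ContinuousWithinAt g (Ici 0) 0 :=
    (hder 0 (self_mem_Ici)).continuousAt.continuousWithinAt
  have hder' : ∀ z ∈ Ioi (0 : ℝ), HasDerivAt g ((w / (z + w)) ^ (m + 2)) z :=
    fun z hz => hder z (Ioi_subset_Ici_self hz)
  refine ⟨integrableOn_Ioi_deriv_of_nonneg hcont hder' hpos hlim, ?_⟩
  rw [mu0, integral_Ioi_of_hasDerivAt_of_nonneg hcont hder' hpos hlim]
  simp only [hg, zero_add, div_self hw.ne', one_pow]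
  ring

/-- the integrand -/
def HH (n k : ℕ) (y : ℝ × ℝ × ℝ) : ℝ :=
  Real.exp (-(y.1 + y.2.1 + y.2.2)) * (y.2.1 * y.2.2) ^ ((n : ℝ) / 2 - 1) /
    √((y.1 + y.2.1) * (y.1 + y.2.2)) * (y.2.1 * y.2.2 / ((y.1 + y.2.1) * (y.1 + y.2.2))) ^ k

theorem HH_meas (n k : ℕ) : Measurable (HH n k) := by
  unfold HH
  fun_prop

theorem HH_nonneg (n k : ℕ) {y : ℝ × ℝ × ℝ} (hy : 0 < y.1 ∧ 0 < y.2.1 ∧ 0 < y.2.2) :
    0 ≤ HH n k y := by
  obtain ⟨h1, h2, h3⟩ := hy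
  unfold HH
  positivity

theorem base_bound (n : ℕ) {y : ℝ × ℝ × ℝ} (hy : 0 < y.1 ∧ 0 < y.2.1 ∧ 0 < y.2.2) :
    Real.exp (-(y.1 + y.2.1 + y.2.2)) * (y.2.1 * y.2.2) ^ ((n : ℝ) / 2 - 1) /
    √((y.1 + y.2.1) * (y.1 + y.2.2)) ≤
    gm 1 y.1 * (gm (((n : ℝ) - 1) / 2) y.2.1 * gm (((n : ℝ) - 1) / 2) y.2.2) := by
  obtain ⟨h1, h2, h3⟩ := hy
  have hww : 0 < y.2.1 * y.2.2 := mul_pos h2 h3
  have e1 : (y.2.1 * y.2.2) ^ ((n : ℝ) / 2 - 1) = y.2.1 ^ (((n : ℝ) - 1) / 2 - 1) *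
      y.2.2 ^ (((n : ℝ) - 1) / 2 - 1) * √(y.2.1 * y.2.2) := by
    rw [← Real.mul_rpow h2.le h3.le, Real.sqrt_eq_rpow, ← Real.rpow_add hww]
    congr 1
    ring
  have e2 : √(y.2.1 * y.2.2) ≤ √((y.1 + y.2.1) * (y.1 + y.2.2)) := by
    apply Real.sqrt_le_sqrt
    nlinarith [mul_pos h1 h1, mul_pos h1 h2, mul_pos h1 h3]
  have hs : 0 < √((y.1 + y.2.1) * (y.1 + y.2.2)) := by positivity
  have e3 : gm 1 y.1 = Real.exp (-y.1) := by simp [gm]
  have e4 : Real.exp (-(y.1 + y.2.1 + y.2.2)) =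
      Real.exp (-y.1) * Real.exp (-y.2.1) * Real.exp (-y.2.2) := by
    rw [← Real.exp_add, ← Real.exp_add]
    congr 1
    ring
  rw [div_le_iff₀ hs, e3, e1, e4]
  unfold gm
  have hp : 0 ≤ Real.exp (-y.1) * Real.exp (-y.2.1) * Real.exp (-y.2.2) *
      (y.2.1 ^ (((n : ℝ) - 1) / 2 - 1) * y.2.2 ^ (((n : ℝ) - 1) / 2 - 1)) := by positivity
  calc _ = (Real.exp (-y.1) * Real.exp (-y.2.1) * Real.exp (-y.2.2) *
      (y.2.1 ^ (((n : ℝ) - 1) / 2 - 1) * y.2.2 ^ (((n : ℝ) - 1) / 2 - 1))) *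
        √(y.2.1 * y.2.2) := by ring
    _ ≤ (Real.exp (-y.1) * Real.exp (-y.2.1) * Real.exp (-y.2.2) *
      (y.2.1 ^ (((n : ℝ) - 1) / 2 - 1) * y.2.2 ^ (((n : ℝ) - 1) / 2 - 1))) *
        √((y.1 + y.2.1) * (y.1 + y.2.2)) := mul_le_mul_of_nonneg_left e2 hp
    _ = _ := by ring

theorem lam_le (k : ℕ) {y : ℝ × ℝ × ℝ} (hy : 0 < y.1 ∧ 0 < y.2.1 ∧ 0 < y.2.2) :
    (y.2.1 * y.2.2 / ((y.1 + y.2.1) * (y.1 + y.2.2))) ^ k ≤ (y.2.1 / (y.1 + y.2.1)) ^ k := by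
  obtain ⟨h1, h2, h3⟩ := hy
  apply pow_le_pow_left₀ (by positivity)
  rw [mul_div_mul_comm]
  exact mul_le_of_le_one_right (by positivity) ((div_le_one (by positivity)).2 (by linarith))

theorem lam_le_one (k : ℕ) {y : ℝ × ℝ × ℝ} (hy : 0 < y.1 ∧ 0 < y.2.1 ∧ 0 < y.2.2) :
    (y.2.1 * y.2.2 / ((y.1 + y.2.1) * (y.1 + y.2.2))) ^ k ≤ 1 := by
  refine (lam_le k hy).trans ?_
  obtain ⟨h1, h2, h3⟩ := hy
  exact pow_le_one₀ (by positivity) ((div_le_one (by positivity)).2 (by linarith))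

theorem HH_le (n k : ℕ) {y : ℝ × ℝ × ℝ} (hy : 0 < y.1 ∧ 0 < y.2.1 ∧ 0 < y.2.2) :
    HH n k y ≤ gm 1 y.1 * (gm (((n : ℝ) - 1) / 2) y.2.1 * gm (((n : ℝ) - 1) / 2) y.2.2) := by
  have h0 := base_bound n hy
  have h1 := lam_le_one k hy
  have h2 : 0 ≤ gm 1 y.1 * (gm (((n : ℝ) - 1) / 2) y.2.1 * gm (((n : ℝ) - 1) / 2) y.2.2) :=
    mul_nonneg (gm_nonneg _ hy.1) (mul_nonneg (gm_nonneg _ hy.2.1) (gm_nonneg _ hy.2.2))
  have h3 : 0 ≤ (y.2.1 * y.2.2 / ((y.1 + y.2.1) * (y.1 + y.2.2))) ^ k := by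
    obtain ⟨h1, h2, h3⟩ := hy
    positivity
  unfold HH
  calc _ ≤ (gm 1 y.1 * (gm (((n : ℝ) - 1) / 2) y.2.1 * gm (((n : ℝ) - 1) / 2) y.2.2)) *
        (y.2.1 * y.2.2 / ((y.1 + y.2.1) * (y.1 + y.2.2))) ^ k := mul_le_mul_of_nonneg_right h0 h3
    _ ≤ _ := mul_le_of_le_one_right h2 h1

theorem HH_le' (n k : ℕ) {y : ℝ × ℝ × ℝ} (hy : 0 < y.1 ∧ 0 < y.2.1 ∧ 0 < y.2.2) :
    HH n k y ≤ (y.2.1 / (y.1 + y.2.1)) ^ k *
      (gm (((n : ℝ) - 1) / 2) y.2.1 * gm (((n : ℝ) - 1) / 2) y.2.2) := by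
  have h0 := base_bound n hy
  have h1 := lam_le k hy
  have hg : 0 ≤ gm (((n : ℝ) - 1) / 2) y.2.1 * gm (((n : ℝ) - 1) / 2) y.2.2 :=
    mul_nonneg (gm_nonneg _ hy.2.1) (gm_nonneg _ hy.2.2)
  have h2 : gm 1 y.1 * (gm (((n : ℝ) - 1) / 2) y.2.1 * gm (((n : ℝ) - 1) / 2) y.2.2) ≤
      gm (((n : ℝ) - 1) / 2) y.2.1 * gm (((n : ℝ) - 1) / 2) y.2.2 := by
    refine mul_le_of_le_one_left hg ?_
    have : gm 1 y.1 = Real.exp (-y.1) := by simp [gm]
    rw [this]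
    exact Real.exp_le_one_iff.2 (by linarith [hy.1])
  have h3 : 0 ≤ (y.2.1 * y.2.2 / ((y.1 + y.2.1) * (y.1 + y.2.2))) ^ k := by
    obtain ⟨h1, h2, h3⟩ := hy
    positivity
  unfold HH
  calc _ ≤ (gm (((n : ℝ) - 1) / 2) y.2.1 * gm (((n : ℝ) - 1) / 2) y.2.2) *
        (y.2.1 * y.2.2 / ((y.1 + y.2.1) * (y.1 + y.2.2))) ^ k :=
        mul_le_mul_of_nonneg_right (h0.trans h2) h3
    _ ≤ (gm (((n : ℝ) - 1) / 2) y.2.1 * gm (((n : ℝ) - 1) / 2) y.2.2) *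
        (y.2.1 / (y.1 + y.2.1)) ^ k := mul_le_mul_of_nonneg_left h1 hg
    _ = _ := mul_comm _ _

theorem HH_int {n : ℕ} (hn : 4 ≤ n) (k : ℕ) : Integrable (HH n k) mu3 := by
  have hn' : (4 : ℝ) ≤ n := by exact_mod_cast hn
  have hs : 0 < ((n : ℝ) - 1) / 2 := by linarith
  have h1 : Integrable (fun y : ℝ × ℝ × ℝ => gm 1 y.1 * (gm (((n : ℝ) - 1) / 2) y.2.1 *
      gm (((n : ℝ) - 1) / 2) y.2.2)) mu3 :=
    (gm_int one_pos).mul_prod ((gm_int hs).mul_prod (gm_int hs))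
  refine h1.mono' (HH_meas n k).aestronglyMeasurable ?_
  filter_upwards [ae_pos] with y hy
  rw [Real.norm_of_nonneg (HH_nonneg n k hy)]
  exact HH_le n k hy

theorem HH_val {n : ℕ} (hn : 4 ≤ n) (k : ℕ) :
    ∫ y, HH n k y ∂mu3 ≤ Real.Gamma (((n : ℝ) - 1) / 2) ^ 2 := by
  have hn' : (4 : ℝ) ≤ n := by exact_mod_cast hn
  have hs : 0 < ((n : ℝ) - 1) / 2 := by linarith
  have h1 : Integrable (fun y : ℝ × ℝ × ℝ => gm 1 y.1 * (gm (((n : ℝ) - 1) / 2) y.2.1 *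
      gm (((n : ℝ) - 1) / 2) y.2.2)) mu3 :=
    (gm_int one_pos).mul_prod ((gm_int hs).mul_prod (gm_int hs))
  have h2 : ∫ y, HH n k y ∂mu3 ≤ ∫ y : ℝ × ℝ × ℝ, gm 1 y.1 * (gm (((n : ℝ) - 1) / 2) y.2.1 *
      gm (((n : ℝ) - 1) / 2) y.2.2) ∂mu3 := by
    refine integral_mono_ae (HH_int hn k) h1 ?_
    filter_upwards [ae_pos] with y hy
    exact HH_le n k hy
  refine h2.trans (le_of_eq ?_)
  rw [integral_prod_mul (μ := mu0) (ν := mu0.prod mu0) (gm 1)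
    (fun v : ℝ × ℝ => gm (((n : ℝ) - 1) / 2) v.1 * gm (((n : ℝ) - 1) / 2) v.2),
    integral_prod_mul, gm_val one_pos, gm_val hs, Real.Gamma_one]
  ring

theorem HH_val' {n : ℕ} (hn : 4 ≤ n) (m : ℕ) :
    ∫ y, HH n (m + 2) y ∂mu3 ≤
      ((n : ℝ) - 1) / 2 * Real.Gamma (((n : ℝ) - 1) / 2) ^ 2 / (m + 1) := by
  have hn' : (4 : ℝ) ≤ n := by exact_mod_cast hn
  have hs : 0 < ((n : ℝ) - 1) / 2 := by linarith
  set s : ℝ := ((n : ℝ) - 1) / 2 with hsdef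
  set Φ : ℝ × ℝ × ℝ → ℝ := fun y => (y.2.1 / (y.1 + y.2.1)) ^ (m + 2) *
    (gm s y.2.1 * gm s y.2.2) with hΦ
  have hΦm : Measurable Φ := by
    rw [hΦ]
    have h1 := gm_meas s
    fun_prop
  have hz : ∀ v : ℝ × ℝ, 0 < v.1 ∧ 0 < v.2 → Integrable (fun z => Φ (z, v)) mu0 ∧
      ∫ z, Φ (z, v) ∂mu0 = 1 / ((m : ℝ) + 1) * (gm (s + 1) v.1 * gm s v.2) ∧
      ∫ z, ‖Φ (z, v)‖ ∂mu0 = 1 / ((m : ℝ) + 1) * (gm (s + 1) v.1 * gm s v.2) := by
    intro v hv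
    obtain ⟨h1, h2⟩ := int_z m hv.1
    have h3 : Integrable (fun z => Φ (z, v)) mu0 := h1.mul_const (gm s v.1 * gm s v.2)
    have h4 : ∫ z, Φ (z, v) ∂mu0 = 1 / ((m : ℝ) + 1) * (gm (s + 1) v.1 * gm s v.2) := by
      have h5 : ∫ z, Φ (z, v) ∂mu0 = (∫ z, (v.1 / (z + v.1)) ^ (m + 2) ∂mu0) *
          (gm s v.1 * gm s v.2) := by
        rw [← integral_mul_const]
      rw [h5, h2, ← gm_mul s hv.1]
      ring
    refine ⟨h3, h4, ?_⟩
    rw [← h4]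
    refine integral_congr_ae ?_
    have h6 : ∀ᵐ z ∂mu0, (0 : ℝ) < z := ae_restrict_mem measurableSet_Ioi
    filter_upwards [h6] with z hz
    refine Real.norm_of_nonneg ?_
    exact mul_nonneg (pow_nonneg (div_nonneg hv.1.le (add_pos hz hv.1).le) _)
      (mul_nonneg (gm_nonneg _ hv.1) (gm_nonneg _ hv.2))
  have hprod : Integrable (fun v : ℝ × ℝ => 1 / ((m : ℝ) + 1) * (gm (s + 1) v.1 * gm s v.2))
      (mu0.prod mu0) :=
    ((gm_int (by linarith)).mul_prod (gm_int hs)).const_mul _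
  have hΦi : Integrable Φ mu3 := by
    rw [integrable_prod_iff' hΦm.aestronglyMeasurable]
    refine ⟨?_, ?_⟩
    · filter_upwards [ae_pos2] with v hv
      exact (hz v hv).1
    · refine hprod.congr ?_
      filter_upwards [ae_pos2] with v hv
      exact (hz v hv).2.2.symm
  have h2 : ∫ y, HH n (m + 2) y ∂mu3 ≤ ∫ y, Φ y ∂mu3 := by
    refine integral_mono_ae (HH_int hn _) hΦi ?_
    filter_upwards [ae_pos] with y hy
    exact HH_le' n _ hy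
  refine h2.trans (le_of_eq ?_)
  rw [integral_prod_symm _ hΦi]
  have h3 : ∫ v, ∫ z, Φ (z, v) ∂mu0 ∂(mu0.prod mu0) =
      ∫ v : ℝ × ℝ, 1 / ((m : ℝ) + 1) * (gm (s + 1) v.1 * gm s v.2) ∂(mu0.prod mu0) := by
    refine integral_congr_ae ?_
    filter_upwards [ae_pos2] with v hv
    exact (hz v hv).2.1
  rw [h3, integral_const_mul, integral_prod_mul, gm_val (by linarith), gm_val hs,
    Real.Gamma_add_one hs.ne']
  ring

/-- log-convexity -/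
theorem gamma_bound {n : ℕ} (hn : 4 ≤ n) :
    Real.Gamma (((n : ℝ) - 1) / 2) ^ 2 ≤ 2 / ((n : ℝ) - 2) * Real.Gamma ((n : ℝ) / 2) ^ 2 := by
  have hn' : (4 : ℝ) ≤ n := by exact_mod_cast hn
  set x : ℝ := (n : ℝ) / 2 - 1 with hx
  have hx0 : 0 < x := by rw [hx]; linarith
  have e1 : ((n : ℝ) - 1) / 2 = 1 / 2 * x + 1 / 2 * (x + 1) := by rw [hx]; ring
  have e2 : (n : ℝ) / 2 = x + 1 := by rw [hx]; ring
  have e3 : (n : ℝ) - 2 = 2 * x := by rw [hx]; ring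
  have h1 := Real.Gamma_mul_add_mul_le_rpow_Gamma_mul_rpow_Gamma (s := x) (t := x + 1)
    (a := 1 / 2) (b := 1 / 2) hx0 (by linarith) (by norm_num) (by norm_num) (by norm_num)
  rw [e1, e2, e3]
  have hg1 : 0 < Real.Gamma x := Real.Gamma_pos_of_pos hx0
  have hg2 : 0 < Real.Gamma (x + 1) := Real.Gamma_pos_of_pos (by linarith)
  have hg3 : 0 < Real.Gamma (1 / 2 * x + 1 / 2 * (x + 1)) :=
    Real.Gamma_pos_of_pos (by linarith)
  have h2 : Real.Gamma (1 / 2 * x + 1 / 2 * (x + 1)) ^ 2 ≤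
      (Real.Gamma x ^ (1 / 2 : ℝ) * Real.Gamma (x + 1) ^ (1 / 2 : ℝ)) ^ 2 :=
    pow_le_pow_left₀ hg3.le h1 2
  refine h2.trans (le_of_eq ?_)
  rw [mul_pow, ← Real.sqrt_eq_rpow, ← Real.sqrt_eq_rpow, Real.sq_sqrt hg1.le,
    Real.sq_sqrt hg2.le, Real.Gamma_add_one hx0.ne']
  field_simp

end

end KSR_

open KSR_ in
theorem ksr_proof (hB : Stmt_BTS) : Stmt_KSR := by
  intro n hn
  obtain ⟨hB1, hB2, hB3, hB4, hB5⟩ := hB
  have hn' : (4 : ℝ) ≤ n := by exact_mod_cast hn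
  set A : ℝ := (n : ℝ) / 2 / Real.Gamma ((n : ℝ) / 2) ^ 2 with hA
  have hG : 0 < Real.Gamma ((n : ℝ) / 2) := Real.Gamma_pos_of_pos (by linarith)
  have hA0 : 0 < A := by
    rw [hA]
    positivity
  have hI0 : ∀ k, 0 ≤ ∫ y, HH n k y ∂mu3 := by
    intro k
    refine integral_nonneg_of_ae ?_
    filter_upwards [ae_pos] with y hy
    exact HH_nonneg n k hy
  have hgb := gamma_bound hn
  have hAG : A * Real.Gamma (((n : ℝ) - 1) / 2) ^ 2 ≤ (n : ℝ) / ((n : ℝ) - 2) := by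
    have h1 : A * Real.Gamma (((n : ℝ) - 1) / 2) ^ 2 ≤
        A * (2 / ((n : ℝ) - 2) * Real.Gamma ((n : ℝ) / 2) ^ 2) :=
      mul_le_mul_of_nonneg_left hgb hA0.le
    refine h1.trans (le_of_eq ?_)
    have h2 : (n : ℝ) - 2 ≠ 0 := by linarith
    rw [hA]
    field_simp
  have hc2 : ∀ k, A * ∫ y, HH n k y ∂mu3 ≤ 2 := by
    intro k
    refine (mul_le_mul_of_nonneg_left (HH_val hn k) hA0.le).trans (hAG.trans ?_)
    rw [div_le_iff₀ (by linarith)]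
    linarith
  have hc3 : ∀ m : ℕ, A * ∫ y, HH n (m + 2) y ∂mu3 ≤ 3 * n / (2 * ((m : ℝ) + 2) - 1) := by
    intro m
    refine (mul_le_mul_of_nonneg_left (HH_val' hn m) hA0.le).trans ?_
    have hm : (0 : ℝ) ≤ m := Nat.cast_nonneg m
    have e1 : A * (((n : ℝ) - 1) / 2 * Real.Gamma (((n : ℝ) - 1) / 2) ^ 2 / (m + 1)) =
        (A * Real.Gamma (((n : ℝ) - 1) / 2) ^ 2) * (((n : ℝ) - 1) / 2 / (m + 1)) := by ring
    rw [e1]
    have h1 : (A * Real.Gamma (((n : ℝ) - 1) / 2) ^ 2) * (((n : ℝ) - 1) / 2 / (m + 1)) ≤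
        (n : ℝ) / ((n : ℝ) - 2) * (((n : ℝ) - 1) / 2 / (m + 1)) :=
      mul_le_mul_of_nonneg_right hAG (div_nonneg (by linarith) (by linarith))
    refine h1.trans ?_
    have h2 : (n : ℝ) / ((n : ℝ) - 2) * (((n : ℝ) - 1) / 2 / (m + 1)) ≤ n / (m + 1) := by
      have h3 : (0 : ℝ) < (n : ℝ) - 2 := by linarith
      have h4 : (n : ℝ) / ((n : ℝ) - 2) * (((n : ℝ) - 1) / 2 / (m + 1)) =
          (((n : ℝ) - 1) / (2 * ((n : ℝ) - 2))) * (n / (m + 1)) := by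
        field_simp
      rw [h4]
      refine mul_le_of_le_one_left (by positivity) ?_
      rw [div_le_one (by linarith)]
      linarith
    refine h2.trans ?_
    rw [div_le_div_iff₀ (by linarith) (by linarith)]
    nlinarith
  refine ⟨fun k => bt k * (A * ∫ y, HH n k y ∂mu3), fun k => ⟨?_, ?_⟩, fun k hk => ?_,
    fun s hs => ?_⟩
  · exact mul_nonneg (hB3 k).1.le (mul_nonneg hA0.le (hI0 k))
  · have := mul_le_mul_of_nonneg_left (hc2 k) (hB3 k).1.le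
    linarith
  · obtain ⟨m, rfl⟩ : ∃ m, k = m + 2 := ⟨k - 2, by omega⟩
    refine (mul_le_mul_of_nonneg_left (hc3 m) (hB3 (m + 2)).1.le).trans (le_of_eq ?_)
    unfold ec
    push_cast
    ring
  · have hec : Summable ec := by
      have := (hB2 1 zero_le_one le_rfl).summable
      simpa using this
    set F : ℕ → ℝ × ℝ × ℝ → ℝ := fun k y => bt k * A * s ^ (2 * k) * HH n k y with hF
    have hFint : ∀ k, Integrable (F k) mu3 := fun k => (HH_int hn k).const_mul _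
    have hs2 : ∀ k : ℕ, 0 ≤ s ^ (2 * k) := fun k => by rw [pow_mul]; positivity
    have hs3 : ∀ k : ℕ, s ^ (2 * k) ≤ 1 := fun k => by
      rw [pow_mul]; exact pow_le_one₀ (sq_nonneg s) hs
    have hFnorm : ∀ k, ∫ y, ‖F k y‖ ∂mu3 = bt k * (A * ∫ y, HH n k y ∂mu3) * s ^ (2 * k) := by
      intro k
      have h1 : ∫ y, ‖F k y‖ ∂mu3 = ∫ y, F k y ∂mu3 := by
        refine integral_congr_ae ?_
        filter_upwards [ae_pos] with y hy
        refine Real.norm_of_nonneg ?_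
        exact mul_nonneg (mul_nonneg (mul_nonneg (hB3 k).1.le hA0.le) (hs2 k))
          (HH_nonneg n k hy)
      rw [h1, hF, integral_const_mul]
      ring
    have hsum : Summable (fun k => ∫ y, ‖F k y‖ ∂mu3) := by
      rw [← summable_nat_add_iff 2]
      refine Summable.of_nonneg_of_le (fun m => integral_nonneg fun y => norm_nonneg _)
        (fun m => ?_) ((((summable_nat_add_iff 2).2 hec).mul_left (3 * (n : ℝ))))
      rw [hFnorm]
      have h1 : bt (m + 2) * (A * ∫ y, HH n (m + 2) y ∂mu3) ≤ 3 * n * ec (m + 2) := by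
        refine (mul_le_mul_of_nonneg_left (hc3 m) (hB3 (m + 2)).1.le).trans (le_of_eq ?_)
        unfold ec
        push_cast
        ring
      refine le_trans ?_ h1
      exact mul_le_of_le_one_right (mul_nonneg (hB3 _).1.le (mul_nonneg hA0.le (hI0 _))) (hs3 _)
    have key := hasSum_integral_of_summable_integral_norm hFint hsum
    have h1 : (fun k => ∫ y, F k y ∂mu3) =
        fun k => bt k * (A * ∫ y, HH n k y ∂mu3) * s ^ (2 * k) := by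
      funext k
      rw [hF, integral_const_mul]
      ring
    rw [h1] at key
    have h2 : ∫ y, ∑' k, F k y ∂mu3 = kk n s := by
      unfold kk
      rw [← mu3_eq, ← integral_const_mul]
      refine integral_congr_ae ?_
      filter_upwards [ae_pos] with y hy
      set lam : ℝ := y.2.1 * y.2.2 / ((y.1 + y.2.1) * (y.1 + y.2.2)) with hlam
      have hden : 0 < (y.1 + y.2.1) * (y.1 + y.2.2) := by
        obtain ⟨h1, h2, h3⟩ := hy
        positivity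
      have hlam0 : 0 ≤ lam := by
        obtain ⟨h1, h2, h3⟩ := hy
        positivity
      have hlam1 : lam < 1 := by
        obtain ⟨h1, h2, h3⟩ := hy
        rw [hlam, div_lt_one hden]
        nlinarith [mul_pos h1 h1, mul_pos h1 h2, mul_pos h1 h3]
      have ht0 : 0 ≤ lam * s ^ 2 := mul_nonneg hlam0 (sq_nonneg s)
      have ht1 : lam * s ^ 2 < 1 := lt_of_le_of_lt (mul_le_of_le_one_right hlam0 hs) hlam1
      have h3 := (hB1 (lam * s ^ 2) ht0 ht1).mul_left (A *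
        (Real.exp (-(y.1 + y.2.1 + y.2.2)) * (y.2.1 * y.2.2) ^ ((n : ℝ) / 2 - 1) /
          √((y.1 + y.2.1) * (y.1 + y.2.2))))
      have h4 : (fun k => F k y) = fun k => A *
        (Real.exp (-(y.1 + y.2.1 + y.2.2)) * (y.2.1 * y.2.2) ^ ((n : ℝ) / 2 - 1) /
          √((y.1 + y.2.1) * (y.1 + y.2.2))) * (bt k * (lam * s ^ 2) ^ k) := by
        funext k
        simp only [hF, HH]
        rw [mul_pow, ← pow_mul]
        ring
      rw [h4, h3.tsum_eq]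
      have h5 : (y.1 + y.2.1) * (y.1 + y.2.2) - y.2.1 * y.2.2 * s ^ 2 =
          ((y.1 + y.2.1) * (y.1 + y.2.2)) * (1 - lam * s ^ 2) := by
        have h8 : ((y.1 + y.2.1) * (y.1 + y.2.2)) * lam = y.2.1 * y.2.2 := by
          rw [hlam, mul_div_cancel₀ _ hden.ne']
        rw [mul_sub, mul_one, ← mul_assoc, h8]
      rw [h5, Real.sqrt_mul hden.le]
      have h6 : √((y.1 + y.2.1) * (y.1 + y.2.2)) ≠ 0 := (Real.sqrt_pos.2 hden).ne'
      have h7 : √(1 - lam * s ^ 2) ≠ 0 := (Real.sqrt_pos.2 (by linarith)).ne'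
      rw [← hA]
      generalize Real.exp (-(y.1 + y.2.1 + y.2.2)) * (y.2.1 * y.2.2) ^ ((n : ℝ) / 2 - 1) = T
      rw [mul_assoc, div_mul_div_comm, mul_one]
    rw [h2] at key
    exact key

end PPX
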