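import Pool.Agent.PPX.Stmts

set_option autoImplicit false

namespace PPX

open MeasureTheory Set Filter Topology
open PPI PPG
open scoped Pointwise ENNReal

namespace RG1_

theorem exp_low (t : ℝ) (h0 : 0 ≤ t) (h1 : t ≤ 1 / 3) : Real.exp (-t - t ^ 2) ≤ 1 - t := by
  have h2 : 0 ≤ t + t ^ 2 := by positivity
  have h3 := Real.quadratic_le_exp_of_nonneg h2
  have h4 : 0 < Real.exp (t + t ^ 2) := Real.exp_pos _
  have h5 : Real.exp (-t - t ^ 2) * Real.exp (t + t ^ 2) = 1 := by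
    rw [← Real.exp_add]; simp [show -t - t ^ 2 + (t + t ^ 2) = 0 by ring]
  have h6 : 1 ≤ (1 - t) * Real.exp (t + t ^ 2) := by
    have h7 : (1 - t) * (1 + (t + t ^ 2) + (t + t ^ 2) ^ 2 / 2) ≤ (1 - t) * Real.exp (t + t ^ 2) :=
      mul_le_mul_of_nonneg_left h3 (by linarith)
    have h8 : 1 ≤ (1 - t) * (1 + (t + t ^ 2) + (t + t ^ 2) ^ 2 / 2) := by
      nlinarith [mul_nonneg h0 (sub_nonneg.2 h1), mul_nonneg (mul_nonneg h0 h0) (sub_nonneg.2 h1),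
        mul_nonneg (mul_nonneg (mul_nonneg h0 h0) h0) (sub_nonneg.2 h1),
        mul_nonneg (mul_nonneg (mul_nonneg (mul_nonneg h0 h0) h0) h0) (sub_nonneg.2 h1), sq_nonneg t]
    linarith
  by_contra hc
  push Not at hc
  have : (1 - t) * Real.exp (t + t ^ 2) < Real.exp (-t - t ^ 2) * Real.exp (t + t ^ 2) :=
    mul_lt_mul_of_pos_right hc h4
  linarith

theorem fin1 (cJ θ0 u L D β y X M : ℝ) (hcJ : 0 < cJ) (hcJ1 : cJ ≤ 1) (hθ : 0 < θ0)
    (hθ1 : 104 * θ0 ≤ cJ) (hL : 1 ≤ L) (hD : 0 < D) (hDL : D ≤ L) (hu : u = D / L)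
    (hβ0 : 0 ≤ β) (hβ : β ≤ D + 12 * θ0 * u) (hy : y ≤ θ0 * u)
    (hM : Real.exp (-β - y) ≤ M) (hX : 256 * X ≤ cJ * u) :
    1 ≤ Real.exp D * (M * (1 + cJ * min 1 β - 32 * X)) := by
  have hu0 : 0 < u := by rw [hu]; positivity
  have hu1 : u ≤ 1 := by rw [hu]; exact (div_le_one (by linarith)).2 hDL
  have huD : u ≤ D := by rw [hu]; exact div_le_self hD.le hL
  have hM0 : 0 < M := lt_of_lt_of_le (Real.exp_pos _) hM
  rw [← mul_assoc]
  have hDM : Real.exp (D - β - y) ≤ Real.exp D * M := by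
    rw [show D - β - y = D + (-β - y) by ring, Real.exp_add]
    exact mul_le_mul_of_nonneg_left hM (Real.exp_pos _).le
  by_cases hc : D / 2 ≤ β
  · have h1 : u / 2 ≤ min 1 β := le_min (by linarith) (by linarith)
    have h2 : 1 + cJ * u / 4 ≤ 1 + cJ * min 1 β - 32 * X := by nlinarith
    have h3 : 1 - cJ * u / 8 ≤ Real.exp D * M := by
      refine le_trans ?_ hDM
      have h4 := Real.add_one_le_exp (D - β - y)
      nlinarith
    have h5 : 0 ≤ 1 - cJ * u / 8 := by nlinarith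
    calc (1 : ℝ) ≤ (1 - cJ * u / 8) * (1 + cJ * u / 4) := by
          nlinarith [mul_pos hcJ hu0, mul_le_one₀ hcJ1 hu0.le hu1]
      _ ≤ Real.exp D * M * (1 + cJ * min 1 β - 32 * X) := by
          apply mul_le_mul h3 h2 (by nlinarith [mul_pos hcJ hu0]) (by positivity)
  · push Not at hc
    have h1 : 0 ≤ min 1 β := le_min zero_le_one hβ0
    have h2 : 1 - u / 8 ≤ 1 + cJ * min 1 β - 32 * X := by
      nlinarith [mul_nonneg hcJ.le h1]
    have h3 : 1 + u / 4 ≤ Real.exp D * M := by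
      refine le_trans ?_ hDM
      have h4 := Real.add_one_le_exp (D - β - y)
      nlinarith
    calc (1 : ℝ) ≤ (1 + u / 4) * (1 - u / 8) := by nlinarith
      _ ≤ Real.exp D * M * (1 + cJ * min 1 β - 32 * X) := by
          apply mul_le_mul h3 h2 (by linarith) (by positivity)


/-- large `n` -/
theorem large (s₀ : ℝ) : ∃ n₀ : ℕ, ∀ n : ℕ, n₀ ≤ n → ∃ s : ℝ, s₀ ≤ s ∧ 0 ≤ s ∧ s ^ 12 = n ∧
    (n : ℝ) ^ (-(1 / 3 : ℝ)) = (s ^ 4)⁻¹ ∧ (n : ℝ) ^ (1 / 100 : ℝ) ≤ max 1 (s ^ 3) ∧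
    √(n : ℝ) = s ^ 6 := by
  refine ⟨⌈(max s₀ 0) ^ 12⌉₊, ?_⟩
  intro n hn
  have hn' : (max s₀ 0) ^ 12 ≤ (n : ℝ) := le_trans (Nat.le_ceil _) (by exact_mod_cast hn)
  have hN : (0 : ℝ) ≤ n := Nat.cast_nonneg n
  refine ⟨(n : ℝ) ^ (1 / 12 : ℝ), ?_, Real.rpow_nonneg hN _, ?_, ?_, ?_, ?_⟩
  · have h1 : max s₀ 0 = ((max s₀ 0) ^ 12) ^ (1 / 12 : ℝ) := by
      rw [← Real.rpow_natCast, ← Real.rpow_mul (le_max_right _ _)]; norm_num
    calc s₀ ≤ max s₀ 0 := le_max_left _ _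
      _ = ((max s₀ 0) ^ 12) ^ (1 / 12 : ℝ) := h1
      _ ≤ _ := Real.rpow_le_rpow (by positivity) hn' (by norm_num)
  · rw [← Real.rpow_natCast, ← Real.rpow_mul hN]; norm_num
  · rw [← Real.rpow_natCast, ← Real.rpow_mul hN, ← Real.rpow_neg hN]; norm_num
  · by_cases h : (1 : ℝ) ≤ n
    · refine le_trans ?_ (le_max_right _ _)
      rw [← Real.rpow_natCast, ← Real.rpow_mul hN]
      exact Real.rpow_le_rpow_of_exponent_le h (by norm_num)
    · refine le_trans ?_ (le_max_left _ _)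
      exact Real.rpow_le_one hN (not_le.1 h).le (by norm_num)
  · rw [← Real.rpow_natCast, ← Real.rpow_mul hN, Real.sqrt_eq_rpow]; norm_num


open Classical in
/-- vectors with large energy are in clusters -/
theorem nmb (hKEN : Stmt_KEN) (n : ℕ) (ι : Type) [Fintype ι] (p : ι → ℝ) (w : ι → EE n) (θ : ℝ)
    (hn : 4 ≤ n) (hIS : IS p w) (i : ι) :
    JJ θ p w i ≤ (n : ℝ) ^ 2 * ((8 * √(n : ℝ) + 1) * nm θ p w i) := by
  obtain ⟨c, -, -, -, -, hk, -⟩ := hKEN n hn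
  unfold JJ nm
  apply mul_le_mul_of_nonneg_left _ (by positivity)
  rw [Finset.mul_sum]
  apply Finset.sum_le_sum
  intro j _
  split_ifs with h
  · have h1 : |inner ℝ (w i) (w j)| ≤ 1 := by
      have := abs_real_inner_le_norm (w i) (w j)
      rwa [hIS.nrm, hIS.nrm, mul_one] at this
    have h2 := hk (inner ℝ (w i) (w j)) (by rw [sq_le_one_iff_abs_le_one]; exact h1)
    have h3 := (hIS.ppos j).le
    nlinarith [h2.2]
  · simp

theorem Dnn (hAVE : PPI.Stmt_AVE) (n : ℕ) (hn : 1 ≤ n) (ι : Type) [Fintype ι] (p : ι → ℝ)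
    (w : ι → EE n) (D : ℝ) (hIS : IS p w) (hMI : MI p w D) : 0 ≤ D := by
  have hk := (hAVE n hn).1
  have h := (hMI (Bn n) (fun _ => 1) (isCompact_closedBall _ _) (convex_closedBall _ _)
    ⟨0, by simp [Bn]⟩ (fun i x hx => by
      have h1 : ‖x‖ ≤ 1 := by simpa [Bn] using hx
      have h2 := real_inner_le_norm (w i) x
      rw [hIS.nrm, one_mul] at h2
      linarith)).2
  simp only [mul_one, hIS.psum, one_pow] at h
  have h1 : kap n * 1 ≤ kap n * Real.exp D := by simpa [kap] using h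
  have h2 := le_of_mul_le_mul_left h1 hk
  exact Real.one_le_exp_iff.1 h2


theorem nmarith (s L N ε0 ε v : ℝ) (hs1 : 1 ≤ s) (hL : 0 < L) (hLs : L ≤ s ^ 3) (hNs : N = s ^ 12)
    (hε : ε = ε0 / L) (hε0 : 0 < ε0) (e5 : 9 ≤ ε0 * s)
    (h : ε * N ≤ N ^ 2 * ((8 * s ^ 6 + 1) * v)) : (N ^ 3)⁻¹ ≤ v := by
  have hsp : 0 < s := by linarith
  have hNp : 0 < N := by rw [hNs]; positivity
  have h4 : 8 * s ^ 6 + 1 ≤ 9 * s ^ 6 := by
    have : (1 : ℝ) ≤ s ^ 6 := one_le_pow₀ hs1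
    linarith
  by_contra hcon
  push Not at hcon
  have h5 : (8 * s ^ 6 + 1) * v < (9 * s ^ 6) * (N ^ 3)⁻¹ := by
    by_cases h0 : 0 ≤ v
    · calc (8 * s ^ 6 + 1) * v ≤ (9 * s ^ 6) * v := mul_le_mul_of_nonneg_right h4 h0
        _ < (9 * s ^ 6) * (N ^ 3)⁻¹ := mul_lt_mul_of_pos_left hcon (by positivity)
    · push Not at h0
      have h6 : (8 * s ^ 6 + 1) * v < 0 := mul_neg_of_pos_of_neg (by positivity) h0
      have h7 : 0 < (9 * s ^ 6) * (N ^ 3)⁻¹ := by positivity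
      exact lt_trans h6 h7
  have h6 : ε * N < N ^ 2 * ((9 * s ^ 6) * (N ^ 3)⁻¹) :=
    lt_of_le_of_lt h (mul_lt_mul_of_pos_left h5 (by positivity))
  have h7 : N ^ 2 * ((9 * s ^ 6) * (N ^ 3)⁻¹) = 9 * s ^ 6 / N := by field_simp
  rw [h7, lt_div_iff₀ hNp, hε, hNs] at h6
  have h8 : ε0 / L * s ^ 12 * s ^ 12 = ε0 * s ^ 24 / L := by ring
  rw [h8, div_lt_iff₀ hL] at h6
  have h9 : 9 * s ^ 6 * L ≤ 9 * s ^ 6 * s ^ 3 := mul_le_mul_of_nonneg_left hLs (by positivity)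
  have h10 : 9 * s ^ 9 ≤ ε0 * s * s ^ 9 := mul_le_mul_of_nonneg_right e5 (by positivity)
  have h11 : ε0 * s ^ 10 ≤ ε0 * s ^ 24 :=
    mul_le_mul_of_nonneg_left (pow_le_pow_right₀ hs1 (by norm_num)) hε0.le
  have h12 : 9 * s ^ 6 * s ^ 3 = 9 * s ^ 9 := by ring
  have h13 : ε0 * s * s ^ 9 = ε0 * s ^ 10 := by ring
  linarith

theorem betaarith (s L N θ0 θ D u β P : ℝ) (hs : 8 ≤ s) (hL : 0 < L) (hL1 : 1 ≤ L)
    (hLs : L ≤ s ^ 3) (hθ : θ = θ0 / L) (hθ0 : 0 < θ0) (hθ1 : θ0 ≤ 1 / 104) (hD : 0 < D)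
    (hu : 0 < u) (hDu : D = u * L) (e1 : s⁻¹ ≤ θ0 / 4) (hβ0 : 0 ≤ β)
    (hP : P ≤ D * (s ^ 84)⁻¹) (hclu : β * (1 - 2 * θ - (s ^ 4)⁻¹) ≤ D + P) :
    β ≤ D + 12 * θ0 * u ∧ β ≤ 2 * D := by
  have hs1 : 1 ≤ s := by linarith
  have hsp : 0 < s := by linarith
  have hθp : 0 < θ := by rw [hθ]; positivity
  have hθle : θ ≤ θ0 := by rw [hθ]; exact div_le_self hθ0.le hL1
  have h4 : (s ^ 4)⁻¹ ≤ s⁻¹ := by
    apply inv_anti₀ hsp
    calc s = s ^ 1 := (pow_one s).symm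
      _ ≤ s ^ 4 := pow_le_pow_right₀ hs1 (by norm_num)
  have hinv : s⁻¹ ≤ 1 / 8 := by rw [inv_eq_one_div]; exact one_div_le_one_div_of_le (by norm_num) hs
  have h84 : (s ^ 84)⁻¹ ≤ (s ^ 4)⁻¹ :=
    inv_anti₀ (by positivity) (pow_le_pow_right₀ hs1 (by norm_num))
  have h4p : 0 < (s ^ 4)⁻¹ := by positivity
  obtain ⟨y, hyy⟩ : ∃ y, y = 2 * θ + (s ^ 4)⁻¹ := ⟨_, rfl⟩
  have hy0 : 0 < y := by rw [hyy]; linarith
  have hy : y ≤ 1 / 4 := by rw [hyy]; linarith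
  have h1 : (s ^ 84)⁻¹ ≤ y := by rw [hyy]; linarith
  have h2 : β * (1 - y) ≤ D * (1 + y) := by
    calc β * (1 - y) = β * (1 - 2 * θ - (s ^ 4)⁻¹) := by rw [hyy]; ring
      _ ≤ D + P := hclu
      _ ≤ D + D * (s ^ 84)⁻¹ := by linarith
      _ = D * (1 + (s ^ 84)⁻¹) := by ring
      _ ≤ D * (1 + y) := mul_le_mul_of_nonneg_left (by linarith) hD.le
  have h3 : (1 + y) ≤ (1 + 4 * y) * (1 - y) := by nlinarith
  have h5 : β ≤ D * (1 + 4 * y) := by
    have h6 : β * (1 - y) ≤ D * (1 + 4 * y) * (1 - y) := by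
      calc β * (1 - y) ≤ D * (1 + y) := h2
        _ ≤ D * ((1 + 4 * y) * (1 - y)) := mul_le_mul_of_nonneg_left h3 hD.le
        _ = _ := by ring
    exact le_of_mul_le_mul_right h6 (by linarith)
  refine ⟨?_, ?_⟩
  · have hLs4 : L * (s ^ 4)⁻¹ ≤ s⁻¹ := by
      calc L * (s ^ 4)⁻¹ ≤ s ^ 3 * (s ^ 4)⁻¹ := mul_le_mul_of_nonneg_right hLs (by positivity)
        _ = s⁻¹ := by field_simp
    have hDθ : D * θ = θ0 * u := by rw [hθ, hDu]; field_simp
    have h7 : D * (s ^ 4)⁻¹ ≤ u * s⁻¹ := by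
      rw [hDu, mul_assoc]; exact mul_le_mul_of_nonneg_left hLs4 hu.le
    have h8 : u * s⁻¹ ≤ u * (θ0 / 4) := mul_le_mul_of_nonneg_left e1 hu.le
    have h9 : D * (1 + 4 * y) = D + 8 * (D * θ) + 4 * (D * (s ^ 4)⁻¹) := by rw [hyy]; ring
    rw [h9, hDθ] at h5
    have h10 : 0 < θ0 * u := by positivity
    linarith
  · calc β ≤ D * (1 + 4 * y) := h5
      _ ≤ D * 2 := mul_le_mul_of_nonneg_left (by linarith) hD.le
      _ = 2 * D := by ring

theorem smallD (s L N D u : ℝ) (hs : 1 ≤ s) (hLs : L ≤ s ^ 3)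
    (hNs : N = s ^ 12) (hu : 0 < u) (hDu : D = u * L) : D / N ≤ u * (s ^ 9)⁻¹ := by
  have hsp : 0 < s := by linarith
  rw [hDu, hNs, mul_div_assoc]
  apply mul_le_mul_of_nonneg_left _ hu.le
  rw [div_le_iff₀ (by positivity)]
  calc L ≤ s ^ 3 := hLs
    _ = (s ^ 9)⁻¹ * s ^ 12 := by field_simp

/-- the bound of the energy -/
theorem Xarith (s L N θ0 θ ε0 ε δ D u β x CX CT q c T B P P15 S X : ℝ) (hs : 8 ≤ s) (hL : 1 ≤ L)
    (hLs : L ≤ s ^ 3) (hNs : N = s ^ 12) (hθ0 : 0 < θ0) (hθ : θ = θ0 / L) (hδ : 0 < δ)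
    (hε0 : ε0 = δ / 256) (hε : ε = ε0 / L) (hD : 0 < D) (hu : 0 < u) (hu1 : u ≤ 1)
    (hDu : D = u * L) (hβ0 : 0 ≤ β) (hβ : β ≤ 2 * D) (hxβ : x = β / N) (hCX : 0 < CX)
    (hCT : 0 < CT) (hq0 : 0 ≤ q) (hq : q * L ^ 6 ≤ c) (hc1 : c ≤ δ * θ0 / (CX * CT))
    (hc2 : c ≤ (δ / (3 * CX)) ^ 2) (hT : T ≤ CT * q * D) (hB : B ^ 2 ≤ β ^ 3 * q)
    (hP : P ≤ D * (s ^ 84)⁻¹) (hP15 : P15 = (N ^ 15)⁻¹) (hD13 : (N ^ 13)⁻¹ ≤ D)
    (e2 : CX / (θ0 * δ) ≤ s) (e3 : 4 * CX * s⁻¹ ≤ δ) (e4 : 16 * s⁻¹ ≤ δ)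
    (hS : S ≤ 8 * ε * (D + P) + P)
    (hX : X ≤ CX / θ * (T + P15) + CX * (x + N * x ^ 2 + B) + 16 * S) : X ≤ 8 * δ * u := by
  have hs1 : 1 ≤ s := by linarith
  have hsp : 0 < s := by linarith
  have hLp : 0 < L := by linarith
  have hNp : 0 < N := by rw [hNs]; positivity
  have hinvp : 0 < s⁻¹ := by positivity
  have hpow : ∀ k : ℕ, 1 ≤ k → (s ^ k)⁻¹ ≤ s⁻¹ := by
    intro k hk
    apply inv_anti₀ hsp
    calc s = s ^ 1 := (pow_one s).symm
      _ ≤ s ^ k := pow_le_pow_right₀ hs1 hk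
  have hc0 : 0 ≤ c := le_trans (by positivity) hq
  -- a
  have ha : CX / θ * T ≤ δ * u := by
    have h1 : CX / θ = CX * L / θ0 := by rw [hθ]; field_simp
    have h2 : CX / θ * T ≤ CX / θ * (CT * q * D) := by
      apply mul_le_mul_of_nonneg_left hT; rw [h1]; positivity
    have h3 : CX / θ * (CT * q * D) = CX * CT / θ0 * (q * L ^ 2) * u := by rw [h1, hDu]; ring
    have h4 : q * L ^ 2 ≤ c := le_trans (mul_le_mul_of_nonneg_left
      (pow_le_pow_right₀ hL (by norm_num)) hq0) hq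
    have h5 : CX * CT / θ0 * (q * L ^ 2) ≤ δ := by
      calc CX * CT / θ0 * (q * L ^ 2) ≤ CX * CT / θ0 * (δ * θ0 / (CX * CT)) :=
            mul_le_mul_of_nonneg_left (le_trans h4 hc1) (by positivity)
        _ = δ := by field_simp
    rw [h3] at h2
    exact le_trans h2 (mul_le_mul_of_nonneg_right h5 hu.le)
  -- b
  have hb : CX / θ * P15 ≤ δ * u := by
    have h1 : CX / θ = CX * L / θ0 := by rw [hθ]; field_simp
    have h2 : P15 ≤ D * (N ^ 2)⁻¹ := by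
      rw [hP15, show (N ^ 15)⁻¹ = (N ^ 13)⁻¹ * (N ^ 2)⁻¹ by rw [← mul_inv]; ring]
      exact mul_le_mul_of_nonneg_right hD13 (by positivity)
    have h3 : CX / θ * P15 ≤ CX / θ * (D * (N ^ 2)⁻¹) := by
      apply mul_le_mul_of_nonneg_left h2; rw [h1]; positivity
    have h4 : CX / θ * (D * (N ^ 2)⁻¹) = CX / (θ0 * δ) * (L ^ 2 * (N ^ 2)⁻¹) * (δ * u) := by
      rw [h1, hDu]; field_simp
    have h5 : CX / (θ0 * δ) * (L ^ 2 * (N ^ 2)⁻¹) ≤ 1 := by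
      have h6 : L ^ 2 ≤ (s ^ 3) ^ 2 := pow_le_pow_left₀ hLp.le hLs 2
      calc CX / (θ0 * δ) * (L ^ 2 * (N ^ 2)⁻¹) ≤ s * ((s ^ 3) ^ 2 * (N ^ 2)⁻¹) := by
            apply mul_le_mul e2 (mul_le_mul_of_nonneg_right h6 (by positivity)) (by positivity)
              hsp.le
        _ = (s ^ 17)⁻¹ := by rw [hNs]; field_simp
        _ ≤ s⁻¹ := hpow 17 (by norm_num)
        _ ≤ 1 := by rw [inv_eq_one_div, div_le_one hsp]; exact hs1
    rw [h4] at h3
    calc CX / θ * P15 ≤ CX / (θ0 * δ) * (L ^ 2 * (N ^ 2)⁻¹) * (δ * u) := h3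
      _ ≤ 1 * (δ * u) := mul_le_mul_of_nonneg_right h5 (by positivity)
      _ = δ * u := one_mul _
  have hDN := smallD s L N D u hs1 hLs hNs hu hDu
  have hx0 : 0 ≤ x := by rw [hxβ]; positivity
  have hx1 : x ≤ 2 * (u * (s ^ 9)⁻¹) := by
    rw [hxβ]
    calc β / N ≤ 2 * D / N := div_le_div_of_nonneg_right hβ hNp.le
      _ = 2 * (D / N) := by ring
      _ ≤ _ := by linarith
  -- c
  have hcc : CX * x ≤ δ * u := by
    have h1 : (s ^ 9)⁻¹ ≤ s⁻¹ := hpow 9 (by norm_num)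
    have h2 : x ≤ 2 * u * s⁻¹ := by
      have := mul_le_mul_of_nonneg_left h1 hu.le
      linarith
    calc CX * x ≤ CX * (2 * u * s⁻¹) := mul_le_mul_of_nonneg_left h2 hCX.le
      _ = (4 * CX * s⁻¹) * u / 2 := by ring
      _ ≤ δ * u / 2 := by
        have := mul_le_mul_of_nonneg_right e3 hu.le
        linarith
      _ ≤ δ * u := by have : 0 < δ * u := by positivity
                      linarith
  -- d
  have hd : CX * (N * x ^ 2) ≤ δ * u := by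
    have h1 : N * x ≤ 2 * D := by rw [hxβ]; calc N * (β / N) = β := by field_simp
                                        _ ≤ 2 * D := hβ
    have h2 : D ≤ s ^ 3 := by
      rw [hDu]; calc u * L ≤ 1 * L := mul_le_mul_of_nonneg_right hu1 hLp.le
                  _ = L := one_mul _
                  _ ≤ s ^ 3 := hLs
    have h3 : N * x ^ 2 ≤ 4 * (u * s⁻¹) := by
      calc N * x ^ 2 = (N * x) * x := by ring
        _ ≤ (2 * s ^ 3) * (2 * (u * (s ^ 9)⁻¹)) := by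
          apply mul_le_mul (by linarith) hx1 hx0 (by positivity)
        _ = 4 * (u * (s ^ 6)⁻¹) := by field_simp; ring
        _ ≤ 4 * (u * s⁻¹) := by
          have := mul_le_mul_of_nonneg_left (hpow 6 (by norm_num)) hu.le
          linarith
    calc CX * (N * x ^ 2) ≤ CX * (4 * (u * s⁻¹)) := mul_le_mul_of_nonneg_left h3 hCX.le
      _ = (4 * CX * s⁻¹) * u := by ring
      _ ≤ δ * u := mul_le_mul_of_nonneg_right e3 hu.le
  -- e
  have he : CX * B ≤ δ * u := by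
    have h1 : B ^ 2 ≤ (3 * u * (δ / (3 * CX))) ^ 2 := by
      have h2 : β ^ 3 ≤ (2 * D) ^ 3 := pow_le_pow_left₀ hβ0 hβ 3
      have h3 : q * L ^ 3 ≤ c := le_trans (mul_le_mul_of_nonneg_left
        (pow_le_pow_right₀ hL (by norm_num)) hq0) hq
      calc B ^ 2 ≤ β ^ 3 * q := hB
        _ ≤ (2 * D) ^ 3 * q := mul_le_mul_of_nonneg_right h2 hq0
        _ = 8 * u ^ 2 * (u * (q * L ^ 3)) := by rw [hDu]; ring
        _ ≤ 8 * u ^ 2 * (1 * (δ / (3 * CX)) ^ 2) := by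
          apply mul_le_mul_of_nonneg_left _ (by positivity)
          exact mul_le_mul hu1 (le_trans h3 hc2) (by positivity) (by norm_num)
        _ ≤ 9 * u ^ 2 * (1 * (δ / (3 * CX)) ^ 2) := by
          apply mul_le_mul_of_nonneg_right _ (by positivity)
          have : 0 < u ^ 2 := by positivity
          linarith
        _ = (3 * u * (δ / (3 * CX))) ^ 2 := by ring
    have h2 : B ≤ 3 * u * (δ / (3 * CX)) := abs_le_of_sq_le_sq' h1 (by positivity) |>.2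
    calc CX * B ≤ CX * (3 * u * (δ / (3 * CX))) := mul_le_mul_of_nonneg_left h2 hCX.le
      _ = δ * u := by field_simp
  -- f
  have hf : 16 * S ≤ 2 * (δ * u) := by
    have h1 : P ≤ u * (δ / 16) := by
      have h2 : D * (s ^ 84)⁻¹ ≤ u * s⁻¹ := by
        have h3 : L * (s ^ 84)⁻¹ ≤ s⁻¹ := by
          calc L * (s ^ 84)⁻¹ ≤ s ^ 3 * (s ^ 84)⁻¹ := mul_le_mul_of_nonneg_right hLs (by positivity)
            _ = (s ^ 81)⁻¹ := by field_simp
            _ ≤ s⁻¹ := hpow 81 (by norm_num)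
        rw [hDu, mul_assoc]; exact mul_le_mul_of_nonneg_left h3 hu.le
      have h4 : u * s⁻¹ ≤ u * (δ / 16) := mul_le_mul_of_nonneg_left (by linarith) hu.le
      linarith
    have h2 : P ≤ D := by
      calc P ≤ D * (s ^ 84)⁻¹ := hP
        _ ≤ D * 1 := mul_le_mul_of_nonneg_left (by
            rw [inv_eq_one_div, div_le_one (by positivity)]; exact one_le_pow₀ hs1) hD.le
        _ = D := mul_one _
    have hεp : 0 < ε := by rw [hε, hε0]; positivity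
    have h3 : 8 * ε * (D + P) ≤ 8 * ε * (2 * D) := mul_le_mul_of_nonneg_left (by linarith)
      (by positivity)
    have h4 : 8 * ε * (2 * D) = δ * u / 16 := by rw [hε, hε0, hDu]; field_simp; ring
    have h5 : 0 < δ * u := by positivity
    linarith
  have h1 : CX / θ * (T + P15) + CX * (x + N * x ^ 2 + B) + 16 * S =
    CX / θ * T + CX / θ * P15 + (CX * x + CX * (N * x ^ 2) + CX * B) + 16 * S := by ring
  have h2 : 0 < δ * u := by positivity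
  linarith

end RG1_

open Classical in
theorem rg1_proof (hJLB : Stmt_JLB) (hXUB : Stmt_XUB) (hBQQ : Stmt_BQQ) (hTBD : Stmt_TBD)
    (hCLU : Stmt_CLU) (hLAY : Stmt_LAY) (hKEN : Stmt_KEN) (hAVE : PPI.Stmt_AVE) : Stmt_RG1 := by
  obtain ⟨cJ, hcJ, hcJ1, hJLB⟩ := hJLB
  obtain ⟨CX, hCX, hXUB⟩ := hXUB 16 (by norm_num)
  obtain ⟨CT, n₁, hCT, hTBD⟩ := hTBD 17
  obtain ⟨n₂, hCLU⟩ := hCLU 3 20
  obtain ⟨n₃, hLAY⟩ := hLAY 20 20
  obtain ⟨θ0, hθ0⟩ : ∃ x, x = cJ / 104 := ⟨_, rfl⟩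
  obtain ⟨δ, hδ⟩ : ∃ x, x = cJ / 2048 := ⟨_, rfl⟩
  obtain ⟨ε0, hε0⟩ : ∃ x, x = δ / 256 := ⟨_, rfl⟩
  have hθp : 0 < θ0 := by rw [hθ0]; positivity
  have hδp : 0 < δ := by rw [hδ]; positivity
  have hεp : 0 < ε0 := by rw [hε0]; positivity
  have hθ1 : θ0 ≤ 1 / 104 := by rw [hθ0]; linarith
  have hδ1 : δ ≤ 1 / 2048 := by rw [hδ]; linarith
  have hε1 : ε0 ≤ 1 := by rw [hε0]; linarith
  obtain ⟨n₄, hlarge⟩ := RG1_.large
    (max 8 (max (4 / θ0) (max (CX / (θ0 * δ)) (max (4 * CX / δ) (max (16 / δ) (9 / ε0))))))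
  obtain ⟨c, hc⟩ : ∃ c, c = min (δ * θ0 / (CX * CT)) ((δ / (3 * CX)) ^ 2) := ⟨_, rfl⟩
  have hcp : 0 < c := by rw [hc]; exact lt_min (by positivity) (by positivity)
  refine ⟨c, max n₁ (max n₂ (max n₃ (max n₄ 4))), hcp, ?_⟩
  intro n ι _ p w D q L hn hIS hMI hQB hL hLn hD hDL hq
  have hn1 : n₁ ≤ n := le_trans (le_max_left _ _) hn
  have hn2 : n₂ ≤ n := le_trans (le_trans (le_max_left _ _) (le_max_right _ _)) hn
  have hn3 : n₃ ≤ n := le_trans (le_trans (le_trans (le_max_left _ _) (le_max_right _ _))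
    (le_max_right _ _)) hn
  have hn4 : n₄ ≤ n := le_trans (le_trans (le_trans (le_trans (le_max_left _ _)
    (le_max_right _ _)) (le_max_right _ _)) (le_max_right _ _)) hn
  have hn5 : 4 ≤ n := le_trans (le_trans (le_trans (le_trans (le_max_right _ _)
    (le_max_right _ _)) (le_max_right _ _)) (le_max_right _ _)) hn
  obtain ⟨s, hs0, hs, hs12, hs3, hsL, hsq⟩ := hlarge n hn4
  have g1 : 8 ≤ s := le_trans (le_max_left _ _) hs0
  have g2 : 4 / θ0 ≤ s := le_trans (le_trans (le_max_left _ _) (le_max_right _ _)) hs0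
  have g3 : CX / (θ0 * δ) ≤ s := le_trans (le_trans (le_trans (le_max_left _ _)
    (le_max_right _ _)) (le_max_right _ _)) hs0
  have g4 : 4 * CX / δ ≤ s := le_trans (le_trans (le_trans (le_trans (le_max_left _ _)
    (le_max_right _ _)) (le_max_right _ _)) (le_max_right _ _)) hs0
  have g5 : 16 / δ ≤ s := le_trans (le_trans (le_trans (le_trans (le_trans (le_max_left _ _)
    (le_max_right _ _)) (le_max_right _ _)) (le_max_right _ _)) (le_max_right _ _)) hs0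
  have g6 : 9 / ε0 ≤ s := le_trans (le_trans (le_trans (le_trans (le_trans (le_max_right _ _)
    (le_max_right _ _)) (le_max_right _ _)) (le_max_right _ _)) (le_max_right _ _)) hs0
  have hs1 : 1 ≤ s := by linarith
  have hsp : 0 < s := by linarith
  have hs3' : (1 : ℝ) ≤ s ^ 3 := one_le_pow₀ hs1
  have hLs : L ≤ s ^ 3 := by
    refine le_trans hLn (le_trans hsL ?_)
    rw [max_eq_right hs3']
  have hLp : 0 < L := by linarith
  obtain ⟨N, hN⟩ : ∃ N : ℝ, N = n := ⟨_, rfl⟩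
  have hNs : N = s ^ 12 := by rw [hN, hs12]
  have hNp : 0 < N := by rw [hNs]; positivity
  -- the parameters
  obtain ⟨θ, hθ⟩ : ∃ x, x = θ0 / L := ⟨_, rfl⟩
  obtain ⟨ε, hε⟩ : ∃ x, x = ε0 / L := ⟨_, rfl⟩
  have hθp' : 0 < θ := by rw [hθ]; positivity
  have hεp' : 0 < ε := by rw [hε]; positivity
  have hθle : θ ≤ θ0 := by rw [hθ]; exact div_le_self hθp.le hL
  have hεle : ε ≤ ε0 := by rw [hε]; exact div_le_self hεp.le hL
  obtain ⟨u, hu⟩ : ∃ x, x = D / L := ⟨_, rfl⟩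
  have hD13 : (N ^ 13)⁻¹ ≤ D := by
    rw [show (-13 : ℝ) = -((13 : ℕ) : ℝ) by norm_num, Real.rpow_neg (Nat.cast_nonneg n),
      Real.rpow_natCast, ← hN] at hD
    exact hD
  have hDp : 0 < D := lt_of_lt_of_le (by positivity) hD13
  have hup : 0 < u := by rw [hu]; positivity
  have hDu : D = u * L := by rw [hu]; field_simp
  have hN20 : (n : ℝ) ^ (-((20 : ℕ) : ℝ)) ≤ D * (s ^ 84)⁻¹ := by
    rw [Real.rpow_neg (Nat.cast_nonneg n), Real.rpow_natCast, ← hN]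
    have : (N ^ 20)⁻¹ = (N ^ 13)⁻¹ * (s ^ 84)⁻¹ := by
      rw [hNs, ← mul_inv]; congr 1; ring
    rw [this]
    exact mul_le_mul_of_nonneg_right hD13 (by positivity)
  have hinvp : 0 < s⁻¹ := by positivity
  -- the small quantities
  have e1 : s⁻¹ ≤ θ0 / 4 := by
    rw [div_le_iff₀ hθp] at g2
    rw [inv_eq_one_div, div_le_div_iff₀ hsp (by norm_num)]
    linarith
  have e3 : 4 * CX * s⁻¹ ≤ δ := by
    rw [div_le_iff₀ hδp] at g4
    rw [← div_eq_mul_inv, div_le_iff₀ hsp]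
    linarith
  have e4 : 16 * s⁻¹ ≤ δ := by
    rw [div_le_iff₀ hδp] at g5
    rw [← div_eq_mul_inv, div_le_iff₀ hsp]
    linarith
  have e5 : 9 ≤ ε0 * s := by
    rw [div_le_iff₀ hεp] at g6
    linarith
  -- good and bad vectors
  obtain ⟨g, hg⟩ : ∃ g : Finset ι, g = Finset.univ.filter (fun i => JJ θ p w i < ε * n) := ⟨_, rfl⟩
  have hgi : ∀ i ∈ g, JJ θ p w i < ε * n := by
    intro i hi; rw [hg, Finset.mem_filter] at hi; exact hi.2
  have hbi : ∀ i ∈ gᶜ, ε * n ≤ JJ θ p w i := by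
    intro i hi
    rw [Finset.mem_compl, hg, Finset.mem_filter, not_and] at hi
    exact not_lt.1 (hi (Finset.mem_univ i))
  obtain ⟨x, hx⟩ : ∃ x, x = ∑ i ∈ gᶜ, p i := ⟨_, rfl⟩
  have hx0 : 0 ≤ x := by rw [hx]; exact Finset.sum_nonneg fun i _ => (hIS.ppos i).le
  have hnm : ∀ i ∈ gᶜ, (n : ℝ) ^ (-((3 : ℕ) : ℝ)) ≤ nm θ p w i := by
    intro i hi
    have h1 := RG1_.nmb hKEN n ι p w θ hn5 hIS i
    have h2 := hbi i hi
    rw [hsq] at h1
    rw [Real.rpow_neg (Nat.cast_nonneg n), Real.rpow_natCast, ← hN]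
    rw [← hN] at h1 h2
    exact RG1_.nmarith s L N ε0 ε _ hs1 hLp hLs hNs hε hεp e5 (le_trans h2 h1)
  have hclu := hCLU n ι p w D θ gᶜ hn2 hIS hMI hθp'.le (by linarith) hnm
  rw [← hx, hs3, ← hN] at hclu
  have hN20' : N ^ (-((20 : ℕ) : ℝ)) ≤ D * (s ^ 84)⁻¹ := by rw [hN]; exact hN20
  obtain ⟨β, hβ⟩ : ∃ β, β = N * x := ⟨_, rfl⟩
  have hβ0 : 0 ≤ β := by rw [hβ]; positivity
  rw [← hβ] at hclu
  obtain ⟨hβ2, hβ2D⟩ := RG1_.betaarith s L N θ0 θ D u β _ g1 hLp hL hLs hθ hθp hθ1 hDp hup hDu e1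
    hβ0 hN20' hclu
  have hxβ : x = β / N := by rw [hβ]; field_simp
  have hDN := RG1_.smallD s L N D u hs1 hLs hNs hup hDu
  have hu1 : u ≤ 1 := by rw [hu]; exact (div_le_one hLp).2 hDL
  have hx1 : x ≤ 2 * (u * (s ^ 9)⁻¹) := by
    rw [hxβ]
    calc β / N ≤ 2 * D / N := div_le_div_of_nonneg_right hβ2D hNp.le
      _ = 2 * (D / N) := by ring
      _ ≤ _ := by linarith
  have hs9 : (s ^ 9)⁻¹ ≤ 1 / 8 := by
    rw [inv_eq_one_div]
    apply one_div_le_one_div_of_le (by norm_num)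
    calc (8 : ℝ) ≤ s := g1
      _ = s ^ 1 := (pow_one s).symm
      _ ≤ s ^ 9 := pow_le_pow_right₀ hs1 (by norm_num)
  have hx2 : x ≤ 1 / 4 := by
    have h2 : u * (s ^ 9)⁻¹ ≤ 1 * (1 / 8) := mul_le_mul hu1 hs9 (by positivity) (by norm_num)
    linarith
  have hsum : ∑ i ∈ g, p i = 1 - x := by
    have := Finset.sum_add_sum_compl g p
    rw [hIS.psum, ← hx] at this
    linarith
  have hgne : g.Nonempty := by
    rw [Finset.nonempty_iff_ne_empty]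
    intro h
    rw [h, Finset.sum_empty] at hsum
    linarith
  have hq0 : 0 ≤ q := by
    have := hQB (EuclideanSpace.single ⟨0, by omega⟩ 1) (by simp)
    refine le_trans ?_ this
    apply mul_nonneg (Nat.cast_nonneg n)
    exact Finset.sum_nonneg fun i _ => mul_nonneg (hIS.ppos i).le (by positivity)
  -- the energy
  have hT := hTBD n ι p w D q hn1 hIS hMI hQB
  have hB := hBQQ n ι p w q gᶜ (by omega) hIS hQB
  have hS := hLAY n ι p w D θ ε g hn3 hIS hMI hθp'.le (by linarith) hεp' (by linarith) hgi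
  have hX := hXUB n ι p w θ g hn5 hIS hθp' (by linarith) (by rw [← hx]; exact hx2)
  have h15 : (n : ℝ) ^ (1 - ((16 : ℕ) : ℝ)) = (N ^ 15)⁻¹ := by
    rw [show (1 : ℝ) - ((16 : ℕ) : ℝ) = -((15 : ℕ) : ℝ) by norm_num,
      Real.rpow_neg (Nat.cast_nonneg n), Real.rpow_natCast, ← hN]
  rw [h15] at hX
  rw [← hx, ← hN, ← hβ] at hB
  rw [← hN] at hT hS
  rw [← hx, ← hN] at hX
  have hXX := RG1_.Xarith s L N θ0 θ ε0 ε δ D u β x CX CT q c _ _ _ _ _ (XX g p w) g1 hL hLs hNs hθp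
    hθ hδp hε0 hε hDp hup hu1 hDu hβ0 hβ2D hxβ hCX hCT hq0 hq (by rw [hc]; exact min_le_left _ _)
    (by rw [hc]; exact min_le_right _ _) hT hB hN20' rfl hD13 g3 e3 e4 hS hX
  -- the lower bound
  have hJ := hJLB n ι p w g gᶜ hn5 hIS hgne disjoint_compl_right
  rw [hsum, ← hx, ← hN, ← hβ] at hJ
  have hy : N * x ^ 2 ≤ θ0 * u := by
    have h1 : N * x ≤ 2 * s ^ 3 := by
      rw [← hβ]
      calc β ≤ 2 * D := hβ2D
        _ ≤ 2 * L := by linarith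
        _ ≤ 2 * s ^ 3 := by linarith
    calc N * x ^ 2 = (N * x) * x := by ring
      _ ≤ (2 * s ^ 3) * (2 * (u * (s ^ 9)⁻¹)) := mul_le_mul h1 hx1 hx0 (by positivity)
      _ = 4 * (u * (s ^ 6)⁻¹) := by field_simp; ring
      _ ≤ 4 * (u * s⁻¹) := by
        have h6 : (s ^ 6)⁻¹ ≤ s⁻¹ := by
          apply inv_anti₀ hsp
          calc s = s ^ 1 := (pow_one s).symm
            _ ≤ s ^ 6 := pow_le_pow_right₀ hs1 (by norm_num)
        have := mul_le_mul_of_nonneg_left h6 hup.le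
        linarith
      _ ≤ 4 * (u * (θ0 / 4)) := by
        have := mul_le_mul_of_nonneg_left e1 hup.le
        linarith
      _ = θ0 * u := by ring
  have hM : Real.exp (-β - N * x ^ 2) ≤ (1 - x) ^ n := by
    have h1 := RG1_.exp_low x hx0 (by linarith)
    calc Real.exp (-β - N * x ^ 2) = Real.exp (-x - x ^ 2) ^ n := by
          rw [← Real.exp_nat_mul, ← hN, hβ]; congr 1; ring
      _ ≤ (1 - x) ^ n := pow_le_pow_left₀ (Real.exp_pos _).le h1 n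
  have hfin := RG1_.fin1 cJ θ0 u L D β (N * x ^ 2) (XX g p w) ((1 - x) ^ n) hcJ hcJ1 hθp
    (by rw [hθ0]; linarith) hL hDp hDL hu hβ0 hβ2 hy hM (by
      calc 256 * XX g p w ≤ 256 * (8 * δ * u) := by linarith
        _ = cJ * u := by rw [hδ]; ring)
  have hX0 : 0 ≤ X0 n := by
    unfold X0 kap vl
    positivity
  calc X0 n = X0 n * 1 := (mul_one _).symm
    _ ≤ X0 n * (Real.exp D * ((1 - x) ^ n * (1 + cJ * min 1 β - 32 * XX g p w))) :=
        mul_le_mul_of_nonneg_left hfin hX0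
    _ = Real.exp D * (X0 n * ((1 - x) ^ n * (1 + cJ * min 1 β - 32 * XX g p w))) := by ring
    _ ≤ Real.exp D * XT p w := mul_le_mul_of_nonneg_left hJ (Real.exp_pos _).le

end PPX
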