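import Pool.Agent.PPX.Stmts

set_option autoImplicit false

namespace PPX

open MeasureTheory Set Filter Topology
open PPI PPG
open scoped Pointwise ENNReal

namespace RG4_

variable {n : ℕ} {ι : Type} [Fintype ι]

theorem inner_sq_le {a v : EE n} (ha : ‖a‖ = 1) (hv : ‖v‖ = 1) : (inner ℝ a v : ℝ) ^ 2 ≤ 1 := by
  have h := abs_real_inner_le_norm a v
  rw [ha, hv, mul_one] at h
  rw [← sq_abs]
  nlinarith [abs_nonneg (inner ℝ a v : ℝ)]

/-- the gradient is homogeneous of degree zero -/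
theorem inner_gh (p : ι → ℝ) (w : ι → EE n) (hw : ∀ i, ‖w i‖ = 1) (t : EE n) (ht : ‖t‖ = 1) :
    (inner ℝ (gh p w t) t : ℝ) = hh p w t := by
  rw [gh, hh, sum_inner]
  refine Finset.sum_congr rfl fun i _ => ?_
  rw [inner_smul_left, inner_sub_left, inner_smul_left, real_inner_self_eq_norm_sq, ht]
  simp only [conj_trivial]
  have h1 := inner_sq_le (hw i) ht
  have h2 : (0 : ℝ) ≤ 1 - (inner ℝ (w i) t) ^ 2 := by linarith
  have h3 := Real.mul_self_sqrt h2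
  by_cases h0 : √(1 - (inner ℝ (w i) t) ^ 2) = 0
  · rw [h0]; simp
  · field_simp
    linear_combination (-p i) * h3

theorem exists_dir {E : Type*} [NormedAddCommGroup E] [InnerProductSpace ℝ E] (t τ : E)
    (ht : ‖t‖ = 1) (hτ : (inner ℝ τ t : ℝ) = 0) (hτ0 : τ ≠ 0) (d : ℝ) (hd0 : 0 < d)
    (hd1 : d ≤ 1) : ∃ v : E, ‖v‖ = 1 ∧ ‖v - t‖ = d ∧ d / 2 * ‖τ‖ ≤ inner ℝ τ (v - t) := by
  have hn : 0 < ‖τ‖ := norm_pos_iff.2 hτ0
  have hdd : d ^ 2 ≤ 1 := by nlinarith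
  have hc : (0 : ℝ) ≤ 1 - (1 - d ^ 2 / 2) ^ 2 := by
    have e : 1 - (1 - d ^ 2 / 2) ^ 2 = d ^ 2 * (1 - d ^ 2 / 4) := by ring
    rw [e]
    exact mul_nonneg (sq_nonneg d) (by linarith)
  set s : ℝ := √(1 - (1 - d ^ 2 / 2) ^ 2) with hs
  have hs2 : s ^ 2 = 1 - (1 - d ^ 2 / 2) ^ 2 := Real.sq_sqrt hc
  have hs0 : 0 ≤ s := Real.sqrt_nonneg _
  have htt : (inner ℝ t t : ℝ) = 1 := by rw [real_inner_self_eq_norm_sq, ht]; norm_num
  have hττ : (inner ℝ τ τ : ℝ) = ‖τ‖ ^ 2 := real_inner_self_eq_norm_sq τ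
  have htτ : (inner ℝ t τ : ℝ) = 0 := by rw [real_inner_comm]; exact hτ
  have hn2 : ‖τ‖ ≠ 0 := hn.ne'
  have hv1 : ‖(1 - d ^ 2 / 2) • t + (s / ‖τ‖) • τ‖ ^ 2 = 1 := by
    rw [← real_inner_self_eq_norm_sq, inner_add_left, inner_add_right, inner_add_right]
    simp only [real_inner_smul_left, real_inner_smul_right, htt, hττ, htτ, hτ]
    have hq : s / ‖τ‖ * ‖τ‖ = s := div_mul_cancel₀ s hn2
    linear_combination hs2 + (s / ‖τ‖ * ‖τ‖ + s) * hq
  refine ⟨(1 - d ^ 2 / 2) • t + (s / ‖τ‖) • τ, ?_, ?_, ?_⟩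
  · have h0 := norm_nonneg ((1 - d ^ 2 / 2) • t + (s / ‖τ‖) • τ)
    nlinarith
  · have h2 : ‖(1 - d ^ 2 / 2) • t + (s / ‖τ‖) • τ - t‖ ^ 2 = d ^ 2 := by
      rw [@norm_sub_sq ℝ, hv1, ht, inner_add_left]
      simp only [real_inner_smul_left, htt, hτ, RCLike.re_to_real]
      ring
    have h0 := norm_nonneg ((1 - d ^ 2 / 2) • t + (s / ‖τ‖) • τ - t)
    nlinarith
  · rw [inner_sub_right, inner_add_right]
    simp only [real_inner_smul_right, hττ, hτ]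
    have h3 : d / 2 ≤ s := by
      rw [hs]
      apply Real.le_sqrt_of_sq_le
      nlinarith [mul_nonneg (sq_nonneg d) (by linarith : (0 : ℝ) ≤ 3 - d ^ 2)]
    have h4 : (1 - d ^ 2 / 2) * 0 + s / ‖τ‖ * ‖τ‖ ^ 2 - 0 = s * ‖τ‖ := by
      field_simp
      ring
    rw [h4]
    exact mul_le_mul_of_nonneg_right h3 hn.le

theorem cont_term (a : EE n) : Continuous fun v : EE n => √(1 - (inner ℝ a v : ℝ) ^ 2) := by
  fun_prop

theorem integrable_term (hP : IsProbabilityMeasure (sph n)) (a : EE n) :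
    Integrable (fun v : EE n => √(1 - (inner ℝ a v : ℝ) ^ 2)) (sph n) := by
  refine Integrable.of_bound (cont_term a).aestronglyMeasurable 1 ?_
  refine Filter.Eventually.of_forall fun v => ?_
  rw [Real.norm_of_nonneg (Real.sqrt_nonneg _)]
  exact Real.sqrt_le_one.2 (by nlinarith [sq_nonneg (inner ℝ a v : ℝ)])

theorem integral_hh (hSQR : Stmt_SQR) (hP : IsProbabilityMeasure (sph n)) (hn : 2 ≤ n)
    (p : ι → ℝ) (w : ι → EE n) (hI : IS p w) : ∫ v, hh p w v ∂(sph n) = mm n := by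
  simp only [hh]
  rw [integral_finsetSum]
  · simp only [integral_const_mul]
    have : ∀ i, ∫ v, √(1 - (inner ℝ (w i) v : ℝ) ^ 2) ∂(sph n) = mm n := fun i =>
      hSQR n (w i) hn (hI.nrm i)
    simp only [this]
    rw [← Finset.sum_mul, hI.psum, one_mul]
  · intro i _
    exact (integrable_term hP (w i)).const_mul _

theorem integrable_hh (hP : IsProbabilityMeasure (sph n)) (p : ι → ℝ) (w : ι → EE n) :
    Integrable (fun v => hh p w v) (sph n) := by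
  simp only [hh]
  exact integrable_finsetSum _ fun i _ => (integrable_term hP (w i)).const_mul _

theorem mm_le_one (hSQR : Stmt_SQR) (hP : IsProbabilityMeasure (sph n)) (hn : 2 ≤ n)
    (a : EE n) (ha : ‖a‖ = 1) : mm n ≤ 1 := by
  rw [← hSQR n a hn ha]
  calc ∫ v, √(1 - (inner ℝ a v : ℝ) ^ 2) ∂(sph n) ≤ ∫ _v, (1 : ℝ) ∂(sph n) := by
        apply integral_mono (integrable_term hP a) (integrable_const _)
        intro v
        exact Real.sqrt_le_one.2 (by nlinarith [sq_nonneg (inner ℝ a v : ℝ)])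
    _ = 1 := by simp

theorem mm_nonneg (hSQR : Stmt_SQR) (hn : 2 ≤ n)
    (a : EE n) (ha : ‖a‖ = 1) : 0 ≤ mm n := by
  rw [← hSQR n a hn ha]
  exact integral_nonneg fun v => Real.sqrt_nonneg _

theorem measurable_hh (p : ι → ℝ) (w : ι → EE n) : Measurable (hh p w) := by
  have : hh p w = fun v => ∑ i, p i * √(1 - (inner ℝ (w i) v : ℝ) ^ 2) := rfl
  rw [this]
  exact Finset.measurable_sum _ fun i _ => (cont_term (w i)).measurable.const_mul _

theorem measurable_gh (p : ι → ℝ) (w : ι → EE n) : Measurable (gh p w) := by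
  have : gh p w = fun v => ∑ i, (p i / √(1 - (inner ℝ (w i) v : ℝ) ^ 2)) •
      (v - (inner ℝ (w i) v : ℝ) • w i) := rfl
  rw [this]
  refine Finset.measurable_sum _ fun i _ => ?_
  have h1 : Measurable fun v : EE n => p i / √(1 - (inner ℝ (w i) v : ℝ) ^ 2) :=
    measurable_const.div (cont_term (w i)).measurable
  have h2 : Continuous fun v : EE n => v - (inner ℝ (w i) v : ℝ) • w i := by fun_prop
  exact h1.smul h2.measurable

/-- the bound for the tangential part -/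
theorem tau_bound (p : ι → ℝ) (w : ι → EE n) (hw : ∀ i, ‖w i‖ = 1) (E0 η m d : ℝ)
    (hm1 : m ≤ 1) (hE : 0 ≤ E0) (hd0 : 0 < d) (hd1 : d ≤ 1)
    (hη : ∀ v : EE n, ‖v‖ = 1 → |hh p w v - m| ≤ η)
    (t : EE n) (ht : ‖t‖ = 1)
    (hS : ∀ v : EE n, ‖v‖ = 1 → hh p w t + inner ℝ (gh p w t) (v - t) +
      1 / 2 * ‖v - t‖ ^ 2 * (1 - ‖v - t‖ ^ 2 / 4) * (m - E0 - 4 * ‖v - t‖) ≤ hh p w v) :
    d / 2 * ‖gh p w t - hh p w t • t‖ ≤ 2 * η + d ^ 2 / 2 * (η + d ^ 2 / 4 + E0 + 4 * d) := by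
  have hη0 : 0 ≤ η := le_trans (abs_nonneg _) (hη t ht)
  have hd2 : 0 < d ^ 2 := by positivity
  by_cases h0 : gh p w t - hh p w t • t = 0
  · rw [h0, norm_zero, mul_zero]
    positivity
  have htt : (inner ℝ t t : ℝ) = 1 := by rw [real_inner_self_eq_norm_sq, ht]; norm_num
  have hor : (inner ℝ (gh p w t - hh p w t • t) t : ℝ) = 0 := by
    rw [inner_sub_left, real_inner_smul_left, htt, inner_gh p w hw t ht]; ring
  obtain ⟨v, hv1, hv2, hv3⟩ := exists_dir t _ ht hor h0 d hd0 hd1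
  have h1 := hS v hv1
  rw [hv2] at h1
  have h2 : (inner ℝ (gh p w t) (v - t) : ℝ) =
      inner ℝ (gh p w t - hh p w t • t) (v - t) - hh p w t * (d ^ 2 / 2) := by
    have e1 : (inner ℝ t (v - t) : ℝ) = -(d ^ 2 / 2) := by
      have e2 := @norm_sub_sq ℝ _ _ _ _ v t
      rw [hv2, hv1, ht] at e2
      simp only [RCLike.re_to_real] at e2
      rw [inner_sub_right, htt, real_inner_comm]
      linarith
    rw [inner_sub_left, real_inner_smul_left, e1]; ring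
  rw [h2] at h1
  have h3 := abs_le.1 (hη t ht)
  have h4 := abs_le.1 (hη v hv1)
  have h5 : hh p w t * (d ^ 2 / 2) ≤ (m + η) * (d ^ 2 / 2) :=
    mul_le_mul_of_nonneg_right (by linarith [h3.2]) (by positivity)
  have h6 : m - (1 - d ^ 2 / 4) * (m - E0 - 4 * d) ≤ d ^ 2 / 4 + E0 + 4 * d := by
    nlinarith [mul_nonneg hd2.le (by linarith : (0 : ℝ) ≤ 1 - m),
      mul_nonneg hd2.le (by linarith : (0 : ℝ) ≤ E0 + 4 * d)]
  have h7 : d ^ 2 / 2 * (m - (1 - d ^ 2 / 4) * (m - E0 - 4 * d)) ≤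
      d ^ 2 / 2 * (d ^ 2 / 4 + E0 + 4 * d) := mul_le_mul_of_nonneg_left h6 (by positivity)
  nlinarith [h4.2, h3.1]

/-- semiconcavity -/
theorem semi (p : ι → ℝ) (w : ι → EE n) (E0 m : ℝ) (hm1 : m ≤ 1) (hE : 0 ≤ E0)
    (t v : EE n) (ht : ‖t‖ = 1) (hv : ‖v‖ = 1)
    (hS : hh p w t + inner ℝ (gh p w t) (v - t) +
      1 / 2 * ‖v - t‖ ^ 2 * (1 - ‖v - t‖ ^ 2 / 4) * (m - E0 - 4 * ‖v - t‖) ≤ hh p w v) :
    hh p w t - hh p w v ≤ ‖gh p w t - m • t‖ * ‖v - t‖ +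
      ‖v - t‖ ^ 2 / 2 * (‖v - t‖ ^ 2 / 4 + E0 + 4 * ‖v - t‖) := by
  have htt : (inner ℝ t t : ℝ) = 1 := by rw [real_inner_self_eq_norm_sq, ht]; norm_num
  set d : ℝ := ‖v - t‖ with hd
  have hd0 : 0 ≤ d := norm_nonneg _
  have hd2 : d ≤ 2 := by
    have := norm_sub_le v t
    rw [hv, ht] at this
    linarith
  have hd4 : d ^ 2 / 4 ≤ 1 := by nlinarith
  have e1 : (inner ℝ t (v - t) : ℝ) = -(d ^ 2 / 2) := by
    have e2 := @norm_sub_sq ℝ _ _ _ _ v t
    rw [← hd, hv, ht] at e2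
    simp only [RCLike.re_to_real] at e2
    rw [inner_sub_right, htt, real_inner_comm]
    linarith
  have h2 : (inner ℝ (gh p w t) (v - t) : ℝ) =
      inner ℝ (gh p w t - m • t) (v - t) - m * (d ^ 2 / 2) := by
    rw [inner_sub_left, real_inner_smul_left, e1]; ring
  have h3 : -(‖gh p w t - m • t‖ * d) ≤ inner ℝ (gh p w t - m • t) (v - t) := by
    have := abs_real_inner_le_norm (gh p w t - m • t) (v - t)
    exact (abs_le.1 this).1
  rw [h2] at hS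
  have hdd : 0 ≤ d ^ 2 := by positivity
  have h6 : m - (1 - d ^ 2 / 4) * (m - E0 - 4 * d) ≤ d ^ 2 / 4 + E0 + 4 * d := by
    nlinarith [mul_nonneg hdd (by linarith : (0 : ℝ) ≤ 1 - m),
      mul_nonneg hdd (by linarith : (0 : ℝ) ≤ E0 + 4 * d)]
  have h7 : d ^ 2 / 2 * (m - (1 - d ^ 2 / 4) * (m - E0 - 4 * d)) ≤
      d ^ 2 / 2 * (d ^ 2 / 4 + E0 + 4 * d) := mul_le_mul_of_nonneg_left h6 (by positivity)
  nlinarith

theorem D_nonneg (hAVE : PPI.Stmt_AVE) (hn : 1 ≤ n) (p : ι → ℝ) (w : ι → EE n) (D : ℝ)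
    (hI : IS p w) (hM : MI p w D) : 0 ≤ D := by
  have hk : 0 < kap n := (hAVE n hn).1
  have h1 := (hM (Bn n) (fun _ => 1) (isCompact_closedBall 0 1) (convex_closedBall 0 1)
    ⟨0, by simp [Bn]⟩ (fun i x hx => by
      have h2 : ‖x‖ ≤ 1 := by simpa [Bn] using hx
      have h3 := real_inner_le_norm (w i) x
      rw [hI.nrm i, one_mul] at h3
      linarith)).2
  have h4 : ∑ i, p i * (1 : ℝ) = 1 := by simp [hI.psum]
  rw [h4, one_pow, mul_one] at h1
  have h5 : kap n * 1 ≤ kap n * Real.exp D := by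
    rw [mul_one]; exact h1
  have h6 := le_of_mul_le_mul_left h5 hk
  exact Real.exp_le_exp.1 (by rw [Real.exp_zero]; exact h6)

theorem X0_nonneg (n : ℕ) : 0 ≤ X0 n := by
  have h1 : 0 ≤ kap n := ENNReal.toReal_nonneg
  have h2 : 0 ≤ kap (n - 1) := ENNReal.toReal_nonneg
  rw [X0]
  positivity

theorem sum_hh (p : ι → ℝ) (w : ι → EE n) (hI : IS p w) :
    ∑ i, p i * (hh p w (w i) - mm n) = - QQ p w := by
  simp only [mul_sub, Finset.sum_sub_distrib, ← Finset.sum_mul, hI.psum, hh, QQ, one_mul]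
  have : ∑ i, p i * ∑ j, p j * √(1 - (inner ℝ (w j) (w i) : ℝ) ^ 2) =
      ∑ i, ∑ j, p i * p j * √(1 - (inner ℝ (w i) (w j) : ℝ) ^ 2) := by
    refine Finset.sum_congr rfl fun i _ => ?_
    rw [Finset.mul_sum]
    refine Finset.sum_congr rfl fun j _ => ?_
    rw [real_inner_comm (w i) (w j)]
    ring
  rw [this]
  ring

/-- numerical facts -/
theorem num1 {e δ η d0 : ℝ} (he0 : 0 < e) (he : e ≤ 1 / 10 ^ 15)
    (hδ : δ ≤ 1 / 10 ^ 15 * e ^ 7) (hη : η ≤ 1 / 10 ^ 15 * e ^ 7)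
    (hd0 : d0 = e ^ 2 / 102400) :
    η + d0 ^ 2 / 4 + (40 * e ^ 3 + 6 * δ) + 4 * d0 ≤ e ^ 2 / 20000 := by
  have e1 : e ^ 3 ≤ 1 / 10 ^ 15 * e ^ 2 := by
    have : e ^ 3 = e * e ^ 2 := by ring
    rw [this]
    exact mul_le_mul_of_nonneg_right he (pow_pos he0 2).le
  have e2 : e ^ 4 ≤ 1 / 10 ^ 15 * e ^ 3 := by
    have : e ^ 4 = e * e ^ 3 := by ring
    rw [this]
    exact mul_le_mul_of_nonneg_right he (pow_pos he0 3).le
  have e3 : e ^ 7 ≤ e ^ 3 := by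
    apply pow_le_pow_of_le_one he0.le (by linarith) (by norm_num)
  have e4 : d0 ^ 2 ≤ e ^ 4 := by
    have : d0 ^ 2 = e ^ 4 * (1 / 102400 ^ 2) := by rw [hd0]; ring
    rw [this]
    linarith [pow_pos he0 4]
  have e5 := pow_pos he0 2
  linarith

theorem num2 {e η : ℝ} (he0 : 0 < e) (he : e ≤ 1 / 10 ^ 15) (hη : η ≤ 1 / 10 ^ 15 * e ^ 7) :
    2 * η + (e ^ 2 / 102400) ^ 2 / 2 * (e ^ 2 / 20000) ≤
      e ^ 2 / 102400 / 2 * (e ^ 3 / 1024) := by
  have e6 : e ^ 6 ≤ 1 / 10 ^ 15 * e ^ 5 := by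
    have : e ^ 6 = e * e ^ 5 := by ring
    rw [this]
    exact mul_le_mul_of_nonneg_right he (pow_pos he0 5).le
  have e7 : e ^ 7 ≤ 1 / 10 ^ 15 * e ^ 6 := by
    have : e ^ 7 = e * e ^ 6 := by ring
    rw [this]
    exact mul_le_mul_of_nonneg_right he (pow_pos he0 6).le
  have e5 := pow_pos he0 5
  have l1 : (e ^ 2 / 102400) ^ 2 / 2 * (e ^ 2 / 20000) = e ^ 6 * (1 / (102400 ^ 2 * 40000)) := by
    ring
  have l2 : e ^ 2 / 102400 / 2 * (e ^ 3 / 1024) = e ^ 5 * (1 / (204800 * 1024)) := by ring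
  rw [l1, l2]
  linarith

end RG4_

open RG4_ in
theorem rg4_proof (hJLB : Stmt_JLB) (hQSR : Stmt_QSR) (hHSS : Stmt_HSS) (hSUP : Stmt_SUP)
    (hGRS : Stmt_GRS) (hWLD : Stmt_WLD) (hQBD : Stmt_QBD) (hTBD : Stmt_TBD) (hSQR : Stmt_SQR)
    (hSPH : Stmt_SPH) (hAVE : PPI.Stmt_AVE) (hTPD : Stmt_TPD) : Stmt_RG4 := by
  obtain ⟨c0, hc0, hc1, hJ⟩ := hJLB
  obtain ⟨C2, hC2, hS2⟩ := hSUP 7 (by norm_num)
  obtain ⟨C5, hC5, hG⟩ := hGRS
  obtain ⟨n1, hQ⟩ := hQBD
  obtain ⟨C1, n2, hC1, hT⟩ := hTBD 8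
  obtain ⟨n3, hn3⟩ := exists_nat_ge (10 ^ 15 * (1 + (5 * C1 + 1) + C2 * (5 * C1 + 2) + C5))
  refine ⟨max (max n1 n2) (max n3 12), ?_⟩
  intro n ι _ p w D hn hI hM hD
  have hnn1 : n1 ≤ n := le_trans (le_max_left _ _) (le_trans (le_max_left _ _) hn)
  have hnn2 : n2 ≤ n := le_trans (le_max_right _ _) (le_trans (le_max_left _ _) hn)
  have hnn3 : n3 ≤ n := le_trans (le_max_left _ _) (le_trans (le_max_right _ _) hn)
  have hn12 : 12 ≤ n := le_trans (le_max_right _ _) (le_trans (le_max_right _ _) hn)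
  have hN : 10 ^ 15 * (1 + (5 * C1 + 1) + C2 * (5 * C1 + 2) + C5) ≤ (n : ℝ) :=
    le_trans hn3 (by exact_mod_cast hnn3)
  have hB0 : 0 < C2 * (5 * C1 + 2) := by positivity
  set N : ℝ := (n : ℝ) with hNdef
  have hN0 : (10 : ℝ) ^ 15 ≤ N := by linarith
  have hNpos : 0 < N := by linarith [show (0 : ℝ) < 10 ^ 15 by norm_num]
  have hN1 : 1 ≤ N := le_trans (by norm_num) hN0
  obtain ⟨e, he⟩ : ∃ e : ℝ, e = N⁻¹ := ⟨_, rfl⟩
  have he0 : 0 < e := by rw [he]; positivity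
  have hNe : N * e = 1 := by rw [he]; exact mul_inv_cancel₀ hNpos.ne'
  have he15 : e ≤ 1 / 10 ^ 15 := by
    rw [he, ← one_div]
    exact one_div_le_one_div_of_le (by norm_num) hN0
  have heA : (5 * C1 + 1) * e ≤ 1 / 10 ^ 15 := by
    have h1 : 10 ^ 15 * (5 * C1 + 1) ≤ N := by linarith
    have h2 := mul_le_mul_of_nonneg_right h1 he0.le
    rw [hNe] at h2
    linarith
  have heB : C2 * (5 * C1 + 2) * e ≤ 1 / 10 ^ 15 := by
    have h1 : 10 ^ 15 * (C2 * (5 * C1 + 2)) ≤ N := by linarith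
    have h2 := mul_le_mul_of_nonneg_right h1 he0.le
    rw [hNe] at h2
    linarith
  have hC5N : C5 ≤ 1 / 10 ^ 15 * N := by linarith
  have hD0 : 0 ≤ D := D_nonneg hAVE (by omega) p w D hI hM
  have hD13 : D ≤ e ^ 13 := by
    have h1 : (n : ℝ) ^ (-13 : ℝ) = e ^ 13 := by
      rw [he, Real.rpow_neg (Nat.cast_nonneg n), inv_pow]
      congr 1
      exact Real.rpow_ofNat N 13
    rw [← h1]; exact hD.le
  have he1 : e ≤ 1 := by linarith [show (1 : ℝ) / 10 ^ 15 ≤ 1 by norm_num]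
  have hD1 : D ≤ 1 := le_trans hD13 (pow_le_one₀ he0.le he1)
  obtain ⟨hP, -, -, -, -, -⟩ := hSPH n (by omega)
  -- the fourth moments
  have hQB : QB p w (5 / N) := by
    intro x hx
    have h1 := hQ n 1 ι p w D (fun _ => x) hnn1 (by omega) hI hM (fun _ => hx) (fun y => by
      simp only [Finset.univ_unique, Finset.sum_const, Finset.card_singleton, one_smul]
      have h2 := abs_real_inner_le_norm x y
      rw [hx, one_mul] at h2
      rw [← sq_abs]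
      nlinarith [abs_nonneg (inner ℝ x y : ℝ), norm_nonneg y])
    simp only [Finset.univ_unique, Finset.sum_const, Finset.card_singleton, one_smul,
      Nat.cast_one, mul_one] at h1
    refine le_trans h1 ?_
    have h3 : 200 * D ≤ e := by
      have h4 : e ^ 13 ≤ e ^ 2 := pow_le_pow_of_le_one he0.le he1 (by norm_num)
      have h5 : e ^ 2 ≤ 1 / 10 ^ 15 * e := by nlinarith
      nlinarith
    have h6 : (5 : ℝ) / N = 4 / N + e := by rw [he]; field_simp; norm_num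
    rw [h6]
    linarith
  have hTn : ∀ k, 0 ≤ Tk p w k := fun k =>
    le_trans (sq_nonneg _) (hTPD n ι p w k (fun _ => 0) (by omega) (fun i => (hI.ppos i).le)
      hI.psum hI.nrm (by simp))
  have hTs := hT n ι p w D (5 / N) hnn2 hI hM hQB
  obtain ⟨δ, hδ⟩ : ∃ δ : ℝ, δ = (5 * C1 + 1) * e ^ 8 := ⟨_, rfl⟩
  have hδ0 : 0 ≤ δ := by rw [hδ]; positivity
  have hδ7 : δ ≤ 1 / 10 ^ 15 * e ^ 7 := by
    rw [hδ]
    have : (5 * C1 + 1) * e ^ 8 = ((5 * C1 + 1) * e) * e ^ 7 := by ring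
    rw [this]
    exact mul_le_mul_of_nonneg_right heA (by positivity)
  have hTk : ∀ k ∈ Finset.Icc 2 8, Tk p w k ≤ δ ^ 2 := by
    intro k hk
    have h1 : Tk p w k ≤ ∑ k ∈ Finset.Icc 2 8, Tk p w k :=
      Finset.single_le_sum (fun j _ => hTn j) hk
    have h2 : N ^ 2 * Tk p w k ≤ C1 * (5 / N) * D :=
      le_trans (mul_le_mul_of_nonneg_left h1 (by positivity)) hTs
    have h3 : C1 * (5 / N) * D ≤ 5 * C1 * e ^ 14 := by
      have : C1 * (5 / N) * D = 5 * C1 * e * D := by rw [he]; field_simp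
      rw [this]
      have h4 : 5 * C1 * e * D ≤ 5 * C1 * e * e ^ 13 :=
        mul_le_mul_of_nonneg_left hD13 (by positivity)
      refine le_trans h4 (le_of_eq (by ring))
    have h5 : Tk p w k = e ^ 2 * (N ^ 2 * Tk p w k) := by
      have : e ^ 2 * (N ^ 2 * Tk p w k) = (N * e) ^ 2 * Tk p w k := by ring
      rw [this, hNe]; ring
    rw [h5, hδ]
    have h6 : e ^ 2 * (N ^ 2 * Tk p w k) ≤ e ^ 2 * (5 * C1 * e ^ 14) :=
      mul_le_mul_of_nonneg_left (le_trans h2 h3) (by positivity)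
    refine le_trans h6 ?_
    have h7 : e ^ 2 * (5 * C1 * e ^ 14) = 5 * C1 * e ^ 16 := by ring
    have h8 : ((5 * C1 + 1) * e ^ 8) ^ 2 = (5 * C1 + 1) ^ 2 * e ^ 16 := by ring
    rw [h7, h8]
    exact mul_le_mul_of_nonneg_right (by nlinarith) (by positivity)
  obtain ⟨η, hη⟩ : ∃ η : ℝ, η = C2 * (5 * C1 + 2) * e ^ 8 := ⟨_, rfl⟩
  have hη0 : 0 ≤ η := by rw [hη]; positivity
  have hη7 : η ≤ 1 / 10 ^ 15 * e ^ 7 := by
    rw [hη]
    have : C2 * (5 * C1 + 2) * e ^ 8 = (C2 * (5 * C1 + 2) * e) * e ^ 7 := by ring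
    rw [this]
    exact mul_le_mul_of_nonneg_right heB (by positivity)
  have hhb : ∀ v : EE n, ‖v‖ = 1 → |hh p w v - mm n| ≤ η := by
    intro v hv
    have h1 := hS2 n ι p w δ v (by omega) hI hδ0 hTk hv
    refine le_trans h1 (le_of_eq ?_)
    rw [hη, hδ, he]
    simp only [inv_pow]
    rw [← hNdef]
    ring
  have hNE : Nonempty ι := by
    by_contra h
    rw [not_nonempty_iff] at h
    have := hI.psum
    simp at this
  obtain ⟨i0⟩ := id hNE
  have hmm1 : mm n ≤ 1 := mm_le_one hSQR hP (by omega) (w i0) (hI.nrm i0)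
  obtain ⟨E0, hE0⟩ : ∃ E0 : ℝ, E0 = 40 * e ^ 3 + 6 * δ := ⟨_, rfl⟩
  have hE0n : 0 ≤ E0 := by rw [hE0]; positivity
  have hSS : ∀ t v : EE n, ‖t‖ = 1 → ‖v‖ = 1 → hh p w t + inner ℝ (gh p w t) (v - t) +
      1 / 2 * ‖v - t‖ ^ 2 * (1 - ‖v - t‖ ^ 2 / 4) * (mm n - E0 - 4 * ‖v - t‖) ≤ hh p w v := by
    intro t v ht hv
    have h1 := hHSS n ι p w δ t v (by omega) hI hδ0 (hTk 2 (by simp)) (hTk 3 (by simp)) ht hv
    have h2 : mm n - 40 / (n : ℝ) ^ 3 - 6 * δ - 4 * ‖v - t‖ = mm n - E0 - 4 * ‖v - t‖ := by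
      rw [hE0, he, ← hNdef]
      simp only [inv_pow]
      ring
    rw [h2] at h1
    exact h1
  obtain ⟨d0, hd0⟩ : ∃ d0 : ℝ, d0 = e ^ 2 / 102400 := ⟨_, rfl⟩
  have hd0p : 0 < d0 := by rw [hd0]; positivity
  have hd01 : d0 ≤ 1 := by
    rw [hd0]
    have : e ^ 2 ≤ 1 := pow_le_one₀ he0.le he1
    linarith
  have hnum := num1 he0 he15 hδ7 hη7 hd0
  rw [← hE0] at hnum
  -- the gradient is small
  have hgr : ∀ t : EE n, ‖t‖ = 1 → ‖gh p w t - mm n • t‖ ≤ e ^ 3 / 1000 := by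
    intro t ht
    have h1 := tau_bound p w hI.nrm E0 η (mm n) d0 hmm1 hE0n hd0p hd01 hhb t ht
      (fun v hv => hSS t v ht hv)
    have h2 : ‖gh p w t - hh p w t • t‖ ≤ e ^ 3 / 1024 := by
      have h3 : d0 ^ 2 / 2 * (η + d0 ^ 2 / 4 + E0 + 4 * d0) ≤ d0 ^ 2 / 2 * (e ^ 2 / 20000) :=
        mul_le_mul_of_nonneg_left hnum (by positivity)
      have h4 : 2 * η + d0 ^ 2 / 2 * (e ^ 2 / 20000) ≤ d0 / 2 * (e ^ 3 / 1024) := by
        rw [hd0]
        exact num2 he0 he15 hη7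
      have h5 : d0 / 2 * ‖gh p w t - hh p w t • t‖ ≤ d0 / 2 * (e ^ 3 / 1024) := by linarith
      exact le_of_mul_le_mul_left h5 (by positivity)
    have h6 : gh p w t - mm n • t = (gh p w t - hh p w t • t) + (hh p w t - mm n) • t := by
      rw [sub_smul]; abel
    rw [h6]
    refine le_trans (norm_add_le _ _) ?_
    rw [norm_smul, ht, mul_one, Real.norm_eq_abs]
    have h7 := hhb t ht
    have e7 : e ^ 7 ≤ e ^ 3 := pow_le_pow_of_le_one he0.le he1 (by norm_num)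
    have e3 := pow_pos he0 3
    linarith
  have hNe3 : N ^ 3 * e ^ 3 = 1 := by rw [← mul_pow, hNe, one_pow]
  -- the test inequality
  have hW := hWLD n ι p w D (fun v => -(1024 * N ^ 3 * (hh p w v - mm n)))
    (fun v => 1024 * N ^ 3 * ‖gh p w v - mm n • v‖) (by omega) hI hM ?_ ?_ ?_ ?_ ?_
  · have hint : ∫ v, -(1024 * N ^ 3 * (hh p w v - mm n)) ∂(sph n) = 0 := by
      rw [integral_neg, integral_const_mul, integral_sub (integrable_hh hP p w)
        (integrable_const _), integral_hh hSQR hP (by omega) p w hI]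
      simp
    have hsum : ∑ i, p i * -(1024 * N ^ 3 * (hh p w (w i) - mm n)) =
        1024 * N ^ 3 * QQ p w := by
      have h1 := sum_hh p w hI
      have h2 : ∑ i, p i * -(1024 * N ^ 3 * (hh p w (w i) - mm n)) =
          -(1024 * N ^ 3) * ∑ i, p i * (hh p w (w i) - mm n) := by
        rw [Finset.mul_sum]
        refine Finset.sum_congr rfl fun i _ => ?_
        ring
      rw [h2, h1]; ring
    have hquad : ∫ v, ((-(1024 * N ^ 3 * (hh p w v - mm n))) ^ 2 +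
        (1024 * N ^ 3 * ‖gh p w v - mm n • v‖) ^ 2) ∂(sph n) =
        (1024 * N ^ 3) ^ 2 *
          ∫ v, ((hh p w v - mm n) ^ 2 + ‖gh p w v - mm n • v‖ ^ 2) ∂(sph n) := by
      rw [← integral_const_mul]
      congr 1
      funext v
      ring
    have hGG := hG n ι p w hn12 hI
    have hI0 : 0 ≤ ∫ v, ((hh p w v - mm n) ^ 2 + ‖gh p w v - mm n • v‖ ^ 2) ∂(sph n) :=
      integral_nonneg fun v => by positivity
    rw [← hNdef] at hGG
    have hCN : 0 < C5 / N ^ 3 := by positivity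
    have hQQ : 0 ≤ QQ p w := by
      by_contra h
      have := mul_neg_of_pos_of_neg hCN (not_le.1 h)
      linarith
    rw [hint, hsum, hquad, sub_zero] at hW
    have h1 : 3 / N * ((1024 * N ^ 3) ^ 2 *
        ∫ v, ((hh p w v - mm n) ^ 2 + ‖gh p w v - mm n • v‖ ^ 2) ∂(sph n)) ≤
        3 / N * ((1024 * N ^ 3) ^ 2 * (C5 / N ^ 3 * QQ p w)) :=
      mul_le_mul_of_nonneg_left (mul_le_mul_of_nonneg_left hGG (by positivity)) (by positivity)
    have h2 : 3 / N * ((1024 * N ^ 3) ^ 2 * (C5 / N ^ 3 * QQ p w)) =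
        3145728 * C5 * (N ^ 2 * QQ p w) := by
      field_simp
      ring
    have h3 : 3145728 * C5 * (N ^ 2 * QQ p w) ≤ 512 * N ^ 3 * QQ p w := by
      have h4 : 3145728 * C5 ≤ 512 * N := by linarith
      have h5 : 3145728 * C5 * (N ^ 2 * QQ p w) ≤ 512 * N * (N ^ 2 * QQ p w) :=
        mul_le_mul_of_nonneg_right h4 (by positivity)
      refine le_trans h5 (le_of_eq (by ring))
    have h6 : 512 * N ^ 3 * QQ p w ≤ D := by linarith
    have hXX := (hQSR n ι p w (by omega) hI).2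
    rw [← hNdef] at hXX
    have hJJ := hJ n ι p w Finset.univ ∅ (by omega) hI Finset.univ_nonempty
      (Finset.disjoint_empty_right _)
    rw [hI.psum, one_pow, Finset.sum_empty, mul_zero, one_mul] at hJJ
    have hmin : min (1 : ℝ) 0 = 0 := min_eq_right zero_le_one
    rw [hmin, mul_zero, add_zero] at hJJ
    have hX0 := X0_nonneg n
    have h7 : X0 n * (1 - D / 2) ≤ XT p w := by
      refine le_trans (mul_le_mul_of_nonneg_left ?_ hX0) hJJ
      linarith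
    have h8 : 1 ≤ Real.exp D * (1 - D / 2) := by
      have h9 := Real.add_one_le_exp D
      have h10 : 0 ≤ 1 - D / 2 := by linarith
      nlinarith
    have h11 : X0 n * 1 ≤ X0 n * (Real.exp D * (1 - D / 2)) :=
      mul_le_mul_of_nonneg_left h8 hX0
    have h12 : Real.exp D * (X0 n * (1 - D / 2)) ≤ Real.exp D * XT p w :=
      mul_le_mul_of_nonneg_left h7 (Real.exp_pos D).le
    linarith
  · exact (((measurable_hh p w).sub_const _).const_mul _).neg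
  · exact ((((measurable_gh p w).sub (measurable_id.const_smul (mm n)))).norm).const_mul _
  · intro v hv
    have h1 := hhb v hv
    rw [abs_neg, abs_mul, abs_of_pos (by positivity : (0 : ℝ) < 1024 * N ^ 3)]
    have h2 : 1024 * N ^ 3 * |hh p w v - mm n| ≤ 1024 * N ^ 3 * (1 / 10 ^ 15 * e ^ 7) :=
      mul_le_mul_of_nonneg_left (le_trans h1 hη7) (by positivity)
    have h3 : 1024 * N ^ 3 * (1 / 10 ^ 15 * e ^ 7) = 1024 / 10 ^ 15 * (N ^ 3 * e ^ 3) * e ^ 4 := by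
      ring
    rw [h3, hNe3] at h2
    have h4 : e ^ 4 ≤ 1 := pow_le_one₀ he0.le he1
    rw [← hNdef]
    linarith
  · intro v hv
    have h1 := hgr v hv
    refine ⟨by positivity, ?_⟩
    have h2 : 1024 * N ^ 3 * ‖gh p w v - mm n • v‖ ≤ 1024 * N ^ 3 * (e ^ 3 / 1000) :=
      mul_le_mul_of_nonneg_left h1 (by positivity)
    have h3 : 1024 * N ^ 3 * (e ^ 3 / 1000) = 1024 / 1000 * (N ^ 3 * e ^ 3) := by ring
    rw [h3, hNe3] at h2
    rw [← hNdef]
    linarith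
  · intro v t hv ht
    have h1 := semi p w E0 (mm n) hmm1 hE0n t v ht hv (hSS t v ht hv)
    have hd : 0 ≤ ‖v - t‖ := norm_nonneg _
    rw [← hNdef]
    by_cases hc : ‖v - t‖ ≤ d0
    · have h2 : ‖v - t‖ ^ 2 ≤ d0 ^ 2 := by nlinarith
      have h3 : ‖v - t‖ ^ 2 / 4 + E0 + 4 * ‖v - t‖ ≤ e ^ 2 / 20000 := by linarith
      have h4 : ‖v - t‖ ^ 2 / 2 * (‖v - t‖ ^ 2 / 4 + E0 + 4 * ‖v - t‖) ≤
          ‖v - t‖ ^ 2 / 2 * (e ^ 2 / 20000) := mul_le_mul_of_nonneg_left h3 (by positivity)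
      have h5 : 1024 * N ^ 3 * (hh p w t - hh p w v) ≤ 1024 * N ^ 3 *
          (‖gh p w t - mm n • t‖ * ‖v - t‖ + ‖v - t‖ ^ 2 / 2 * (e ^ 2 / 20000)) :=
        mul_le_mul_of_nonneg_left (by linarith) (by positivity)
      have h6 : 1024 * N ^ 3 * (‖v - t‖ ^ 2 / 2 * (e ^ 2 / 20000)) ≤ N / 8 * ‖v - t‖ ^ 2 := by
        have h7 : 1024 * N ^ 3 * (‖v - t‖ ^ 2 / 2 * (e ^ 2 / 20000)) =
            1024 / 40000 * N * (N * e) ^ 2 * ‖v - t‖ ^ 2 := by ring
        rw [h7, hNe]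
        have h8 : 0 ≤ ‖v - t‖ ^ 2 := by positivity
        nlinarith [mul_nonneg hNpos.le h8]
      linarith
    · have h2 : d0 ^ 2 ≤ ‖v - t‖ ^ 2 := by
        have := (not_le.1 hc).le
        nlinarith
      have h3 := abs_le.1 (hhb v hv)
      have h4 := abs_le.1 (hhb t ht)
      have h5 : 1024 * N ^ 3 * (hh p w t - hh p w v) ≤ 1024 * N ^ 3 *
          (2 * (1 / 10 ^ 15 * e ^ 7)) :=
        mul_le_mul_of_nonneg_left (by linarith [h3.1, h4.2]) (by positivity)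
      have h6 : 1024 * N ^ 3 * (2 * (1 / 10 ^ 15 * e ^ 7)) =
          2048 / 10 ^ 15 * (N ^ 3 * e ^ 3) * e ^ 4 := by ring
      rw [h6, hNe3] at h5
      have h7 : N / 8 * d0 ^ 2 = 1 / (8 * 102400 ^ 2) * (N * e) * e ^ 3 := by
        rw [hd0]; ring
      rw [hNe] at h7
      have h8 : N / 8 * d0 ^ 2 ≤ N / 8 * ‖v - t‖ ^ 2 :=
        mul_le_mul_of_nonneg_left h2 (by positivity)
      have h9 : e ^ 4 ≤ 1 / 10 ^ 15 * e ^ 3 := by
        have : e ^ 4 = e * e ^ 3 := by ring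
        rw [this]
        exact mul_le_mul_of_nonneg_right he15 (pow_pos he0 3).le
      have h10 : 0 ≤ 1024 * N ^ 3 * ‖gh p w t - mm n • t‖ * ‖v - t‖ := by positivity
      have h11 := pow_pos he0 3
      linarith

end PPX
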