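import Pool.Agent.PPX.Stmts

/-!
# Squad PPX (MP_0bf616_gt): affine symmetries.  Recipes: /team-store/MP_0bf616_PPX.md
-/

set_option autoImplicit false

namespace PPX

open MeasureTheory Set Filter Topology
open PPI PPG
open scoped Pointwise ENNReal

/-- no subspace other than `0` and `R^n` is invariant under the linear parts of all affine maps
which map `K` onto itself -/
def IrrA {n : ℕ} (K : Set (EE n)) : Prop :=
  ∀ V : Submodule ℝ (EE n), (∀ (A : EE n →ₗ[ℝ] EE n) (z : EE n),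
    (fun x => A x + z) '' K = K → ∀ x ∈ V, A x ∈ V) → V = ⊥ ∨ V = ⊤

/-- linear images and projection bodies -/
def Stmt_LIN : Prop :=
  ∀ (n : ℕ) (K : Set (EE n)) (T : EE n →L[ℝ] EE n), 2 ≤ n → IsCompact K → T.det ≠ 0 →
    vl (projBody (T '' K)) = |T.det| ^ (n - 1) * vl (projBody K)

/-- the ellipsoid of inertia -/
def Stmt_AFF : Prop :=
  ∀ (n : ℕ) (K : Set (EE n)), 1 ≤ n → Convex ℝ K → IsCompact K → (interior K).Nonempty →
    IrrA K → ∃ (T : EE n →L[ℝ] EE n) (z : EE n), T.det ≠ 0 ∧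
      Irr (T '' ((fun x => x + z) '' K))

/-- irreducible affine symmetry. Uses FBB, LIN, AFF, PPI.MON -/
def Stmt_FBC : Prop :=
  ∃ n₀ : ℕ, ∀ (n : ℕ) (K : Set (EE n)), n₀ ≤ n → 2 ≤ n → Convex ℝ K → IsCompact K →
    (interior K).Nonempty → IrrA K → Pn n * vl K ^ (n - 1) ≤ vl (projBody K)

end PPX
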