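import Pool.Agent.PPX.Stmts

/-!
# Squad PPX, module TBD: the moments are controlled by the deficit
-/

set_option autoImplicit false
set_option linter.unusedSectionVars false

namespace PPX

open MeasureTheory Set Filter Topology
open PPI PPG

namespace TBD_

/-! ### scalar inequality -/

theorem rec4 (a b : ℝ) (ha : |a| ≤ 1) (hb : |b| ≤ 1) (m : ℕ) :
    |b ^ (m + 4) - a ^ (m + 4) - ((m : ℝ) + 4) * a ^ (m + 3) * (b - a)| ≤
      ((m : ℝ) + 4) * ((m : ℝ) + 3) / 2 * (a ^ 2 + b ^ 2) * (b - a) ^ 2 := by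
  induction m with
  | zero =>
    have h1 : b ^ (0 + 4) - a ^ (0 + 4) - (((0 : ℕ) : ℝ) + 4) * a ^ (0 + 3) * (b - a) =
        (b - a) ^ 2 * ((a + b) ^ 2 + 2 * a ^ 2) := by push_cast; ring
    rw [h1, abs_of_nonneg (by positivity)]
    push_cast
    nlinarith [mul_nonneg (sq_nonneg (b - a)) (sq_nonneg (a - b)),
      mul_nonneg (sq_nonneg (b - a)) (sq_nonneg b), mul_nonneg (sq_nonneg (b - a)) (sq_nonneg a)]
  | succ m ih =>
    have h1 : b ^ (m + 1 + 4) - a ^ (m + 1 + 4) -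
        (((m + 1 : ℕ) : ℝ) + 4) * a ^ (m + 1 + 3) * (b - a) =
        b * (b ^ (m + 4) - a ^ (m + 4) - ((m : ℝ) + 4) * a ^ (m + 3) * (b - a)) +
          ((m : ℝ) + 4) * a ^ (m + 3) * (b - a) ^ 2 := by
      push_cast; ring
    rw [h1]
    have h2 : |b * (b ^ (m + 4) - a ^ (m + 4) - ((m : ℝ) + 4) * a ^ (m + 3) * (b - a))| ≤
        ((m : ℝ) + 4) * ((m : ℝ) + 3) / 2 * (a ^ 2 + b ^ 2) * (b - a) ^ 2 := by
      rw [abs_mul]
      calc |b| * _ ≤ 1 * _ := mul_le_mul_of_nonneg_right hb (abs_nonneg _)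
        _ ≤ _ := by rw [one_mul]; exact ih
    have h3 : |a ^ (m + 3)| ≤ a ^ 2 := by
      rw [abs_pow, ← sq_abs a]
      exact pow_le_pow_of_le_one (abs_nonneg a) ha (by omega)
    have h4 : |((m : ℝ) + 4) * a ^ (m + 3) * (b - a) ^ 2| ≤
        ((m : ℝ) + 4) * (a ^ 2 + b ^ 2) * (b - a) ^ 2 := by
      rw [abs_mul, abs_mul, abs_of_nonneg (by positivity : (0 : ℝ) ≤ (m : ℝ) + 4),
        abs_of_nonneg (sq_nonneg (b - a))]
      refine mul_le_mul_of_nonneg_right ?_ (sq_nonneg _)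
      refine mul_le_mul_of_nonneg_left ?_ (by positivity)
      have := sq_nonneg b
      linarith
    refine le_trans (abs_add_le _ _) ?_
    refine le_trans (add_le_add h2 h4) ?_
    push_cast
    apply le_of_eq
    ring

theorem sca (a b : ℝ) (ha : |a| ≤ 1) (hb : |b| ≤ 1) (k : ℕ) (hk : 2 ≤ k) :
    b ^ (2 * k) - a ^ (2 * k) - 2 * (k : ℝ) * a ^ (2 * k - 1) * (b - a) ≤
      (k : ℝ) * (2 * k - 1) * (a ^ 2 + b ^ 2) * (b - a) ^ 2 := by
  obtain ⟨m, rfl⟩ : ∃ m, k = m + 2 := ⟨k - 2, by omega⟩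
  have h := rec4 a b ha hb (2 * m)
  have h1 := le_trans (le_abs_self _) h
  have h2 : 2 * (m + 2) = 2 * m + 4 := by ring
  have h3 : 2 * (m + 2) - 1 = 2 * m + 3 := by omega
  rw [h3, h2]
  push_cast at h1 ⊢
  have h4 : 2 * ((m : ℝ) + 2) = 2 * (m : ℝ) + 4 := by ring
  rw [h4]
  refine le_trans h1 (le_of_eq ?_)
  ring

/-! ### families -/

section fam

variable {n : ℕ} {ι : Type} [Fintype ι] {p : ι → ℝ} {w : ι → EE n} {q : ℝ}

theorem abs_inner_le (hI : IS p w) (i : ι) (v : EE n) (hv : ‖v‖ = 1) :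
    |(inner ℝ (w i) v : ℝ)| ≤ 1 := by
  have := abs_real_inner_le_norm (w i) v
  rw [hI.nrm i, hv, one_mul] at this
  exact this

theorem qb4 (hn : 1 ≤ n) (hq : QB p w q) (x : EE n) :
    ∑ i, p i * (inner ℝ (w i) x) ^ 4 ≤ q / n * ‖x‖ ^ 4 := by
  have hn' : (0 : ℝ) < n := by exact_mod_cast hn
  by_cases hx : x = 0
  · subst hx
    simp
  · have hx' : ‖x‖ ≠ 0 := norm_ne_zero_iff.2 hx
    have h1 : ‖(‖x‖)⁻¹ • x‖ = 1 := by
      rw [norm_smul, norm_inv, norm_norm, inv_mul_cancel₀ hx']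
    have h2 := hq _ h1
    have h3 : ∑ i, p i * (inner ℝ (w i) ((‖x‖)⁻¹ • x)) ^ 4 =
        (‖x‖ ^ 4)⁻¹ * ∑ i, p i * (inner ℝ (w i) x) ^ 4 := by
      rw [Finset.mul_sum]
      refine Finset.sum_congr rfl ?_
      intro i _
      rw [inner_smul_right, mul_pow, inv_pow]
      ring
    rw [h3] at h2
    have h4 : (0 : ℝ) < ‖x‖ ^ 4 := by positivity
    rw [div_mul_eq_mul_div, le_div_iff₀ hn']
    have h5 : (n : ℝ) * ((‖x‖ ^ 4)⁻¹ * ∑ i, p i * (inner ℝ (w i) x) ^ 4) * ‖x‖ ^ 4 ≤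
        q * ‖x‖ ^ 4 := mul_le_mul_of_nonneg_right h2 h4.le
    have h6 : (n : ℝ) * ((‖x‖ ^ 4)⁻¹ * ∑ i, p i * (inner ℝ (w i) x) ^ 4) * ‖x‖ ^ 4 =
        (∑ i, p i * (inner ℝ (w i) x) ^ 4) * n := by
      field_simp
    linarith

theorem s4_nonneg (hI : IS p w) (x : EE n) : 0 ≤ ∑ i, p i * (inner ℝ (w i) x) ^ 4 :=
  Finset.sum_nonneg fun i _ => mul_nonneg (hI.ppos i).le (by positivity)

theorem exists_unit (hI : IS p w) : ∃ e : EE n, ‖e‖ = 1 := by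
  have h : Nonempty ι := by
    by_contra hne
    rw [not_nonempty_iff] at hne
    have := hI.psum
    rw [Finset.univ_eq_empty, Finset.sum_empty] at this
    exact zero_ne_one this
  exact ⟨w h.some, hI.nrm _⟩

theorem q_ge (hn : 1 ≤ n) (hI : IS p w) (hq : QB p w q) : 1 / (n : ℝ) ≤ q := by
  have hn' : (0 : ℝ) < n := by exact_mod_cast hn
  obtain ⟨e, he⟩ := exists_unit hI
  have h1 := hq e he
  have h2 := hI.iso e
  rw [he, one_pow] at h2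
  have h3 : (∑ i, p i * (inner ℝ (w i) e) ^ 2) ^ 2 ≤
      (∑ i, p i) * ∑ i, p i * (inner ℝ (w i) e) ^ 4 := by
    refine Finset.sum_sq_le_sum_mul_sum_of_sq_le_mul _ (fun i _ => (hI.ppos i).le)
      (fun i _ => mul_nonneg (hI.ppos i).le (by positivity)) ?_
    intro i _
    exact le_of_eq (by ring)
  rw [hI.psum, one_mul] at h3
  have h4 : ∑ i, p i * (inner ℝ (w i) e) ^ 2 = 1 / n := by
    field_simp
    linarith
  rw [h4] at h3
  have h5 : 1 / (n : ℝ) = n * (1 / (n : ℝ)) ^ 2 := by field_simp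
  rw [h5]
  exact le_trans (mul_le_mul_of_nonneg_left h3 hn'.le) h1

theorem qb22 (hn : 1 ≤ n) (hI : IS p w) (hq : QB p w q) (hq0 : 0 ≤ q) (x y : EE n) :
    ∑ i, p i * ((inner ℝ (w i) x) ^ 2 * (inner ℝ (w i) y) ^ 2) ≤ q / n * (‖x‖ ^ 2 * ‖y‖ ^ 2) := by
  have h0 : 0 ≤ q / n * (‖x‖ ^ 2 * ‖y‖ ^ 2) := by positivity
  have h1 : (∑ i, p i * ((inner ℝ (w i) x) ^ 2 * (inner ℝ (w i) y) ^ 2)) ^ 2 ≤
      (∑ i, p i * (inner ℝ (w i) x) ^ 4) * ∑ i, p i * (inner ℝ (w i) y) ^ 4 := by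
    refine Finset.sum_sq_le_sum_mul_sum_of_sq_le_mul _
      (fun i _ => mul_nonneg (hI.ppos i).le (by positivity))
      (fun i _ => mul_nonneg (hI.ppos i).le (by positivity)) ?_
    intro i _
    exact le_of_eq (by ring)
  have h2 : (∑ i, p i * (inner ℝ (w i) x) ^ 4) * ∑ i, p i * (inner ℝ (w i) y) ^ 4 ≤
      (q / n * ‖x‖ ^ 4) * (q / n * ‖y‖ ^ 4) :=
    mul_le_mul (qb4 hn hq x) (qb4 hn hq y) (s4_nonneg hI y) (by positivity)
  have h3 : (q / n * ‖x‖ ^ 4) * (q / n * ‖y‖ ^ 4) = (q / n * (‖x‖ ^ 2 * ‖y‖ ^ 2)) ^ 2 := by ring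
  exact abs_le_of_sq_le_sq' (by linarith) h0 |>.2

theorem zbound (hn : 1 ≤ n) (hI : IS p w) (hq : QB p w q) (hq0 : 0 ≤ q) (v : EE n) (hv : ‖v‖ = 1)
    (k : ℕ) (hk : 2 ≤ k) :
    ‖∑ i, (p i * (inner ℝ (w i) v) ^ (2 * k - 1)) • w i‖ ≤ q / n := by
  have hqn : 0 ≤ q / n := by positivity
  obtain ⟨z, hz⟩ : ∃ z, z = ∑ i, (p i * (inner ℝ (w i) v) ^ (2 * k - 1)) • w i := ⟨_, rfl⟩
  rw [← hz]
  have h1 : ‖z‖ ^ 2 = ∑ i, p i * (inner ℝ (w i) v) ^ (2 * k - 1) * inner ℝ (w i) z := by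
    rw [← real_inner_self_eq_norm_sq]
    conv_lhs => rw [hz, sum_inner]
    refine Finset.sum_congr rfl ?_
    intro i _
    rw [real_inner_smul_left, ← hz]
  have h2 : ‖z‖ ^ 2 ≤ ∑ i, p i * (|(inner ℝ (w i) v : ℝ)| ^ 3 * |(inner ℝ (w i) z : ℝ)|) := by
    rw [h1]
    refine Finset.sum_le_sum ?_
    intro i _
    rw [mul_assoc]
    refine mul_le_mul_of_nonneg_left ?_ (hI.ppos i).le
    refine le_trans (le_abs_self _) ?_
    rw [abs_mul, abs_pow]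
    refine mul_le_mul_of_nonneg_right ?_ (abs_nonneg _)
    exact pow_le_pow_of_le_one (abs_nonneg _) (abs_inner_le hI i v hv) (by omega)
  have h3 : (∑ i, p i * (|(inner ℝ (w i) v : ℝ)| ^ 3 * |(inner ℝ (w i) z : ℝ)|)) ^ 2 ≤
      (∑ i, p i * (inner ℝ (w i) v) ^ 4) *
        ∑ i, p i * ((inner ℝ (w i) v) ^ 2 * (inner ℝ (w i) z) ^ 2) := by
    refine Finset.sum_sq_le_sum_mul_sum_of_sq_le_mul _
      (fun i _ => mul_nonneg (hI.ppos i).le (by positivity))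
      (fun i _ => mul_nonneg (hI.ppos i).le (by positivity)) ?_
    intro i _
    refine le_of_eq ?_
    have e1 : (|(inner ℝ (w i) v : ℝ)| ^ 3) ^ 2 = (inner ℝ (w i) v) ^ 6 := by
      rw [← abs_pow, sq_abs]; ring
    have e2 : |(inner ℝ (w i) z : ℝ)| ^ 2 = (inner ℝ (w i) z) ^ 2 := sq_abs _
    calc (p i * (|(inner ℝ (w i) v : ℝ)| ^ 3 * |(inner ℝ (w i) z : ℝ)|)) ^ 2
        = p i ^ 2 * ((|(inner ℝ (w i) v : ℝ)| ^ 3) ^ 2 * |(inner ℝ (w i) z : ℝ)| ^ 2) := by ring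
      _ = _ := by rw [e1, e2]; ring
  have h4 : (∑ i, p i * (inner ℝ (w i) v) ^ 4) *
        ∑ i, p i * ((inner ℝ (w i) v) ^ 2 * (inner ℝ (w i) z) ^ 2) ≤
      (q / n) * (q / n * ‖z‖ ^ 2) := by
    have a1 := qb4 hn hq v
    have a2 := qb22 hn hI hq hq0 v z
    rw [hv, one_pow, mul_one] at a1
    rw [hv, one_pow, one_mul] at a2
    exact mul_le_mul a1 a2 (Finset.sum_nonneg fun i _ => mul_nonneg (hI.ppos i).le (by positivity))
      hqn
  have h5 : (‖z‖ ^ 2) ^ 2 ≤ (q / n) ^ 2 * ‖z‖ ^ 2 := by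
    have : (‖z‖ ^ 2) ^ 2 ≤
        (∑ i, p i * (|(inner ℝ (w i) v : ℝ)| ^ 3 * |(inner ℝ (w i) z : ℝ)|)) ^ 2 :=
      pow_le_pow_left₀ (by positivity) h2 2
    calc (‖z‖ ^ 2) ^ 2 ≤ _ := this
      _ ≤ _ := h3
      _ ≤ _ := h4
      _ = _ := by ring
  by_cases hz0 : ‖z‖ = 0
  · rw [hz0]; exact hqn
  · have hzp : 0 < ‖z‖ ^ 2 := by positivity
    have h6 : ‖z‖ ^ 2 ≤ (q / n) ^ 2 := by
      have : ‖z‖ ^ 2 * ‖z‖ ^ 2 ≤ (q / n) ^ 2 * ‖z‖ ^ 2 := by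
        calc ‖z‖ ^ 2 * ‖z‖ ^ 2 = (‖z‖ ^ 2) ^ 2 := by ring
          _ ≤ _ := h5
      exact le_of_mul_le_mul_right this hzp
    exact abs_le_of_sq_le_sq' h6 hqn |>.2

/-- the moments of the sphere -/
theorem smo_le (hB : Stmt_SMB) (hn : 1 ≤ n) (j k : ℕ) (hjk : j ≤ k) : smo n k ≤ smo n j := by
  induction k with
  | zero =>
    have : j = 0 := by omega
    rw [this]
  | succ k ih =>
    rcases Nat.lt_or_ge j (k + 1) with h | h
    · exact le_trans (hB.1 n k hn).2.2.1 (ih (by omega))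
    · have : j = k + 1 := by omega
      rw [this]

theorem smo2 (hB : Stmt_SMB) (hn : 1 ≤ n) (hq1 : 1 / (n : ℝ) ≤ q) (k : ℕ) (hk : 2 ≤ k) :
    0 ≤ smo n k ∧ smo n k ≤ 24 * (q / n) := by
  have hn' : (0 : ℝ) < n := by exact_mod_cast hn
  refine ⟨(hB.1 n k hn).1.le, ?_⟩
  refine le_trans (smo_le hB hn 2 k hk) ?_
  have h1 := (hB.1 n 2 hn).2.2.2
  have h2 : ((2 * 2).factorial : ℝ) = 24 := by norm_num [Nat.factorial]
  rw [h2] at h1
  have h3 : smo n 2 ≤ 24 / (n : ℝ) ^ 2 := by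
    rw [le_div_iff₀ (by positivity)]
    exact h1
  refine le_trans h3 ?_
  have h4 : 24 / (n : ℝ) ^ 2 = 24 * (1 / (n : ℝ) / n) := by field_simp
  rw [h4]
  refine mul_le_mul_of_nonneg_left ?_ (by norm_num)
  exact div_le_div_of_nonneg_right hq1 hn'.le

theorem smo3 (hB : Stmt_SMB) (hn : 1 ≤ n) (k : ℕ) (hk : 3 ≤ k) :
    smo n k ≤ 720 / (n : ℝ) ^ 3 := by
  have hn' : (0 : ℝ) < n := by exact_mod_cast hn
  refine le_trans (smo_le hB hn 3 k hk) ?_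
  have h1 := (hB.1 n 3 hn).2.2.2
  have h2 : ((2 * 3).factorial : ℝ) = 720 := by norm_num [Nat.factorial]
  rw [h2] at h1
  rw [le_div_iff₀ (by positivity)]
  exact h1

theorem Fbound (hB : Stmt_SMB) (hn : 1 ≤ n) (hI : IS p w) (hq : QB p w q)
    (hq1 : 1 / (n : ℝ) ≤ q) (v : EE n) (hv : ‖v‖ = 1) (k : ℕ) (hk : 2 ≤ k) :
    |Fk p w k v| ≤ 25 * (q / n) := by
  obtain ⟨h1, h2⟩ := smo2 hB hn hq1 k hk
  have h3 : 0 ≤ ∑ i, p i * (inner ℝ (w i) v) ^ (2 * k) :=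
    Finset.sum_nonneg fun i _ => mul_nonneg (hI.ppos i).le (by rw [pow_mul]; positivity)
  have h4 : ∑ i, p i * (inner ℝ (w i) v) ^ (2 * k) ≤ q / n := by
    have a1 := qb4 hn hq v
    rw [hv, one_pow, mul_one] at a1
    refine le_trans (Finset.sum_le_sum ?_) a1
    intro i _
    refine mul_le_mul_of_nonneg_left ?_ (hI.ppos i).le
    have e1 : (inner ℝ (w i) v : ℝ) ^ (2 * k) = |(inner ℝ (w i) v : ℝ)| ^ (2 * k) := by
      rw [pow_mul, pow_mul, sq_abs]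
    have e2 : (inner ℝ (w i) v : ℝ) ^ 4 = |(inner ℝ (w i) v : ℝ)| ^ 4 := by
      rw [show (4 : ℕ) = 2 * 2 from rfl, pow_mul, pow_mul, sq_abs]
    rw [e1, e2]
    exact pow_le_pow_of_le_one (abs_nonneg _) (abs_inner_le hI i v hv) (by omega)
  have h5 : 0 ≤ q / n := le_trans h3 h4
  unfold Fk
  rw [abs_le]
  constructor <;> linarith

theorem Gbound (hB : Stmt_SMB) (hn : 1 ≤ n) (hI : IS p w) (hq : QB p w q)
    (hq1 : 1 / (n : ℝ) ≤ q) (v : EE n) (hv : ‖v‖ = 1) (k : ℕ) (hk : 2 ≤ k) :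
    ‖Gk p w k v‖ ≤ 2 * (k : ℝ) * (25 * (q / n)) := by
  have hn' : (0 : ℝ) < n := by exact_mod_cast hn
  have hq0 : 0 ≤ q := le_trans (by positivity) hq1
  obtain ⟨h1, h2⟩ := smo2 hB hn hq1 k hk
  unfold Gk
  rw [norm_smul, Real.norm_eq_abs, abs_of_nonneg (by positivity : (0 : ℝ) ≤ 2 * (k : ℝ))]
  refine mul_le_mul_of_nonneg_left ?_ (by positivity)
  refine le_trans (norm_sub_le _ _) ?_
  have h3 := zbound hn hI hq hq0 v hv k hk
  have h4 : ‖smo n k • v‖ ≤ 24 * (q / n) := by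
    rw [norm_smul, hv, mul_one, Real.norm_eq_abs, abs_of_nonneg h1]
    exact h2
  linarith

theorem second (hB : Stmt_SMB) (hn : 1 ≤ n) (hI : IS p w) (hq : QB p w q)
    (hq1 : 1 / (n : ℝ) ≤ q) (v t : EE n) (hv : ‖v‖ = 1) (ht : ‖t‖ = 1) (k : ℕ) (hk : 2 ≤ k) :
    Fk p w k v ≤ Fk p w k t + inner ℝ (Gk p w k t) (v - t) +
      4 * (k : ℝ) ^ 2 * (q / n) * ‖v - t‖ ^ 2 := by
  have hn' : (0 : ℝ) < n := by exact_mod_cast hn
  have hq0 : 0 ≤ q := le_trans (by positivity) hq1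
  obtain ⟨h1, h2⟩ := smo2 hB hn hq1 k hk
  have hk' : (2 : ℝ) ≤ k := by exact_mod_cast hk
  have e1 : (inner ℝ t (v - t) : ℝ) = -(‖v - t‖ ^ 2) / 2 := by
    have a1 := norm_sub_sq_real v t
    rw [inner_sub_right, real_inner_self_eq_norm_sq, a1, hv, ht, real_inner_comm]
    ring
  have e2 : (inner ℝ (Gk p w k t) (v - t) : ℝ) =
      ∑ i, p i * (2 * (k : ℝ) * (inner ℝ (w i) t) ^ (2 * k - 1) *
        (inner ℝ (w i) v - inner ℝ (w i) t)) + (k : ℝ) * smo n k * ‖v - t‖ ^ 2 := by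
    unfold Gk
    rw [real_inner_smul_left, inner_sub_left, sum_inner, real_inner_smul_left, e1]
    have a2 : ∀ i, (inner ℝ ((p i * (inner ℝ (w i) t) ^ (2 * k - 1)) • w i) (v - t) : ℝ) =
        p i * ((inner ℝ (w i) t) ^ (2 * k - 1) * (inner ℝ (w i) v - inner ℝ (w i) t)) := by
      intro i
      rw [real_inner_smul_left, inner_sub_right]
      ring
    rw [Finset.sum_congr rfl (fun i _ => a2 i), mul_sub, Finset.mul_sum]
    have a3 : ∀ i, 2 * (k : ℝ) * (p i * ((inner ℝ (w i) t) ^ (2 * k - 1) *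
        (inner ℝ (w i) v - inner ℝ (w i) t))) = p i * (2 * (k : ℝ) *
        (inner ℝ (w i) t) ^ (2 * k - 1) * (inner ℝ (w i) v - inner ℝ (w i) t)) := by
      intro i; ring
    rw [Finset.sum_congr rfl (fun i _ => a3 i)]
    ring
  have h3 : ∑ i, p i * (inner ℝ (w i) v) ^ (2 * k) - ∑ i, p i * (inner ℝ (w i) t) ^ (2 * k) -
      ∑ i, p i * (2 * (k : ℝ) * (inner ℝ (w i) t) ^ (2 * k - 1) *
        (inner ℝ (w i) v - inner ℝ (w i) t)) ≤
      (k : ℝ) * (2 * k - 1) * (∑ i, p i * ((inner ℝ (w i) t) ^ 2 * (inner ℝ (w i) (v - t)) ^ 2) +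
        ∑ i, p i * ((inner ℝ (w i) v) ^ 2 * (inner ℝ (w i) (v - t)) ^ 2)) := by
    rw [← Finset.sum_sub_distrib, ← Finset.sum_sub_distrib, ← Finset.sum_add_distrib,
      Finset.mul_sum]
    refine Finset.sum_le_sum ?_
    intro i _
    have a4 := sca (inner ℝ (w i) t) (inner ℝ (w i) v) (abs_inner_le hI i t ht)
      (abs_inner_le hI i v hv) k hk
    have a5 := mul_le_mul_of_nonneg_left a4 (hI.ppos i).le
    rw [inner_sub_right]
    calc _ = p i * ((inner ℝ (w i) v : ℝ) ^ (2 * k) - (inner ℝ (w i) t) ^ (2 * k) -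
        2 * (k : ℝ) * (inner ℝ (w i) t) ^ (2 * k - 1) * (inner ℝ (w i) v - inner ℝ (w i) t)) := by
          ring
      _ ≤ _ := a5
      _ = _ := by ring
  have h4 := qb22 hn hI hq hq0 t (v - t)
  have h5 := qb22 hn hI hq hq0 v (v - t)
  rw [ht, one_pow, one_mul] at h4
  rw [hv, one_pow, one_mul] at h5
  have h6 : (k : ℝ) * (2 * k - 1) * (∑ i, p i * ((inner ℝ (w i) t) ^ 2 *
      (inner ℝ (w i) (v - t)) ^ 2) +
        ∑ i, p i * ((inner ℝ (w i) v) ^ 2 * (inner ℝ (w i) (v - t)) ^ 2)) ≤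
      (k : ℝ) * (2 * k - 1) * (q / n * ‖v - t‖ ^ 2 + q / n * ‖v - t‖ ^ 2) := by
    refine mul_le_mul_of_nonneg_left (add_le_add h4 h5) ?_
    refine mul_nonneg (by positivity) (by linarith)
  have h7 : (k : ℝ) * (2 * k - 1) * (q / n * ‖v - t‖ ^ 2 + q / n * ‖v - t‖ ^ 2) ≤
      4 * (k : ℝ) ^ 2 * (q / n) * ‖v - t‖ ^ 2 := by
    have : 0 ≤ (k : ℝ) * (q / n) * ‖v - t‖ ^ 2 := by positivity
    nlinarith
  have h8 : 0 ≤ (k : ℝ) * smo n k * ‖v - t‖ ^ 2 := by positivity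
  unfold Fk
  rw [e2]
  linarith

theorem integrable_cont (hS : Stmt_SPH) (hn : 1 ≤ n) (f : EE n → ℝ) (hf : Continuous f) :
    Integrable f (sph n) := by
  obtain ⟨hprob, hnorm, -⟩ := hS n hn
  obtain ⟨C, hC⟩ := (isCompact_sphere (0 : EE n) 1).exists_bound_of_continuousOn hf.continuousOn
  refine Integrable.of_bound hf.aestronglyMeasurable C ?_
  filter_upwards [hnorm] with v hv
  exact hC v (by simpa using hv)

theorem contF (k : ℕ) : Continuous (fun v : EE n => Fk p w k v) := by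
  unfold Fk
  fun_prop

theorem contG (k : ℕ) : Continuous (fun v : EE n => Gk p w k v) := by
  unfold Gk
  fun_prop

theorem Tk_nonneg (hT : Stmt_TPD) (hn : 1 ≤ n) (hI : IS p w) (k : ℕ) : 0 ≤ Tk p w k :=
  le_trans (sq_nonneg _) (hT n ι p w k (fun _ => 0) hn (fun i => (hI.ppos i).le) hI.psum hI.nrm
    (fun _ => by simp))

theorem sumFw (hI : IS p w) (k : ℕ) : ∑ i, p i * Fk p w k (w i) = Tk p w k := by
  unfold Fk Tk
  have h1 : ∀ i, p i * (∑ j, p j * (inner ℝ (w j) (w i)) ^ (2 * k) - smo n k) =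
      ∑ j, p i * p j * (inner ℝ (w i) (w j)) ^ (2 * k) - p i * smo n k := by
    intro i
    rw [mul_sub, Finset.mul_sum]
    congr 1
    refine Finset.sum_congr rfl ?_
    intro j _
    rw [real_inner_comm]
    ring
  rw [Finset.sum_congr rfl (fun i _ => h1 i), Finset.sum_sub_distrib, ← Finset.sum_mul, hI.psum,
    one_mul]

theorem intF (hS : Stmt_SPH) (hM : Stmt_SMM) (hn : 1 ≤ n) (hI : IS p w) (k : ℕ) :
    ∫ v, Fk p w k v ∂(sph n) = 0 := by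
  obtain ⟨hprob, hnorm, -⟩ := hS n hn
  unfold Fk
  rw [integral_sub, integral_finsetSum]
  · have h1 : ∀ i, ∫ v, p i * (inner ℝ (w i) v) ^ (2 * k) ∂(sph n) = p i * smo n k := by
      intro i
      rw [integral_const_mul, hM n k (w i) hn, hI.nrm i, one_pow, mul_one]
    rw [Finset.sum_congr rfl (fun i _ => h1 i), ← Finset.sum_mul, hI.psum]
    simp
  · intro i _
    exact integrable_cont hS hn _ (by fun_prop)
  · exact integrable_cont hS hn _ (by fun_prop)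
  · exact integrable_cont hS hn _ (by fun_prop)

theorem sub_sum (hT : Stmt_TPD) (hn : 1 ≤ n) (hI : IS p w) (M m : ℕ) (hm : m ≤ M) :
    ∑ r ∈ Finset.Icc 2 m, Tk p w r ≤ ∑ r ∈ Finset.Icc 2 M, Tk p w r :=
  Finset.sum_le_sum_of_subset_of_nonneg (Finset.Icc_subset_Icc_right hm)
    (fun k _ _ => Tk_nonneg hT hn hI k)

theorem card_le (M : ℕ) : ((Finset.Icc 2 M).card : ℝ) ≤ M := by
  rw [Nat.card_Icc]
  exact_mod_cast (by omega : M + 1 - 2 ≤ M)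

/-- double sums -/
theorem dsum (M : ℕ) (f : ℕ → ℕ → ℝ) (c : ℝ) (hc : 0 ≤ c)
    (hf : ∀ k ∈ Finset.Icc 2 M, ∀ l ∈ Finset.Icc 2 M, f k l ≤ c) :
    ∑ k ∈ Finset.Icc 2 M, ∑ l ∈ Finset.Icc 2 M, f k l ≤ (M : ℝ) ^ 2 * c := by
  have h1 : ∀ k ∈ Finset.Icc 2 M, ∑ l ∈ Finset.Icc 2 M, f k l ≤ M * c := by
    intro k hk
    refine le_trans (Finset.sum_le_card_nsmul _ _ c (hf k hk)) ?_
    rw [nsmul_eq_mul]
    exact mul_le_mul_of_nonneg_right (card_le M) hc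
  refine le_trans (Finset.sum_le_card_nsmul _ _ (M * c) h1) ?_
  rw [nsmul_eq_mul]
  calc ((Finset.Icc 2 M).card : ℝ) * (M * c) ≤ M * (M * c) :=
        mul_le_mul_of_nonneg_right (card_le M) (by positivity)
    _ = _ := by ring

theorem intF2 (hPS : Stmt_PSQ) (hT : Stmt_TPD) (hB : Stmt_SMB) (hS : Stmt_SPH) (hn : 2 ≤ n)
    (hI : IS p w) (M : ℕ) :
    ∫ v, (∑ k ∈ Finset.Icc 2 M, Fk p w k v) ^ 2 ∂(sph n) ≤
      (M : ℝ) ^ 2 * (720 / (n : ℝ) ^ 3 * ∑ k ∈ Finset.Icc 2 M, Tk p w k) := by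
  have hn1 : 1 ≤ n := by omega
  have hX : 0 ≤ ∑ k ∈ Finset.Icc 2 M, Tk p w k :=
    Finset.sum_nonneg fun k _ => Tk_nonneg hT hn1 hI k
  have h1 : (fun v : EE n => (∑ k ∈ Finset.Icc 2 M, Fk p w k v) ^ 2) =
      fun v => ∑ k ∈ Finset.Icc 2 M, ∑ l ∈ Finset.Icc 2 M, Fk p w k v * Fk p w l v := by
    funext v
    rw [sq, Finset.sum_mul_sum]
  have hc : ∀ k l, Continuous fun v : EE n => Fk p w k v * Fk p w l v :=
    fun k l => (contF k).mul (contF l)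
  rw [h1, integral_finsetSum]
  · rw [Finset.sum_congr rfl (fun k _ => integral_finsetSum _
      (fun l _ => integrable_cont hS hn1 _ (hc k l)))]
    refine dsum M _ _ (by positivity) ?_
    intro k hk l hl
    rw [Finset.mem_Icc] at hk hl
    refine le_trans (hPS n ι p w k l hn hI hk.1 hl.1).1 ?_
    refine mul_le_mul (smo3 hB hn1 _ (by omega)) (sub_sum hT hn1 hI M _
      (le_trans (min_le_left _ _) hk.2)) ?_ (by positivity)
    exact Finset.sum_nonneg fun k _ => Tk_nonneg hT hn1 hI k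
  · intro k _
    exact integrable_cont hS hn1 _ (continuous_finsetSum _ fun l _ => hc k l)

theorem intG2 (hPS : Stmt_PSQ) (hT : Stmt_TPD) (hB : Stmt_SMB) (hS : Stmt_SPH) (hn : 2 ≤ n)
    (hI : IS p w) (M : ℕ) :
    ∫ v, ‖∑ k ∈ Finset.Icc 2 M, Gk p w k v‖ ^ 2 ∂(sph n) ≤
      (M : ℝ) ^ 2 * (4 * (M : ℝ) ^ 2 * (720 / (n : ℝ) ^ 3) *
        ∑ k ∈ Finset.Icc 2 M, Tk p w k) := by
  have hn1 : 1 ≤ n := by omega
  have hX : 0 ≤ ∑ k ∈ Finset.Icc 2 M, Tk p w k :=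
    Finset.sum_nonneg fun k _ => Tk_nonneg hT hn1 hI k
  have h1 : (fun v : EE n => ‖∑ k ∈ Finset.Icc 2 M, Gk p w k v‖ ^ 2) =
      fun v => ∑ k ∈ Finset.Icc 2 M, ∑ l ∈ Finset.Icc 2 M,
        (inner ℝ (Gk p w k v) (Gk p w l v) : ℝ) := by
    funext v
    rw [← real_inner_self_eq_norm_sq, sum_inner]
    exact Finset.sum_congr rfl fun k _ => inner_sum _ _ _
  have hc : ∀ k l, Continuous fun v : EE n => (inner ℝ (Gk p w k v) (Gk p w l v) : ℝ) :=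
    fun k l => (contG k).inner (contG l)
  rw [h1, integral_finsetSum]
  · rw [Finset.sum_congr rfl (fun k _ => integral_finsetSum _
      (fun l _ => integrable_cont hS hn1 _ (hc k l)))]
    refine dsum M _ _ (by positivity) ?_
    intro k hk l hl
    rw [Finset.mem_Icc] at hk hl
    refine le_trans (hPS n ι p w k l hn hI hk.1 hl.1).2 ?_
    have hk' : (k : ℝ) ≤ M := by exact_mod_cast hk.2
    have hl' : (l : ℝ) ≤ M := by exact_mod_cast hl.2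
    have a1 : 4 * (k : ℝ) * l ≤ 4 * (M : ℝ) ^ 2 := by
      have : (k : ℝ) * l ≤ M * M := mul_le_mul hk' hl' (by positivity) (by positivity)
      nlinarith
    have a2 : smo n (k + l - 1) ≤ 720 / (n : ℝ) ^ 3 := smo3 hB hn1 _ (by omega)
    have a3 : 0 ≤ smo n (k + l - 1) := (hB.1 n _ hn1).1.le
    refine mul_le_mul (mul_le_mul a1 a2 a3 (by positivity)) (sub_sum hT hn1 hI M _
      (le_trans (min_le_left _ _) hk.2)) ?_ (by positivity)
    exact Finset.sum_nonneg fun k _ => Tk_nonneg hT hn1 hI k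
  · intro k _
    exact integrable_cont hS hn1 _ (continuous_finsetSum _ fun l _ => hc k l)

theorem sumFb (hB : Stmt_SMB) (hn : 1 ≤ n) (hI : IS p w) (hq : QB p w q)
    (hq1 : 1 / (n : ℝ) ≤ q) (v : EE n) (hv : ‖v‖ = 1) (M : ℕ) :
    |∑ k ∈ Finset.Icc 2 M, Fk p w k v| ≤ M * (25 * (q / n)) := by
  have hn' : (0 : ℝ) < n := by exact_mod_cast hn
  have hq0 : 0 ≤ q := le_trans (by positivity) hq1
  refine le_trans (Finset.abs_sum_le_sum_abs _ _) ?_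
  refine le_trans (Finset.sum_le_card_nsmul _ _ (25 * (q / n)) ?_) ?_
  · intro k hk
    rw [Finset.mem_Icc] at hk
    exact Fbound hB hn hI hq hq1 v hv k hk.1
  · rw [nsmul_eq_mul]
    exact mul_le_mul_of_nonneg_right (card_le M) (by positivity)

theorem sumGb (hB : Stmt_SMB) (hn : 1 ≤ n) (hI : IS p w) (hq : QB p w q)
    (hq1 : 1 / (n : ℝ) ≤ q) (v : EE n) (hv : ‖v‖ = 1) (M : ℕ) :
    ‖∑ k ∈ Finset.Icc 2 M, Gk p w k v‖ ≤ M * (2 * (M : ℝ) * (25 * (q / n))) := by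
  have hn' : (0 : ℝ) < n := by exact_mod_cast hn
  have hq0 : 0 ≤ q := le_trans (by positivity) hq1
  refine le_trans (norm_sum_le _ _) ?_
  refine le_trans (Finset.sum_le_card_nsmul _ _ (2 * (M : ℝ) * (25 * (q / n))) ?_) ?_
  · intro k hk
    rw [Finset.mem_Icc] at hk
    refine le_trans (Gbound hB hn hI hq hq1 v hv k hk.1) ?_
    have hk' : (k : ℝ) ≤ M := by exact_mod_cast hk.2
    refine mul_le_mul_of_nonneg_right ?_ (by positivity)
    linarith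
  · rw [nsmul_eq_mul]
    exact mul_le_mul_of_nonneg_right (card_le M) (by positivity)

theorem sumSec (hB : Stmt_SMB) (hn : 1 ≤ n) (hI : IS p w) (hq : QB p w q)
    (hq1 : 1 / (n : ℝ) ≤ q) (v t : EE n) (hv : ‖v‖ = 1) (ht : ‖t‖ = 1) (M : ℕ) :
    ∑ k ∈ Finset.Icc 2 M, Fk p w k v ≤ ∑ k ∈ Finset.Icc 2 M, Fk p w k t +
      ‖∑ k ∈ Finset.Icc 2 M, Gk p w k t‖ * ‖v - t‖ +
      M * (4 * (M : ℝ) ^ 2 * (q / n) * ‖v - t‖ ^ 2) := by
  have hn' : (0 : ℝ) < n := by exact_mod_cast hn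
  have hq0 : 0 ≤ q := le_trans (by positivity) hq1
  have h1 : ∑ k ∈ Finset.Icc 2 M, Fk p w k v ≤ ∑ k ∈ Finset.Icc 2 M, (Fk p w k t +
      inner ℝ (Gk p w k t) (v - t) + 4 * (M : ℝ) ^ 2 * (q / n) * ‖v - t‖ ^ 2) := by
    refine Finset.sum_le_sum ?_
    intro k hk
    rw [Finset.mem_Icc] at hk
    refine le_trans (second hB hn hI hq hq1 v t hv ht k hk.1) ?_
    have hk' : (k : ℝ) ≤ M := by exact_mod_cast hk.2
    have h2 : 4 * (k : ℝ) ^ 2 * (q / n) * ‖v - t‖ ^ 2 ≤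
        4 * (M : ℝ) ^ 2 * (q / n) * ‖v - t‖ ^ 2 := by
      refine mul_le_mul_of_nonneg_right (mul_le_mul_of_nonneg_right ?_ (by positivity))
        (by positivity)
      have := pow_le_pow_left₀ (by positivity) hk' 2
      linarith
    linarith
  refine le_trans h1 ?_
  rw [Finset.sum_add_distrib, Finset.sum_add_distrib, ← sum_inner, Finset.sum_const,
    nsmul_eq_mul]
  have h3 : (inner ℝ (∑ k ∈ Finset.Icc 2 M, Gk p w k t) (v - t) : ℝ) ≤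
      ‖∑ k ∈ Finset.Icc 2 M, Gk p w k t‖ * ‖v - t‖ := real_inner_le_norm _ _
  have h4 : ((Finset.Icc 2 M).card : ℝ) * (4 * (M : ℝ) ^ 2 * (q / n) * ‖v - t‖ ^ 2) ≤
      M * (4 * (M : ℝ) ^ 2 * (q / n) * ‖v - t‖ ^ 2) :=
    mul_le_mul_of_nonneg_right (card_le M) (by positivity)
  linarith

end fam

end TBD_

open TBD_ in
theorem tbd_proof (hW : Stmt_WLD) (hPS : Stmt_PSQ) (hT : Stmt_TPD) (hB : Stmt_SMB)
    (hM : Stmt_SMM) (hS : Stmt_SPH) : Stmt_TBD := by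
  intro M
  obtain ⟨A, hA⟩ : ∃ A : ℝ, A = 400 * ((M : ℝ) + 1) ^ 3 := ⟨_, rfl⟩
  have hM0 : (0 : ℝ) ≤ M := Nat.cast_nonneg M
  have hA1 : 1 ≤ A := by
    rw [hA]
    have : (1 : ℝ) ≤ ((M : ℝ) + 1) ^ 3 := one_le_pow₀ (by linarith)
    linarith
  have hA0 : 0 < A := by linarith
  refine ⟨2 * A, max 12 (6 * (720 * (M ^ 2 + 4 * M ^ 4))), by positivity, ?_⟩
  intro n ι _ p w D q hn hI hMI hq
  have hn12 : 12 ≤ n := le_trans (le_max_left _ _) hn
  have hnB : 6 * (720 * (M ^ 2 + 4 * M ^ 4)) ≤ n := le_trans (le_max_right _ _) hn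
  have hn1 : 1 ≤ n := by omega
  have hn2 : 2 ≤ n := by omega
  have hn' : (0 : ℝ) < n := by exact_mod_cast hn1
  have hq1 := q_ge hn1 hI hq
  have hq0 : 0 < q := lt_of_lt_of_le (by positivity) hq1
  obtain ⟨X, hX⟩ : ∃ X, X = ∑ k ∈ Finset.Icc 2 M, Tk p w k := ⟨_, rfl⟩
  have hX0 : 0 ≤ X := by
    rw [hX]; exact Finset.sum_nonneg fun k _ => Tk_nonneg hT hn1 hI k
  obtain ⟨L, hL⟩ : ∃ L : ℝ, L = (n : ℝ) ^ 2 / (A * q) := ⟨_, rfl⟩
  have hL0 : 0 ≤ L := by rw [hL]; positivity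
  have hLq : L * (q / n) = n / A := by rw [hL]; field_simp
  have hm1 : (M : ℝ) ≤ ((M : ℝ) + 1) ^ 3 := by nlinarith [mul_nonneg hM0 hM0]
  have hm2 : (M : ℝ) * (2 * M) ≤ 2 * ((M : ℝ) + 1) ^ 3 := by
    nlinarith [mul_nonneg hM0 hM0, mul_nonneg (mul_nonneg hM0 hM0) hM0]
  have hm3 : (M : ℝ) * M ^ 2 ≤ ((M : ℝ) + 1) ^ 3 := by
    nlinarith [mul_nonneg hM0 hM0]
  have key : ∀ c : ℝ, c ≤ A / 8 → c * (n / A) ≤ n / 8 := by
    intro c hc
    have h1 : c * (n / A) ≤ A / 8 * (n / A) := mul_le_mul_of_nonneg_right hc (by positivity)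
    refine le_trans h1 (le_of_eq ?_)
    field_simp
  have hWLD := hW n ι p w D (fun v => L * ∑ k ∈ Finset.Icc 2 M, Fk p w k v)
    (fun v => L * ‖∑ k ∈ Finset.Icc 2 M, Gk p w k v‖) hn2 hI hMI
    (continuous_const.mul (continuous_finsetSum _ fun k _ => contF k)).measurable
    (continuous_const.mul (continuous_finsetSum _ fun k _ => contG k).norm).measurable
    (by
      intro v hv
      show |L * ∑ k ∈ Finset.Icc 2 M, Fk p w k v| ≤ (n : ℝ) / 8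
      rw [abs_mul, abs_of_nonneg hL0]
      refine le_trans (mul_le_mul_of_nonneg_left (sumFb hB hn1 hI hq hq1 v hv M) hL0) ?_
      have h1 : L * ((M : ℝ) * (25 * (q / n))) = (25 * M) * (n / A) := by
        rw [← hLq]; ring
      rw [h1]
      apply key
      rw [hA]
      linarith)
    (by
      intro v hv
      show 0 ≤ L * ‖∑ k ∈ Finset.Icc 2 M, Gk p w k v‖ ∧
        L * ‖∑ k ∈ Finset.Icc 2 M, Gk p w k v‖ ≤ (n : ℝ) / 8
      refine ⟨by positivity, ?_⟩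
      refine le_trans (mul_le_mul_of_nonneg_left (sumGb hB hn1 hI hq hq1 v hv M) hL0) ?_
      have h1 : L * ((M : ℝ) * (2 * (M : ℝ) * (25 * (q / n)))) =
          (25 * ((M : ℝ) * (2 * M))) * (n / A) := by
        rw [← hLq]; ring
      rw [h1]
      apply key
      rw [hA]
      linarith)
    (by
      intro v t hv ht
      show L * ∑ k ∈ Finset.Icc 2 M, Fk p w k v ≤ L * ∑ k ∈ Finset.Icc 2 M, Fk p w k t +
        L * ‖∑ k ∈ Finset.Icc 2 M, Gk p w k t‖ * ‖v - t‖ + (n : ℝ) / 8 * ‖v - t‖ ^ 2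
      have h1 := mul_le_mul_of_nonneg_left (sumSec hB hn1 hI hq hq1 v t hv ht M) hL0
      have h2 : (4 * ((M : ℝ) * M ^ 2)) * (n / A) ≤ n / 8 := by
        apply key
        rw [hA]
        linarith
      have h3 : L * (M * (4 * (M : ℝ) ^ 2 * (q / n) * ‖v - t‖ ^ 2)) =
          (4 * ((M : ℝ) * M ^ 2)) * (n / A) * ‖v - t‖ ^ 2 := by
        rw [← hLq]; ring
      have h4 : L * (M * (4 * (M : ℝ) ^ 2 * (q / n) * ‖v - t‖ ^ 2)) ≤
          (n : ℝ) / 8 * ‖v - t‖ ^ 2 := by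
        rw [h3]
        exact mul_le_mul_of_nonneg_right h2 (by positivity)
      have h5 : L * (∑ k ∈ Finset.Icc 2 M, Fk p w k t +
          ‖∑ k ∈ Finset.Icc 2 M, Gk p w k t‖ * ‖v - t‖ +
          M * (4 * (M : ℝ) ^ 2 * (q / n) * ‖v - t‖ ^ 2)) =
          L * ∑ k ∈ Finset.Icc 2 M, Fk p w k t +
          L * ‖∑ k ∈ Finset.Icc 2 M, Gk p w k t‖ * ‖v - t‖ +
          L * (M * (4 * (M : ℝ) ^ 2 * (q / n) * ‖v - t‖ ^ 2)) := by ring
      linarith)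
  have hl1 : ∑ i, p i * (L * ∑ k ∈ Finset.Icc 2 M, Fk p w k (w i)) = L * X := by
    have a1 : ∀ i, p i * (L * ∑ k ∈ Finset.Icc 2 M, Fk p w k (w i)) =
        L * ∑ k ∈ Finset.Icc 2 M, p i * Fk p w k (w i) := by
      intro i
      rw [← Finset.mul_sum]; ring
    rw [Finset.sum_congr rfl (fun i _ => a1 i), ← Finset.mul_sum, Finset.sum_comm, hX]
    rw [Finset.sum_congr rfl (fun k _ => sumFw hI k)]
  have hl2 : ∫ v, L * ∑ k ∈ Finset.Icc 2 M, Fk p w k v ∂(sph n) = 0 := by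
    rw [integral_const_mul, integral_finsetSum]
    · rw [Finset.sum_congr rfl (fun k _ => intF hS hM hn1 hI k)]
      simp
    · intro k _
      exact integrable_cont hS hn1 _ (contF k)
  have hr : ∫ v, ((L * ∑ k ∈ Finset.Icc 2 M, Fk p w k v) ^ 2 +
      (L * ‖∑ k ∈ Finset.Icc 2 M, Gk p w k v‖) ^ 2) ∂(sph n) ≤
      L ^ 2 * ((M : ℝ) ^ 2 * (720 / (n : ℝ) ^ 3 * X)) +
      L ^ 2 * ((M : ℝ) ^ 2 * (4 * (M : ℝ) ^ 2 * (720 / (n : ℝ) ^ 3) * X)) := by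
    have c1 : Continuous fun v : EE n => (L * ∑ k ∈ Finset.Icc 2 M, Fk p w k v) ^ 2 :=
      (continuous_const.mul (continuous_finsetSum _ fun k _ => contF k)).pow 2
    have c2 : Continuous fun v : EE n => (L * ‖∑ k ∈ Finset.Icc 2 M, Gk p w k v‖) ^ 2 :=
      (continuous_const.mul (continuous_finsetSum _ fun k _ => contG k).norm).pow 2
    rw [integral_add (integrable_cont hS hn1 _ c1) (integrable_cont hS hn1 _ c2)]
    refine add_le_add ?_ ?_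
    · have e1 : (fun v : EE n => (L * ∑ k ∈ Finset.Icc 2 M, Fk p w k v) ^ 2) =
          fun v => L ^ 2 * (∑ k ∈ Finset.Icc 2 M, Fk p w k v) ^ 2 := by
        funext v; ring
      rw [e1, integral_const_mul, hX]
      exact mul_le_mul_of_nonneg_left (intF2 hPS hT hB hS hn2 hI M) (by positivity)
    · have e1 : (fun v : EE n => (L * ‖∑ k ∈ Finset.Icc 2 M, Gk p w k v‖) ^ 2) =
          fun v => L ^ 2 * ‖∑ k ∈ Finset.Icc 2 M, Gk p w k v‖ ^ 2 := by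
        funext v; ring
      rw [e1, integral_const_mul, hX]
      exact mul_le_mul_of_nonneg_left (intG2 hPS hT hB hS hn2 hI M) (by positivity)
  have h1 : L * X ≤ D + 3 / (n : ℝ) * (L ^ 2 * ((M : ℝ) ^ 2 * (720 / (n : ℝ) ^ 3 * X)) +
      L ^ 2 * ((M : ℝ) ^ 2 * (4 * (M : ℝ) ^ 2 * (720 / (n : ℝ) ^ 3) * X))) := by
    have h2 : L * X - 0 ≤ D + 3 / (n : ℝ) * ∫ v, ((L * ∑ k ∈ Finset.Icc 2 M, Fk p w k v) ^ 2 +
        (L * ‖∑ k ∈ Finset.Icc 2 M, Gk p w k v‖) ^ 2) ∂(sph n) := by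
      rw [← hl1, ← hl2]
      exact hWLD
    rw [sub_zero] at h2
    refine le_trans h2 ?_
    have := mul_le_mul_of_nonneg_left hr (by positivity : 0 ≤ 3 / (n : ℝ))
    linarith
  obtain ⟨B, hBd⟩ : ∃ B : ℝ, B = 720 * ((M : ℝ) ^ 2 + 4 * M ^ 4) := ⟨_, rfl⟩
  have hB0 : 0 ≤ B := by rw [hBd]; positivity
  have hBn : 6 * B ≤ n := by
    rw [hBd]
    exact_mod_cast hnB
  have h2 : 3 / (n : ℝ) * (L ^ 2 * ((M : ℝ) ^ 2 * (720 / (n : ℝ) ^ 3 * X)) +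
      L ^ 2 * ((M : ℝ) ^ 2 * (4 * (M : ℝ) ^ 2 * (720 / (n : ℝ) ^ 3) * X))) =
      3 * B * X / (A * q) ^ 2 := by
    rw [hL, hBd]
    field_simp
  rw [h2, hL] at h1
  have hAq : 0 < A * q := by positivity
  have h3 : (n : ℝ) ^ 2 * X ≤ D * (A * q) + 3 * B * X / (A * q) := by
    have h4 := mul_le_mul_of_nonneg_right h1 hAq.le
    have e1 : (n : ℝ) ^ 2 / (A * q) * X * (A * q) = (n : ℝ) ^ 2 * X := by field_simp
    have e2 : (D + 3 * B * X / (A * q) ^ 2) * (A * q) = D * (A * q) + 3 * B * X / (A * q) := by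
      field_simp
    rw [e1, e2] at h4
    exact h4
  have h4 : 1 / (A * q) ≤ n := by
    rw [div_le_iff₀ hAq]
    have h5 : 1 ≤ n * q := by
      have := mul_le_mul_of_nonneg_left hq1 hn'.le
      have e : (n : ℝ) * (1 / n) = 1 := by field_simp
      linarith
    have h6 : (n : ℝ) * q ≤ n * (A * q) := by
      refine mul_le_mul_of_nonneg_left ?_ hn'.le
      nlinarith
    linarith
  have h5 : 3 * B * X / (A * q) ≤ 1 / 2 * ((n : ℝ) ^ 2 * X) := by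
    have e1 : 3 * B * X / (A * q) = 3 * B * X * (1 / (A * q)) := by ring
    rw [e1]
    refine le_trans (mul_le_mul_of_nonneg_left h4 (by positivity)) ?_
    have h6 : (n : ℝ) * X * (6 * B) ≤ n * X * n := mul_le_mul_of_nonneg_left hBn (by positivity)
    nlinarith
  rw [← hX]
  nlinarith

end PPX
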