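import Pool.Agent.PPX.Stmts

/-!
# Squad PPX (MP_0bf616_gt): nearly isoperimetric bodies, in terms of the linear images of `K`
-/

set_option autoImplicit false

namespace PPX

open MeasureTheory Set Filter Topology
open PPI PPG
open scoped Pointwise

namespace NIS_

lemma vl_pos {n : ℕ} {K : Set (EE n)} (hk : IsCompact K) (hi : (interior K).Nonempty) :
    0 < vl K := by
  unfold vl
  apply ENNReal.toReal_pos
  · have := (isOpen_interior.measure_pos volume hi).trans_le (measure_mono interior_subset)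
    exact this.ne'
  · exact hk.measure_lt_top.ne

lemma vl_image {n : ℕ} (T : EE n →L[ℝ] EE n) (S : Set (EE n)) : vl (T '' S) = |T.det| * vl S := by
  unfold vl
  rw [Measure.addHaar_image_continuousLinearMap, ENNReal.toReal_mul,
    ENNReal.toReal_ofReal (abs_nonneg _)]

/-- the two forms of the hypothesis -/
lemma form {n : ℕ} (hk : 0 < kap n) {K : Set (EE n)} (hv : 0 < vl K) {η : ℝ}
    (h : ∃ T : EE n →L[ℝ] EE n, vl (T '' K) = kap n ∧ ∃ t : ℝ, 0 < t ∧
      vl (T '' K + t • Metric.closedBall (0 : EE n) 1) < kap n * (1 + (1 + η) * n * t)) :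
    ∃ (A : EE n →L[ℝ] EE n) (t : ℝ), |A.det| * kap n = vl K ∧ 0 < t ∧
      vl (K + t • (A '' Bn n)) < (1 + (1 + η) * n * t) * vl K := by
  obtain ⟨T, hT, t, ht, h⟩ := h
  have hdet : T.det ≠ 0 := by
    intro h0
    rw [vl_image, h0, abs_zero, zero_mul] at hT
    linarith
  obtain ⟨e, he⟩ : ∃ e : EE n ≃L[ℝ] EE n, (e : EE n →L[ℝ] EE n) = T :=
    ⟨T.toContinuousLinearEquivOfDetNeZero hdet, by ext; simp⟩
  set A : EE n →L[ℝ] EE n := (e.symm : EE n →L[ℝ] EE n) with hA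
  have hTA : ∀ x, T (A x) = x := by
    intro x
    rw [← he]
    simp [hA]
  have hAT : ∀ x, A (T x) = x := by
    intro x
    rw [← he]
    simp [hA]
  have hAK : A '' (T '' K) = K := by
    ext x
    simp only [mem_image, exists_exists_and_eq_and]
    constructor
    · rintro ⟨y, hy, rfl⟩
      rw [hAT]
      exact hy
    · intro hx
      exact ⟨x, hx, hAT x⟩
  have hdA : |A.det| * kap n = vl K := by rw [← hT, ← vl_image, hAK]
  have hdp : 0 < |A.det| := by
    by_contra hcon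
    have : |A.det| = 0 := le_antisymm (not_lt.1 hcon) (abs_nonneg _)
    rw [this, zero_mul] at hdA
    linarith
  refine ⟨A, t, hdA, ht, ?_⟩
  have h5 : K + t • (A '' Bn n) = A '' (T '' K + t • Metric.closedBall (0 : EE n) 1) := by
    ext x
    simp only [Set.mem_add, mem_image, Set.mem_smul_set]
    constructor
    · rintro ⟨y, hy, _, ⟨_, ⟨b, hb, rfl⟩, rfl⟩, rfl⟩
      refine ⟨T y + t • b, ⟨T y, ⟨y, hy, rfl⟩, t • b, ⟨b, hb, rfl⟩, rfl⟩, ?_⟩
      rw [map_add, hAT, map_smul]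
    · rintro ⟨_, ⟨_, ⟨y, hy, rfl⟩, _, ⟨b, hb, rfl⟩, rfl⟩, rfl⟩
      refine ⟨y, hy, t • A b, ⟨A b, ⟨b, hb, rfl⟩, rfl⟩, ?_⟩
      rw [map_add, hAT, map_smul]
  rw [h5, vl_image, ← hdA]
  calc |A.det| * vl (T '' K + t • Metric.closedBall (0 : EE n) 1)
      < |A.det| * (kap n * (1 + (1 + η) * n * t)) := mul_lt_mul_of_pos_left h hdp
    _ = (1 + (1 + η) * n * t) * (|A.det| * kap n) := by ring

end NIS_

theorem nis_proof (hFAA : Stmt_FAA) (hAVE : PPI.Stmt_AVE) :
    ∃ (c : ℝ) (n₀ : ℕ), 0 < c ∧ ∀ (n : ℕ) (K : Set (EE n)), n₀ ≤ n → 2 ≤ n → Convex ℝ K →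
      IsCompact K → (interior K).Nonempty →
      (∃ T : EE n →L[ℝ] EE n, vl (T '' K) = kap n ∧ ∃ t : ℝ, 0 < t ∧
        vl (T '' K + t • Metric.closedBall (0 : EE n) 1) <
          kap n * (1 + (1 + c / n) * n * t)) →
      Pn n * vl K ^ (n - 1) ≤ vl (projBody K) := by
  obtain ⟨c, n₀, hc, h⟩ := hFAA
  refine ⟨c, n₀, hc, ?_⟩
  intro n K hn hn2 hconv hcomp hint hT
  exact h n K hn hn2 hconv hcomp hint
    (NIS_.form (hAVE n (by omega)).1 (NIS_.vl_pos hcomp hint) hT)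

end PPX
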