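import Pool.Agent.PPX.Stmts2

/-!
# Squad PPX, module AFF: the ellipsoid of inertia
-/

set_option autoImplicit false

namespace PPX

open MeasureTheory Set Filter Topology
open PPI PPG
open scoped Pointwise ENNReal

namespace AFF_

variable {n : ℕ}

/-- second moments about `c` -/
noncomputable def q (K : Set (EE n)) (c u : EE n) : ℝ := ∫ x in K, (inner ℝ (x - c) u : ℝ) ^ 2

lemma volK_pos {K : Set (EE n)} (hint : (interior K).Nonempty) : 0 < volume K :=
  lt_of_lt_of_le (isOpen_interior.measure_pos volume hint) (measure_mono interior_subset)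

lemma q_pos {K : Set (EE n)} (hc : IsCompact K) (hint : (interior K).Nonempty) (c u : EE n)
    (hu : u ≠ 0) : 0 < q K c u := by
  have hcont : Continuous fun x : EE n => (inner ℝ (x - c) u : ℝ) ^ 2 := by fun_prop
  have hi : IntegrableOn (fun x : EE n => (inner ℝ (x - c) u : ℝ) ^ 2) K volume :=
    hcont.continuousOn.integrableOn_compact hc
  unfold q
  rw [setIntegral_pos_iff_support_of_nonneg_ae]
  · set U : Set (EE n) := {x : EE n | (inner ℝ (x - c) u : ℝ) ≠ 0} ∩ interior K with hU
    have hUo : IsOpen U := by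
      refine IsOpen.inter ?_ isOpen_interior
      exact isOpen_ne_fun (by fun_prop) continuous_const
    have hUn : U.Nonempty := by
      obtain ⟨x0, hx0⟩ := hint
      by_cases h : (inner ℝ (x0 - c) u : ℝ) = 0
      · have h1 : Tendsto (fun t : ℝ => x0 + t • u) (𝓝[>] 0) (𝓝 x0) := by
          have : Continuous fun t : ℝ => x0 + t • u := by fun_prop
          have h2 := this.tendsto 0
          simp only [zero_smul, add_zero] at h2
          exact h2.mono_left nhdsWithin_le_nhds
        have h2 : ∀ᶠ t : ℝ in 𝓝[>] 0, x0 + t • u ∈ interior K :=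
          h1.eventually (isOpen_interior.mem_nhds hx0)
        have h3 : ∀ᶠ t : ℝ in 𝓝[>] 0, 0 < t := eventually_mem_nhdsWithin
        obtain ⟨t, ht, ht0⟩ := (h2.and h3).exists
        refine ⟨x0 + t • u, ?_, ht⟩
        show (inner ℝ (x0 + t • u - c) u : ℝ) ≠ 0
        have h4 : x0 + t • u - c = (x0 - c) + t • u := by abel
        rw [h4, inner_add_left, h, zero_add, real_inner_smul_left, real_inner_self_eq_norm_sq]
        have : 0 < ‖u‖ := norm_pos_iff.mpr hu
        positivity
      · exact ⟨x0, h, hx0⟩
    refine lt_of_lt_of_le (hUo.measure_pos volume hUn) (measure_mono ?_)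
    rintro x ⟨hx1, hx2⟩
    refine ⟨?_, interior_subset hx2⟩
    rw [Function.mem_support]
    exact pow_ne_zero 2 hx1
  · exact Eventually.of_forall fun x => sq_nonneg _
  · exact hi

open scoped MatrixOrder in
/-- the quadratic form of the second moments is the square of a norm -/
lemma exists_P {K : Set (EE n)} (hc : IsCompact K) (hint : (interior K).Nonempty) (c : EE n) :
    ∃ P : EE n ≃L[ℝ] EE n, ∀ u, ‖P u‖ ^ 2 = q K c u := by
  classical
  set M : Matrix (Fin n) (Fin n) ℝ := Matrix.of fun i j => ∫ x in K, (x i - c i) * (x j - c j)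
    with hM
  have hint2 : ∀ i j : Fin n, IntegrableOn (fun x : EE n => (x i - c i) * (x j - c j)) K volume := by
    intro i j
    have hcont : Continuous fun x : EE n => (x i - c i) * (x j - c j) := by fun_prop
    exact hcont.continuousOn.integrableOn_compact hc
  have hq : ∀ u : EE n, q K c u = ∑ i, ∑ j, u i * (M i j * u j) := by
    intro u
    unfold q
    have h1 : ∀ x : EE n, (inner ℝ (x - c) u : ℝ) ^ 2 =
        ∑ i, ∑ j, (u i * u j) * ((x i - c i) * (x j - c j)) := by
      intro x
      have h2 : (inner ℝ (x - c) u : ℝ) = ∑ i, u i * (x i - c i) := by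
        rw [PiLp.inner_apply]
        simp
      rw [h2, sq, Finset.sum_mul_sum]
      refine Finset.sum_congr rfl fun i _ => Finset.sum_congr rfl fun j _ => ?_
      ring
    simp_rw [h1]
    rw [integral_finsetSum _ (fun i _ => integrable_finsetSum _
      (fun j _ => (hint2 i j).const_mul _))]
    refine Finset.sum_congr rfl fun i _ => ?_
    rw [integral_finsetSum _ (fun j _ => (hint2 i j).const_mul _)]
    refine Finset.sum_congr rfl fun j _ => ?_
    rw [integral_const_mul, hM, Matrix.of_apply]
    ring
  have hnn : ∀ u : EE n, 0 ≤ q K c u := fun u =>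
    integral_nonneg fun x => sq_nonneg _
  have hPSD : M.PosSemidef := by
    refine Matrix.PosSemidef.of_dotProduct_mulVec_nonneg ?_ ?_
    · ext i j
      simp only [hM, Matrix.conjTranspose_apply, Matrix.of_apply, star_trivial]
      refine integral_congr_ae (Eventually.of_forall fun x => ?_)
      simp only [mul_comm]
    · intro v
      have h1 := hnn (WithLp.toLp 2 v)
      rw [hq] at h1
      simp only [star_trivial, dotProduct, Matrix.mulVec]
      simp only [Finset.mul_sum]
      exact h1
  obtain ⟨B, hB⟩ := CStarAlgebra.nonneg_iff_eq_star_mul_self.mp hPSD.nonneg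
  set P0 : EE n →ₗ[ℝ] EE n := Matrix.toEuclideanLin B with hP0
  have hP0q : ∀ u, ‖P0 u‖ ^ 2 = q K c u := by
    intro u
    rw [hq, EuclideanSpace.norm_sq_eq]
    have h1 : ∀ k, (P0 u) k = ∑ i, B k i * u i := by
      intro k
      simp [hP0, Matrix.toLpLin_apply, Matrix.mulVec, dotProduct]
    simp_rw [h1, Real.norm_eq_abs, sq_abs]
    have h2 : ∀ i j, M i j = ∑ k, B k i * B k j := by
      intro i j
      rw [hB, Matrix.mul_apply]
      simp [Matrix.star_apply]
    simp_rw [h2]
    have h3 : ∀ k, (∑ i, B k i * u i) ^ 2 = ∑ i, ∑ j, u i * ((B k i * B k j) * u j) := by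
      intro k
      rw [sq, Finset.sum_mul_sum]
      refine Finset.sum_congr rfl fun i _ => Finset.sum_congr rfl fun j _ => ?_
      ring
    simp_rw [h3]
    rw [Finset.sum_comm]
    refine Finset.sum_congr rfl fun i _ => ?_
    rw [Finset.sum_comm]
    refine Finset.sum_congr rfl fun j _ => ?_
    rw [Finset.sum_mul, Finset.mul_sum]
  have hinj : Function.Injective P0 := by
    rw [← LinearMap.ker_eq_bot, LinearMap.ker_eq_bot']
    intro u hu
    by_contra hne
    have h1 := q_pos hc hint c u hne
    rw [← hP0q u, hu] at h1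
    simp at h1
  refine ⟨(LinearEquiv.ofInjectiveEndo P0 hinj).toContinuousLinearEquiv, ?_⟩
  intro u
  rw [← hP0q u]
  rfl

/-- affine maps preserving `K` preserve the measure on `K` -/
lemma det_one {K : Set (EE n)} (hc : IsCompact K) (hint : (interior K).Nonempty)
    (A : EE n →L[ℝ] EE n) (w : EE n) (h : (fun x => A x + w) '' K = K) : |A.det| = 1 := by
  have h1 : volume ((fun x => A x + w) '' K) = ENNReal.ofReal |A.det| * volume K := by
    have h2 : (fun x => A x + w) '' K = (fun y => y + w) '' (A '' K) := by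
      rw [Set.image_image]
    rw [h2, Set.image_add_right, measure_preimage_add_right,
      Measure.addHaar_image_continuousLinearMap]
  rw [h] at h1
  have h3 : volume K ≠ 0 := (volK_pos hint).ne'
  have h4 : volume K ≠ ⊤ := hc.measure_lt_top.ne
  have h5 : ENNReal.ofReal |A.det| = 1 := by
    have h6 : 1 * volume K = ENNReal.ofReal |A.det| * volume K := by rw [one_mul]; exact h1
    exact ((ENNReal.mul_left_inj h3 h4).mp h6).symm
  have h7 := congrArg ENNReal.toReal h5
  rw [ENNReal.toReal_ofReal (abs_nonneg _)] at h7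
  simpa using h7

lemma cov {K : Set (EE n)} (hc : IsCompact K) (hint : (interior K).Nonempty)
    (A : EE n →L[ℝ] EE n) (w : EE n) (h : (fun x => A x + w) '' K = K) {F : Type*}
    [NormedAddCommGroup F] [NormedSpace ℝ F] (f : EE n → F) :
    ∫ x in K, f (A x + w) = ∫ y in K, f y := by
  have hd := det_one hc hint A w h
  have hne : A.det ≠ 0 := by
    intro h0
    rw [h0] at hd
    simp at hd
  have hinj : Function.Injective A := by
    have := (LinearMap.equivOfDetNeZero (A : EE n →ₗ[ℝ] EE n) hne).injective
    exact this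
  have h1 := integral_image_eq_integral_abs_det_fderiv_smul (μ := (volume : Measure (EE n)))
    (s := K) (f := fun x => A x + w) (f' := fun _ => A) hc.measurableSet
    (fun x _ => (A.hasFDerivWithinAt.add_const w)) (fun x _ y _ hxy => hinj (by simpa using hxy)) f
  rw [h] at h1
  rw [h1, hd]
  simp

end AFF_

open AFF_ in
theorem aff_proof : Stmt_AFF := by
  intro n K hn hconv hc hint hirr
  -- centroid
  set V : ℝ := (volume K).toReal with hV
  have hV0 : V ≠ 0 := by
    rw [hV]
    exact (ENNReal.toReal_pos (volK_pos hint).ne' hc.measure_lt_top.ne).ne'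
  set c : EE n := V⁻¹ • ∫ x in K, x with hcdef
  have hcV : V • c = ∫ x in K, x := by
    rw [hcdef, smul_smul, mul_inv_cancel₀ hV0, one_smul]
  have hid : IntegrableOn (fun x : EE n => x) K volume :=
    continuous_id.continuousOn.integrableOn_compact hc
  have hcent : ∀ (A : EE n →L[ℝ] EE n) (w : EE n), (fun x => A x + w) '' K = K → A c + w = c := by
    intro A w h
    have h1 := cov hc hint A w h (fun x => x)
    have hiA : IntegrableOn (fun x : EE n => A x) K volume :=
      A.continuous.continuousOn.integrableOn_compact hc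
    have hiw : IntegrableOn (fun _ : EE n => w) K volume :=
      continuous_const.continuousOn.integrableOn_compact hc
    rw [integral_add hiA hiw, A.integral_comp_comm hid, ← hcV, setIntegral_const, map_smul] at h1
    have h2 : V • (A c + w) = V • c := by
      rw [smul_add, ← h1]
      rfl
    exact smul_right_injective _ hV0 h2
  obtain ⟨P, hP⟩ := exists_P hc hint c
  -- invariance of the quadratic form
  have hqinv : ∀ (A : EE n →L[ℝ] EE n) (w : EE n), (fun x => A x + w) '' K = K →
      ∀ u, q K c (ContinuousLinearMap.adjoint A u) = q K c u := by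
    intro A w h u
    unfold q
    rw [← cov hc hint A w h (fun y => (inner ℝ (y - c) u : ℝ) ^ 2)]
    congr 1
    ext x
    rw [ContinuousLinearMap.adjoint_inner_right, map_sub]
    have h3 : A x + w - c = A x - A c := by
      nth_rewrite 1 [← hcent A w h]
      abel
    rw [h3]
  set T : EE n →L[ℝ] EE n := ContinuousLinearMap.adjoint (P.symm : EE n →L[ℝ] EE n) with hT
  have hTdet : T.det ≠ 0 := by
    have h1 : T * ContinuousLinearMap.adjoint (P : EE n →L[ℝ] EE n) = 1 := by
      ext1 x
      refine ext_inner_right ℝ fun v => ?_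
      rw [mul_apply_eq_comp, hT, ContinuousLinearMap.adjoint_inner_left,
        ContinuousLinearMap.adjoint_inner_left]
      simp
    intro h0
    have h2 := congrArg ContinuousLinearMap.det h1
    have h3 : (T * ContinuousLinearMap.adjoint (P : EE n →L[ℝ] EE n)).det =
        T.det * (ContinuousLinearMap.adjoint (P : EE n →L[ℝ] EE n)).det :=
      map_mul LinearMap.det _ _
    rw [h3, h0, zero_mul] at h2
    have h4 : (1 : EE n →L[ℝ] EE n).det = 1 := LinearMap.det_id
    rw [h4] at h2
    exact zero_ne_one h2
  have hTinj : Function.Injective T := by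
    have := (LinearMap.equivOfDetNeZero (T : EE n →ₗ[ℝ] EE n) hTdet).injective
    exact this
  have hTsurj : Function.Surjective T :=
    (LinearMap.injective_iff_surjective (f := (T : EE n →ₗ[ℝ] EE n))).mp hTinj
  refine ⟨T, -c, hTdet, ?_⟩
  intro W hW
  have key : ∀ (A : EE n →L[ℝ] EE n) (w : EE n), (fun x => A x + w) '' K = K →
      ∃ g : EE n ≃ₗᵢ[ℝ] EE n, g ∈ GK (T '' ((fun x => x + -c) '' K)) ∧
        ∀ x, g (T x) = T (A x) := by
    intro A w h
    set h0 : EE n →ₗ[ℝ] EE n := (((P : EE n →L[ℝ] EE n) ∘L (ContinuousLinearMap.adjoint A) ∘L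
      (P.symm : EE n →L[ℝ] EE n) : EE n →L[ℝ] EE n) : EE n →ₗ[ℝ] EE n) with hh0
    have hnorm : ∀ v, ‖h0 v‖ = ‖v‖ := by
      intro v
      have h1 : ‖h0 v‖ ^ 2 = ‖v‖ ^ 2 := by
        have h2 : h0 v = P (ContinuousLinearMap.adjoint A (P.symm v)) := rfl
        rw [h2, hP, hqinv A w h, ← hP, ContinuousLinearEquiv.apply_symm_apply]
      exact (sq_eq_sq₀ (norm_nonneg _) (norm_nonneg _)).mp h1
    set li : EE n →ₗᵢ[ℝ] EE n := ⟨h0, hnorm⟩ with hli
    set he : EE n ≃ₗᵢ[ℝ] EE n := li.toLinearIsometryEquiv rfl with hhe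
    have hhe0 : ∀ v, he v = P (ContinuousLinearMap.adjoint A (P.symm v)) := fun v => rfl
    have hcomm : ∀ x, he.symm (T x) = T (A x) := by
      intro x
      refine ext_inner_right ℝ fun v => ?_
      have h1 : (inner ℝ (he.symm (T x)) v : ℝ) = inner ℝ (T x) (he v) := by
        rw [← he.inner_map_map (he.symm (T x)) v, LinearIsometryEquiv.apply_symm_apply]
      rw [h1, hhe0, hT, ContinuousLinearMap.adjoint_inner_left,
        ContinuousLinearMap.adjoint_inner_left]
      have h2 : (P.symm : EE n →L[ℝ] EE n) (P (ContinuousLinearMap.adjoint A (P.symm v))) =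
        ContinuousLinearMap.adjoint A (P.symm v) := P.symm_apply_apply _
      rw [h2, ContinuousLinearMap.adjoint_inner_right]
      rfl
    refine ⟨he.symm, ?_, hcomm⟩
    show he.symm '' (T '' ((fun x => x + -c) '' K)) = T '' ((fun x => x + -c) '' K)
    have h5 : ∀ x, he.symm (T (x + -c)) = T ((A x + w) + -c) := by
      intro x
      rw [hcomm]
      congr 1
      rw [map_add, map_neg]
      have h3 : A x + w + -c = A x + -(A c) := by
        nth_rewrite 1 [← hcent A w h]
        abel
      rw [h3]
    rw [Set.image_image, Set.image_image, Set.image_image]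
    have h6 : (fun x => he.symm (T (x + -c))) '' K = (fun x => T (x + -c)) '' ((fun x => A x + w) '' K) := by
      rw [Set.image_image]
      exact Set.image_congr fun x _ => h5 x
    rw [h6, h]
  have hcomap := hirr (W.comap (T : EE n →ₗ[ℝ] EE n)) (by
    intro A w h x hx
    rw [Submodule.mem_comap] at hx ⊢
    obtain ⟨g, hg, hgT⟩ := key (LinearMap.toContinuousLinearMap A) w h
    have h1 := hW g hg _ hx
    have h2 : g ((T : EE n →ₗ[ℝ] EE n) x) = (T : EE n →ₗ[ℝ] EE n) (A x) := hgT x
    rw [h2] at h1
    exact h1)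
  rcases hcomap with h | h
  · left
    rw [eq_bot_iff]
    intro y hy
    obtain ⟨x, rfl⟩ := hTsurj y
    have h1 : x ∈ W.comap (T : EE n →ₗ[ℝ] EE n) := hy
    rw [h, Submodule.mem_bot] at h1
    rw [h1, map_zero]
    exact Submodule.zero_mem _
  · right
    rw [eq_top_iff]
    intro y _
    obtain ⟨x, rfl⟩ := hTsurj y
    have h1 : x ∈ W.comap (T : EE n →ₗ[ℝ] EE n) := by rw [h]; exact Submodule.mem_top
    exact h1

end PPX
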