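import Pool.Agent.PPX.Stmts

/-!
# Squad PPX, module BAS: the basic integrals
-/

set_option autoImplicit false

namespace PPX

open MeasureTheory Set Filter Topology
open PPI PPG
open scoped Pointwise ENNReal

namespace BAS_

/-- the antiderivative -/
lemma deriv_G (m : ℕ) (hm : 1 ≤ m) (c : ℝ) (hc : 0 < c) (y : ℝ) (hy : 0 < y) :
    HasDerivAt (fun y : ℝ => (1 / ((m : ℝ) * c)) * (y ^ 2 / (c + y ^ 2)) ^ ((m : ℝ) / 2))
      (y ^ (m - 1) * (c + y ^ 2) ^ (-((m : ℝ) / 2) - 1)) y := by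
  have hm0 : (0 : ℝ) < m := by exact_mod_cast hm
  have hcy : 0 < c + y ^ 2 := by positivity
  have h1 : HasDerivAt (fun y : ℝ => y ^ 2 / (c + y ^ 2))
      ((2 * y * (c + y ^ 2) - y ^ 2 * (2 * y)) / (c + y ^ 2) ^ 2) y := by
    have ha : HasDerivAt (fun y : ℝ => y ^ 2) (2 * y) y := by
      simpa using hasDerivAt_pow 2 y
    have hb : HasDerivAt (fun y : ℝ => c + y ^ 2) (2 * y) y := by
      simpa using ha.const_add c
    exact ha.div hb hcy.ne'
  have hpos : 0 < y ^ 2 / (c + y ^ 2) := by positivity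
  have h2 := (h1.rpow_const (p := (m : ℝ) / 2) (Or.inl hpos.ne')).const_mul (1 / ((m : ℝ) * c))
  refine h2.congr_deriv ?_
  have e1 : (y ^ 2 / (c + y ^ 2)) ^ ((m : ℝ) / 2 - 1) =
      (y ^ 2) ^ ((m : ℝ) / 2 - 1) * (c + y ^ 2) ^ (-((m : ℝ) / 2 - 1)) := by
    rw [Real.div_rpow (by positivity) hcy.le, Real.rpow_neg hcy.le]
    rfl
  have e2 : (y ^ 2 : ℝ) ^ ((m : ℝ) / 2 - 1) * y = y ^ (m - 1) := by
    rw [← Real.rpow_natCast y 2, ← Real.rpow_mul hy.le, ← Real.rpow_natCast y (m - 1)]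
    nth_rewrite 2 [← Real.rpow_one y]
    rw [← Real.rpow_add hy]
    congr 1
    rw [Nat.cast_sub hm]
    push_cast
    ring
  have e3 : (c + y ^ 2) ^ (-((m : ℝ) / 2 - 1)) =
      (c + y ^ 2) ^ (-((m : ℝ) / 2) - 1) * (c + y ^ 2) ^ 2 := by
    rw [← Real.rpow_natCast (c + y ^ 2) 2, ← Real.rpow_add hcy]
    congr 1
    push_cast
    ring
  rw [e1, e3, ← e2]
  field_simp
  ring

lemma cont_G (m : ℕ) (c : ℝ) (hc : 0 < c) :
    Continuous (fun y : ℝ => (1 / ((m : ℝ) * c)) * (y ^ 2 / (c + y ^ 2)) ^ ((m : ℝ) / 2)) := by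
  have h : Continuous (fun y : ℝ => y ^ 2 / (c + y ^ 2)) := by
    refine Continuous.div (by fun_prop) (by fun_prop) fun y => ?_
    positivity
  exact continuous_const.mul (h.rpow_const fun y => Or.inr (by positivity))

lemma tend_G (m : ℕ) (c : ℝ) (hc : 0 < c) :
    Tendsto (fun y : ℝ => (1 / ((m : ℝ) * c)) * (y ^ 2 / (c + y ^ 2)) ^ ((m : ℝ) / 2)) atTop
      (𝓝 (1 / ((m : ℝ) * c))) := by
  have h0 : Tendsto (fun y : ℝ => c + y ^ 2) atTop atTop :=
    tendsto_atTop_add_const_left _ _ (tendsto_pow_atTop (by norm_num))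
  have h1 : Tendsto (fun y : ℝ => 1 - c / (c + y ^ 2)) atTop (𝓝 (1 - 0)) :=
    tendsto_const_nhds.sub (h0.const_div_atTop c)
  have h2 : Tendsto (fun y : ℝ => y ^ 2 / (c + y ^ 2)) atTop (𝓝 1) := by
    rw [sub_zero] at h1
    refine h1.congr fun y => ?_
    have : c + y ^ 2 ≠ 0 := by positivity
    field_simp
    ring
  have h3 := (h2.rpow_const (p := (m : ℝ) / 2) (Or.inl one_ne_zero)).const_mul
    (1 / ((m : ℝ) * c))
  simpa using h3

lemma kap_eq (m : ℕ) (hm : 1 ≤ m) :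
    (volume : Measure (EE m)).real (Metric.ball 0 1) = kap m := by
  haveI : Nonempty (Fin m) := ⟨⟨0, hm⟩⟩
  unfold kap vl Bn Measure.real
  congr 1
  exact (Measure.addHaar_closedBall_eq_addHaar_ball (volume : Measure (EE m)) 0 1).symm

lemma kap_nonneg' (m : ℕ) : 0 ≤ kap m := ENNReal.toReal_nonneg

lemma part1 (m : ℕ) (hm : 1 ≤ m) (c : ℝ) (hc : 0 < c) :
    ∫⁻ y : EE m, ENNReal.ofReal ((c + ‖y‖ ^ 2) ^ (-((m : ℝ) / 2) - 1)) =
      ENNReal.ofReal (kap m / c) := by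
  haveI : Nonempty (Fin m) := ⟨⟨0, hm⟩⟩
  have hm0 : (0 : ℝ) < m := by exact_mod_cast hm
  have hfr : Module.finrank ℝ (EE m) = m := by simp
  have hint : IntegrableOn (fun y : ℝ => y ^ (m - 1) * (c + y ^ 2) ^ (-((m : ℝ) / 2) - 1))
      (Ioi 0) :=
    integrableOn_Ioi_deriv_of_nonneg (cont_G m c hc).continuousWithinAt
      (fun x hx => deriv_G m hm c hc x hx)
      (fun x hx => by
        have : (0 : ℝ) < x := hx
        positivity) (tend_G m c hc)
  have hval : ∫ y in Ioi (0 : ℝ), y ^ (m - 1) * (c + y ^ 2) ^ (-((m : ℝ) / 2) - 1) =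
      1 / ((m : ℝ) * c) := by
    rw [integral_Ioi_of_hasDerivAt_of_nonneg (cont_G m c hc).continuousWithinAt
      (fun x hx => deriv_G m hm c hc x hx)
      (fun x hx => by
        have : (0 : ℝ) < x := hx
        positivity) (tend_G m c hc)]
    have : ((0 : ℝ) ^ 2 / (c + 0 ^ 2)) ^ ((m : ℝ) / 2) = 0 := by
      rw [zero_pow two_ne_zero, zero_div, Real.zero_rpow (by positivity)]
    rw [this]
    ring
  have hI : Integrable (fun x : EE m => (fun r : ℝ => (c + r ^ 2) ^ (-((m : ℝ) / 2) - 1)) ‖x‖) := by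
    rw [integrable_fun_norm_addHaar (volume : Measure (EE m))
      (f := fun r : ℝ => (c + r ^ 2) ^ (-((m : ℝ) / 2) - 1)), hfr]
    simpa [smul_eq_mul] using hint
  have hV := integral_fun_norm_addHaar (volume : Measure (EE m))
    (fun r : ℝ => (c + r ^ 2) ^ (-((m : ℝ) / 2) - 1))
  rw [hfr] at hV
  simp only [smul_eq_mul] at hV
  rw [hval, kap_eq m hm] at hV
  rw [← ofReal_integral_eq_lintegral_ofReal hI (Eventually.of_forall fun x => by positivity), hV]
  congr 1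
  rw [nsmul_eq_mul]
  field_simp

lemma part1_zero (c : ℝ) (hc : 0 < c) :
    ∫⁻ y : EE 0, ENNReal.ofReal ((c + ‖y‖ ^ 2) ^ (-(((0 : ℕ) : ℝ) / 2) - 1)) =
      ENNReal.ofReal (kap 0 / c) := by
  have h1 : ∀ y : EE 0, y = 0 := fun y => Subsingleton.elim _ _
  have h2 : (Bn 0 : Set (EE 0)) = univ := by
    ext y
    simp [Bn, h1 y]
  have h3 : ∀ y : EE 0, ENNReal.ofReal ((c + ‖y‖ ^ 2) ^ (-(((0 : ℕ) : ℝ) / 2) - 1)) =
      ENNReal.ofReal (1 / c) := by
    intro y
    rw [h1 y]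
    congr 1
    simp [Real.rpow_neg_one]
  simp only [h3]
  rw [lintegral_const]
  have hfin : (volume : Measure (EE 0)) univ ≠ ∞ := by
    rw [← h2]
    exact (isCompact_closedBall (0 : EE 0) 1).measure_lt_top.ne
  unfold kap vl
  rw [h2, ← ENNReal.ofReal_toReal hfin, ← ENNReal.ofReal_mul (by positivity),
    ENNReal.toReal_ofReal ENNReal.toReal_nonneg]
  congr 1
  ring

lemma part2 (n : ℕ) (t : ℝ) (hn : 1 ≤ n) (ht : 0 ≤ t) :
    ∫⁻ x : EE n in {x | ‖x‖ ^ 2 ≤ t},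
        ENNReal.ofReal ((1 + ‖x‖ ^ 2) ^ (-((n : ℝ) / 2) - 1)) =
      ENNReal.ofReal (kap n * (t / (1 + t)) ^ ((n : ℝ) / 2)) := by
  haveI : Nonempty (Fin n) := ⟨⟨0, hn⟩⟩
  have hn0 : (0 : ℝ) < n := by exact_mod_cast hn
  have hfr : Module.finrank ℝ (EE n) = n := by simp
  set g : ℝ → ℝ := fun r => (1 + r ^ 2) ^ (-((n : ℝ) / 2) - 1) with hg
  set f : ℝ → ℝ := fun r => (Iic (√t)).indicator g r with hf
  have hset : MeasurableSet {x : EE n | ‖x‖ ^ 2 ≤ t} :=
    measurableSet_le (by fun_prop) measurable_const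
  have hmem : ∀ x : EE n, x ∈ {x : EE n | ‖x‖ ^ 2 ≤ t} ↔ ‖x‖ ∈ Iic (√t) := by
    intro x
    simp only [mem_setOf_eq, mem_Iic]
    exact (Real.le_sqrt (norm_nonneg x) ht).symm
  have hint0 : IntegrableOn (fun y : ℝ => y ^ (n - 1) * (1 + y ^ 2) ^ (-((n : ℝ) / 2) - 1))
      (Ioi 0) :=
    integrableOn_Ioi_deriv_of_nonneg (cont_G n 1 one_pos).continuousWithinAt
      (fun x hx => deriv_G n hn 1 one_pos x hx)
      (fun x hx => by
        have : (0 : ℝ) < x := hx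
        positivity) (tend_G n 1 one_pos)
  have hfeq : (fun y : ℝ => y ^ (n - 1) • f y) =
      (Iic (√t)).indicator (fun y : ℝ => y ^ (n - 1) * (1 + y ^ 2) ^ (-((n : ℝ) / 2) - 1)) := by
    funext y
    by_cases hy : y ∈ Iic (√t)
    · simp only [hf, indicator_of_mem hy, smul_eq_mul, hg]
    · simp only [hf, indicator_of_notMem hy, smul_zero]
  have hint : IntegrableOn (fun y : ℝ => y ^ (n - 1) • f y) (Ioi 0) := by
    rw [hfeq]
    exact hint0.indicator measurableSet_Iic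
  have hval : ∫ y in Ioi (0 : ℝ), y ^ (n - 1) • f y =
      1 / (n : ℝ) * (t / (1 + t)) ^ ((n : ℝ) / 2) := by
    rw [hfeq, setIntegral_indicator measurableSet_Iic, Ioi_inter_Iic,
      ← intervalIntegral.integral_of_le (Real.sqrt_nonneg t)]
    rw [intervalIntegral.integral_eq_sub_of_hasDerivAt_of_le (Real.sqrt_nonneg t)
      (cont_G n 1 one_pos).continuousOn
      (fun x hx => deriv_G n hn 1 one_pos x hx.1)]
    · have : ((0 : ℝ) ^ 2 / (1 + 0 ^ 2)) ^ ((n : ℝ) / 2) = 0 := by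
        rw [zero_pow two_ne_zero, zero_div, Real.zero_rpow (by positivity)]
      rw [this, Real.sq_sqrt ht]
      ring
    · rw [intervalIntegrable_iff_integrableOn_Ioc_of_le (Real.sqrt_nonneg t)]
      exact hint0.mono_set Ioc_subset_Ioi_self
  have hI : Integrable (fun x : EE n => f ‖x‖) := by
    rw [integrable_fun_norm_addHaar (volume : Measure (EE n)) (f := f), hfr]
    exact hint
  have hV := integral_fun_norm_addHaar (volume : Measure (EE n)) f
  rw [hfr, hval, kap_eq n hn] at hV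
  have hconv : ∫⁻ x : EE n in {x | ‖x‖ ^ 2 ≤ t},
        ENNReal.ofReal ((1 + ‖x‖ ^ 2) ^ (-((n : ℝ) / 2) - 1)) =
      ∫⁻ x : EE n, ENNReal.ofReal (f ‖x‖) := by
    rw [← lintegral_indicator hset]
    refine lintegral_congr fun x => ?_
    by_cases hx : x ∈ {x : EE n | ‖x‖ ^ 2 ≤ t}
    · rw [indicator_of_mem hx]
      simp only [hf, indicator_of_mem ((hmem x).1 hx), hg]
    · rw [indicator_of_notMem hx]
      have hx' : ‖x‖ ∉ Iic (√t) := fun h => hx ((hmem x).2 h)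
      simp only [hf, indicator_of_notMem hx', ENNReal.ofReal_zero]
  have hnn : ∀ x : EE n, 0 ≤ f ‖x‖ := fun x =>
    indicator_nonneg (fun r _ => by simp only [hg]; positivity) _
  rw [hconv, ← ofReal_integral_eq_lintegral_ofReal hI (Eventually.of_forall hnn), hV]
  congr 1
  rw [nsmul_eq_mul, smul_eq_mul]
  field_simp

end BAS_

open BAS_ in
theorem bas_proof : Stmt_BAS := by
  refine ⟨fun m c hc => ?_, fun n t hn ht => part2 n t hn ht⟩
  rcases Nat.eq_zero_or_pos m with h | h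
  · subst h
    exact part1_zero c hc
  · exact part1 m h c hc

end PPX
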