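import Pool.Agent.PPX.Stmts

/-! Squad PPX, module BQQ -/

set_option autoImplicit false

namespace PPX

open MeasureTheory Set Filter Topology
open PPI PPG

namespace BQQ_

theorem cs {ι : Type} (s : Finset ι) (p a : ι → ℝ) (hp : ∀ i ∈ s, 0 ≤ p i) :
    (∑ i ∈ s, p i * a i) ^ 2 ≤ (∑ i ∈ s, p i) * ∑ i ∈ s, p i * a i ^ 2 :=
  Finset.sum_sq_le_sum_mul_sum_of_sq_le_mul s hp
    (fun i hi => mul_nonneg (hp i hi) (sq_nonneg _)) (fun i _ => le_of_eq (by ring))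

end BQQ_

theorem bqq_proof : Stmt_BQQ := by
  intro n ι _ p w q b hn hIS hQ
  have hp : ∀ i, 0 ≤ p i := fun i => (hIS.ppos i).le
  have hn0 : (0 : ℝ) ≤ n := Nat.cast_nonneg n
  set β : ℝ := (n : ℝ) * ∑ i ∈ b, p i with hβ
  have hβ0 : 0 ≤ β := mul_nonneg hn0 (Finset.sum_nonneg fun i _ => hp i)
  set t : ι → ℝ := fun i => (n : ℝ) * ∑ j ∈ b, p j * (inner ℝ (w i) (w j)) ^ 2 with ht
  have ht2 : ∀ i, t i ^ 2 ≤ β * q := by
    intro i
    have h1 := BQQ_.cs b p (fun j => (inner ℝ (w i) (w j)) ^ 2) (fun j _ => hp j)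
    have h2 : (n : ℝ) * ∑ j ∈ b, p j * ((inner ℝ (w i) (w j)) ^ 2) ^ 2 ≤ q := by
      refine le_trans ?_ (hQ (w i) (hIS.nrm i))
      apply mul_le_mul_of_nonneg_left _ hn0
      calc ∑ j ∈ b, p j * ((inner ℝ (w i) (w j)) ^ 2) ^ 2
          ≤ ∑ j, p j * ((inner ℝ (w i) (w j)) ^ 2) ^ 2 :=
            Finset.sum_le_univ_sum_of_nonneg fun j => mul_nonneg (hp j) (sq_nonneg _)
        _ = ∑ j, p j * (inner ℝ (w j) (w i)) ^ 4 := by
            refine Finset.sum_congr rfl fun j _ => ?_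
            rw [real_inner_comm, ← pow_mul]
    calc t i ^ 2 = (n : ℝ) ^ 2 * (∑ j ∈ b, p j * (inner ℝ (w i) (w j)) ^ 2) ^ 2 := by
          rw [ht]; ring
      _ ≤ (n : ℝ) ^ 2 * ((∑ j ∈ b, p j) * ∑ j ∈ b, p j * ((inner ℝ (w i) (w j)) ^ 2) ^ 2) :=
          mul_le_mul_of_nonneg_left h1 (sq_nonneg _)
      _ = β * ((n : ℝ) * ∑ j ∈ b, p j * ((inner ℝ (w i) (w j)) ^ 2) ^ 2) := by
          rw [hβ]; ring
      _ ≤ β * q := mul_le_mul_of_nonneg_left h2 hβ0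
  have hB : B2 b p w = (n : ℝ) * ∑ i ∈ b, p i * t i := by
    rw [B2, ht, sq, mul_assoc, Finset.mul_sum]
    congr 1
    refine Finset.sum_congr rfl fun i _ => ?_
    simp only [Finset.mul_sum]
    refine Finset.sum_congr rfl fun j _ => ?_
    ring
  have h3 := BQQ_.cs b p t (fun j _ => hp j)
  have h4 : (n : ℝ) * ∑ i ∈ b, p i * t i ^ 2 ≤ β * (β * q) := by
    calc (n : ℝ) * ∑ i ∈ b, p i * t i ^ 2 ≤ (n : ℝ) * ∑ i ∈ b, p i * (β * q) := by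
          apply mul_le_mul_of_nonneg_left _ hn0
          exact Finset.sum_le_sum fun i _ => mul_le_mul_of_nonneg_left (ht2 i) (hp i)
      _ = β * (β * q) := by rw [← Finset.sum_mul, hβ]; ring
  calc B2 b p w ^ 2 = (n : ℝ) ^ 2 * (∑ i ∈ b, p i * t i) ^ 2 := by rw [hB]; ring
    _ ≤ (n : ℝ) ^ 2 * ((∑ i ∈ b, p i) * ∑ i ∈ b, p i * t i ^ 2) :=
        mul_le_mul_of_nonneg_left h3 (sq_nonneg _)
    _ = β * ((n : ℝ) * ∑ i ∈ b, p i * t i ^ 2) := by rw [hβ]; ring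
    _ ≤ β * (β * (β * q)) := mul_le_mul_of_nonneg_left h4 hβ0
    _ = β ^ 3 * q := by ring

end PPX
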