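import Pool.Agent.PPX.Stmts

/-!
# Squad PPX, module C1D
-/

set_option autoImplicit false

namespace PPX

open MeasureTheory Set Filter Topology
open PPI PPG

namespace C1D_

theorem kap_formula (n : ℕ) : kap n = √Real.pi ^ n / Real.Gamma ((n : ℝ) / 2 + 1) := by
  unfold kap vl Bn
  rcases Nat.eq_zero_or_pos n with h | h
  · subst h
    have h1 : Metric.closedBall (0 : EE 0) 1 = {0} := by
      ext x
      simp [Subsingleton.elim x 0]
    rw [h1, volume_euclideanSpace_eq_dirac]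
    simp
  · have : Nonempty (Fin n) := ⟨⟨0, h⟩⟩
    rw [EuclideanSpace.volume_closedBall]
    simp only [Fintype.card_fin, ENNReal.ofReal_one, one_pow, one_mul]
    rw [ENNReal.toReal_ofReal]
    positivity

theorem gam_lint (a r : ℝ) (ha : 0 < a) (hr : 0 < r) :
    ∫⁻ w in Ioi (0 : ℝ), ENNReal.ofReal (w ^ (a - 1) * Real.exp (-(r * w)))
      = ENNReal.ofReal ((1 / r) ^ a * Real.Gamma a) := by
  have h1 := Real.integral_rpow_mul_exp_neg_mul_Ioi ha hr
  have hpos : 0 < (1 / r) ^ a * Real.Gamma a := by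
    have := Real.Gamma_pos_of_pos ha
    positivity
  have hint : Integrable (fun w : ℝ => w ^ (a - 1) * Real.exp (-(r * w)))
      (volume.restrict (Ioi (0 : ℝ))) := by
    by_contra h
    rw [integral_undef h] at h1
    linarith
  rw [← h1, ofReal_integral_eq_lintegral_ofReal hint]
  refine (ae_restrict_iff' measurableSet_Ioi).2 (Eventually.of_forall fun w hw => ?_)
  have hw' : (0 : ℝ) < w := hw
  show 0 ≤ w ^ (a - 1) * Real.exp (-(r * w))
  positivity

theorem step (a : ℝ) (ha : 1 / 2 < a) :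
    ∫⁻ u : ℝ, ENNReal.ofReal ((1 + u ^ 2) ^ (-a))
      = ENNReal.ofReal (√Real.pi * Real.Gamma (a - 1 / 2) / Real.Gamma a) := by
  have hG : 0 < Real.Gamma a := Real.Gamma_pos_of_pos (by linarith)
  have h1 : ∀ u : ℝ, ENNReal.ofReal ((1 + u ^ 2) ^ (-a)) = ENNReal.ofReal (1 / Real.Gamma a) *
      ∫⁻ w in Ioi (0 : ℝ), ENNReal.ofReal (w ^ (a - 1) * Real.exp (-((1 + u ^ 2) * w))) := by
    intro u
    have hu : (0 : ℝ) < 1 + u ^ 2 := by positivity
    rw [gam_lint a (1 + u ^ 2) (by linarith) hu, ← ENNReal.ofReal_mul (by positivity)]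
    congr 1
    rw [one_div (1 + u ^ 2), Real.inv_rpow hu.le, Real.rpow_neg hu.le]
    field_simp
  simp only [h1]
  rw [lintegral_const_mul' _ _ ENNReal.ofReal_ne_top]
  rw [lintegral_lintegral_swap]
  · have h2 : ∀ w ∈ Ioi (0 : ℝ), ∫⁻ u : ℝ, ENNReal.ofReal (w ^ (a - 1) *
        Real.exp (-((1 + u ^ 2) * w))) = ENNReal.ofReal (√Real.pi) *
        ENNReal.ofReal (w ^ ((a - 1 / 2) - 1) * Real.exp (-(1 * w))) := by
      intro w hw
      have hw' : (0 : ℝ) < w := hw
      have h3 : ∀ u : ℝ, ENNReal.ofReal (w ^ (a - 1) * Real.exp (-((1 + u ^ 2) * w)))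
          = ENNReal.ofReal (w ^ (a - 1) * Real.exp (-w)) * ENNReal.ofReal (Real.exp (-w * u ^ 2)) := by
        intro u
        rw [← ENNReal.ofReal_mul (by positivity), mul_assoc, ← Real.exp_add]
        congr 3
        ring
      simp only [h3]
      rw [lintegral_const_mul' _ _ ENNReal.ofReal_ne_top,
        ← ofReal_integral_eq_lintegral_ofReal (integrable_exp_neg_mul_sq hw')
          (Eventually.of_forall fun u => (Real.exp_pos _).le), integral_gaussian,
        ← ENNReal.ofReal_mul (by positivity), ← ENNReal.ofReal_mul (by positivity)]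
      congr 1
      have e : w ^ (a - 1) = w ^ ((a - 1 / 2) - 1) * √w := by
        rw [Real.sqrt_eq_rpow, ← Real.rpow_add hw']
        congr 1
        ring
      have hs : 0 < √w := Real.sqrt_pos.2 hw'
      rw [e, Real.sqrt_div Real.pi_pos.le, one_mul]
      field_simp
    rw [setLIntegral_congr_fun measurableSet_Ioi h2, lintegral_const_mul' _ _ ENNReal.ofReal_ne_top,
      gam_lint (a - 1 / 2) 1 (by linarith) one_pos, ← ENNReal.ofReal_mul (Real.sqrt_nonneg _),
      ← ENNReal.ofReal_mul (by positivity)]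
    congr 1
    rw [one_div_one, Real.one_rpow]
    field_simp
  · refine Measurable.aemeasurable ?_
    fun_prop

end C1D_

theorem c1d_proof (_h : PPI.Stmt_AVE) : Stmt_C1D := by
  intro n hn
  have hn' : (1 : ℝ) ≤ (n : ℝ) := by exact_mod_cast hn
  have h1 := C1D_.step ((n : ℝ) / 2 + 1) (by linarith)
  have h2 : -((n : ℝ) / 2) - 1 = -((n : ℝ) / 2 + 1) := by ring
  rw [h2, h1]
  congr 1
  obtain ⟨m, rfl⟩ : ∃ m, n = m + 1 := ⟨n - 1, by omega⟩
  rw [C1D_.kap_formula, C1D_.kap_formula, Nat.add_sub_cancel, pow_succ]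
  have h3 : (((m + 1 : ℕ) : ℝ) / 2 + 1 - 1 / 2) = (m : ℝ) / 2 + 1 := by
    push_cast; ring
  rw [h3]
  have h4 : 0 < Real.Gamma ((m : ℝ) / 2 + 1) := Real.Gamma_pos_of_pos (by positivity)
  have h5 : 0 < Real.Gamma (((m + 1 : ℕ) : ℝ) / 2 + 1) := Real.Gamma_pos_of_pos (by positivity)
  have h6 : 0 < √Real.pi := Real.sqrt_pos.2 Real.pi_pos
  field_simp

end PPX
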