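import Pool.Agent.PPX.Stmts

set_option autoImplicit false

namespace PPX

open MeasureTheory Set Filter Topology
open PPI PPG
open scoped Pointwise ENNReal

namespace CEN_

/-- the centres of the balls of radius `ε` in `K` -/
def cc {n : ℕ} (K : Set (EE n)) (ε : ℝ) : Set (EE n) := {x | Metric.closedBall x ε ⊆ K}

theorem cc_eq {n : ℕ} (K : Set (EE n)) (ε : ℝ) :
    cc K ε = ⋂ y ∈ Metric.closedBall (0 : EE n) ε, (fun x => x + y) ⁻¹' K := by
  ext x
  simp only [cc, mem_ofPred_eq, mem_iInter, mem_preimage]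
  constructor
  · intro h y hy
    apply h
    rw [mem_closedBall_zero_iff] at hy
    rw [Metric.mem_closedBall, dist_eq_norm, add_sub_cancel_left]
    exact hy
  · intro h y hy
    have h1 := h (y - x) (by
      rw [mem_closedBall_zero_iff, ← dist_eq_norm]
      exact hy)
    rwa [add_sub_cancel] at h1

theorem cc_closed {n : ℕ} (K : Set (EE n)) (ε : ℝ) (hK : IsClosed K) : IsClosed (cc K ε) := by
  rw [cc_eq]
  refine isClosed_biInter fun y _ => ?_
  exact hK.preimage (by fun_prop)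

theorem cc_convex {n : ℕ} (K : Set (EE n)) (ε : ℝ) (hK : Convex ℝ K) : Convex ℝ (cc K ε) := by
  rw [cc_eq]
  refine convex_iInter₂ fun y _ => ?_
  have h := hK.translate_preimage_left y
  simpa [add_comm] using h

theorem cc_sub {n : ℕ} (K : Set (EE n)) (ε : ℝ) (h0 : 0 < ε) : cc K ε ⊆ K :=
  fun _ hx => hx (Metric.mem_closedBall_self h0.le)

theorem cc_inv {n : ℕ} (K : Set (EE n)) (ε : ℝ) (g : EE n ≃ₗᵢ[ℝ] EE n) (hg : g ∈ GK K)
    (x : EE n) (hx : x ∈ cc K ε) : g x ∈ cc K ε := by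
  have h1 : g '' Metric.closedBall x ε = Metric.closedBall (g x) ε := g.image_closedBall x ε
  have h2 : g '' K = K := hg
  show Metric.closedBall (g x) ε ⊆ K
  rw [← h1, ← h2]
  exact image_mono hx

end CEN_

theorem cen_proof : Stmt_CEN := by
  intro n K hn hconv hcomp hint hirr
  obtain ⟨x0, hx0⟩ := hint
  obtain ⟨ε, hε, hball⟩ := Metric.nhds_basis_closedBall.mem_iff.1 (mem_interior_iff_mem_nhds.1 hx0)
  have hne : (CEN_.cc K ε).Nonempty := ⟨x0, hball⟩
  have hcc : IsCompact (CEN_.cc K ε) :=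
    hcomp.of_isClosed_subset (CEN_.cc_closed K ε hcomp.isClosed) (CEN_.cc_sub K ε hε)
  obtain ⟨z, hz, hmin⟩ := hcc.exists_isMinOn hne continuous_norm.continuousOn
  have hfix : ∀ g ∈ GK K, g z = z := by
    intro g hg
    have h1 := CEN_.cc_inv K ε g hg z hz
    have h2 : (1 / 2 : ℝ) • z + (1 / 2 : ℝ) • g z ∈ CEN_.cc K ε :=
      CEN_.cc_convex K ε hconv hz h1 (by norm_num) (by norm_num) (by norm_num)
    have h3 : ‖z‖ ≤ ‖(1 / 2 : ℝ) • z + (1 / 2 : ℝ) • g z‖ := hmin h2
    have h4 : ‖(1 / 2 : ℝ) • z + (1 / 2 : ℝ) • g z‖ = 1 / 2 * ‖z + g z‖ := by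
      rw [← smul_add, norm_smul]
      norm_num
    rw [h4] at h3
    have h5 := parallelogram_law_with_norm ℝ z (g z)
    rw [LinearIsometryEquiv.norm_map] at h5
    have h6 : ‖z - g z‖ * ‖z - g z‖ ≤ 0 := by
      nlinarith [norm_nonneg z, norm_nonneg (z + g z)]
    have h7 : ‖z - g z‖ = 0 := by
      have := mul_self_nonneg ‖z - g z‖
      exact mul_self_eq_zero.1 (le_antisymm h6 this)
    rw [norm_eq_zero, sub_eq_zero] at h7
    exact h7.symm
  have hV := hirr (ℝ ∙ z) (by
    intro g hg x hx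
    rw [Submodule.mem_span_singleton] at hx ⊢
    obtain ⟨a, rfl⟩ := hx
    exact ⟨a, by rw [map_smul, hfix g hg]⟩)
  have hz0 : z = 0 := by
    rcases hV with h | h
    · exact (Submodule.span_singleton_eq_bot).1 h
    · exfalso
      have h1 : Module.finrank ℝ (ℝ ∙ z) ≤ 1 := by
        have h2 := finrank_span_le_card (R := ℝ) ({z} : Set (EE n))
        simpa using h2
      rw [h, finrank_top, finrank_euclideanSpace_fin] at h1
      omega
  rw [hz0] at hz
  rw [mem_interior_iff_mem_nhds]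
  exact Filter.mem_of_superset (Metric.closedBall_mem_nhds 0 hε) hz

end PPX
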