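import Pool.Agent.PPX.Stmts

/-!
# Squad PPX, module CLU: vectors in clusters carry little mass
-/

set_option autoImplicit false

namespace PPX

open MeasureTheory Set Filter Topology
open PPI PPG
open scoped Pointwise ENNReal

namespace CLU_

/-- a maximal subfamily with disjoint neighbourhoods -/
theorem max_fam {ι : Type} [Fintype ι] [DecidableEq ι] (S : Finset ι) (N : ι → Finset ι)
    (hN : ∀ i ∈ S, (N i).Nonempty) :
    ∃ T : Finset ι, T ⊆ S ∧ (∀ a ∈ T, ∀ b ∈ T, a ≠ b → Disjoint (N a) (N b)) ∧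
      ∀ i ∈ S, ∃ a ∈ T, ¬ Disjoint (N i) (N a) := by
  classical
  obtain ⟨T, hT, hmax⟩ := Finset.exists_max_image
    (S.powerset.filter fun T => ∀ a ∈ T, ∀ b ∈ T, a ≠ b → Disjoint (N a) (N b)) Finset.card
    ⟨∅, by simp⟩
  rw [Finset.mem_filter, Finset.mem_powerset] at hT
  refine ⟨T, hT.1, hT.2, ?_⟩
  intro i hi
  by_contra hcon
  push Not at hcon
  by_cases hiT : i ∈ T
  · have h1 := hcon i hiT
    rw [disjoint_self] at h1
    have h2 := hN i hi
    rw [h1] at h2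
    exact Finset.not_nonempty_empty h2
  · have h1 := hmax (insert i T) (by
      rw [Finset.mem_filter, Finset.mem_powerset]
      refine ⟨Finset.insert_subset hi hT.1, ?_⟩
      intro a ha b hb hab
      rw [Finset.mem_insert] at ha hb
      rcases ha with ha | ha
      · rcases hb with hb | hb
        · exact absurd (ha.trans hb.symm) hab
        · rw [ha]; exact hcon b hb
      · rcases hb with hb | hb
        · rw [hb]; exact (hcon a ha).symm
        · exact hT.2 a ha b hb hab)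
    rw [Finset.card_insert_of_notMem hiT] at h1
    omega

theorem norm_sub_proj {n : ℕ} (u v : EE n) (hu : ‖u‖ = 1) (hv : ‖v‖ = 1) :
    ‖u - (inner ℝ u v : ℝ) • v‖ ^ 2 = 1 - (inner ℝ u v) ^ 2 := by
  rw [@norm_sub_sq_real, inner_smul_right, norm_smul, hu, hv, Real.norm_eq_abs, mul_one, sq_abs]
  ring

theorem close_of_common {n : ℕ} (wi wa u x : EE n) (θ h : ℝ) (hwi : ‖wi‖ = 1) (hwa : ‖wa‖ = 1)
    (hu : ‖u‖ = 1) (hx : ‖x‖ ≤ 1) (hθ : 0 ≤ θ) (h1 : 1 - (inner ℝ wi u) ^ 2 ≤ θ ^ 2)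
    (h2 : 1 - (inner ℝ wa u) ^ 2 ≤ θ ^ 2) (hh : |inner ℝ x wa| ≤ h) :
    inner ℝ wi x ≤ h + 2 * θ := by
  have e1 : ‖wi - (inner ℝ wi u : ℝ) • u‖ ≤ θ := by
    have := norm_sub_proj wi u hwi hu
    have h3 : ‖wi - (inner ℝ wi u : ℝ) • u‖ ^ 2 ≤ θ ^ 2 := by rw [this]; exact h1
    exact abs_le_of_sq_le_sq' h3 hθ |>.2
  have e2 : ‖u - (inner ℝ u wa : ℝ) • wa‖ ≤ θ := by
    have := norm_sub_proj u wa hu hwa
    have h3 : ‖u - (inner ℝ u wa : ℝ) • wa‖ ^ 2 ≤ θ ^ 2 := by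
      rw [this, real_inner_comm]; exact h2
    exact abs_le_of_sq_le_sq' h3 hθ |>.2
  have a1 : |inner ℝ wi u| ≤ 1 := by
    have := abs_real_inner_le_norm wi u
    rwa [hwi, hu, one_mul] at this
  have a2 : |inner ℝ u wa| ≤ 1 := by
    have := abs_real_inner_le_norm u wa
    rwa [hwa, hu, one_mul] at this
  have f1 : |inner ℝ x (wi - (inner ℝ wi u : ℝ) • u)| ≤ θ := by
    refine (abs_real_inner_le_norm _ _).trans ?_
    calc ‖x‖ * ‖wi - (inner ℝ wi u : ℝ) • u‖ ≤ 1 * θ := by gcongr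
      _ = θ := one_mul _
  have f2 : |inner ℝ x (u - (inner ℝ u wa : ℝ) • wa)| ≤ θ := by
    refine (abs_real_inner_le_norm _ _).trans ?_
    calc ‖x‖ * ‖u - (inner ℝ u wa : ℝ) • wa‖ ≤ 1 * θ := by gcongr
      _ = θ := one_mul _
  have key : inner ℝ wi x = inner ℝ x (wi - (inner ℝ wi u : ℝ) • u) +
      inner ℝ wi u * (inner ℝ x (u - (inner ℝ u wa : ℝ) • wa) +
        inner ℝ u wa * inner ℝ x wa) := by
    rw [inner_sub_right, inner_sub_right, inner_smul_right, inner_smul_right,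
      real_inner_comm wi x]
    ring
  rw [key]
  have hh0 : 0 ≤ h := (abs_nonneg _).trans hh
  have g1 : |inner ℝ u wa * inner ℝ x wa| ≤ h := by
    rw [abs_mul]
    calc |inner ℝ u wa| * |inner ℝ x wa| ≤ 1 * h := by gcongr
      _ = h := one_mul _
  have g2 : |inner ℝ wi u * (inner ℝ x (u - (inner ℝ u wa : ℝ) • wa) +
        inner ℝ u wa * inner ℝ x wa)| ≤ θ + h := by
    rw [abs_mul]
    have g3 : |inner ℝ x (u - (inner ℝ u wa : ℝ) • wa) + inner ℝ u wa * inner ℝ x wa| ≤ θ + h :=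
      (abs_add_le _ _).trans (add_le_add f2 g1)
    calc _ ≤ 1 * (θ + h) := by gcongr
      _ = θ + h := one_mul _
  have g4 := le_abs_self (inner ℝ wi u * (inner ℝ x (u - (inner ℝ u wa : ℝ) • wa) +
        inner ℝ u wa * inner ℝ x wa))
  have g5 := le_abs_self (inner ℝ x (wi - (inner ℝ wi u : ℝ) • u))
  linarith

/-- the test body -/
def MM {n : ℕ} {ι : Type} (w : ι → EE n) (T : Finset ι) (h : ℝ) : Set (EE n) :=
  {x | x ∈ Bn n ∧ ∀ a ∈ T, |inner ℝ x (w a)| ≤ h}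

theorem MM_closed {n : ℕ} {ι : Type} (w : ι → EE n) (T : Finset ι) (h : ℝ) :
    IsClosed {x : EE n | ∀ a ∈ T, |inner ℝ x (w a)| ≤ h} := by
  have : {x : EE n | ∀ a ∈ T, |inner ℝ x (w a)| ≤ h} =
      ⋂ a ∈ T, {x : EE n | |inner ℝ x (w a)| ≤ h} := by
    ext x; simp
  rw [this]
  refine isClosed_biInter fun a _ => ?_
  exact isClosed_le (by fun_prop) continuous_const

theorem MM_compact {n : ℕ} {ι : Type} (w : ι → EE n) (T : Finset ι) (h : ℝ) :
    IsCompact (MM w T h) := by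
  have : MM w T h = Bn n ∩ {x : EE n | ∀ a ∈ T, |inner ℝ x (w a)| ≤ h} := rfl
  rw [this]
  exact (isCompact_closedBall _ _).inter_right (MM_closed w T h)

theorem MM_convex {n : ℕ} {ι : Type} (w : ι → EE n) (T : Finset ι) (h : ℝ) :
    Convex ℝ (MM w T h) := by
  intro x hx y hy s t hs ht hst
  refine ⟨(convex_closedBall (0 : EE n) 1) hx.1 hy.1 hs ht hst, ?_⟩
  intro a ha
  rw [inner_add_left, inner_smul_left, inner_smul_left]
  simp only [conj_trivial]
  calc |s * inner ℝ x (w a) + t * inner ℝ y (w a)|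
      ≤ |s * inner ℝ x (w a)| + |t * inner ℝ y (w a)| := abs_add_le _ _
    _ = s * |inner ℝ x (w a)| + t * |inner ℝ y (w a)| := by
        rw [abs_mul, abs_mul, abs_of_nonneg hs, abs_of_nonneg ht]
    _ ≤ s * h + t * h := by
        have := hx.2 a ha
        have := hy.2 a ha
        gcongr
    _ = h := by rw [← add_mul, hst, one_mul]

theorem MM_zero {n : ℕ} {ι : Type} (w : ι → EE n) (T : Finset ι) (h : ℝ) (hh : 0 ≤ h) :
    (0 : EE n) ∈ MM w T h := by
  refine ⟨?_, ?_⟩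
  · simp [Bn]
  · intro a _
    simpa using hh

theorem Bn_fin (n : ℕ) : volume (Bn n) ≠ ⊤ := by
  unfold Bn
  exact (isCompact_closedBall (0 : EE n) 1).measure_lt_top.ne

theorem MM_vol {n : ℕ} {ι : Type} (hcap : PPF.Stmt_CAP) (w : ι → EE n) (T : Finset ι) (h : ℝ)
    (hn : 1 ≤ n) (hw : ∀ a, ‖w a‖ = 1) (h0 : 0 ≤ h) (h1 : h ≤ 1) :
    kap n ≤ vl (MM w T h) + T.card * (2 * (√(1 - h ^ 2) ^ n * kap n)) := by
  classical
  let C1 : ι → Set (EE n) := fun a => {x : EE n | x ∈ Bn n ∧ h ≤ inner ℝ x (w a)}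
  let C2 : ι → Set (EE n) := fun a => {x : EE n | x ∈ Bn n ∧ h ≤ inner ℝ x (-(w a))}
  have hsub : Bn n ⊆ MM w T h ∪ ⋃ a ∈ T, (C1 a ∪ C2 a) := by
    intro x hx
    by_cases hM : ∀ a ∈ T, |inner ℝ x (w a)| ≤ h
    · exact Or.inl ⟨hx, hM⟩
    · push Not at hM
      obtain ⟨a, ha, hlt⟩ := hM
      right
      rw [mem_iUnion₂]
      refine ⟨a, ha, ?_⟩
      rcases le_or_gt 0 (inner ℝ x (w a) : ℝ) with hs | hs
      · left
        refine ⟨hx, ?_⟩
        rw [abs_of_nonneg hs] at hlt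
        exact hlt.le
      · right
        refine ⟨hx, ?_⟩
        rw [abs_of_neg hs] at hlt
        rw [inner_neg_right]
        exact hlt.le
  have hC1 : ∀ a, volume (C1 a) ≠ ⊤ := fun a =>
    ne_top_of_le_ne_top (Bn_fin n) (measure_mono fun x hx => hx.1)
  have hC2 : ∀ a, volume (C2 a) ≠ ⊤ := fun a =>
    ne_top_of_le_ne_top (Bn_fin n) (measure_mono fun x hx => hx.1)
  have hMf : volume (MM w T h) ≠ ⊤ :=
    ne_top_of_le_ne_top (Bn_fin n) (measure_mono fun x hx => hx.1)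
  have hle : volume (Bn n) ≤ volume (MM w T h) + ∑ a ∈ T, (volume (C1 a) + volume (C2 a)) := by
    refine (measure_mono hsub).trans ((measure_union_le _ _).trans ?_)
    gcongr
    refine (measure_biUnion_finset_le _ _).trans ?_
    exact Finset.sum_le_sum fun a _ => measure_union_le _ _
  have hsf : ∑ a ∈ T, (volume (C1 a) + volume (C2 a)) ≠ ⊤ := by
    refine (ENNReal.sum_lt_top.2 fun a _ => ?_).ne
    exact ENNReal.add_lt_top.2 ⟨(hC1 a).lt_top, (hC2 a).lt_top⟩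
  have hr := ENNReal.toReal_mono (ENNReal.add_ne_top.2 ⟨hMf, hsf⟩) hle
  rw [ENNReal.toReal_add hMf hsf, ENNReal.toReal_sum (fun a _ =>
    ENNReal.add_ne_top.2 ⟨hC1 a, hC2 a⟩)] at hr
  have hb : ∀ a ∈ T, (volume (C1 a) + volume (C2 a)).toReal ≤ 2 * (√(1 - h ^ 2) ^ n * kap n) := by
    intro a _
    rw [ENNReal.toReal_add (hC1 a) (hC2 a)]
    have c1 := hcap n (w a) h hn (hw a) h0 h1
    have c2 := hcap n (-(w a)) h hn (by rw [norm_neg]; exact hw a) h0 h1
    have d1 : (volume (C1 a)).toReal ≤ √(1 - h ^ 2) ^ n * kap n := c1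
    have d2 : (volume (C2 a)).toReal ≤ √(1 - h ^ 2) ^ n * kap n := c2
    linarith
  have hs := Finset.sum_le_sum hb
  rw [Finset.sum_const, nsmul_eq_mul] at hs
  have e2 : vl (MM w T h) = (volume (MM w T h)).toReal := rfl
  rw [e2]
  have hr' : kap n ≤ (volume (MM w T h)).toReal +
      ∑ a ∈ T, (volume (C1 a) + volume (C2 a)).toReal := hr
  linarith

/-- the asymptotic estimate -/
theorem asym (A B : ℕ) : ∃ n₀ : ℕ, ∀ n : ℕ, n₀ ≤ n →
    4 * ((n : ℝ) ^ (A : ℝ) * Real.exp (-((n : ℝ) ^ (1 / 3 : ℝ) / 2))) ≤ (n : ℝ) ^ (-(B : ℝ)) := by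
  have t1 : Tendsto (fun x : ℝ => x ^ (3 * (A + B)) * Real.exp (-x)) atTop (𝓝 0) :=
    Real.tendsto_pow_mul_exp_neg_atTop_nhds_zero _
  have t2 : Tendsto (fun n : ℕ => (n : ℝ) ^ (1 / 3 : ℝ) / 2) atTop atTop := by
    refine Tendsto.atTop_div_const (by norm_num) ?_
    exact (tendsto_rpow_atTop (by norm_num)).comp tendsto_natCast_atTop_atTop
  have t3 := t1.comp t2
  have t4 : ∀ᶠ n : ℕ in atTop, ((n : ℝ) ^ (1 / 3 : ℝ) / 2) ^ (3 * (A + B)) *
      Real.exp (-((n : ℝ) ^ (1 / 3 : ℝ) / 2)) < 1 / (4 * 8 ^ (A + B)) := by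
    have := t3.eventually (gt_mem_nhds (show (0 : ℝ) < 1 / (4 * 8 ^ (A + B)) by positivity))
    filter_upwards [this] with n hn
    exact hn
  obtain ⟨n₁, hn₁⟩ := eventually_atTop.1 t4
  refine ⟨max n₁ 1, ?_⟩
  intro n hn
  have h1 := hn₁ n (le_trans (le_max_left _ _) hn)
  have hn1 : 1 ≤ n := le_trans (le_max_right _ _) hn
  have hnp : (0 : ℝ) < n := by exact_mod_cast hn1
  have hpow : ((n : ℝ) ^ (1 / 3 : ℝ)) ^ 3 = n := by
    rw [← Real.rpow_natCast, ← Real.rpow_mul hnp.le]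
    norm_num
  have h2 : ((n : ℝ) ^ (1 / 3 : ℝ) / 2) ^ (3 * (A + B)) = (n : ℝ) ^ (A + B) / 8 ^ (A + B) := by
    rw [pow_mul, div_pow, hpow, div_pow]
    norm_num
  rw [h2] at h1
  set E := Real.exp (-((n : ℝ) ^ (1 / 3 : ℝ) / 2)) with hE
  have hEpos : 0 < E := Real.exp_pos _
  have h3 : (n : ℝ) ^ (A + B) * E * 4 < 1 := by
    have h8 : (0 : ℝ) < 8 ^ (A + B) := by positivity
    rw [lt_div_iff₀ (by positivity)] at h1
    calc (n : ℝ) ^ (A + B) * E * 4 = (n : ℝ) ^ (A + B) / 8 ^ (A + B) * E * (4 * 8 ^ (A + B)) := by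
          field_simp
      _ < 1 := h1
  rw [Real.rpow_neg hnp.le, Real.rpow_natCast, Real.rpow_natCast]
  rw [le_inv_comm₀ (by positivity) (by positivity)]
  rw [← one_div, le_div_iff₀ (by positivity)]
  rw [pow_add] at h3
  nlinarith [h3]

end CLU_

open CLU_ in
theorem clu_proof (hcap : PPF.Stmt_CAP) (have_ : PPI.Stmt_AVE) : Stmt_CLU := by
  classical
  intro A B
  obtain ⟨n₁, hn₁⟩ := asym A B
  refine ⟨max n₁ 1, ?_⟩
  intro n ι _ p w D θ S hn hIS hMI hθ0 hθ1 hS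
  have hna := hn₁ n (le_trans (le_max_left _ _) hn)
  have hn1 : 1 ≤ n := le_trans (le_max_right _ _) hn
  have hnp : (0 : ℝ) < n := by exact_mod_cast hn1
  have hn1r : (1 : ℝ) ≤ n := by exact_mod_cast hn1
  have hkap : 0 < kap n := (have_ n hn1).1
  have hpS0 : 0 ≤ ∑ i ∈ S, p i := Finset.sum_nonneg fun i _ => (hIS.ppos i).le
  have hB0 : 0 < (n : ℝ) ^ (-(B : ℝ)) := Real.rpow_pos_of_pos hnp _
  -- `D ≥ 0`
  have hD : 0 ≤ D := by
    have h1 := (hMI (Bn n) (fun _ => 1) (isCompact_closedBall _ _) (convex_closedBall _ _)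
      ⟨0, by simp [Bn]⟩ (by
        intro i x hx
        have hx1 : ‖x‖ ≤ 1 := by simpa [Bn] using hx
        have := real_inner_le_norm (w i) x
        rw [hIS.nrm i, one_mul] at this
        exact this.trans hx1)).2
    simp only [mul_one] at h1
    rw [hIS.psum, one_pow, mul_one] at h1
    have h2 : kap n * 1 ≤ kap n * Real.exp D := by rw [mul_one]; exact h1
    have h3 := le_of_mul_le_mul_left h2 hkap
    exact Real.one_le_exp_iff.1 h3 |> fun h => h
  set h : ℝ := (n : ℝ) ^ (-(1 / 3 : ℝ)) with hh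
  have hh0 : 0 < h := Real.rpow_pos_of_pos hnp _
  have hh1 : h ≤ 1 := Real.rpow_le_one_of_one_le_of_nonpos hn1r (by norm_num)
  by_cases hc : 1 - 2 * θ - h ≤ 0
  · have h1 : (n : ℝ) * (∑ i ∈ S, p i) * (1 - 2 * θ - h) ≤ 0 :=
      mul_nonpos_of_nonneg_of_nonpos (mul_nonneg hnp.le hpS0) hc
    linarith
  push Not at hc
  let N : ι → Finset ι := fun i => Finset.univ.filter fun j => 1 - (inner ℝ (w i) (w j)) ^ 2 ≤ θ ^ 2
  have hnm : ∀ i, nm θ p w i = ∑ j ∈ N i, p j := by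
    intro i
    unfold nm
    rw [Finset.sum_filter]
  have hAp : 0 < (n : ℝ) ^ (-(A : ℝ)) := Real.rpow_pos_of_pos hnp _
  have hNne : ∀ i ∈ S, (N i).Nonempty := by
    intro i hi
    by_contra hcon
    rw [Finset.not_nonempty_iff_eq_empty] at hcon
    have h1 := hS i hi
    rw [hnm, hcon, Finset.sum_empty] at h1
    linarith
  obtain ⟨T, hTS, hTd, hTm⟩ := max_fam S N hNne
  -- the number of elements of `T`
  have hcard : (T.card : ℝ) ≤ (n : ℝ) ^ (A : ℝ) := by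
    have h1 : ∑ i ∈ T, (n : ℝ) ^ (-(A : ℝ)) ≤ ∑ i ∈ T, ∑ j ∈ N i, p j :=
      Finset.sum_le_sum fun i hi => by rw [← hnm]; exact hS i (hTS hi)
    rw [← Finset.sum_biUnion (fun a ha b hb hab => hTd a ha b hb hab)] at h1
    have h2 : ∑ j ∈ T.biUnion N, p j ≤ ∑ j, p j :=
      Finset.sum_le_sum_of_subset_of_nonneg (Finset.subset_univ _) fun j _ _ => (hIS.ppos j).le
    rw [hIS.psum] at h2
    rw [Finset.sum_const, nsmul_eq_mul, Real.rpow_neg hnp.le] at h1
    have h3 : 0 < (n : ℝ) ^ (A : ℝ) := Real.rpow_pos_of_pos hnp _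
    have h4 : (T.card : ℝ) * ((n : ℝ) ^ (A : ℝ))⁻¹ ≤ 1 := h1.trans h2
    rwa [← div_eq_mul_inv, div_le_one h3] at h4
  -- the volume of the test body
  have hvol := MM_vol hcap w T h hn1 hIS.nrm hh0.le hh1
  have hsq : √(1 - h ^ 2) ^ n ≤ Real.exp (-((n : ℝ) ^ (1 / 3 : ℝ) / 2)) := by
    have h1 : √(1 - h ^ 2) ≤ Real.exp (-(h ^ 2 / 2)) := by
      rw [Real.sqrt_le_left (Real.exp_pos _).le, ← Real.exp_nat_mul]
      have := Real.add_one_le_exp (-(h ^ 2))
      have e : ((2 : ℕ) : ℝ) * (-(h ^ 2 / 2)) = -(h ^ 2) := by push_cast; ring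
      rw [e]
      linarith
    calc √(1 - h ^ 2) ^ n ≤ Real.exp (-(h ^ 2 / 2)) ^ n := by gcongr
      _ = Real.exp (-((n : ℝ) ^ (1 / 3 : ℝ) / 2)) := by
          rw [← Real.exp_nat_mul]
          congr 1
          have : (n : ℝ) * h ^ 2 = (n : ℝ) ^ (1 / 3 : ℝ) := by
            rw [hh, ← Real.rpow_natCast, ← Real.rpow_mul hnp.le]
            nth_rewrite 1 [← Real.rpow_one (n : ℝ)]
            rw [← Real.rpow_add hnp]
            norm_num
          rw [← this]; ring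
  set E := Real.exp (-((n : ℝ) ^ (1 / 3 : ℝ) / 2)) with hE
  have hEpos : 0 < E := Real.exp_pos _
  set δ : ℝ := 2 * ((n : ℝ) ^ (A : ℝ) * E) with hδ
  have hδ0 : 0 < δ := by
    have : 0 < (n : ℝ) ^ (A : ℝ) := Real.rpow_pos_of_pos hnp _
    positivity
  have hδB : 2 * δ ≤ (n : ℝ) ^ (-(B : ℝ)) := by
    rw [hδ]; linarith
  have hB1 : (n : ℝ) ^ (-(B : ℝ)) ≤ 1 :=
    Real.rpow_le_one_of_one_le_of_nonpos hn1r (by
      have : (0 : ℝ) ≤ B := Nat.cast_nonneg B
      linarith)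
  have hδ1 : δ ≤ 1 / 2 := by linarith
  have hvol2 : kap n * (1 - δ) ≤ vl (MM w T h) := by
    have h1 : (T.card : ℝ) * (2 * (√(1 - h ^ 2) ^ n * kap n)) ≤
        (n : ℝ) ^ (A : ℝ) * (2 * (E * kap n)) := by
      gcongr
    have h2 : (n : ℝ) ^ (A : ℝ) * (2 * (E * kap n)) = kap n * δ := by rw [hδ]; ring
    rw [h2] at h1
    linarith
  -- Minkowski
  have hMI2 := hMI (MM w T h) (fun i => if i ∈ S then h + 2 * θ else 1) (MM_compact w T h)
    (MM_convex w T h) ⟨0, MM_zero w T h hh0.le⟩ (by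
      intro i x hx
      have hx1 : ‖x‖ ≤ 1 := by simpa [Bn] using hx.1
      by_cases hi : i ∈ S
      · rw [if_pos hi]
        obtain ⟨a, ha, hd⟩ := hTm i hi
        rw [Finset.not_disjoint_iff] at hd
        obtain ⟨j, hj1, hj2⟩ := hd
        rw [Finset.mem_filter] at hj1 hj2
        exact close_of_common (w i) (w a) (w j) x θ h (hIS.nrm i) (hIS.nrm a) (hIS.nrm j) hx1 hθ0
          hj1.2 hj2.2 (hx.2 a ha)
      · rw [if_neg hi]
        have := real_inner_le_norm (w i) x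
        rw [hIS.nrm i, one_mul] at this
        exact this.trans hx1)
  have hsum : ∑ i, p i * (if i ∈ S then h + 2 * θ else 1) =
      1 - (∑ i ∈ S, p i) * (1 - 2 * θ - h) := by
    have h1 : ∀ i, p i * (if i ∈ S then h + 2 * θ else 1) =
        p i - (if i ∈ S then p i else 0) * (1 - 2 * θ - h) := by
      intro i
      by_cases hi : i ∈ S
      · rw [if_pos hi, if_pos hi]; ring
      · rw [if_neg hi, if_neg hi]; ring
    rw [Finset.sum_congr rfl fun i _ => h1 i, Finset.sum_sub_distrib, hIS.psum, ← Finset.sum_mul,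
      Finset.sum_ite_mem, Finset.univ_inter]
  rw [hsum] at hMI2
  set P := ∑ i ∈ S, p i with hP
  set X := P * (1 - 2 * θ - h) with hX
  have hb : (1 - X) ^ n ≤ Real.exp (-((n : ℝ) * X)) := by
    have h1 : 1 - X ≤ Real.exp (-X) := by
      have := Real.add_one_le_exp (-X)
      linarith
    calc (1 - X) ^ n ≤ Real.exp (-X) ^ n := pow_le_pow_left₀ hMI2.1 h1 n
      _ = Real.exp (-((n : ℝ) * X)) := by
          rw [← Real.exp_nat_mul]
          congr 1
          ring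
  have hfin : 1 - δ ≤ Real.exp (D - n * X) := by
    have h1 : kap n * (1 - δ) ≤ kap n * Real.exp (D - n * X) := by
      calc kap n * (1 - δ) ≤ vl (MM w T h) := hvol2
        _ ≤ kap n * Real.exp D * (1 - X) ^ n := hMI2.2
        _ ≤ kap n * Real.exp D * Real.exp (-((n : ℝ) * X)) := by
            have : 0 ≤ kap n * Real.exp D := by positivity
            gcongr
        _ = kap n * Real.exp (D - n * X) := by
            rw [mul_assoc, ← Real.exp_add]
            congr 2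
    exact le_of_mul_le_mul_left h1 hkap
  have hlog : Real.log (1 - δ) ≤ D - n * X := by
    rw [Real.log_le_iff_le_exp (by linarith)]
    exact hfin
  have hlog2 : -(2 * δ) ≤ Real.log (1 - δ) := by
    have h1 := Real.one_sub_inv_le_log_of_pos (show (0 : ℝ) < 1 - δ by linarith)
    have h2 : (1 - δ)⁻¹ ≤ 1 + 2 * δ := by
      rw [inv_le_iff_one_le_mul₀ (by linarith)]
      nlinarith
    linarith
  have hXX : (n : ℝ) * P * (1 - 2 * θ - h) = n * X := by rw [hX]; ring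
  rw [hXX]
  linarith

end PPX
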