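import Pool.Agent.PPX.Stmts

/-! CNB: bounds for the constants -/

set_option autoImplicit false

namespace PPX

open MeasureTheory Set Filter Topology
open PPI PPG
open scoped Pointwise ENNReal

namespace CNB_

lemma kap_eq (n : ℕ) :
    kap n = √Real.pi ^ n / Real.Gamma (n / 2 + 1) := by
  rcases Nat.eq_zero_or_pos n with h0 | hn
  · subst h0
    have h1 : Bn 0 = (Set.univ : Set (EE 0)) := by
      apply Set.eq_univ_of_forall
      intro x
      have : x = 0 := Subsingleton.elim _ _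
      rw [this]
      simp [Bn]
    unfold kap vl
    rw [h1]
    have h2 : (volume : Measure (EE 0)) Set.univ = 1 := by
      have h3 := (EuclideanSpace.volume_preserving_symm_measurableEquiv_toLp (Fin 0)).measure_preimage
        (s := (Set.univ : Set (Fin 0 → ℝ))) MeasurableSet.univ.nullMeasurableSet
      have h4 : (volume : Measure (Fin 0 → ℝ)) Set.univ = 1 := by
        rw [volume_pi, Measure.pi_univ]
        simp
      rw [Set.preimage_univ, h4] at h3
      exact h3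
    rw [h2]
    simp
  · have : Nonempty (Fin n) := ⟨⟨0, hn⟩⟩
    unfold kap vl Bn
    rw [EuclideanSpace.volume_closedBall]
    simp only [ENNReal.ofReal_one, one_pow, Fintype.card_fin, one_mul]
    rw [ENNReal.toReal_ofReal]
    positivity

lemma conv (s t : ℝ) (hs : 0 < s) (ht : 0 < t) :
    Real.Gamma ((s + t) / 2) ^ 2 ≤ Real.Gamma s * Real.Gamma t := by
  have h := Real.Gamma_mul_add_mul_le_rpow_Gamma_mul_rpow_Gamma hs ht
    (a := 1 / 2) (b := 1 / 2) (by norm_num) (by norm_num) (by norm_num)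
  have e : (1 / 2 : ℝ) * s + 1 / 2 * t = (s + t) / 2 := by ring
  rw [e] at h
  have hs' := Real.Gamma_pos_of_pos hs
  have ht' := Real.Gamma_pos_of_pos ht
  rw [← Real.sqrt_eq_rpow, ← Real.sqrt_eq_rpow] at h
  have h0 : 0 ≤ Real.Gamma ((s + t) / 2) := (Real.Gamma_pos_of_pos (by positivity)).le
  calc Real.Gamma ((s + t) / 2) ^ 2 ≤ (√(Real.Gamma s) * √(Real.Gamma t)) ^ 2 :=
        pow_le_pow_left₀ h0 h 2
    _ = Real.Gamma s * Real.Gamma t := by
        rw [mul_pow, Real.sq_sqrt hs'.le, Real.sq_sqrt ht'.le]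

end CNB_

open CNB_ in
theorem cnb_proof (hNUA : PPI.Stmt_NUA) : Stmt_CNB := by
  intro n hn
  have hn' : (2 : ℝ) ≤ n := by exact_mod_cast hn
  obtain ⟨m, rfl⟩ : ∃ m, n = m + 2 := ⟨n - 2, by omega⟩
  have hm : (0 : ℝ) ≤ m := Nat.cast_nonneg m
  set A := Real.Gamma (((m + 2 : ℕ) : ℝ) / 2 + 1) with hA
  set B := Real.Gamma (((m + 1 : ℕ) : ℝ) / 2 + 1) with hB
  set C := Real.Gamma ((m : ℝ) / 2 + 1) with hC
  have pA : 0 < A := Real.Gamma_pos_of_pos (by positivity)
  have pB : 0 < B := Real.Gamma_pos_of_pos (by positivity)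
  have pC : 0 < C := Real.Gamma_pos_of_pos (by positivity)
  set s := √Real.pi with hs
  have hpi : 0 < s := Real.sqrt_pos.mpr Real.pi_pos
  have hs2 : s ^ 2 = Real.pi := Real.sq_sqrt Real.pi_pos.le
  have k2 : kap (m + 2) = s ^ (m + 2) / A := kap_eq (m + 2)
  have k1 : kap (m + 1) = s ^ (m + 1) / B := kap_eq (m + 1)
  have k0 : kap m = s ^ m / C := kap_eq m
  have hAC : A = (((m : ℝ) + 2) / 2) * C := by
    have h := Real.Gamma_add_one (s := ((m : ℝ) + 2) / 2) (by positivity)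
    have e1 : (((m + 2 : ℕ) : ℝ) / 2 + 1) = ((m : ℝ) + 2) / 2 + 1 := by push_cast; ring
    have e2 : (m : ℝ) / 2 + 1 = ((m : ℝ) + 2) / 2 := by ring
    rw [hA, hC, e1, e2, h]
  -- log-convexity
  have c1 : A ^ 2 ≤ ((m : ℝ) + 3) / 2 * B ^ 2 := by
    have h := conv (((m : ℝ) + 3) / 2) (((m : ℝ) + 3) / 2 + 1) (by positivity) (by positivity)
    rw [Real.Gamma_add_one (by positivity : ((m : ℝ) + 3) / 2 ≠ 0)] at h
    have e1 : (((m : ℝ) + 3) / 2 + (((m : ℝ) + 3) / 2 + 1)) / 2 = (((m + 2 : ℕ) : ℝ) / 2 + 1) := by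
      push_cast; ring
    have e2 : ((m : ℝ) + 3) / 2 = (((m + 1 : ℕ) : ℝ) / 2 + 1) := by push_cast; ring
    rw [e1, ← hA] at h
    calc A ^ 2 ≤ _ := h
      _ = ((m : ℝ) + 3) / 2 * B ^ 2 := by rw [hB, ← e2]; ring
  have c2 : B ^ 2 ≤ C * A := by
    have h := conv ((m : ℝ) / 2 + 1) (((m + 2 : ℕ) : ℝ) / 2 + 1) (by positivity) (by positivity)
    have e1 : ((m : ℝ) / 2 + 1 + (((m + 2 : ℕ) : ℝ) / 2 + 1)) / 2 = (((m + 1 : ℕ) : ℝ) / 2 + 1) := by
      push_cast; ring
    rw [e1] at h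
    exact h
  have hcast : ((m + 2 : ℕ) : ℝ) = (m : ℝ) + 2 := by push_cast; ring
  have hk2 : 0 < kap (m + 2) := by rw [k2]; positivity
  have c2' : ((m : ℝ) + 2) / 2 * B ^ 2 ≤ A ^ 2 := by
    calc ((m : ℝ) + 2) / 2 * B ^ 2 ≤ ((m : ℝ) + 2) / 2 * (C * A) := by gcongr
      _ = A ^ 2 := by rw [pow_two, hAC]; ring
  have hcn : cn (m + 2) = 2 / s * (A / B) := by
    unfold cn
    have : m + 2 - 1 = m + 1 := by omega
    rw [this, k1, k2]
    field_simp
    ring
  have hcnpos : 0 < cn (m + 2) := by rw [hcn]; positivity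
  have hcn2 : cn (m + 2) ^ 2 = 4 / Real.pi * (A ^ 2 / B ^ 2) := by
    rw [hcn, mul_pow, div_pow, div_pow, hs2]; norm_num
  have hq1 : A ^ 2 / B ^ 2 ≤ ((m : ℝ) + 3) / 2 := by
    rw [div_le_iff₀ (by positivity)]; exact c1
  have hq2 : ((m : ℝ) + 2) / 2 ≤ A ^ 2 / B ^ 2 := by
    rw [le_div_iff₀ (by positivity)]; exact c2'
  have hp3 := Real.pi_gt_three
  have hp4 := Real.pi_lt_four
  have hpp := Real.pi_pos
  have hom : om (m + 2) = B ^ 2 / (A * C) := by
    unfold om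
    have e1 : m + 2 - 1 = m + 1 := by omega
    have e2 : m + 2 - 2 = m := by omega
    rw [e1, e2, k1, k2, k0]
    field_simp
    ring
  refine ⟨hk2, ?_, ?_, ?_, ?_, ?_⟩
  · have h1 : √(((m + 2 : ℕ) : ℝ)) / 2 = √(((m : ℝ) + 2) / 4) := by
      rw [hcast, Real.sqrt_div' _ (by norm_num)]
      norm_num
    rw [h1]
    apply Real.sqrt_le_iff.mpr
    refine ⟨hcnpos.le, ?_⟩
    rw [hcn2]
    calc ((m : ℝ) + 2) / 4 ≤ 4 / Real.pi * (((m : ℝ) + 2) / 2) := by
          have : (1 : ℝ) ≤ 4 / Real.pi := by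
            rw [le_div_iff₀ hpp]; linarith
          nlinarith
      _ ≤ _ := by gcongr
  · rw [hcast]
    apply Real.le_sqrt_of_sq_le
    rw [hcn2]
    calc 4 / Real.pi * (A ^ 2 / B ^ 2) ≤ 4 / Real.pi * (((m : ℝ) + 3) / 2) := by gcongr
      _ ≤ (m : ℝ) + 2 := by
          rw [div_mul_eq_mul_div, div_le_iff₀ hpp]
          nlinarith
  · rw [hom, le_div_iff₀ (by positivity), hcast]
    have h1 : ((m : ℝ) + 2) / 2 * (A * C) = A ^ 2 := by
      rw [pow_two]; nth_rewrite 3 [hAC]; ring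
    have h2 : A * C = 2 * A ^ 2 / ((m : ℝ) + 2) := by
      rw [eq_div_iff (by positivity)]; linarith
    have h3 : 1 - 1 / ((m : ℝ) + 2) ≤ ((m : ℝ) + 2) / ((m : ℝ) + 3) := by
      rw [div_eq_mul_inv, one_mul, le_div_iff₀ (by positivity)]
      have : ((m : ℝ) + 2)⁻¹ * ((m : ℝ) + 3) = 1 + ((m : ℝ) + 2)⁻¹ := by
        field_simp; ring
      have h4 : 0 < ((m : ℝ) + 2)⁻¹ := by positivity
      nlinarith
    calc (1 - 1 / ((m : ℝ) + 2)) * (A * C) ≤ ((m : ℝ) + 2) / ((m : ℝ) + 3) * (A * C) := by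
          gcongr
      _ = 2 * A ^ 2 / ((m : ℝ) + 3) := by
          rw [h2]; field_simp
      _ ≤ B ^ 2 := by
          rw [div_le_iff₀ (by positivity)]; linarith
  · rw [hom, div_le_one (by positivity)]; linarith
  · have h := hNUA (m + 2) hn
    unfold X0
    have hfp : (0 : ℝ) < ((m + 2).factorial : ℝ) := by exact_mod_cast Nat.factorial_pos _
    have hnp : (0 : ℝ) < ((m + 2 : ℕ) : ℝ) ^ (m + 2) := by positivity
    set F := ((m + 2).factorial : ℝ) with hF
    set N := ((m + 2 : ℕ) : ℝ) ^ (m + 2) with hN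
    have e1 : m + 2 - 1 = m + 1 := by omega
    have e2 : m + 2 - 2 = m := by omega
    rw [e2, e1] at h
    rw [e1]
    have e3 : F * kap (m + 1) ^ (m + 2) / (N * kap (m + 2) ^ (m + 1)) =
        F / N * (kap (m + 1) ^ (m + 2) / kap (m + 2) ^ m) / kap (m + 2) := by
      rw [pow_succ (kap (m + 2)) m]
      field_simp
    rw [e3, div_le_iff₀ hk2]
    have e4 : √(N / F) * (F / N) = √(F / N) := by
      have h5 : √(N / F) * √(F / N) = 1 := by
        rw [← Real.sqrt_mul (by positivity)]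
        have : N / F * (F / N) = 1 := by field_simp
        rw [this, Real.sqrt_one]
      have h6 : F / N = √(F / N) * √(F / N) := (Real.mul_self_sqrt (by positivity)).symm
      calc √(N / F) * (F / N) = √(N / F) * (√(F / N) * √(F / N)) := by rw [← h6]
        _ = (√(N / F) * √(F / N)) * √(F / N) := by ring
        _ = √(F / N) := by rw [h5, one_mul]
    calc F / N * (kap (m + 1) ^ (m + 2) / kap (m + 2) ^ m) ≤
          F / N * (√(Real.exp 1) * kap (m + 2) * √(N / F)) := by gcongr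
      _ = √(Real.exp 1) * (√(N / F) * (F / N)) * kap (m + 2) := by ring
      _ = √(Real.exp 1) * √(F / N) * kap (m + 2) := by rw [e4]

end PPX
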