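import Pool.Agent.PPX.Stmts

/-!
# (DSB) a double sum
-/

set_option autoImplicit false

namespace PPX

open MeasureTheory Set Filter Topology
open PPI PPG
open scoped Pointwise ENNReal

namespace DSB_

lemma sum_sq (r N : ℕ) (hr : 2 ≤ r) :
    ∑ k ∈ Finset.Icc r N, 1 / (k : ℝ) ^ 2 ≤ 2 / (r : ℝ) := by
  have h := sum_Ioo_inv_sq_le (α := ℝ) (r - 1) (N + 1)
  have e : Finset.Ioo (r - 1) (N + 1) = Finset.Icc r N := by
    ext k
    simp only [Finset.mem_Ioo, Finset.mem_Icc]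
    omega
  rw [e] at h
  have e2 : ((r - 1 : ℕ) : ℝ) + 1 = r := by
    rw [Nat.cast_sub (by omega)]
    push_cast; ring
  rw [e2] at h
  refine le_trans (le_of_eq ?_) h
  refine Finset.sum_congr rfl fun k _ => ?_
  rw [one_div]

lemma key (C : ℝ) (hC : 0 < C) (n r k l : ℕ) (hn : 12 ≤ n) (hr : 2 ≤ r) (hk : r ≤ k) (hl : r ≤ l)
    (h : ∀ n N : ℕ, 12 ≤ n → 3 ≤ N → smo n N ≤ C / (n : ℝ) ^ 3 / (N : ℝ) ^ 5) :
    smo n (k + l - 1) ≤ C / (n : ℝ) ^ 3 * (1 / r) * (1 / (k : ℝ) ^ 2 * (1 / (l : ℝ) ^ 2)) := by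
  refine (h n (k + l - 1) hn (by omega)).trans ?_
  have hr0 : (0 : ℝ) < r := by exact_mod_cast (by omega : 0 < r)
  have hk0 : (0 : ℝ) < k := by exact_mod_cast (by omega : 0 < k)
  have hl0 : (0 : ℝ) < l := by exact_mod_cast (by omega : 0 < l)
  have hN1 : (r : ℝ) ≤ ((k + l - 1 : ℕ) : ℝ) := by exact_mod_cast (by omega : r ≤ k + l - 1)
  have hN2 : (k : ℝ) ≤ ((k + l - 1 : ℕ) : ℝ) := by exact_mod_cast (by omega : k ≤ k + l - 1)
  have hN3 : (l : ℝ) ≤ ((k + l - 1 : ℕ) : ℝ) := by exact_mod_cast (by omega : l ≤ k + l - 1)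
  set M : ℝ := ((k + l - 1 : ℕ) : ℝ) with hM
  have hM0 : 0 < M := lt_of_lt_of_le hr0 hN1
  have hcn : 0 ≤ C / (n : ℝ) ^ 3 := by positivity
  have h5 : (r : ℝ) * ((k : ℝ) ^ 2 * (l : ℝ) ^ 2) ≤ M ^ 5 := by
    have e : M ^ 5 = M * (M ^ 2 * M ^ 2) := by ring
    rw [e]
    gcongr
  have hpos : 0 < (r : ℝ) * ((k : ℝ) ^ 2 * (l : ℝ) ^ 2) := by positivity
  calc C / (n : ℝ) ^ 3 / M ^ 5 ≤ C / (n : ℝ) ^ 3 / ((r : ℝ) * ((k : ℝ) ^ 2 * (l : ℝ) ^ 2)) :=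
        div_le_div_of_nonneg_left hcn hpos h5
    _ = _ := by
        field_simp

end DSB_

open DSB_ in
theorem dsb_proof (hBTS : Stmt_BTS) (hSMB : Stmt_SMB) : Stmt_DSB := by
  obtain ⟨_, _, _, hec, _⟩ := hBTS
  obtain ⟨hmono, C, hC, hsmo⟩ := hSMB
  refine ⟨16 * C, by positivity, ?_⟩
  intro n r N hn hr
  have hr0 : (0 : ℝ) < r := by exact_mod_cast (by omega : 0 < r)
  have hr2 : (2 : ℝ) ≤ r := by exact_mod_cast hr
  have hn0 : (0 : ℝ) < n := by exact_mod_cast (by omega : 0 < n)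
  have hcn : 0 ≤ C / (n : ℝ) ^ 3 := by positivity
  -- the common bound
  have hsum : ∑ k ∈ Finset.Icc r N, ∑ l ∈ Finset.Icc r N,
      C / (n : ℝ) ^ 3 * (1 / r) * (1 / (k : ℝ) ^ 2 * (1 / (l : ℝ) ^ 2)) ≤
      16 * C / (n : ℝ) ^ 3 * ec r := by
    have e : ∑ k ∈ Finset.Icc r N, ∑ l ∈ Finset.Icc r N,
        C / (n : ℝ) ^ 3 * (1 / r) * (1 / (k : ℝ) ^ 2 * (1 / (l : ℝ) ^ 2)) =
        C / (n : ℝ) ^ 3 * (1 / r) * ((∑ k ∈ Finset.Icc r N, 1 / (k : ℝ) ^ 2) *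
          ∑ l ∈ Finset.Icc r N, 1 / (l : ℝ) ^ 2) := by
      rw [Finset.sum_mul_sum, Finset.mul_sum]
      refine Finset.sum_congr rfl fun k _ => ?_
      rw [Finset.mul_sum]
    rw [e]
    have hs := sum_sq r N hr
    have hs0 : 0 ≤ ∑ k ∈ Finset.Icc r N, 1 / (k : ℝ) ^ 2 :=
      Finset.sum_nonneg fun k _ => by positivity
    have h1 : (∑ k ∈ Finset.Icc r N, 1 / (k : ℝ) ^ 2) * ∑ l ∈ Finset.Icc r N, 1 / (l : ℝ) ^ 2 ≤
        2 / (r : ℝ) * (2 / (r : ℝ)) := mul_le_mul hs hs hs0 (by positivity)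
    have h2 : 1 / (8 * (r : ℝ) ^ 2) ≤ ec r := (hec r (by omega)).2.2
    have h3 : (1 / (r : ℝ)) * (2 / (r : ℝ) * (2 / (r : ℝ))) ≤ 16 * (1 / (8 * (r : ℝ) ^ 2)) := by
      have e3 : (1 / (r : ℝ)) * (2 / (r : ℝ) * (2 / (r : ℝ))) =
          (4 / (r : ℝ)) * (1 / (r : ℝ) ^ 2) := by field_simp; norm_num
      have e4 : 16 * (1 / (8 * (r : ℝ) ^ 2)) = 2 * (1 / (r : ℝ) ^ 2) := by field_simp; norm_num
      rw [e3, e4]
      refine mul_le_mul_of_nonneg_right ?_ (by positivity)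
      rw [div_le_iff₀ hr0]
      linarith
    calc C / (n : ℝ) ^ 3 * (1 / r) * ((∑ k ∈ Finset.Icc r N, 1 / (k : ℝ) ^ 2) *
          ∑ l ∈ Finset.Icc r N, 1 / (l : ℝ) ^ 2)
        ≤ C / (n : ℝ) ^ 3 * (1 / r) * (2 / (r : ℝ) * (2 / (r : ℝ))) :=
          mul_le_mul_of_nonneg_left h1 (by positivity)
      _ = C / (n : ℝ) ^ 3 * ((1 / (r : ℝ)) * (2 / (r : ℝ) * (2 / (r : ℝ)))) := by ring
      _ ≤ C / (n : ℝ) ^ 3 * (16 * (1 / (8 * (r : ℝ) ^ 2))) :=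
          mul_le_mul_of_nonneg_left h3 hcn
      _ ≤ C / (n : ℝ) ^ 3 * (16 * ec r) :=
          mul_le_mul_of_nonneg_left (by linarith) hcn
      _ = _ := by ring
  have hone : ∀ k : ℕ, r ≤ k → 0 < ec k ∧ 2 * (k : ℝ) * ec k ≤ 1 ∧ ec k ≤ 1 := by
    intro k hk
    obtain ⟨h1, h2, _⟩ := hec k (by omega)
    refine ⟨h1, h2, ?_⟩
    have hk1 : (1 : ℝ) ≤ k := by exact_mod_cast (by omega : 1 ≤ k)
    nlinarith
  constructor
  · refine le_trans (Finset.sum_le_sum fun k hk => Finset.sum_le_sum fun l hl => ?_) hsum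
    rw [Finset.mem_Icc] at hk hl
    obtain ⟨pk, ek, _⟩ := hone k hk.1
    obtain ⟨pl, el, _⟩ := hone l hl.1
    refine le_trans ?_ (key C hC n r k l hn hr hk.1 hl.1 hsmo)
    have hp : 0 < smo n (k + l - 1) := (hmono n (k + l - 1) (by omega)).1
    have e : ec k * ec l * (4 * (k : ℝ) * l * smo n (k + l - 1)) =
        ((2 * (k : ℝ) * ec k) * (2 * (l : ℝ) * ec l)) * smo n (k + l - 1) := by ring
    rw [e]
    have h1 : (2 * (k : ℝ) * ec k) * (2 * (l : ℝ) * ec l) ≤ 1 :=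
      mul_le_one₀ ek (by positivity) el
    calc _ ≤ 1 * smo n (k + l - 1) := mul_le_mul_of_nonneg_right h1 hp.le
      _ = _ := one_mul _
  · refine le_trans (Finset.sum_le_sum fun k hk => Finset.sum_le_sum fun l hl => ?_) hsum
    rw [Finset.mem_Icc] at hk hl
    obtain ⟨pk, _, ek⟩ := hone k hk.1
    obtain ⟨pl, _, el⟩ := hone l hl.1
    refine le_trans ?_ (key C hC n r k l hn hr hk.1 hl.1 hsmo)
    have hp : 0 < smo n (k + l - 1) := (hmono n (k + l - 1) (by omega)).1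
    have hm : smo n (k + l) ≤ smo n (k + l - 1) := by
      have := (hmono n (k + l - 1) (by omega)).2.2.1
      rwa [show k + l - 1 + 1 = k + l by omega] at this
    have hp' : 0 < smo n (k + l) := (hmono n (k + l) (by omega)).1
    have h1 : ec k * ec l ≤ 1 := mul_le_one₀ ek pl.le el
    calc ec k * ec l * smo n (k + l) ≤ 1 * smo n (k + l) := mul_le_mul_of_nonneg_right h1 hp'.le
      _ = smo n (k + l) := one_mul _
      _ ≤ _ := hm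

end PPX
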