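import Pool.Agent.PPX.Stmts

set_option autoImplicit false

namespace PPX

open MeasureTheory Set Filter Topology
open PPI PPG
open scoped Pointwise ENNReal

namespace DTL_

variable {n : ℕ}

theorem prod_ge (s : Finset (Fin n)) (c : Fin n → ℝ) (hc : ∀ i, 0 ≤ c i) :
    1 + ∑ i ∈ s, c i ≤ ∏ i ∈ s, (1 + c i) := by
  induction s using Finset.induction_on with
  | empty => simp
  | insert a s ha ih =>
    rw [Finset.sum_insert ha, Finset.prod_insert ha]
    have h1 : 0 ≤ ∑ i ∈ s, c i := Finset.sum_nonneg fun i _ => hc i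
    have h2 := mul_le_mul_of_nonneg_left ih (by linarith [hc a] : 0 ≤ 1 + c a)
    nlinarith [mul_nonneg (hc a) h1]

/-- diagonalisation -/
theorem diag (A : Matrix (Fin n) (Fin n) ℝ) (hA : A.PosSemidef) :
    ∃ (U : Matrix (Fin n) (Fin n) ℝ) (a : Fin n → ℝ), U.conjTranspose * U = 1 ∧
      U * U.conjTranspose = 1 ∧ (∀ i, 0 ≤ a i) ∧
      A = U * Matrix.diagonal a * U.conjTranspose := by
  refine ⟨(hA.1.eigenvectorUnitary : Matrix (Fin n) (Fin n) ℝ), hA.1.eigenvalues, ?_, ?_,
    hA.eigenvalues_nonneg, ?_⟩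
  · exact Unitary.coe_star_mul_self hA.1.eigenvectorUnitary
  · exact Unitary.coe_mul_star_self hA.1.eigenvectorUnitary
  · have h := hA.1.spectral_theorem
    rw [Unitary.conjStarAlgAut_apply] at h
    exact h

theorem det_one_add (C : Matrix (Fin n) (Fin n) ℝ) (hC : C.PosSemidef) :
    1 + C.trace ≤ (1 + C).det := by
  obtain ⟨U, c, h1, h2, hc, hCU⟩ := diag C hC
  have h3 : 1 + C = U * Matrix.diagonal (fun i => 1 + c i) * U.conjTranspose := by
    have : Matrix.diagonal (fun i => 1 + c i) = 1 + Matrix.diagonal c := by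
      rw [← Matrix.diagonal_one, Matrix.diagonal_add]
    rw [this, mul_add, add_mul, mul_one, h2, ← hCU]
  have h4 : C.trace = ∑ i, c i := by
    rw [hCU, Matrix.trace_mul_cycle, h1, one_mul, Matrix.trace_diagonal]
  have h5 : (1 + C).det = ∏ i, (1 + c i) := by
    rw [h3, Matrix.det_mul, Matrix.det_mul, mul_right_comm, ← Matrix.det_mul, h2,
      Matrix.det_one, one_mul, Matrix.det_diagonal]
  rw [h4, h5]
  exact prod_ge Finset.univ c hc

/-- the diagonal case -/
theorem det_diag (a : Fin n → ℝ) (ha : ∀ i, 0 < a i) (ha' : ∀ i, a i ≤ 5 / 4)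
    (B : Matrix (Fin n) (Fin n) ℝ) (hB : B.PosSemidef) :
    (∏ i, a i) * (1 + 4 / 5 * B.trace) ≤ (Matrix.diagonal a + B).det := by
  let d : Fin n → ℝ := fun i => (Real.sqrt (a i))⁻¹
  have hs : ∀ i, 0 < Real.sqrt (a i) := fun i => Real.sqrt_pos.2 (ha i)
  let C : Matrix (Fin n) (Fin n) ℝ := (Matrix.diagonal d) * B * (Matrix.diagonal d).conjTranspose
  have hC : C.PosSemidef := hB.mul_mul_conjTranspose_same _
  have hdd : (Matrix.diagonal d).conjTranspose = Matrix.diagonal d := by
    rw [Matrix.diagonal_conjTranspose]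
    congr 1
  let e : Fin n → ℝ := fun i => Real.sqrt (a i)
  have h1 : Matrix.diagonal a + B = Matrix.diagonal e * (1 + C) * Matrix.diagonal e := by
    have h2 : Matrix.diagonal e * Matrix.diagonal d = 1 := by
      rw [Matrix.diagonal_mul_diagonal, ← Matrix.diagonal_one]
      congr 1
      ext i
      exact mul_inv_cancel₀ (hs i).ne'
    have h3 : Matrix.diagonal d * Matrix.diagonal e = 1 := by
      rw [Matrix.diagonal_mul_diagonal, ← Matrix.diagonal_one]
      congr 1
      ext i
      exact inv_mul_cancel₀ (hs i).ne'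
    have h4 : Matrix.diagonal e * Matrix.diagonal e = Matrix.diagonal a := by
      rw [Matrix.diagonal_mul_diagonal]
      congr 1
      ext i
      exact Real.mul_self_sqrt (ha i).le
    have h5 : Matrix.diagonal e * C * Matrix.diagonal e = B := by
      show Matrix.diagonal e * (Matrix.diagonal d * B * (Matrix.diagonal d).conjTranspose) *
        Matrix.diagonal e = B
      rw [hdd]
      calc _ = (Matrix.diagonal e * Matrix.diagonal d) * B *
            (Matrix.diagonal d * Matrix.diagonal e) := by simp only [mul_assoc]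
        _ = B := by rw [h2, h3, one_mul, mul_one]
    rw [mul_add, add_mul, mul_one, h4, h5]
  have h6 : (Matrix.diagonal a + B).det = (∏ i, a i) * (1 + C).det := by
    rw [h1, Matrix.det_mul, Matrix.det_mul, Matrix.det_diagonal, mul_right_comm,
      ← Finset.prod_mul_distrib]
    congr 1
    exact Finset.prod_congr rfl fun i _ => Real.mul_self_sqrt (ha i).le
  have h7 : 4 / 5 * B.trace ≤ C.trace := by
    rw [Matrix.trace, Matrix.trace, Finset.mul_sum]
    apply Finset.sum_le_sum
    intro i _
    have h8 : C.diag i = (a i)⁻¹ * B.diag i := by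
      show (Matrix.diagonal d * B * (Matrix.diagonal d).conjTranspose) i i = _
      rw [hdd, Matrix.mul_diagonal, Matrix.diagonal_mul]
      have h9 : (a i)⁻¹ = (Real.sqrt (a i))⁻¹ * (Real.sqrt (a i))⁻¹ := by
        rw [← mul_inv, Real.mul_self_sqrt (ha i).le]
      rw [h9]
      show (Real.sqrt (a i))⁻¹ * B i i * (Real.sqrt (a i))⁻¹ =
        (Real.sqrt (a i))⁻¹ * (Real.sqrt (a i))⁻¹ * B i i
      ring
    rw [h8]
    apply mul_le_mul_of_nonneg_right _ hB.diag_nonneg
    have h10 := inv_anti₀ (ha i) (ha' i)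
    linarith [h10, (by norm_num : ((5 : ℝ) / 4)⁻¹ = 4 / 5)]
  rw [h6]
  apply mul_le_mul_of_nonneg_left _ (Finset.prod_nonneg fun i _ => (ha i).le)
  linarith [det_one_add C hC]

theorem log_ge (t : ℝ) (ht : -(1 / 4) ≤ t) : Real.exp (t - 4 / 3 * t ^ 2) ≤ 1 + t := by
  have hpos : 0 < 1 + t := by linarith
  rw [← Real.le_log_iff_exp_le hpos]
  have h1 := Real.log_le_sub_one_of_pos (inv_pos.2 hpos)
  rw [Real.log_inv] at h1
  have h2 : t - 4 / 3 * t ^ 2 ≤ 1 - (1 + t)⁻¹ := by
    have h3 : 1 - (1 + t)⁻¹ = t / (1 + t) := by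
      field_simp; ring
    rw [h3, le_div_iff₀ hpos]
    nlinarith [sq_nonneg t, mul_nonneg (sq_nonneg t) (by linarith : (0 : ℝ) ≤ t + 1 / 4)]
  linarith

theorem main (A B : Matrix (Fin n) (Fin n) ℝ) (hA : A.PosSemidef) (hB : B.PosSemidef) :
    1 + (A.trace - n) + 3 / 10 * min 1 B.trace - 32 * (hs (A - 1) + (A.trace - n) ^ 2) ≤
      (A + B).det := by
  obtain ⟨U, a, h1, h2, ha, hAU⟩ := diag A hA
  have htr : A.trace = ∑ i, a i := by
    rw [hAU, Matrix.trace_mul_cycle, h1, one_mul, Matrix.trace_diagonal]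
  have hh : hs (A - 1) = ∑ i, (a i - 1) ^ 2 := by
    have h3 : ∀ M : Matrix (Fin n) (Fin n) ℝ, hs M = (M * M.conjTranspose).trace := by
      intro M
      rw [hs, Matrix.trace]
      refine Finset.sum_congr rfl fun k _ => ?_
      rw [Matrix.diag_apply, Matrix.mul_apply]
      refine Finset.sum_congr rfl fun l _ => ?_
      rw [Matrix.conjTranspose_apply, sq]
      rfl
    have h4 : A - 1 = U * Matrix.diagonal (fun i => a i - 1) * U.conjTranspose := by
      have : Matrix.diagonal (fun i => a i - 1) = Matrix.diagonal a - 1 := by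
        rw [← Matrix.diagonal_one, Matrix.diagonal_sub]
      rw [this, mul_sub, sub_mul, mul_one, h2, ← hAU]
    have h5 : (A - 1).conjTranspose = A - 1 := by
      rw [Matrix.conjTranspose_sub, Matrix.conjTranspose_one, hA.1.eq]
    have h6 : (A - 1) * (A - 1) = U * Matrix.diagonal (fun i => (a i - 1) ^ 2) *
        U.conjTranspose := by
      have h7 : Matrix.diagonal (fun i => (a i - 1) ^ 2) =
          Matrix.diagonal (fun i => a i - 1) * Matrix.diagonal (fun i => a i - 1) := by
        rw [Matrix.diagonal_mul_diagonal]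
        congr 1
        ext i
        ring
      rw [h7, h4]
      calc _ = U * Matrix.diagonal (fun i => a i - 1) * (U.conjTranspose * U) *
            Matrix.diagonal (fun i => a i - 1) * U.conjTranspose := by simp only [mul_assoc]
        _ = _ := by rw [h1, mul_one]; simp only [mul_assoc]
    rw [h3, h5, h6, Matrix.trace_mul_cycle, h1, one_mul, Matrix.trace_diagonal]
  let B' : Matrix (Fin n) (Fin n) ℝ := U.conjTranspose * B * U
  have hB' : B'.PosSemidef := hB.conjTranspose_mul_mul_same _
  have hBtr : B'.trace = B.trace := by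
    show (U.conjTranspose * B * U).trace = _
    rw [Matrix.trace_mul_cycle, h2, one_mul]
  have hdet : (A + B).det = (Matrix.diagonal a + B').det := by
    have h3 : A + B = U * (Matrix.diagonal a + B') * U.conjTranspose := by
      have h4 : U * B' * U.conjTranspose = B := by
        show U * (U.conjTranspose * B * U) * U.conjTranspose = B
        calc _ = (U * U.conjTranspose) * B * (U * U.conjTranspose) := by simp only [mul_assoc]
          _ = B := by rw [h2, one_mul, mul_one]
      rw [mul_add, add_mul, ← hAU, h4]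
    rw [h3, Matrix.det_mul, Matrix.det_mul, mul_right_comm, ← Matrix.det_mul, h2,
      Matrix.det_one, one_mul]
  have htB : 0 ≤ B.trace := hB.trace_nonneg
  set τ := A.trace - n with hτ
  set h := hs (A - 1) with hhdef
  have hτ' : τ = ∑ i, (a i - 1) := by
    rw [hτ, htr, Finset.sum_sub_distrib]
    simp
  have hh0 : 0 ≤ h := by rw [hh]; exact Finset.sum_nonneg fun i _ => sq_nonneg _
  have hmin1 : min 1 B.trace ≤ 1 := min_le_left _ _
  have hmin2 : min 1 B.trace ≤ B.trace := min_le_right _ _
  have hmin0 : 0 ≤ min 1 B.trace := le_min zero_le_one htB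
  by_cases hcase : 1 / 16 ≤ h + τ ^ 2
  · have h3 : 0 ≤ (A + B).det := (hA.add hB).det_nonneg
    nlinarith [sq_nonneg (τ - 1 / 8)]
  · push Not at hcase
    have hai : ∀ i, (a i - 1) ^ 2 ≤ 1 / 16 := by
      intro i
      have h3 : (a i - 1) ^ 2 ≤ ∑ i, (a i - 1) ^ 2 :=
        Finset.single_le_sum (f := fun i => (a i - 1) ^ 2) (fun i _ => sq_nonneg _)
          (Finset.mem_univ i)
      rw [← hh] at h3
      nlinarith [sq_nonneg τ]
    have hai' : ∀ i, -(1 / 4) ≤ a i - 1 ∧ a i - 1 ≤ 1 / 4 := by
      intro i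
      have := hai i
      constructor <;> nlinarith
    have h3 := det_diag a (fun i => by have := (hai' i).1; linarith)
      (fun i => by have := (hai' i).2; linarith) B' hB'
    rw [← hdet, hBtr] at h3
    have h4 : 1 + τ - 4 / 3 * h ≤ ∏ i, a i := by
      have h5 : Real.exp (τ - 4 / 3 * h) ≤ ∏ i, a i := by
        have h6 : τ - 4 / 3 * h = ∑ i, ((a i - 1) - 4 / 3 * (a i - 1) ^ 2) := by
          rw [Finset.sum_sub_distrib, ← Finset.mul_sum, ← hτ', ← hh]
        rw [h6, Real.exp_sum]
        apply Finset.prod_le_prod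
        · intro i _; exact (Real.exp_pos _).le
        · intro i _
          have := log_ge (a i - 1) (hai' i).1
          linarith
      have h7 := Real.add_one_le_exp (τ - 4 / 3 * h)
      linarith
    have h8 : -(1 / 4) ≤ τ := by nlinarith [sq_nonneg τ]
    have h9 : 2 / 3 ≤ ∏ i, a i := by nlinarith [sq_nonneg τ]
    have h10 : (∏ i, a i) * (4 / 5 * B.trace) ≥ 3 / 10 * min 1 B.trace := by nlinarith
    nlinarith [sq_nonneg τ]

end DTL_

theorem dtl_proof : Stmt_DTL := fun _ A B hA hB => DTL_.main A B hA hB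

end PPX
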