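import Pool.Agent.PPG.Stmts

/-!
# Squad PPX (MP_0bf616_gt): the exact Petty projection inequality in high dimension for bodies which
are nearly isoperimetric and for bodies with an irreducible group of isometries.  Definitions.
-/

set_option autoImplicit false

namespace PPX

open MeasureTheory Set Filter Topology
open PPI PPG
open scoped Pointwise

noncomputable section

/-! ## Constants -/

/-- coefficients of `1/√(1-t)` -/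
def bt (k : ℕ) : ℝ := (Nat.centralBinom k : ℝ) / 4 ^ k

/-- coefficients of `-√(1-t)`; `ec 0 = -1` and `ec k > 0` for `k ≥ 1` -/
def ec (k : ℕ) : ℝ := bt k / (2 * (k : ℝ) - 1)

/-- the even moments of the sphere: `smo n k = E ⟨v, e⟩^(2k)` -/
def smo (n k : ℕ) : ℝ := ∏ i ∈ Finset.range k, ((2 * (i : ℝ) + 1) / ((n : ℝ) + 2 * i))

/-- `c_n = 2 κ_{n-1} / κ_n` -/
def cn (n : ℕ) : ℝ := 2 * kap (n - 1) / kap n

/-- `κ_n κ_{n-2} / κ_{n-1}²` -/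
def om (n : ℕ) : ℝ := kap n * kap (n - 2) / kap (n - 1) ^ 2

/-- the mean of `√(1 - ⟨v, e⟩²)` over the sphere -/
def mm (n : ℕ) : ℝ := ((n : ℝ) - 1) / (n * om n)

/-- the value of `XT` for the ball -/
def X0 (n : ℕ) : ℝ := n.factorial * kap (n - 1) ^ n / ((n : ℝ) ^ n * kap n ^ (n - 1))

/-! ## Measures -/

/-- the probability measure with density `(1+|x|²)^(-n/2-1) / κ_n` on `R^n` -/
def mun (n : ℕ) : Measure (EE n) :=
  volume.withDensity fun x => ENNReal.ofReal ((1 + ‖x‖ ^ 2) ^ (-((n : ℝ) / 2) - 1) / kap n)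

/-- the uniform probability measure on the unit sphere (image of the ball) -/
def sph (n : ℕ) : Measure (EE n) :=
  (ENNReal.ofReal (kap n))⁻¹ • (volume.restrict (Bn n)).map fun x => (‖x‖)⁻¹ • x

/-- `T_x v`, where `T_x` is the positive square root of `1 + x xᵀ` -/
def tx {n : ℕ} (x v : EE n) : EE n := v + (inner ℝ x v / (1 + √(1 + ‖x‖ ^ 2))) • x

/-- `√(1+|x|²) (1+⟨x,v⟩²)^(-n/2)` -/
def ww {n : ℕ} (x v : EE n) : ℝ :=
  √(1 + ‖x‖ ^ 2) * (1 + (inner ℝ x v) ^ 2) ^ (-((n : ℝ) / 2))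

/-- `√(1+|x|²) (1+⟨x,v⟩²)^(-n/2-1)` -/
def wv {n : ℕ} (x v : EE n) : ℝ :=
  √(1 + ‖x‖ ^ 2) * (1 + (inner ℝ x v) ^ 2) ^ (-((n : ℝ) / 2) - 1)

/-- the kernel `E W_x(a) W_x(b)`, `s = ⟨a, b⟩`, as a mixture -/
def kk (n : ℕ) (s : ℝ) : ℝ :=
  (n : ℝ) / 2 / Real.Gamma ((n : ℝ) / 2) ^ 2 *
    ∫ y : ℝ × ℝ × ℝ in Ioi 0 ×ˢ Ioi 0 ×ˢ Ioi 0,
      Real.exp (-(y.1 + y.2.1 + y.2.2)) * (y.2.1 * y.2.2) ^ ((n : ℝ) / 2 - 1) /
        √((y.1 + y.2.1) * (y.1 + y.2.2) - y.2.1 * y.2.2 * s ^ 2)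

/-! ## Quantities of a family -/

section fam

variable {n : ℕ} {ι : Type} [Fintype ι]

/-- the matrix `∑ c_i(x) T_x w_i (T_x w_i)ᵀ` -/
def Mt (c : ι → ℝ) (w : ι → EE n) (x : EE n) : Matrix (Fin n) (Fin n) ℝ :=
  Matrix.of fun k l => ∑ i, c i * (tx x (w i) k * tx x (w i) l)

open Classical in
/-- the coefficients of the normalised narrow part belonging to the index set `g` -/
def cg (g : Finset ι) (p : ι → ℝ) (w : ι → EE n) (x : EE n) (i : ι) : ℝ :=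
  if i ∈ g then (n : ℝ) * (p i / ∑ j ∈ g, p j) * wv x (w i) else 0

open Classical in
/-- the coefficients of the wide part belonging to the index set `b` -/
def cb (b : Finset ι) (p : ι → ℝ) (w : ι → EE n) (x : EE n) (i : ι) : ℝ :=
  if i ∈ b ∧ |inner ℝ x (w i)| ≤ 2 then (n : ℝ) / cn n * √(1 + ‖x‖ ^ 2) * p i / 2 else 0

/-- squared Hilbert–Schmidt norm -/
def hs (M : Matrix (Fin n) (Fin n) ℝ) : ℝ := ∑ k, ∑ l, M k l ^ 2

/-- the energy `X` of the narrow part -/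
def XX (g : Finset ι) (p : ι → ℝ) (w : ι → EE n) : ℝ :=
  2 * (n : ℝ) ^ 2 *
      ((∑ i ∈ g, ∑ j ∈ g, p i * p j * kk n (inner ℝ (w i) (w j))) / (∑ i ∈ g, p i) ^ 2 - 1) +
    ((n : ℝ) ^ 2 - n - (n : ℝ) ^ 2 * om n *
      ((∑ i ∈ g, ∑ j ∈ g, p i * p j * √(1 - (inner ℝ (w i) (w j)) ^ 2)) / (∑ i ∈ g, p i) ^ 2))

/-- `∫ ⟨a, v⟩^(2k) d(ρ - σ)(a)` -/
def Fk (p : ι → ℝ) (w : ι → EE n) (k : ℕ) (v : EE n) : ℝ :=
  ∑ i, p i * (inner ℝ (w i) v) ^ (2 * k) - smo n k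

/-- the gradient of `Fk` -/
def Gk (p : ι → ℝ) (w : ι → EE n) (k : ℕ) (v : EE n) : EE n :=
  (2 * (k : ℝ)) • (∑ i, (p i * (inner ℝ (w i) v) ^ (2 * k - 1)) • w i - smo n k • v)

/-- `∬ ⟨a, b⟩^(2k) d(ρ - σ)(a) d(ρ - σ)(b)` -/
def Tk (p : ι → ℝ) (w : ι → EE n) (k : ℕ) : ℝ :=
  ∑ i, ∑ j, p i * p j * (inner ℝ (w i) (w j)) ^ (2 * k) - smo n k

/-- `-∬ √(1 - ⟨a, b⟩²) d(ρ - σ)(a) d(ρ - σ)(b)` -/
def QQ (p : ι → ℝ) (w : ι → EE n) : ℝ :=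
  mm n - ∑ i, ∑ j, p i * p j * √(1 - (inner ℝ (w i) (w j)) ^ 2)

/-- `∫ √(1 - ⟨a, v⟩²) dρ(a)` for unit vectors `v` -/
def hh (p : ι → ℝ) (w : ι → EE n) (v : EE n) : ℝ :=
  ∑ i, p i * √(1 - (inner ℝ (w i) v) ^ 2)

/-- the gradient of `v ↦ ∫ √(|v|² - ⟨a, v⟩²) dρ(a)` at unit vectors (a subgradient at `± w_i`) -/
def gh (p : ι → ℝ) (w : ι → EE n) (v : EE n) : EE n :=
  ∑ i, (p i / √(1 - (inner ℝ (w i) v) ^ 2)) • (v - (inner ℝ (w i) v : ℝ) • w i)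

/-- a bound for the fourth moments -/
def QB (p : ι → ℝ) (w : ι → EE n) (q : ℝ) : Prop :=
  ∀ e : EE n, ‖e‖ = 1 → (n : ℝ) * ∑ i, p i * (inner ℝ (w i) e) ^ 4 ≤ q

open Classical in
/-- the mass of the vectors near the line of `w i` -/
def nm (θ : ℝ) (p : ι → ℝ) (w : ι → EE n) (i : ι) : ℝ :=
  ∑ j, if 1 - (inner ℝ (w i) (w j)) ^ 2 ≤ θ ^ 2 then p j else 0

open Classical in
/-- the energy of the vectors near the line of `w i` -/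
def JJ (θ : ℝ) (p : ι → ℝ) (w : ι → EE n) (i : ι) : ℝ :=
  (n : ℝ) ^ 2 * ∑ j, if 1 - (inner ℝ (w i) (w j)) ^ 2 ≤ θ ^ 2
    then p j * (kk n (inner ℝ (w i) (w j)) + 1) else 0

/-- `|B|²` for `B = n ∑_{i ∈ b} p_i w_i w_iᵀ` -/
def B2 (b : Finset ι) (p : ι → ℝ) (w : ι → EE n) : ℝ :=
  (n : ℝ) ^ 2 * ∑ i ∈ b, ∑ j ∈ b, p i * p j * (inner ℝ (w i) (w j)) ^ 2

end fam

/-! ## Symmetries -/

/-- the linear isometries mapping `K` onto itself -/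
def GK {n : ℕ} (K : Set (EE n)) : Set (EE n ≃ₗᵢ[ℝ] EE n) := {g | g '' K = K}

/-- the group of the linear isometries mapping `K` onto itself acts irreducibly on `R^n` -/
def Irr {n : ℕ} (K : Set (EE n)) : Prop :=
  ∀ V : Submodule ℝ (EE n), (∀ g ∈ GK K, ∀ x ∈ V, g x ∈ V) → V = ⊥ ∨ V = ⊤

end

end PPX
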