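import Pool.Agent.PPX.Stmts

/-!
# PPX, module EMB: the wide part
-/

set_option autoImplicit false

namespace PPX

open MeasureTheory Set Filter Topology
open PPI PPG
open scoped Pointwise ENNReal

namespace EMB_

/-- the shell -/
def Sh (n : ℕ) : Set (EE n) := {x | (n : ℝ) / 4 < ‖x‖ ^ 2 ∧ ‖x‖ ^ 2 ≤ n}

lemma meas_Sh (n : ℕ) : MeasurableSet (Sh n) := by
  have h : Measurable fun x : EE n => ‖x‖ ^ 2 := by fun_prop
  exact (measurableSet_lt measurable_const h).inter (measurableSet_le h measurable_const)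

lemma meas_slab {n : ℕ} (w : EE n) : MeasurableSet {x : EE n | |inner ℝ x w| ≤ (2 : ℝ)} := by
  apply measurableSet_le _ measurable_const
  have : Continuous fun x : EE n => |inner ℝ x w| := by fun_prop
  exact this.measurable

lemma one_le_exp_bound (n : ℕ) (hn : 4 ≤ n) :
    (3 : ℝ) / 5 ≤ ((n : ℝ) / (1 + n)) ^ ((n : ℝ) / 2) := by
  have hn0 : (0 : ℝ) < n := by positivity
  have h1 : ((n : ℝ) / (1 + n)) = (1 + 1 / (n : ℝ))⁻¹ := by
    field_simp
    ring
  rw [h1, Real.inv_rpow (by positivity)]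
  have h2 : (1 + 1 / (n : ℝ)) ^ ((n : ℝ) / 2) ≤ Real.exp (1 / 2) := by
    have h3 : (1 + 1 / (n : ℝ)) ≤ Real.exp (1 / (n : ℝ)) := by
      have := Real.add_one_le_exp (1 / (n : ℝ))
      linarith
    calc (1 + 1 / (n : ℝ)) ^ ((n : ℝ) / 2) ≤ (Real.exp (1 / (n : ℝ))) ^ ((n : ℝ) / 2) := by
          apply Real.rpow_le_rpow (by positivity) h3 (by positivity)
      _ = Real.exp (1 / 2) := by
          rw [← Real.exp_mul]
          congr 1
          field_simp
  have h4 : Real.exp (1 / 2 : ℝ) ≤ 5 / 3 := by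
    have h5 : Real.exp (1 / 2 : ℝ) ^ 2 = Real.exp 1 := by
      rw [← Real.exp_nat_mul]
      norm_num
    have h6 := Real.exp_one_lt_d9
    have h7 : Real.exp (1 / 2 : ℝ) ^ 2 ≤ (5 / 3) ^ 2 := by
      rw [h5]
      norm_num at h6 ⊢
      linarith
    have h8 : 0 ≤ Real.exp (1 / 2 : ℝ) := (Real.exp_pos _).le
    nlinarith
  have hpos : 0 < (1 + 1 / (n : ℝ)) ^ ((n : ℝ) / 2) := by positivity
  rw [show (3 : ℝ) / 5 = (5 / 3)⁻¹ by norm_num]
  exact inv_anti₀ hpos (h2.trans h4)

lemma quarter_bound (n : ℕ) (hn : 4 ≤ n) :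
    ((n : ℝ) / 4 / (1 + (n : ℝ) / 4)) ^ ((n : ℝ) / 2) ≤ 1 / 4 := by
  have hn4 : (4 : ℝ) ≤ n := by exact_mod_cast hn
  have hn0 : (0 : ℝ) < n := by linarith
  have h1 : ((n : ℝ) / 4 / (1 + (n : ℝ) / 4)) = (1 + 4 / (n : ℝ))⁻¹ := by
    field_simp
    ring
  rw [h1, Real.inv_rpow (by positivity)]
  have h2 : 2 ≤ (1 + 4 / (n : ℝ)) ^ ((n : ℝ) / 4) := by
    have h3 := one_add_mul_self_le_rpow_one_add (s := 4 / (n : ℝ))
      (by have : (0 : ℝ) ≤ 4 / (n : ℝ) := by positivity
          linarith) (p := (n : ℝ) / 4) (by linarith)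
    have h4 : (n : ℝ) / 4 * (4 / (n : ℝ)) = 1 := by field_simp
    linarith
  have h5 : (1 + 4 / (n : ℝ)) ^ ((n : ℝ) / 2) = ((1 + 4 / (n : ℝ)) ^ ((n : ℝ) / 4)) ^ 2 := by
    rw [← Real.rpow_natCast, ← Real.rpow_mul (by positivity)]
    congr 1
    push_cast
    ring
  rw [h5, show (1 : ℝ) / 4 = 4⁻¹ by norm_num]
  apply inv_anti₀ (by norm_num)
  nlinarith

lemma measure_Sh (hMUN : Stmt_MUN) (n : ℕ) (hn : 4 ≤ n) :
    (7 : ℝ) / 20 ≤ (mun n).real (Sh n) := by
  obtain ⟨hp, hm, -⟩ := hMUN n (by omega)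
  have hn4 : (4 : ℝ) ≤ n := by exact_mod_cast hn
  have hn0 : (0 : ℝ) < n := by linarith
  have e : Sh n = {x : EE n | ‖x‖ ^ 2 ≤ (n : ℝ)} \ {x : EE n | ‖x‖ ^ 2 ≤ (n : ℝ) / 4} := by
    ext x
    simp only [Sh, Set.mem_ofPred_eq, Set.mem_sdiff, not_le]
    tauto
  have hsub : {x : EE n | ‖x‖ ^ 2 ≤ (n : ℝ) / 4} ⊆ {x : EE n | ‖x‖ ^ 2 ≤ (n : ℝ)} := by
    intro x hx
    simp only [Set.mem_ofPred_eq] at hx ⊢
    linarith
  have hms : MeasurableSet {x : EE n | ‖x‖ ^ 2 ≤ (n : ℝ) / 4} :=
    measurableSet_le (by fun_prop) measurable_const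
  rw [e, measureReal_sdiff hsub hms]
  have h1 : (mun n).real {x : EE n | ‖x‖ ^ 2 ≤ (n : ℝ)} =
      ((n : ℝ) / (1 + n)) ^ ((n : ℝ) / 2) := by
    rw [Measure.real, hm n hn0.le, ENNReal.toReal_ofReal (by positivity)]
  have h2 : (mun n).real {x : EE n | ‖x‖ ^ 2 ≤ (n : ℝ) / 4} =
      ((n : ℝ) / 4 / (1 + (n : ℝ) / 4)) ^ ((n : ℝ) / 2) := by
    rw [Measure.real, hm (n / 4) (by positivity), ENNReal.toReal_ofReal (by positivity)]
  rw [h1, h2]
  have h3 := one_le_exp_bound n hn
  have h4 := quarter_bound n hn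
  linarith

lemma inv_int (hMUN : Stmt_MUN) (n : ℕ) (hn : 1 ≤ n) (v w : EE n) (hv : ‖v‖ = 1)
    (hw : ‖w‖ = 1) :
    ∫ x in Sh n, (inner ℝ x v) ^ 2 ∂(mun n) = ∫ x in Sh n, (inner ℝ x w) ^ 2 ∂(mun n) := by
  obtain ⟨hp, -, hg⟩ := hMUN n hn
  -- reflection taking v to w
  let g : EE n ≃ₗᵢ[ℝ] EE n := (ℝ ∙ (v - w))ᗮ.reflection
  have hgv : g v = w := Submodule.reflection_sub (by rw [hv, hw])
  have hmap := hg g
  have hme : MeasurableEmbedding g := g.toHomeomorph.measurableEmbedding
  calc ∫ x in Sh n, (inner ℝ x v) ^ 2 ∂(mun n)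
      = ∫ x in g ⁻¹' (Sh n), (inner ℝ (g x) w) ^ 2 ∂(mun n) := by
        have e1 : g ⁻¹' (Sh n) = Sh n := by
          ext x
          simp [Sh]
        rw [e1]
        apply integral_congr_ae
        filter_upwards with x
        rw [← hgv, LinearIsometryEquiv.inner_map_map]
    _ = ∫ x in Sh n, (inner ℝ x w) ^ 2 ∂((mun n).map g) := by
        rw [hme.setIntegral_map]
    _ = ∫ x in Sh n, (inner ℝ x w) ^ 2 ∂(mun n) := by rw [hmap]

lemma integrable_sq (hMUN : Stmt_MUN) (n : ℕ) (hn : 1 ≤ n) (w : EE n) (hw : ‖w‖ = 1) :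
    IntegrableOn (fun x : EE n => (inner ℝ x w) ^ 2) (Sh n) (mun n) := by
  obtain ⟨hp, -, -⟩ := hMUN n hn
  apply Integrable.mono' (g := fun _ => (n : ℝ)) (integrable_const _)
  · have : Continuous fun x : EE n => (inner ℝ x w) ^ 2 := by fun_prop
    exact this.aestronglyMeasurable
  · rw [ae_restrict_iff' (meas_Sh n)]
    filter_upwards with x hx
    rw [Real.norm_eq_abs, abs_of_nonneg (by positivity)]
    have h1 : |inner ℝ x w| ≤ ‖x‖ := by
      have := abs_real_inner_le_norm x w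
      rwa [hw, mul_one] at this
    have h2 : (inner ℝ x w) ^ 2 ≤ ‖x‖ ^ 2 := by
      rw [← sq_abs (inner ℝ x w)]
      exact pow_le_pow_left₀ (abs_nonneg _) h1 2
    exact h2.trans hx.2

lemma second_moment (hMUN : Stmt_MUN) (n : ℕ) (hn : 1 ≤ n) (w : EE n) (hw : ‖w‖ = 1) :
    ∫ x in Sh n, (inner ℝ x w) ^ 2 ∂(mun n) ≤ (mun n).real (Sh n) := by
  have hp := (hMUN n hn).1
  have hn0 : (0 : ℝ) < n := by exact_mod_cast hn
  have h1 : ∑ j : Fin n, ∫ x in Sh n, (inner ℝ x (EuclideanSpace.single j (1 : ℝ))) ^ 2 ∂(mun n) =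
      n * ∫ x in Sh n, (inner ℝ x w) ^ 2 ∂(mun n) := by
    rw [Finset.sum_congr rfl fun j _ => inv_int hMUN n hn _ w (by simp) hw]
    simp
  have h2 : ∑ j : Fin n, ∫ x in Sh n, (inner ℝ x (EuclideanSpace.single j (1 : ℝ))) ^ 2 ∂(mun n) =
      ∫ x in Sh n, ‖x‖ ^ 2 ∂(mun n) := by
    rw [← integral_finsetSum _ fun j _ => integrable_sq hMUN n hn _ (by simp)]
    apply integral_congr_ae
    filter_upwards with x
    rw [EuclideanSpace.norm_sq_eq]
    apply Finset.sum_congr rfl
    intro j _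
    rw [EuclideanSpace.inner_single_right]
    simp
  have h3 : ∫ x in Sh n, ‖x‖ ^ 2 ∂(mun n) ≤ ∫ x in Sh n, (n : ℝ) ∂(mun n) := by
    apply setIntegral_mono_on _ (integrable_const _) (meas_Sh n) fun x hx => hx.2
    apply Integrable.mono' (g := fun _ => (n : ℝ)) (integrable_const _)
    · have : Continuous fun x : EE n => ‖x‖ ^ 2 := by fun_prop
      exact this.aestronglyMeasurable
    · rw [ae_restrict_iff' (meas_Sh n)]
      filter_upwards with x hx
      rw [Real.norm_eq_abs, abs_of_nonneg (by positivity)]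
      exact hx.2
  rw [setIntegral_const, smul_eq_mul] at h3
  have h4 : n * ∫ x in Sh n, (inner ℝ x w) ^ 2 ∂(mun n) ≤ n * (mun n).real (Sh n) := by
    rw [← h1, h2]
    linarith
  exact le_of_mul_le_mul_left h4 hn0

lemma slab_measure (hMUN : Stmt_MUN) (n : ℕ) (hn : 4 ≤ n) (w : EE n) (hw : ‖w‖ = 1) :
    (21 : ℝ) / 80 ≤ (mun n).real (Sh n ∩ {x | |inner ℝ x w| ≤ (2 : ℝ)}) := by
  have hp := (hMUN n (by omega)).1
  have h0 := measure_Sh hMUN n hn
  have h1 := second_moment hMUN n (by omega) w hw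
  have h2 : (mun n).real (Sh n) = (mun n).real (Sh n ∩ {x | |inner ℝ x w| ≤ (2 : ℝ)}) +
      (mun n).real (Sh n \ {x | |inner ℝ x w| ≤ (2 : ℝ)}) :=
    (measureReal_inter_add_sdiff (meas_slab w)).symm
  have h3 : 4 * (mun n).real (Sh n \ {x | |inner ℝ x w| ≤ (2 : ℝ)}) ≤
      ∫ x in Sh n, (inner ℝ x w) ^ 2 ∂(mun n) := by
    have h4 : ∫ x in Sh n \ {x | |inner ℝ x w| ≤ (2 : ℝ)}, (4 : ℝ) ∂(mun n) ≤
        ∫ x in Sh n \ {x | |inner ℝ x w| ≤ (2 : ℝ)}, (inner ℝ x w) ^ 2 ∂(mun n) := by
      apply setIntegral_mono_on (integrable_const _)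
        ((integrable_sq hMUN n (by omega) w hw).mono_set sdiff_subset)
        ((meas_Sh n).diff (meas_slab w))
      intro x hx
      have h5 : (2 : ℝ) < |inner ℝ x w| := by
        have := hx.2
        simp only [Set.mem_ofPred_eq, not_le] at this
        exact this
      rw [← sq_abs (inner ℝ x w)]
      nlinarith
    rw [setIntegral_const, smul_eq_mul] at h4
    have h6 : ∫ x in Sh n \ {x | |inner ℝ x w| ≤ (2 : ℝ)}, (inner ℝ x w) ^ 2 ∂(mun n) ≤
        ∫ x in Sh n, (inner ℝ x w) ^ 2 ∂(mun n) := by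
      apply setIntegral_mono_set (integrable_sq hMUN n (by omega) w hw)
      · filter_upwards with x
        positivity
      · exact (LE.le.eventuallyLE (show (Sh n \ {x | |inner ℝ x w| ≤ (2 : ℝ)}) ≤ Sh n from sdiff_subset))
    linarith
  linarith

end EMB_

open EMB_ in
/-- the wide part -/
theorem emb_proof (hCNB : Stmt_CNB) (hMUN : Stmt_MUN) : Stmt_EMB := by
  classical
  refine ⟨1 / 20, by norm_num, ?_⟩
  intro n ι _ p w b hn hp hw
  have hpr := (hMUN n (by omega)).1
  have hn4 : (4 : ℝ) ≤ n := by exact_mod_cast hn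
  have hn0 : (0 : ℝ) < n := by linarith
  obtain ⟨hk, hc1, hc2, -, -, -⟩ := hCNB n (by omega)
  have hcn : 0 < cn n := lt_of_lt_of_le (by positivity) hc1
  set S : ℝ := ∑ i ∈ b, p i with hS
  have hS0 : 0 ≤ S := Finset.sum_nonneg fun i _ => hp i
  have hcb0 : ∀ x i, 0 ≤ cb b p w x i := by
    intro x i
    unfold cb
    split_ifs
    · have := hp i
      positivity
    · exact le_rfl
  have hF0 : ∀ x : EE n, 0 ≤ min 1 (∑ i, cb b p w x i) := fun x =>
    le_min zero_le_one (Finset.sum_nonneg fun i _ => hcb0 x i)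
  rcases hS0.eq_or_lt with h0 | hSpos
  · rw [← h0, mul_zero, min_eq_right zero_le_one, mul_zero]
    exact integral_nonneg hF0
  -- the lower function
  set m : ℝ := min 1 ((n : ℝ) * S) with hm
  have hm0 : 0 ≤ m := le_min zero_le_one (by positivity)
  let L : EE n → ℝ := fun x => ∑ i ∈ b, (m / 4 * (p i / S)) *
    (Sh n ∩ {x | |inner ℝ x (w i)| ≤ (2 : ℝ)}).indicator (fun _ => (1 : ℝ)) x
  have hmi : ∀ i, MeasurableSet (Sh n ∩ {x | |inner ℝ x (w i)| ≤ (2 : ℝ)}) := fun i =>
    (meas_Sh n).inter (meas_slab (w i))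
  have hLint : Integrable L (mun n) := by
    apply integrable_finsetSum
    intro i _
    exact ((integrable_const (1 : ℝ)).indicator (hmi i)).const_mul _
  have hLeq : ∫ x, L x ∂(mun n) = ∑ i ∈ b, (m / 4 * (p i / S)) *
      (mun n).real (Sh n ∩ {x | |inner ℝ x (w i)| ≤ (2 : ℝ)}) := by
    rw [integral_finsetSum]
    · apply Finset.sum_congr rfl
      intro i _
      rw [integral_const_mul, integral_indicator_const _ (hmi i), smul_eq_mul, mul_one]
    · intro i _
      exact ((integrable_const (1 : ℝ)).indicator (hmi i)).const_mul _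
  have hFmeas : Measurable fun x : EE n => min 1 (∑ i, cb b p w x i) := by
    apply measurable_const.min
    apply Finset.measurable_sum
    intro i _
    unfold cb
    by_cases hi : i ∈ b
    · simp only [hi, true_and]
      apply Measurable.ite (meas_slab (w i))
      · have : Continuous fun x : EE n => (n : ℝ) / cn n * √(1 + ‖x‖ ^ 2) * p i / 2 := by
          fun_prop
        exact this.measurable
      · exact measurable_const
    · simp only [hi, false_and, if_false]
      exact measurable_const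
  have hFint : Integrable (fun x : EE n => min 1 (∑ i, cb b p w x i)) (mun n) := by
    apply Integrable.mono' (g := fun _ => (1 : ℝ)) (integrable_const _)
      hFmeas.aestronglyMeasurable
    filter_upwards with x
    rw [Real.norm_eq_abs, abs_of_nonneg (hF0 x)]
    exact min_le_left _ _
  have hLF : ∀ x, L x ≤ min 1 (∑ i, cb b p w x i) := by
    intro x
    by_cases hx : x ∈ Sh n
    · -- U
      set U : ℝ := ∑ i ∈ b, p i / S * (if |inner ℝ x (w i)| ≤ (2 : ℝ) then 1 else 0) with hU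
      have hLU : L x = m / 4 * U := by
        simp only [L, hU, Finset.mul_sum]
        apply Finset.sum_congr rfl
        intro i _
        by_cases h : |inner ℝ x (w i)| ≤ (2 : ℝ)
        · have hmem : x ∈ Sh n ∩ {x | |inner ℝ x (w i)| ≤ (2 : ℝ)} := ⟨hx, h⟩
          rw [Set.indicator_of_mem hmem, if_pos h]
          ring
        · rw [Set.indicator_of_notMem (fun h' => h h'.2), if_neg h]
          ring
      have hU0 : 0 ≤ U := by
        apply Finset.sum_nonneg
        intro i _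
        have := hp i
        split_ifs <;> positivity
      have hU1 : U ≤ 1 := by
        calc U ≤ ∑ i ∈ b, p i / S := by
              apply Finset.sum_le_sum
              intro i _
              have h1 : 0 ≤ p i / S := div_nonneg (hp i) hS0
              split_ifs
              · rw [mul_one]
              · rw [mul_zero]
                exact h1
          _ = 1 := by
              rw [← Finset.sum_div, ← hS]
              exact div_self hSpos.ne'
      have hsq : √(n : ℝ) / 2 ≤ √(1 + ‖x‖ ^ 2) := by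
        have h1 : √(n : ℝ) / 2 = √((n : ℝ) / 4) := by
          rw [Real.sqrt_div (by positivity)]
          congr 1
          rw [show (4 : ℝ) = 2 ^ 2 by norm_num, Real.sqrt_sq (by norm_num)]
        rw [h1]
        apply Real.sqrt_le_sqrt
        have := hx.1
        linarith
      have hcoef : (n : ℝ) / 4 ≤ (n : ℝ) / cn n * √(1 + ‖x‖ ^ 2) / 2 := by
        have h1 : (n : ℝ) / √(n : ℝ) ≤ (n : ℝ) / cn n :=
          div_le_div_of_nonneg_left hn0.le hcn hc2
        have h2 : (n : ℝ) / √(n : ℝ) = √(n : ℝ) := Real.div_sqrt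
        rw [h2] at h1
        have h3 : √(n : ℝ) * (√(n : ℝ) / 2) ≤ (n : ℝ) / cn n * √(1 + ‖x‖ ^ 2) :=
          mul_le_mul h1 hsq (by positivity) (by positivity)
        have h4 : √(n : ℝ) * √(n : ℝ) = n := Real.mul_self_sqrt hn0.le
        nlinarith
      have hsum : (n : ℝ) * S / 4 * U ≤ ∑ i, cb b p w x i := by
        calc (n : ℝ) * S / 4 * U = ∑ i ∈ b, (n : ℝ) / 4 * p i *
              (if |inner ℝ x (w i)| ≤ (2 : ℝ) then 1 else 0) := by
              rw [hU, Finset.mul_sum]
              apply Finset.sum_congr rfl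
              intro i _
              field_simp
          _ ≤ ∑ i ∈ b, cb b p w x i := by
              apply Finset.sum_le_sum
              intro i hi
              unfold cb
              by_cases h : |inner ℝ x (w i)| ≤ (2 : ℝ)
              · rw [if_pos h, if_pos ⟨hi, h⟩]
                have h1 := mul_le_mul_of_nonneg_right hcoef (hp i)
                linarith
              · rw [if_neg h, if_neg (fun h' => h h'.2)]
                simp
          _ ≤ ∑ i, cb b p w x i := by
              apply Finset.sum_le_sum_of_subset_of_nonneg (Finset.subset_univ b)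
              intro i _ _
              exact hcb0 x i
      rw [hLU]
      apply le_min
      · have h1 : m ≤ 1 := min_le_left _ _
        nlinarith
      · refine le_trans ?_ hsum
        have h1 : m ≤ (n : ℝ) * S := min_le_right _ _
        nlinarith
    · have : L x = 0 := by
        simp only [L]
        apply Finset.sum_eq_zero
        intro i _
        rw [Set.indicator_of_notMem (fun h' => hx h'.1), mul_zero]
      rw [this]
      exact hF0 x
  calc 1 / 20 * m ≤ ∑ i ∈ b, (m / 4 * (p i / S)) *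
        (mun n).real (Sh n ∩ {x | |inner ℝ x (w i)| ≤ (2 : ℝ)}) := by
        calc 1 / 20 * m ≤ m / 4 * (21 / 80) := by nlinarith
          _ = ∑ i ∈ b, (m / 4 * (p i / S)) * (21 / 80) := by
              rw [← Finset.sum_mul, ← Finset.mul_sum, ← Finset.sum_div, ← hS,
                div_self hSpos.ne', mul_one]
          _ ≤ _ := by
              apply Finset.sum_le_sum
              intro i _
              apply mul_le_mul_of_nonneg_left (slab_measure hMUN n hn (w i) (hw i))
              have := hp i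
              positivity
    _ = ∫ x, L x ∂(mun n) := hLeq.symm
    _ ≤ ∫ x, min 1 (∑ i, cb b p w x i) ∂(mun n) := integral_mono hLint hFint hLF

end PPX
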