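import Pool.Agent.PPX.Stmts

set_option autoImplicit false

namespace PPX

open MeasureTheory Set Filter Topology
open PPI PPG

namespace EW1_

theorem meas_dens (n : ℕ) (K : ℝ) :
    Measurable fun x : EE n => ENNReal.ofReal ((1 + ‖x‖ ^ 2) ^ (-((n : ℝ) / 2) - 1) / K) := by
  apply ENNReal.measurable_ofReal.comp
  exact ((measurable_const.add (measurable_norm.pow_const 2)).pow_const _).div_const _

theorem meas_ww (n : ℕ) (a : EE n) : Measurable fun x : EE n => ww x a := by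
  unfold ww
  refine Measurable.mul ?_ ?_
  · exact Real.continuous_sqrt.measurable.comp (measurable_const.add (measurable_norm.pow_const 2))
  · have h : Measurable fun x : EE n => (inner ℝ x a : ℝ) :=
      (continuous_id.inner continuous_const).measurable
    exact (measurable_const.add (h.pow_const 2)).pow_const _

theorem ww_nonneg {n : ℕ} (x a : EE n) : 0 ≤ ww x a := by
  unfold ww
  exact mul_nonneg (Real.sqrt_nonneg _) (Real.rpow_nonneg (by positivity) _)

theorem point (n : ℕ) (K : ℝ) (hK : 0 < K) (x a : EE n) :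
    ENNReal.ofReal ((1 + ‖x‖ ^ 2) ^ (-((n : ℝ) / 2) - 1) / K) * ENNReal.ofReal (ww x a)
      = ENNReal.ofReal (1 / K) * (ENNReal.ofReal ((1 + ‖x‖ ^ 2) ^ (-(((n : ℝ) + 1) / 2))) *
        ENNReal.ofReal ((1 + (inner ℝ x a) ^ 2) ^ (-((n : ℝ) / 2)))) := by
  have h1 : 0 < 1 + ‖x‖ ^ 2 := by positivity
  have h2 : (0 : ℝ) ≤ (1 + (inner ℝ x a) ^ 2) ^ (-((n : ℝ) / 2)) :=
    Real.rpow_nonneg (by positivity) _
  rw [← ENNReal.ofReal_mul (by positivity), ← ENNReal.ofReal_mul (Real.rpow_nonneg h1.le _),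
    ← ENNReal.ofReal_mul (by positivity)]
  congr 1
  unfold ww
  have h3 : (1 + ‖x‖ ^ 2) ^ (-((n : ℝ) / 2) - 1) * √(1 + ‖x‖ ^ 2)
      = (1 + ‖x‖ ^ 2) ^ (-(((n : ℝ) + 1) / 2)) := by
    rw [Real.sqrt_eq_rpow, ← Real.rpow_add h1]
    congr 1
    ring
  rw [← h3]
  field_simp

end EW1_

open EW1_ in
theorem ew1_proof (hRD1 : Stmt_RD1) (hC1D : Stmt_C1D) (hAVE : PPI.Stmt_AVE) : Stmt_EW1 := by
  intro n a hn ha
  have hK : 0 < kap n := (hAVE n (by omega)).1
  have hK' : 0 < kap (n - 1) := (hAVE (n - 1) (by omega)).1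
  have hlin : ∫⁻ x, ENNReal.ofReal (ww x a) ∂(mun n) = 1 := by
    unfold mun
    have hm : Measurable fun x : EE n => ENNReal.ofReal (ww x a) :=
      ENNReal.measurable_ofReal.comp (meas_ww n a)
    rw [lintegral_withDensity_eq_lintegral_mul _ (meas_dens n (kap n)) hm]
    simp only [Pi.mul_apply]
    have h1 : ∀ x : EE n, ENNReal.ofReal ((1 + ‖x‖ ^ 2) ^ (-((n : ℝ) / 2) - 1) / kap n) *
        ENNReal.ofReal (ww x a) = ENNReal.ofReal (1 / kap n) *
        (ENNReal.ofReal ((1 + ‖x‖ ^ 2) ^ (-(((n : ℝ) + 1) / 2))) *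
        ENNReal.ofReal ((1 + (inner ℝ x a) ^ 2) ^ (-((n : ℝ) / 2)))) :=
      fun x => point n (kap n) hK x a
    rw [lintegral_congr h1]
    rw [lintegral_const_mul' _ _ ENNReal.ofReal_ne_top]
    have hg : Measurable fun t : ℝ => ENNReal.ofReal ((1 + t ^ 2) ^ (-((n : ℝ) / 2))) := by
      apply ENNReal.measurable_ofReal.comp
      exact (measurable_const.add (measurable_id.pow_const 2)).pow_const _
    rw [hRD1 n a (fun t => ENNReal.ofReal ((1 + t ^ 2) ^ (-((n : ℝ) / 2)))) (by omega) ha hg]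
    have h2 : ∀ t : ℝ, ENNReal.ofReal ((1 + t ^ 2) ^ (-((n : ℝ) / 2))) *
        ENNReal.ofReal (1 / (1 + t ^ 2)) = ENNReal.ofReal ((1 + t ^ 2) ^ (-((n : ℝ) / 2) - 1)) := by
      intro t
      have ht : 0 < 1 + t ^ 2 := by positivity
      rw [← ENNReal.ofReal_mul (Real.rpow_nonneg ht.le _), Real.rpow_sub ht, Real.rpow_one]
      congr 1
      ring
    rw [lintegral_congr h2, hC1D n (by omega)]
    rw [← ENNReal.ofReal_mul hK'.le, ← ENNReal.ofReal_mul (by positivity)]
    have h3 : 1 / kap n * (kap (n - 1) * (kap n / kap (n - 1))) = 1 := by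
      field_simp
    rw [h3, ENNReal.ofReal_one]
  have hint : Integrable (fun x : EE n => ww x a) (mun n) := by
    refine ⟨(meas_ww n a).aestronglyMeasurable, ?_⟩
    rw [hasFiniteIntegral_iff_ofReal (Filter.Eventually.of_forall (fun x => ww_nonneg x a)), hlin]
    exact ENNReal.one_lt_top
  refine ⟨hint, ?_⟩
  rw [integral_eq_lintegral_of_nonneg_ae (Filter.Eventually.of_forall (fun x => ww_nonneg x a))
    (meas_ww n a).aestronglyMeasurable, hlin]
  simp

end PPX
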