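import Pool.Agent.PPX.Stmts

/-!
# Squad PPX (MP_0bf616_gt), module FAA: nearly isoperimetric bodies
-/

set_option autoImplicit false

namespace PPX

open MeasureTheory Set Filter Topology
open PPI PPG
open scoped Pointwise ENNReal

namespace FAA_

lemma vl_smul {n : ℕ} (K : Set (EE n)) {r : ℝ} (hr : 0 < r) : vl (r • K) = r ^ n * vl K := by
  unfold vl
  rw [Measure.addHaar_smul, ENNReal.toReal_mul, finrank_euclideanSpace_fin,
    abs_of_pos (by positivity), ENNReal.toReal_ofReal (by positivity)]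

lemma vl_pos {n : ℕ} {K : Set (EE n)} (hk : IsCompact K) (hi : (interior K).Nonempty) :
    0 < vl K := by
  unfold vl
  apply ENNReal.toReal_pos
  · have := (isOpen_interior.measure_pos volume hi).trans_le (measure_mono interior_subset)
    exact this.ne'
  · exact hk.measure_lt_top.ne

lemma vl_mono {n : ℕ} {K L : Set (EE n)} (hL : IsCompact L) (h : K ⊆ L) : vl K ≤ vl L :=
  ENNReal.toReal_mono hL.measure_lt_top.ne (measure_mono h)

lemma vl_trans {n : ℕ} (K : Set (EE n)) (z : EE n) : vl ((fun x => x + z) '' K) = vl K := by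
  unfold vl
  congr 1
  rw [Set.image_add_right, measure_preimage_add_right]

/-- the fourth moments of a family with small `D` -/
lemma qb {n₂ : ℕ} (h2 : ∀ (n k : ℕ) (ι : Type) [Fintype ι] (p : ι → ℝ) (w : ι → EE n) (D : ℝ)
    (e : Fin k → EE n), n₂ ≤ n → k ≤ n → IS p w → MI p w D → (∀ j, ‖e j‖ = 1) →
    (∀ x, ∑ j, (inner ℝ (e j) x) ^ 2 ≤ 2 * ‖x‖ ^ 2) →
    ∑ j, (n : ℝ) * ∑ i, p i * (inner ℝ (w i) (e j)) ^ 4 ≤ 200 * D + 4 * k / n)
    {n : ℕ} (hn : n₂ ≤ n) (hn1 : 1 ≤ n) {ι : Type} [Fintype ι] (p : ι → ℝ) (w : ι → EE n) (D : ℝ)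
    (hIS : IS p w) (hMI : MI p w D) : QB p w (200 * D + 4 / n) := by
  intro e he
  have h := h2 n 1 ι p w D (fun _ => e) hn hn1 hIS hMI (fun _ => he) ?_
  · simpa using h
  · intro x
    have h3 : (inner ℝ e x) ^ 2 ≤ ‖x‖ ^ 2 := by
      have h4 := abs_real_inner_le_norm e x
      rw [he, one_mul] at h4
      rw [← sq_abs]
      exact pow_le_pow_left₀ (abs_nonneg _) h4 2
    have h5 : ∑ _j : Fin 1, (inner ℝ e x) ^ 2 = (inner ℝ e x) ^ 2 := by simp
    rw [h5]
    nlinarith [sq_nonneg ‖x‖]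

end FAA_

open FAA_ in
theorem faa_proof (h1 : Stmt_THT) (h2 : Stmt_QBD) (h3 : Stmt_IS2) (h4 : PPG.Stmt_AP2)
    (h5 : PPI.Stmt_MON) (h6 : PPI.Stmt_AVE) : Stmt_FAA := by
  obtain ⟨c₁, n₁, hc₁, hT⟩ := h1
  obtain ⟨n₂, hQ⟩ := h2
  obtain ⟨n₃, hn₃⟩ := exists_nat_ge (8 / c₁)
  set c : ℝ := min (c₁ / 400) 1 with hcdef
  have hc : 0 < c := lt_min (by positivity) one_pos
  have hc1 : c ≤ 1 := min_le_right _ _
  have hc2 : c ≤ c₁ / 400 := min_le_left _ _
  refine ⟨c, max (max n₁ n₂) n₃, hc, ?_⟩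
  intro n K hnn hn hconv hcomp hint hex
  have hn1 : n₁ ≤ n := le_trans (le_trans (le_max_left _ _) (le_max_left _ _)) hnn
  have hn2 : n₂ ≤ n := le_trans (le_trans (le_max_right _ _) (le_max_left _ _)) hnn
  have hn3 : n₃ ≤ n := le_trans (le_max_right _ _) hnn
  obtain ⟨hfin, hmono, htr⟩ := h5 n hn
  have hnp : (0 : ℝ) < n := by positivity
  have hk : 0 < kap n := (h6 n (by omega)).1
  have hk1 : 0 < kap (n - 1) := (h6 (n - 1) (by omega)).1
  have hPn : 0 < Pn n := by
    unfold Pn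
    positivity
  have h8 : 8 / c₁ ≤ n := hn₃.trans (by exact_mod_cast hn3)
  have h4n : 4 / (n : ℝ) ≤ c₁ / 2 := by
    rw [div_le_div_iff₀ hnp two_pos]
    rw [div_le_iff₀ hc₁] at h8
    linarith
  -- polytopes
  have poly : ∀ (N : ℕ) (v : Fin N → EE n), IsCompact (Pol v) → 0 < vl (Pol v) →
      ∀ (A : EE n →L[ℝ] EE n) (t : ℝ), |A.det| * kap n = vl (Pol v) → 0 < t →
      vl (Pol v + t • (A '' Bn n)) ≤ vl (Pol v) * (1 + n * t * (1 + c / n)) →
      Pn n * vl (Pol v) ^ (n - 1) ≤ vl (projBody (Pol v)) := by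
    intro N v hPc hv A t hA ht hvol
    obtain ⟨ι, _, p, w, D, hIS, hMI, hmain, htube⟩ := h3 n N v hn hPc hv
    have h9 := (htube A t hA ht.le).trans hvol
    have h10 : Real.exp (D / n) ≤ 1 + c / n := by
      have h11 : 1 + n * t * Real.exp (D / n) ≤ 1 + n * t * (1 + c / n) :=
        le_of_mul_le_mul_left h9 hv
      have h12 : n * t * Real.exp (D / n) ≤ n * t * (1 + c / n) := by linarith
      exact le_of_mul_le_mul_left h12 (by positivity)
    have hD : D ≤ c := by
      have h13 : 1 + c / n ≤ Real.exp (c / n) := by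
        have := Real.add_one_le_exp (c / n)
        linarith
      have h14 : D / n ≤ c / n := Real.exp_le_exp.1 (h10.trans h13)
      exact (div_le_div_iff_of_pos_right hnp).1 h14
    have hqb := qb hQ hn2 (by omega) p w D hIS hMI
    refine hmain (hT n ι p w D _ 1 hn1 hIS hMI hqb le_rfl ?_ (hD.trans hc1) ?_)
    · exact Real.one_le_rpow (by exact_mod_cast (by omega : 1 ≤ n)) (by norm_num)
    · rw [one_pow, mul_one]
      linarith
  -- the centred case
  have key : ∀ K : Set (EE n), Convex ℝ K → IsCompact K → 0 ∈ interior K →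
      (∃ (A : EE n →L[ℝ] EE n) (t : ℝ), |A.det| * kap n = vl K ∧ 0 < t ∧
        vl (K + t • (A '' Bn n)) < (1 + (1 + c / n) * n * t) * vl K) →
      Pn n * vl K ^ (n - 1) ≤ vl (projBody K) := by
    rintro K hconv hcomp h0 ⟨A, t, hA, ht, hlt⟩
    have hvK : 0 < vl K := vl_pos hcomp ⟨0, h0⟩
    -- `δ` small
    have hev : ∀ᶠ δ : ℝ in 𝓝[>] 0,
        vl (K + t • (A '' Bn n)) < (1 - δ) ^ n * ((1 + (1 + c / n) * n * t) * vl K) := by
      have ht1 : Tendsto (fun δ : ℝ => (1 - δ) ^ n * ((1 + (1 + c / n) * n * t) * vl K))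
          (𝓝[>] 0) (𝓝 ((1 + (1 + c / n) * n * t) * vl K)) := by
        have e1 : ContinuousAt
            (fun δ : ℝ => (1 - δ) ^ n * ((1 + (1 + c / n) * n * t) * vl K)) 0 := by fun_prop
        have e2 := e1.tendsto
        simp only [sub_zero, one_pow, one_mul] at e2
        exact e2.mono_left nhdsWithin_le_nhds
      exact ht1.eventually_const_lt hlt
    have hev2 : ∀ᶠ δ : ℝ in 𝓝[>] 0, δ ∈ Ioo (0 : ℝ) 1 := Ioo_mem_nhdsGT one_pos
    have hlim : Tendsto (fun δ : ℝ => (1 - δ) ^ (n * (n - 1)) * (Pn n * vl K ^ (n - 1)))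
        (𝓝[>] 0) (𝓝 (Pn n * vl K ^ (n - 1))) := by
      have e1 : ContinuousAt
          (fun δ : ℝ => (1 - δ) ^ (n * (n - 1)) * (Pn n * vl K ^ (n - 1))) 0 := by fun_prop
      have e2 := e1.tendsto
      simp only [sub_zero, one_pow, one_mul] at e2
      exact e2.mono_left nhdsWithin_le_nhds
    refine le_of_tendsto hlim ?_
    filter_upwards [hev, hev2] with δ hδ hδ2
    obtain ⟨hδ0, hδ1⟩ := hδ2
    obtain ⟨N, v, hPc, hPK, hKP⟩ := h4 n K δ (by omega) hconv hcomp h0 hδ0 hδ1
    have hvP : (1 - δ) ^ n * vl K ≤ vl (Pol v) := by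
      rw [← vl_smul K (by linarith : (0 : ℝ) < 1 - δ)]
      exact vl_mono hPc hKP
    have h1δ : 0 < 1 - δ := by linarith
    have hvP0 : 0 < vl (Pol v) := by
      have : 0 < (1 - δ) ^ n * vl K := by positivity
      linarith
    have hvPK : vl (Pol v) ≤ vl K := vl_mono hcomp hPK
    set s : ℝ := (vl (Pol v) / vl K) ^ (1 / (n : ℝ)) with hs
    have hs0 : 0 < s := Real.rpow_pos_of_pos (by positivity) _
    have hsn : s ^ n = vl (Pol v) / vl K := by
      rw [hs, ← Real.rpow_natCast, ← Real.rpow_mul (by positivity)]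
      rw [one_div, inv_mul_cancel₀ hnp.ne', Real.rpow_one]
    have hs1 : s ≤ 1 := by
      rw [hs]
      refine Real.rpow_le_one (by positivity) ?_ (by positivity)
      rw [div_le_one hvK]
      exact hvPK
    have hA' : |(s • A).det| * kap n = vl (Pol v) := by
      have e3 : (s • A).det = s ^ n * A.det := by
        unfold ContinuousLinearMap.det
        rw [ContinuousLinearMap.toLinearMap_smul, LinearMap.det_smul, finrank_euclideanSpace_fin]
      rw [e3, abs_mul, abs_of_pos (by positivity), hsn, mul_assoc, hA]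
      field_simp
    have hsub : Pol v + t • ((s • A) '' Bn n) ⊆ K + t • (A '' Bn n) := by
      refine Set.add_subset_add hPK ?_
      refine Set.smul_set_mono ?_
      rintro _ ⟨x, hx, rfl⟩
      refine ⟨s • x, ?_, ?_⟩
      · unfold Bn at hx ⊢
        rw [mem_closedBall_zero_iff] at hx ⊢
        rw [norm_smul, Real.norm_eq_abs, abs_of_pos hs0]
        have := norm_nonneg x
        nlinarith
      · rw [map_smul]
        rfl
    have hcomp2 : IsCompact (K + t • (A '' Bn n)) := by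
      refine hcomp.add ?_
      refine IsCompact.smul t ?_
      unfold Bn
      exact (isCompact_closedBall _ _).image A.continuous
    have hvol : vl (Pol v + t • ((s • A) '' Bn n)) ≤
        vl (Pol v) * (1 + n * t * (1 + c / n)) := by
      refine (vl_mono hcomp2 hsub).trans (hδ.le.trans ?_)
      have hb : 0 ≤ 1 + n * t * (1 + c / n) := by positivity
      calc (1 - δ) ^ n * ((1 + (1 + c / n) * n * t) * vl K)
          = ((1 - δ) ^ n * vl K) * (1 + n * t * (1 + c / n)) := by ring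
        _ ≤ vl (Pol v) * (1 + n * t * (1 + c / n)) := mul_le_mul_of_nonneg_right hvP hb
    have hfin2 := poly N v hPc hvP0 (s • A) t hA' ht hvol
    have h9 : vl (projBody (Pol v)) ≤ vl (projBody K) :=
      ENNReal.toReal_mono (hfin K hcomp) (measure_mono (hmono _ _ hPc hcomp hPK))
    refine le_trans ?_ (hfin2.trans h9)
    have h10 : (1 - δ) ^ (n * (n - 1)) * vl K ^ (n - 1) ≤ vl (Pol v) ^ (n - 1) := by
      rw [pow_mul, ← mul_pow]
      exact pow_le_pow_left₀ (by positivity) hvP _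
    calc (1 - δ) ^ (n * (n - 1)) * (Pn n * vl K ^ (n - 1))
        = Pn n * ((1 - δ) ^ (n * (n - 1)) * vl K ^ (n - 1)) := by ring
      _ ≤ Pn n * vl (Pol v) ^ (n - 1) := mul_le_mul_of_nonneg_left h10 hPn.le
  -- translation
  obtain ⟨z, hz⟩ := hint
  set K' := (fun x => x + (-z)) '' K with hK'
  have hvl : vl K' = vl K := vl_trans K (-z)
  have hproj : projBody K' = projBody K := htr K (-z)
  have hc' : IsCompact K' := hcomp.image (by fun_prop)
  have hconv' : Convex ℝ K' := by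
    have : K' = (-z) +ᵥ K := by
      ext x
      simp only [hK', mem_image, Set.mem_vadd_set, vadd_eq_add]
      constructor
      · rintro ⟨y, hy, rfl⟩
        exact ⟨y, hy, by abel⟩
      · rintro ⟨y, hy, rfl⟩
        exact ⟨y, hy, by abel⟩
    rw [this]
    exact hconv.vadd _
  have h0' : (0 : EE n) ∈ interior K' := by
    have e1 : interior K' = (fun x => x + (-z)) '' interior K := by
      have := (Homeomorph.addRight (-z)).image_interior K
      exact this.symm
    rw [e1]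
    exact ⟨z, hz, by simp⟩
  obtain ⟨A, t, hA, ht, hlt⟩ := hex
  have r1 := key K' hconv' hc' h0' ⟨A, t, by rw [hvl]; exact hA, ht, by
    have e2 : K' + t • (A '' Bn n) = (fun x => x + (-z)) '' (K + t • (A '' Bn n)) := by
      ext x
      simp only [hK', Set.mem_add, mem_image]
      constructor
      · rintro ⟨_, ⟨y, hy, rfl⟩, b, hb, rfl⟩
        exact ⟨y + b, ⟨y, hy, b, hb, rfl⟩, by abel⟩
      · rintro ⟨_, ⟨y, hy, b, hb, rfl⟩, rfl⟩
        exact ⟨y + -z, ⟨y, hy, rfl⟩, b, hb, by abel⟩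
    rw [e2, vl_trans, hvl]
    exact hlt⟩
  rw [hvl, hproj] at r1
  exact r1

end PPX
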