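import Pool.Agent.PPX.Stmts

set_option autoImplicit false

namespace PPX

open MeasureTheory Set Filter Topology
open PPI PPG
open scoped Pointwise ENNReal

namespace FBB_

theorem smul_vol {n : ℕ} (K P : Set (EE n)) (hK : IsCompact K) (hP : IsCompact P) (δ : ℝ)
    (h0 : 0 < δ) (h1 : δ < 1) (hsub : (1 - δ) • K ⊆ P) : (1 - δ) ^ n * vl K ≤ vl P := by
  have h2 : volume ((1 - δ) • K) = ENNReal.ofReal |(1 - δ) ^ n| * volume K := by
    have h3 := Measure.addHaar_smul (volume : Measure (EE n)) (1 - δ) K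
    rwa [finrank_euclideanSpace_fin] at h3
  have h4 : 0 ≤ (1 - δ) ^ n := pow_nonneg (by linarith) n
  rw [abs_of_nonneg h4] at h2
  have h5 : vl ((1 - δ) • K) = (1 - δ) ^ n * vl K := by
    unfold vl
    rw [h2, ENNReal.toReal_mul, ENNReal.toReal_ofReal h4]
  rw [← h5]
  unfold vl
  exact ENNReal.toReal_mono hP.measure_lt_top.ne (measure_mono hsub)

theorem vl_pos {n : ℕ} (K : Set (EE n)) (hK : IsCompact K) (hi : (interior K).Nonempty) :
    0 < vl K := by
  unfold vl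
  rw [ENNReal.toReal_pos_iff]
  refine ⟨?_, hK.measure_lt_top⟩
  exact lt_of_lt_of_le (isOpen_interior.measure_pos volume hi) (measure_mono interior_subset)

/-- the asymptotic facts -/
theorem asy (c C cT : ℝ) (hc : 0 < c) (hcT : 0 < cT) :
    ∃ n₀ : ℕ, ∀ n : ℕ, n₀ ≤ n → (C * Real.log n + 1) / c ≤ (n : ℝ) ^ (1 / 100 : ℝ) ∧
      408 * (n : ℝ) ^ (-(79 / 300) : ℝ) ≤ cT := by
  have h1 : (fun x : ℝ => C * Real.log x + 1) =o[atTop] fun x : ℝ => x ^ (1 / 100 : ℝ) := by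
    have h2 := (isLittleO_log_rpow_atTop (r := (1 / 100 : ℝ)) (by norm_num)).const_mul_left C
    have h3 : (fun _ : ℝ => (1 : ℝ)) =o[atTop] fun x : ℝ => x ^ (1 / 100 : ℝ) := by
      rw [Asymptotics.isLittleO_const_left]
      right
      exact tendsto_norm_atTop_atTop.comp (tendsto_rpow_atTop (by norm_num))
    exact h2.add h3
  have h4 := (h1.bound hc).and (eventually_ge_atTop (0 : ℝ))
  have h5 : Tendsto (fun x : ℝ => 408 * x ^ (-(79 / 300) : ℝ)) atTop (𝓝 (408 * 0)) :=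
    (tendsto_rpow_neg_atTop (by norm_num)).const_mul 408
  have h6 : ∀ᶠ x : ℝ in atTop, 408 * x ^ (-(79 / 300) : ℝ) < cT :=
    h5.eventually_lt_const (by linarith)
  have h7 := (tendsto_natCast_atTop_atTop (R := ℝ)).eventually (h4.and h6)
  obtain ⟨n₀, hn₀⟩ := eventually_atTop.1 h7
  refine ⟨n₀, fun n hn => ?_⟩
  obtain ⟨⟨h8, h9⟩, h10⟩ := hn₀ n hn
  refine ⟨?_, h10.le⟩
  rw [div_le_iff₀ hc]
  have h11 : ‖((n : ℝ) ^ (1 / 100 : ℝ))‖ = (n : ℝ) ^ (1 / 100 : ℝ) := by
    rw [Real.norm_eq_abs, abs_of_nonneg (Real.rpow_nonneg h9 _)]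
  rw [h11] at h8
  have h12 := le_abs_self (C * Real.log n + 1)
  rw [Real.norm_eq_abs] at h8
  linarith

/-- the core -/
theorem core (hTHT : Stmt_THT) (hQBD : Stmt_QBD) (hIMG : Stmt_IMG) (hCNB : Stmt_CNB)
    (hCRE : PPG.Stmt_CRE) :
    ∃ n₀ : ℕ, ∀ (n : ℕ) (K : Set (EE n)) (ι : Type) [Fintype ι] (p : ι → ℝ) (w : ι → EE n)
      (D : ℝ), n₀ ≤ n → IsCompact K → Irr K → IS p w → MI p w D →
      (∀ h ∈ GK K, ∀ x, ∑ i, p i * (inner ℝ (w i) (h x)) ^ 4 =
        ∑ i, p i * (inner ℝ (w i) x) ^ 4) → X0 n ≤ Real.exp D * XT p w := by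
  obtain ⟨cT, nT, hcT, hT⟩ := hTHT
  obtain ⟨nQ, hQ⟩ := hQBD
  obtain ⟨c, C, hc, hc1, hC, hR⟩ := hCRE
  obtain ⟨nA, hA⟩ := asy c C cT hc hcT
  refine ⟨max (max nT nQ) (max nA 64), ?_⟩
  intro n K ι _ p w D hn hK hirr hIS hMI hinv
  have hnT : nT ≤ n := le_trans (le_trans (le_max_left _ _) (le_max_left _ _)) hn
  have hnQ : nQ ≤ n := le_trans (le_trans (le_max_right _ _) (le_max_left _ _)) hn
  have hnA : nA ≤ n := le_trans (le_trans (le_max_left _ _) (le_max_right _ _)) hn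
  have hn64 : 64 ≤ n := le_trans (le_trans (le_max_right _ _) (le_max_right _ _)) hn
  obtain ⟨hA1, hA2⟩ := hA n hnA
  obtain ⟨hD0, hXT⟩ := hR n ι p w D (by omega) hIS hMI
  obtain ⟨hkap, -, -, -, -, hX0⟩ := hCNB n (by omega)
  have hnR : (64 : ℝ) ≤ n := by exact_mod_cast hn64
  have hlog : 0 ≤ Real.log n := Real.log_nonneg (by linarith)
  set L : ℝ := (C * Real.log n + 1) / c with hL
  have hL1 : 1 ≤ L := by
    rw [hL, le_div_iff₀ hc]
    have := mul_nonneg hC.le hlog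
    linarith
  rcases le_or_gt L D with hLD | hLD
  · -- large D
    have h1 : C * Real.log n + 1 ≤ c * D := by
      rw [hL, div_le_iff₀ hc] at hLD
      linarith
    have h2 : √(Real.exp 1) ≤ Real.exp D * Real.exp (-((1 - c) * D + C * Real.log n)) := by
      rw [← Real.exp_add]
      have h3 : √(Real.exp 1) = Real.exp (1 / 2) := by
        rw [Real.sqrt_eq_iff_mul_self_eq (Real.exp_pos _).le (Real.exp_pos _).le, ← Real.exp_add]
        norm_num
      rw [h3]
      apply Real.exp_le_exp.2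
      nlinarith
    calc X0 n ≤ √(Real.exp 1) * √((n.factorial : ℝ) / (n : ℝ) ^ n) := hX0
      _ ≤ (Real.exp D * Real.exp (-((1 - c) * D + C * Real.log n))) *
            √((n.factorial : ℝ) / (n : ℝ) ^ n) :=
          mul_le_mul_of_nonneg_right h2 (Real.sqrt_nonneg _)
      _ = Real.exp D * (√((n.factorial : ℝ) / (n : ℝ) ^ n) *
            Real.exp (-((1 - c) * D + C * Real.log n))) := by ring
      _ ≤ Real.exp D * XT p w := mul_le_mul_of_nonneg_left hXT (Real.exp_pos _).le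
  · -- small D
    have hn0 : (0 : ℝ) < n := by linarith
    set y : ℝ := (n : ℝ) ^ (1 / 3 : ℝ) with hy
    have hy1 : 1 ≤ y := Real.one_le_rpow (by linarith) (by norm_num)
    have hy3 : y ^ 3 = n := by
      rw [hy, ← Real.rpow_natCast, ← Real.rpow_mul hn0.le]
      norm_num
    set k : ℕ := ⌊y⌋₊ with hk
    have hky : (k : ℝ) ≤ y := Nat.floor_le (by linarith)
    have hk1 : 1 ≤ k := by
      rw [hk, Nat.one_le_floor_iff]
      exact hy1
    have hk2 : y / 2 ≤ k := by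
      have h3 : y < k + 1 := Nat.lt_floor_add_one y
      have h4 : (1 : ℝ) ≤ k := by exact_mod_cast hk1
      linarith
    have hk3 : (k : ℝ) ^ 3 ≤ n := by
      rw [← hy3]
      exact pow_le_pow_left₀ (Nat.cast_nonneg k) hky 3
    have hkn : k ≤ n := by
      have h4 : (1 : ℝ) ≤ k := by exact_mod_cast hk1
      have h5 : (k : ℝ) ≤ (k : ℝ) ^ 3 := by
        nlinarith [mul_nonneg (sub_nonneg.2 h4) (sub_nonneg.2 h4), mul_nonneg (Nat.cast_nonneg (α := ℝ) k) (sub_nonneg.2 h4)]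
      exact_mod_cast h5.trans hk3
    have hkpos : (0 : ℝ) < k := by exact_mod_cast hk1
    set q : ℝ := 200 * L / k + 4 / n with hq
    have hQB : QB p w q := by
      intro e he
      obtain ⟨g, hg, hg2⟩ := hIMG n k K e hn64 hK hirr he hk3
      have h6 := hQ n k ι p w D (fun j => g j e) hnQ hkn hIS hMI
        (fun j => by rw [LinearIsometryEquiv.norm_map, he]) hg2
      have h7 : ∑ j : Fin k, (n : ℝ) * ∑ i, p i * (inner ℝ (w i) (g j e)) ^ 4 =
          k * ((n : ℝ) * ∑ i, p i * (inner ℝ (w i) e) ^ 4) := by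
        rw [Finset.sum_congr rfl fun j _ => by rw [hinv (g j) (hg j) e]]
        rw [Finset.sum_const, Finset.card_univ, Fintype.card_fin, nsmul_eq_mul]
      rw [h7] at h6
      have h8 : (n : ℝ) * ∑ i, p i * (inner ℝ (w i) e) ^ 4 ≤ (200 * D + 4 * k / n) / k := by
        rw [le_div_iff₀ hkpos]
        linarith
      refine h8.trans ?_
      rw [hq, add_div]
      have h9 : 4 * (k : ℝ) / n / k = 4 / n := by
        field_simp
      rw [h9]
      have h10 : 200 * D / k ≤ 200 * L / k := by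
        apply div_le_div_of_nonneg_right _ hkpos.le
        linarith
      linarith
    have hq2 : q * L ^ 6 ≤ cT := by
      have hL0 : 0 < L := by linarith
      have h11 : q ≤ 408 * L / y := by
        have h12 : 4 / (n : ℝ) ≤ 4 * L / k := by
          rw [div_le_div_iff₀ hn0 hkpos]
          have h13 : (k : ℝ) ≤ n := by exact_mod_cast hkn
          have h14 : (n : ℝ) ≤ L * n := by nlinarith
          linarith
        have h15 : 204 * L / k ≤ 408 * L / y := by
          rw [div_le_div_iff₀ hkpos (by linarith)]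
          nlinarith
        calc q = 200 * L / k + 4 / n := hq
          _ ≤ 200 * L / k + 4 * L / k := by linarith
          _ = 204 * L / k := by ring
          _ ≤ 408 * L / y := h15
      have h16 : L ^ 7 ≤ (n : ℝ) ^ (7 / 100 : ℝ) := by
        have h17 : L ^ 7 ≤ ((n : ℝ) ^ (1 / 100 : ℝ)) ^ 7 := pow_le_pow_left₀ hL0.le hA1 7
        rw [← Real.rpow_natCast, ← Real.rpow_natCast, ← Real.rpow_mul hn0.le] at h17
        rw [← Real.rpow_natCast]
        refine h17.trans (le_of_eq ?_)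
        norm_num
      have h18 : (n : ℝ) ^ (7 / 100 : ℝ) / y = (n : ℝ) ^ (-(79 / 300) : ℝ) := by
        rw [hy, ← Real.rpow_sub hn0]
        norm_num
      calc q * L ^ 6 ≤ (408 * L / y) * L ^ 6 :=
            mul_le_mul_of_nonneg_right h11 (pow_nonneg hL0.le 6)
        _ = 408 * (L ^ 7 / y) := by ring
        _ ≤ 408 * ((n : ℝ) ^ (7 / 100 : ℝ) / y) := by
            apply mul_le_mul_of_nonneg_left _ (by norm_num)
            exact div_le_div_of_nonneg_right h16 (by linarith)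
        _ ≤ cT := by rw [h18]; exact hA2
    exact hT n ι p w D q L hnT hIS hMI hQB hL1 hA1 hLD.le hq2

end FBB_

theorem fbb_proof (hTHT : Stmt_THT) (hQBD : Stmt_QBD) (hSYF : Stmt_SYF) (hIMG : Stmt_IMG)
    (hCEN : Stmt_CEN) (hCNB : Stmt_CNB) (hCRE : PPG.Stmt_CRE) (hAP2 : PPG.Stmt_AP2)
    (_hAVE : PPI.Stmt_AVE) : Stmt_FBB := by
  obtain ⟨n₀, h₀⟩ := FBB_.core hTHT hQBD hIMG hCNB hCRE
  refine ⟨n₀, ?_⟩
  intro n K hn hn2 hconv hcomp hint hirr
  have h0 := hCEN n K hn2 hconv hcomp hint hirr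
  have hvK := FBB_.vl_pos K hcomp hint
  have hPn : 0 ≤ Pn n := by
    unfold Pn kap vl
    positivity
  have key : ∀ δ : ℝ, 0 < δ → δ < 1 →
      Pn n * ((1 - δ) ^ n * vl K) ^ (n - 1) ≤ vl (projBody K) := by
    intro δ hδ0 hδ1
    obtain ⟨N, v, hPc, hPK, hKP⟩ := hAP2 n K δ (by omega) hconv hcomp h0 hδ0 hδ1
    have h1 := FBB_.smul_vol K (Pol v) hcomp hPc δ hδ0 hδ1 hKP
    have h2 : 0 < (1 - δ) ^ n * vl K := mul_pos (pow_pos (by linarith) n) hvK
    obtain ⟨ι, hι, p, w, D, hIS, hMI, hinv, himp⟩ :=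
      hSYF n N K v hn2 hcomp hirr hPc (h2.trans_le h1) hPK
    have h3 := himp (h₀ n K ι p w D hn hcomp hirr hIS hMI hinv)
    refine le_trans ?_ h3
    apply mul_le_mul_of_nonneg_left _ hPn
    exact pow_le_pow_left₀ h2.le h1 (n - 1)
  have hcont : Continuous fun δ : ℝ => Pn n * ((1 - δ) ^ n * vl K) ^ (n - 1) := by
    fun_prop
  have hlim : Tendsto (fun δ : ℝ => Pn n * ((1 - δ) ^ n * vl K) ^ (n - 1)) (𝓝[>] 0)
      (𝓝 (Pn n * ((1 - 0) ^ n * vl K) ^ (n - 1))) :=
    (hcont.tendsto 0).mono_left nhdsWithin_le_nhds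
  have hfin : Pn n * ((1 - 0) ^ n * vl K) ^ (n - 1) ≤ vl (projBody K) := by
    apply le_of_tendsto hlim
    filter_upwards [Ioo_mem_nhdsGT (show (0 : ℝ) < 1 by norm_num)] with δ hδ
    exact key δ hδ.1 hδ.2
  simpa using hfin

end PPX
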