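import Pool.Agent.PPX.Stmts2

/-!
# Squad PPX, module FBC: bodies with irreducible affine symmetry
-/

set_option autoImplicit false

namespace PPX

open MeasureTheory Set Filter Topology
open PPI PPG
open scoped Pointwise ENNReal

theorem fbc_proof (hFBB : Stmt_FBB) (hLIN : Stmt_LIN) (hAFF : Stmt_AFF) (hMON : PPI.Stmt_MON) :
    Stmt_FBC := by
  obtain ⟨n₀, h0⟩ := hFBB
  refine ⟨n₀, fun n K hn h2 hconv hcomp hint hirr => ?_⟩
  obtain ⟨T, z, hT, hI⟩ := hAFF n K (by omega) hconv hcomp hint hirr
  have hfun : (fun x : EE n => x + z) = Homeomorph.addRight z := rfl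
  have hKz_comp : IsCompact ((fun x : EE n => x + z) '' K) :=
    hcomp.image (by fun_prop)
  have hKz_conv : Convex ℝ ((fun x : EE n => x + z) '' K) := by
    have := hconv.translate z
    have h1 : (fun x : EE n => z + x) = fun x => x + z := funext fun x => add_comm _ _
    rwa [h1] at this
  have hKz_int : (interior ((fun x : EE n => x + z) '' K)).Nonempty := by
    rw [hfun, ← (Homeomorph.addRight z).image_interior]
    exact hint.image _
  have hTe : ((T.toContinuousLinearEquivOfDetNeZero hT : EE n ≃L[ℝ] EE n) : EE n → EE n) = T := by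
    funext x
    rfl
  have hT_int : (interior (T '' ((fun x : EE n => x + z) '' K))).Nonempty := by
    rw [← hTe]
    have h3 := (T.toContinuousLinearEquivOfDetNeZero hT).toHomeomorph.image_interior
      ((fun x : EE n => x + z) '' K)
    have h4 : ((T.toContinuousLinearEquivOfDetNeZero hT).toHomeomorph : EE n → EE n) =
      (T.toContinuousLinearEquivOfDetNeZero hT) := rfl
    rw [h4] at h3
    rw [← h3]
    exact hKz_int.image _
  have h5 := h0 n (T '' ((fun x : EE n => x + z) '' K)) hn h2
    (hKz_conv.is_linear_image T.toLinearMap.isLinear) (hKz_comp.image T.continuous) hT_int hI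
  rw [hLIN n _ T h2 hKz_comp hT, (hMON n h2).2.2 K z] at h5
  have hv1 : vl (T '' ((fun x : EE n => x + z) '' K)) = |T.det| * vl K := by
    unfold vl
    rw [Measure.addHaar_image_continuousLinearMap, ENNReal.toReal_mul,
      ENNReal.toReal_ofReal (abs_nonneg _)]
    congr 2
    have h6 : (fun x : EE n => x + z) '' K = (fun x => z + x) '' K := by
      congr 1
      funext x
      exact add_comm _ _
    rw [h6]
    rw [Set.image_add_left]
    exact measure_preimage_add volume (-z) K
  rw [hv1, mul_pow] at h5
  have hd : 0 < |T.det| ^ (n - 1) := pow_pos (abs_pos.2 hT) _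
  have h7 : |T.det| ^ (n - 1) * (Pn n * vl K ^ (n - 1)) ≤
      |T.det| ^ (n - 1) * vl (projBody K) := by
    calc |T.det| ^ (n - 1) * (Pn n * vl K ^ (n - 1)) =
        Pn n * (|T.det| ^ (n - 1) * vl K ^ (n - 1)) := by ring
      _ ≤ _ := h5
  exact le_of_mul_le_mul_left h7 hd

end PPX
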