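import Pool.Agent.PPX.Stmts

set_option autoImplicit false

namespace PPX

open MeasureTheory Set Filter Topology
open PPI PPG
open scoped ENNReal Pointwise

namespace GE4_

lemma sum_sub {N : ℕ} (p : Fin N → Prop) [DecidablePred p] (f : Fin N → ℝ)
    (h0 : ∀ i, ¬ p i → f i = 0) : ∑ i : {i // p i}, f i.1 = ∑ i, f i := by
  have h := Fintype.sum_subtype_add_sum_subtype p f
  have h2 : ∑ i : {i // ¬ p i}, f i.1 = 0 := by
    apply Finset.sum_eq_zero
    intro i _
    exact h0 i.1 i.2
  rw [h2, add_zero] at h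
  exact h

end GE4_

open GE4_ in
/-- GE4 -/
theorem ge4_proof (hR : Stmt_PRM) (h1 : PPI.Stmt_CEL) (h2 : PPI.Stmt_MKI) (h3 : PPI.Stmt_PRJ) :
    Stmt_GE4 := by
  classical
  intro n N v hn hc hv
  have hn1 : 1 ≤ n := by omega
  obtain ⟨-, -, -, -, -, -, hsum, hnn, hne⟩ := h1 n N v hn1 hc
  refine ⟨{i : Fin N // 0 < fa v i}, inferInstance, fun i => fa v i.1, fun i => v i.1,
    ⟨fun i => i.2, fun i => hne i.1 i.2, ?_⟩, ?_, ?_⟩
  · intro L c hL hLc hLn hb
    have hbd : ∀ i : Fin N, ∃ b : ℝ, ∀ x ∈ L, inner ℝ (v i) x ≤ b := by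
      intro i
      have hcont : ContinuousOn (fun x : EE n => inner ℝ (v i) x) L := by fun_prop
      obtain ⟨b, hb'⟩ := (hL.image_of_continuousOn hcont).bddAbove
      exact ⟨b, fun x hx => hb' (Set.mem_image_of_mem _ hx)⟩
    choose b hb' using hbd
    set c' : Fin N → ℝ := fun i => if h : 0 < fa v i then c ⟨i, h⟩ else b i with hc'
    have hcb : ∀ i, ∀ x ∈ L, inner ℝ (v i) x ≤ c' i := by
      intro i x hx
      by_cases h : 0 < fa v i
      · simp only [hc', h, dif_pos]
        exact hb ⟨i, h⟩ x hx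
      · simp only [hc', h, dif_neg, not_false_eq_true]
        exact hb' i x hx
    have hs : ∑ i : {i : Fin N // 0 < fa v i}, fa v i.1 * c i = ∑ i, fa v i * c' i := by
      have hh := sum_sub (fun i => 0 < fa v i) (fun i => fa v i * c' i) (by
        intro i hi
        have h0 : fa v i = 0 := le_antisymm (not_lt.mp hi) (hnn i)
        simp [h0])
      rw [← hh]
      apply Finset.sum_congr rfl
      intro i _
      have : c' i.1 = c i := by
        simp only [hc', i.2, dif_pos]
      rw [this]
    have hm := h2 n N v hn1 hc L c' hL hLc hLn hcb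
    rw [hs]
    exact hm
  · intro u hu
    have hs : ∑ i : {i : Fin N // 0 < fa v i}, fa v i.1 * |inner ℝ (v i.1) u| =
        ∑ i, fa v i * |inner ℝ (v i) u| :=
      sum_sub (fun i => 0 < fa v i) (fun i => fa v i * |inner ℝ (v i) u|) (by
        intro i hi
        have h0 : fa v i = 0 := le_antisymm (not_lt.mp hi) (hnn i)
        simp [h0])
    rw [hs]
    exact h3 n N v u hn hc hu
  · intro L x t hL hLc h0 hx hmax ht
    have hbd : ∀ i : Fin N, ∃ z ∈ L, ∀ y ∈ L, inner ℝ (v i) y ≤ inner ℝ (v i) z := by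
      intro i
      have hcont : ContinuousOn (fun x : EE n => inner ℝ (v i) x) L := by fun_prop
      obtain ⟨z, hz, hzm⟩ := hL.exists_isMaxOn ⟨0, h0⟩ hcont
      exact ⟨z, hz, fun y hy => hzm hy⟩
    choose z hzL hzm using hbd
    set x' : Fin N → EE n := fun i => if h : 0 < fa v i then x ⟨i, h⟩ else z i with hx'
    have hx'L : ∀ i, x' i ∈ L := by
      intro i
      by_cases h : 0 < fa v i
      · simp only [hx', h, dif_pos]
        exact hx ⟨i, h⟩
      · simp only [hx', h, dif_neg, not_false_eq_true]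
        exact hzL i
    have hx'm : ∀ i, ∀ y ∈ L, inner ℝ (v i) y ≤ inner ℝ (v i) (x' i) := by
      intro i y hy
      by_cases h : 0 < fa v i
      · simp only [hx', h, dif_pos]
        exact hmax ⟨i, h⟩ y hy
      · simp only [hx', h, dif_neg, not_false_eq_true]
        exact hzm i y hy
    have hs : ∑ i : {i : Fin N // 0 < fa v i}, fa v i.1 * inner ℝ (v i.1) (x i) =
        ∑ i, fa v i * inner ℝ (v i) (x' i) := by
      have hh := sum_sub (fun i => 0 < fa v i) (fun i => fa v i * inner ℝ (v i) (x' i)) (by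
        intro i hi
        have h0 : fa v i = 0 := le_antisymm (not_lt.mp hi) (hnn i)
        simp [h0])
      rw [← hh]
      apply Finset.sum_congr rfl
      intro i _
      have : x' i.1 = x i := by
        simp only [hx', i.2, dif_pos]
      rw [this]
    rw [hs]
    exact hR n N v L x' t hn1 hc hL hLc h0 hx'L hx'm ht

end PPX
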