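import Pool.Agent.PPX.Stmts

/-!
# Squad PPX (MP_0bf616_gt): GQF, a Gaussian integral
-/

set_option autoImplicit false

namespace PPX

open MeasureTheory Set Filter Topology
open PPI PPG
open scoped Pointwise ENNReal

namespace GQF_

/-- the rank one perturbation `x + c <x, b> b` -/
noncomputable def L {n : ℕ} (c : ℝ) (b : EE n) : EE n →ₗ[ℝ] EE n :=
  LinearMap.transvection (c • (innerSL ℝ b).toLinearMap) b

theorem L_apply {n : ℕ} (c : ℝ) (b x : EE n) : L c b x = x + (c * inner ℝ x b) • b := by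
  rw [L, LinearMap.transvection.apply]
  simp only [LinearMap.smul_apply, ContinuousLinearMap.coe_coe, innerSL_apply_apply, smul_eq_mul]
  rw [real_inner_comm]

theorem L_det {n : ℕ} (c : ℝ) (b : EE n) : LinearMap.det (L c b) = 1 + c * ‖b‖ ^ 2 := by
  rw [L, LinearMap.transvection.det]
  simp only [LinearMap.smul_apply, ContinuousLinearMap.coe_coe, innerSL_apply_apply, smul_eq_mul,
    real_inner_self_eq_norm_sq]

theorem L_norm {n : ℕ} (c : ℝ) (b x : EE n) :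
    ‖L c b x‖ ^ 2 = ‖x‖ ^ 2 + (2 * c + c ^ 2 * ‖b‖ ^ 2) * (inner ℝ x b) ^ 2 := by
  rw [L_apply, norm_add_sq_real, norm_smul, real_inner_smul_right, mul_pow, Real.norm_eq_abs,
    sq_abs]
  ring

theorem change {n : ℕ} (f : EE n →ₗ[ℝ] EE n) (hf : LinearMap.det f ≠ 0) (g : EE n → ℝ≥0∞)
    (hg : Measurable g) : ∫⁻ x, g (f x) = ENNReal.ofReal |(LinearMap.det f)⁻¹| * ∫⁻ x, g x := by
  have h1 := Measure.map_linearMap_addHaar_eq_smul_addHaar (μ := (volume : Measure (EE n))) hf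
  have h2 : Measurable f := f.continuous_of_finiteDimensional.measurable
  rw [← lintegral_map hg h2, h1, lintegral_smul_measure, smul_eq_mul]

theorem base (n : ℕ) (z : ℝ) (hz : 0 < z) :
    ∫⁻ x : EE n, ENNReal.ofReal (Real.exp (-(z * ‖x‖ ^ 2))) =
      ENNReal.ofReal ((Real.pi / z) ^ ((n : ℝ) / 2)) := by
  have h1 := GaussianFourier.integral_rexp_neg_mul_sq_norm (V := EE n) hz
  have h2 : Module.finrank ℝ (EE n) = n := by simp
  rw [h2] at h1
  have h3 : (fun v : EE n => Real.exp (-z * ‖v‖ ^ 2)) = fun v => Real.exp (-(z * ‖v‖ ^ 2)) := by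
    funext v; rw [neg_mul]
  rw [h3] at h1
  have hpos : 0 < (Real.pi / z) ^ ((n : ℝ) / 2) := Real.rpow_pos_of_pos (div_pos Real.pi_pos hz) _
  have hint : Integrable (fun v : EE n => Real.exp (-(z * ‖v‖ ^ 2))) := by
    by_contra h
    rw [integral_undef h] at h1
    exact hpos.ne h1
  rw [← h1, ofReal_integral_eq_lintegral_ofReal hint (ae_of_all _ fun x => (Real.exp_pos _).le)]

theorem meas {n : ℕ} (z w : ℝ) (b : EE n) :
    Measurable fun x : EE n =>
      ENNReal.ofReal (Real.exp (-(z * ‖x‖ ^ 2 + w * (inner ℝ x b) ^ 2))) := by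
  apply Measurable.ennreal_ofReal
  apply Continuous.measurable
  fun_prop

theorem one_rank (n : ℕ) (z w : ℝ) (b : EE n) (hz : 0 < z) (hw : 0 ≤ w) :
    ∫⁻ x : EE n, ENNReal.ofReal (Real.exp (-(z * ‖x‖ ^ 2 + w * (inner ℝ x b) ^ 2))) =
      ENNReal.ofReal ((√(1 + w * ‖b‖ ^ 2 / z))⁻¹ * (Real.pi / z) ^ ((n : ℝ) / 2)) := by
  by_cases hb : b = 0
  · subst hb
    simp only [inner_zero_right, norm_zero]
    have : ((√(1 + w * (0 : ℝ) ^ 2 / z))⁻¹ : ℝ) = 1 := by simp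
    rw [this, one_mul, ← base n z hz]
    simp
  have hb2 : 0 < ‖b‖ ^ 2 := by positivity
  have hnn : 0 ≤ w * ‖b‖ ^ 2 / z := by positivity
  set R : ℝ := √(1 + w * ‖b‖ ^ 2 / z) with hR
  have hR2 : R ^ 2 = 1 + w * ‖b‖ ^ 2 / z := Real.sq_sqrt (by linarith)
  have hRpos : 0 < R := Real.sqrt_pos.2 (by linarith)
  let c : ℝ := (R - 1) / ‖b‖ ^ 2
  have hc : 1 + c * ‖b‖ ^ 2 = R := by
    show 1 + (R - 1) / ‖b‖ ^ 2 * ‖b‖ ^ 2 = R
    rw [div_mul_cancel₀ _ hb2.ne']
    ring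
  have hc2 : 2 * c + c ^ 2 * ‖b‖ ^ 2 = w / z := by
    have h1 : (2 * c + c ^ 2 * ‖b‖ ^ 2) * ‖b‖ ^ 2 = w / z * ‖b‖ ^ 2 := by
      have h2 : (2 * c + c ^ 2 * ‖b‖ ^ 2) * ‖b‖ ^ 2 = (1 + c * ‖b‖ ^ 2) ^ 2 - 1 := by ring
      rw [h2, hc, hR2]
      field_simp
      ring
    exact mul_right_cancel₀ hb2.ne' h1
  have h3 : ∀ x : EE n, z * ‖L c b x‖ ^ 2 = z * ‖x‖ ^ 2 + w * (inner ℝ x b) ^ 2 := by
    intro x
    rw [L_norm, hc2]
    field_simp
  have h4 : ∫⁻ x : EE n, ENNReal.ofReal (Real.exp (-(z * ‖x‖ ^ 2 + w * (inner ℝ x b) ^ 2))) =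
      ∫⁻ x : EE n, ENNReal.ofReal (Real.exp (-(z * ‖L c b x‖ ^ 2))) := by
    refine lintegral_congr fun x => ?_
    rw [h3]
  have hm : Measurable fun x : EE n => ENNReal.ofReal (Real.exp (-(z * ‖x‖ ^ 2))) := by
    apply Measurable.ennreal_ofReal
    apply Continuous.measurable
    fun_prop
  rw [h4, change (L c b) (by rw [L_det, hc]; exact hRpos.ne') _ hm, L_det, hc, base n z hz,
    ← ENNReal.ofReal_mul (abs_nonneg _), abs_of_pos (inv_pos.2 hRpos)]

end GQF_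

open GQF_ in
theorem gqf_proof : Stmt_GQF := by
  intro n a b z u v hn ha hb hz hu hv
  set s : ℝ := inner ℝ a b with hs
  have hzu : 0 < z + u := by linarith
  set R : ℝ := √(1 + u / z) with hR
  have hR2 : R ^ 2 = 1 + u / z := Real.sq_sqrt (by positivity)
  have hRpos : 0 < R := Real.sqrt_pos.2 (by positivity)
  have hzR : z * R ^ 2 = z + u := by rw [hR2]; field_simp
  let c : ℝ := R - 1
  let d : ℝ := 1 - R⁻¹
  let b' : EE n := b - (d * s) • a
  have hdet : LinearMap.det (L c a) = R := by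
    rw [L_det, ha]
    show 1 + (R - 1) * 1 ^ 2 = R
    ring
  have h1 : ∀ x : EE n, z * ‖L c a x‖ ^ 2 = z * ‖x‖ ^ 2 + u * (inner ℝ x a) ^ 2 := by
    intro x
    rw [L_norm, ha]
    have h2 : 2 * c + c ^ 2 * 1 ^ 2 = u / z := by
      have : 2 * c + c ^ 2 * 1 ^ 2 = R ^ 2 - 1 := by
        show 2 * (R - 1) + (R - 1) ^ 2 * 1 ^ 2 = R ^ 2 - 1
        ring
      rw [this, hR2]; ring
    rw [h2]
    field_simp
  have h2 : ∀ x : EE n, inner ℝ (L c a x) b' = inner ℝ x b := by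
    intro x
    rw [L_apply]
    show inner ℝ (x + (c * inner ℝ x a) • a) (b - (d * s) • a) = inner ℝ x b
    rw [inner_add_left, inner_sub_right, inner_sub_right, real_inner_smul_left,
      real_inner_smul_left, real_inner_smul_right, real_inner_smul_right,
      real_inner_self_eq_norm_sq, ha, ← hs]
    have h3 : c - d - c * d = 0 := by
      show (R - 1) - (1 - R⁻¹) - (R - 1) * (1 - R⁻¹) = 0
      have : R * R⁻¹ = 1 := mul_inv_cancel₀ hRpos.ne'
      linear_combination this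
    linear_combination (inner ℝ x a * s) * h3
  have h3 : ‖b'‖ ^ 2 = 1 - s ^ 2 * (u / (z + u)) := by
    show ‖b - (d * s) • a‖ ^ 2 = _
    rw [norm_sub_sq_real, real_inner_smul_right, norm_smul, ha, hb, mul_one, Real.norm_eq_abs,
      sq_abs, real_inner_comm, ← hs]
    have h4 : (1 - d) ^ 2 = z / (z + u) := by
      show (1 - (1 - R⁻¹)) ^ 2 = z / (z + u)
      rw [← hzR]
      field_simp
      ring
    have h5 : u / (z + u) = 1 - (1 - d) ^ 2 := by
      rw [h4]; field_simp; ring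
    rw [h5]
    ring
  have h4 : ∫⁻ x : EE n, ENNReal.ofReal
        (Real.exp (-(z * ‖x‖ ^ 2 + u * (inner ℝ x a) ^ 2 + v * (inner ℝ x b) ^ 2))) =
      ∫⁻ x : EE n, (fun y : EE n => ENNReal.ofReal
        (Real.exp (-(z * ‖y‖ ^ 2 + v * (inner ℝ y b') ^ 2)))) (L c a x) := by
    refine lintegral_congr fun x => ?_
    show _ = ENNReal.ofReal
        (Real.exp (-(z * ‖L c a x‖ ^ 2 + v * (inner ℝ (L c a x) b') ^ 2)))
    rw [h1, h2]
  rw [h4, change (L c a) (by rw [hdet]; exact hRpos.ne') _ (meas z v b'), hdet,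
    one_rank n z v b' hz hv, ← ENNReal.ofReal_mul (abs_nonneg _), abs_of_pos (inv_pos.2 hRpos), h3]
  congr 1
  have hs1 : s ^ 2 ≤ 1 := by
    have h6 := abs_real_inner_le_norm a b
    rw [ha, hb, one_mul, ← hs] at h6
    rw [← sq_abs]
    have := abs_nonneg s
    nlinarith
  have huv : 0 ≤ u * v := mul_nonneg hu hv
  have hD : 0 < (z + u) * (z + v) - u * v * s ^ 2 := by
    have : u * v * s ^ 2 ≤ u * v * 1 := mul_le_mul_of_nonneg_left hs1 huv
    nlinarith [mul_pos hz hz, mul_nonneg hz.le hu, mul_nonneg hz.le hv]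
  have h7 : R⁻¹ * (√(1 + v * (1 - s ^ 2 * (u / (z + u))) / z))⁻¹ =
      z / √((z + u) * (z + v) - u * v * s ^ 2) := by
    rw [← mul_inv, hR, ← Real.sqrt_mul (by positivity)]
    have h8 : (1 + u / z) * (1 + v * (1 - s ^ 2 * (u / (z + u))) / z) =
        ((z + u) * (z + v) - u * v * s ^ 2) / z ^ 2 := by
      field_simp
      ring
    rw [h8, Real.sqrt_div hD.le, Real.sqrt_sq hz.le, inv_div]
  rw [← mul_assoc, h7]
  have h9 : (Real.pi / z) ^ ((n : ℝ) / 2) =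
      Real.pi ^ ((n : ℝ) / 2) * (z ^ (-(((n : ℝ) - 2) / 2)) / z) := by
    rw [Real.div_rpow Real.pi_pos.le hz.le, div_eq_mul_inv]
    congr 1
    rw [← Real.rpow_neg hz.le]
    have h10 : z ^ (-(((n : ℝ) - 2) / 2)) / z = z ^ (-(((n : ℝ) - 2) / 2) - 1) := by
      rw [Real.rpow_sub_one hz.ne']
    rw [h10]
    congr 1
    ring
  rw [h9]
  field_simp

end PPX
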