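import Pool.Agent.PPX.Stmts

/-!
# Squad PPX, module GRS: quadratic means for the cusp kernel
-/

set_option autoImplicit false

namespace PPX

open MeasureTheory Set Filter Topology
open PPI PPG
open scoped Pointwise ENNReal

namespace GRS_

variable {n : ℕ}

theorem ec_bt (k : ℕ) : ec (k + 1) * (2 * ((k + 1 : ℕ) : ℝ)) = bt k := by
  have h := Nat.succ_mul_centralBinom_succ k
  have h' : ((k : ℝ) + 1) * (Nat.centralBinom (k + 1) : ℝ) =
      2 * (2 * (k : ℝ) + 1) * (Nat.centralBinom k : ℝ) := by exact_mod_cast h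
  unfold ec bt
  have h2 : (2 * ((k + 1 : ℕ) : ℝ) - 1) = 2 * (k : ℝ) + 1 := by push_cast; ring
  rw [h2]
  have h3 : (2 * (k : ℝ) + 1) ≠ 0 := by positivity
  have h4 : ((4 : ℝ) ^ k) ≠ 0 := by positivity
  rw [pow_succ]
  push_cast
  field_simp
  linear_combination 2 * h'

/-- continuous functions are integrable over the sphere -/
theorem int_cont (hP : IsProbabilityMeasure (sph n)) (hn : ∀ᵐ v ∂(sph n), ‖v‖ = 1)
    (f : EE n → ℝ) (hf : Continuous f) : Integrable f (sph n) := by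
  obtain ⟨M, hM⟩ := (isCompact_sphere (0 : EE n) 1).exists_bound_of_continuousOn hf.continuousOn
  refine Integrable.of_bound hf.aestronglyMeasurable M ?_
  filter_upwards [hn] with v hv
  exact hM v (by simp [hv])

/-- the tangential part -/
noncomputable def tg (v : EE n) : EE n →ₗ[ℝ] EE n where
  toFun x := x - (inner ℝ v x : ℝ) • v
  map_add' := by
    intro x y
    rw [inner_add_right, add_smul]
    abel
  map_smul' := by
    intro c x
    rw [inner_smul_right, mul_smul, RingHom.id_apply, smul_sub]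

theorem tg_apply (v x : EE n) : tg v x = x - (inner ℝ v x : ℝ) • v := rfl

theorem tg_self (v : EE n) (hv : ‖v‖ = 1) : tg v v = 0 := by
  rw [tg_apply, real_inner_self_eq_norm_sq, hv]
  simp

theorem tg_norm (v x : EE n) (hv : ‖v‖ = 1) :
    ‖x‖ ^ 2 = ‖tg v x‖ ^ 2 + (inner ℝ v x) ^ 2 := by
  rw [tg_apply, norm_sub_sq_real, norm_smul, inner_smul_right, hv, real_inner_comm v x,
    Real.norm_eq_abs, mul_one, sq_abs]
  ring

theorem tg_cont (v : EE n) : Continuous (tg v) := by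
  show Continuous fun x : EE n => x - (inner ℝ v x : ℝ) • v
  fun_prop

/-! ## the double sum -/

theorem swap (a : ℕ → ℕ → ℝ) (T : ℕ → ℝ) (N : ℕ) :
    ∑ k ∈ Finset.Icc 2 N, ∑ l ∈ Finset.Icc 2 N, a k l * ∑ r ∈ Finset.Icc 2 (min k l), T r =
      ∑ r ∈ Finset.Icc 2 N, T r * ∑ k ∈ Finset.Icc r N, ∑ l ∈ Finset.Icc r N, a k l := by
  have h1 : ∀ k ∈ Finset.Icc 2 N, ∀ l ∈ Finset.Icc 2 N,
      a k l * ∑ r ∈ Finset.Icc 2 (min k l), T r =
        ∑ r ∈ Finset.Icc 2 N, if r ≤ k ∧ r ≤ l then T r * a k l else 0 := by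
    intro k hk l hl
    have h2 : Finset.Icc 2 (min k l) = (Finset.Icc 2 N).filter (fun r => r ≤ k ∧ r ≤ l) := by
      ext r
      simp only [Finset.mem_Icc, Finset.mem_filter] at *
      omega
    rw [h2, Finset.sum_filter, Finset.mul_sum]
    refine Finset.sum_congr rfl fun r _ => ?_
    split_ifs
    · ring
    · ring
  have h3 : ∀ r ∈ Finset.Icc 2 N,
      T r * ∑ k ∈ Finset.Icc r N, ∑ l ∈ Finset.Icc r N, a k l =
        ∑ k ∈ Finset.Icc 2 N, ∑ l ∈ Finset.Icc 2 N,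
          if r ≤ k ∧ r ≤ l then T r * a k l else 0 := by
    intro r hr
    have h2 : Finset.Icc r N = (Finset.Icc 2 N).filter (fun k => r ≤ k) := by
      ext k
      simp only [Finset.mem_Icc, Finset.mem_filter] at *
      omega
    rw [h2, Finset.sum_filter, Finset.mul_sum]
    refine Finset.sum_congr rfl fun k _ => ?_
    by_cases hk : r ≤ k
    · rw [if_pos hk, Finset.sum_filter, Finset.mul_sum]
      refine Finset.sum_congr rfl fun l _ => ?_
      by_cases hl : r ≤ l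
      · rw [if_pos hl, if_pos ⟨hk, hl⟩]
      · rw [if_neg hl, if_neg (fun h => hl h.2), mul_zero]
    · rw [if_neg hk, mul_zero]
      symm
      refine Finset.sum_eq_zero fun l _ => ?_
      rw [if_neg (fun h => hk h.1)]
  rw [Finset.sum_congr rfl fun k hk => Finset.sum_congr rfl fun l hl => h1 k hk l hl,
    Finset.sum_congr rfl h3]
  rw [Finset.sum_congr rfl fun k _ => Finset.sum_comm, Finset.sum_comm]

theorem sum_shift (f : ℕ → ℝ) (N : ℕ) :
    ∑ r ∈ Finset.Icc 2 N, f r = ∑ j ∈ Finset.range (N + 1 - 2), f (j + 2) := by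
  have h : Finset.Icc 2 N = Finset.Ico 2 (N + 1) := by
    ext r
    simp only [Finset.mem_Icc, Finset.mem_Ico]
    omega
  rw [h, Finset.sum_Ico_eq_sum_range]
  exact Finset.sum_congr rfl fun j _ => by rw [add_comm]

/-- the bound of a quadratic sum -/
theorem quad_bound (e T : ℕ → ℝ) (b : ℕ → ℕ → ℝ) (I : ℕ → ℕ → ℝ) (N : ℕ) (K Q : ℝ)
    (he : ∀ k, 1 ≤ k → 0 < e k) (hT : ∀ r, 0 ≤ T r) (hK : 0 ≤ K)
    (hI : ∀ k l, 2 ≤ k → 2 ≤ l → I k l ≤ b k l * ∑ r ∈ Finset.Icc 2 (min k l), T r)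
    (hb : ∀ r, 2 ≤ r → ∑ k ∈ Finset.Icc r N, ∑ l ∈ Finset.Icc r N, e k * e l * b k l ≤ K * e r)
    (hQ : HasSum (fun r : ℕ => e (r + 2) * T (r + 2)) Q) :
    ∑ k ∈ Finset.Icc 2 N, ∑ l ∈ Finset.Icc 2 N, e k * e l * I k l ≤ K * Q := by
  have h1 : ∑ k ∈ Finset.Icc 2 N, ∑ l ∈ Finset.Icc 2 N, e k * e l * I k l ≤
      ∑ k ∈ Finset.Icc 2 N, ∑ l ∈ Finset.Icc 2 N,
        (e k * e l * b k l) * ∑ r ∈ Finset.Icc 2 (min k l), T r := by
    refine Finset.sum_le_sum fun k hk => Finset.sum_le_sum fun l hl => ?_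
    have hk2 := (Finset.mem_Icc.1 hk).1
    have hl2 := (Finset.mem_Icc.1 hl).1
    have h2 : 0 ≤ e k * e l := by
      have := he k (by omega)
      have := he l (by omega)
      positivity
    calc e k * e l * I k l ≤ e k * e l * (b k l * ∑ r ∈ Finset.Icc 2 (min k l), T r) :=
          mul_le_mul_of_nonneg_left (hI k l hk2 hl2) h2
      _ = _ := by ring
  refine h1.trans ?_
  rw [swap (fun k l => e k * e l * b k l) T N]
  have h3 : ∑ r ∈ Finset.Icc 2 N,
      T r * ∑ k ∈ Finset.Icc r N, ∑ l ∈ Finset.Icc r N, e k * e l * b k l ≤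
      ∑ r ∈ Finset.Icc 2 N, K * (e r * T r) := by
    refine Finset.sum_le_sum fun r hr => ?_
    have hr2 := (Finset.mem_Icc.1 hr).1
    calc _ ≤ T r * (K * e r) := mul_le_mul_of_nonneg_left (hb r hr2) (hT r)
      _ = _ := by ring
  refine h3.trans ?_
  rw [← Finset.mul_sum, sum_shift]
  refine mul_le_mul_of_nonneg_left ?_ hK
  refine sum_le_hasSum _ (fun r _ => ?_) hQ
  have := he (r + 2) (by omega)
  exact mul_nonneg this.le (hT _)

/-! ## isotropy -/

variable {ι : Type} [Fintype ι] {p : ι → ℝ} {w : ι → EE n}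

theorem iso_vec (hn : 1 ≤ n) (h : IS p w) (v : EE n) :
    ∑ i, (p i * (inner ℝ (w i) v : ℝ)) • w i = (1 / (n : ℝ)) • v := by
  have hn0 : (n : ℝ) ≠ 0 := by positivity
  have h1 : ∀ x y : EE n, (n : ℝ) * ∑ i, p i * ((inner ℝ (w i) x : ℝ) * inner ℝ (w i) y) =
      inner ℝ x y := by
    intro x y
    have hxy := h.iso (x + y)
    have hx := h.iso x
    have hy := h.iso y
    rw [norm_add_sq_real] at hxy
    have e : ∑ i, p i * (inner ℝ (w i) (x + y) : ℝ) ^ 2 =
        ∑ i, p i * (inner ℝ (w i) x : ℝ) ^ 2 +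
          2 * ∑ i, p i * ((inner ℝ (w i) x : ℝ) * inner ℝ (w i) y) +
          ∑ i, p i * (inner ℝ (w i) y : ℝ) ^ 2 := by
      rw [Finset.mul_sum, ← Finset.sum_add_distrib, ← Finset.sum_add_distrib]
      refine Finset.sum_congr rfl fun i _ => ?_
      rw [inner_add_right]
      ring
    rw [e] at hxy
    linear_combination (1 / 2) * hxy - (1 / 2) * hx - (1 / 2) * hy
  refine ext_inner_right ℝ fun y => ?_
  rw [sum_inner, inner_smul_left]
  have h2 := h1 v y
  have h3 : ∑ i, (inner ℝ ((p i * (inner ℝ (w i) v : ℝ)) • w i) y : ℝ) =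
      ∑ i, p i * ((inner ℝ (w i) v : ℝ) * inner ℝ (w i) y) :=
    Finset.sum_congr rfl fun i _ => by
      rw [inner_smul_left]
      simp only [conj_trivial]
      ring
  rw [h3, ← h2]
  simp only [conj_trivial]
  field_simp

theorem F_small (hn : 1 ≤ n) (h : IS p w) (v : EE n) (hv : ‖v‖ = 1) (k : ℕ) (hk : k ≤ 1) :
    Fk p w k v = 0 := by
  have hn0 : (n : ℝ) ≠ 0 := by positivity
  interval_cases k
  · simp [Fk, smo, h.psum]
  · have h1 := h.iso v
    rw [hv] at h1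
    simp only [Fk, smo, Finset.range_one, Finset.prod_singleton, mul_one]
    push_cast
    rw [sub_eq_zero]
    have : (n : ℝ) * ∑ i, p i * (inner ℝ (w i) v : ℝ) ^ 2 = 1 := by rw [h1]; norm_num
    field_simp
    linarith

theorem G_small (hn : 1 ≤ n) (h : IS p w) (v : EE n) (k : ℕ) (hk : k ≤ 1) :
    Gk p w k v = 0 := by
  interval_cases k
  · simp [Gk]
  · have h1 := iso_vec hn h v
    have h2 : smo n 1 = 1 / (n : ℝ) := by
      simp [smo]
    simp only [Gk, h2]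
    have h3 : ∑ i, (p i * (inner ℝ (w i) v : ℝ) ^ (2 * 1 - 1)) • w i = (1 / (n : ℝ)) • v := by
      rw [← h1]
      refine Finset.sum_congr rfl fun i _ => ?_
      norm_num
    rw [h3, sub_self, smul_zero]

theorem range_Icc {M : Type} [AddCommMonoid M] (f : ℕ → M) (hf : ∀ k, k ≤ 1 → f k = 0) (N : ℕ) :
    ∑ k ∈ Finset.range (N + 1), f k = ∑ k ∈ Finset.Icc 2 N, f k := by
  symm
  refine Finset.sum_subset ?_ ?_
  · intro k hk
    simp only [Finset.mem_Icc, Finset.mem_range] at *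
    omega
  · intro k hk hk'
    simp only [Finset.mem_Icc, Finset.mem_range] at *
    exact hf k (by omega)

/-! ## the pointwise series -/

theorem inner_sq_lt (x v : EE n) (hx : ‖x‖ = 1) (hv : ‖v‖ = 1) (h1 : v ≠ x) (h2 : v ≠ -x) :
    (inner ℝ x v : ℝ) ^ 2 < 1 := by
  by_contra hc
  push Not at hc
  set s : ℝ := inner ℝ x v with hs
  have e : ‖x - s • v‖ ^ 2 = 1 - s ^ 2 := by
    rw [norm_sub_sq_real, norm_smul, inner_smul_right, hx, hv, ← hs, Real.norm_eq_abs, mul_one,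
      sq_abs]
    ring
  have h0 : ‖x - s • v‖ ^ 2 = 0 := le_antisymm (by rw [e]; linarith) (by positivity)
  have h3 : x = s • v := by
    have := pow_eq_zero_iff (two_ne_zero) |>.1 h0
    exact sub_eq_zero.1 (norm_eq_zero.1 this)
  have h4 : s ^ 2 = 1 := by linarith
  have h5 : (s - 1) * (s + 1) = 0 := by linear_combination h4
  rcases mul_eq_zero.1 h5 with h6 | h6
  · have : s = 1 := by linarith
    rw [this, one_smul] at h3
    exact h1 h3.symm
  · have : s = -1 := by linarith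
    rw [this, neg_smul, one_smul] at h3
    exact h2 (by rw [h3, neg_neg])

theorem sum_sqrt (hB : Stmt_BTS) (s : ℝ) (hs : s ^ 2 ≤ 1) :
    HasSum (fun k : ℕ => ec k * s ^ (2 * k)) (-√(1 - s ^ 2)) := by
  have := hB.2.1 (s ^ 2) (sq_nonneg s) hs
  simpa only [pow_mul] using this

theorem sum_ratio (hB : Stmt_BTS) (s : ℝ) (hs : s ^ 2 < 1) :
    HasSum (fun k : ℕ => ec k * (2 * (k : ℝ) * s ^ (2 * k - 1))) (s / √(1 - s ^ 2)) := by
  have h1 := (hB.1 (s ^ 2) (sq_nonneg s) hs).mul_right s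
  have h2 : HasSum (fun k : ℕ => ec (k + 1) * (2 * ((k + 1 : ℕ) : ℝ) * s ^ (2 * (k + 1) - 1)))
      (s / √(1 - s ^ 2)) := by
    have e : (fun k : ℕ => ec (k + 1) * (2 * ((k + 1 : ℕ) : ℝ) * s ^ (2 * (k + 1) - 1))) =
        fun k : ℕ => bt k * (s ^ 2) ^ k * s := by
      funext k
      rw [← ec_bt k, ← pow_mul]
      have : 2 * (k + 1) - 1 = 2 * k + 1 := by omega
      rw [this, pow_succ]
      ring
    rw [e]
    have e2 : s / √(1 - s ^ 2) = 1 / √(1 - s ^ 2) * s := by ring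
    rw [e2]
    exact h1
  have h3 := (hasSum_nat_add_iff (f := fun k : ℕ => ec k * (2 * (k : ℝ) * s ^ (2 * k - 1))) 1).1 h2
  simpa using h3

theorem hh_series (hB : Stmt_BTS) (hM : Stmt_MMS) (hn : 2 ≤ n) (v : EE n)
    (hs : ∀ i, (inner ℝ (w i) v : ℝ) ^ 2 ≤ 1) :
    HasSum (fun k : ℕ => ec k * Fk p w k v) (mm n - hh p w v) := by
  have h1 : HasSum (fun k : ℕ => ∑ i, p i * (ec k * (inner ℝ (w i) v : ℝ) ^ (2 * k)))
      (∑ i, p i * -√(1 - (inner ℝ (w i) v : ℝ) ^ 2)) :=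
    hasSum_sum fun i _ => (sum_sqrt hB _ (hs i)).mul_left (p i)
  have h2 := h1.sub (hM n hn).1
  have e1 : (fun k : ℕ => ec k * Fk p w k v) =
      fun k : ℕ => ∑ i, p i * (ec k * (inner ℝ (w i) v : ℝ) ^ (2 * k)) - ec k * smo n k := by
    funext k
    rw [Fk, mul_sub, Finset.mul_sum]
    congr 1
    exact Finset.sum_congr rfl fun i _ => by ring
  have e2 : mm n - hh p w v =
      (∑ i, p i * -√(1 - (inner ℝ (w i) v : ℝ) ^ 2)) - -mm n := by
    rw [hh]
    simp only [mul_neg, Finset.sum_neg_distrib]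
    ring
  rw [e1, e2]
  exact h2

theorem tg_Gk (v : EE n) (hv : ‖v‖ = 1) (k : ℕ) :
    tg v (Gk p w k v) =
      ∑ i, (p i * (2 * (k : ℝ) * (inner ℝ (w i) v : ℝ) ^ (2 * k - 1))) • tg v (w i) := by
  rw [Gk, map_smul, map_sub, map_smul, tg_self v hv, smul_zero, sub_zero, map_sum,
    Finset.smul_sum]
  refine Finset.sum_congr rfl fun i _ => ?_
  rw [map_smul, smul_smul]
  congr 1
  ring

theorem tg_gh (v : EE n) (hv : ‖v‖ = 1) :
    tg v (gh p w v) =
      -∑ i, (p i * ((inner ℝ (w i) v : ℝ) / √(1 - (inner ℝ (w i) v : ℝ) ^ 2))) • tg v (w i) := by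
  rw [gh, map_sum, ← Finset.sum_neg_distrib]
  refine Finset.sum_congr rfl fun i _ => ?_
  rw [map_smul, map_sub, map_smul, tg_self v hv, zero_sub, smul_neg, smul_smul]
  congr 2
  ring

theorem inner_gh (v : EE n) (hv : ‖v‖ = 1) (hs : ∀ i, (inner ℝ (w i) v : ℝ) ^ 2 < 1) :
    (inner ℝ v (gh p w v) : ℝ) = hh p w v := by
  rw [gh, inner_sum, hh]
  refine Finset.sum_congr rfl fun i _ => ?_
  rw [inner_smul_right, inner_sub_right, inner_smul_right, real_inner_self_eq_norm_sq, hv,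
    real_inner_comm (w i) v]
  have h1 : 0 < 1 - (inner ℝ (w i) v : ℝ) ^ 2 := by linarith [hs i]
  have h2 : 0 < √(1 - (inner ℝ (w i) v : ℝ) ^ 2) := Real.sqrt_pos.2 h1
  have h3 : √(1 - (inner ℝ (w i) v : ℝ) ^ 2) * √(1 - (inner ℝ (w i) v : ℝ) ^ 2) =
      1 - (inner ℝ (w i) v : ℝ) ^ 2 := Real.mul_self_sqrt h1.le
  rw [div_mul_eq_mul_div, div_eq_iff h2.ne', mul_assoc, h3]
  ring

/-- the partial sums -/
noncomputable def SN (p : ι → ℝ) (w : ι → EE n) (N : ℕ) (v : EE n) : EE n :=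
  ∑ k ∈ Finset.Icc 2 N, ec k • Gk p w k v

noncomputable def HN (p : ι → ℝ) (w : ι → EE n) (N : ℕ) (v : EE n) : ℝ :=
  ∑ k ∈ Finset.Icc 2 N, ec k * Fk p w k v

theorem HN_tendsto (hB : Stmt_BTS) (hM : Stmt_MMS) (hn : 2 ≤ n) (h : IS p w) (v : EE n)
    (hv : ‖v‖ = 1) (hs : ∀ i, (inner ℝ (w i) v : ℝ) ^ 2 < 1) :
    Tendsto (fun N => HN p w N v) atTop (𝓝 (mm n - hh p w v)) := by
  have h1 := (hh_series (p := p) hB hM hn v fun i => (hs i).le).tendsto_sum_nat
  have h2 := (tendsto_add_atTop_iff_nat 1).2 h1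
  refine h2.congr fun N => ?_
  rw [HN]
  refine range_Icc (fun k => ec k * Fk p w k v) (fun k hk => ?_) N
  show ec k * Fk p w k v = 0
  rw [F_small (by omega) h v hv k hk, mul_zero]

theorem SN_tendsto (hB : Stmt_BTS) (hn : 2 ≤ n) (h : IS p w) (v : EE n)
    (hv : ‖v‖ = 1) (hs : ∀ i, (inner ℝ (w i) v : ℝ) ^ 2 < 1) :
    Tendsto (fun N => tg v (SN p w N v)) atTop (𝓝 (-tg v (gh p w v))) := by
  rw [tg_gh v hv, neg_neg]
  have h1 : ∀ i, Tendsto (fun N : ℕ => ∑ k ∈ Finset.range (N + 1),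
      ec k * (2 * (k : ℝ) * (inner ℝ (w i) v : ℝ) ^ (2 * k - 1))) atTop
      (𝓝 ((inner ℝ (w i) v : ℝ) / √(1 - (inner ℝ (w i) v : ℝ) ^ 2))) := fun i =>
    (tendsto_add_atTop_iff_nat 1).2 (sum_ratio hB _ (hs i)).tendsto_sum_nat
  have h2 : Tendsto (fun N : ℕ => ∑ i, (p i * ∑ k ∈ Finset.range (N + 1),
      ec k * (2 * (k : ℝ) * (inner ℝ (w i) v : ℝ) ^ (2 * k - 1))) • tg v (w i)) atTop
      (𝓝 (∑ i, (p i * ((inner ℝ (w i) v : ℝ) / √(1 - (inner ℝ (w i) v : ℝ) ^ 2))) •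
        tg v (w i))) :=
    tendsto_finset_sum _ fun i _ => ((h1 i).const_mul (p i)).smul_const (tg v (w i))
  refine h2.congr fun N => ?_
  have h3 : SN p w N v = ∑ k ∈ Finset.range (N + 1), ec k • Gk p w k v := by
    rw [SN]
    symm
    refine range_Icc (fun k => ec k • Gk p w k v) (fun k hk => ?_) N
    show ec k • Gk p w k v = 0
    rw [G_small (by omega) h v k hk, smul_zero]
  rw [h3, map_sum]
  have h4 : ∀ k ∈ Finset.range (N + 1), tg v (ec k • Gk p w k v) =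
      ∑ i, (p i * (ec k * (2 * (k : ℝ) * (inner ℝ (w i) v : ℝ) ^ (2 * k - 1)))) •
        tg v (w i) := by
    intro k _
    rw [map_smul, tg_Gk v hv, Finset.smul_sum]
    refine Finset.sum_congr rfl fun i _ => ?_
    rw [smul_smul]
    congr 1
    ring
  rw [Finset.sum_congr rfl h4, Finset.sum_comm]
  refine Finset.sum_congr rfl fun i _ => ?_
  rw [← Finset.sum_smul, Finset.mul_sum]

/-! ## continuity and integrals -/

theorem Fk_cont (p : ι → ℝ) (w : ι → EE n) (k : ℕ) : Continuous (Fk p w k) := by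
  unfold Fk
  fun_prop

theorem Gk_cont (p : ι → ℝ) (w : ι → EE n) (k : ℕ) : Continuous (Gk p w k) := by
  unfold Gk
  fun_prop

theorem HN_cont (p : ι → ℝ) (w : ι → EE n) (N : ℕ) : Continuous (HN p w N) := by
  unfold HN
  exact continuous_finset_sum _ fun k _ => continuous_const.mul (Fk_cont p w k)

theorem SN_cont (p : ι → ℝ) (w : ι → EE n) (N : ℕ) : Continuous (SN p w N) := by
  unfold SN
  exact continuous_finset_sum _ fun k _ => (Gk_cont p w k).const_smul (ec k)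

theorem HN_sq (N : ℕ) (v : EE n) : HN p w N v ^ 2 =
    ∑ k ∈ Finset.Icc 2 N, ∑ l ∈ Finset.Icc 2 N, ec k * ec l * (Fk p w k v * Fk p w l v) := by
  rw [HN, sq, Finset.sum_mul_sum]
  exact Finset.sum_congr rfl fun k _ => Finset.sum_congr rfl fun l _ => by ring

theorem SN_sq (N : ℕ) (v : EE n) : ‖SN p w N v‖ ^ 2 =
    ∑ k ∈ Finset.Icc 2 N, ∑ l ∈ Finset.Icc 2 N,
      ec k * ec l * (inner ℝ (Gk p w k v) (Gk p w l v) : ℝ) := by
  rw [SN, ← real_inner_self_eq_norm_sq, sum_inner]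
  refine Finset.sum_congr rfl fun k _ => ?_
  rw [inner_sum]
  refine Finset.sum_congr rfl fun l _ => ?_
  rw [inner_smul_left, inner_smul_right]
  simp only [conj_trivial]
  ring

theorem int_double (hP : IsProbabilityMeasure (sph n)) (hn : ∀ᵐ v ∂(sph n), ‖v‖ = 1)
    (N : ℕ) (g : ℕ → ℕ → EE n → ℝ) (hg : ∀ k l, Continuous (g k l)) :
    ∫ v, (∑ k ∈ Finset.Icc 2 N, ∑ l ∈ Finset.Icc 2 N, ec k * ec l * g k l v) ∂(sph n) =
      ∑ k ∈ Finset.Icc 2 N, ∑ l ∈ Finset.Icc 2 N, ec k * ec l * ∫ v, g k l v ∂(sph n) := by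
  rw [integral_finsetSum]
  · refine Finset.sum_congr rfl fun k _ => ?_
    rw [integral_finsetSum]
    · exact Finset.sum_congr rfl fun l _ => integral_const_mul _ _
    · intro l _
      exact (int_cont hP hn _ (hg k l)).const_mul _
  · intro k _
    exact integrable_finsetSum _ fun l _ => (int_cont hP hn _ (hg k l)).const_mul _

end GRS_

open GRS_ in
theorem grs_proof (hPSQ : Stmt_PSQ) (hDSB : Stmt_DSB) (hTPD : Stmt_TPD) (hQSR : Stmt_QSR)
    (hBTS : Stmt_BTS) (hMMS : Stmt_MMS) (hSMB : Stmt_SMB) (hSMM : Stmt_SMM)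
    (hSPH : Stmt_SPH) : Stmt_GRS := by
  obtain ⟨C, hC, hD⟩ := hDSB
  refine ⟨3 * C, by positivity, ?_⟩
  intro n ι _ p w hn h
  obtain ⟨hP, hnorm, -, -, -, hne⟩ := hSPH n (by omega)
  have hT : ∀ r, 0 ≤ Tk p w r := by
    intro r
    exact (sq_nonneg _).trans (hTPD n ι p w r (fun _ => 0) (by omega) (fun i => (h.ppos i).le)
      h.psum h.nrm (fun _ => by simp))
  have hQ := (hQSR n ι p w (by omega) h).1
  have he : ∀ k, 1 ≤ k → 0 < ec k := fun k hk => (hBTS.2.2.2.1 k hk).1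
  have hn0 : (0 : ℝ) < n := by
    have : 0 < n := by omega
    exact_mod_cast this
  have hK : 0 ≤ C / (n : ℝ) ^ 3 := by positivity
  -- the two bounds
  have hH : ∀ N : ℕ, ∫ v, HN p w N v ^ 2 ∂(sph n) ≤ C / (n : ℝ) ^ 3 * QQ p w := by
    intro N
    have e : (fun v : EE n => HN p w N v ^ 2) = fun v =>
        ∑ k ∈ Finset.Icc 2 N, ∑ l ∈ Finset.Icc 2 N,
          ec k * ec l * (Fk p w k v * Fk p w l v) := funext fun v => HN_sq N v
    rw [e, int_double hP hnorm N (fun k l v => Fk p w k v * Fk p w l v)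
      (fun k l => (Fk_cont p w k).mul (Fk_cont p w l))]
    exact quad_bound ec (Tk p w) (fun k l => smo n (k + l))
      (fun k l => ∫ v, Fk p w k v * Fk p w l v ∂(sph n)) N _ _ he hT hK
      (fun k l hk hl => (hPSQ n ι p w k l (by omega) h hk hl).1)
      (fun r hr => (hD n r N hn hr).2) hQ
  have hS : ∀ N : ℕ, ∫ v, ‖SN p w N v‖ ^ 2 ∂(sph n) ≤ C / (n : ℝ) ^ 3 * QQ p w := by
    intro N
    have e : (fun v : EE n => ‖SN p w N v‖ ^ 2) = fun v =>
        ∑ k ∈ Finset.Icc 2 N, ∑ l ∈ Finset.Icc 2 N,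
          ec k * ec l * (inner ℝ (Gk p w k v) (Gk p w l v) : ℝ) := funext fun v => SN_sq N v
    rw [e, int_double hP hnorm N (fun k l v => (inner ℝ (Gk p w k v) (Gk p w l v) : ℝ))
      (fun k l => (Gk_cont p w k).inner (Gk_cont p w l))]
    exact quad_bound ec (Tk p w) (fun k l => 4 * (k : ℝ) * l * smo n (k + l - 1))
      (fun k l => ∫ v, (inner ℝ (Gk p w k v) (Gk p w l v) : ℝ) ∂(sph n)) N _ _ he hT hK
      (fun k l hk hl => (hPSQ n ι p w k l (by omega) h hk hl).2)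
      (fun r hr => (hD n r N hn hr).1) hQ
  have hB0 : 0 ≤ 3 * C / (n : ℝ) ^ 3 * QQ p w := by
    have h0 := hH 0
    have h1 : 0 ≤ ∫ v, HN p w 0 v ^ 2 ∂(sph n) := integral_nonneg fun v => sq_nonneg _
    have : 3 * C / (n : ℝ) ^ 3 * QQ p w = 3 * (C / (n : ℝ) ^ 3 * QQ p w) := by ring
    rw [this]
    linarith
  -- the approximations
  set f : EE n → ℝ := fun v => (hh p w v - mm n) ^ 2 + ‖gh p w v - mm n • v‖ ^ 2 with hf
  set g : ℕ → EE n → ℝ := fun N v => 2 * HN p w N v ^ 2 + ‖tg v (SN p w N v)‖ ^ 2 with hg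
  have hgc : ∀ N, Continuous (g N) := by
    intro N
    have h1 : Continuous fun v : EE n => tg v (SN p w N v) := by
      show Continuous fun v : EE n => SN p w N v - (inner ℝ v (SN p w N v) : ℝ) • v
      have h2 := SN_cont p w N
      fun_prop
    exact ((HN_cont p w N).pow 2 |>.const_mul 2 |>.add (h1.norm.pow 2))
  have hgi : ∀ N, ∫⁻ v, ENNReal.ofReal (g N v) ∂(sph n) ≤
      ENNReal.ofReal (3 * C / (n : ℝ) ^ 3 * QQ p w) := by
    intro N
    have hi := int_cont hP hnorm (g N) (hgc N)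
    have hg0 : ∀ v, 0 ≤ g N v := fun v => by
      show 0 ≤ 2 * HN p w N v ^ 2 + ‖tg v (SN p w N v)‖ ^ 2
      positivity
    rw [← ofReal_integral_eq_lintegral_ofReal hi (ae_of_all _ hg0)]
    refine ENNReal.ofReal_le_ofReal ?_
    have i1 := int_cont hP hnorm (fun v => HN p w N v ^ 2) ((HN_cont p w N).pow 2)
    have i2 := int_cont hP hnorm (fun v => ‖SN p w N v‖ ^ 2) ((SN_cont p w N).norm.pow 2)
    calc ∫ v, g N v ∂(sph n) ≤ ∫ v, (2 * HN p w N v ^ 2 + ‖SN p w N v‖ ^ 2) ∂(sph n) := by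
          refine integral_mono_ae hi ((i1.const_mul 2).add i2) ?_
          filter_upwards [hnorm] with v hv
          show 2 * HN p w N v ^ 2 + ‖tg v (SN p w N v)‖ ^ 2 ≤
            2 * HN p w N v ^ 2 + ‖SN p w N v‖ ^ 2
          have := tg_norm v (SN p w N v) hv
          nlinarith [sq_nonneg (inner ℝ v (SN p w N v) : ℝ)]
      _ = 2 * (∫ v, HN p w N v ^ 2 ∂(sph n)) + ∫ v, ‖SN p w N v‖ ^ 2 ∂(sph n) := by
          rw [integral_add (i1.const_mul 2) i2, integral_const_mul]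
      _ ≤ 2 * (C / (n : ℝ) ^ 3 * QQ p w) + C / (n : ℝ) ^ 3 * QQ p w := by
          have := hH N
          have := hS N
          linarith
      _ = _ := by ring
  have hlim : ∀ᵐ v ∂(sph n), Tendsto (fun N => g N v) atTop (𝓝 (f v)) := by
    have h1 : ∀ᵐ v ∂(sph n), ∀ i, v ≠ w i ∧ v ≠ -w i := by
      rw [ae_all_iff]
      intro i
      exact (hne (by omega) (w i)).and (hne (by omega) (-w i))
    filter_upwards [hnorm, h1] with v hv hvw
    have hs : ∀ i, (inner ℝ (w i) v : ℝ) ^ 2 < 1 := fun i =>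
      inner_sq_lt (w i) v (h.nrm i) hv (hvw i).1 (hvw i).2
    have t1 := HN_tendsto hBTS hMMS (by omega) h v hv hs
    have t2 := SN_tendsto hBTS (by omega) h v hv hs
    have e : f v = 2 * (mm n - hh p w v) ^ 2 + ‖-tg v (gh p w v)‖ ^ 2 := by
      show (hh p w v - mm n) ^ 2 + ‖gh p w v - mm n • v‖ ^ 2 = _
      have h2 := tg_norm v (gh p w v - mm n • v) hv
      rw [h2, map_sub, map_smul, tg_self v hv, smul_zero, sub_zero, inner_sub_right,
        inner_smul_right, inner_gh v hv hs, real_inner_self_eq_norm_sq, hv, norm_neg]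
      ring
    rw [e]
    exact ((t1.pow 2).const_mul 2).add (t2.norm.pow 2)
  have hfl : ∫⁻ v, ENNReal.ofReal (f v) ∂(sph n) ≤
      ENNReal.ofReal (3 * C / (n : ℝ) ^ 3 * QQ p w) := by
    have h1 : ∫⁻ v, ENNReal.ofReal (f v) ∂(sph n) =
        ∫⁻ v, liminf (fun N => ENNReal.ofReal (g N v)) atTop ∂(sph n) := by
      refine lintegral_congr_ae ?_
      filter_upwards [hlim] with v hv
      exact ((ENNReal.continuous_ofReal.tendsto _).comp hv).liminf_eq.symm
    rw [h1]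
    refine (lintegral_liminf_le fun N =>
      ENNReal.measurable_ofReal.comp (hgc N).measurable).trans ?_
    refine liminf_le_of_le ⟨0, by simp⟩ ?_
    intro b hb
    obtain ⟨N, hN⟩ := (hb.and (eventually_ge_atTop 0)).exists
    exact hN.1.trans (hgi N)
  have hf0 : ∀ v, 0 ≤ f v := fun v => by
    show 0 ≤ (hh p w v - mm n) ^ 2 + ‖gh p w v - mm n • v‖ ^ 2
    positivity
  show ∫ v, f v ∂(sph n) ≤ 3 * C / (n : ℝ) ^ 3 * QQ p w
  by_cases hm : AEStronglyMeasurable f (sph n)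
  · rw [integral_eq_lintegral_of_nonneg_ae (ae_of_all _ hf0) hm]
    exact ENNReal.toReal_le_of_le_ofReal hB0 hfl
  · rw [integral_non_aestronglyMeasurable hm]
    exact hB0

end PPX
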