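import Pool.Agent.PPX.Stmts

/-!
# Squad PPX, module HSS: semi-concavity of the cusp potential
-/

set_option autoImplicit false

namespace PPX

open MeasureTheory Set Filter Topology
open PPI PPG
open scoped Pointwise ENNReal

namespace HSS_

/-- the polynomial lower bound -/
noncomputable def R (x y : ℝ) : ℝ :=
  1 + x ^ 2 / 2 - y ^ 2 + 3 / 8 * x ^ 4 - 3 / 2 * (x ^ 2 * y ^ 2) - 15 / 8 * x ^ 6 -
    15 / 8 * (x ^ 4 * y ^ 2)

theorem poly (X Y : ℝ) (hX : 0 ≤ X) (hXY : X + Y ≤ 1) :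
    1 + X / 2 - Y + 3 / 8 * X ^ 2 - 3 / 2 * (X * Y) - 15 / 8 * X ^ 3 - 15 / 8 * (X ^ 2 * Y) ≤
      (1 - X - Y) * ((1 + X + X ^ 2) * (1 + X / 2 + 3 / 8 * X ^ 2)) := by
  have h : (1 - X - Y) * ((1 + X + X ^ 2) * (1 + X / 2 + 3 / 8 * X ^ 2)) -
      (1 + X / 2 - Y + 3 / 8 * X ^ 2 - 3 / 2 * (X * Y) - 15 / 8 * X ^ 3 -
        15 / 8 * (X ^ 2 * Y)) = X ^ 3 * ((1 - X - Y) * (7 / 8 + 3 / 8 * X)) := by
    ring
  have h2 : 0 ≤ X ^ 3 * ((1 - X - Y) * (7 / 8 + 3 / 8 * X)) := by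
    apply mul_nonneg (pow_nonneg hX 3)
    apply mul_nonneg <;> nlinarith
  linarith

/-- the bound for `1/√(1-z²)` -/
theorem sqrt_inv (Z : ℝ) (h0 : 0 ≤ Z) (h1 : Z < 1) :
    (1 + Z / 2 + 3 / 8 * Z ^ 2) * √(1 - Z) ≤ 1 := by
  have hs : 0 ≤ √(1 - Z) := Real.sqrt_nonneg _
  have hq : √(1 - Z) ^ 2 = 1 - Z := Real.sq_sqrt (by linarith)
  have h2 : ((1 + Z / 2 + 3 / 8 * Z ^ 2) * √(1 - Z)) ^ 2 ≤ 1 := by
    rw [mul_pow, hq]
    have e : (1 + Z / 2 + 3 / 8 * Z ^ 2) ^ 2 * (1 - Z) =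
        1 - Z ^ 3 * (5 / 8 + 15 / 64 * Z + 9 / 64 * Z ^ 2) := by ring
    rw [e]
    have : 0 ≤ Z ^ 3 * (5 / 8 + 15 / 64 * Z + 9 / 64 * Z ^ 2) := by positivity
    linarith
  have h3 : 0 ≤ (1 + Z / 2 + 3 / 8 * Z ^ 2) * √(1 - Z) := by positivity
  nlinarith

theorem exc0 (a b m : ℝ) (ha0 : 0 ≤ a) (hb0 : 0 ≤ b) (hG : 0 ≤ a ^ 2 * b ^ 2 - m ^ 2) :
    a + (m - a ^ 2) / a + (a ^ 2 * b ^ 2 - m ^ 2) / (2 * a ^ 2 * b) ≤ b := by
  rcases ha0.eq_or_lt with ha | ha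
  · subst ha
    simp only [ne_eq, OfNat.ofNat_ne_zero, not_false_eq_true, zero_pow, mul_zero, zero_mul,
      div_zero, add_zero]
    exact hb0
  rcases hb0.eq_or_lt with hb | hb
  · subst hb
    have hm0 : m ^ 2 ≤ 0 := by nlinarith
    have hm1 : m = 0 := by nlinarith [sq_nonneg m]
    rw [hm1]
    have : a + (0 - a ^ 2) / a = 0 := by field_simp; ring
    simp only [mul_zero, div_zero, add_zero]
    linarith
  · have e : b - (a + (m - a ^ 2) / a + (a ^ 2 * b ^ 2 - m ^ 2) / (2 * a ^ 2 * b)) =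
        (a * b - m) ^ 2 / (2 * a ^ 2 * b) := by
      field_simp
      ring
    have h2 : 0 ≤ (a * b - m) ^ 2 / (2 * a ^ 2 * b) := by positivity
    linarith

/-- the quadratic excess -/
theorem exc (x z c : ℝ) (hx : x ^ 2 ≤ 1) (hz : z ^ 2 ≤ 1)
    (hG : 0 ≤ (1 - x ^ 2) * (1 - z ^ 2) - (c - x * z) ^ 2) :
    √(1 - x ^ 2) + (c - 1 - x * z + x ^ 2) / √(1 - x ^ 2) +
      ((1 - x ^ 2) * (1 - z ^ 2) - (c - x * z) ^ 2) / (2 * (1 - x ^ 2) * √(1 - z ^ 2)) ≤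
      √(1 - z ^ 2) := by
  have hqa : √(1 - x ^ 2) ^ 2 = 1 - x ^ 2 := Real.sq_sqrt (by linarith)
  have hqb : √(1 - z ^ 2) ^ 2 = 1 - z ^ 2 := Real.sq_sqrt (by linarith)
  have h := exc0 (√(1 - x ^ 2)) (√(1 - z ^ 2)) (c - x * z) (Real.sqrt_nonneg _)
    (Real.sqrt_nonneg _) (by rw [hqa, hqb]; exact hG)
  rw [hqa, hqb] at h
  have e1 : c - 1 - x * z + x ^ 2 = c - x * z - (1 - x ^ 2) := by ring
  rw [e1]
  exact h

/-- the lower bound for the Gram quotient -/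
theorem quo (x y z d : ℝ) (hX : x ^ 2 + y ^ 2 ≤ 1) (hz : z ^ 2 ≤ 1) (hd : |z - x| ≤ d)
    (hb : z ^ 2 = 1 → 1 - x ^ 2 - y ^ 2 = 0) :
    R x y - 5 / 2 * d ≤ (1 - x ^ 2 - y ^ 2) / ((1 - x ^ 2) * √(1 - z ^ 2)) := by
  have hd0 : 0 ≤ d := (abs_nonneg _).trans hd
  have hx2 : x ^ 2 ≤ 1 := by nlinarith [sq_nonneg y]
  have hN : 0 ≤ 1 - x ^ 2 - y ^ 2 := by linarith
  have hpoly := poly (x ^ 2) (y ^ 2) (sq_nonneg x) hX
  have eR : R x y = 1 + x ^ 2 / 2 - y ^ 2 + 3 / 8 * (x ^ 2) ^ 2 - 3 / 2 * (x ^ 2 * y ^ 2) -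
      15 / 8 * (x ^ 2) ^ 3 - 15 / 8 * ((x ^ 2) ^ 2 * y ^ 2) := by
    unfold R; ring
  rw [← eR] at hpoly
  have hx1 : |x| ≤ 1 := by
    rw [← sq_le_one_iff_abs_le_one]; exact hx2
  have hz1 : |z| ≤ 1 := by
    rw [← sq_le_one_iff_abs_le_one]; exact hz
  obtain ⟨hx1a, hx1b⟩ := abs_le.1 hx1
  obtain ⟨hz1a, hz1b⟩ := abs_le.1 hz1
  obtain ⟨hda, hdb⟩ := abs_le.1 hd
  have h2 : x ^ 2 - 2 * d ≤ z ^ 2 := by
    have : |z ^ 2 - x ^ 2| ≤ 2 * d := by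
      rw [show z ^ 2 - x ^ 2 = (z - x) * (z + x) by ring, abs_mul]
      have : |z + x| ≤ 2 := by rw [abs_le]; constructor <;> linarith
      calc |z - x| * |z + x| ≤ d * 2 := by
            apply mul_le_mul hd this (abs_nonneg _) hd0
        _ = 2 * d := by ring
    have := (abs_le.1 this).1
    linarith
  have h4 : (x ^ 2) ^ 2 - 4 * d ≤ (z ^ 2) ^ 2 := by
    have hz0 := sq_nonneg z
    have hx0 := sq_nonneg x
    nlinarith
  have hlow : 1 + x ^ 2 / 2 + 3 / 8 * (x ^ 2) ^ 2 - 5 / 2 * d ≤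
      1 + z ^ 2 / 2 + 3 / 8 * (z ^ 2) ^ 2 := by linarith
  have hprod1 : (1 - x ^ 2 - y ^ 2) * (1 + x ^ 2 + (x ^ 2) ^ 2) ≤ 1 := by
    have h6 : (1 - x ^ 2) * (1 + x ^ 2 + (x ^ 2) ^ 2) = 1 - (x ^ 2) ^ 3 := by ring
    have h7 : 0 ≤ (x ^ 2) ^ 3 := by positivity
    have h8 : 0 ≤ y ^ 2 * (1 + x ^ 2 + (x ^ 2) ^ 2) := by positivity
    nlinarith
  have hprod0 : 0 ≤ (1 - x ^ 2 - y ^ 2) * (1 + x ^ 2 + (x ^ 2) ^ 2) := by positivity
  -- the middle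
  have hmid : R x y - 5 / 2 * d ≤
      (1 - x ^ 2 - y ^ 2) * (1 + x ^ 2 + (x ^ 2) ^ 2) * (1 + z ^ 2 / 2 + 3 / 8 * (z ^ 2) ^ 2) := by
    have a1 : (1 - x ^ 2 - y ^ 2) * (1 + x ^ 2 + (x ^ 2) ^ 2) *
        (1 + x ^ 2 / 2 + 3 / 8 * (x ^ 2) ^ 2 - 5 / 2 * d) ≤
        (1 - x ^ 2 - y ^ 2) * (1 + x ^ 2 + (x ^ 2) ^ 2) *
          (1 + z ^ 2 / 2 + 3 / 8 * (z ^ 2) ^ 2) :=
      mul_le_mul_of_nonneg_left hlow hprod0
    have a2 : (1 - x ^ 2 - y ^ 2) * (1 + x ^ 2 + (x ^ 2) ^ 2) * (5 / 2 * d) ≤ 1 * (5 / 2 * d) :=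
      mul_le_mul_of_nonneg_right hprod1 (by linarith)
    nlinarith
  by_cases hx : x ^ 2 = 1
  · have hN0 : 1 - x ^ 2 - y ^ 2 = 0 := by nlinarith [sq_nonneg y]
    rw [hN0] at hmid ⊢
    simpa using hmid
  by_cases hzz : z ^ 2 = 1
  · have hN0 := hb hzz
    rw [hN0] at hmid ⊢
    simpa using hmid
  have hx' : 0 < 1 - x ^ 2 := by
    have := lt_of_le_of_ne hx2 hx
    linarith
  have hz' : z ^ 2 < 1 := lt_of_le_of_ne hz hzz
  have hs : 0 < √(1 - z ^ 2) := Real.sqrt_pos.2 (by linarith)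
  refine hmid.trans ?_
  rw [le_div_iff₀ (by positivity)]
  have b1 := sqrt_inv (z ^ 2) (sq_nonneg z) hz'
  have b2 : (1 + x ^ 2 + (x ^ 2) ^ 2) * (1 - x ^ 2) ≤ 1 := by
    have h6 : (1 + x ^ 2 + (x ^ 2) ^ 2) * (1 - x ^ 2) = 1 - (x ^ 2) ^ 3 := by ring
    have h7 : 0 ≤ (x ^ 2) ^ 3 := by positivity
    linarith
  have b3 : 0 ≤ (1 + x ^ 2 + (x ^ 2) ^ 2) * (1 - x ^ 2) := by positivity
  calc (1 - x ^ 2 - y ^ 2) * (1 + x ^ 2 + (x ^ 2) ^ 2) * (1 + z ^ 2 / 2 + 3 / 8 * (z ^ 2) ^ 2) *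
        ((1 - x ^ 2) * √(1 - z ^ 2)) =
      (1 - x ^ 2 - y ^ 2) * (((1 + x ^ 2 + (x ^ 2) ^ 2) * (1 - x ^ 2)) *
        ((1 + z ^ 2 / 2 + 3 / 8 * (z ^ 2) ^ 2) * √(1 - z ^ 2))) := by ring
    _ ≤ (1 - x ^ 2 - y ^ 2) * (1 * 1) := by
        apply mul_le_mul_of_nonneg_left _ hN
        apply mul_le_mul b2 b1 (by positivity) (by norm_num)
    _ = 1 - x ^ 2 - y ^ 2 := by ring

/-- the pointwise inequality -/
theorem pt (x y z c S d : ℝ) (hX : x ^ 2 + y ^ 2 ≤ 1) (hz : z ^ 2 ≤ 1) (hS : 0 < S)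
    (hG : (1 - x ^ 2) * (1 - z ^ 2) - (c - x * z) ^ 2 = S * (1 - x ^ 2 - y ^ 2))
    (hd : |z - x| ≤ d) :
    √(1 - x ^ 2) + (c - 1 - x * z + x ^ 2) / √(1 - x ^ 2) + S / 2 * (R x y - 5 / 2 * d) ≤
      √(1 - z ^ 2) := by
  have hx2 : x ^ 2 ≤ 1 := by nlinarith [sq_nonneg y]
  have hN : 0 ≤ 1 - x ^ 2 - y ^ 2 := by linarith
  have hb : z ^ 2 = 1 → 1 - x ^ 2 - y ^ 2 = 0 := by
    intro h
    rw [h] at hG
    have : S * (1 - x ^ 2 - y ^ 2) ≤ 0 := by nlinarith [sq_nonneg (c - x * z)]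
    have h3 : S * (1 - x ^ 2 - y ^ 2) = 0 := le_antisymm this (mul_nonneg hS.le hN)
    rcases mul_eq_zero.1 h3 with h4 | h4
    · exact absurd h4 hS.ne'
    · exact h4
  have h1 := exc x z c hx2 hz (by rw [hG]; positivity)
  have h2 := quo x y z d hX hz hd hb
  rw [hG] at h1
  have e : S * (1 - x ^ 2 - y ^ 2) / (2 * (1 - x ^ 2) * √(1 - z ^ 2)) =
      S / 2 * ((1 - x ^ 2 - y ^ 2) / ((1 - x ^ 2) * √(1 - z ^ 2))) := by
    rw [mul_assoc 2, mul_div_mul_comm]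
  rw [e] at h1
  have h3 := mul_le_mul_of_nonneg_left h2 (by positivity : (0 : ℝ) ≤ S / 2)
  linarith

theorem tpd4 (hT : Stmt_TPD) {n : ℕ} {ι : Type} [Fintype ι] (p : ι → ℝ) (w : ι → EE n) (δ : ℝ)
    (hn : 1 ≤ n) (h : IS p w) (hδ : 0 ≤ δ) (hk : Tk p w 2 ≤ δ ^ 2) (a b : EE n)
    (ha : ‖a‖ = 1) (hb : ‖b‖ = 1) :
    |∑ i, p i * ((inner ℝ (w i) a) ^ 2 * (inner ℝ (w i) b) ^ 2) -
      ∫ v, (inner ℝ a v) ^ 2 * (inner ℝ b v) ^ 2 ∂(sph n)| ≤ δ := by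
  have hy : ∀ l : Fin 4, ‖(![a, a, b, b] : Fin 4 → EE n) l‖ ≤ 1 := by
    intro l
    fin_cases l <;> simp [ha, hb]
  have h1 := hT n ι p w 2 (![a, a, b, b] : Fin 4 → EE n) hn (fun i => (h.ppos i).le) h.psum
    h.nrm hy
  change (∑ i, p i * ∏ l : Fin 4, inner ℝ ((![a, a, b, b] : Fin 4 → EE n) l) (w i) -
    ∫ v, ∏ l : Fin 4, inner ℝ ((![a, a, b, b] : Fin 4 → EE n) l) v ∂(sph n)) ^ 2 ≤ _ at h1
  have e1 : ∀ v : EE n, ∏ l : Fin 4, (inner ℝ ((![a, a, b, b] : Fin 4 → EE n) l) v : ℝ) =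
      (inner ℝ a v) ^ 2 * (inner ℝ b v) ^ 2 := by
    intro v
    rw [Fin.prod_univ_four]
    simp
    ring
  simp only [e1] at h1
  have e2 : ∀ i, (inner ℝ a (w i) : ℝ) ^ 2 * (inner ℝ b (w i)) ^ 2 =
      (inner ℝ (w i) a) ^ 2 * (inner ℝ (w i) b) ^ 2 := by
    intro i
    rw [real_inner_comm a, real_inner_comm b]
  simp only [e2] at h1
  exact abs_le_of_sq_le_sq (h1.trans hk) hδ

theorem tpd6 (hT : Stmt_TPD) {n : ℕ} {ι : Type} [Fintype ι] (p : ι → ℝ) (w : ι → EE n) (δ : ℝ)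
    (hn : 1 ≤ n) (h : IS p w) (hδ : 0 ≤ δ) (hk : Tk p w 3 ≤ δ ^ 2) (a b : EE n)
    (ha : ‖a‖ = 1) (hb : ‖b‖ = 1) :
    |∑ i, p i * ((inner ℝ (w i) a) ^ 4 * (inner ℝ (w i) b) ^ 2) -
      ∫ v, (inner ℝ a v) ^ 4 * (inner ℝ b v) ^ 2 ∂(sph n)| ≤ δ := by
  have hy : ∀ l : Fin 6, ‖(![a, a, a, a, b, b] : Fin 6 → EE n) l‖ ≤ 1 := by
    intro l
    fin_cases l <;> simp [ha, hb]
  have h1 := hT n ι p w 3 (![a, a, a, a, b, b] : Fin 6 → EE n) hn (fun i => (h.ppos i).le)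
    h.psum h.nrm hy
  change (∑ i, p i * ∏ l : Fin 6, inner ℝ ((![a, a, a, a, b, b] : Fin 6 → EE n) l) (w i) -
    ∫ v, ∏ l : Fin 6, inner ℝ ((![a, a, a, a, b, b] : Fin 6 → EE n) l) v ∂(sph n)) ^ 2 ≤ _ at h1
  have e1 : ∀ v : EE n, ∏ l : Fin 6, (inner ℝ ((![a, a, a, a, b, b] : Fin 6 → EE n) l) v : ℝ) =
      (inner ℝ a v) ^ 4 * (inner ℝ b v) ^ 2 := by
    intro v
    rw [Fin.prod_univ_six]
    simp
    ring
  simp only [e1] at h1
  have e2 : ∀ i, (inner ℝ a (w i) : ℝ) ^ 4 * (inner ℝ b (w i)) ^ 2 =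
      (inner ℝ (w i) a) ^ 4 * (inner ℝ (w i) b) ^ 2 := by
    intro i
    rw [real_inner_comm a, real_inner_comm b]
  simp only [e2] at h1
  exact abs_le_of_sq_le_sq (h1.trans hk) hδ

theorem smo2 (n : ℕ) (hn : 3 ≤ n) : smo n 2 = 3 / ((n : ℝ) * (n + 2)) := by
  have : (0 : ℝ) < n := by exact_mod_cast (by omega : 0 < n)
  unfold smo
  rw [Finset.prod_range_succ, Finset.prod_range_one]
  push_cast
  field_simp
  norm_num

theorem smo3 (n : ℕ) (hn : 3 ≤ n) : smo n 3 = 15 / ((n : ℝ) * (n + 2) * (n + 4)) := by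
  have : (0 : ℝ) < n := by exact_mod_cast (by omega : 0 < n)
  unfold smo
  rw [Finset.prod_range_succ, Finset.prod_range_succ, Finset.prod_range_one]
  push_cast
  field_simp
  ring

/-- the average of the lower bound -/
theorem avg (hT : Stmt_TPD) (hM : Stmt_SMM) (h4 : Stmt_SM4) (hmm : Stmt_MMS)
    {n : ℕ} {ι : Type} [Fintype ι] (p : ι → ℝ) (w : ι → EE n) (δ : ℝ)
    (hn : 3 ≤ n) (h : IS p w) (hδ : 0 ≤ δ) (hk2 : Tk p w 2 ≤ δ ^ 2) (hk3 : Tk p w 3 ≤ δ ^ 2)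
    (t e : EE n) (ht : ‖t‖ = 1) (he : ‖e‖ = 1) (hte : inner ℝ t e = (0 : ℝ)) :
    mm n - 40 / (n : ℝ) ^ 3 - 6 * δ ≤ ∑ i, p i * R (inner ℝ (w i) t) (inner ℝ (w i) e) := by
  have hnR : (3 : ℝ) ≤ n := by exact_mod_cast hn
  have hn0 : (0 : ℝ) < n := by linarith
  have m1 : ∑ i, p i * (inner ℝ (w i) t) ^ 2 = 1 / (n : ℝ) := by
    have := h.iso t
    rw [ht] at this
    field_simp
    linarith
  have m2 : ∑ i, p i * (inner ℝ (w i) e) ^ 2 = 1 / (n : ℝ) := by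
    have := h.iso e
    rw [he] at this
    field_simp
    linarith
  have a1 := tpd4 hT p w δ (by omega) h hδ hk2 t t ht ht
  have a2 := tpd4 hT p w δ (by omega) h hδ hk2 t e ht he
  have a3 := tpd6 hT p w δ (by omega) h hδ hk3 t t ht ht
  have a4 := tpd6 hT p w δ (by omega) h hδ hk3 t e ht he
  obtain ⟨b2, b4⟩ := h4 n t e (by omega) ht he hte
  rw [b2] at a2
  rw [b4] at a4
  have b1 : ∫ v, (inner ℝ t v) ^ 2 * (inner ℝ t v) ^ 2 ∂(sph n) = 3 / ((n : ℝ) * (n + 2)) := by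
    have := hM n 2 t (by omega)
    rw [ht, one_pow, mul_one, smo2 n hn] at this
    rw [← this]
    congr 1
    funext v
    ring
  have b3 : ∫ v, (inner ℝ t v) ^ 4 * (inner ℝ t v) ^ 2 ∂(sph n) =
      15 / ((n : ℝ) * (n + 2) * (n + 4)) := by
    have := hM n 3 t (by omega)
    rw [ht, one_pow, mul_one, smo3 n hn] at this
    rw [← this]
    congr 1
    funext v
    ring
  rw [b1] at a1
  rw [b3] at a3
  have eR : ∑ i, p i * R (inner ℝ (w i) t) (inner ℝ (w i) e) =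
      ∑ i, p i + 1 / 2 * ∑ i, p i * (inner ℝ (w i) t) ^ 2 - ∑ i, p i * (inner ℝ (w i) e) ^ 2 +
      3 / 8 * ∑ i, p i * ((inner ℝ (w i) t) ^ 2 * (inner ℝ (w i) t) ^ 2) -
      3 / 2 * ∑ i, p i * ((inner ℝ (w i) t) ^ 2 * (inner ℝ (w i) e) ^ 2) -
      15 / 8 * ∑ i, p i * ((inner ℝ (w i) t) ^ 4 * (inner ℝ (w i) t) ^ 2) -
      15 / 8 * ∑ i, p i * ((inner ℝ (w i) t) ^ 4 * (inner ℝ (w i) e) ^ 2) := by
    simp only [Finset.mul_sum, ← Finset.sum_add_distrib, ← Finset.sum_sub_distrib]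
    apply Finset.sum_congr rfl
    intro i _
    unfold R
    ring
  rw [eR, h.psum, m1, m2]
  have hm := (hmm n (by omega)).2.2
  obtain ⟨a1l, a1r⟩ := abs_le.1 a1
  obtain ⟨a2l, a2r⟩ := abs_le.1 a2
  obtain ⟨a3l, a3r⟩ := abs_le.1 a3
  obtain ⟨a4l, a4r⟩ := abs_le.1 a4
  have key : (1 : ℝ) - 1 / (2 * (n : ℝ)) - 3 / (8 * (n : ℝ) * (n + 2)) - 40 / (n : ℝ) ^ 3 ≤
      1 + 1 / 2 * (1 / (n : ℝ)) - 1 / n + 3 / 8 * (3 / ((n : ℝ) * (n + 2))) -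
      3 / 2 * (1 / ((n : ℝ) * (n + 2))) - 15 / 8 * (15 / ((n : ℝ) * (n + 2) * (n + 4))) -
      15 / 8 * (3 / ((n : ℝ) * (n + 2) * (n + 4))) := by
    have e1 : (1 + 1 / 2 * (1 / (n : ℝ)) - 1 / n + 3 / 8 * (3 / ((n : ℝ) * (n + 2))) -
        3 / 2 * (1 / ((n : ℝ) * (n + 2))) - 15 / 8 * (15 / ((n : ℝ) * (n + 2) * (n + 4))) -
        15 / 8 * (3 / ((n : ℝ) * (n + 2) * (n + 4)))) -
        ((1 : ℝ) - 1 / (2 * (n : ℝ)) - 3 / (8 * (n : ℝ) * (n + 2)) - 40 / (n : ℝ) ^ 3) =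
        (40 / (n : ℝ) ^ 3 - 135 / 4 / ((n : ℝ) * (n + 2) * (n + 4))) := by
      field_simp
      ring
    have e2 : 135 / 4 / ((n : ℝ) * (n + 2) * (n + 4)) ≤ 40 / (n : ℝ) ^ 3 := by
      rw [div_le_div_iff₀ (by positivity) (by positivity)]
      have : (n : ℝ) ^ 3 ≤ (n : ℝ) * (n + 2) * (n + 4) := by nlinarith
      nlinarith [pow_pos hn0 3]
    linarith
  linarith

end HSS_

open HSS_ in
theorem hss_proof (hT : Stmt_TPD) (hM : Stmt_SMM) (h4 : Stmt_SM4) (hmm : Stmt_MMS)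
    (_hS : Stmt_SPH) : Stmt_HSS := by
  intro n ι _ p w δ t v hn h hδ hk2 hk3 ht hv
  classical
  have hnR : (3 : ℝ) ≤ n := by exact_mod_cast hn
  have hn0 : (0 : ℝ) < n := by linarith
  set c : ℝ := inner ℝ t v with hc
  have htt : (inner ℝ t t : ℝ) = 1 := by rw [real_inner_self_eq_norm_sq, ht]; norm_num
  have hvv : (inner ℝ v v : ℝ) = 1 := by rw [real_inner_self_eq_norm_sq, hv]; norm_num
  have hww : ∀ i, (inner ℝ (w i) (w i) : ℝ) = 1 := fun i => by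
    rw [real_inner_self_eq_norm_sq, h.nrm i]; norm_num
  have hd2 : ‖v - t‖ ^ 2 = 2 - 2 * c := by
    rw [norm_sub_sq_real, hv, ht, real_inner_comm, ← hc]
    ring
  have hS1 : ‖v - t‖ ^ 2 * (1 - ‖v - t‖ ^ 2 / 4) = 1 - c ^ 2 := by
    rw [hd2]; ring
  -- the gradient term
  have hgrad : (inner ℝ (gh p w t) (v - t) : ℝ) =
      ∑ i, p i * ((c - 1 - inner ℝ (w i) t * inner ℝ (w i) v + (inner ℝ (w i) t) ^ 2) /
        √(1 - (inner ℝ (w i) t) ^ 2)) := by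
    unfold gh
    rw [sum_inner]
    apply Finset.sum_congr rfl
    intro i _
    rw [inner_smul_left, inner_sub_left, inner_sub_right, inner_smul_left, inner_sub_right, htt,
      ← hc]
    simp only [conj_trivial]
    ring
  have hx1 : ∀ i (u : EE n), ‖u‖ = 1 → (inner ℝ (w i) u : ℝ) ^ 2 ≤ 1 := by
    intro i u hu
    have := abs_real_inner_le_norm (w i) u
    rw [h.nrm i, hu, one_mul] at this
    exact (sq_le_one_iff_abs_le_one _).2 this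
  have hgram0 : ∀ i, 0 ≤ (1 - (inner ℝ (w i) t) ^ 2) * (1 - (inner ℝ (w i) v) ^ 2) -
      (c - inner ℝ (w i) t * inner ℝ (w i) v) ^ 2 := by
    intro i
    have h1 := real_inner_mul_inner_self_le (t - (inner ℝ (w i) t : ℝ) • w i)
      (v - (inner ℝ (w i) v : ℝ) • w i)
    have e1 : (inner ℝ (t - (inner ℝ (w i) t : ℝ) • w i) (v - (inner ℝ (w i) v : ℝ) • w i) : ℝ) =
        c - inner ℝ (w i) t * inner ℝ (w i) v := by
      simp only [inner_sub_left, inner_sub_right, inner_smul_left, inner_smul_right, hww, ← hc,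
        conj_trivial]
      rw [real_inner_comm (w i) t]
      ring
    have e2 : (inner ℝ (t - (inner ℝ (w i) t : ℝ) • w i) (t - (inner ℝ (w i) t : ℝ) • w i) : ℝ) =
        1 - (inner ℝ (w i) t) ^ 2 := by
      simp only [inner_sub_left, inner_sub_right, inner_smul_left, inner_smul_right, hww, htt,
        conj_trivial]
      rw [real_inner_comm (w i) t]
      ring
    have e3 : (inner ℝ (v - (inner ℝ (w i) v : ℝ) • w i) (v - (inner ℝ (w i) v : ℝ) • w i) : ℝ) =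
        1 - (inner ℝ (w i) v) ^ 2 := by
      simp only [inner_sub_left, inner_sub_right, inner_smul_left, inner_smul_right, hww, hvv,
        conj_trivial]
      rw [real_inner_comm (w i) v]
      ring
    rw [e1, e2, e3] at h1
    nlinarith
  have hd : ∀ i, |(inner ℝ (w i) v : ℝ) - inner ℝ (w i) t| ≤ ‖v - t‖ := by
    intro i
    rw [← inner_sub_right]
    have := abs_real_inner_le_norm (w i) (v - t)
    rwa [h.nrm i, one_mul] at this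
  rw [show (1 / 2 * ‖v - t‖ ^ 2 * (1 - ‖v - t‖ ^ 2 / 4) : ℝ) =
    1 / 2 * (‖v - t‖ ^ 2 * (1 - ‖v - t‖ ^ 2 / 4)) by ring, hS1, hgrad]
  unfold hh
  have hc1 : c ^ 2 ≤ 1 := by
    have := abs_real_inner_le_norm t v
    rw [ht, hv, one_mul] at this
    exact (sq_le_one_iff_abs_le_one _).2 this
  rcases hc1.eq_or_lt with hcc | hcc
  · -- degenerate case
    rw [hcc]
    have : ∑ i, p i * √(1 - (inner ℝ (w i) t) ^ 2) +
        ∑ i, p i * ((c - 1 - inner ℝ (w i) t * inner ℝ (w i) v + (inner ℝ (w i) t) ^ 2) /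
        √(1 - (inner ℝ (w i) t) ^ 2)) ≤ ∑ i, p i * √(1 - (inner ℝ (w i) v) ^ 2) := by
      rw [← Finset.sum_add_distrib]
      apply Finset.sum_le_sum
      intro i _
      rw [← mul_add]
      apply mul_le_mul_of_nonneg_left _ (h.ppos i).le
      have h1 := exc (inner ℝ (w i) t) (inner ℝ (w i) v) c (hx1 i t ht) (hx1 i v hv) (hgram0 i)
      have h2 : 0 ≤ ((1 - (inner ℝ (w i) t) ^ 2) * (1 - (inner ℝ (w i) v) ^ 2) -
          (c - inner ℝ (w i) t * inner ℝ (w i) v) ^ 2) /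
          (2 * (1 - (inner ℝ (w i) t : ℝ) ^ 2) * √(1 - (inner ℝ (w i) v) ^ 2)) := by
        apply div_nonneg (hgram0 i)
        have := hx1 i t ht
        apply mul_nonneg _ (Real.sqrt_nonneg _)
        linarith
      linarith
    linarith
  -- the main case
  set S : ℝ := 1 - c ^ 2 with hSdef
  have hSpos : 0 < S := by linarith
  have hsq : √S ^ 2 = S := Real.sq_sqrt hSpos.le
  have hs0 : 0 < √S := Real.sqrt_pos.2 hSpos
  set e : EE n := (√S)⁻¹ • (v - c • t) with he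
  have hnvt : ‖v - c • t‖ ^ 2 = S := by
    rw [← real_inner_self_eq_norm_sq]
    simp only [inner_sub_left, inner_sub_right, inner_smul_left, inner_smul_right, hvv, htt,
      conj_trivial]
    rw [real_inner_comm t v, ← hc]
    ring
  have hnvt' : ‖v - c • t‖ = √S := by
    rw [← hnvt, Real.sqrt_sq (norm_nonneg _)]
  have he1 : ‖e‖ = 1 := by
    rw [he, norm_smul, hnvt', norm_inv, Real.norm_of_nonneg hs0.le]
    exact inv_mul_cancel₀ hs0.ne'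
  have hte : inner ℝ t e = (0 : ℝ) := by
    rw [he, inner_smul_right, inner_sub_right, inner_smul_right, htt, ← hc]
    ring
  have hz : ∀ i, (inner ℝ (w i) v : ℝ) = c * inner ℝ (w i) t + √S * inner ℝ (w i) e := by
    intro i
    rw [he, inner_smul_right, inner_sub_right, inner_smul_right]
    field_simp
    ring
  have hbes : ∀ i, (inner ℝ (w i) t : ℝ) ^ 2 + (inner ℝ (w i) e) ^ 2 ≤ 1 := by
    intro i
    have h0 : 0 ≤ ‖w i - (inner ℝ (w i) t : ℝ) • t - (inner ℝ (w i) e : ℝ) • e‖ ^ 2 :=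
      sq_nonneg _
    rw [← real_inner_self_eq_norm_sq] at h0
    have hee : (inner ℝ e e : ℝ) = 1 := by rw [real_inner_self_eq_norm_sq, he1]; norm_num
    simp only [inner_sub_left, inner_sub_right, inner_smul_left, inner_smul_right, hww, htt, hee,
      conj_trivial, real_inner_comm t e, hte] at h0
    have c1 : (inner ℝ t (w i) : ℝ) = inner ℝ (w i) t := real_inner_comm _ _
    have c2 : (inner ℝ e (w i) : ℝ) = inner ℝ (w i) e := real_inner_comm _ _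
    simp only [c1, c2] at h0
    nlinarith
  have hmain : ∀ i, p i * √(1 - (inner ℝ (w i) t) ^ 2) +
      p i * ((c - 1 - inner ℝ (w i) t * inner ℝ (w i) v + (inner ℝ (w i) t) ^ 2) /
        √(1 - (inner ℝ (w i) t) ^ 2)) +
      p i * (S / 2 * (R (inner ℝ (w i) t) (inner ℝ (w i) e) - 5 / 2 * ‖v - t‖)) ≤
      p i * √(1 - (inner ℝ (w i) v) ^ 2) := by
    intro i
    rw [← mul_add, ← mul_add]
    apply mul_le_mul_of_nonneg_left _ (h.ppos i).le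
    apply pt (inner ℝ (w i) t) (inner ℝ (w i) e) (inner ℝ (w i) v) c S ‖v - t‖ (hbes i)
      (hx1 i v hv) hSpos _ (hd i)
    rw [hz i]
    have : (√S * inner ℝ (w i) e : ℝ) ^ 2 = S * (inner ℝ (w i) e) ^ 2 := by
      rw [mul_pow, hsq]
    have h9 : (1 - (inner ℝ (w i) t : ℝ) ^ 2) *
        (1 - (c * inner ℝ (w i) t + √S * inner ℝ (w i) e) ^ 2) -
        (c - inner ℝ (w i) t * (c * inner ℝ (w i) t + √S * inner ℝ (w i) e)) ^ 2 =
        (1 - c ^ 2) * (1 - (inner ℝ (w i) t : ℝ) ^ 2) - (√S * inner ℝ (w i) e) ^ 2 := by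
      ring
    rw [h9, this, ← hSdef]
    ring
  have hsum := Finset.sum_le_sum fun i (_ : i ∈ Finset.univ) => hmain i
  rw [Finset.sum_add_distrib, Finset.sum_add_distrib] at hsum
  have hR : ∑ i, p i * (S / 2 * (R (inner ℝ (w i) t) (inner ℝ (w i) e) - 5 / 2 * ‖v - t‖)) =
      S / 2 * (∑ i, p i * R (inner ℝ (w i) t) (inner ℝ (w i) e) - 5 / 2 * ‖v - t‖) := by
    have : 5 / 2 * ‖v - t‖ = ∑ i, p i * (5 / 2 * ‖v - t‖) := by
      rw [← Finset.sum_mul, h.psum, one_mul]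
    rw [this, ← Finset.sum_sub_distrib, Finset.mul_sum]
    rw [← this]
    apply Finset.sum_congr rfl
    intro i _
    ring
  rw [hR] at hsum
  have havg := avg hT hM h4 hmm p w δ hn h hδ hk2 hk3 t e ht he1 hte
  have hfin : 1 / 2 * S * (mm n - 40 / (n : ℝ) ^ 3 - 6 * δ - 4 * ‖v - t‖) ≤
      S / 2 * (∑ i, p i * R (inner ℝ (w i) t) (inner ℝ (w i) e) - 5 / 2 * ‖v - t‖) := by
    have hn' := norm_nonneg (v - t)
    have : mm n - 40 / (n : ℝ) ^ 3 - 6 * δ - 4 * ‖v - t‖ ≤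
        ∑ i, p i * R (inner ℝ (w i) t) (inner ℝ (w i) e) - 5 / 2 * ‖v - t‖ := by linarith
    have h10 := mul_le_mul_of_nonneg_left this (by positivity : (0 : ℝ) ≤ S / 2)
    linarith
  linarith

end PPX
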