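import Pool.Agent.PPX.Stmts

set_option autoImplicit false

namespace PPX

open MeasureTheory Set Filter Topology
open PPI PPG

namespace IMG_

/-- if the Gram matrix of unit vectors is close to the identity, the frame operator is at most 2 -/
theorem gram_bound {n k : ℕ} (y : Fin k → EE n) (hy : ∀ j, ‖y j‖ = 1) (hn : 64 ≤ n)
    (hk : (k : ℝ) ^ 3 ≤ n)
    (hG : ∑ i, ∑ j, (inner ℝ (y i) (y j)) ^ 2 ≤ (k : ℝ) + (k : ℝ) ^ 2 / n) (x : EE n) :
    ∑ j, (inner ℝ (y j) x) ^ 2 ≤ 2 * ‖x‖ ^ 2 := by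
  classical
  set c : Fin k → ℝ := fun j => inner ℝ (y j) x with hc
  set s : ℝ := ∑ j, (c j) ^ 2 with hs
  have hs0 : 0 ≤ s := Finset.sum_nonneg (fun j _ => sq_nonneg _)
  have hn0 : (64 : ℝ) ≤ n := by exact_mod_cast hn
  have hk4 : (k : ℝ) ^ 2 / n ≤ 1 / 4 := by
    rw [div_le_iff₀ (by linarith)]
    rcases le_total k 4 with h | h
    · have : (k : ℝ) ≤ 4 := by exact_mod_cast h
      have h0 : (0 : ℝ) ≤ k := Nat.cast_nonneg k
      nlinarith
    · have : (4 : ℝ) ≤ k := by exact_mod_cast h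
      have h2 : 4 * (k : ℝ) ^ 2 ≤ (k : ℝ) ^ 3 := by
        have : 0 ≤ (k : ℝ) ^ 2 := sq_nonneg _
        nlinarith
      linarith
  set E : Fin k → Fin k → ℝ := fun i j => inner ℝ (y i) (y j) - (if i = j then 1 else 0) with hE
  have hinner1 : ∀ i, inner ℝ (y i) (y i) = (1 : ℝ) := by
    intro i
    rw [real_inner_self_eq_norm_sq, hy i]; norm_num
  have hE2 : ∑ i, ∑ j, (E i j) ^ 2 ≤ 1 / 4 := by
    have h1 : ∀ i j, (E i j) ^ 2 = (inner ℝ (y i) (y j)) ^ 2 - (if i = j then 1 else 0) := by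
      intro i j
      by_cases hij : i = j
      · subst hij
        simp only [hE, hinner1, if_true]
        norm_num
      · simp only [hE, if_neg hij]
        ring
    simp only [h1, Finset.sum_sub_distrib]
    have h2 : ∑ i : Fin k, ∑ j : Fin k, (if i = j then (1 : ℝ) else 0) = k := by
      simp
    rw [h2]
    linarith
  set v : EE n := ∑ j, c j • y j with hv
  have hxv : inner ℝ v x = s := by
    rw [hv, sum_inner, hs]
    refine Finset.sum_congr rfl (fun j _ => ?_)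
    rw [real_inner_smul_left, hc]
    ring
  have hvv : ‖v‖ ^ 2 = s + ∑ i, ∑ j, (c i * c j) * E i j := by
    rw [← real_inner_self_eq_norm_sq, hv, sum_inner]
    have h1 : ∀ i, inner ℝ (c i • y i) (∑ j, c j • y j)
        = (c i) ^ 2 + ∑ j, (c i * c j) * E i j := by
      intro i
      rw [inner_sum]
      have h2 : ∀ j, inner ℝ (c i • y i) (c j • y j)
          = (c i * c j) * (if i = j then 1 else 0) + (c i * c j) * E i j := by
        intro j
        rw [real_inner_smul_left, real_inner_smul_right]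
        simp only [hE]
        ring
      rw [Finset.sum_congr rfl (fun j _ => h2 j), Finset.sum_add_distrib]
      congr 1
      simp [pow_two]
    rw [Finset.sum_congr rfl (fun i _ => h1 i), Finset.sum_add_distrib]
  have hCS : (∑ i, ∑ j, (c i * c j) * E i j) ^ 2 ≤ s ^ 2 * (1 / 4) := by
    have h1 : ∑ i, ∑ j, (c i * c j) * E i j
        = ∑ p : Fin k × Fin k, (c p.1 * c p.2) * E p.1 p.2 := by
      rw [Fintype.sum_prod_type]
    have h2 : ∑ p : Fin k × Fin k, (c p.1 * c p.2) ^ 2 = s ^ 2 := by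
      rw [Fintype.sum_prod_type, hs, pow_two, Finset.sum_mul_sum]
      refine Finset.sum_congr rfl (fun i _ => Finset.sum_congr rfl (fun j _ => ?_))
      ring
    have h3 : ∑ p : Fin k × Fin k, (E p.1 p.2) ^ 2 ≤ 1 / 4 := by
      rw [Fintype.sum_prod_type]; exact hE2
    rw [h1]
    refine le_trans (Finset.sum_mul_sq_le_sq_mul_sq _ _ _) ?_
    rw [h2]
    exact mul_le_mul_of_nonneg_left h3 (sq_nonneg _)
  have hoff : ∑ i, ∑ j, (c i * c j) * E i j ≤ s / 2 := by
    by_contra hcon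
    push Not at hcon
    have : (s / 2) ^ 2 < (∑ i, ∑ j, (c i * c j) * E i j) ^ 2 :=
      pow_lt_pow_left₀ hcon (by linarith) (by norm_num)
    nlinarith
  have hv2 : ‖v‖ ^ 2 ≤ 2 * s := by rw [hvv]; linarith
  have hcs : s ^ 2 ≤ ‖v‖ ^ 2 * ‖x‖ ^ 2 := by
    have h1 := abs_real_inner_le_norm v x
    rw [hxv] at h1
    have h2 : |s| ^ 2 ≤ (‖v‖ * ‖x‖) ^ 2 := pow_le_pow_left₀ (abs_nonneg _) h1 2
    rw [sq_abs, mul_pow] at h2
    exact h2
  have hx2 : 0 ≤ ‖x‖ ^ 2 := sq_nonneg _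
  by_cases hs1 : s = 0
  · show s ≤ 2 * ‖x‖ ^ 2
    rw [hs1]; linarith
  · have hs2 : 0 < s := lt_of_le_of_ne hs0 (Ne.symm hs1)
    show s ≤ 2 * ‖x‖ ^ 2
    have h3 : s * s ≤ (2 * ‖x‖ ^ 2) * s := by
      have : ‖v‖ ^ 2 * ‖x‖ ^ 2 ≤ (2 * s) * ‖x‖ ^ 2 := mul_le_mul_of_nonneg_right hv2 hx2
      nlinarith
    exact le_of_mul_le_mul_right h3 hs2

end IMG_

open IMG_ in
theorem img_proof (hORB : Stmt_ORB) (hIRQ : Stmt_IRQ) : Stmt_IMG := by
  classical
  intro n k K e hn hK hIrr he hk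
  have hn1 : 1 ≤ n := by omega
  have hn0 : (0 : ℝ) < n := by exact_mod_cast (by omega : 0 < n)
  obtain ⟨m, c, g, hc0, hc1, hg, hinv, -⟩ := hORB n K Unit (fun _ => 1) (fun _ => e) hn1 hK
    (fun _ => zero_le_one)
  have hinv' : ∀ h ∈ GK K, ∀ x, ∑ j, c j * (inner ℝ (g j e) (h x)) ^ 2
      = ∑ j, c j * (inner ℝ (g j e) x) ^ 2 := by
    intro h hh x
    have := hinv h hh x
    simpa [he] using this
  have hq : ∀ x : EE n, (n : ℝ) * ∑ j, c j * (inner ℝ (g j e) x) ^ 2 = ‖x‖ ^ 2 := by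
    intro x
    rw [hIRQ n K (Fin m) c (fun j => g j e) hn1 hIrr hinv' x]
    have : ∑ j, c j * ‖g j e‖ ^ 2 = 1 := by
      rw [← hc1]
      refine Finset.sum_congr rfl (fun j _ => ?_)
      rw [LinearIsometryEquiv.norm_map, he]; ring
    rw [this, one_mul]
  -- one more image
  have hstep : ∀ (N : ℕ) (y : Fin N → EE n), (∀ i, ‖y i‖ = 1) →
      ∃ j, ∑ i, (inner ℝ (g j e) (y i)) ^ 2 ≤ (N : ℝ) / n := by
    intro N y hy
    by_contra hcon
    push Not at hcon
    have hm : (Finset.univ : Finset (Fin m)).Nonempty := by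
      by_contra hne
      rw [Finset.not_nonempty_iff_eq_empty] at hne
      rw [hne, Finset.sum_empty] at hc1
      exact zero_ne_one hc1
    have h1 : ∑ j, c j * ((N : ℝ) / n) < ∑ j, c j * ∑ i, (inner ℝ (g j e) (y i)) ^ 2 :=
      Finset.sum_lt_sum_of_nonempty hm (fun j _ => mul_lt_mul_of_pos_left (hcon j) (hc0 j))
    rw [← Finset.sum_mul, hc1, one_mul] at h1
    have h2 : ∑ j, c j * ∑ i, (inner ℝ (g j e) (y i)) ^ 2 = (N : ℝ) / n := by
      simp only [Finset.mul_sum]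
      rw [Finset.sum_comm]
      have h3 : ∀ i, ∑ j, c j * (inner ℝ (g j e) (y i)) ^ 2 = 1 / n := by
        intro i
        have := hq (y i)
        rw [hy i] at this
        rw [eq_div_iff hn0.ne', mul_comm, this]; norm_num
      rw [Finset.sum_congr rfl (fun i _ => h3 i), Finset.sum_const, Finset.card_univ,
        Fintype.card_fin, nsmul_eq_mul]
      ring
    linarith
  -- construction
  have hcon : ∀ N : ℕ, ∃ f : Fin N → EE n ≃ₗᵢ[ℝ] EE n, (∀ j, f j ∈ GK K) ∧
      ∑ i, ∑ j, (inner ℝ (f i e) (f j e)) ^ 2 ≤ (N : ℝ) + (N : ℝ) ^ 2 / n := by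
    intro N
    induction N with
    | zero => exact ⟨Fin.elim0, fun j => j.elim0, by simp⟩
    | succ N ih =>
      obtain ⟨f, hf, hf2⟩ := ih
      obtain ⟨j, hj⟩ := hstep N (fun i => f i e) (fun i => by
        rw [LinearIsometryEquiv.norm_map, he])
      refine ⟨Fin.snoc f (g j), ?_, ?_⟩
      · intro i
        refine Fin.lastCases ?_ (fun i => ?_) i
        · rw [Fin.snoc_last]; exact hg j
        · rw [Fin.snoc_castSucc]; exact hf i
      · simp only [Fin.sum_univ_castSucc, Fin.snoc_castSucc, Fin.snoc_last]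
        rw [Finset.sum_add_distrib]
        have h1 : ∑ i, (inner ℝ (f i e) (g j e)) ^ 2 = ∑ i, (inner ℝ (g j e) (f i e)) ^ 2 :=
          Finset.sum_congr rfl (fun i _ => by rw [real_inner_comm])
        have h2 : inner ℝ (g j e) (g j e) = (1 : ℝ) := by
          rw [real_inner_self_eq_norm_sq, LinearIsometryEquiv.norm_map, he]; norm_num
        rw [h1, h2]
        have h3 : ((N + 1 : ℕ) : ℝ) + ((N + 1 : ℕ) : ℝ) ^ 2 / n
            = (N : ℝ) + (N : ℝ) ^ 2 / n + 2 * ((N : ℝ) / n) + 1 + 1 / n := by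
          push_cast; ring
        rw [h3]
        have h4 : (0 : ℝ) < 1 / n := by positivity
        linarith
  obtain ⟨f, hf, hf2⟩ := hcon k
  refine ⟨f, hf, fun x => ?_⟩
  exact gram_bound (fun j => f j e) (fun j => by rw [LinearIsometryEquiv.norm_map, he]) hn hk hf2 x

end PPX
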