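import Pool.Agent.PPX.Stmts

/-!
# Squad PPX (MP_0bf616_gt): module IN3, the exact formula for the Gram determinants.
-/

set_option autoImplicit false

namespace PPX

open MeasureTheory Set Filter Topology
open PPI PPG
open scoped Pointwise ENNReal

namespace IN3_

/-- integrals against `mun` of nonnegative continuous functions -/
lemma mun_int {n : ℕ} (F : EE n → ℝ) (hF : Continuous F) (hF0 : ∀ x, 0 ≤ F x)
    (hk : 0 < kap n) (v : ℝ) (hv : 0 ≤ v)
    (h : ∫⁻ x : EE n, ENNReal.ofReal ((1 + ‖x‖ ^ 2) ^ (-((n : ℝ) / 2) - 1) * F x) =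
      ENNReal.ofReal (kap n * v)) :
    Integrable F (mun n) ∧ ∫ x, F x ∂(mun n) = v := by
  have hcd : Continuous fun x : EE n => (1 + ‖x‖ ^ 2) ^ (-((n : ℝ) / 2) - 1) / kap n := by
    refine Continuous.div_const (Continuous.rpow_const (by fun_prop) fun x => Or.inl ?_) _
    positivity
  have hl : ∫⁻ x, ENNReal.ofReal (F x) ∂(mun n) = ENNReal.ofReal v := by
    unfold mun
    rw [lintegral_withDensity_eq_lintegral_mul _ hcd.measurable.ennreal_ofReal
      hF.measurable.ennreal_ofReal]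
    have h1 : ∀ x : EE n, ((fun x : EE n => ENNReal.ofReal ((1 + ‖x‖ ^ 2) ^ (-((n : ℝ) / 2) - 1)
        / kap n)) * fun x => ENNReal.ofReal (F x)) x =
        ENNReal.ofReal (1 / kap n) *
          ENNReal.ofReal ((1 + ‖x‖ ^ 2) ^ (-((n : ℝ) / 2) - 1) * F x) := by
      intro x
      rw [Pi.mul_apply, ← ENNReal.ofReal_mul (by positivity), ← ENNReal.ofReal_mul (by positivity)]
      congr 1
      ring
    rw [lintegral_congr h1, lintegral_const_mul' _ _ ENNReal.ofReal_ne_top, h,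
      ← ENNReal.ofReal_mul (by positivity)]
    congr 1
    field_simp
  have hI : Integrable F (mun n) := by
    refine ⟨hF.aestronglyMeasurable, ?_⟩
    rw [hasFiniteIntegral_iff_ofReal (Eventually.of_forall hF0), hl]
    exact ENNReal.ofReal_lt_top
  refine ⟨hI, ?_⟩
  rw [integral_eq_lintegral_of_nonneg_ae (Eventually.of_forall hF0) hF.aestronglyMeasurable, hl,
    ENNReal.toReal_ofReal hv]

lemma wv_cont {n : ℕ} (a : EE n) : Continuous fun x : EE n => wv x a := by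
  unfold wv
  refine Continuous.mul (by fun_prop) (Continuous.rpow_const (by fun_prop) fun x => Or.inl ?_)
  positivity

lemma key_pt {n : ℕ} (x : EE n) (u v s : ℝ) (hs : s ^ 2 < 1) :
    (1 + ‖x‖ ^ 2) ^ (-((n : ℝ) / 2) - 1) *
      ((√(1 + ‖x‖ ^ 2) * (1 + u ^ 2) ^ (-((n : ℝ) / 2) - 1)) *
        (√(1 + ‖x‖ ^ 2) * (1 + v ^ 2) ^ (-((n : ℝ) / 2) - 1)) *
        ((1 + u ^ 2) * (1 + v ^ 2) - (s + u * v) ^ 2)) =
    (1 + ‖x‖ ^ 2) ^ (-((n : ℝ) / 2)) *
      ((1 + u ^ 2) ^ (-((n : ℝ) / 2) - 1) * (1 + v ^ 2) ^ (-((n : ℝ) / 2) - 1) *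
        (1 - s ^ 2 + u ^ 2 + v ^ 2 - 2 * s * u * v)) := by
  have h : 0 < 1 + ‖x‖ ^ 2 := by positivity
  have h1 : √(1 + ‖x‖ ^ 2) * √(1 + ‖x‖ ^ 2) = 1 + ‖x‖ ^ 2 := Real.mul_self_sqrt h.le
  have h2 : (1 + ‖x‖ ^ 2) ^ (-((n : ℝ) / 2) - 1) * (1 + ‖x‖ ^ 2) =
      (1 + ‖x‖ ^ 2) ^ (-((n : ℝ) / 2)) := by
    rw [Real.rpow_sub_one h.ne', div_mul_cancel₀ _ h.ne']
  rw [← h2]
  calc _ = (1 + ‖x‖ ^ 2) ^ (-((n : ℝ) / 2) - 1) * (√(1 + ‖x‖ ^ 2) * √(1 + ‖x‖ ^ 2)) *
        ((1 + u ^ 2) ^ (-((n : ℝ) / 2) - 1) * (1 + v ^ 2) ^ (-((n : ℝ) / 2) - 1) *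
          ((1 + u ^ 2) * (1 + v ^ 2) - (s + u * v) ^ 2)) := by ring
    _ = _ := by
        rw [h1]
        ring

lemma quad_pos (u v s : ℝ) (hs : s ^ 2 < 1) : 0 < 1 - s ^ 2 + u ^ 2 + v ^ 2 - 2 * s * u * v := by
  have h : 1 - s ^ 2 + u ^ 2 + v ^ 2 - 2 * s * u * v =
      (1 - s ^ 2) + (u - s * v) ^ 2 + (1 - s ^ 2) * v ^ 2 := by ring
  rw [h]
  have h1 : 0 < 1 - s ^ 2 := by linarith
  have h2 := sq_nonneg (u - s * v)
  have h3 := mul_nonneg h1.le (sq_nonneg v)
  linarith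

end IN3_

open IN3_

theorem in3_proof (hRD2 : Stmt_RD2) (hC1D : Stmt_C1D) (hAVE : PPI.Stmt_AVE) : Stmt_IN3 := by
  intro n a b hn ha hb
  have hk : 0 < kap n := (hAVE n (by omega)).1
  have hk1 : 0 < kap (n - 1) := (hAVE (n - 1) (by omega)).1
  have hk2 : 0 ≤ kap (n - 2) := ENNReal.toReal_nonneg
  set s : ℝ := inner ℝ a b with hs
  have hs1 : s ^ 2 ≤ 1 := by
    have h := abs_real_inner_le_norm a b
    rw [ha, hb, mul_one] at h
    have h2 : |s| ≤ 1 := h
    calc s ^ 2 = |s| ^ 2 := (sq_abs s).symm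
      _ ≤ 1 ^ 2 := pow_le_pow_left₀ (abs_nonneg _) h2 2
      _ = 1 := one_pow 2
  have hcont : Continuous fun x : EE n => wv x a * wv x b *
      ((1 + (inner ℝ x a) ^ 2) * (1 + (inner ℝ x b) ^ 2) -
        (s + inner ℝ x a * inner ℝ x b) ^ 2) := by
    refine ((wv_cont a).mul (wv_cont b)).mul ?_
    fun_prop
  rcases hs1.lt_or_eq with hlt | heq
  · refine mun_int _ hcont ?_ hk _ ?_ ?_
    · intro x
      refine mul_nonneg (mul_nonneg ?_ ?_) ?_
      · unfold wv; positivity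
      · unfold wv; positivity
      · have h := quad_pos (inner ℝ x a) (inner ℝ x b) s hlt
        have h2 : (1 + (inner ℝ x a) ^ 2) * (1 + (inner ℝ x b) ^ 2) -
          (s + inner ℝ x a * inner ℝ x b) ^ 2 = 1 - s ^ 2 + (inner ℝ x a) ^ 2 +
            (inner ℝ x b) ^ 2 - 2 * s * inner ℝ x a * inner ℝ x b := by ring
        rw [h2]
        exact h.le
    · unfold om
      positivity
    · let G : ℝ → ℝ → ℝ := fun u v =>
        (1 + u ^ 2) ^ (-((n : ℝ) / 2) - 1) * (1 + v ^ 2) ^ (-((n : ℝ) / 2) - 1) *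
          (1 - s ^ 2 + u ^ 2 + v ^ 2 - 2 * s * u * v)
      have hG : Continuous (Function.uncurry G) := by
        have h1 : Continuous fun z : ℝ × ℝ => (1 + z.1 ^ 2) ^ (-((n : ℝ) / 2) - 1) :=
          Continuous.rpow_const (by fun_prop) fun x => Or.inl (by positivity)
        have h2 : Continuous fun z : ℝ × ℝ => (1 + z.2 ^ 2) ^ (-((n : ℝ) / 2) - 1) :=
          Continuous.rpow_const (by fun_prop) fun x => Or.inl (by positivity)
        have h3 : Continuous fun z : ℝ × ℝ =>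
            (1 - s ^ 2 + z.1 ^ 2 + z.2 ^ 2 - 2 * s * z.1 * z.2) := by fun_prop
        exact (h1.mul h2).mul h3
      have hr := hRD2 n a b (fun u v => ENNReal.ofReal (G u v)) s hn ha hb hs.symm hlt
        hG.measurable.ennreal_ofReal
      have hL : ∀ x : EE n, ENNReal.ofReal ((1 + ‖x‖ ^ 2) ^ (-((n : ℝ) / 2) - 1) *
          (wv x a * wv x b * ((1 + (inner ℝ x a) ^ 2) * (1 + (inner ℝ x b) ^ 2) -
            (s + inner ℝ x a * inner ℝ x b) ^ 2))) =
          ENNReal.ofReal ((1 + ‖x‖ ^ 2) ^ (-((n : ℝ) / 2))) *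
            ENNReal.ofReal (G (inner ℝ x a) (inner ℝ x b)) := by
        intro x
        rw [← ENNReal.ofReal_mul (by positivity)]
        congr 1
        unfold wv
        exact key_pt x (inner ℝ x a) (inner ℝ x b) s hlt
      rw [lintegral_congr hL, hr]
      have hin : ∀ u v : ℝ, ENNReal.ofReal (G u v) *
          ENNReal.ofReal (√(1 - s ^ 2) / (1 - s ^ 2 + u ^ 2 + v ^ 2 - 2 * s * u * v)) =
          (ENNReal.ofReal (√(1 - s ^ 2)) * ENNReal.ofReal ((1 + u ^ 2) ^ (-((n : ℝ) / 2) - 1))) *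
            ENNReal.ofReal ((1 + v ^ 2) ^ (-((n : ℝ) / 2) - 1)) := by
        intro u v
        have hq := quad_pos u v s hlt
        have hGn : 0 ≤ G u v := by
          show 0 ≤ (1 + u ^ 2) ^ (-((n : ℝ) / 2) - 1) * (1 + v ^ 2) ^ (-((n : ℝ) / 2) - 1) *
            (1 - s ^ 2 + u ^ 2 + v ^ 2 - 2 * s * u * v)
          positivity
        rw [← ENNReal.ofReal_mul hGn, ← ENNReal.ofReal_mul (by positivity),
          ← ENNReal.ofReal_mul (by positivity)]
        congr 1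
        show (1 + u ^ 2) ^ (-((n : ℝ) / 2) - 1) * (1 + v ^ 2) ^ (-((n : ℝ) / 2) - 1) *
            (1 - s ^ 2 + u ^ 2 + v ^ 2 - 2 * s * u * v) *
          (√(1 - s ^ 2) / (1 - s ^ 2 + u ^ 2 + v ^ 2 - 2 * s * u * v)) = _
        rw [mul_assoc, mul_div_cancel₀ _ hq.ne']
        ring
      simp only [hin]
      have hc := hC1D n (by omega)
      have hin2 : ∀ u : ℝ, ∫⁻ v : ℝ, (ENNReal.ofReal (√(1 - s ^ 2)) *
          ENNReal.ofReal ((1 + u ^ 2) ^ (-((n : ℝ) / 2) - 1))) *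
            ENNReal.ofReal ((1 + v ^ 2) ^ (-((n : ℝ) / 2) - 1)) =
          (ENNReal.ofReal (√(1 - s ^ 2)) * ENNReal.ofReal (kap n / kap (n - 1))) *
            ENNReal.ofReal ((1 + u ^ 2) ^ (-((n : ℝ) / 2) - 1)) := by
        intro u
        rw [lintegral_const_mul' _ _ (ENNReal.mul_ne_top ENNReal.ofReal_ne_top
          ENNReal.ofReal_ne_top), hc]
        ring
      rw [lintegral_congr hin2, lintegral_const_mul' _ _ (ENNReal.mul_ne_top ENNReal.ofReal_ne_top
          ENNReal.ofReal_ne_top), hc]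
      have hq : 0 ≤ kap n / kap (n - 1) := by positivity
      rw [← ENNReal.ofReal_mul (Real.sqrt_nonneg _), ← ENNReal.ofReal_mul (by positivity),
        ← ENNReal.ofReal_mul hk2]
      congr 1
      unfold om
      field_simp
  · -- degenerate case
    have hba : b = s • a := by
      have h : ‖b - s • a‖ ^ 2 = 0 := by
        rw [norm_sub_sq_real, norm_smul, ha, hb, real_inner_smul_right, real_inner_comm, ← hs,
          Real.norm_eq_abs, mul_one, sq_abs, heq]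
        have : s * s = 1 := by rw [← sq, heq]
        rw [this]
        norm_num
      have h2 : b - s • a = 0 := by
        rw [← norm_eq_zero]
        exact pow_eq_zero_iff (two_ne_zero) |>.mp h
      exact sub_eq_zero.mp h2
    have hz : ∀ x : EE n, wv x a * wv x b *
      ((1 + (inner ℝ x a) ^ 2) * (1 + (inner ℝ x b) ^ 2) -
        (s + inner ℝ x a * inner ℝ x b) ^ 2) = 0 := by
      intro x
      have hv : inner ℝ x b = s * inner ℝ x a := by
        conv_lhs => rw [hba]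
        rw [real_inner_smul_right]
      have h0 : (1 + (inner ℝ x a) ^ 2) * (1 + (inner ℝ x b) ^ 2) -
        (s + inner ℝ x a * inner ℝ x b) ^ 2 = 0 := by
        rw [hv]
        linear_combination (-(1 : ℝ) - (inner ℝ x a) ^ 2) * heq
      rw [h0, mul_zero]
    simp only [hz]
    refine ⟨integrable_zero _ _ _, ?_⟩
    rw [heq]
    simp

end PPX
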