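import Pool.Agent.PPX.Stmts

/-!
# Squad PPX (MP_0bf616_gt), module IRQ: invariant quadratic forms
-/

set_option autoImplicit false

namespace PPX

open MeasureTheory Set Filter Topology
open PPI PPG

namespace IRQ_

variable {n : ℕ} {ι : Type} [Fintype ι]

/-- the bilinear form -/
noncomputable def B (a : ι → ℝ) (u : ι → EE n) (x y : EE n) : ℝ :=
  ∑ i, a i * (inner ℝ (u i) x * inner ℝ (u i) y)

theorem B_self (a : ι → ℝ) (u : ι → EE n) (x : EE n) :
    B a u x x = ∑ i, a i * (inner ℝ (u i) x) ^ 2 := by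
  simp only [B, pow_two]

theorem B_polar (a : ι → ℝ) (u : ι → EE n) (x y : EE n) :
    2 * B a u x y = ∑ i, a i * (inner ℝ (u i) (x + y)) ^ 2 -
      ∑ i, a i * (inner ℝ (u i) x) ^ 2 - ∑ i, a i * (inner ℝ (u i) y) ^ 2 := by
  rw [B, Finset.mul_sum, ← Finset.sum_sub_distrib, ← Finset.sum_sub_distrib]
  apply Finset.sum_congr rfl
  intro i _
  rw [inner_add_right]
  ring

/-- the symmetric operator -/
noncomputable def S (a : ι → ℝ) (u : ι → EE n) : EE n →ₗ[ℝ] EE n where
  toFun x := ∑ i, (a i * inner ℝ (u i) x) • u i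
  map_add' x y := by
    rw [← Finset.sum_add_distrib]
    apply Finset.sum_congr rfl
    intro i _
    rw [inner_add_right, mul_add, add_smul]
  map_smul' c x := by
    rw [RingHom.id_apply, Finset.smul_sum]
    apply Finset.sum_congr rfl
    intro i _
    rw [inner_smul_right, smul_smul]
    congr 1
    ring

theorem inner_S (a : ι → ℝ) (u : ι → EE n) (x y : EE n) :
    inner ℝ (S a u x) y = B a u x y := by
  show inner ℝ (∑ i, (a i * inner ℝ (u i) x) • u i) y = _
  rw [sum_inner, B]
  apply Finset.sum_congr rfl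
  intro i _
  rw [real_inner_smul_left, mul_assoc]

theorem B_comm (a : ι → ℝ) (u : ι → EE n) (x y : EE n) : B a u x y = B a u y x := by
  rw [B, B]
  apply Finset.sum_congr rfl
  intro i _
  ring

theorem S_symm (a : ι → ℝ) (u : ι → EE n) : (S a u).IsSymmetric := by
  intro x y
  rw [inner_S, real_inner_comm, inner_S, B_comm]

/-- the eigenspace -/
noncomputable def V (a : ι → ℝ) (u : ι → EE n) (μ : ℝ) : Submodule ℝ (EE n) where
  carrier := {x | ∀ y, B a u x y = μ * inner ℝ x y}
  add_mem' := by
    intro x z hx hz y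
    have h1 := hx y
    have h2 := hz y
    rw [← inner_S] at h1 h2 ⊢
    rw [map_add, inner_add_left, h1, h2, inner_add_left, mul_add]
  zero_mem' := by
    intro y
    rw [← inner_S]
    simp
  smul_mem' := by
    intro c x hx y
    have h1 := hx y
    rw [← inner_S] at h1 ⊢
    rw [map_smul, real_inner_smul_left, h1, real_inner_smul_left]
    ring

end IRQ_

open IRQ_ in
theorem irq_proof : Stmt_IRQ := by
  intro n K ι _ a u hn hK hinv x
  haveI : Nonempty (Fin n) := ⟨⟨0, hn⟩⟩
  haveI : Nontrivial (EE n) := by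
    refine ⟨⟨0, EuclideanSpace.single (⟨0, hn⟩ : Fin n) (1 : ℝ), ?_⟩⟩
    intro h
    have := congrArg (fun z : EE n => z ⟨0, hn⟩) h
    simp at this
  have hev := (S_symm a u).hasEigenvalue_iSup_of_finiteDimensional
  obtain ⟨x0, hx0⟩ := hev.exists_hasEigenvector
  set μ : ℝ := ((⨆ x : { x : EE n // x ≠ 0 }, RCLike.re (inner ℝ (S a u x) (x : EE n)) /
    ‖(x : EE n)‖ ^ 2 : ℝ) : ℝ) with hμ
  have hx0V : x0 ∈ V a u μ := by
    intro y
    rw [← inner_S, hx0.apply_eq_smul]
    rw [real_inner_smul_left]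
    rfl
  have hB : ∀ h ∈ GK K, ∀ x y, B a u (h x) (h y) = B a u x y := by
    intro h hh x y
    have h1 := B_polar a u (h x) (h y)
    have h2 := B_polar a u x y
    rw [← map_add, hinv h hh, hinv h hh, hinv h hh, ← h2] at h1
    linarith
  have hVinv : ∀ g ∈ GK K, ∀ x ∈ V a u μ, g x ∈ V a u μ := by
    intro g hg x hx y
    have h1 := hB g hg x (g.symm y)
    rw [LinearIsometryEquiv.apply_symm_apply] at h1
    rw [h1, hx (g.symm y)]
    congr 1
    have h2 := g.inner_map_map x (g.symm y)
    rw [LinearIsometryEquiv.apply_symm_apply] at h2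
    exact h2.symm
  have htop : V a u μ = ⊤ := by
    rcases hK (V a u μ) hVinv with h | h
    · exfalso
      rw [h, Submodule.mem_bot] at hx0V
      exact hx0.2 hx0V
    · exact h
  have hall : ∀ x y, B a u x y = μ * inner ℝ x y := by
    intro x y
    have : x ∈ V a u μ := by rw [htop]; trivial
    exact this y
  have htr : ∑ i, a i * ‖u i‖ ^ 2 = n * μ := by
    have h1 : ∀ j : Fin n, B a u (EuclideanSpace.single j (1 : ℝ))
        (EuclideanSpace.single j (1 : ℝ)) = μ := by
      intro j
      rw [hall]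
      simp
    have h2 : ∑ j : Fin n, B a u (EuclideanSpace.single j (1 : ℝ))
        (EuclideanSpace.single j (1 : ℝ)) = n * μ := by
      rw [Finset.sum_congr rfl fun j _ => h1 j]
      simp
    rw [← h2]
    simp only [B]
    rw [Finset.sum_comm]
    apply Finset.sum_congr rfl
    intro i _
    rw [← Finset.mul_sum]
    congr 1
    rw [EuclideanSpace.norm_sq_eq]
    apply Finset.sum_congr rfl
    intro j _
    have h3 : inner ℝ (u i) (EuclideanSpace.single j (1 : ℝ)) = u i j := by
      rw [EuclideanSpace.inner_single_right]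
      simp
    rw [h3, Real.norm_eq_abs, sq_abs, pow_two]
  rw [htr, ← B_self, hall, real_inner_self_eq_norm_sq]
  ring

end PPX
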