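import Pool.Agent.PPX.Stmts

/-!
# Squad PPX (MP_0bf616_gt), module IS2: polytopes in isotropic position
-/

set_option autoImplicit false

namespace PPX

open MeasureTheory Set Filter Topology
open PPI PPG
open scoped Pointwise ENNReal

namespace IS2_

variable {n : ℕ}

lemma det_adjoint (A : EE n →L[ℝ] EE n) : (ContinuousLinearMap.adjoint A).det = A.det := by
  unfold ContinuousLinearMap.det
  rw [← ContinuousLinearMap.adjoint_toLinearMap,
    ← LinearMap.det_toMatrix (EuclideanSpace.basisFun (Fin n) ℝ).toBasis,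
    LinearMap.toMatrix_adjoint, Matrix.det_conjTranspose,
    ← LinearMap.det_toMatrix (EuclideanSpace.basisFun (Fin n) ℝ).toBasis]
  simp

lemma vl_image (T : EE n →L[ℝ] EE n) (S : Set (EE n)) : vl (T '' S) = |T.det| * vl S := by
  unfold vl
  rw [Measure.addHaar_image_continuousLinearMap, ENNReal.toReal_mul,
    ENNReal.toReal_ofReal (abs_nonneg _)]

lemma dt_smul (c : Fin n → ℝ) (x : Fin n → EE n) :
    dt (fun k => c k • x k) = (∏ k, c k) * dt x := by
  unfold dt
  rw [← Matrix.det_mul_column]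
  congr 1

lemma XT_resc {ι : Type} [Fintype ι] (a s : ι → ℝ) (u : ι → EE n) (S : ℝ) (hS : 0 < S)
    (hs : ∀ i, 0 < s i) :
    XT (fun i => a i * s i / S) (fun i => (s i)⁻¹ • u i) = (S ^ n)⁻¹ * XT a u := by
  unfold XT
  rw [Finset.mul_sum]
  refine Finset.sum_congr rfl fun f _ => ?_
  rw [dt_smul (fun k => (s (f k))⁻¹) (fun k => u (f k)), abs_mul]
  have h1 : |∏ k : Fin n, (s (f k))⁻¹| = (∏ k : Fin n, s (f k))⁻¹ := by
    rw [Finset.prod_inv_distrib, abs_inv, abs_of_pos (Finset.prod_pos fun k _ => hs (f k))]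
  have h2 : ∏ k : Fin n, (a (f k) * s (f k) / S) =
      (∏ k : Fin n, a (f k)) * (∏ k : Fin n, s (f k)) * (S ^ n)⁻¹ := by
    rw [Finset.prod_div_distrib, Finset.prod_mul_distrib, Finset.prod_const, Finset.card_univ,
      Fintype.card_fin, div_eq_mul_inv]
  have h3 : (∏ k : Fin n, s (f k)) ≠ 0 := (Finset.prod_pos fun k _ => hs (f k)).ne'
  rw [h1, h2]
  field_simp

end IS2_

open IS2_ in
theorem is2_proof (h1 : Stmt_GE4) (h2 : PPG.Stmt_PMN) (h3 : PPG.Stmt_PFO) (h4 : PPI.Stmt_SPN)
    (h5 : PPI.Stmt_TRX) (h7 : PPI.Stmt_ZON) (h8 : PPI.Stmt_MON) (_h9 : Stmt_CNB)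
    (h6 : PPI.Stmt_AVE) : Stmt_IS2 := by
  intro n N v hn hcomp hvol
  obtain ⟨ι, hι, a, u, hMK, hsh, hprism⟩ := h1 n N v hn hcomp hvol
  have hn1 : 1 ≤ n := by omega
  have hnp : (0 : ℝ) < n := by positivity
  have hk : 0 < kap n := (h6 n hn1).1
  set V := vl (Pol v) with hV
  have hVn : 0 < V ^ (n - 1) := by positivity
  have hspan := h4 n ι a u _ hn1 hMK hVn
  have hr : 0 < V / kap n := by positivity
  obtain ⟨B, hBdet, hBmin⟩ := h2 n ι a u (V / kap n) hn1 hMK.pos hspan hr
  have hdet : B.det ≠ 0 := by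
    intro h0
    rw [h0, abs_zero] at hBdet
    linarith
  have hfo := h3 n ι a u B hn1 hMK.pos hMK.ne hdet (by
    intro B' hB'
    exact hBmin B' (by rw [hB', hBdet]))
  have hBne : ∀ i, B (u i) ≠ 0 := by
    intro i h0
    apply hMK.ne i
    have h := (B.toContinuousLinearEquivOfDetNeZero hdet).injective
    apply h
    rw [ContinuousLinearMap.toContinuousLinearEquivOfDetNeZero_apply,
      ContinuousLinearMap.toContinuousLinearEquivOfDetNeZero_apply]
    simpa using h0
  have hs : ∀ i, 0 < ‖B (u i)‖ := fun i => norm_pos_iff.mpr (hBne i)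
  set S := ∑ i, a i * ‖B (u i)‖ with hS
  have hι1 : Nonempty ι := by
    have hne : (EuclideanSpace.single (⟨0, by omega⟩ : Fin n) (1 : ℝ)) ≠ (0 : EE n) := by
      intro h0
      have := congrArg (fun x : EE n => ‖x‖) h0
      simp at this
    obtain ⟨i, _⟩ := hspan _ hne
    exact ⟨i⟩
  have hSpos : 0 < S := Finset.sum_pos (fun i _ => mul_pos (hMK.pos i) (hs i))
    Finset.univ_nonempty
  set p : ι → ℝ := fun i => a i * ‖B (u i)‖ / S with hp
  set w : ι → EE n := fun i => (‖B (u i)‖)⁻¹ • B (u i) with hw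
  set D : ℝ := n * Real.log (S / (n * V)) with hD
  have hSV : 0 < S / (n * V) := by positivity
  have hDn : Real.exp (D / n) = S / (n * V) := by
    rw [hD, mul_div_cancel_left₀ _ hnp.ne', Real.exp_log hSV]
  have hDe : Real.exp D = (S / (n * V)) ^ n := by
    rw [← hDn, ← Real.exp_nat_mul]
    congr 1
    field_simp
  have hVV : V * V ^ (n - 1) = V ^ n := by
    rw [← pow_succ']
    congr 1
    omega
  set A : EE n →L[ℝ] EE n := ContinuousLinearMap.adjoint B with hA
  have hAdet : |A.det| = V / kap n := by rw [hA, det_adjoint, hBdet]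
  have hpsum : ∑ i, p i = 1 := by
    simp only [hp]
    rw [← Finset.sum_div]
    exact div_self hSpos.ne'
  have hpc : ∀ c : ι → ℝ, ∑ i, a i * (‖B (u i)‖ * c i) = S * ∑ i, p i * c i := by
    intro c
    rw [Finset.mul_sum]
    refine Finset.sum_congr rfl fun i _ => ?_
    simp only [hp]
    field_simp
  have hIS : IS p w := by
    refine ⟨fun i => div_pos (mul_pos (hMK.pos i) (hs i)) hSpos, hpsum, fun i => ?_, fun x => ?_⟩
    · simp only [hw]
      rw [norm_smul, norm_inv, norm_norm, inv_mul_cancel₀ (hs i).ne']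
    · have e1 := hfo x
      have e2 : ∑ i, p i * (inner ℝ (w i) x) ^ 2 =
          S⁻¹ * ∑ i, a i * ((inner ℝ (B (u i)) x) ^ 2 / ‖B (u i)‖) := by
        rw [Finset.mul_sum]
        refine Finset.sum_congr rfl fun i _ => ?_
        simp only [hp, hw]
        rw [real_inner_smul_left]
        have := (hs i).ne'
        field_simp
      rw [e2]
      calc (n : ℝ) * (S⁻¹ * ∑ i, a i * ((inner ℝ (B (u i)) x) ^ 2 / ‖B (u i)‖))
          = S⁻¹ * (n * ∑ i, a i * ((inner ℝ (B (u i)) x) ^ 2 / ‖B (u i)‖)) := by ring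
        _ = S⁻¹ * (S * ‖x‖ ^ 2) := by rw [e1]
        _ = ‖x‖ ^ 2 := by field_simp
  refine ⟨ι, hι, p, w, D, hIS, ?_, ?_, ?_⟩
  · -- Minkowski
    intro L c hL hLc hLn hb
    have hm := hMK.mink (A '' L) (fun i => ‖B (u i)‖ * c i)
      (hL.image A.continuous) (hLc.linear_image A.toLinearMap)
      (hLn.image _) (by
        rintro i _ ⟨x, hx, rfl⟩
        rw [hA, ContinuousLinearMap.adjoint_inner_right]
        have h7 := hb i x hx
        simp only [hw] at h7
        rw [real_inner_smul_left, inv_mul_le_iff₀ (hs i)] at h7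
        exact h7)
    rw [hpc c, vl_image, hAdet] at hm
    obtain ⟨hm1, hm2⟩ := hm
    refine ⟨nonneg_of_mul_nonneg_right hm1 hSpos, ?_⟩
    have e3 : (0 : ℝ) < (n : ℝ) ^ n * V ^ n := by positivity
    have e4 : (n : ℝ) ^ n * V ^ n * vl L ≤ kap n * S ^ n * (∑ i, p i * c i) ^ n := by
      calc (n : ℝ) ^ n * V ^ n * vl L
          = kap n * ((n : ℝ) ^ n * V ^ (n - 1) * (V / kap n * vl L)) := by
            rw [← hVV]
            field_simp
        _ ≤ kap n * (S * ∑ i, p i * c i) ^ n := mul_le_mul_of_nonneg_left hm2 hk.le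
        _ = kap n * S ^ n * (∑ i, p i * c i) ^ n := by
            rw [mul_pow]
            ring
    have e5 : kap n * Real.exp D * (∑ i, p i * c i) ^ n =
        (kap n * S ^ n * (∑ i, p i * c i) ^ n) / ((n : ℝ) ^ n * V ^ n) := by
      rw [hDe, div_pow, mul_pow]
      ring
    rw [e5, le_div_iff₀ e3]
    linarith
  · -- the projection body
    intro hX
    have e6 : XT p w = (S ^ n)⁻¹ * (V / kap n * XT a u) := by
      have e7 := XT_resc a (fun i => ‖B (u i)‖) (fun i => B (u i)) S hSpos hs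
      have e8 := h5 n ι a u B
      rw [e8, hBdet] at e7
      exact e7
    have hz := h7 n ι a u hn1 hMK.pos
    have hsub : zon a u ⊆ projBody (Pol v) := by
      intro y hy x hx
      have := hy x hx
      have := hsh x hx
      linarith
    have hzv : vl (zon a u) ≤ vl (projBody (Pol v)) :=
      ENNReal.toReal_mono ((h8 n hn).1 _ hcomp) (measure_mono hsub)
    have hfac : (0 : ℝ) < (n.factorial : ℝ) := by positivity
    have e9 : Real.exp D * XT p w ≤
        V / kap n * (n.factorial * vl (projBody (Pol v))) / ((n : ℝ) ^ n * V ^ n) := by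
      rw [e6, hDe, div_pow, mul_pow]
      have : S ^ n / ((n : ℝ) ^ n * V ^ n) * ((S ^ n)⁻¹ * (V / kap n * XT a u)) =
          V / kap n * XT a u / ((n : ℝ) ^ n * V ^ n) := by
        field_simp
      rw [this]
      have h10 : XT a u ≤ n.factorial * vl (projBody (Pol v)) :=
        hz.trans (mul_le_mul_of_nonneg_left hzv hfac.le)
      gcongr
    have e10 := hX.trans e9
    unfold X0 at e10
    unfold Pn
    have hkk : kap n * kap n ^ (n - 2) = kap n ^ (n - 1) := by
      rw [← pow_succ']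
      congr 1
      omega
    rw [div_le_div_iff₀ (by positivity) (by positivity)] at e10
    have e11 : (kap (n - 1) ^ n * V ^ (n - 1)) *
        ((n.factorial : ℝ) * (n : ℝ) ^ n * V) ≤
        (vl (projBody (Pol v)) * kap n ^ (n - 2)) * ((n.factorial : ℝ) * (n : ℝ) ^ n * V) := by
      calc (kap (n - 1) ^ n * V ^ (n - 1)) * ((n.factorial : ℝ) * (n : ℝ) ^ n * V)
          = n.factorial * kap (n - 1) ^ n * ((n : ℝ) ^ n * V ^ n) := by
            rw [← hVV]; ring
        _ ≤ _ := e10
        _ = (vl (projBody (Pol v)) * kap n ^ (n - 2)) *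
              ((n.factorial : ℝ) * (n : ℝ) ^ n * V) := by
            rw [← hkk]
            field_simp
    have e12 := le_of_mul_le_mul_right e11 (by positivity)
    rw [div_mul_eq_mul_div, div_le_iff₀ (by positivity)]
    exact e12
  · -- the prisms
    intro A' t hA' ht
    have hC : IsCompact (A' '' Bn n) := (isCompact_closedBall _ _).image A'.continuous
    have hCc : Convex ℝ (A' '' Bn n) := (convex_closedBall _ _).linear_image A'.toLinearMap
    have hC0 : (0 : EE n) ∈ A' '' Bn n := ⟨0, by simp [Bn], map_zero _⟩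
    set T : EE n →L[ℝ] EE n := ContinuousLinearMap.adjoint A' with hT
    have hinner : ∀ i (b : EE n), inner ℝ (u i) (A' b) = inner ℝ (T (u i)) b := by
      intro i b
      rw [hT, ContinuousLinearMap.adjoint_inner_left]
    have hx : ∀ i, (fun i => A' ((‖T (u i)‖)⁻¹ • T (u i))) i ∈ A' '' Bn n := by
      intro i
      refine ⟨_, ?_, rfl⟩
      simp only [Bn, mem_closedBall_zero_iff, norm_smul, norm_inv, norm_norm]
      exact inv_mul_le_one
    have hval : ∀ i, inner ℝ (u i) (A' ((‖T (u i)‖)⁻¹ • T (u i))) = ‖T (u i)‖ := by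
      intro i
      rw [hinner, inner_smul_right, real_inner_self_eq_norm_sq]
      by_cases h0 : ‖T (u i)‖ = 0
      · rw [h0]; simp
      · field_simp
    have hmax : ∀ i, ∀ y ∈ A' '' Bn n,
        inner ℝ (u i) y ≤ inner ℝ (u i) (A' ((‖T (u i)‖)⁻¹ • T (u i))) := by
      rintro i _ ⟨b, hb, rfl⟩
      rw [hval, hinner]
      have hb' : ‖b‖ ≤ 1 := by simpa [Bn] using hb
      calc inner ℝ (T (u i)) b ≤ ‖T (u i)‖ * ‖b‖ := real_inner_le_norm _ _
        _ ≤ ‖T (u i)‖ * 1 := mul_le_mul_of_nonneg_left hb' (norm_nonneg _)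
        _ = _ := mul_one _
    have h10 := hprism (A' '' Bn n) (fun i => A' ((‖T (u i)‖)⁻¹ • T (u i))) t hC hCc hC0 hx hmax
      ht
    have h11 : S ≤ ∑ i, a i * ‖T (u i)‖ := by
      apply hBmin T
      rw [hT, det_adjoint, eq_div_iff hk.ne']
      exact hA'
    have h12 : ∑ i, a i * inner ℝ (u i) (A' ((‖T (u i)‖)⁻¹ • T (u i))) =
        ∑ i, a i * ‖T (u i)‖ := by
      refine Finset.sum_congr rfl fun i _ => ?_
      rw [hval]
    have h13 : V * (1 + n * t * Real.exp (D / n)) = V + t * S := by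
      rw [hDn]
      field_simp
    rw [h13]
    have h14 : t * S ≤ t * ∑ i, a i * ‖T (u i)‖ := mul_le_mul_of_nonneg_left h11 ht
    have h15 : V + t * ∑ i, a i * ‖T (u i)‖ ≤ vl (Pol v + t • (A' '' Bn n)) := by
      rw [← h12]
      exact h10
    linarith

end PPX
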