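import Pool.Agent.PPX.Stmts

set_option autoImplicit false

namespace PPX

open MeasureTheory Set Filter Topology
open PPI PPG
open scoped Pointwise ENNReal

namespace JLB_

variable {n : ℕ} {ι : Type} [Fintype ι]

lemma mt_eq (c : ι → ℝ) (w : ι → EE n) (x : EE n) :
    Mt c w x = ∑ i, c i • Matrix.vecMulVec (fun k => tx x (w i) k) (star fun k => tx x (w i) k) := by
  ext k l
  rw [Matrix.sum_apply]
  simp [Mt, Matrix.vecMulVec_apply]

lemma mt_psd (c : ι → ℝ) (hc : ∀ i, 0 ≤ c i) (w : ι → EE n) (x : EE n) :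
    (Mt c w x).PosSemidef := by
  rw [mt_eq]
  apply Matrix.posSemidef_sum
  intro i _
  exact (Matrix.posSemidef_vecMulVec_self_star _).smul (hc i)

lemma mt_add (c d : ι → ℝ) (m : ℝ) (w : ι → EE n) (x : EE n) :
    Mt (fun i => m * c i + d i) w x = m • Mt c w x + Mt d w x := by
  ext k l
  simp only [Mt, Matrix.of_apply, Matrix.add_apply, Matrix.smul_apply, smul_eq_mul,
    Finset.mul_sum]
  rw [← Finset.sum_add_distrib]
  apply Finset.sum_congr rfl
  intro i _
  ring

lemma mt_trace (c : ι → ℝ) (w : ι → EE n) (x : EE n) :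
    (Mt c w x).trace = ∑ i, c i * ‖tx x (w i)‖ ^ 2 := by
  simp only [Matrix.trace, Matrix.diag, Mt, Matrix.of_apply]
  rw [Finset.sum_comm]
  apply Finset.sum_congr rfl
  intro i _
  rw [← Finset.mul_sum, EuclideanSpace.norm_sq_eq]
  congr 1
  apply Finset.sum_congr rfl
  intro k _
  rw [Real.norm_eq_abs, sq_abs, sq]

lemma tx_norm (x v : EE n) (hv : ‖v‖ = 1) : 1 ≤ ‖tx x v‖ ^ 2 := by
  have h0 : 0 < 1 + √(1 + ‖x‖ ^ 2) := by positivity
  set a := inner ℝ x v / (1 + √(1 + ‖x‖ ^ 2)) with ha
  have h1 : ‖tx x v‖ ^ 2 = ‖v‖ ^ 2 + 2 * (a * inner ℝ v x) + ‖a • x‖ ^ 2 := by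
    unfold tx
    rw [← ha, norm_add_sq_real, inner_smul_right]
  rw [h1, hv]
  have h2 : 0 ≤ a * inner ℝ v x := by
    rw [ha, real_inner_comm x v]
    rw [div_mul_eq_mul_div]
    apply div_nonneg (mul_self_nonneg _) h0.le
  have h3 : 0 ≤ ‖a • x‖ ^ 2 := by positivity
  nlinarith

lemma cb_nonneg (b : Finset ι) (p : ι → ℝ) (hp : ∀ i, 0 ≤ p i) (w : ι → EE n)
    (hcn : 0 < cn n) (x : EE n) (i : ι) : 0 ≤ cb b p w x i := by
  unfold cb
  split_ifs
  · have := hp i
    positivity
  · exact le_refl _

lemma det_bound (hD : Stmt_DTL) (m : ℝ) (hm0 : 0 < m) (hm1 : m ≤ 1)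
    (A B : Matrix (Fin n) (Fin n) ℝ) (hA : A.PosSemidef) (hB : B.PosSemidef) (t : ℝ)
    (ht0 : 0 ≤ t) (ht : t ≤ B.trace) :
    m ^ n * (1 + (A.trace - n) + 3 / 10 * min 1 t - 32 * (hs (A - 1) + (A.trace - n) ^ 2)) ≤
      (m • A + B).det := by
  have h1 : m • A + B = m • (A + m⁻¹ • B) := by
    rw [smul_add, smul_smul, mul_inv_cancel₀ hm0.ne', one_smul]
  rw [h1, Matrix.det_smul, Fintype.card_fin]
  apply mul_le_mul_of_nonneg_left _ (by positivity)
  have h2 := hD n A (m⁻¹ • B) hA (hB.smul (inv_nonneg.mpr hm0.le))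
  have h3 : t ≤ (m⁻¹ • B).trace := by
    rw [Matrix.trace_smul, smul_eq_mul]
    have h4 : 1 ≤ m⁻¹ := (one_le_inv₀ hm0).mpr hm1
    have h5 : 0 ≤ B.trace := ht0.trans ht
    nlinarith
  have h4 : min 1 t ≤ min 1 (m⁻¹ • B).trace := min_le_min_left _ h3
  linarith

end JLB_

open JLB_

theorem jlb_proof (hZ : Stmt_ZDT) (hD : Stmt_DTL) (hX : Stmt_XEX) (hE : Stmt_EMB)
    (hC : Stmt_C1D) (hN : Stmt_CNB) (hM : Stmt_MUN) : Stmt_JLB := by
  classical
  obtain ⟨c0, hc0, hE⟩ := hE
  refine ⟨min 1 (3 / 10 * c0), by positivity, min_le_left _ _, ?_⟩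
  intro n ι _ p w g b hn hI hg hgb
  have hp := hI.ppos
  have hp0 : ∀ i, 0 ≤ p i := fun i => (hp i).le
  have hw := hI.nrm
  have n1 : 1 ≤ n := by omega
  have n2 : 2 ≤ n := by omega
  obtain ⟨hk0, hcl, -, -, -, -⟩ := hN n n2
  have hk1 : 0 < kap (n - 1) := (hN (n - 1) (by omega)).1
  have hcn : 0 < cn n := by unfold cn; positivity
  obtain ⟨hprob, -, -⟩ := hM n n1
  haveI := hprob
  set m := ∑ i ∈ g, p i with hm
  have hm0 : 0 < m := Finset.sum_pos (fun i _ => hp i) hg
  have hm1 : m ≤ 1 := by
    rw [← hI.psum]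
    exact Finset.sum_le_sum_of_subset_of_nonneg (Finset.subset_univ _) (fun i _ _ => hp0 i)
  -- the functions c_i
  let cf : ι → ℝ → ℝ := fun i t =>
    if i ∈ g then cn n * (1 + t ^ 2) ^ (-((n : ℝ) / 2) - 1)
    else if i ∈ b then (if |t| ≤ 2 then (1 / 2 : ℝ) else 0) else 0
  have hcf_meas : ∀ i, Measurable (cf i) := by
    intro i
    by_cases hi : i ∈ g
    · have : cf i = fun t => cn n * (1 + t ^ 2) ^ (-((n : ℝ) / 2) - 1) := by
        funext t; simp only [cf, if_pos hi]
      rw [this]
      fun_prop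
    · by_cases hib : i ∈ b
      · have : cf i = fun t => (if |t| ≤ 2 then (1 / 2 : ℝ) else 0) := by
          funext t; simp only [cf, if_neg hi, if_pos hib]
        rw [this]
        apply Measurable.ite _ measurable_const measurable_const
        exact measurableSet_le (by fun_prop) measurable_const
      · have : cf i = fun t => (0 : ℝ) := by
          funext t; simp only [cf, if_neg hi, if_neg hib]
        rw [this]
        exact measurable_const
  have hcf_nonneg : ∀ i t, 0 ≤ cf i t := by
    intro i t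
    simp only [cf]
    split_ifs <;> positivity
  have hcf_int : ∀ i, ∫⁻ t : ℝ, ENNReal.ofReal (cf i t) ≤ 2 := by
    intro i
    by_cases hi : i ∈ g
    · have h1 : ∀ t, ENNReal.ofReal (cf i t) =
          ENNReal.ofReal (cn n) * ENNReal.ofReal ((1 + t ^ 2) ^ (-((n : ℝ) / 2) - 1)) := by
        intro t
        simp only [cf, if_pos hi]
        rw [ENNReal.ofReal_mul hcn.le]
      simp_rw [h1]
      rw [lintegral_const_mul' _ _ ENNReal.ofReal_ne_top, hC n n1, ← ENNReal.ofReal_mul hcn.le]
      have h2 : cn n * (kap n / kap (n - 1)) = 2 := by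
        unfold cn
        field_simp
      rw [h2]
      norm_num
    · by_cases hib : i ∈ b
      · have h1 : ∀ t, ENNReal.ofReal (cf i t) =
            (Set.Icc (-2 : ℝ) 2).indicator (fun _ => ENNReal.ofReal (1 / 2)) t := by
          intro t
          simp only [cf, if_neg hi, if_pos hib]
          by_cases ht : |t| ≤ 2
          · rw [if_pos ht, Set.indicator_of_mem]
            exact ⟨(abs_le.mp ht).1, (abs_le.mp ht).2⟩
          · rw [if_neg ht, Set.indicator_of_notMem, ENNReal.ofReal_zero]
            intro h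
            exact ht (abs_le.mpr ⟨h.1, h.2⟩)
        simp_rw [h1]
        rw [lintegral_indicator measurableSet_Icc, setLIntegral_const, Real.volume_Icc,
          ← ENNReal.ofReal_mul (by norm_num)]
        norm_num
      · have h1 : ∀ t, ENNReal.ofReal (cf i t) = 0 := by
          intro t
          simp only [cf, if_neg hi, if_neg hib, ENNReal.ofReal_zero]
        simp_rw [h1]
        simp
  obtain ⟨hZint, hZle⟩ := hZ n ι p w cf n2 hp0 hcf_meas hcf_nonneg hcf_int
  -- the coefficients
  have hcoef : ∀ x : EE n, (fun i => (n : ℝ) / cn n * √(1 + ‖x‖ ^ 2) * p i *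
      cf i (inner ℝ x (w i))) = fun i => m * cg g p w x i + cb b p w x i := by
    intro x
    funext i
    by_cases hi : i ∈ g
    · have hib : i ∉ b := Finset.disjoint_left.mp hgb hi
      have h1 : cb b p w x i = 0 := by
        unfold cb; rw [if_neg (fun h => hib h.1)]
      simp only [cf, if_pos hi, h1, cg, wv, ← hm]
      field_simp
      ring
    · have h1 : cg g p w x i = 0 := by
        unfold cg; rw [if_neg hi]
      by_cases hib : i ∈ b
      · simp only [cf, if_neg hi, if_pos hib, h1, cb, mul_zero, zero_add]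
        by_cases hy : |inner ℝ x (w i)| ≤ 2
        · rw [if_pos hy, if_pos ⟨hib, hy⟩]; ring
        · rw [if_neg hy, if_neg (fun h => hy h.2)]; ring
      · have h2 : cb b p w x i = 0 := by
          unfold cb; rw [if_neg (fun h => hib h.1)]
        simp only [cf, if_neg hi, if_neg hib, h1, h2, mul_zero, add_zero]
  -- XEX and EMB
  obtain ⟨hX1, hX2, hX3, hX4⟩ := hX n ι p w g n2 hp hw hg
  have hE' := hE n ι p w b hn hp0 hw
  have hcg0 : ∀ (x : EE n) (i : ι), 0 ≤ cg g p w x i := by
    intro x i
    unfold cg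
    split_ifs with h
    · have h1 : 0 ≤ wv x (w i) := by unfold wv; positivity
      have h2 := hp0 i
      rw [← hm]
      positivity
    · exact le_refl _
  have hcb0 := cb_nonneg b p hp0 w hcn
  have hSmeas : Measurable fun x : EE n => min 1 (∑ i, cb b p w x i) := by
    apply Measurable.min measurable_const
    apply Finset.measurable_sum
    intro i _
    unfold cb
    by_cases hib : i ∈ b
    · simp only [hib, true_and]
      apply Measurable.ite _ (by fun_prop) measurable_const
      exact measurableSet_le (by fun_prop) measurable_const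
    · simp only [hib, false_and, if_false]
      exact measurable_const
  have hSint : Integrable (fun x : EE n => min 1 (∑ i, cb b p w x i)) (mun n) := by
    apply Integrable.of_bound hSmeas.aestronglyMeasurable 1
    filter_upwards with x
    have h1 : 0 ≤ ∑ i, cb b p w x i := Finset.sum_nonneg fun i _ => hcb0 x i
    rw [Real.norm_eq_abs, abs_of_nonneg (le_min zero_le_one h1)]
    exact min_le_left _ _
  -- pointwise bound
  have hpt : ∀ x : EE n, m ^ n * (1 + ((Mt (cg g p w x) w x).trace - n) +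
      3 / 10 * min 1 (∑ i, cb b p w x i) - 32 * (hs (Mt (cg g p w x) w x - 1) +
        ((Mt (cg g p w x) w x).trace - n) ^ 2)) ≤
      (Mt (fun i => (n : ℝ) / cn n * √(1 + ‖x‖ ^ 2) * p i *
        cf i (inner ℝ x (w i))) w x).det := by
    intro x
    rw [hcoef x, mt_add]
    apply det_bound hD m hm0 hm1 _ _ (mt_psd _ (hcg0 x) w x) (mt_psd _ (hcb0 x) w x)
    · exact Finset.sum_nonneg fun i _ => hcb0 x i
    · rw [mt_trace]
      apply Finset.sum_le_sum
      intro i _
      exact le_mul_of_one_le_right (hcb0 x i) (tx_norm x (w i) (hw i))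
  -- integrate
  have hI1 : Integrable (fun x : EE n => m ^ n * (1 + ((Mt (cg g p w x) w x).trace - n) +
      3 / 10 * min 1 (∑ i, cb b p w x i) - 32 * (hs (Mt (cg g p w x) w x - 1) +
        ((Mt (cg g p w x) w x).trace - n) ^ 2))) (mun n) := by
    apply Integrable.const_mul
    apply Integrable.sub
    · apply Integrable.add
      · apply Integrable.add (integrable_const _)
        exact hX1.sub (integrable_const _)
      · exact hSint.const_mul _
    · exact hX3.const_mul _
  have hint := integral_mono hI1 hZint hpt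
  have hcalc : ∫ x, m ^ n * (1 + ((Mt (cg g p w x) w x).trace - n) +
      3 / 10 * min 1 (∑ i, cb b p w x i) - 32 * (hs (Mt (cg g p w x) w x - 1) +
        ((Mt (cg g p w x) w x).trace - n) ^ 2)) ∂(mun n) =
      m ^ n * (1 + 3 / 10 * ∫ x, min 1 (∑ i, cb b p w x i) ∂(mun n) - 32 * XX g p w) := by
    rw [integral_const_mul, integral_sub, integral_add, integral_add, integral_sub,
      integral_const_mul, integral_const_mul, hX2, hX4]
    · simp
    · exact hX1
    · exact integrable_const _
    · exact integrable_const _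
    · exact hX1.sub (integrable_const _)
    · exact (integrable_const _).add (hX1.sub (integrable_const _))
    · exact hSint.const_mul _
    · exact ((integrable_const _).add (hX1.sub (integrable_const _))).add (hSint.const_mul _)
    · exact hX3.const_mul _
  rw [hcalc] at hint
  have hX00 : 0 ≤ X0 n := by unfold X0; positivity
  refine le_trans (mul_le_mul_of_nonneg_left (le_trans ?_ hint) hX00) hZle
  apply mul_le_mul_of_nonneg_left _ (by positivity)
  have h1 : min 1 (3 / 10 * c0) * min 1 ((n : ℝ) * ∑ i ∈ b, p i) ≤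
      3 / 10 * (c0 * min 1 ((n : ℝ) * ∑ i ∈ b, p i)) := by
    have h2 : 0 ≤ min 1 ((n : ℝ) * ∑ i ∈ b, p i) := by
      apply le_min zero_le_one
      have := Finset.sum_nonneg fun i (_ : i ∈ b) => hp0 i
      positivity
    have h3 := mul_le_mul_of_nonneg_right (min_le_right (1 : ℝ) (3 / 10 * c0)) h2
    linarith
  linarith

end PPX
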