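import Pool.Agent.PPX.Stmts

/-!
# Squad PPX (MP_0bf616_gt): the mean of the kernel over the sphere
-/

set_option autoImplicit false

namespace PPX

open MeasureTheory Set Filter Topology
open PPI PPG

namespace KAV_

theorem ww_nonneg {n : ℕ} (x v : EE n) : 0 ≤ ww x v :=
  mul_nonneg (Real.sqrt_nonneg _) (Real.rpow_nonneg (by positivity) _)

theorem cont {n : ℕ} : Continuous (fun q : EE n × EE n => ww q.2 q.1) := by
  unfold ww
  apply Continuous.mul
  · exact (continuous_const.add ((continuous_norm.comp continuous_snd).pow 2)).sqrt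
  · apply Continuous.rpow_const
    · exact continuous_const.add ((continuous_snd.inner continuous_fst).pow 2)
    · intro q
      left
      positivity

theorem ww_le {n : ℕ} (x v : EE n) : ww x v ≤ √(1 + ‖x‖ ^ 2) := by
  unfold ww
  have h1 : (1 + (inner ℝ x v) ^ 2) ^ (-((n : ℝ) / 2)) ≤ 1 := by
    apply Real.rpow_le_one_of_one_le_of_nonpos
    · nlinarith [sq_nonneg (inner ℝ x v)]
    · have : (0 : ℝ) ≤ n := Nat.cast_nonneg n
      linarith
  calc √(1 + ‖x‖ ^ 2) * (1 + (inner ℝ x v) ^ 2) ^ (-((n : ℝ) / 2)) ≤ √(1 + ‖x‖ ^ 2) * 1 :=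
        mul_le_mul_of_nonneg_left h1 (Real.sqrt_nonneg _)
    _ = √(1 + ‖x‖ ^ 2) := mul_one _

end KAV_

theorem kav_proof (hSPH : Stmt_SPH) (hSPQ : Stmt_SPQ) (hEW1 : Stmt_EW1) (hKGM : Stmt_KGM)
    (hMUN : Stmt_MUN) : Stmt_KAV := by
  intro n a hn ha
  have hn1 : 1 ≤ n := by omega
  obtain ⟨hP, hunit, -⟩ := hSPH n hn1
  obtain ⟨hM, -, -⟩ := hMUN n hn1
  obtain ⟨hE, hE1⟩ := hEW1 n a hn ha
  -- the mean of the weight over the sphere
  have hmean : ∀ x : EE n, ∫ v, ww x v ∂(sph n) = 1 := by
    intro x
    unfold ww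
    rw [integral_const_mul, hSPQ n x hn1, Real.sqrt_eq_rpow, ← Real.rpow_add (by positivity)]
    norm_num
  have hint : ∀ x : EE n, Integrable (fun v => ww x v) (sph n) := by
    intro x
    apply Integrable.mono' (integrable_const (√(1 + ‖x‖ ^ 2)))
    · exact (KAV_.cont.comp (continuous_id.prodMk continuous_const)).aestronglyMeasurable
    · filter_upwards with v
      rw [Real.norm_of_nonneg (KAV_.ww_nonneg x v)]
      exact KAV_.ww_le x v
  have hcontF : Continuous (fun q : EE n × EE n => ww q.2 a * ww q.2 q.1) := by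
    apply Continuous.mul _ KAV_.cont
    exact KAV_.cont.comp (continuous_const.prodMk continuous_snd)
  have hF : Integrable (fun q : EE n × EE n => ww q.2 a * ww q.2 q.1)
      ((sph n).prod (mun n)) := by
    rw [integrable_prod_iff' hcontF.aestronglyMeasurable]
    constructor
    · filter_upwards with x
      exact (hint x).const_mul _
    · have e : (fun x : EE n => ∫ v, ‖ww x a * ww x v‖ ∂(sph n)) = fun x => ww x a := by
        funext x
        have h1 : ∀ v : EE n, ‖ww x a * ww x v‖ = ww x a * ww x v := fun v =>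
          Real.norm_of_nonneg (mul_nonneg (KAV_.ww_nonneg x a) (KAV_.ww_nonneg x v))
        simp only [h1]
        rw [integral_const_mul, hmean, mul_one]
      show Integrable (fun x : EE n => ∫ v, ‖ww x a * ww x v‖ ∂(sph n)) (mun n)
      rw [e]
      exact hE
  have hae : (fun v : EE n => ∫ x, ww x a * ww x v ∂(mun n)) =ᵐ[sph n]
      fun v => kk n (inner ℝ a v) := by
    filter_upwards [hunit] with v hv
    exact (hKGM n a v hn ha hv).2
  constructor
  · exact (hF.integral_prod_left).congr hae
  · rw [← integral_congr_ae hae]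
    have h1 := integral_prod _ hF
    have h2 := integral_prod_symm _ hF
    have h3 : ∫ v, ∫ x, ww x a * ww x v ∂(mun n) ∂(sph n) =
        ∫ x, ∫ v, ww x a * ww x v ∂(sph n) ∂(mun n) := h1.symm.trans h2
    rw [h3]
    have e : (fun x : EE n => ∫ v, ww x a * ww x v ∂(sph n)) = fun x => ww x a := by
      funext x
      rw [integral_const_mul, hmean, mul_one]
    rw [e]
    exact hE1

end PPX
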