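import Pool.Agent.PPX.Stmts

/-!
# Squad PPX, module KEN: all facts on the kernel
-/

set_option autoImplicit false

namespace PPX

open MeasureTheory Set Filter Topology
open PPI PPG
open scoped Pointwise ENNReal

namespace KEN_

theorem smo_pos (n k : ℕ) (hn : 1 ≤ n) : 0 < smo n k := by
  unfold smo
  apply Finset.prod_pos
  intro i _
  have h1 : (0 : ℝ) < n := by exact_mod_cast hn
  positivity

theorem exists_unit (n : ℕ) (hn : 1 ≤ n) : ∃ a : EE n, ‖a‖ = 1 := by
  refine ⟨EuclideanSpace.single (⟨0, hn⟩ : Fin n) (1 : ℝ), ?_⟩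
  simp

theorem bt_anti (hB : Stmt_BTS) (k j : ℕ) : bt (k + j) ≤ bt j := by
  induction k with
  | zero => simp
  | succ k ih =>
    have h1 := hB.2.2.2.2 (k + j)
    have h2 := hB.2.2.2.2 (k + j + 1)
    rw [Finset.sum_range_succ, h1] at h2
    have h3 := (hB.2.2.2.1 (k + j + 1) (by omega)).1
    have e : k + 1 + j = k + j + 1 := by ring
    rw [e]
    linarith

theorem sum_bt (hB : Stmt_BTS) (N : ℕ) :
    ∑ k ∈ Finset.range (N + 1), bt k ≤ √(2 * (N : ℝ) + 1) := by
  have hb : ∀ k : ℕ, bt k ≤ 1 / √(2 * (k : ℝ) + 1) := by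
    intro k
    obtain ⟨h0, _, h2⟩ := hB.2.2.1 k
    have h3 : (0 : ℝ) < 2 * (k : ℝ) + 1 := by positivity
    have h4 : 0 < √(2 * (k : ℝ) + 1) := Real.sqrt_pos.2 h3
    rw [le_div_iff₀ h4]
    have h5 : (bt k * √(2 * (k : ℝ) + 1)) ^ 2 ≤ 1 ^ 2 := by
      rw [mul_pow, Real.sq_sqrt h3.le]
      linarith
    exact (abs_le_of_sq_le_sq' h5 zero_le_one).2
  induction N with
  | zero =>
    simp only [zero_add, Finset.range_one, Finset.sum_singleton, Nat.cast_zero, mul_zero,
      Real.sqrt_one]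
    exact (hB.2.2.1 0).2.1
  | succ N ih =>
    rw [Finset.sum_range_succ]
    have h1 := hb (N + 1)
    set A := √(2 * (N : ℝ) + 1) with hA
    have e : (2 * ((N + 1 : ℕ) : ℝ) + 1) = 2 * (N : ℝ) + 3 := by push_cast; ring
    rw [e] at h1 ⊢
    set C := √(2 * (N : ℝ) + 3) with hC
    have hA0 : 0 ≤ A := Real.sqrt_nonneg _
    have hC0 : 0 < C := Real.sqrt_pos.2 (by positivity)
    have hA2 : A ^ 2 = 2 * (N : ℝ) + 1 := Real.sq_sqrt (by positivity)
    have hC2 : C ^ 2 = 2 * (N : ℝ) + 3 := Real.sq_sqrt (by positivity)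
    have hAC : A ≤ C := Real.sqrt_le_sqrt (by linarith)
    have h2 : 1 / C ≤ C - A := by
      rw [div_le_iff₀ hC0]
      nlinarith
    linarith

theorem sum_c (hB : Stmt_BTS) (n : ℕ) (hn : 4 ≤ n) (c : ℕ → ℝ)
    (h0 : ∀ k, 0 ≤ c k ∧ c k ≤ 2 * bt k) (h1 : ∀ k, 2 ≤ k → c k ≤ 3 * n * ec k) (N : ℕ) :
    ∑ k ∈ Finset.range N, c k ≤ 8 * √(n : ℝ) := by
  have hn' : (4 : ℝ) ≤ n := by exact_mod_cast hn
  have hmono : ∑ k ∈ Finset.range N, c k ≤ ∑ k ∈ Finset.range (N + (n + 1)), c k := by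
    apply Finset.sum_le_sum_of_subset_of_nonneg
    · exact Finset.range_subset_range.2 (by omega)
    · intro i _ _
      exact (h0 i).1
  have hsplit : ∑ k ∈ Finset.range (N + (n + 1)), c k =
      ∑ k ∈ Finset.range (n + 1), c k + ∑ k ∈ Finset.Ico (n + 1) (N + (n + 1)), c k :=
    (Finset.sum_range_add_sum_Ico _ (by omega)).symm
  have h2 : ∑ k ∈ Finset.range (n + 1), c k ≤ 2 * √(2 * (n : ℝ) + 1) := by
    calc ∑ k ∈ Finset.range (n + 1), c k ≤ ∑ k ∈ Finset.range (n + 1), 2 * bt k :=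
          Finset.sum_le_sum fun i _ => (h0 i).2
      _ = 2 * ∑ k ∈ Finset.range (n + 1), bt k := by rw [Finset.mul_sum]
      _ ≤ 2 * √(2 * (n : ℝ) + 1) := by
          have := sum_bt hB n
          linarith
  have h3 : ∑ k ∈ Finset.Ico (n + 1) (N + (n + 1)), c k ≤ 3 * n * bt n := by
    have h4 : ∑ k ∈ Finset.Ico (n + 1) (N + (n + 1)), c k ≤
        ∑ k ∈ Finset.Ico (n + 1) (N + (n + 1)), 3 * n * ec k := by
      apply Finset.sum_le_sum
      intro i hi
      exact h1 i (by have := (Finset.mem_Ico.1 hi).1; omega)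
    rw [← Finset.mul_sum] at h4
    have h5 : ∑ k ∈ Finset.range (n + 1), ec k +
        ∑ k ∈ Finset.Ico (n + 1) (N + (n + 1)), ec k =
        ∑ k ∈ Finset.range (N + (n + 1)), ec k :=
      Finset.sum_range_add_sum_Ico _ (by omega)
    rw [hB.2.2.2.2 n, ← add_assoc, hB.2.2.2.2 (N + n)] at h5
    have h6 := (hB.2.2.1 (N + n)).1
    have h7 : ∑ k ∈ Finset.Ico (n + 1) (N + (n + 1)), ec k ≤ bt n := by
      have e : N + (n + 1) = N + n + 1 := by ring
      rw [e]
      linarith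
    have h8 : 3 * (n : ℝ) * ∑ k ∈ Finset.Ico (n + 1) (N + (n + 1)), ec k ≤ 3 * n * bt n :=
      mul_le_mul_of_nonneg_left h7 (by positivity)
    linarith
  have hs : 0 < √(n : ℝ) := Real.sqrt_pos.2 (by linarith)
  have hs2 : √(n : ℝ) ^ 2 = n := Real.sq_sqrt (by linarith)
  have h4 : √(2 * (n : ℝ) + 1) ≤ 3 / 2 * √(n : ℝ) := by
    rw [Real.sqrt_le_left (by positivity), mul_pow, hs2]
    nlinarith
  have h5 : 3 * (n : ℝ) * bt n ≤ 3 * √(n : ℝ) := by
    obtain ⟨hb0, _, hb2⟩ := hB.2.2.1 n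
    have h6 : bt n * √(n : ℝ) ≤ 1 := by
      have h7 : (bt n * √(n : ℝ)) ^ 2 ≤ 1 ^ 2 := by
        rw [mul_pow, hs2]
        nlinarith [sq_nonneg (bt n)]
      exact (abs_le_of_sq_le_sq' h7 zero_le_one).2
    have h8 : 3 * (n : ℝ) * bt n = 3 * √(n : ℝ) * (bt n * √(n : ℝ)) := by
      linear_combination (-(3 * bt n)) * hs2
    rw [h8]
    nlinarith
  linarith

end KEN_

open KEN_ in
theorem ken_proof (hK : Stmt_KSR) (hA : Stmt_KAV) (hM : Stmt_SMM) (hB : Stmt_BTS)
    (hS : Stmt_SPH) : Stmt_KEN := by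
  intro n hn
  obtain ⟨c, h0, h1, h2⟩ := hK n hn
  have hterm : ∀ (s : ℝ) (k : ℕ), 0 ≤ c k * s ^ (2 * k) := by
    intro s k
    have : 0 ≤ s ^ (2 * k) := by rw [pow_mul]; positivity
    exact mul_nonneg (h0 k).1 this
  have hnn : ∀ s : ℝ, s ^ 2 ≤ 1 → 0 ≤ kk n s := fun s hs =>
    (h2 s hs).nonneg fun k => hterm s k
  refine ⟨c, ?_, h1, h2, ?_, ?_, ?_⟩
  · intro k
    refine ⟨(h0 k).1, ?_⟩
    have := (hB.2.2.1 k).2.1
    have := (h0 k).2
    linarith
  · obtain ⟨a, ha⟩ := exists_unit n (by omega)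
    obtain ⟨hprob, hae, -⟩ := hS n (by omega)
    obtain ⟨hki, hkv⟩ := hA n a (by omega) ha
    have hmom : ∀ k : ℕ, ∫ v, (inner ℝ a v) ^ (2 * k) ∂(sph n) = smo n k := by
      intro k
      rw [hM n k a (by omega), ha, one_pow, mul_one]
    have hint : ∀ k : ℕ, Integrable (fun v : EE n => (inner ℝ a v) ^ (2 * k)) (sph n) := by
      intro k
      by_contra hcon
      have h3 := integral_undef hcon
      rw [hmom k] at h3
      exact (smo_pos n k (by omega)).ne' h3
    have hint' : ∀ k : ℕ, Integrable (fun v : EE n => c k * (inner ℝ a v) ^ (2 * k)) (sph n) :=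
      fun k => (hint k).const_mul _
    have hval : ∀ k : ℕ, ∫ v, c k * (inner ℝ a v) ^ (2 * k) ∂(sph n) = c k * smo n k := by
      intro k
      rw [integral_const_mul, hmom k]
    have hsq : ∀ᵐ v ∂(sph n), (inner ℝ a v : ℝ) ^ 2 ≤ 1 := by
      filter_upwards [hae] with v hv
      have h3 := abs_real_inner_le_norm a v
      rw [ha, hv, one_mul] at h3
      exact (sq_le_one_iff_abs_le_one _).2 h3
    have hsummable : Summable fun k : ℕ => ∫ v, ‖c k * (inner ℝ a v : ℝ) ^ (2 * k)‖ ∂(sph n) := by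
      have e : (fun k : ℕ => ∫ v, ‖c k * (inner ℝ a v : ℝ) ^ (2 * k)‖ ∂(sph n)) =
          fun k => c k * smo n k := by
        funext k
        rw [← hval k]
        apply integral_congr_ae
        filter_upwards with v
        rw [Real.norm_of_nonneg (hterm _ k)]
      rw [e]
      apply summable_of_sum_range_le (c := 1)
      · intro k
        exact mul_nonneg (h0 k).1 (smo_pos n k (by omega)).le
      · intro N
        have e2 : ∑ k ∈ Finset.range N, c k * smo n k =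
            ∫ v, ∑ k ∈ Finset.range N, c k * (inner ℝ a v : ℝ) ^ (2 * k) ∂(sph n) := by
          rw [integral_finsetSum _ fun k _ => hint' k]
          exact Finset.sum_congr rfl fun k _ => (hval k).symm
        rw [e2, ← hkv]
        apply integral_mono_ae (integrable_finsetSum _ fun k _ => hint' k) hki
        filter_upwards [hsq] with v hv
        exact sum_le_hasSum _ (fun k _ => hterm _ k) (h2 _ hv)
    have h3 := hasSum_integral_of_summable_integral_norm hint' hsummable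
    have h4 : ∫ v, ∑' k, c k * (inner ℝ a v : ℝ) ^ (2 * k) ∂(sph n) = 1 := by
      rw [← hkv]
      apply integral_congr_ae
      filter_upwards [hsq] with v hv
      exact (h2 _ hv).tsum_eq
    rw [h4] at h3
    simpa only [hval] using h3
  · intro s hs
    refine ⟨hnn s hs, ?_⟩
    apply le_of_tendsto' (h2 s hs).tendsto_sum_nat
    intro N
    refine le_trans (Finset.sum_le_sum fun k _ => ?_) (sum_c hB n hn c h0 h1 N)
    have h3 : s ^ (2 * k) ≤ 1 := by
      rw [pow_mul]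
      exact pow_le_one₀ (sq_nonneg s) hs
    nlinarith [(h0 k).1]
  · intro m s θ hθ hsθ
    have hs1 : s ^ 2 < 1 := by nlinarith
    have h3 := (hasSum_nat_add_iff' (f := fun k : ℕ => c k * s ^ (2 * k)) (m + 1)).2
      (h2 s hs1.le)
    have h4 := (hB.1 (s ^ 2) (sq_nonneg s) hs1).mul_left (2 * s ^ (2 * (m + 1)))
    have hp : 0 ≤ s ^ (2 * (m + 1)) := by rw [pow_mul]; positivity
    have h5 := hasSum_le (fun j => ?_) h3 h4
    · have h6 : 2 * s ^ (2 * (m + 1)) * (1 / √(1 - s ^ 2)) ≤ 2 / θ * s ^ (2 * (m + 1)) := by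
        have h7 : θ ≤ √(1 - s ^ 2) := Real.le_sqrt_of_sq_le hsθ
        have h8 : 1 / √(1 - s ^ 2) ≤ 1 / θ := one_div_le_one_div_of_le hθ h7
        calc 2 * s ^ (2 * (m + 1)) * (1 / √(1 - s ^ 2)) ≤ 2 * s ^ (2 * (m + 1)) * (1 / θ) :=
              mul_le_mul_of_nonneg_left h8 (by positivity)
          _ = 2 / θ * s ^ (2 * (m + 1)) := by ring
      linarith
    · show c (j + (m + 1)) * s ^ (2 * (j + (m + 1))) ≤
        2 * s ^ (2 * (m + 1)) * (bt j * (s ^ 2) ^ j)
      have h6 : c (j + (m + 1)) ≤ 2 * bt j := by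
        refine le_trans (h0 _).2 ?_
        have := bt_anti hB (m + 1) j
        rw [add_comm (m + 1) j] at this
        linarith
      have h7 : s ^ (2 * (j + (m + 1))) = s ^ (2 * (m + 1)) * (s ^ 2) ^ j := by
        rw [← pow_mul, ← pow_add]; congr 1; ring
      rw [h7]
      have h8 : 0 ≤ s ^ (2 * (m + 1)) * (s ^ 2) ^ j := mul_nonneg hp (by positivity)
      nlinarith

end PPX
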