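import Pool.Agent.PPX.Stmts

/-! KGM: the covariance of the weights -/

set_option autoImplicit false

namespace PPX

open MeasureTheory Set Filter Topology
open PPI PPG
open scoped Pointwise ENNReal

namespace KGM_

lemma kap_eq (n : ℕ) (hn : 1 ≤ n) :
    kap n = √Real.pi ^ n / Real.Gamma (n / 2 + 1) := by
  have : Nonempty (Fin n) := ⟨⟨0, hn⟩⟩
  unfold kap vl Bn
  rw [EuclideanSpace.volume_closedBall]
  simp only [ENNReal.ofReal_one, one_pow, Fintype.card_fin, one_mul]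
  rw [ENNReal.toReal_ofReal]
  positivity

lemma sqrt_pi_pow (n : ℕ) : √Real.pi ^ n = Real.pi ^ ((n : ℝ) / 2) := by
  rw [Real.sqrt_eq_rpow, ← Real.rpow_natCast, ← Real.rpow_mul Real.pi_pos.le]
  congr 1
  ring

/-- the Gamma integral -/
lemma gamint (α r : ℝ) (hα : 0 < α) (hr : 0 < r) :
    IntegrableOn (fun w : ℝ => w ^ (α - 1) * Real.exp (-(w * r))) (Ioi 0) := by
  have h := integrableOn_rpow_mul_exp_neg_mul_rpow (s := α - 1) (p := 1) (b := r)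
    (by linarith) one_pos hr
  refine h.congr_fun ?_ measurableSet_Ioi
  intro x hx
  simp only [Real.rpow_one]
  congr 2
  ring

lemma gam (α r : ℝ) (hα : 0 < α) (hr : 0 < r) :
    ∫⁻ w in Ioi (0 : ℝ), ENNReal.ofReal (w ^ (α - 1) * Real.exp (-(w * r))) =
      ENNReal.ofReal (Real.Gamma α * r ^ (-α)) := by
  rw [← ofReal_integral_eq_lintegral_ofReal (gamint α r hα hr)]
  · congr 1
    have h := Real.integral_rpow_mul_exp_neg_mul_Ioi hα hr
    have h2 : ∫ w in Ioi (0 : ℝ), w ^ (α - 1) * Real.exp (-(w * r)) =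
        ∫ t in Ioi (0 : ℝ), t ^ (α - 1) * Real.exp (-(r * t)) := by
      apply setIntegral_congr_fun measurableSet_Ioi
      intro t _
      simp only
      rw [mul_comm t r]
    rw [h2, h, one_div, Real.inv_rpow hr.le, Real.rpow_neg hr.le, mul_comm]
  · refine (ae_restrict_iff' measurableSet_Ioi).2 (Eventually.of_forall ?_)
    intro w hw
    have : (0 : ℝ) < w := hw
    simp only [Pi.zero_apply]
    positivity

/-- the triple measure -/
lemma mu3 : (volume.restrict (Ioi (0 : ℝ) ×ˢ Ioi (0 : ℝ) ×ˢ Ioi (0 : ℝ)) : Measure (ℝ × ℝ × ℝ)) =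
    (volume.restrict (Ioi (0 : ℝ))).prod ((volume.restrict (Ioi (0 : ℝ))).prod
      (volume.restrict (Ioi (0 : ℝ)))) := by
  rw [Measure.prod_restrict, Measure.prod_restrict]
  rfl

/-- product integrals -/
lemma prod3 (f g h : ℝ → ℝ) (hf : Measurable f) (hg : Measurable g) (hh : Measurable h)
    (f0 : ∀ z, 0 < z → 0 ≤ f z) (g0 : ∀ z, 0 < z → 0 ≤ g z) :
    ∫⁻ y in (Ioi (0 : ℝ) ×ˢ Ioi (0 : ℝ) ×ˢ Ioi (0 : ℝ)),
      ENNReal.ofReal (f y.1 * (g y.2.1 * h y.2.2)) =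
    (∫⁻ z in Ioi (0 : ℝ), ENNReal.ofReal (f z)) *
      ((∫⁻ z in Ioi (0 : ℝ), ENNReal.ofReal (g z)) *
        (∫⁻ z in Ioi (0 : ℝ), ENNReal.ofReal (h z))) := by
  have e : ∫⁻ y in (Ioi (0 : ℝ) ×ˢ Ioi (0 : ℝ) ×ˢ Ioi (0 : ℝ)),
      ENNReal.ofReal (f y.1 * (g y.2.1 * h y.2.2)) =
      ∫⁻ y in (Ioi (0 : ℝ) ×ˢ Ioi (0 : ℝ) ×ˢ Ioi (0 : ℝ)),
      ENNReal.ofReal (f y.1) * (ENNReal.ofReal (g y.2.1) * ENNReal.ofReal (h y.2.2)) := by
    apply setLIntegral_congr_fun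
    · exact measurableSet_Ioi.prod (measurableSet_Ioi.prod measurableSet_Ioi)
    · intro y hy
      have h1 : (0 : ℝ) < y.1 := hy.1
      have h2 : (0 : ℝ) < y.2.1 := hy.2.1
      simp only
      rw [ENNReal.ofReal_mul (f0 _ h1), ENNReal.ofReal_mul (g0 _ h2)]
  rw [e, mu3]
  rw [lintegral_prod_mul (f := fun z : ℝ => ENNReal.ofReal (f z))
    (g := fun w : ℝ × ℝ => ENNReal.ofReal (g w.1) * ENNReal.ofReal (h w.2))]
  · congr 1
    rw [lintegral_prod_mul (f := fun z : ℝ => ENNReal.ofReal (g z))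
      (g := fun w : ℝ => ENNReal.ofReal (h w))]
    · exact hg.ennreal_ofReal.aemeasurable
    · exact hh.ennreal_ofReal.aemeasurable
  · exact hf.ennreal_ofReal.aemeasurable
  · exact ((hg.comp measurable_fst).ennreal_ofReal.mul
      (hh.comp measurable_snd).ennreal_ofReal).aemeasurable

/-- the integrand of the kernel -/
noncomputable def Kf (α s : ℝ) (y : ℝ × ℝ × ℝ) : ℝ :=
  Real.exp (-(y.1 + y.2.1 + y.2.2)) * (y.2.1 * y.2.2) ^ (α - 1) /
        √((y.1 + y.2.1) * (y.1 + y.2.2) - y.2.1 * y.2.2 * s ^ 2)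

lemma Kf_meas (α s : ℝ) : Measurable (Kf α s) := by
  unfold Kf
  fun_prop

lemma Kf_nonneg (α s : ℝ) (y : ℝ × ℝ × ℝ)
    (hy : y ∈ Ioi (0 : ℝ) ×ˢ Ioi (0 : ℝ) ×ˢ Ioi (0 : ℝ)) : 0 ≤ Kf α s y := by
  have h2 : (0 : ℝ) < y.2.1 := hy.2.1
  have h3 : (0 : ℝ) < y.2.2 := hy.2.2
  unfold Kf
  positivity

lemma Kf_le (α s : ℝ) (hs : s ^ 2 ≤ 1) (y : ℝ × ℝ × ℝ)
    (hy : y ∈ Ioi (0 : ℝ) ×ˢ Ioi (0 : ℝ) ×ˢ Ioi (0 : ℝ)) :
    Kf α s y ≤ (y.1 ^ ((1 / 2 : ℝ) - 1) * Real.exp (-(y.1 * 1))) *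
      ((y.2.1 ^ ((α - 1 / 2) - 1) * Real.exp (-(y.2.1 * 1))) *
        (y.2.2 ^ (α - 1) * Real.exp (-(y.2.2 * 1)))) := by
  obtain ⟨z, u, v⟩ := y
  have h1 : (0 : ℝ) < z := hy.1
  have h2 : (0 : ℝ) < u := hy.2.1
  have h3 : (0 : ℝ) < v := hy.2.2
  unfold Kf
  simp only
  have hD : z * u ≤ (z + u) * (z + v) - u * v * s ^ 2 := by
    have := mul_le_mul_of_nonneg_left hs (mul_pos h2 h3).le
    nlinarith [mul_pos h1 h1, mul_pos h1 h3]
  have hsq : √(z * u) ≤ √((z + u) * (z + v) - u * v * s ^ 2) := Real.sqrt_le_sqrt hD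
  have hp : 0 < √(z * u) := Real.sqrt_pos.2 (mul_pos h1 h2)
  calc Real.exp (-(z + u + v)) * (u * v) ^ (α - 1) / √((z + u) * (z + v) - u * v * s ^ 2)
      ≤ Real.exp (-(z + u + v)) * (u * v) ^ (α - 1) / √(z * u) := by
        apply div_le_div_of_nonneg_left (by positivity) hp hsq
    _ = _ := by
        rw [Real.sqrt_mul h1.le, Real.mul_rpow h2.le h3.le]
        have e1 : z ^ ((1 / 2 : ℝ) - 1) = (√z)⁻¹ := by
          rw [Real.sqrt_eq_rpow, ← Real.rpow_neg h1.le]; norm_num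
        have e2 : u ^ ((α - 1 / 2) - 1) = u ^ (α - 1) * (√u)⁻¹ := by
          rw [Real.sqrt_eq_rpow, ← Real.rpow_neg h2.le, ← Real.rpow_add h2]
          congr 1; ring
        have e3 : Real.exp (-(z + u + v)) =
            Real.exp (-(z * 1)) * (Real.exp (-(u * 1)) * Real.exp (-(v * 1))) := by
          rw [← Real.exp_add, ← Real.exp_add]; congr 1; ring
        rw [e1, e2, e3, div_eq_mul_inv, mul_inv]
        ring

lemma Kf_integrable (α s : ℝ) (hα : 1 ≤ α) (hs : s ^ 2 ≤ 1) :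
    IntegrableOn (Kf α s) (Ioi (0 : ℝ) ×ˢ Ioi (0 : ℝ) ×ˢ Ioi (0 : ℝ)) := by
  have hms : MeasurableSet (Ioi (0 : ℝ) ×ˢ Ioi (0 : ℝ) ×ˢ Ioi (0 : ℝ)) :=
    measurableSet_Ioi.prod (measurableSet_Ioi.prod measurableSet_Ioi)
  refine ⟨(Kf_meas α s).aestronglyMeasurable, ?_⟩
  rw [hasFiniteIntegral_iff_ofReal
    ((ae_restrict_iff' hms).2 (Eventually.of_forall fun y hy => Kf_nonneg α s y hy))]
  refine lt_of_le_of_lt (setLIntegral_mono' hms fun y hy =>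
    ENNReal.ofReal_le_ofReal (Kf_le α s hs y hy)) ?_
  rw [prod3 (fun z => z ^ ((1 / 2 : ℝ) - 1) * Real.exp (-(z * 1)))
    (fun z => z ^ ((α - 1 / 2) - 1) * Real.exp (-(z * 1)))
    (fun z => z ^ (α - 1) * Real.exp (-(z * 1))) (by fun_prop) (by fun_prop) (by fun_prop)
    (fun z hz => by positivity) (fun z hz => by positivity)]
  rw [gam _ _ (by norm_num) one_pos, gam _ _ (by linarith) one_pos, gam _ _ (by linarith) one_pos]
  exact ENNReal.mul_lt_top ENNReal.ofReal_lt_top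
    (ENNReal.mul_lt_top ENNReal.ofReal_lt_top ENNReal.ofReal_lt_top)

/-- the joint integrand -/
noncomputable def Hf {n : ℕ} (α : ℝ) (a b x : EE n) (y : ℝ × ℝ × ℝ) : ℝ :=
  (y.1 ^ (α - 1) * Real.exp (-(y.1 * (1 + ‖x‖ ^ 2)))) *
    ((y.2.1 ^ (α - 1) * Real.exp (-(y.2.1 * (1 + (inner ℝ x a) ^ 2)))) *
      (y.2.2 ^ (α - 1) * Real.exp (-(y.2.2 * (1 + (inner ℝ x b) ^ 2)))))

lemma Hf_meas {n : ℕ} (α : ℝ) (a b : EE n) :
    Measurable (fun q : EE n × (ℝ × ℝ × ℝ) => Hf α a b q.1 q.2) := by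
  unfold Hf
  fun_prop

lemma Hf_left {n : ℕ} (α : ℝ) (hα : 0 < α) (a b x : EE n) :
    ∫⁻ y in (Ioi (0 : ℝ) ×ˢ Ioi (0 : ℝ) ×ˢ Ioi (0 : ℝ)), ENNReal.ofReal (Hf α a b x y) =
      ENNReal.ofReal (Real.Gamma α ^ 3 * ((1 + ‖x‖ ^ 2) ^ (-α) *
        ((1 + (inner ℝ x a) ^ 2) ^ (-α) * (1 + (inner ℝ x b) ^ 2) ^ (-α)))) := by
  unfold Hf
  rw [prod3 (fun z => z ^ (α - 1) * Real.exp (-(z * (1 + ‖x‖ ^ 2))))
    (fun z => z ^ (α - 1) * Real.exp (-(z * (1 + (inner ℝ x a) ^ 2))))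
    (fun z => z ^ (α - 1) * Real.exp (-(z * (1 + (inner ℝ x b) ^ 2))))
    (by fun_prop) (by fun_prop) (by fun_prop)
    (fun z hz => by positivity) (fun z hz => by positivity)]
  have hG := Real.Gamma_pos_of_pos hα
  rw [gam _ _ hα (by positivity), gam _ _ hα (by positivity), gam _ _ hα (by positivity)]
  rw [← ENNReal.ofReal_mul (by positivity), ← ENNReal.ofReal_mul (by positivity)]
  congr 1
  ring

end KGM_

open KGM_ in
theorem kgm_proof (hG : Stmt_GQF) (hA : PPI.Stmt_AVE) : Stmt_KGM := by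
  intro n a b hn ha hb
  have hn1 : 1 ≤ n := by omega
  have hkap : 0 < kap n := (hA n hn1).1
  set α : ℝ := (n : ℝ) / 2 with hαd
  have hα : 1 ≤ α := by
    have : (2 : ℝ) ≤ n := by exact_mod_cast hn
    rw [hαd]; linarith
  have hα0 : 0 < α := by linarith
  have hΓ := Real.Gamma_pos_of_pos hα0
  set s : ℝ := inner ℝ a b with hsd
  have hs : s ^ 2 ≤ 1 := by
    have h := abs_real_inner_le_norm a b
    rw [ha, hb, one_mul] at h
    exact (sq_le_one_iff_abs_le_one _).2 h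
  have hms : MeasurableSet (Ioi (0 : ℝ) ×ˢ Ioi (0 : ℝ) ×ˢ Ioi (0 : ℝ)) :=
    measurableSet_Ioi.prod (measurableSet_Ioi.prod measurableSet_Ioi)
  have hwm : Measurable (fun x : EE n => ww x a * ww x b) := by
    unfold ww
    fun_prop
  have hw0 : ∀ x : EE n, 0 ≤ ww x a * ww x b := by
    intro x
    unfold ww
    positivity
  have hdm : Measurable (fun x : EE n =>
      ENNReal.ofReal ((1 + ‖x‖ ^ 2) ^ (-((n : ℝ) / 2) - 1) / kap n)) := by
    fun_prop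
  -- the value of the lintegral
  have hK0 : 0 ≤ ∫ y in (Ioi (0 : ℝ) ×ˢ Ioi (0 : ℝ) ×ˢ Ioi (0 : ℝ)), Kf α s y :=
    setIntegral_nonneg hms fun y hy => Kf_nonneg α s y hy
  have hkk : kk n s = α / Real.Gamma α ^ 2 *
      ∫ y in (Ioi (0 : ℝ) ×ˢ Ioi (0 : ℝ) ×ˢ Ioi (0 : ℝ)), Kf α s y := rfl
  have hkk0 : 0 ≤ kk n s := by
    rw [hkk]; positivity
  have key : ∫⁻ x, ENNReal.ofReal (ww x a * ww x b) ∂(mun n) = ENNReal.ofReal (kk n s) := by
    unfold mun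
    rw [lintegral_withDensity_eq_lintegral_mul _ hdm hwm.ennreal_ofReal]
    have e1 : ∀ x : EE n, ((fun x : EE n =>
        ENNReal.ofReal ((1 + ‖x‖ ^ 2) ^ (-((n : ℝ) / 2) - 1) / kap n)) *
        fun x : EE n => ENNReal.ofReal (ww x a * ww x b)) x =
        ENNReal.ofReal ((kap n)⁻¹ * (Real.Gamma α ^ 3)⁻¹) *
          ∫⁻ y in (Ioi (0 : ℝ) ×ˢ Ioi (0 : ℝ) ×ˢ Ioi (0 : ℝ)), ENNReal.ofReal (Hf α a b x y) := by
      intro x
      rw [Hf_left α hα0 a b x]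
      simp only [Pi.mul_apply]
      rw [← ENNReal.ofReal_mul (by positivity), ← ENNReal.ofReal_mul (by positivity)]
      congr 1
      unfold ww
      have hp : 0 < 1 + ‖x‖ ^ 2 := by positivity
      have e2 : (1 + ‖x‖ ^ 2) ^ (-((n : ℝ) / 2) - 1) * (1 + ‖x‖ ^ 2) = (1 + ‖x‖ ^ 2) ^ (-α) := by
        rw [← hαd]
        nth_rewrite 2 [← Real.rpow_one (1 + ‖x‖ ^ 2)]
        rw [← Real.rpow_add hp]
        congr 1; ring
      have e3 : √(1 + ‖x‖ ^ 2) * √(1 + ‖x‖ ^ 2) = 1 + ‖x‖ ^ 2 := Real.mul_self_sqrt hp.le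
      have e4 : (1 + ‖x‖ ^ 2) ^ (-((n : ℝ) / 2) - 1) / kap n *
          (√(1 + ‖x‖ ^ 2) * (1 + inner ℝ x a ^ 2) ^ (-((n : ℝ) / 2)) *
            (√(1 + ‖x‖ ^ 2) * (1 + inner ℝ x b ^ 2) ^ (-((n : ℝ) / 2)))) =
          (kap n)⁻¹ * (((1 + ‖x‖ ^ 2) ^ (-((n : ℝ) / 2) - 1) *
            (√(1 + ‖x‖ ^ 2) * √(1 + ‖x‖ ^ 2))) *
              ((1 + inner ℝ x a ^ 2) ^ (-((n : ℝ) / 2)) *
                (1 + inner ℝ x b ^ 2) ^ (-((n : ℝ) / 2)))) := by
        rw [div_eq_mul_inv]; ring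
      rw [e4, e3, e2, ← hαd]
      have hG3 : Real.Gamma α ^ 3 ≠ 0 := by positivity
      field_simp
    rw [lintegral_congr e1]
    rw [lintegral_const_mul' _ _ ENNReal.ofReal_ne_top]
    rw [lintegral_lintegral_swap (Hf_meas α a b).ennreal_ofReal.aemeasurable]
    have e5 : ∫⁻ y in (Ioi (0 : ℝ) ×ˢ Ioi (0 : ℝ) ×ˢ Ioi (0 : ℝ)),
        ∫⁻ x : EE n, ENNReal.ofReal (Hf α a b x y) =
        ∫⁻ y in (Ioi (0 : ℝ) ×ˢ Ioi (0 : ℝ) ×ˢ Ioi (0 : ℝ)),
          ENNReal.ofReal (Real.pi ^ α) * ENNReal.ofReal (Kf α s y) := by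
      apply setLIntegral_congr_fun hms
      rintro ⟨z, u, v⟩ hy
      have h1 : (0 : ℝ) < z := hy.1
      have h2 : (0 : ℝ) < u := hy.2.1
      have h3 : (0 : ℝ) < v := hy.2.2
      simp only
      have e6 : ∀ x : EE n, ENNReal.ofReal (Hf α a b x (z, u, v)) =
          ENNReal.ofReal (z ^ (α - 1) * u ^ (α - 1) * v ^ (α - 1) * Real.exp (-(z + u + v))) *
            ENNReal.ofReal (Real.exp (-(z * ‖x‖ ^ 2 + u * (inner ℝ x a) ^ 2 +
              v * (inner ℝ x b) ^ 2))) := by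
        intro x
        rw [← ENNReal.ofReal_mul (by positivity)]
        congr 1
        unfold Hf
        simp only
        have e7 : Real.exp (-(z * (1 + ‖x‖ ^ 2))) * (Real.exp (-(u * (1 + (inner ℝ x a) ^ 2))) *
            Real.exp (-(v * (1 + (inner ℝ x b) ^ 2)))) = Real.exp (-(z + u + v)) *
            Real.exp (-(z * ‖x‖ ^ 2 + u * (inner ℝ x a) ^ 2 + v * (inner ℝ x b) ^ 2)) := by
          rw [← Real.exp_add, ← Real.exp_add, ← Real.exp_add]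
          congr 1; ring
        linear_combination (z ^ (α - 1) * u ^ (α - 1) * v ^ (α - 1)) * e7
      rw [lintegral_congr e6, lintegral_const_mul' _ _ ENNReal.ofReal_ne_top]
      rw [hG n a b z u v hn ha hb h1 h2.le h3.le]
      rw [← ENNReal.ofReal_mul (by positivity), ← ENNReal.ofReal_mul (by positivity)]
      congr 1
      unfold Kf
      simp only
      have e8 : z ^ (α - 1) * z ^ (-(((n : ℝ) - 2) / 2)) = 1 := by
        rw [← Real.rpow_add h1]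
        have : α - 1 + -(((n : ℝ) - 2) / 2) = 0 := by rw [hαd]; ring
        rw [this, Real.rpow_zero]
      rw [Real.mul_rpow h2.le h3.le, ← hαd, ← hsd]
      rw [show z ^ (α - 1) * u ^ (α - 1) * v ^ (α - 1) * Real.exp (-(z + u + v)) *
        (Real.pi ^ α * z ^ (-(((n : ℝ) - 2) / 2)) / √((z + u) * (z + v) - u * v * s ^ 2)) =
        (z ^ (α - 1) * z ^ (-(((n : ℝ) - 2) / 2))) *
        (u ^ (α - 1) * v ^ (α - 1) * Real.exp (-(z + u + v)) *
        (Real.pi ^ α / √((z + u) * (z + v) - u * v * s ^ 2))) by ring, e8]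
      ring
    rw [e5, lintegral_const_mul' _ _ ENNReal.ofReal_ne_top]
    rw [← ofReal_integral_eq_lintegral_ofReal (Kf_integrable α s hα hs)
      ((ae_restrict_iff' hms).2 (Eventually.of_forall fun y hy => Kf_nonneg α s y hy))]
    rw [← ENNReal.ofReal_mul (by positivity), ← ENNReal.ofReal_mul (by positivity), hkk]
    congr 1
    have hk : kap n = Real.pi ^ α / (α * Real.Gamma α) := by
      rw [kap_eq n hn1, sqrt_pi_pow, ← hαd, Real.Gamma_add_one hα0.ne']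
    rw [hk]
    have hpi : 0 < Real.pi ^ α := Real.rpow_pos_of_pos Real.pi_pos _
    field_simp
  have hint : Integrable (fun x : EE n => ww x a * ww x b) (mun n) := by
    refine ⟨hwm.aestronglyMeasurable, ?_⟩
    rw [hasFiniteIntegral_iff_ofReal (Eventually.of_forall hw0), key]
    exact ENNReal.ofReal_lt_top
  refine ⟨hint, ?_⟩
  rw [integral_eq_lintegral_of_nonneg_ae (Eventually.of_forall hw0) hwm.aestronglyMeasurable, key,
    ENNReal.toReal_ofReal hkk0]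

end PPX
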