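import Pool.Agent.PPX.Stmts

/-!
# Squad PPX (MP_0bf616_gt), module LAY: the energy of the vectors which are not clustered
-/

set_option autoImplicit false

namespace PPX

open MeasureTheory Set Filter Topology
open PPI PPG
open scoped Pointwise ENNReal

namespace LAY_

open Classical in
/-- layer cake -/
theorem layer (x a b : ℝ) (ha : 0 ≤ a) (hb : 0 ≤ b) (hx : x < b) (M : ℕ) :
    x ≤ a + b * (1 / 2) ^ M + ∑ m ∈ Finset.range M,
      (if max (b * (1 / 2) ^ (m + 1)) a ≤ x then b * (1 / 2) ^ m else 0) := by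
  have hnn : ∀ M : ℕ, 0 ≤ ∑ m ∈ Finset.range M,
      (if max (b * (1 / 2) ^ (m + 1)) a ≤ x then b * (1 / 2) ^ m else 0) := by
    intro M
    refine Finset.sum_nonneg fun m _ => ?_
    split_ifs
    · positivity
    · exact le_rfl
  induction M with
  | zero => simp; linarith
  | succ M ih =>
    rw [Finset.sum_range_succ]
    have h0 : 0 ≤ b * (1 / 2 : ℝ) ^ (M + 1) := by positivity
    have h1 := hnn M
    by_cases h : max (b * (1 / 2) ^ (M + 1)) a ≤ x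
    · rw [if_pos h]
      linarith
    · rw [if_neg h, add_zero]
      rw [max_le_iff, not_and_or, not_le, not_le] at h
      rcases h with h | h
      · linarith
      · linarith

theorem geo (M : ℕ) : ∑ m ∈ Finset.range M, (1 / 2 : ℝ) ^ m ≤ 2 := by
  have h : ∀ M : ℕ, ∑ m ∈ Finset.range M, (1 / 2 : ℝ) ^ m = 2 - 2 * (1 / 2) ^ M := by
    intro M
    induction M with
    | zero => simp
    | succ M ih =>
      rw [Finset.sum_range_succ, ih, pow_succ]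
      ring
  rw [h]
  have : 0 ≤ (1 / 2 : ℝ) ^ M := by positivity
  linarith

theorem cube (n : ℕ) (hn : (100 : ℝ) ≤ n) : (n : ℝ) ^ (-(1 / 3 : ℝ)) ≤ 1 / 4 := by
  have hn0 : (0 : ℝ) ≤ n := by linarith
  by_contra h
  rw [not_le] at h
  have h1 : (1 / 4 : ℝ) ^ 3 < ((n : ℝ) ^ (-(1 / 3 : ℝ))) ^ 3 :=
    pow_lt_pow_left₀ h (by norm_num) (by norm_num)
  have h2 : ((n : ℝ) ^ (-(1 / 3 : ℝ))) ^ 3 = (n : ℝ)⁻¹ := by
    rw [← Real.rpow_natCast, ← Real.rpow_mul hn0]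
    norm_num
    rw [Real.rpow_neg_one]
  rw [h2] at h1
  have h3 : (n : ℝ)⁻¹ ≤ (100 : ℝ)⁻¹ := inv_anti₀ (by norm_num) hn
  norm_num at h1 h3
  linarith

end LAY_

theorem lay_proof (hA : Stmt_CLU) (hB : Stmt_KEN) : Stmt_LAY := by
  classical
  intro A B
  obtain ⟨n₁, h1⟩ := hA (A + 5) B
  refine ⟨max n₁ 100, ?_⟩
  intro n ι _ p w D θ ε g hn hI hM hθ hθ' hε hε' hg
  have hn1 : n₁ ≤ n := le_trans (le_max_left _ _) hn
  have hn2 : 100 ≤ n := le_trans (le_max_right _ _) hn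
  have hnR : (100 : ℝ) ≤ n := by exact_mod_cast hn2
  have hn0 : (0 : ℝ) < n := by linarith
  obtain ⟨c, -, -, -, -, hk, -⟩ := hB n (by omega)
  have hin : ∀ i j, (inner ℝ (w i) (w j)) ^ 2 ≤ 1 := by
    intro i j
    have h := abs_real_inner_le_norm (w i) (w j)
    rw [hI.nrm i, hI.nrm j, one_mul] at h
    rw [← sq_abs]
    exact pow_le_one₀ (abs_nonneg _) h
  have hp : ∀ i, 0 ≤ p i := fun i => (hI.ppos i).le
  have hsq : 8 * √(n : ℝ) + 1 ≤ n := by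
    have h10 : 10 ≤ √(n : ℝ) := by
      rw [show (10 : ℝ) = √(100 : ℝ) by
        rw [show (100 : ℝ) = 10 ^ 2 by norm_num, Real.sqrt_sq (by norm_num)]]
      exact Real.sqrt_le_sqrt hnR
    have hs := Real.mul_self_sqrt hn0.le
    nlinarith
  have hJ : ∀ i, JJ θ p w i ≤ (n : ℝ) ^ 3 * nm θ p w i := by
    intro i
    unfold JJ nm
    rw [show (n : ℝ) ^ 3 = (n : ℝ) ^ 2 * n by ring, mul_assoc]
    refine mul_le_mul_of_nonneg_left ?_ (by positivity)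
    rw [Finset.mul_sum]
    refine Finset.sum_le_sum fun j _ => ?_
    split_ifs
    · have h := (hk _ (hin i j)).2
      have h' : kk n (inner ℝ (w i) (w j)) + 1 ≤ n := by linarith
      have := mul_le_mul_of_nonneg_left h' (hp j)
      linarith
    · simp
  set a : ℝ := (n : ℝ) ^ (-(A : ℝ)) / 2 with ha
  have haP : 0 < (n : ℝ) ^ (-(A : ℝ)) := Real.rpow_pos_of_pos hn0 _
  have ha0 : 0 < a := by rw [ha]; positivity
  have hpw : (n : ℝ) ^ (-(A : ℝ)) = ((n : ℝ) ^ A)⁻¹ := by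
    rw [Real.rpow_neg hn0.le, Real.rpow_natCast]
  have hpw5 : (n : ℝ) ^ (-((A + 5 : ℕ) : ℝ)) = ((n : ℝ) ^ (A + 5))⁻¹ := by
    rw [Real.rpow_neg hn0.le, Real.rpow_natCast]
  have hnm : ∀ i, a ≤ JJ θ p w i → (n : ℝ) ^ (-((A + 5 : ℕ) : ℝ)) ≤ nm θ p w i := by
    intro i hi
    have h3 : a ≤ (n : ℝ) ^ 3 * nm θ p w i := le_trans hi (hJ i)
    have h4 : (n : ℝ) ^ (-((A + 5 : ℕ) : ℝ)) * (n : ℝ) ^ 3 ≤ a := by
      rw [ha, hpw, hpw5, pow_add, mul_inv, show (n : ℝ) ^ 5 = (n : ℝ) ^ 3 * (n : ℝ) ^ 2 by ring,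
        mul_inv]
      have hq : ((n : ℝ) ^ 3)⁻¹ * (n : ℝ) ^ 3 = 1 := inv_mul_cancel₀ (by positivity)
      have hq2 : ((n : ℝ) ^ 2)⁻¹ ≤ 1 / 2 := by
        rw [inv_le_comm₀ (by positivity) (by norm_num)]
        norm_num
        nlinarith
      have hA0 : 0 ≤ ((n : ℝ) ^ A)⁻¹ := by positivity
      calc ((n : ℝ) ^ A)⁻¹ * (((n : ℝ) ^ 3)⁻¹ * ((n : ℝ) ^ 2)⁻¹) * (n : ℝ) ^ 3
          = ((n : ℝ) ^ A)⁻¹ * ((n : ℝ) ^ 2)⁻¹ * (((n : ℝ) ^ 3)⁻¹ * (n : ℝ) ^ 3) := by ring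
        _ = ((n : ℝ) ^ A)⁻¹ * ((n : ℝ) ^ 2)⁻¹ := by rw [hq, mul_one]
        _ ≤ ((n : ℝ) ^ A)⁻¹ * (1 / 2) := mul_le_mul_of_nonneg_left hq2 hA0
        _ = ((n : ℝ) ^ A)⁻¹ / 2 := by ring
    have h5 : (n : ℝ) ^ (-((A + 5 : ℕ) : ℝ)) * (n : ℝ) ^ 3 ≤ nm θ p w i * (n : ℝ) ^ 3 := by
      linarith
    exact le_of_mul_le_mul_right h5 (by positivity)
  set E : ℝ := D + (n : ℝ) ^ (-(B : ℝ)) with hE
  have hE0 : 0 ≤ E := by
    have h := h1 n ι p w D θ ∅ hn1 hI hM hθ (by linarith) (by simp)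
    rw [Finset.sum_empty, mul_zero, zero_mul] at h
    exact h
  have hS : ∀ S : Finset ι, (∀ i ∈ S, a ≤ JJ θ p w i) → (n : ℝ) * ∑ i ∈ S, p i ≤ 2 * E := by
    intro S hS
    have h := h1 n ι p w D θ S hn1 hI hM hθ (by linarith) (fun i hi => hnm i (hS i hi))
    have hc := LAY_.cube n hnR
    have hs0 : 0 ≤ (n : ℝ) * ∑ i ∈ S, p i :=
      mul_nonneg hn0.le (Finset.sum_nonneg fun i _ => hp i)
    have h12 : (1 / 2 : ℝ) ≤ 1 - 2 * θ - (n : ℝ) ^ (-(1 / 3 : ℝ)) := by linarith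
    have := mul_le_mul_of_nonneg_left h12 hs0
    linarith
  have hb0 : 0 < ε * n := mul_pos hε hn0
  obtain ⟨M, hM'⟩ := exists_pow_lt_of_lt_one (div_pos ha0 hb0) (by norm_num : (1 / 2 : ℝ) < 1)
  rw [lt_div_iff₀ hb0] at hM'
  have hpt : ∀ i ∈ g, p i * JJ θ p w i ≤ p i * (2 * a) + ∑ m ∈ Finset.range M,
      (if max (ε * n * (1 / 2) ^ (m + 1)) a ≤ JJ θ p w i then p i * (ε * n * (1 / 2) ^ m)
        else 0) := by
    intro i hi
    have h := LAY_.layer (JJ θ p w i) a (ε * n) ha0.le hb0.le (hg i hi) M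
    have h' : JJ θ p w i ≤ 2 * a + ∑ m ∈ Finset.range M,
      (if max (ε * n * (1 / 2) ^ (m + 1)) a ≤ JJ θ p w i then ε * n * (1 / 2) ^ m else 0) := by
      linarith
    have h'' := mul_le_mul_of_nonneg_left h' (hp i)
    rw [mul_add, Finset.mul_sum] at h''
    refine le_trans h'' (le_of_eq ?_)
    refine congrArg (fun t => p i * (2 * a) + t) (Finset.sum_congr rfl fun m _ => ?_)
    rw [mul_ite, mul_zero]
  have hgs : ∑ i ∈ g, p i ≤ 1 := by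
    rw [← hI.psum]
    exact Finset.sum_le_univ_sum_of_nonneg hp
  have hlay : ∀ m ∈ Finset.range M, ∑ i ∈ g,
      (if max (ε * n * (1 / 2) ^ (m + 1)) a ≤ JJ θ p w i then p i * (ε * n * (1 / 2) ^ m)
        else 0) ≤ 2 * ε * E * (1 / 2) ^ m := by
    intro m _
    rw [← Finset.sum_filter, ← Finset.sum_mul]
    have h := hS (g.filter fun i => max (ε * n * (1 / 2) ^ (m + 1)) a ≤ JJ θ p w i)
      (fun i hi => le_trans (le_max_right _ _) (Finset.mem_filter.mp hi).2)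
    have h0 : 0 ≤ ε * (1 / 2 : ℝ) ^ m := by positivity
    have h2 := mul_le_mul_of_nonneg_right h h0
    linarith
  calc ∑ i ∈ g, p i * JJ θ p w i
      ≤ ∑ i ∈ g, (p i * (2 * a) + ∑ m ∈ Finset.range M,
      (if max (ε * n * (1 / 2) ^ (m + 1)) a ≤ JJ θ p w i then p i * (ε * n * (1 / 2) ^ m)
        else 0)) := Finset.sum_le_sum hpt
    _ = (∑ i ∈ g, p i) * (2 * a) + ∑ m ∈ Finset.range M, ∑ i ∈ g,
      (if max (ε * n * (1 / 2) ^ (m + 1)) a ≤ JJ θ p w i then p i * (ε * n * (1 / 2) ^ m)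
        else 0) := by
      rw [Finset.sum_add_distrib, ← Finset.sum_mul, Finset.sum_comm]
    _ ≤ 1 * (2 * a) + ∑ m ∈ Finset.range M, 2 * ε * E * (1 / 2) ^ m :=
      add_le_add (mul_le_mul_of_nonneg_right hgs (by linarith)) (Finset.sum_le_sum hlay)
    _ = 2 * a + 2 * ε * E * ∑ m ∈ Finset.range M, (1 / 2 : ℝ) ^ m := by
      rw [Finset.mul_sum, one_mul]
    _ ≤ 2 * a + 2 * ε * E * 2 := by
      have h0 : 0 ≤ 2 * ε * E := by positivity
      have := mul_le_mul_of_nonneg_left (LAY_.geo M) h0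
      linarith
    _ ≤ 8 * ε * E + (n : ℝ) ^ (-(A : ℝ)) := by
      have h0 : 0 ≤ ε * E := by positivity
      rw [ha]
      linarith

end PPX
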