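import Pool.Agent.PPX.Stmts2

/-! LIN: linear images and projection bodies -/

set_option autoImplicit false

namespace PPX

open MeasureTheory Set Filter Topology
open PPI PPG
open scoped Pointwise ENNReal RealInnerProductSpace

namespace LIN_

/-- the decomposition is measure preserving -/
lemma mp {n : ℕ} (u : EE n) (hu : ‖u‖ = 1) :
    MeasurePreserving (fun p : ℝ × ((ℝ ∙ u)ᗮ : Submodule ℝ (EE n)) => p.1 • u + (p.2 : EE n))
      ((volume : Measure ℝ).prod
        (measureSpaceOfInnerProductSpace (E := ↥((ℝ ∙ u)ᗮ))).volume)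
      (volume : Measure (EE n)) := by
  set K : Submodule ℝ (EE n) := ℝ ∙ u with hK
  let iK : MeasureSpace K := measureSpaceOfInnerProductSpace
  let iP : MeasureSpace Kᗮ := measureSpaceOfInnerProductSpace
  have h1 : MeasurePreserving (fun p : K × Kᗮ => ((p.1 : EE n) + (p.2 : EE n)))
      ((volume : Measure K).prod (volume : Measure Kᗮ)) (volume : Measure (EE n)) := by
    have a := (K.orthogonalDecomposition.symm).measurePreserving
    have b := WithLp.volume_preserving_toLp K Kᗮ
    have c := a.comp b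
    exact c
  have h4 : MeasurePreserving (LinearIsometryEquiv.toSpanUnitSingleton (𝕜 := ℝ) u hu)
      (volume : Measure ℝ) (volume : Measure K) :=
    (LinearIsometryEquiv.toSpanUnitSingleton (𝕜 := ℝ) u hu).measurePreserving
  have h5 := h4.prod (MeasurePreserving.id (volume : Measure Kᗮ))
  exact h1.comp h5

lemma projcoe {n : ℕ} (u : EE n) (hu : ‖u‖ = 1) (x : EE n) :
    (((ℝ ∙ u)ᗮ.orthogonalProjectionOnto x : ((ℝ ∙ u)ᗮ : Submodule ℝ (EE n))) : EE n) =
      x - ⟪u, x⟫ • u := by
  rw [Submodule.orthogonalProjectionOnto_orthogonal]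
  change x - (ℝ ∙ u).starProjection x = _
  rw [Submodule.starProjection_unit_singleton ℝ hu]

/-- the set `K + [0,M] v` -/
def sw {n : ℕ} (K : Set (EE n)) (v : EE n) (M : ℝ) : Set (EE n) :=
  (fun p : EE n × ℝ => p.1 + p.2 • v) '' (K ×ˢ Icc 0 M)

lemma sw_compact {n : ℕ} {K : Set (EE n)} (hK : IsCompact K) (v : EE n) (M : ℝ) :
    IsCompact (sw K v M) :=
  (hK.prod isCompact_Icc).image (by fun_prop)

lemma sw_scale {n : ℕ} (K : Set (EE n)) (v : EE n) (hv : v ≠ 0) (M : ℝ) :
    sw K v M = sw K ((‖v‖)⁻¹ • v) (M * ‖v‖) := by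
  have hv' : 0 < ‖v‖ := norm_pos_iff.mpr hv
  ext x
  constructor
  · rintro ⟨⟨k, s⟩, ⟨hk, hs⟩, rfl⟩
    refine ⟨(k, s * ‖v‖), ⟨hk, ⟨?_, ?_⟩⟩, ?_⟩
    · exact mul_nonneg hs.1 hv'.le
    · exact mul_le_mul_of_nonneg_right hs.2 hv'.le
    · simp only [smul_smul]
      rw [mul_assoc, mul_inv_cancel₀ hv'.ne', mul_one]
  · rintro ⟨⟨k, s⟩, ⟨hk, hs⟩, rfl⟩
    refine ⟨(k, s * ‖v‖⁻¹), ⟨hk, ⟨?_, ?_⟩⟩, ?_⟩
    · exact mul_nonneg hs.1 (inv_nonneg.mpr hv'.le)
    · have := hs.2
      simp only
      rw [← div_eq_mul_inv, div_le_iff₀ hv']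
      exact this
    · simp only [smul_smul]

lemma sw_image {n : ℕ} (K : Set (EE n)) (T : EE n →L[ℝ] EE n) (v : EE n) (M : ℝ) :
    sw (T '' K) (T v) M = T '' sw K v M := by
  ext x
  constructor
  · rintro ⟨⟨k, s⟩, ⟨⟨k', hk', rfl⟩, hs⟩, rfl⟩
    exact ⟨k' + s • v, ⟨(k', s), ⟨hk', hs⟩, rfl⟩, by simp⟩
  · rintro ⟨_, ⟨⟨k, s⟩, ⟨hk, hs⟩, rfl⟩, rfl⟩
    exact ⟨(T k, s), ⟨⟨k, hk, rfl⟩, hs⟩, by simp⟩

/-- Fubini sandwich -/
lemma sandwich {n : ℕ} {K : Set (EE n)} (hKc : IsCompact K) (u : EE n) (hu : ‖u‖ = 1)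
    (R : ℝ) (hR : K ⊆ Metric.closedBall 0 R) (M : ℝ) (hM : 0 ≤ M) (hR0 : 0 ≤ R) :
    M * shadow K u ≤ vl (sw K u M) ∧ vl (sw K u M) ≤ (M + 2 * R) * shadow K u := by
  set P : Submodule ℝ (EE n) := (ℝ ∙ u)ᗮ with hP
  set μ : Measure P := (measureSpaceOfInnerProductSpace (E := ↥((ℝ ∙ u)ᗮ))).volume with hμ
  have hmp := mp u hu
  have huP : ∀ y : P, ⟪u, (y : EE n)⟫ = 0 := fun y =>
    Submodule.mem_orthogonal_singleton_iff_inner_right.1 y.2
  have fub : ∀ A : Set (EE n), MeasurableSet A →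
      volume A = ∫⁻ y : P, volume {τ : ℝ | τ • u + (y : EE n) ∈ A} ∂μ := by
    intro A hA
    rw [← hmp.measure_preimage hA.nullMeasurableSet]
    rw [Measure.prod_apply_symm (hmp.measurable hA)]
    rfl
  have hAc := sw_compact hKc u M
  have hAm : MeasurableSet (sw K u M) := hAc.isClosed.measurableSet
  set S : Set P := P.orthogonalProjectionOnto '' K with hS
  have hScomp : IsCompact S := hKc.image (by fun_prop)
  have hSmeas : MeasurableSet S := hScomp.isClosed.measurableSet
  have hSproj : ∀ y : P, y ∈ S ↔ ∃ a : ℝ, (y : EE n) + a • u ∈ K := by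
    intro y
    constructor
    · rintro ⟨x, hx, rfl⟩
      refine ⟨⟪u, x⟫, ?_⟩
      rw [projcoe u hu x]
      simpa using hx
    · rintro ⟨a, ha⟩
      refine ⟨_, ha, ?_⟩
      apply Subtype.ext
      refine (projcoe u hu _).trans ?_
      have h2 : ⟪u, (y : EE n) + a • u⟫ = a := by
        rw [inner_add_right, inner_smul_right, huP, real_inner_self_eq_norm_sq, hu]
        ring
      rw [h2]
      abel
  have hshadow : shadow K u = (μ S).toReal := by
    have e : projSet K u = S := by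
      ext y
      exact (hSproj y).symm
    unfold shadow vol
    rw [e]
    rfl
  have : IsFiniteMeasureOnCompacts μ := by
    rw [hμ]
    infer_instance
  have hSfin : μ S ≠ ⊤ := hScomp.measure_lt_top.ne
  have hAfin : volume (sw K u M) ≠ ⊤ := hAc.measure_lt_top.ne
  have htau : ∀ (y : P) (τ : ℝ), ⟪u, τ • u + (y : EE n)⟫ = τ := by
    intro y τ
    rw [inner_add_right, inner_smul_right, huP, real_inner_self_eq_norm_sq, hu]
    ring
  have hK1 : ∀ (y : P) (τ : ℝ), τ • u + (y : EE n) ∈ K → |τ| ≤ R := by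
    intro y τ h
    have h1 := hR h
    rw [mem_closedBall_zero_iff] at h1
    have h3 : |τ| ≤ ‖u‖ * ‖τ • u + (y : EE n)‖ := by
      have := abs_real_inner_le_norm u (τ • u + (y : EE n))
      rwa [htau] at this
    rw [hu, one_mul] at h3
    exact h3.trans h1
  constructor
  · have h1 : ENNReal.ofReal M * μ S ≤ volume (sw K u M) := by
      rw [fub _ hAm]
      calc ENNReal.ofReal M * μ S = ∫⁻ y in S, ENNReal.ofReal M ∂μ := by
            rw [setLIntegral_const]
        _ ≤ ∫⁻ y in S, volume {τ : ℝ | τ • u + (y : EE n) ∈ sw K u M} ∂μ := by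
            apply setLIntegral_mono' hSmeas
            intro y hy
            obtain ⟨a, ha⟩ := (hSproj y).1 hy
            have hsub : Icc a (a + M) ⊆ {τ : ℝ | τ • u + (y : EE n) ∈ sw K u M} := by
              intro τ hτ
              refine ⟨((y : EE n) + a • u, τ - a), ⟨ha, ⟨by linarith [hτ.1], by linarith [hτ.2]⟩⟩, ?_⟩
              simp only
              module
            calc ENNReal.ofReal M = volume (Icc a (a + M)) := by
                  rw [Real.volume_Icc]; congr 1; ring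
              _ ≤ _ := measure_mono hsub
        _ ≤ _ := setLIntegral_le_lintegral _ _
    have h2 := ENNReal.toReal_mono hAfin h1
    rw [ENNReal.toReal_mul, ENNReal.toReal_ofReal hM] at h2
    rw [hshadow]
    exact h2
  · have h1 : volume (sw K u M) ≤ ENNReal.ofReal (M + 2 * R) * μ S := by
      rw [fub _ hAm]
      calc ∫⁻ y, volume {τ : ℝ | τ • u + (y : EE n) ∈ sw K u M} ∂μ
          ≤ ∫⁻ y, S.indicator (fun _ => ENNReal.ofReal (M + 2 * R)) y ∂μ := by
            apply lintegral_mono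
            intro y
            by_cases hy : y ∈ S
            · rw [Set.indicator_of_mem hy]
              have hsub : {τ : ℝ | τ • u + (y : EE n) ∈ sw K u M} ⊆ Icc (-R) (R + M) := by
                rintro τ ⟨⟨k, s⟩, ⟨hk, hs⟩, hks⟩
                simp only at hks hk hs
                have e : k = (τ - s) • u + (y : EE n) := by
                  have : k = (τ • u + (y : EE n)) - s • u := by rw [← hks]; abel
                  rw [this]; module
                rw [e] at hk
                have h3 := abs_le.1 (hK1 y _ hk)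
                exact ⟨by linarith [h3.1, hs.1], by linarith [h3.2, hs.2]⟩
              calc volume {τ : ℝ | τ • u + (y : EE n) ∈ sw K u M} ≤ volume (Icc (-R) (R + M)) :=
                    measure_mono hsub
                _ = ENNReal.ofReal (M + 2 * R) := by
                    rw [Real.volume_Icc]; congr 1; ring
            · rw [Set.indicator_of_notMem hy]
              have hem : {τ : ℝ | τ • u + (y : EE n) ∈ sw K u M} = ∅ := by
                rw [Set.eq_empty_iff_forall_notMem]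
                rintro τ ⟨⟨k, s⟩, ⟨hk, hs⟩, hks⟩
                simp only at hks hk hs
                apply hy
                rw [hSproj]
                refine ⟨τ - s, ?_⟩
                have : (y : EE n) + (τ - s) • u = k := by
                  have : k = (τ • u + (y : EE n)) - s • u := by rw [← hks]; abel
                  rw [this]; module
                rw [this]; exact hk
              change volume {τ : ℝ | τ • u + (y : EE n) ∈ sw K u M} ≤ 0
              rw [hem]; simp
        _ = ENNReal.ofReal (M + 2 * R) * μ S := by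
            rw [lintegral_indicator hSmeas, setLIntegral_const]
    have h2 := ENNReal.toReal_mono (ENNReal.mul_ne_top ENNReal.ofReal_ne_top hSfin) h1
    rw [ENNReal.toReal_mul, ENNReal.toReal_ofReal (by positivity)] at h2
    rw [hshadow]
    exact h2

lemma le_of_lin (a b C : ℝ) (h : ∀ M : ℝ, 0 < M → M * a ≤ M * b + C) : a ≤ b := by
  by_contra hab
  push Not at hab
  have hd : 0 < a - b := by linarith
  have h1 := h ((|C| + 1) / (a - b)) (by positivity)
  have h2 : (|C| + 1) / (a - b) * (a - b) = |C| + 1 := by field_simp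
  have h3 := le_abs_self C
  nlinarith

lemma shadow_nonneg {n : ℕ} (K : Set (EE n)) (u : EE n) : 0 ≤ shadow K u := ENNReal.toReal_nonneg

lemma rel {n : ℕ} {K : Set (EE n)} (hK : IsCompact K) (T : EE n →L[ℝ] EE n) (hT : T.det ≠ 0)
    (v : EE n) (hv : v ≠ 0) (hTv : T v ≠ 0) :
    ‖T v‖ * shadow (T '' K) ((‖T v‖)⁻¹ • T v) = |T.det| * (‖v‖ * shadow K ((‖v‖)⁻¹ • v)) := by
  have hTK : IsCompact (T '' K) := hK.image T.continuous
  obtain ⟨R, hR⟩ := hK.isBounded.subset_closedBall (0 : EE n)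
  obtain ⟨R', hR'⟩ := hTK.isBounded.subset_closedBall (0 : EE n)
  have hR2 : K ⊆ Metric.closedBall 0 (max R 0) :=
    hR.trans (Metric.closedBall_subset_closedBall (le_max_left _ _))
  have hR2' : T '' K ⊆ Metric.closedBall 0 (max R' 0) :=
    hR'.trans (Metric.closedBall_subset_closedBall (le_max_left _ _))
  have hv' : 0 < ‖v‖ := norm_pos_iff.mpr hv
  have hTv' : 0 < ‖T v‖ := norm_pos_iff.mpr hTv
  have hn1 : ‖(‖v‖)⁻¹ • v‖ = 1 := by
    rw [norm_smul, norm_inv, norm_norm, inv_mul_cancel₀ hv'.ne']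
  have hn2 : ‖(‖T v‖)⁻¹ • T v‖ = 1 := by
    rw [norm_smul, norm_inv, norm_norm, inv_mul_cancel₀ hTv'.ne']
  have hvol : ∀ M : ℝ, vl (sw (T '' K) (T v) M) = |T.det| * vl (sw K v M) := by
    intro M
    rw [sw_image]
    unfold vl
    rw [Measure.addHaar_image_continuousLinearMap, ENNReal.toReal_mul,
      ENNReal.toReal_ofReal (abs_nonneg _)]
  have hs1 : ∀ M : ℝ, 0 < M → M * ‖v‖ * shadow K ((‖v‖)⁻¹ • v) ≤ vl (sw K v M) ∧
      vl (sw K v M) ≤ (M * ‖v‖ + 2 * max R 0) * shadow K ((‖v‖)⁻¹ • v) := by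
    intro M hM
    rw [sw_scale K v hv M]
    exact sandwich hK _ hn1 _ hR2 _ (by positivity) (le_max_right _ _)
  have hs2 : ∀ M : ℝ, 0 < M → M * ‖T v‖ * shadow (T '' K) ((‖T v‖)⁻¹ • T v) ≤
      vl (sw (T '' K) (T v) M) ∧
      vl (sw (T '' K) (T v) M) ≤
        (M * ‖T v‖ + 2 * max R' 0) * shadow (T '' K) ((‖T v‖)⁻¹ • T v) := by
    intro M hM
    rw [sw_scale _ (T v) hTv M]
    exact sandwich hTK _ hn2 _ hR2' _ (by positivity) (le_max_right _ _)
  apply le_antisymm
  · apply le_of_lin _ _ (|T.det| * (2 * max R 0 * shadow K ((‖v‖)⁻¹ • v)))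
    intro M hM
    have a := (hs2 M hM).1
    rw [hvol] at a
    have b := mul_le_mul_of_nonneg_left (hs1 M hM).2 (abs_nonneg T.det)
    calc M * (‖T v‖ * shadow (T '' K) ((‖T v‖)⁻¹ • T v)) =
          M * ‖T v‖ * shadow (T '' K) ((‖T v‖)⁻¹ • T v) := by ring
      _ ≤ _ := a
      _ ≤ _ := b
      _ = _ := by ring
  · apply le_of_lin _ _ (2 * max R' 0 * shadow (T '' K) ((‖T v‖)⁻¹ • T v))
    intro M hM
    have a := (hs2 M hM).2
    rw [hvol] at a
    have b := mul_le_mul_of_nonneg_left (hs1 M hM).1 (abs_nonneg T.det)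
    calc M * (|T.det| * (‖v‖ * shadow K ((‖v‖)⁻¹ • v))) =
          |T.det| * (M * ‖v‖ * shadow K ((‖v‖)⁻¹ • v)) := by ring
      _ ≤ _ := b
      _ ≤ _ := a
      _ = _ := by ring

lemma det_adj {n : ℕ} (T : EE n →ₗ[ℝ] EE n) : LinearMap.det (LinearMap.adjoint T) = LinearMap.det T := by
  have b := EuclideanSpace.basisFun (Fin n) ℝ
  rw [← LinearMap.det_toMatrix b.toBasis, LinearMap.toMatrix_adjoint, Matrix.det_conjTranspose,
    LinearMap.det_toMatrix]
  simp

end LIN_

open LIN_ in
theorem lin_proof : Stmt_LIN := by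
  intro n K T hn hK hT
  have hT' : LinearMap.det (T : EE n →ₗ[ℝ] EE n) ≠ 0 := hT
  set e := LinearMap.equivOfDetNeZero (T : EE n →ₗ[ℝ] EE n) hT' with he
  have heT : ∀ x, e x = T x := fun x => rfl
  have hinj : ∀ x, x ≠ 0 → T x ≠ 0 := by
    intro x hx h
    apply hx
    have : e x = e 0 := by rw [heT, heT, h, map_zero]
    exact e.injective this
  have hd : 0 < |T.det| := abs_pos.mpr hT
  set L : EE n →ₗ[ℝ] EE n := (|T.det|)⁻¹ • LinearMap.adjoint (T : EE n →ₗ[ℝ] EE n) with hL
  have hLi : ∀ v y : EE n, inner ℝ v (L y) = (|T.det|)⁻¹ * inner ℝ (T v) y := by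
    intro v y
    rw [hL, LinearMap.smul_apply, inner_smul_right, LinearMap.adjoint_inner_right]
    rfl
  have hset : projBody (T '' K) = L ⁻¹' projBody K := by
    ext y
    constructor
    · intro hy u hu
      have hu0 : u ≠ 0 := by
        intro h; rw [h, norm_zero] at hu; exact zero_ne_one hu
      have hTu := hinj u hu0
      have hTu' : 0 < ‖T u‖ := norm_pos_iff.mpr hTu
      have h1 := hy ((‖T u‖)⁻¹ • T u) (by
        rw [norm_smul, norm_inv, norm_norm, inv_mul_cancel₀ hTu'.ne'])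
      have h2 := rel hK T hT u hu0 hTu
      rw [hu, inv_one, one_smul, one_mul] at h2
      rw [hLi]
      rw [inner_smul_left] at h1
      simp only [conj_trivial] at h1
      rw [inv_mul_le_iff₀ hTu'] at h1
      rw [inv_mul_le_iff₀ hd, ← h2]
      exact h1
    · intro hy w hw
      have hw0 : w ≠ 0 := by
        intro h; rw [h, norm_zero] at hw; exact zero_ne_one hw
      set v := e.symm w with hv
      have hTv : T v = w := by rw [← heT, hv, e.apply_symm_apply]
      have hv0 : v ≠ 0 := by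
        intro h; rw [h, map_zero] at hTv; exact hw0 hTv.symm
      have hv' : 0 < ‖v‖ := norm_pos_iff.mpr hv0
      have h1 := hy ((‖v‖)⁻¹ • v) (by
        rw [norm_smul, norm_inv, norm_norm, inv_mul_cancel₀ hv'.ne'])
      have h2 := rel hK T hT v hv0 (by rw [hTv]; exact hw0)
      rw [hTv, hw, inv_one, one_smul, one_mul] at h2
      rw [h2]
      rw [inner_smul_left, hLi, hTv] at h1
      simp only [conj_trivial] at h1
      rw [inv_mul_le_iff₀ hv', inv_mul_le_iff₀ hd] at h1
      exact h1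
  have hdetL : LinearMap.det L = (|T.det|)⁻¹ ^ n * T.det := by
    rw [hL, LinearMap.det_smul, det_adj, finrank_euclideanSpace_fin]
  have hdetL0 : LinearMap.det L ≠ 0 := by
    rw [hdetL]
    exact mul_ne_zero (pow_ne_zero _ (inv_ne_zero hd.ne')) hT
  rw [hset]
  unfold vl
  rw [Measure.addHaar_preimage_linearMap _ hdetL0, ENNReal.toReal_mul,
    ENNReal.toReal_ofReal (abs_nonneg _), hdetL]
  congr 1
  rw [abs_inv, abs_mul, abs_pow, abs_inv, abs_abs, mul_inv, inv_pow, inv_inv]
  obtain ⟨m, rfl⟩ : ∃ m, n = m + 1 := ⟨n - 1, by omega⟩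
  rw [pow_succ, Nat.add_sub_cancel, mul_assoc, mul_inv_cancel₀ hd.ne', mul_one]

end PPX
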