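import Pool.Agent.PPX.Stmts

/-!
# Squad PPX, module MMS: series and bounds for `mm`
-/

set_option autoImplicit false

namespace PPX

open MeasureTheory Set Filter Topology
open PPI PPG
open scoped Pointwise ENNReal

namespace MMS_

lemma smo_zero (n : ℕ) : smo n 0 = 1 := by simp [smo]

lemma smo_one (n : ℕ) : smo n 1 = 1 / (n : ℝ) := by simp [smo]

lemma smo_two (n : ℕ) : smo n 2 = 1 / (n : ℝ) * (3 / ((n : ℝ) + 2)) := by
  simp only [smo, Finset.prod_range_succ, Finset.prod_range_zero]
  norm_num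

lemma sqrt_lower (t : ℝ) (h0 : 0 ≤ t) (h1 : t ≤ 1) : 1 - t ≤ √(1 - t) := by
  apply Real.le_sqrt_of_sq_le
  nlinarith

lemma sqrt_upper (t : ℝ) (h0 : 0 ≤ t) (h1 : t ≤ 1) : √(1 - t) ≤ 1 - t / 2 - t ^ 2 / 8 := by
  apply Real.sqrt_le_iff.2
  constructor
  · nlinarith
  · nlinarith [mul_nonneg h0 h0, mul_nonneg (mul_nonneg h0 h0) h0,
      mul_nonneg (mul_nonneg (mul_nonneg h0 h0) h0) h0]

end MMS_

open MMS_

theorem mms_proof (hSQR : Stmt_SQR) (hSMM : Stmt_SMM) (hBTS : Stmt_BTS) (hSPH : Stmt_SPH) :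
    Stmt_MMS := by
  intro n hn
  obtain ⟨hP, hnorm, -⟩ := hSPH n (by omega)
  have : IsProbabilityMeasure (sph n) := hP
  have hn0 : 0 < n := by omega
  set a : EE n := EuclideanSpace.single (⟨0, hn0⟩ : Fin n) (1 : ℝ) with ha
  have hna : ‖a‖ = 1 := by rw [ha]; simp
  have hle : ∀ᵐ v ∂(sph n), (inner ℝ a v : ℝ) ^ 2 ≤ 1 := by
    filter_upwards [hnorm] with v hv
    have := abs_real_inner_le_norm a v
    rw [hna, hv, one_mul] at this
    exact (sq_le_one_iff_abs_le_one _).2 this
  have hmeas : ∀ k : ℕ, AEStronglyMeasurable (fun v : EE n => (inner ℝ a v : ℝ) ^ k) (sph n) := by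
    intro k
    exact ((continuous_const.inner continuous_id).pow k).aestronglyMeasurable
  have hint : ∀ k : ℕ, Integrable (fun v : EE n => (inner ℝ a v : ℝ) ^ (2 * k)) (sph n) := by
    intro k
    refine Integrable.of_bound (hmeas (2 * k)) 1 ?_
    filter_upwards [hle] with v hv
    rw [Real.norm_eq_abs, pow_mul, abs_pow, abs_of_nonneg (sq_nonneg _)]
    exact pow_le_one₀ (sq_nonneg _) hv
  have hmom : ∀ k : ℕ, ∫ v, (inner ℝ a v : ℝ) ^ (2 * k) ∂(sph n) = smo n k := by
    intro k
    rw [hSMM n k a (by omega), hna, one_pow, mul_one]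
  obtain ⟨-, hB2, -, hB4, -⟩ := hBTS
  have hec : Summable fun k : ℕ => ec k := by
    have := (hB2 1 zero_le_one le_rfl).summable
    simpa using this
  have hsmo0 : ∀ k : ℕ, 0 ≤ smo n k := by
    intro k
    rw [← hmom k]
    apply integral_nonneg
    intro v
    simp only [Pi.zero_apply]
    rw [pow_mul]
    positivity
  have hsmo1 : ∀ k : ℕ, smo n k ≤ 1 := by
    intro k
    rw [← hmom k]
    have : ∫ v, (inner ℝ a v : ℝ) ^ (2 * k) ∂(sph n) ≤ ∫ _v : EE n, (1 : ℝ) ∂(sph n) := by
      apply integral_mono_ae (hint k) (integrable_const _)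
      filter_upwards [hle] with v hv
      rw [pow_mul]
      exact pow_le_one₀ (sq_nonneg _) hv
    simpa using this
  have hmm : ∫ v, √(1 - (inner ℝ a v : ℝ) ^ 2) ∂(sph n) = mm n := hSQR n a hn hna
  have hsqint : Integrable (fun v : EE n => √(1 - (inner ℝ a v : ℝ) ^ 2)) (sph n) := by
    refine Integrable.of_bound ?_ 1 ?_
    · exact (Real.continuous_sqrt.comp
        (continuous_const.sub ((continuous_const.inner continuous_id).pow 2))).aestronglyMeasurable
    · filter_upwards [hle] with v hv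
      rw [Real.norm_eq_abs, abs_of_nonneg (Real.sqrt_nonneg _)]
      apply Real.sqrt_le_one.2
      nlinarith [sq_nonneg (inner ℝ a v : ℝ)]
  refine ⟨?_, ?_, ?_⟩
  · have h1 := hasSum_integral_of_summable_integral_norm
      (F := fun (k : ℕ) (v : EE n) => ec k * (inner ℝ a v : ℝ) ^ (2 * k)) (μ := sph n)
      (fun k => (hint k).const_mul (ec k)) ?_
    · have h2 : (∫ v, ∑' k : ℕ, ec k * (inner ℝ a v : ℝ) ^ (2 * k) ∂(sph n)) = -mm n := by
        rw [← hmm, ← integral_neg]
        apply integral_congr_ae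
        filter_upwards [hle] with v hv
        have := hB2 ((inner ℝ a v : ℝ) ^ 2) (sq_nonneg _) hv
        simp_rw [pow_mul]
        exact this.tsum_eq
      rw [h2] at h1
      have h3 : (fun k : ℕ => ∫ v, ec k * (inner ℝ a v : ℝ) ^ (2 * k) ∂(sph n)) =
          fun k : ℕ => ec k * smo n k := by
        funext k
        rw [integral_const_mul, hmom k]
      rw [h3] at h1
      exact h1
    · apply Summable.of_nonneg_of_le (f := fun k => |ec k|)
      · intro k
        exact integral_nonneg fun v => norm_nonneg _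
      · intro k
        have : (fun v : EE n => ‖ec k * (inner ℝ a v : ℝ) ^ (2 * k)‖) =
            fun v : EE n => |ec k| * (inner ℝ a v : ℝ) ^ (2 * k) := by
          funext v
          rw [Real.norm_eq_abs, abs_mul]
          congr 1
          rw [pow_mul]
          exact abs_of_nonneg (by positivity)
        rw [this, integral_const_mul, hmom k]
        exact mul_le_of_le_one_right (abs_nonneg _) (hsmo1 k)
      · exact hec.abs
  · rw [← hmm]
    have h1 : ∫ v, (1 - (inner ℝ a v : ℝ) ^ (2 * 1)) ∂(sph n) = 1 - 1 / (n : ℝ) := by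
      rw [integral_sub (integrable_const _) (hint 1), hmom 1, smo_one]
      simp
    rw [← h1]
    apply integral_mono_ae ((integrable_const _).sub (hint 1)) hsqint
    filter_upwards [hle] with v hv
    exact sqrt_lower _ (sq_nonneg _) hv
  · rw [← hmm]
    have hi1 : Integrable (fun v : EE n => (1 : ℝ) - (1 / 2) * (inner ℝ a v : ℝ) ^ (2 * 1))
        (sph n) := (integrable_const _).sub ((hint 1).const_mul _)
    have hi2 : Integrable (fun v : EE n => (1 / 8 : ℝ) * (inner ℝ a v : ℝ) ^ (2 * 2))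
        (sph n) := (hint 2).const_mul _
    have h1 : ∫ v, ((1 - (1 / 2) * (inner ℝ a v : ℝ) ^ (2 * 1)) -
        (1 / 8) * (inner ℝ a v : ℝ) ^ (2 * 2)) ∂(sph n) =
        1 - 1 / (2 * (n : ℝ)) - 3 / (8 * (n : ℝ) * (n + 2)) := by
      rw [integral_sub hi1 hi2,
        integral_sub (integrable_const _) ((hint 1).const_mul _), integral_const_mul,
        integral_const_mul, hmom 1, hmom 2, smo_one, smo_two]
      have : (n : ℝ) ≠ 0 := by positivity
      have : (n : ℝ) + 2 ≠ 0 := by positivity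
      simp
      field_simp
    rw [← h1]
    apply integral_mono_ae hsqint (hi1.sub hi2)
    filter_upwards [hle] with v hv
    have := sqrt_upper _ (sq_nonneg (inner ℝ a v : ℝ)) hv
    refine this.trans (le_of_eq ?_)
    show (1 : ℝ) - inner ℝ a v ^ 2 / 2 - (inner ℝ a v ^ 2) ^ 2 / 8 =
      (1 : ℝ) - (1 / 2) * (inner ℝ a v : ℝ) ^ (2 * 1) - (1 / 8) * (inner ℝ a v : ℝ) ^ (2 * 2)
    ring

end PPX
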