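import Pool.Agent.PPX.Stmts

set_option autoImplicit false

namespace PPX

open MeasureTheory Set Filter Topology
open PPI PPG
open scoped ENNReal Pointwise

namespace MUN_

/-- the density -/
noncomputable def de (n : ℕ) (x : EE n) : ℝ≥0∞ :=
  ENNReal.ofReal ((1 + ‖x‖ ^ 2) ^ (-((n : ℝ) / 2) - 1) / kap n)

lemma de_meas (n : ℕ) : Measurable (de n) := by
  unfold de
  refine ENNReal.measurable_ofReal.comp ?_
  refine Measurable.div_const ?_ _
  refine Measurable.pow_const ?_ _
  exact (measurable_const.add (measurable_norm.pow_const 2))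

lemma de_eq (n : ℕ) (hk : 0 < kap n) (x : EE n) :
    de n x = ENNReal.ofReal (1 / kap n) *
      ENNReal.ofReal ((1 + ‖x‖ ^ 2) ^ (-((n : ℝ) / 2) - 1)) := by
  unfold de
  rw [← ENNReal.ofReal_mul (by positivity)]
  congr 1
  ring

lemma mun_apply (n : ℕ) (hk : 0 < kap n) (s : Set (EE n)) (hs : MeasurableSet s) :
    mun n s = ENNReal.ofReal (1 / kap n) *
      ∫⁻ x in s, ENNReal.ofReal ((1 + ‖x‖ ^ 2) ^ (-((n : ℝ) / 2) - 1)) := by
  have h : mun n s = ∫⁻ x in s, de n x := withDensity_apply _ hs
  rw [h]
  simp only [de_eq n hk]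
  rw [lintegral_const_mul]
  refine ENNReal.measurable_ofReal.comp ?_
  refine Measurable.pow_const ?_ _
  exact (measurable_const.add (measurable_norm.pow_const 2))

end MUN_

open MUN_ in
/-- MUN -/
theorem mun_proof (hB : Stmt_BAS) (hA : PPI.Stmt_AVE) : Stmt_MUN := by
  intro n hn
  obtain ⟨hk, -⟩ := hA n hn
  refine ⟨⟨?_⟩, ?_, ?_⟩
  · rw [mun_apply n hk _ MeasurableSet.univ, Measure.restrict_univ, hB.1 n 1 one_pos,
      ← ENNReal.ofReal_mul (by positivity)]
    rw [show 1 / kap n * (kap n / 1) = 1 by field_simp]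
    simp
  · intro t ht
    have hms : MeasurableSet {x : EE n | ‖x‖ ^ 2 ≤ t} :=
      measurableSet_le (measurable_norm.pow_const 2) measurable_const
    rw [mun_apply n hk _ hms, hB.2 n t hn ht, ← ENNReal.ofReal_mul (by positivity)]
    congr 1
    field_simp
  · intro g
    have hg : MeasurePreserving (fun x : EE n => g x) volume volume := g.measurePreserving
    ext s hs
    have hgm : Measurable (fun x : EE n => g x) := g.continuous.measurable
    rw [Measure.map_apply hgm hs]
    have h1 : mun n ((fun x : EE n => g x) ⁻¹' s) =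
        ∫⁻ x in (fun x : EE n => g x) ⁻¹' s, de n x := withDensity_apply _ (hgm hs)
    have h2 : mun n s = ∫⁻ x in s, de n x := withDensity_apply _ hs
    have h3 := hg.setLIntegral_comp_preimage hs (de_meas n)
    have h4 : ∀ x : EE n, de n (g x) = de n x := by
      intro x
      unfold de
      rw [LinearIsometryEquiv.norm_map]
    have h5 : mun n ((g : EE n → EE n) ⁻¹' s) = mun n s := by
      rw [h2, ← h3]
      simp only [h4]
      exact h1
    exact h5

end PPX
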