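import Pool.Agent.PPX.Stmts

set_option autoImplicit false

namespace PPX

open MeasureTheory Set Filter Topology
open PPI PPG

namespace PMM_

open Polynomial

/-- the coefficient of `(2 s)^i τ^j` in `(1 + 2 s τ + τ^2)^m` -/
noncomputable def E (m j i : ℕ) : ℝ :=
  if i ≤ j ∧ 2 ∣ (j - i) then (m.choose i : ℝ) * ((m - i).choose ((j - i) / 2) : ℝ) else 0

lemma E_nonneg (m j i : ℕ) : 0 ≤ E m j i := by
  unfold E
  split_ifs
  · positivity
  · exact le_refl _

lemma coeff_sq (M t : ℕ) :
    ((1 + X ^ 2 : ℝ[X]) ^ M).coeff t = if 2 ∣ t then ((M.choose (t / 2) : ℕ) : ℝ) else 0 := by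
  have h : (1 + X ^ 2 : ℝ[X]) ^ M = expand ℝ 2 ((1 + X) ^ M) := by
    rw [map_pow, map_add, map_one, expand_X]
  rw [h, coeff_expand (by norm_num : 0 < 2)]
  split_ifs with h2
  · rw [coeff_one_add_X_pow]
  · rfl

lemma coeff_poly (m j : ℕ) (s : ℝ) :
    ((1 + C (2 * s) * X + X ^ 2 : ℝ[X]) ^ m).coeff j =
      ∑ i ∈ Finset.range (m + 1), E m j i * (2 * s) ^ i := by
  have h : (1 + C (2 * s) * X + X ^ 2 : ℝ[X]) = C (2 * s) * X + (1 + X ^ 2) := by ring
  rw [h, add_pow, finsetSum_coeff]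
  refine Finset.sum_congr rfl fun i _ => ?_
  have h1 : ((C (2 * s) * X) ^ i * (1 + X ^ 2) ^ (m - i) * ((m.choose i : ℕ) : ℝ[X])) =
      C ((2 * s) ^ i * ((m.choose i : ℕ) : ℝ)) * (X ^ i * (1 + X ^ 2) ^ (m - i)) := by
    rw [mul_pow, ← C_pow, C_mul, C_eq_natCast]
    ring
  rw [h1, coeff_C_mul, coeff_X_pow_mul', coeff_sq]
  unfold E
  by_cases hi : i ≤ j
  · by_cases hd : 2 ∣ (j - i)
    · simp only [hi, hd, if_true, and_self]
      ring
    · simp [hi, hd]
  · simp [hi]

lemma reindex (F : ℕ → ℝ) (g : ℕ → ℕ) (M q : ℕ) (hg : Function.Injective g)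
    (h1 : ∀ r, r < q → g r < M) (h2 : ∀ i, i < M → (∀ r, r < q → g r ≠ i) → F i = 0) :
    ∑ i ∈ Finset.range M, F i = ∑ r ∈ Finset.range q, F (g r) := by
  rw [← Finset.sum_image (f := F) (s := Finset.range q) (g := g) (fun x _ y _ h => hg h)]
  symm
  refine Finset.sum_subset ?_ ?_
  · intro x hx
    obtain ⟨r, hr, rfl⟩ := Finset.mem_image.1 hx
    exact Finset.mem_range.2 (h1 r (Finset.mem_range.1 hr))
  · intro i hi hni
    refine h2 i (Finset.mem_range.1 hi) fun r hr he => hni ?_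
    exact Finset.mem_image.2 ⟨r, Finset.mem_range.2 hr, he⟩

lemma mono_integrable (hP : Stmt_SPH) {n : ℕ} (hn : 1 ≤ n) (a b : EE n) (ha : ‖a‖ = 1)
    (hb : ‖b‖ = 1) (p q : ℕ) :
    Integrable (fun v : EE n => (inner ℝ a v) ^ p * (inner ℝ b v) ^ q) (sph n) := by
  obtain ⟨hpr, hu, -⟩ := hP n hn
  refine Integrable.of_bound (C := 1) ?_ ?_
  · exact (((continuous_const.inner continuous_id).pow p).mul
      ((continuous_const.inner continuous_id).pow q)).aestronglyMeasurable
  · filter_upwards [hu] with v hv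
    have h1 : |inner ℝ a v| ≤ 1 := by
      have := abs_real_inner_le_norm a v
      rwa [ha, hv, mul_one] at this
    have h2 : |inner ℝ b v| ≤ 1 := by
      have := abs_real_inner_le_norm b v
      rwa [hb, hv, mul_one] at this
    rw [Real.norm_eq_abs, abs_mul, abs_pow, abs_pow]
    exact mul_le_one₀ (pow_le_one₀ (abs_nonneg _) h1) (pow_nonneg (abs_nonneg _) _)
      (pow_le_one₀ (abs_nonneg _) h2)

lemma main (hM : Stmt_SMM) (hP : Stmt_SPH) {n : ℕ} (hn : 1 ≤ n) (m j : ℕ) (hj : j ≤ 2 * m)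
    (a b : EE n) (ha : ‖a‖ = 1) (hb : ‖b‖ = 1) :
    ((2 * m).choose j : ℝ) *
        ∫ v, (inner ℝ a v) ^ (2 * m - j) * (inner ℝ b v) ^ j ∂(sph n) =
      smo n m * ∑ i ∈ Finset.range (m + 1), E m j i * (2 * inner ℝ a b) ^ i := by
  set s : ℝ := inner ℝ a b with hs
  set I : ℕ → ℝ := fun j => ∫ v, (inner ℝ a v) ^ (2 * m - j) * (inner ℝ b v) ^ j ∂(sph n) with hI
  have key : (C (smo n m) * (1 + C (2 * s) * X + X ^ 2) ^ m : ℝ[X]) =
      ∑ i ∈ Finset.range (2 * m + 1), C (((2 * m).choose i : ℝ) * I i) * X ^ i := by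
    refine Polynomial.funext fun τ => ?_
    have h1 := hM n m (a + τ • b) hn
    have h2 : ‖a + τ • b‖ ^ (2 * m) = (1 + 2 * s * τ + τ ^ 2) ^ m := by
      rw [pow_mul, norm_add_sq_real, ha, norm_smul, hb, inner_smul_right, ← hs, Real.norm_eq_abs,
        mul_one, sq_abs]
      congr 1
      ring
    have h3 : ∫ v, (inner ℝ (a + τ • b) v) ^ (2 * m) ∂(sph n) =
        ∑ i ∈ Finset.range (2 * m + 1), ((2 * m).choose i : ℝ) * I i * τ ^ i := by
      have h4 : ∀ v : EE n, (inner ℝ (a + τ • b) v) ^ (2 * m) =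
          ∑ i ∈ Finset.range (2 * m + 1), (((2 * m).choose i : ℝ) * τ ^ i) *
            ((inner ℝ a v) ^ (2 * m - i) * (inner ℝ b v) ^ i) := by
        intro v
        rw [inner_add_left, inner_smul_left, add_comm, add_pow]
        refine Finset.sum_congr rfl fun i _ => ?_
        simp only [conj_trivial]
        rw [mul_pow]
        ring
      simp only [h4]
      rw [integral_finsetSum]
      · refine Finset.sum_congr rfl fun i _ => ?_
        rw [integral_const_mul]
        simp only [hI]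
        ring
      · intro i _
        exact (mono_integrable hP hn a b ha hb _ _).const_mul _
    have h5 : Polynomial.eval τ (C (smo n m) * (1 + C (2 * s) * X + X ^ 2) ^ m : ℝ[X]) =
        smo n m * (1 + 2 * s * τ + τ ^ 2) ^ m := by
      simp
    rw [h5, ← h2, ← h1, h3, eval_finsetSum]
    refine Finset.sum_congr rfl fun i _ => ?_
    simp
  have h6 := congrArg (fun p => Polynomial.coeff p j) key
  simp only [finsetSum_coeff, coeff_C_mul, coeff_X_pow, coeff_poly] at h6
  rw [h6]
  have : ∀ i ∈ Finset.range (2 * m + 1), ((2 * m).choose i : ℝ) * I i * (if j = i then 1 else 0) =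
      if j = i then ((2 * m).choose i : ℝ) * I i else 0 := by
    intro i _
    split_ifs <;> simp
  rw [Finset.sum_congr rfl this, Finset.sum_ite_eq]
  rw [if_pos (Finset.mem_range.2 (by omega))]

lemma sum_one (m j : ℕ) :
    ∑ i ∈ Finset.range (m + 1), E m j i * (2 * (1 : ℝ)) ^ i = ((2 * m).choose j : ℝ) := by
  rw [← coeff_poly]
  have h : (1 + C (2 * (1 : ℝ)) * X + X ^ 2 : ℝ[X]) ^ m = (1 + X) ^ (2 * m) := by
    rw [pow_mul]
    congr 1
    rw [mul_one]
    have : (C (2 : ℝ) : ℝ[X]) = 2 := map_ofNat C 2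
    rw [this]
    ring
  rw [h, coeff_one_add_X_pow]

lemma smo_nonneg (n k : ℕ) : 0 ≤ smo n k := by
  unfold smo
  exact Finset.prod_nonneg fun i _ => by positivity

lemma even_re (k l : ℕ) (s : ℝ) :
    ∑ i ∈ Finset.range (k + l + 1), E (k + l) (2 * l) i * (2 * s) ^ i =
      ∑ r ∈ Finset.range (min k l + 1), E (k + l) (2 * l) (2 * r) * (2 * s) ^ (2 * r) := by
  refine reindex (fun i => E (k + l) (2 * l) i * (2 * s) ^ i) (fun r => 2 * r) _ _ ?_ ?_ ?_
  · intro x y h
    have h' : _ := h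
    dsimp at h'
    omega
  · intro r hr
    omega
  · intro i hi hni
    have : E (k + l) (2 * l) i = 0 := by
      unfold E
      split_ifs with hc
      · obtain ⟨hc1, hc2⟩ := hc
        have h0 := hni (i / 2)
        have hi2 : 2 * (i / 2) = i := by omega
        have h1 : ¬ (i / 2 < min k l + 1) := fun h => h0 h hi2
        have h2 : k + l - i < (2 * l - i) / 2 := by omega
        rw [Nat.choose_eq_zero_of_lt h2]
        simp
      · rfl
    rw [this, zero_mul]

lemma odd_re (k l : ℕ) (hk : 1 ≤ k) (hl : 1 ≤ l) (s : ℝ) :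
    ∑ i ∈ Finset.range (k + l - 1 + 1), E (k + l - 1) (2 * l - 1) i * (2 * s) ^ i =
      ∑ r ∈ Finset.range (min k l),
        E (k + l - 1) (2 * l - 1) (2 * r + 1) * (2 * s) ^ (2 * r + 1) := by
  refine reindex (fun i => E (k + l - 1) (2 * l - 1) i * (2 * s) ^ i) (fun r => 2 * r + 1)
    _ _ ?_ ?_ ?_
  · intro x y h
    have h' : _ := h
    dsimp at h'
    omega
  · intro r hr
    omega
  · intro i hi hni
    have : E (k + l - 1) (2 * l - 1) i = 0 := by
      unfold E
      split_ifs with hc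
      · obtain ⟨hc1, hc2⟩ := hc
        have h0 := hni (i / 2)
        have hi2 : 2 * (i / 2) + 1 = i := by omega
        have h1 : ¬ (i / 2 < min k l) := fun h => h0 h hi2
        have h2 : k + l - 1 - i < (2 * l - 1 - i) / 2 := by omega
        rw [Nat.choose_eq_zero_of_lt h2]
        simp
      · rfl
    rw [this, zero_mul]

end PMM_

open PMM_ in
/-- PMM -/
theorem pmm_proof (hM : Stmt_SMM) (hP : Stmt_SPH) : Stmt_PMM := by
  intro n k l hn hk hl
  refine ⟨⟨fun r => smo n (k + l) / ((2 * (k + l)).choose (2 * l) : ℝ) *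
      (E (k + l) (2 * l) (2 * r) * 2 ^ (2 * r)), ?_, ?_, ?_⟩,
    ⟨fun r => match r with
      | 0 => 0
      | r + 1 => smo n (k + l - 1) / ((2 * (k + l - 1)).choose (2 * l - 1) : ℝ) *
      (E (k + l - 1) (2 * l - 1) (2 * r + 1) * 2 ^ (2 * r + 1)), ?_, ?_, ?_⟩⟩
  · intro r
    exact mul_nonneg (div_nonneg (smo_nonneg _ _) (by positivity))
      (mul_nonneg (E_nonneg _ _ _) (by positivity))
  · rw [← Finset.mul_sum]
    have h := sum_one (k + l) (2 * l)
    rw [even_re] at h
    simp only [mul_one] at h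
    rw [h]
    have : (((2 * (k + l)).choose (2 * l) : ℕ) : ℝ) ≠ 0 := by
      have := Nat.choose_pos (show 2 * l ≤ 2 * (k + l) by omega)
      positivity
    exact div_mul_cancel₀ _ this
  · intro a b ha hb
    have h := main hM hP (by omega : 1 ≤ n) (k + l) (2 * l) (by omega) a b ha hb
    rw [even_re] at h
    have he : 2 * (k + l) - 2 * l = 2 * k := by omega
    rw [he] at h
    have hne : (((2 * (k + l)).choose (2 * l) : ℕ) : ℝ) ≠ 0 := by
      have := Nat.choose_pos (show 2 * l ≤ 2 * (k + l) by omega)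
      positivity
    rw [← mul_right_inj' hne, h, Finset.mul_sum, Finset.mul_sum]
    refine Finset.sum_congr rfl fun r _ => ?_
    rw [mul_pow]
    field_simp
  · intro r
    rcases r with _ | r
    · exact le_refl _
    · exact mul_nonneg (div_nonneg (smo_nonneg _ _) (by positivity))
        (mul_nonneg (E_nonneg _ _ _) (by positivity))
  · rw [Finset.sum_range_succ']
    simp only [add_zero]
    rw [← Finset.mul_sum]
    have h := sum_one (k + l - 1) (2 * l - 1)
    rw [odd_re k l hk hl] at h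
    simp only [mul_one] at h
    rw [h]
    have : (((2 * (k + l - 1)).choose (2 * l - 1) : ℕ) : ℝ) ≠ 0 := by
      have := Nat.choose_pos (show 2 * l - 1 ≤ 2 * (k + l - 1) by omega)
      positivity
    exact div_mul_cancel₀ _ this
  · intro a b ha hb
    have h := main hM hP (by omega : 1 ≤ n) (k + l - 1) (2 * l - 1) (by omega) a b ha hb
    rw [odd_re k l hk hl] at h
    have he : 2 * (k + l - 1) - (2 * l - 1) = 2 * k - 1 := by omega
    rw [he] at h
    have hne : (((2 * (k + l - 1)).choose (2 * l - 1) : ℕ) : ℝ) ≠ 0 := by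
      have := Nat.choose_pos (show 2 * l - 1 ≤ 2 * (k + l - 1) by omega)
      positivity
    rw [Finset.sum_range_succ']
    simp only [zero_mul, add_zero]
    rw [← mul_right_inj' hne, mul_left_comm, h, Finset.mul_sum, Finset.mul_sum, Finset.mul_sum]
    refine Finset.sum_congr rfl fun r _ => ?_
    rw [mul_pow]
    field_simp
    ring

end PPX
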