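import Pool.Agent.PPX.Stmts

/-!
# PPX/PRM: prisms over the facets of a polytope
-/

set_option autoImplicit false

namespace PPX

open MeasureTheory Set Filter Topology
open PPI PPG
open scoped Pointwise ENNReal

namespace PRM_

variable {n N : ℕ} {v : Fin N → EE n} {L : Set (EE n)} {x : Fin N → EE n} {t : ℝ}

lemma half (hx : ∀ i, ∀ y ∈ L, (inner ℝ (v i) y : ℝ) ≤ inner ℝ (v i) (x i))
    (hxL : ∀ i, x i ∈ L) (h0 : ∀ i, (0 : ℝ) ≤ inner ℝ (v i) (x i)) (ht : 0 ≤ t)
    (τ : ℝ → ℝ) (hτ : Monotone τ) (hτ0 : ∀ s, 0 ≤ τ s) {i j : Fin N} {y z : EE n}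
    (hz : z ∈ PPI.cn v j)
    (h : y + (t * τ (inner ℝ (v i) y)) • x i = z + (t * τ (inner ℝ (v j) z)) • x j)
    (hle : (inner ℝ (v j) z : ℝ) ≤ inner ℝ (v i) y) :
    (inner ℝ (v i) y : ℝ) = inner ℝ (v j) z ∧ (inner ℝ (v i) z : ℝ) = inner ℝ (v j) z := by
  have h1 := congrArg (fun w => (inner ℝ (v i) w : ℝ)) h
  simp only [inner_add_right, inner_smul_right] at h1
  have h2 := (hz i).1
  have h3 := hx i (x j) (hxL j)
  have h4 := h0 i
  have h5 := hτ hle
  have h6 := hτ0 (inner ℝ (v j) z)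
  have h7 : t * τ (inner ℝ (v j) z) * inner ℝ (v i) (x j) ≤
      t * τ (inner ℝ (v i) y) * inner ℝ (v i) (x i) := by
    calc t * τ (inner ℝ (v j) z) * inner ℝ (v i) (x j)
        ≤ t * τ (inner ℝ (v j) z) * inner ℝ (v i) (x i) :=
          mul_le_mul_of_nonneg_left h3 (mul_nonneg ht h6)
      _ ≤ t * τ (inner ℝ (v i) y) * inner ℝ (v i) (x i) :=
          mul_le_mul_of_nonneg_right (mul_le_mul_of_nonneg_left h5 ht) h4
  constructor <;> linarith

lemma key (hx : ∀ i, ∀ y ∈ L, (inner ℝ (v i) y : ℝ) ≤ inner ℝ (v i) (x i))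
    (hxL : ∀ i, x i ∈ L) (h0 : ∀ i, (0 : ℝ) ≤ inner ℝ (v i) (x i)) (ht : 0 ≤ t)
    (τ : ℝ → ℝ) (hτ : Monotone τ) (hτ0 : ∀ s, 0 ≤ τ s) {i j : Fin N} {y z : EE n}
    (hy : y ∈ PPI.cn v i) (hz : z ∈ PPI.cn v j)
    (h : y + (t * τ (inner ℝ (v i) y)) • x i = z + (t * τ (inner ℝ (v j) z)) • x j) :
    i = j ∧ (inner ℝ (v i) y : ℝ) = inner ℝ (v j) z := by
  have hg : (inner ℝ (v i) y : ℝ) = inner ℝ (v j) z := by
    rcases le_total (inner ℝ (v j) z : ℝ) (inner ℝ (v i) y) with hle | hle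
    · exact (half hx hxL h0 ht τ hτ hτ0 hz h hle).1
    · exact (half hx hxL h0 ht τ hτ hτ0 hy h.symm hle).1.symm
  refine ⟨?_, hg⟩
  have h1 := (half hx hxL h0 ht τ hτ hτ0 hz h hg.ge).2
  have h2 := (half hx hxL h0 ht τ hτ hτ0 hy h.symm hg.le).2
  rcases lt_trichotomy i j with hij | hij | hij
  · exact absurd h1 ((hz i).2 hij).ne
  · exact hij
  · exact absurd h2 ((hy j).2 hij).ne

/-- the affine map on the shell -/
noncomputable def sm (v x : EE n) (c e : ℝ) (y : EE n) : EE n :=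
  y + (c * (inner ℝ v y - e)) • x

lemma sm_eq (v x : EE n) (c e : ℝ) (y : EE n) :
    sm v x c e y = -((c * e) • x) +
      LinearMap.transvection (c • (innerSL ℝ v : EE n →L[ℝ] ℝ).toLinearMap) x y := by
  simp only [sm, LinearMap.transvection, LinearMap.coe_mk, AddHom.coe_mk, LinearMap.smul_apply,
    ContinuousLinearMap.coe_coe, innerSL_apply_apply, smul_eq_mul, mul_sub, sub_smul]
  abel

lemma sm_inj (v x : EE n) (c e : ℝ) (h : 0 ≤ c * inner ℝ v x) :
    Function.Injective (sm v x c e) := by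
  intro y z hyz
  have h1 := congrArg (fun w => (inner ℝ v w : ℝ)) hyz
  simp only [sm, inner_add_right, inner_smul_right] at h1
  have h2 : ((inner ℝ v y : ℝ) - inner ℝ v z) * (1 + c * inner ℝ v x) = 0 := by
    linear_combination h1
  have h3 : (inner ℝ v y : ℝ) = inner ℝ v z := by
    rcases mul_eq_zero.mp h2 with h4 | h4
    · linarith
    · linarith
  simp only [sm, h3] at hyz
  exact add_right_cancel hyz

lemma sm_vol (v x : EE n) (c e : ℝ) (h : 0 ≤ c * inner ℝ v x) (S : Set (EE n)) :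
    volume (sm v x c e '' S) = ENNReal.ofReal (1 + c * inner ℝ v x) * volume S := by
  have h1 : sm v x c e '' S = (-((c * e) • x)) +ᵥ
      (LinearMap.transvection (c • (innerSL ℝ v : EE n →L[ℝ] ℝ).toLinearMap) x '' S) := by
    ext y
    constructor
    · rintro ⟨z, hz, rfl⟩
      exact ⟨_, ⟨z, hz, rfl⟩, by rw [sm_eq]; rfl⟩
    · rintro ⟨_, ⟨z, hz, rfl⟩, rfl⟩
      exact ⟨z, hz, by rw [sm_eq]; rfl⟩
  rw [h1, measure_vadd, Measure.addHaar_image_linearMap, LinearMap.transvection.det]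
  congr 2
  simp only [LinearMap.smul_apply, ContinuousLinearMap.coe_coe, innerSL_apply_apply, smul_eq_mul]
  rw [abs_of_nonneg (by linarith)]

lemma sm_meas (v x : EE n) (c e : ℝ) (h : 0 ≤ c * inner ℝ v x) {S : Set (EE n)}
    (hS : MeasurableSet S) : MeasurableSet (sm v x c e '' S) := by
  refine hS.image_of_continuousOn_injOn ?_ (sm_inj v x c e h).injOn
  refine Continuous.continuousOn ?_
  unfold sm
  fun_prop

lemma bern (n : ℕ) (y : ℝ) (h0 : 0 ≤ y) (h1 : y ≤ 1) :
    (n : ℝ) * (1 - y) * y ^ (n - 1) ≤ 1 - y ^ n := by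
  rcases Nat.eq_zero_or_pos n with hn | hn
  · subst hn; simp
  · have h2 : 1 - y ^ n = (1 - y) * ∑ k ∈ Finset.range n, y ^ k := by
      have := geom_sum_mul y n
      linear_combination this
    rw [h2]
    have h3 : (n : ℝ) * y ^ (n - 1) ≤ ∑ k ∈ Finset.range n, y ^ k := by
      have h4 : ∑ k ∈ Finset.range n, y ^ (n - 1) ≤ ∑ k ∈ Finset.range n, y ^ k := by
        refine Finset.sum_le_sum fun k hk => ?_
        exact pow_le_pow_of_le_one h0 h1 (by have := Finset.mem_range.mp hk; omega)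
      simpa [Finset.sum_const, nsmul_eq_mul] using h4
    calc (n : ℝ) * (1 - y) * y ^ (n - 1) = (1 - y) * (n * y ^ (n - 1)) := by ring
      _ ≤ _ := mul_le_mul_of_nonneg_left h3 (by linarith)

end PRM_

open PRM_ in
theorem prm_proof (hC : PPI.Stmt_CEL) : Stmt_PRM := by
  intro n N v L x t hn hP hLc hLx h0L hxL hx ht
  obtain ⟨hm, hd, hcov, hs, hsub, hfin, hsum, hpos, hne⟩ := hC n N v hn hP
  have hn0 : (0 : ℝ) < n := by exact_mod_cast hn
  have h0 : ∀ i, (0 : ℝ) ≤ inner ℝ (v i) (x i) := fun i => by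
    have := hx i 0 h0L
    rwa [inner_zero_right] at this
  have hfa : ∀ i, fa v i = n * vl (cell v i 1) := fun i => rfl
  have hsum' : ∑ i, vl (cell v i 1) = vl (Pol v) := by
    have h3 : (n : ℝ) * ∑ i, vl (cell v i 1) = n * vl (Pol v) := by
      rw [← hsum, Finset.mul_sum]
      rfl
    exact mul_left_cancel₀ hn0.ne' h3
  have hVnn : ∀ i, 0 ≤ vl (cell v i 1) := fun i => ENNReal.toReal_nonneg
  have hVe : ∀ i, volume (cell v i 1) = ENNReal.ofReal (vl (cell v i 1)) := fun i =>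
    (ENNReal.ofReal_toReal (hfin i)).symm
  have hmc : ∀ i s, MeasurableSet (cell v i s) := by
    intro i s
    have : cell v i s = PPI.cn v i ∩ {x | inner ℝ (v i) x ≤ s} := rfl
    rw [this]
    exact (hm i).inter (measurableSet_le (by fun_prop) (by fun_prop))
  have hSfin : volume (Pol v + t • L) ≠ ⊤ := (hP.add (hLc.smul t)).measure_ne_top
  -- the main estimate for a fixed `ε`
  have main : ∀ ε : ℝ, 0 < ε → ε < 1 →
      vl (Pol v) + t * (1 - ε) ^ (n - 1) * ∑ i, fa v i * inner ℝ (v i) (x i) ≤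
        vl (Pol v + t • L) := by
    intro ε hε0 hε1
    set c : ℝ := t / ε with hc
    have hc0 : 0 ≤ c := div_nonneg ht hε0.le
    set U : Fin N → Set (EE n) := fun i => cell v i (1 - ε) with hU
    set W : Fin N → Set (EE n) := fun i =>
      sm (v i) (x i) c (1 - ε) '' (cell v i 1 \ cell v i (1 - ε)) with hW
    set τ : ℝ → ℝ := fun s => max 0 ((s - (1 - ε)) / ε) with hτd
    have hτ : Monotone τ := by
      intro a b hab
      exact max_le_max le_rfl (div_le_div_of_nonneg_right (by linarith) hε0.le)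
    have hτ0 : ∀ s, 0 ≤ τ s := fun s => le_max_left _ _
    -- points of `U i` and of `W i`
    have hUp : ∀ i, ∀ y ∈ U i, y ∈ PPI.cn v i ∧
        y = y + (t * τ (inner ℝ (v i) y)) • x i ∧ (inner ℝ (v i) y : ℝ) ≤ 1 - ε := by
      intro i y hy
      have h1 : (inner ℝ (v i) y : ℝ) ≤ 1 - ε := hy.2
      refine ⟨hy.1, ?_, h1⟩
      have h2 : τ (inner ℝ (v i) y) = 0 :=
        max_eq_left (div_nonpos_of_nonpos_of_nonneg (by linarith) hε0.le)
      rw [h2, mul_zero, zero_smul, add_zero]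
    have hWp : ∀ i, ∀ y ∈ W i, ∃ z, z ∈ PPI.cn v i ∧
        y = z + (t * τ (inner ℝ (v i) z)) • x i ∧ 1 - ε < (inner ℝ (v i) z : ℝ) ∧
        z ∈ cell v i 1 := by
      rintro i y ⟨z, ⟨hz1, hz2⟩, rfl⟩
      have h1 : 1 - ε < (inner ℝ (v i) z : ℝ) := by
        by_contra hlt
        exact hz2 ⟨hz1.1, not_lt.mp hlt⟩
      refine ⟨z, hz1.1, ?_, h1, hz1⟩
      have h2 : τ (inner ℝ (v i) z) = (inner ℝ (v i) z - (1 - ε)) / ε :=
        max_eq_right (div_nonneg (by linarith) hε0.le)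
      rw [h2]
      simp only [sm, hc]
      congr 2
      ring
    have hUW : ∀ i, Disjoint (U i) (W i) := by
      intro i
      rw [Set.disjoint_left]
      intro y hyU hyW
      obtain ⟨h1, h2, h3⟩ := hUp i y hyU
      obtain ⟨z, h4, h5, h6, -⟩ := hWp i y hyW
      have := (key hx hxL h0 ht τ hτ hτ0 h1 h4 (h2.symm.trans h5)).2
      linarith
    have hdisj : Pairwise (Function.onFun Disjoint fun i => U i ∪ W i) := by
      intro i j hij
      show Disjoint (U i ∪ W i) (U j ∪ W j)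
      have hrep : ∀ i, ∀ y ∈ U i ∪ W i, ∃ z, z ∈ PPI.cn v i ∧
          y = z + (t * τ (inner ℝ (v i) z)) • x i := by
        rintro i y (hy | hy)
        · exact ⟨y, (hUp i y hy).1, (hUp i y hy).2.1⟩
        · obtain ⟨z, h4, h5, -, -⟩ := hWp i y hy
          exact ⟨z, h4, h5⟩
      rw [Set.disjoint_left]
      intro y hyi hyj
      obtain ⟨z, h1, h2⟩ := hrep i y hyi
      obtain ⟨z', h1', h2'⟩ := hrep j y hyj
      exact hij (key hx hxL h0 ht τ hτ hτ0 h1 h1' (h2.symm.trans h2')).1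
    have hUm : ∀ i, MeasurableSet (U i) := fun i => hmc i _
    have hWm : ∀ i, MeasurableSet (W i) := fun i =>
      sm_meas _ _ _ _ (mul_nonneg hc0 (h0 i)) ((hmc i _).diff (hmc i _))
    have hsubset : (⋃ i, U i ∪ W i) ⊆ Pol v + t • L := by
      refine iUnion_subset fun i => union_subset ?_ ?_
      · intro y hy
        have h1 : y ∈ Pol v := fun j => ((hy.1 j).1.trans hy.2).trans (by linarith)
        refine ⟨y, h1, 0, ⟨0, h0L, smul_zero t⟩, add_zero y⟩
      · intro y hy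
        obtain ⟨z, h4, h5, h6, h7⟩ := hWp i y hy
        refine ⟨z, hsub i h7, (t * τ (inner ℝ (v i) z)) • x i, ?_, h5.symm⟩
        refine ⟨τ (inner ℝ (v i) z) • x i, ?_, smul_smul _ _ _⟩
        have h8 : τ (inner ℝ (v i) z) ≤ 1 := by
          refine max_le zero_le_one ?_
          rw [div_le_one hε0]
          have := h7.2
          linarith
        have h9 := hLx h0L (hxL i) (sub_nonneg.mpr h8) (hτ0 _) (by ring)
        rwa [smul_zero, zero_add] at h9
    have hvU : ∀ i, volume (U i) = ENNReal.ofReal ((1 - ε) ^ n * vl (cell v i 1)) := by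
      intro i
      rw [hU]
      simp only
      rw [hs i (1 - ε) (by linarith), hVe i, ← ENNReal.ofReal_mul (pow_nonneg (by linarith) n)]
    have hcs : ∀ i, cell v i (1 - ε) ⊆ cell v i 1 := fun i y hy =>
      ⟨hy.1, hy.2.trans (by linarith)⟩
    have hvW : ∀ i, volume (W i) = ENNReal.ofReal
        ((1 + c * inner ℝ (v i) (x i)) * ((1 - (1 - ε) ^ n) * vl (cell v i 1))) := by
      intro i
      rw [hW]
      simp only
      have hp : 0 ≤ c * inner ℝ (v i) (x i) := mul_nonneg hc0 (h0 i)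
      rw [sm_vol _ _ _ _ hp, measure_sdiff (hcs i) (hmc i _).nullMeasurableSet
        (ne_top_of_le_ne_top (hfin i) (measure_mono (hcs i)))]
      have h1 := hvU i
      rw [hU] at h1
      simp only at h1
      rw [h1, hVe i, ← ENNReal.ofReal_sub _
        (mul_nonneg (pow_nonneg (by linarith) n) (hVnn i)),
        ← ENNReal.ofReal_mul (by linarith)]
      congr 1
      ring
    have h1n : 0 ≤ 1 - (1 - ε) ^ n := by
      have := pow_le_one₀ (n := n) (show (0 : ℝ) ≤ 1 - ε by linarith) (by linarith)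
      linarith
    have hnn : ∀ i, 0 ≤ (1 - ε) ^ n * vl (cell v i 1) +
        (1 + c * inner ℝ (v i) (x i)) * ((1 - (1 - ε) ^ n) * vl (cell v i 1)) := by
      intro i
      have := mul_nonneg hc0 (h0 i)
      have h2 := hVnn i
      have h3 : (0 : ℝ) ≤ (1 - ε) ^ n := pow_nonneg (by linarith) n
      positivity
    have hvol : ENNReal.ofReal (∑ i, ((1 - ε) ^ n * vl (cell v i 1) +
        (1 + c * inner ℝ (v i) (x i)) * ((1 - (1 - ε) ^ n) * vl (cell v i 1)))) ≤
        volume (Pol v + t • L) := by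
      refine le_trans (le_of_eq ?_) (measure_mono hsubset)
      rw [measure_iUnion hdisj (fun i => (hUm i).union (hWm i)), tsum_fintype,
        ENNReal.ofReal_sum_of_nonneg (fun i _ => hnn i)]
      refine Finset.sum_congr rfl fun i _ => ?_
      rw [measure_union (hUW i) (hWm i), hvU i, hvW i, ← ENNReal.ofReal_add]
      · exact mul_nonneg (pow_nonneg (by linarith) n) (hVnn i)
      · have := mul_nonneg hc0 (h0 i)
        have h2 := hVnn i
        positivity
    have hreal : ∑ i, ((1 - ε) ^ n * vl (cell v i 1) +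
        (1 + c * inner ℝ (v i) (x i)) * ((1 - (1 - ε) ^ n) * vl (cell v i 1))) ≤
        vl (Pol v + t • L) := by
      unfold vl at hvol ⊢
      exact (ENNReal.ofReal_le_iff_le_toReal hSfin).mp hvol
    refine le_trans ?_ hreal
    have hb := bern n (1 - ε) (by linarith) (by linarith)
    have hsplit : ∑ i, ((1 - ε) ^ n * vl (cell v i 1) +
        (1 + c * inner ℝ (v i) (x i)) * ((1 - (1 - ε) ^ n) * vl (cell v i 1))) =
        vl (Pol v) + c * (1 - (1 - ε) ^ n) *
          ∑ i, vl (cell v i 1) * inner ℝ (v i) (x i) := by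
      rw [← hsum', Finset.mul_sum, ← Finset.sum_add_distrib]
      refine Finset.sum_congr rfl fun i _ => ?_
      ring
    rw [hsplit]
    have hS : ∑ i, fa v i * inner ℝ (v i) (x i) =
        n * ∑ i, vl (cell v i 1) * inner ℝ (v i) (x i) := by
      rw [Finset.mul_sum]
      refine Finset.sum_congr rfl fun i _ => ?_
      rw [hfa i]; ring
    rw [hS]
    have hSnn : 0 ≤ ∑ i, vl (cell v i 1) * inner ℝ (v i) (x i) :=
      Finset.sum_nonneg fun i _ => mul_nonneg (hVnn i) (h0 i)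
    have h2 : c * ((n : ℝ) * (1 - (1 - ε)) * (1 - ε) ^ (n - 1)) ≤ c * (1 - (1 - ε) ^ n) :=
      mul_le_mul_of_nonneg_left hb hc0
    have h3 : c * ((n : ℝ) * (1 - (1 - ε)) * (1 - ε) ^ (n - 1)) =
        t * (1 - ε) ^ (n - 1) * n := by
      rw [hc]
      field_simp
      ring
    rw [h3] at h2
    have h4 := mul_le_mul_of_nonneg_right h2 hSnn
    linarith
  -- the limit
  have hlim : Tendsto (fun ε : ℝ => vl (Pol v) + t * (1 - ε) ^ (n - 1) *
      ∑ i, fa v i * inner ℝ (v i) (x i)) (𝓝[>] 0)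
      (𝓝 (vl (Pol v) + t * ∑ i, fa v i * inner ℝ (v i) (x i))) := by
    have h1 : Continuous (fun ε : ℝ => vl (Pol v) + t * (1 - ε) ^ (n - 1) *
      ∑ i, fa v i * inner ℝ (v i) (x i)) := by fun_prop
    have h2 := h1.tendsto 0
    simp only [sub_zero, one_pow, mul_one] at h2
    exact h2.mono_left nhdsWithin_le_nhds
  refine le_of_tendsto hlim ?_
  have h2 : ∀ᶠ ε in 𝓝[>] (0 : ℝ), ε < 1 :=
    (eventually_lt_nhds one_pos).filter_mono nhdsWithin_le_nhds
  filter_upwards [h2, self_mem_nhdsWithin] with ε h3 h4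
  exact main ε h4 h3

end PPX
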