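import Pool.Agent.PPX.Stmts

/-!
# Squad PPX (MP_0bf616_gt): fourth moments
-/

set_option autoImplicit false

namespace PPX

open MeasureTheory Set Filter Topology
open PPI PPG

namespace QBD_

variable {n k : ℕ}

/-- the body of the test function -/
noncomputable def psi (e : Fin k → EE n) (v : EE n) : ℝ :=
  (n : ℝ) / 200 * ∑ j, (inner ℝ (e j) v) ^ 4

/-- the gradient vector -/
noncomputable def gv (e : Fin k → EE n) (v : EE n) : EE n := ∑ j, (inner ℝ (e j) v) ^ 3 • e j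

/-- the norm of the gradient -/
noncomputable def G (e : Fin k → EE n) (v : EE n) : ℝ := (n : ℝ) / 50 * ‖gv e v‖

theorem cont_inner (e : Fin k → EE n) (j : Fin k) : Continuous fun v : EE n => inner ℝ (e j) v :=
  continuous_const.inner continuous_id

theorem cont_psi (e : Fin k → EE n) : Continuous (psi e) :=
  continuous_const.mul (continuous_finset_sum _ fun j _ => (cont_inner e j).pow 4)

theorem cont_gv (e : Fin k → EE n) : Continuous (gv e) :=
  continuous_finset_sum _ fun j _ => ((cont_inner e j).pow 3).smul continuous_const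

theorem cont_G (e : Fin k → EE n) : Continuous (G e) :=
  continuous_const.mul (cont_gv e).norm

theorem abs_le (e : Fin k → EE n) (he : ∀ j, ‖e j‖ = 1) (v : EE n) (hv : ‖v‖ = 1) (j : Fin k) :
    (inner ℝ (e j) v) ^ 2 ≤ 1 := by
  have h1 := abs_real_inner_le_norm (e j) v
  rw [he j, hv, one_mul] at h1
  have h2 := sq_abs (inner ℝ (e j) v)
  have h3 := abs_nonneg (inner ℝ (e j) v)
  nlinarith

/-- duality -/
theorem dual (e : Fin k → EE n) (hF : ∀ x, ∑ j, (inner ℝ (e j) x) ^ 2 ≤ 2 * ‖x‖ ^ 2)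
    (c : Fin k → ℝ) : ‖∑ j, c j • e j‖ ^ 2 ≤ 2 * ∑ j, c j ^ 2 := by
  set y : EE n := ∑ j, c j • e j with hy
  have h1 : ‖y‖ ^ 2 = ∑ j, c j * inner ℝ (e j) y := by
    rw [← real_inner_self_eq_norm_sq]
    conv_lhs => rw [hy]
    rw [sum_inner]
    refine Finset.sum_congr rfl fun j _ => ?_
    rw [real_inner_smul_left]
  have h2 : (∑ j, c j * inner ℝ (e j) y) ^ 2 ≤ (∑ j, c j ^ 2) * ∑ j, (inner ℝ (e j) y) ^ 2 :=
    Finset.sum_mul_sq_le_sq_mul_sq _ _ _
  have h3 := hF y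
  rw [← h1] at h2
  have h4 : 0 ≤ ∑ j, c j ^ 2 := Finset.sum_nonneg fun j _ => sq_nonneg _
  by_cases h0 : ‖y‖ = 0
  · rw [h0]; nlinarith
  · have h5 : 0 < ‖y‖ ^ 2 := by positivity
    have h6 : ‖y‖ ^ 2 * ‖y‖ ^ 2 ≤ (2 * ∑ j, c j ^ 2) * ‖y‖ ^ 2 := by
      calc ‖y‖ ^ 2 * ‖y‖ ^ 2 = (‖y‖ ^ 2) ^ 2 := by ring
        _ ≤ (∑ j, c j ^ 2) * ∑ j, (inner ℝ (e j) y) ^ 2 := h2
        _ ≤ (∑ j, c j ^ 2) * (2 * ‖y‖ ^ 2) := mul_le_mul_of_nonneg_left h3 h4
        _ = (2 * ∑ j, c j ^ 2) * ‖y‖ ^ 2 := by ring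
    exact le_of_mul_le_mul_right h6 h5

theorem sum_le (e : Fin k → EE n) (he : ∀ j, ‖e j‖ = 1)
    (hF : ∀ x, ∑ j, (inner ℝ (e j) x) ^ 2 ≤ 2 * ‖x‖ ^ 2) (v : EE n) (hv : ‖v‖ = 1) (m : ℕ) :
    ∑ j, (inner ℝ (e j) v) ^ (2 * (m + 1)) ≤ 2 := by
  have h1 : ∑ j, (inner ℝ (e j) v) ^ (2 * (m + 1)) ≤ ∑ j, (inner ℝ (e j) v) ^ 2 := by
    refine Finset.sum_le_sum fun j _ => ?_
    have h2 := abs_le e he v hv j
    have h3 : ((inner ℝ (e j) v) ^ 2) ^ m ≤ 1 := pow_le_one₀ (sq_nonneg _) h2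
    calc (inner ℝ (e j) v) ^ (2 * (m + 1)) = (inner ℝ (e j) v) ^ 2 * ((inner ℝ (e j) v) ^ 2) ^ m := by
          rw [pow_mul, pow_succ]; ring
      _ ≤ (inner ℝ (e j) v) ^ 2 * 1 := mul_le_mul_of_nonneg_left h3 (sq_nonneg _)
      _ = _ := mul_one _
  have h4 := hF v
  rw [hv] at h4
  linarith

theorem semi (e : Fin k → EE n) (he : ∀ j, ‖e j‖ = 1)
    (hF : ∀ x, ∑ j, (inner ℝ (e j) x) ^ 2 ≤ 2 * ‖x‖ ^ 2) (v t : EE n) (hv : ‖v‖ = 1)
    (ht : ‖t‖ = 1) :
    psi e v ≤ psi e t + G e t * ‖v - t‖ + (n : ℝ) / 8 * ‖v - t‖ ^ 2 := by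
  have hn : (0 : ℝ) ≤ n := Nat.cast_nonneg n
  have h1 : ∑ j, (inner ℝ (e j) v) ^ 4 ≤ ∑ j, (inner ℝ (e j) t) ^ 4 +
      4 * inner ℝ (gv e t) (v - t) + 16 * ‖v - t‖ ^ 2 := by
    have h2 : inner ℝ (gv e t) (v - t) = ∑ j, (inner ℝ (e j) t) ^ 3 *
        (inner ℝ (e j) v - inner ℝ (e j) t) := by
      unfold gv
      rw [sum_inner]
      refine Finset.sum_congr rfl fun j _ => ?_
      rw [real_inner_smul_left, inner_sub_right]
    have h3 : ∑ j, (inner ℝ (e j) v - inner ℝ (e j) t) ^ 2 ≤ 2 * ‖v - t‖ ^ 2 := by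
      have := hF (v - t)
      simpa only [inner_sub_right] using this
    have h4 : ∑ j, (inner ℝ (e j) v) ^ 4 ≤ ∑ j, ((inner ℝ (e j) t) ^ 4 +
        4 * ((inner ℝ (e j) t) ^ 3 * (inner ℝ (e j) v - inner ℝ (e j) t)) +
        8 * (inner ℝ (e j) v - inner ℝ (e j) t) ^ 2) := by
      refine Finset.sum_le_sum fun j _ => ?_
      have h5 := abs_le e he v hv j
      have h6 := abs_le e he t ht j
      set a := inner ℝ (e j) v
      set b := inner ℝ (e j) t
      have h7 : a ^ 2 + 2 * a * b + 3 * b ^ 2 ≤ 8 := by nlinarith [sq_nonneg (a - b)]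
      have h8 : a ^ 4 = b ^ 4 + 4 * (b ^ 3 * (a - b)) +
          (a ^ 2 + 2 * a * b + 3 * b ^ 2) * (a - b) ^ 2 := by ring
      rw [h8]
      have := mul_le_mul_of_nonneg_right h7 (sq_nonneg (a - b))
      linarith
    rw [Finset.sum_add_distrib, Finset.sum_add_distrib, ← Finset.mul_sum, ← Finset.mul_sum,
      ← h2] at h4
    linarith
  have h9 : inner ℝ (gv e t) (v - t) ≤ ‖gv e t‖ * ‖v - t‖ := real_inner_le_norm _ _
  unfold psi G
  have h10 : (0 : ℝ) ≤ (n : ℝ) / 200 := by positivity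
  have h11 := mul_le_mul_of_nonneg_left h1 h10
  have h12 := mul_le_mul_of_nonneg_left h9 h10
  have h13 : 0 ≤ (n : ℝ) * ‖v - t‖ ^ 2 := by positivity
  nlinarith

end QBD_

theorem qbd_proof (hWLD : Stmt_WLD) (hSMM : Stmt_SMM) (hSPH : Stmt_SPH) : Stmt_QBD := by
  refine ⟨9, ?_⟩
  intro n k ι _ p w D e hn hk hIS hMI he hF
  have hn1 : 1 ≤ n := by omega
  have hn9 : (9 : ℝ) ≤ n := by exact_mod_cast hn
  have hnpos : (0 : ℝ) < n := by linarith
  have hkn : (k : ℝ) ≤ n := by exact_mod_cast hk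
  have hk0 : (0 : ℝ) ≤ k := Nat.cast_nonneg k
  obtain ⟨hP, hunit, -⟩ := hSPH n hn1
  -- integrability
  have hint : ∀ (f : EE n → ℝ) (C : ℝ), Continuous f → (∀ v, ‖v‖ = 1 → ‖f v‖ ≤ C) →
      Integrable f (sph n) := by
    intro f C hf hC
    apply Integrable.of_bound hf.aestronglyMeasurable C
    filter_upwards [hunit] with v hv
    exact hC v hv
  have hpow : ∀ (j : Fin k) (m : ℕ), Integrable (fun v => (inner ℝ (e j) v) ^ (2 * m)) (sph n) := by
    intro j m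
    apply hint (fun v => (inner ℝ (e j) v) ^ (2 * m)) 1 ((QBD_.cont_inner e j).pow _)
    intro v hv
    have h1 := QBD_.abs_le e he v hv j
    show ‖(inner ℝ (e j) v) ^ (2 * m)‖ ≤ 1
    rw [pow_mul, Real.norm_of_nonneg (pow_nonneg (sq_nonneg _) _)]
    exact pow_le_one₀ (sq_nonneg _) h1
  have hmom : ∀ (j : Fin k) (m : ℕ), ∫ v, (inner ℝ (e j) v) ^ (2 * m) ∂(sph n) = smo n m := by
    intro j m
    rw [hSMM n m (e j) hn1, he j, one_pow, mul_one]
  -- the bounds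
  have hb1 : ∀ v, ‖v‖ = 1 → |QBD_.psi e v| ≤ (n : ℝ) / 8 := by
    intro v hv
    have h1 := QBD_.sum_le e he hF v hv 1
    have h2 : 0 ≤ ∑ j, (inner ℝ (e j) v) ^ 4 := Finset.sum_nonneg fun j _ => by positivity
    unfold QBD_.psi
    rw [abs_of_nonneg (by positivity)]
    have h3 : ∑ j, (inner ℝ (e j) v) ^ 4 ≤ 2 := h1
    nlinarith
  have hb2 : ∀ v, ‖v‖ = 1 → 0 ≤ QBD_.G e v ∧ QBD_.G e v ≤ (n : ℝ) / 8 := by
    intro v hv
    have h1 := QBD_.dual e hF (fun j => (inner ℝ (e j) v) ^ 3)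
    have h2 := QBD_.sum_le e he hF v hv 2
    have h3 : ∑ j, ((inner ℝ (e j) v) ^ 3) ^ 2 = ∑ j, (inner ℝ (e j) v) ^ (2 * (2 + 1)) := by
      refine Finset.sum_congr rfl fun j _ => ?_
      ring
    have h4 : ‖QBD_.gv e v‖ ^ 2 ≤ 4 := by
      unfold QBD_.gv
      rw [h3] at h1
      linarith
    have h5 : ‖QBD_.gv e v‖ ≤ 2 := by
      have := norm_nonneg (QBD_.gv e v)
      nlinarith
    unfold QBD_.G
    constructor
    · positivity
    · nlinarith
  have key := hWLD n ι p w D (QBD_.psi e) (QBD_.G e) (by omega) hIS hMI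
    (QBD_.cont_psi e).measurable (QBD_.cont_G e).measurable hb1 hb2
    (fun v t hv ht => QBD_.semi e he hF v t hv ht)
  -- the left side
  have hL : ∑ i, p i * QBD_.psi e (w i) =
      1 / 200 * ∑ j, (n : ℝ) * ∑ i, p i * (inner ℝ (w i) (e j)) ^ 4 := by
    unfold QBD_.psi
    rw [Finset.mul_sum]
    have h1 : ∀ i, p i * ((n : ℝ) / 200 * ∑ j, (inner ℝ (e j) (w i)) ^ 4) =
        ∑ j, 1 / 200 * ((n : ℝ) * (p i * (inner ℝ (w i) (e j)) ^ 4)) := by
      intro i
      rw [Finset.mul_sum, Finset.mul_sum]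
      refine Finset.sum_congr rfl fun j _ => ?_
      rw [real_inner_comm (w i) (e j)]
      ring
    simp only [h1]
    rw [Finset.sum_comm]
    refine Finset.sum_congr rfl fun j _ => ?_
    rw [Finset.mul_sum, Finset.mul_sum]
  have hI : ∫ v, QBD_.psi e v ∂(sph n) = (n : ℝ) / 200 * (k * smo n 2) := by
    unfold QBD_.psi
    rw [integral_const_mul, integral_finsetSum _ fun j _ => hpow j 2]
    congr 1
    rw [Finset.sum_congr rfl fun j _ => hmom j 2]
    rw [Finset.sum_const, Finset.card_univ, Fintype.card_fin, nsmul_eq_mul]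
  -- the right side
  have hR : ∫ v, (QBD_.psi e v ^ 2 + QBD_.G e v ^ 2) ∂(sph n) ≤
      ((n : ℝ) / 200) ^ 2 * (k * (k * smo n 4)) + ((n : ℝ) / 50) ^ 2 * (2 * (k * smo n 3)) := by
    have h1 : ∫ v, (QBD_.psi e v ^ 2 + QBD_.G e v ^ 2) ∂(sph n) ≤
        ∫ v, (((n : ℝ) / 200) ^ 2 * (k * ∑ j, (inner ℝ (e j) v) ^ (2 * 4)) +
          ((n : ℝ) / 50) ^ 2 * (2 * ∑ j, (inner ℝ (e j) v) ^ (2 * 3))) ∂(sph n) := by
      apply integral_mono
      · apply hint (fun v => QBD_.psi e v ^ 2 + QBD_.G e v ^ 2)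
          (((n : ℝ) / 8) ^ 2 + ((n : ℝ) / 8) ^ 2)
          (((QBD_.cont_psi e).pow 2).add ((QBD_.cont_G e).pow 2))
        intro v hv
        show ‖QBD_.psi e v ^ 2 + QBD_.G e v ^ 2‖ ≤ _
        rw [Real.norm_of_nonneg (by positivity)]
        have h2 := hb1 v hv
        obtain ⟨h3, h4⟩ := hb2 v hv
        have h5 := sq_abs (QBD_.psi e v)
        have h6 := abs_nonneg (QBD_.psi e v)
        nlinarith
      · apply Integrable.add
        · exact ((integrable_finsetSum _ fun j _ => hpow j 4).const_mul _).const_mul _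
        · exact ((integrable_finsetSum _ fun j _ => hpow j 3).const_mul _).const_mul _
      · intro v
        show QBD_.psi e v ^ 2 + QBD_.G e v ^ 2 ≤ _
        have h2 : (∑ j, (inner ℝ (e j) v) ^ 4) ^ 2 ≤ k * ∑ j, (inner ℝ (e j) v) ^ (2 * 4) := by
          have h3 := Finset.sum_mul_sq_le_sq_mul_sq (Finset.univ : Finset (Fin k))
            (fun _ => (1 : ℝ)) (fun j => (inner ℝ (e j) v) ^ 4)
          simp only [one_mul, one_pow, Finset.sum_const, Finset.card_univ, Fintype.card_fin,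
            nsmul_eq_mul, mul_one] at h3
          have h4 : ∑ j, ((inner ℝ (e j) v) ^ 4) ^ 2 = ∑ j, (inner ℝ (e j) v) ^ (2 * 4) := by
            refine Finset.sum_congr rfl fun j _ => ?_
            ring
          rw [h4] at h3
          exact h3
        have h5 : ‖QBD_.gv e v‖ ^ 2 ≤ 2 * ∑ j, (inner ℝ (e j) v) ^ (2 * 3) := by
          have h6 := QBD_.dual e hF (fun j => (inner ℝ (e j) v) ^ 3)
          have h7 : ∑ j, ((inner ℝ (e j) v) ^ 3) ^ 2 = ∑ j, (inner ℝ (e j) v) ^ (2 * 3) := by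
            refine Finset.sum_congr rfl fun j _ => ?_
            ring
          rw [h7] at h6
          exact h6
        unfold QBD_.psi QBD_.G
        rw [mul_pow, mul_pow]
        exact add_le_add (mul_le_mul_of_nonneg_left h2 (by positivity))
          (mul_le_mul_of_nonneg_left h5 (by positivity))
    refine h1.trans (le_of_eq ?_)
    rw [integral_add, integral_const_mul, integral_const_mul, integral_const_mul,
      integral_const_mul, integral_finsetSum _ fun j _ => hpow j 4,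
      integral_finsetSum _ fun j _ => hpow j 3,
      Finset.sum_congr rfl fun j _ => hmom j 4, Finset.sum_congr rfl fun j _ => hmom j 3]
    · simp only [Finset.sum_const, Finset.card_univ, Fintype.card_fin, nsmul_eq_mul]
    · exact ((integrable_finsetSum _ fun j _ => hpow j 4).const_mul _).const_mul _
    · exact ((integrable_finsetSum _ fun j _ => hpow j 3).const_mul _).const_mul _
  -- the constants
  have hs2 : smo n 2 ≤ 3 / (n : ℝ) ^ 2 := by
    unfold smo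
    rw [Finset.prod_range_succ, Finset.prod_range_one]
    push_cast
    rw [div_mul_div_comm, div_le_div_iff₀ (by positivity) (by positivity)]
    nlinarith
  have hs3 : smo n 3 ≤ 15 / (n : ℝ) ^ 3 := by
    unfold smo
    rw [Finset.prod_range_succ, Finset.prod_range_succ, Finset.prod_range_one]
    push_cast
    rw [div_mul_div_comm, div_mul_div_comm, div_le_div_iff₀ (by positivity) (by positivity)]
    have : (n : ℝ) ^ 3 ≤ (n + 2 * 0) * (n + 2 * 1) * (n + 2 * 2) := by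
      nlinarith [mul_pos hnpos hnpos, mul_pos (mul_pos hnpos hnpos) hnpos]
    nlinarith
  have hs4 : smo n 4 ≤ 105 / (n : ℝ) ^ 4 := by
    unfold smo
    rw [Finset.prod_range_succ, Finset.prod_range_succ, Finset.prod_range_succ,
      Finset.prod_range_one]
    push_cast
    rw [div_mul_div_comm, div_mul_div_comm, div_mul_div_comm,
      div_le_div_iff₀ (by positivity) (by positivity)]
    have h1 : (n : ℝ) ^ 2 ≤ (n + 2 * 0) * (n + 2 * 1) := by nlinarith
    have h2 : (n : ℝ) ^ 2 ≤ (n + 2 * 2) * (n + 2 * 3) := by nlinarith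
    have h3 : (n : ℝ) ^ 4 ≤ ((n + 2 * 0) * (n + 2 * 1)) * ((n + 2 * 2) * (n + 2 * 3)) := by
      calc (n : ℝ) ^ 4 = (n : ℝ) ^ 2 * (n : ℝ) ^ 2 := by ring
        _ ≤ _ := mul_le_mul h1 h2 (by positivity) (by positivity)
    nlinarith
  rw [hL, hI] at key
  have hA : ((n : ℝ) / 200) ^ 2 * (k * (k * smo n 4)) ≤ 105 / 40000 * (k / (n : ℝ)) := by
    have h1 : (k : ℝ) * (k * smo n 4) ≤ k * (n * (105 / (n : ℝ) ^ 4)) := by
      apply mul_le_mul_of_nonneg_left _ hk0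
      exact mul_le_mul hkn hs4 (by
        unfold smo
        exact Finset.prod_nonneg fun i _ => by positivity) (by positivity)
    calc ((n : ℝ) / 200) ^ 2 * (k * (k * smo n 4))
        ≤ ((n : ℝ) / 200) ^ 2 * (k * (n * (105 / (n : ℝ) ^ 4))) :=
          mul_le_mul_of_nonneg_left h1 (by positivity)
      _ = 105 / 40000 * (k / (n : ℝ)) := by field_simp; ring
  have hB : ((n : ℝ) / 50) ^ 2 * (2 * (k * smo n 3)) ≤ 12 / 1000 * (k / (n : ℝ)) := by
    have h1 : 2 * ((k : ℝ) * smo n 3) ≤ 2 * (k * (15 / (n : ℝ) ^ 3)) := by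
      have := mul_le_mul_of_nonneg_left hs3 hk0
      linarith
    calc ((n : ℝ) / 50) ^ 2 * (2 * (k * smo n 3))
        ≤ ((n : ℝ) / 50) ^ 2 * (2 * (k * (15 / (n : ℝ) ^ 3))) :=
          mul_le_mul_of_nonneg_left h1 (by positivity)
      _ = 12 / 1000 * (k / (n : ℝ)) := by field_simp; ring
  have hC : (n : ℝ) / 200 * (k * smo n 2) ≤ 3 / 200 * (k / (n : ℝ)) := by
    calc (n : ℝ) / 200 * (k * smo n 2) ≤ (n : ℝ) / 200 * (k * (3 / (n : ℝ) ^ 2)) := by
          apply mul_le_mul_of_nonneg_left _ (by positivity)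
          exact mul_le_mul_of_nonneg_left hs2 hk0
      _ = 3 / 200 * (k / (n : ℝ)) := by field_simp
  have hE : 3 / (n : ℝ) * ∫ v, (QBD_.psi e v ^ 2 + QBD_.G e v ^ 2) ∂(sph n) ≤
      1 / 3 * (105 / 40000 * (k / (n : ℝ)) + 12 / 1000 * (k / (n : ℝ))) := by
    have h1 : 3 / (n : ℝ) ≤ 1 / 3 := by
      rw [div_le_div_iff₀ hnpos (by norm_num)]
      linarith
    have h2 : 0 ≤ ∫ v, (QBD_.psi e v ^ 2 + QBD_.G e v ^ 2) ∂(sph n) :=
      integral_nonneg fun v => by positivity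
    exact mul_le_mul h1 (by linarith) h2 (by norm_num)
  have hkk : 0 ≤ (k : ℝ) / n := by positivity
  have hgoal : (4 : ℝ) * k / n = 4 * (k / n) := by ring
  rw [hgoal]
  nlinarith

end PPX
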