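import Pool.Agent.PPX.Stmts

/-!
# Squad PPX, module QSR: the energy and `QQ`
-/

set_option autoImplicit false

namespace PPX

open MeasureTheory Set Filter Topology
open PPI PPG
open scoped Pointwise ENNReal

namespace QSR_

variable {n : ℕ} {ι : Type} [Fintype ι]

theorem inner_sq_le (a b : EE n) (ha : ‖a‖ = 1) (hb : ‖b‖ = 1) :
    (inner ℝ a b : ℝ) ^ 2 ≤ 1 := by
  have h := abs_real_inner_le_norm a b
  rw [ha, hb, one_mul] at h
  have h2 : |(inner ℝ a b : ℝ)| ^ 2 ≤ 1 := by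
    have := abs_nonneg (inner ℝ a b : ℝ)
    nlinarith
  rwa [sq_abs] at h2

theorem Tk_nonneg (hTPD : Stmt_TPD) (p : ι → ℝ) (w : ι → EE n) (hn : 1 ≤ n) (h : IS p w)
    (k : ℕ) : 0 ≤ Tk p w k := by
  have := hTPD n ι p w k (fun _ => 0) hn (fun i => (h.ppos i).le) h.psum h.nrm
    (fun l => by simp)
  exact le_trans (sq_nonneg _) this

theorem Tk_zero (p : ι → ℝ) (w : ι → EE n) (h : IS p w) : Tk p w 0 = 0 := by
  unfold Tk smo
  simp only [Nat.mul_zero, pow_zero, mul_one, Finset.range_zero, Finset.prod_empty]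
  rw [show ∑ i, ∑ j, p i * p j = (∑ i, p i) * ∑ j, p j by rw [Finset.sum_mul_sum], h.psum]
  norm_num

theorem Tk_one (p : ι → ℝ) (w : ι → EE n) (hn : 1 ≤ n) (h : IS p w) : Tk p w 1 = 0 := by
  have hn0 : (n : ℝ) ≠ 0 := by
    have : n ≠ 0 := by omega
    exact_mod_cast this
  unfold Tk smo
  have h1 : ∀ j, ∑ i, p i * (inner ℝ (w i) (w j)) ^ 2 = 1 / (n : ℝ) := by
    intro j
    have := h.iso (w j)
    rw [h.nrm j] at this
    field_simp
    linarith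
  have h2 : ∑ i, ∑ j, p i * p j * (inner ℝ (w i) (w j)) ^ (2 * 1) = 1 / (n : ℝ) := by
    rw [Finset.sum_comm]
    have : ∀ j, ∑ i, p i * p j * (inner ℝ (w i) (w j)) ^ (2 * 1) = p j * (1 / (n : ℝ)) := by
      intro j
      rw [← h1 j, Finset.mul_sum]
      refine Finset.sum_congr rfl fun i _ => ?_
      rw [Nat.mul_one]
      ring
    rw [Finset.sum_congr rfl fun j _ => this j, ← Finset.sum_mul, h.psum, one_mul]
  rw [h2]
  simp

/-- sums over pairs of power series -/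
theorem hasSum_pairs (p : ι → ℝ) (w : ι → EE n) (h : IS p w) (c : ℕ → ℝ) (F : ℝ → ℝ)
    (S : ℝ) (hc : ∀ s : ℝ, s ^ 2 ≤ 1 → HasSum (fun k : ℕ => c k * s ^ (2 * k)) (F s))
    (hS : HasSum (fun k : ℕ => c k * smo n k) S) :
    HasSum (fun k : ℕ => c k * Tk p w k)
      (∑ i, ∑ j, p i * p j * F (inner ℝ (w i) (w j)) - S) := by
  have h1 : HasSum (fun k : ℕ => ∑ i, ∑ j, p i * p j *
      (c k * (inner ℝ (w i) (w j)) ^ (2 * k)))
      (∑ i, ∑ j, p i * p j * F (inner ℝ (w i) (w j))) := by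
    refine hasSum_sum fun i _ => ?_
    refine hasSum_sum fun j _ => ?_
    exact (hc _ (inner_sq_le _ _ (h.nrm i) (h.nrm j))).mul_left _
  have h2 := h1.sub hS
  have e : (fun k : ℕ => c k * Tk p w k) = fun k : ℕ =>
      ∑ i, ∑ j, p i * p j * (c k * (inner ℝ (w i) (w j)) ^ (2 * k)) - c k * smo n k := by
    funext k
    unfold Tk
    rw [mul_sub, Finset.mul_sum]
    congr 1
    refine Finset.sum_congr rfl fun i _ => ?_
    rw [Finset.mul_sum]
    refine Finset.sum_congr rfl fun j _ => ?_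
    ring
  rw [e]
  exact h2

theorem shift (c : ℕ → ℝ) (p : ι → ℝ) (w : ι → EE n) (hn : 1 ≤ n) (h : IS p w) (S : ℝ)
    (hS : HasSum (fun k : ℕ => c k * Tk p w k) S) :
    HasSum (fun r : ℕ => c (r + 2) * Tk p w (r + 2)) S := by
  have := (hasSum_nat_add_iff' (f := fun k : ℕ => c k * Tk p w k) 2).2 hS
  rw [Finset.sum_range_succ, Finset.sum_range_one, Tk_zero p w h, Tk_one p w hn h] at this
  simpa using this

end QSR_

open QSR_ in
theorem qsr_proof (hKEN : Stmt_KEN) (hBTS : Stmt_BTS) (hMMS : Stmt_MMS) (hTPD : Stmt_TPD)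
    (hCNB : Stmt_CNB) : Stmt_QSR := by
  intro n ι _ p w hn h
  have hn1 : 1 ≤ n := by omega
  have hn2 : 2 ≤ n := by omega
  obtain ⟨hb1, hb2, hb3, hb4, hb5⟩ := hBTS
  obtain ⟨c, hc0, hc1, hc2, hc3, -, -⟩ := hKEN n hn
  have hA : HasSum (fun k : ℕ => ec k * Tk p w k) (QQ p w) := by
    have := hasSum_pairs p w h ec (fun s => -√(1 - s ^ 2)) (-mm n)
      (fun s hs => by simpa only [pow_mul] using hb2 (s ^ 2) (sq_nonneg s) hs) (hMMS n hn2).1
    convert this using 1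
    unfold QQ
    simp only [mul_neg, Finset.sum_neg_distrib]
    ring
  have hA2 := shift ec p w hn1 h _ hA
  have hB := hasSum_pairs p w h c (kk n) 1 hc2 hc3
  have hB2 := shift c p w hn1 h _ hB
  refine ⟨hA2, ?_⟩
  have hT : ∀ k, 0 ≤ Tk p w k := fun k => Tk_nonneg hTPD p w hn1 h k
  have hQ : 0 ≤ QQ p w := by
    refine hA2.nonneg fun r => mul_nonneg (hb4 (r + 2) (by omega)).1.le (hT _)
  have hle : ∑ i, ∑ j, p i * p j * kk n (inner ℝ (w i) (w j)) - 1 ≤ 3 * n * QQ p w := by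
    refine hasSum_le (fun r => ?_) hB2 (hA2.mul_left (3 * (n : ℝ)))
    have := hc1 (r + 2) (by omega)
    nlinarith [mul_le_mul_of_nonneg_right this (hT (r + 2))]
  obtain ⟨hk, -, -, ho1, ho2, -⟩ := hCNB n hn2
  have hnR : (4 : ℝ) ≤ n := by exact_mod_cast hn
  have hom : 0 < om n := by
    have : 1 / (n : ℝ) ≤ 1 / 4 := one_div_le_one_div_of_le (by norm_num) hnR
    linarith
  have hmm : (n : ℝ) ^ 2 * om n * mm n = (n : ℝ) ^ 2 - n := by
    unfold mm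
    field_simp
  unfold XX
  rw [h.psum]
  have hq : ∑ i, ∑ j, p i * p j * √(1 - (inner ℝ (w i) (w j)) ^ 2) = mm n - QQ p w := by
    unfold QQ
    ring
  rw [hq]
  have h1 : (n : ℝ) ^ 2 * om n * QQ p w ≤ (n : ℝ) ^ 2 * QQ p w := by
    have : (n : ℝ) ^ 2 * om n ≤ (n : ℝ) ^ 2 := by nlinarith [sq_nonneg (n : ℝ)]
    exact mul_le_mul_of_nonneg_right this hQ
  have h2 : (n : ℝ) ^ 2 * QQ p w ≤ 2 * (n : ℝ) ^ 3 * QQ p w := by
    have : (n : ℝ) ^ 2 ≤ 2 * (n : ℝ) ^ 3 := by nlinarith [sq_nonneg (n : ℝ)]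
    exact mul_le_mul_of_nonneg_right this hQ
  have h3 : 2 * (n : ℝ) ^ 2 *
      (∑ i, ∑ j, p i * p j * kk n (inner ℝ (w i) (w j)) - 1) ≤
      2 * (n : ℝ) ^ 2 * (3 * n * QQ p w) :=
    mul_le_mul_of_nonneg_left hle (by positivity)
  have e1 : (n : ℝ) ^ 2 * om n * ((mm n - QQ p w) / 1 ^ 2) =
      (n : ℝ) ^ 2 - n - (n : ℝ) ^ 2 * om n * QQ p w := by
    rw [← hmm]
    ring
  rw [e1]
  have e2 : (∑ i, ∑ j, p i * p j * kk n (inner ℝ (w i) (w j))) / 1 ^ 2 =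
      ∑ i, ∑ j, p i * p j * kk n (inner ℝ (w i) (w j)) := by
    norm_num
  rw [e2]
  nlinarith

end PPX
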