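import Pool.Agent.PPX.Stmts

/-!
# PPX/RD1: integration over a hyperplane
-/

set_option autoImplicit false

namespace PPX

open MeasureTheory Set Filter Topology
open PPI PPG
open scoped Pointwise ENNReal

namespace RD1_

/-- splitting off the first coordinate -/
noncomputable def φe (n : ℕ) : EE (n + 1) ≃ᵐ ℝ × EE n :=
  (MeasurableEquiv.toLp 2 (Fin (n + 1) → ℝ)).symm.trans
    ((MeasurableEquiv.piFinSuccAbove (fun _ : Fin (n + 1) => ℝ) 0).trans
      ((MeasurableEquiv.refl ℝ).prodCongr (MeasurableEquiv.toLp 2 (Fin n → ℝ))))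

theorem φe_fst (n : ℕ) (x : EE (n + 1)) : (φe n x).1 = x 0 := rfl

theorem φe_snd (n : ℕ) (x : EE (n + 1)) (j : Fin n) : (φe n x).2 j = x j.succ := by
  show x ((0 : Fin (n + 1)).succAbove j) = x j.succ
  rw [Fin.zero_succAbove]

theorem φe_norm (n : ℕ) (x : EE (n + 1)) : ‖x‖ ^ 2 = (φe n x).1 ^ 2 + ‖(φe n x).2‖ ^ 2 := by
  rw [EuclideanSpace.real_norm_sq_eq, EuclideanSpace.real_norm_sq_eq, Fin.sum_univ_succ]
  simp only [φe_fst, φe_snd]

theorem φe_mp (n : ℕ) : MeasurePreserving (φe n) volume volume := by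
  have h1 := EuclideanSpace.volume_preserving_symm_measurableEquiv_toLp (Fin (n + 1))
  have h2 := volume_preserving_piFinSuccAbove (fun _ : Fin (n + 1) => ℝ) 0
  have h3 : MeasurePreserving (MeasurableEquiv.toLp 2 (Fin n → ℝ)) volume volume :=
    PiLp.volume_preserving_toLp (Fin n)
  have h4 : MeasurePreserving ((MeasurableEquiv.refl ℝ).prodCongr
      (MeasurableEquiv.toLp 2 (Fin n → ℝ))) volume volume :=
    (MeasurePreserving.id (volume : Measure ℝ)).prod h3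
  exact (h4.comp h2).comp h1

/-- an isometry mapping `a` to `b` -/
theorem exists_iso {n : ℕ} (a b : EE n) (h : ‖a‖ = ‖b‖) : ∃ e : EE n ≃ₗᵢ[ℝ] EE n, e a = b :=
  ⟨(ℝ ∙ (a - b))ᗮ.reflection, Submodule.reflection_sub h⟩

end RD1_

open RD1_ in
theorem rd1_proof (hB : Stmt_BAS) : Stmt_RD1 := by
  intro n a g hn ha hg
  obtain ⟨m, rfl⟩ : ∃ m, n = m + 1 := ⟨n - 1, by omega⟩
  rw [Nat.add_sub_cancel]
  set b : EE (m + 1) := EuclideanSpace.single 0 1 with hb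
  have hbn : ‖b‖ = 1 := by simp [hb]
  obtain ⟨e, he⟩ := exists_iso a b (by rw [ha, hbn])
  have h1 : ∫⁻ x : EE (m + 1), ENNReal.ofReal
        ((1 + ‖x‖ ^ 2) ^ (-((((m + 1 : ℕ) : ℝ) + 1) / 2))) * g (inner ℝ x a) =
      ∫⁻ x : EE (m + 1), ENNReal.ofReal
        ((1 + ‖x‖ ^ 2) ^ (-((((m + 1 : ℕ) : ℝ) + 1) / 2))) * g (x 0) := by
    rw [← (e.measurePreserving).lintegral_comp_emb e.toHomeomorph.measurableEmbedding
      (fun x : EE (m + 1) => ENNReal.ofReal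
        ((1 + ‖x‖ ^ 2) ^ (-((((m + 1 : ℕ) : ℝ) + 1) / 2))) * g (x 0))]
    refine lintegral_congr fun x => ?_
    have h2 : (e x) 0 = inner ℝ x a := by
      rw [← e.inner_map_map x a, he, hb, EuclideanSpace.inner_single_right]
      simp
    rw [h2, e.norm_map]
  rw [h1]
  have h3 : ∫⁻ x : EE (m + 1), ENNReal.ofReal
        ((1 + ‖x‖ ^ 2) ^ (-((((m + 1 : ℕ) : ℝ) + 1) / 2))) * g (x 0) =
      ∫⁻ z : ℝ × EE m, ENNReal.ofReal
        ((1 + (z.1 ^ 2 + ‖z.2‖ ^ 2)) ^ (-((((m + 1 : ℕ) : ℝ) + 1) / 2))) * g z.1 := by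
    rw [← (φe_mp m).lintegral_comp_emb (φe m).measurableEmbedding
      (fun z : ℝ × EE m => ENNReal.ofReal
        ((1 + (z.1 ^ 2 + ‖z.2‖ ^ 2)) ^ (-((((m + 1 : ℕ) : ℝ) + 1) / 2))) * g z.1)]
    refine lintegral_congr fun x => ?_
    rw [← φe_norm, φe_fst]
  rw [h3]
  have hmeas : Measurable (fun z : ℝ × EE m => ENNReal.ofReal
        ((1 + (z.1 ^ 2 + ‖z.2‖ ^ 2)) ^ (-((((m + 1 : ℕ) : ℝ) + 1) / 2))) * g z.1) := by
    refine Measurable.mul ?_ (hg.comp measurable_fst)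
    fun_prop
  have hvol : (volume : Measure (ℝ × EE m)) = (volume : Measure ℝ).prod volume := rfl
  rw [hvol, lintegral_prod _ hmeas.aemeasurable]
  have h4 : ∀ t : ℝ, ∫⁻ y : EE m, ENNReal.ofReal
        ((1 + (t ^ 2 + ‖y‖ ^ 2)) ^ (-((((m + 1 : ℕ) : ℝ) + 1) / 2))) * g t =
      ENNReal.ofReal (kap m) * (g t * ENNReal.ofReal (1 / (1 + t ^ 2))) := by
    intro t
    have h5 : ∀ y : EE m, ENNReal.ofReal
        ((1 + (t ^ 2 + ‖y‖ ^ 2)) ^ (-((((m + 1 : ℕ) : ℝ) + 1) / 2))) * g t =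
        g t * ENNReal.ofReal (((1 + t ^ 2) + ‖y‖ ^ 2) ^ (-((m : ℝ) / 2) - 1)) := by
      intro y
      rw [mul_comm]
      congr 3
      · ring
      · push_cast
        ring
    simp only [h5]
    have hm2 : Measurable (fun y : EE m =>
        ENNReal.ofReal (((1 + t ^ 2) + ‖y‖ ^ 2) ^ (-((m : ℝ) / 2) - 1))) := by fun_prop
    rw [lintegral_const_mul _ hm2, hB.1 m (1 + t ^ 2) (by positivity)]
    have h6 : kap m / (1 + t ^ 2) = kap m * (1 / (1 + t ^ 2)) := by ring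
    have h7 : 0 ≤ kap m := ENNReal.toReal_nonneg
    rw [h6, ENNReal.ofReal_mul h7]
    ring
  simp only [h4]
  have hm3 : Measurable (fun t : ℝ => g t * ENNReal.ofReal (1 / (1 + t ^ 2))) :=
    hg.mul (by fun_prop)
  rw [lintegral_const_mul _ hm3]

end PPX
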