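import Pool.Agent.PPX.Stmts

/-!
# PPX/RD2: integration over a subspace of codimension two
-/

set_option autoImplicit false

namespace PPX

open MeasureTheory Set Filter Topology
open PPI PPG
open scoped Pointwise ENNReal

namespace RD2_

/-- splitting off the first coordinate -/
noncomputable def φe (n : ℕ) : EE (n + 1) ≃ᵐ ℝ × EE n :=
  (MeasurableEquiv.toLp 2 (Fin (n + 1) → ℝ)).symm.trans
    ((MeasurableEquiv.piFinSuccAbove (fun _ : Fin (n + 1) => ℝ) 0).trans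
      ((MeasurableEquiv.refl ℝ).prodCongr (MeasurableEquiv.toLp 2 (Fin n → ℝ))))

theorem φe_fst (n : ℕ) (x : EE (n + 1)) : (φe n x).1 = x 0 := rfl

theorem φe_snd (n : ℕ) (x : EE (n + 1)) (j : Fin n) : (φe n x).2 j = x j.succ := by
  show x ((0 : Fin (n + 1)).succAbove j) = x j.succ
  rw [Fin.zero_succAbove]

theorem φe_norm (n : ℕ) (x : EE (n + 1)) : ‖x‖ ^ 2 = (φe n x).1 ^ 2 + ‖(φe n x).2‖ ^ 2 := by
  rw [EuclideanSpace.real_norm_sq_eq, EuclideanSpace.real_norm_sq_eq, Fin.sum_univ_succ]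
  simp only [φe_fst, φe_snd]

theorem φe_mp (n : ℕ) : MeasurePreserving (φe n) volume volume := by
  have h1 := EuclideanSpace.volume_preserving_symm_measurableEquiv_toLp (Fin (n + 1))
  have h2 := volume_preserving_piFinSuccAbove (fun _ : Fin (n + 1) => ℝ) 0
  have h3 : MeasurePreserving (MeasurableEquiv.toLp 2 (Fin n → ℝ)) volume volume :=
    PiLp.volume_preserving_toLp (Fin n)
  have h4 : MeasurePreserving ((MeasurableEquiv.refl ℝ).prodCongr
      (MeasurableEquiv.toLp 2 (Fin n → ℝ))) volume volume :=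
    (MeasurePreserving.id (volume : Measure ℝ)).prod h3
  exact (h4.comp h2).comp h1

/-- an isometry mapping `a` to `b` -/
theorem exists_iso {n : ℕ} (a b : EE n) (h : ‖a‖ = ‖b‖) : ∃ e : EE n ≃ₗᵢ[ℝ] EE n, e a = b :=
  ⟨(ℝ ∙ (a - b))ᗮ.reflection, Submodule.reflection_sub h⟩

/-- an isometry mapping `b` to `b'` and fixing `a` -/
theorem exists_iso2 {n : ℕ} (a b b' : EE n) (h : ‖b‖ = ‖b'‖)
    (h2 : inner ℝ a b = inner ℝ a b') : ∃ e : EE n ≃ₗᵢ[ℝ] EE n, e a = a ∧ e b = b' := by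
  refine ⟨(ℝ ∙ (b - b'))ᗮ.reflection, ?_, Submodule.reflection_sub h⟩
  apply Submodule.reflection_mem_subspace_eq_self
  rw [Submodule.mem_orthogonal_singleton_iff_inner_left, inner_sub_right, h2, sub_self]

/-- affine change of variables on the line -/
theorem change1 (F : ℝ → ℝ≥0∞) (hF : Measurable F) (c d : ℝ) (hc : 0 < c) :
    ∫⁻ t : ℝ, F (d + c * t) = ENNReal.ofReal (1 / c) * ∫⁻ v : ℝ, F v := by
  have h1 : Measurable fun t : ℝ => c * t := by fun_prop
  have h2 : ∫⁻ t : ℝ, F (d + c * t) = ∫⁻ t : ℝ, (fun y => F (d + y)) (c * t) := rfl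
  have h3 : Measurable fun y : ℝ => F (d + y) := hF.comp (by fun_prop)
  rw [h2, ← lintegral_map h3 h1, Real.map_volume_mul_left hc.ne', lintegral_smul_measure,
    smul_eq_mul, abs_of_pos (inv_pos.2 hc), one_div, lintegral_add_left_eq_self]

end RD2_

open RD2_ in
theorem rd2_proof (hB : Stmt_BAS) : Stmt_RD2 := by
  intro n a b g s hn ha hb hs hs2 hg
  obtain ⟨m, rfl⟩ : ∃ m, n = m + 2 := ⟨n - 2, by omega⟩
  rw [Nat.add_sub_cancel]
  set c : ℝ := √(1 - s ^ 2) with hc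
  have hcpos : 0 < c := Real.sqrt_pos.2 (by linarith)
  have hc2 : c ^ 2 = 1 - s ^ 2 := Real.sq_sqrt (by linarith)
  set a' : EE (m + 2) := EuclideanSpace.single 0 1 with ha'
  set b' : EE (m + 2) := s • EuclideanSpace.single 0 1 + c • EuclideanSpace.single 1 1 with hb'
  have ha'n : ‖a'‖ = 1 := by simp [ha']
  have h01 : (0 : Fin (m + 2)) ≠ 1 := by
    intro h
    have := congrArg Fin.val h
    simp at this
  have hab' : inner ℝ a' b' = s := by
    rw [ha', hb', EuclideanSpace.inner_single_left]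
    simp [h01]
  have hb'n : ‖b'‖ = 1 := by
    have h1 : ‖b'‖ ^ 2 = 1 := by
      rw [EuclideanSpace.real_norm_sq_eq, Fin.sum_univ_succ, Fin.sum_univ_succ]
      have h2 : b' 0 = s := by simp [hb', h01]
      have h3 : b' (Fin.succ 0) = c := by
        simp [hb']
      have h4 : ∀ i : Fin m, b' i.succ.succ = 0 := by
        intro i
        have h5 : (i.succ.succ : Fin (m + 2)) ≠ 0 := Fin.succ_ne_zero _
        have h6 : (i.succ.succ : Fin (m + 2)) ≠ 1 := by
          intro h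
          have h7 : (i.succ.succ : Fin (m + 2)) = Fin.succ 0 := by rw [h]; rfl
          exact Fin.succ_ne_zero _ (Fin.succ_injective _ h7)
        simp [hb', h5, h6]
      rw [h2, h3]
      simp only [h4]
      simp
      linarith
    exact (pow_eq_one_iff_of_nonneg (norm_nonneg _) two_ne_zero).1 h1
  obtain ⟨e1, he1⟩ := exists_iso a a' (by rw [ha, ha'n])
  obtain ⟨e2, he2, he2'⟩ := exists_iso2 a' (e1 b) b' (by rw [e1.norm_map, hb, hb'n])
    (by rw [← he1, e1.inner_map_map, hs, he1, hab'])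
  set e : EE (m + 2) ≃ₗᵢ[ℝ] EE (m + 2) := e1.trans e2 with he
  have hea : e a = a' := by
    show e2 (e1 a) = a'
    rw [he1, he2]
  have heb : e b = b' := he2'
  have hx0 : ∀ x : EE (m + 2), (e x) 0 = inner ℝ x a := by
    intro x
    rw [← e.inner_map_map x a, hea, ha', EuclideanSpace.inner_single_right]
    simp
  have hx1 : ∀ x : EE (m + 2), s * (e x) 0 + c * (e x) 1 = inner ℝ x b := by
    intro x
    rw [← e.inner_map_map x b, heb, hb', inner_add_right, real_inner_smul_right,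
      real_inner_smul_right, EuclideanSpace.inner_single_right, EuclideanSpace.inner_single_right]
    simp
  have h1 : ∫⁻ x : EE (m + 2), ENNReal.ofReal
        ((1 + ‖x‖ ^ 2) ^ (-(((m + 2 : ℕ) : ℝ) / 2))) * g (inner ℝ x a) (inner ℝ x b) =
      ∫⁻ x : EE (m + 2), ENNReal.ofReal
        ((1 + ‖x‖ ^ 2) ^ (-(((m + 2 : ℕ) : ℝ) / 2))) * g (x 0) (s * x 0 + c * x 1) := by
    rw [← (e.measurePreserving).lintegral_comp_emb e.toHomeomorph.measurableEmbedding
      (fun x : EE (m + 2) => ENNReal.ofReal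
        ((1 + ‖x‖ ^ 2) ^ (-(((m + 2 : ℕ) : ℝ) / 2))) * g (x 0) (s * x 0 + c * x 1))]
    refine lintegral_congr fun x => ?_
    rw [hx1, hx0, e.norm_map]
  rw [h1]
  have h3 : ∫⁻ x : EE (m + 2), ENNReal.ofReal
        ((1 + ‖x‖ ^ 2) ^ (-(((m + 2 : ℕ) : ℝ) / 2))) * g (x 0) (s * x 0 + c * x 1) =
      ∫⁻ z : ℝ × EE (m + 1), ENNReal.ofReal
        ((1 + (z.1 ^ 2 + ‖z.2‖ ^ 2)) ^ (-(((m + 2 : ℕ) : ℝ) / 2))) *
          g z.1 (s * z.1 + c * z.2 0) := by
    rw [← (φe_mp (m + 1)).lintegral_comp_emb (φe (m + 1)).measurableEmbedding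
      (fun z : ℝ × EE (m + 1) => ENNReal.ofReal
        ((1 + (z.1 ^ 2 + ‖z.2‖ ^ 2)) ^ (-(((m + 2 : ℕ) : ℝ) / 2))) *
          g z.1 (s * z.1 + c * z.2 0))]
    refine lintegral_congr fun x => ?_
    rw [← φe_norm, φe_fst, φe_snd]
    rfl
  rw [h3]
  have hgm : ∀ (α : Type) [MeasurableSpace α] (f1 f2 : α → ℝ), Measurable f1 → Measurable f2 →
      Measurable fun z => g (f1 z) (f2 z) := by
    intro α _ f1 f2 hf1 hf2
    exact hg.comp (hf1.prodMk hf2)
  have hmeas : Measurable (fun z : ℝ × EE (m + 1) => ENNReal.ofReal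
        ((1 + (z.1 ^ 2 + ‖z.2‖ ^ 2)) ^ (-(((m + 2 : ℕ) : ℝ) / 2))) *
          g z.1 (s * z.1 + c * z.2 0)) := by
    refine Measurable.mul (by fun_prop) (hgm _ _ _ (by fun_prop) (by fun_prop))
  have hvol : (volume : Measure (ℝ × EE (m + 1))) = (volume : Measure ℝ).prod volume := rfl
  rw [hvol, lintegral_prod _ hmeas.aemeasurable]
  have h4 : ∀ t : ℝ, ∫⁻ y : EE (m + 1), ENNReal.ofReal
        ((1 + (t ^ 2 + ‖y‖ ^ 2)) ^ (-(((m + 2 : ℕ) : ℝ) / 2))) * g t (s * t + c * y 0) =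
      ENNReal.ofReal (kap m) * ∫⁻ v : ℝ, g t v *
        ENNReal.ofReal (c / (1 - s ^ 2 + t ^ 2 + v ^ 2 - 2 * s * t * v)) := by
    intro t
    have h5 : ∫⁻ y : EE (m + 1), ENNReal.ofReal
        ((1 + (t ^ 2 + ‖y‖ ^ 2)) ^ (-(((m + 2 : ℕ) : ℝ) / 2))) * g t (s * t + c * y 0) =
        ∫⁻ z : ℝ × EE m, ENNReal.ofReal
        ((1 + (t ^ 2 + (z.1 ^ 2 + ‖z.2‖ ^ 2))) ^ (-(((m + 2 : ℕ) : ℝ) / 2))) *
          g t (s * t + c * z.1) := by
      rw [← (φe_mp m).lintegral_comp_emb (φe m).measurableEmbedding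
        (fun z : ℝ × EE m => ENNReal.ofReal
        ((1 + (t ^ 2 + (z.1 ^ 2 + ‖z.2‖ ^ 2))) ^ (-(((m + 2 : ℕ) : ℝ) / 2))) *
          g t (s * t + c * z.1))]
      refine lintegral_congr fun x => ?_
      rw [← φe_norm, φe_fst]
    rw [h5]
    have hmeas2 : Measurable (fun z : ℝ × EE m => ENNReal.ofReal
        ((1 + (t ^ 2 + (z.1 ^ 2 + ‖z.2‖ ^ 2))) ^ (-(((m + 2 : ℕ) : ℝ) / 2))) *
          g t (s * t + c * z.1)) :=
      Measurable.mul (by fun_prop) (hgm _ _ _ (by fun_prop) (by fun_prop))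
    have hvol2 : (volume : Measure (ℝ × EE m)) = (volume : Measure ℝ).prod volume := rfl
    rw [hvol2, lintegral_prod _ hmeas2.aemeasurable]
    have h6 : ∀ t1 : ℝ, ∫⁻ y : EE m, ENNReal.ofReal
        ((1 + (t ^ 2 + (t1 ^ 2 + ‖y‖ ^ 2))) ^ (-(((m + 2 : ℕ) : ℝ) / 2))) *
          g t (s * t + c * t1) =
        ENNReal.ofReal (kap m) * (fun v : ℝ => g t v * ENNReal.ofReal
          (c ^ 2 / (1 - s ^ 2 + t ^ 2 + v ^ 2 - 2 * s * t * v))) (s * t + c * t1) := by
      intro t1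
      have h7 : ∀ y : EE m, ENNReal.ofReal
        ((1 + (t ^ 2 + (t1 ^ 2 + ‖y‖ ^ 2))) ^ (-(((m + 2 : ℕ) : ℝ) / 2))) *
          g t (s * t + c * t1) = g t (s * t + c * t1) *
          ENNReal.ofReal (((1 + t ^ 2 + t1 ^ 2) + ‖y‖ ^ 2) ^ (-((m : ℝ) / 2) - 1)) := by
        intro y
        rw [mul_comm]
        congr 3
        · ring
        · push_cast
          ring
      simp only [h7]
      have hm2 : Measurable (fun y : EE m =>
          ENNReal.ofReal (((1 + t ^ 2 + t1 ^ 2) + ‖y‖ ^ 2) ^ (-((m : ℝ) / 2) - 1))) := by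
        fun_prop
      rw [lintegral_const_mul _ hm2, hB.1 m (1 + t ^ 2 + t1 ^ 2) (by positivity)]
      have h8 : kap m / (1 + t ^ 2 + t1 ^ 2) = kap m * (c ^ 2 /
          (1 - s ^ 2 + t ^ 2 + (s * t + c * t1) ^ 2 - 2 * s * t * (s * t + c * t1))) := by
        have h9 : 1 - s ^ 2 + t ^ 2 + (s * t + c * t1) ^ 2 - 2 * s * t * (s * t + c * t1) =
            c ^ 2 * (1 + t ^ 2 + t1 ^ 2) := by
          rw [← hc2]
          linear_combination (-(t ^ 2)) * hc2
        rw [h9]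
        have : (1 + t ^ 2 + t1 ^ 2) ≠ 0 := by positivity
        field_simp
      have h10 : 0 ≤ kap m := ENNReal.toReal_nonneg
      rw [h8, ENNReal.ofReal_mul h10]
      ring
    simp only [h6]
    have hker : ∀ v : ℝ, 0 < 1 - s ^ 2 + t ^ 2 + v ^ 2 - 2 * s * t * v := by
      intro v
      nlinarith [sq_nonneg (v - s * t), mul_nonneg (sq_nonneg t) (by linarith : 0 ≤ 1 - s ^ 2)]
    have hm3 : Measurable (fun v : ℝ => g t v * ENNReal.ofReal
          (c ^ 2 / (1 - s ^ 2 + t ^ 2 + v ^ 2 - 2 * s * t * v))) :=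
      Measurable.mul (hgm _ _ _ (by fun_prop) (by fun_prop)) (by fun_prop)
    have hm4 : Measurable (fun t1 : ℝ => (fun v : ℝ => g t v * ENNReal.ofReal
          (c ^ 2 / (1 - s ^ 2 + t ^ 2 + v ^ 2 - 2 * s * t * v))) (s * t + c * t1)) :=
      hm3.comp (by fun_prop)
    rw [lintegral_const_mul _ hm4, change1 _ hm3 c (s * t) hcpos, ← lintegral_const_mul _ hm3]
    congr 1
    refine lintegral_congr fun v => ?_
    have h11 : c / (1 - s ^ 2 + t ^ 2 + v ^ 2 - 2 * s * t * v) =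
        (1 / c) * (c ^ 2 / (1 - s ^ 2 + t ^ 2 + v ^ 2 - 2 * s * t * v)) := by
      have := (hker v).ne'
      field_simp
    rw [h11, ENNReal.ofReal_mul (by positivity)]
    ring
  simp only [h4]
  have hm5 : Measurable (fun t : ℝ => ∫⁻ v : ℝ, g t v *
        ENNReal.ofReal (c / (1 - s ^ 2 + t ^ 2 + v ^ 2 - 2 * s * t * v))) := by
    have hm6 : Measurable (fun z : ℝ × ℝ => g z.1 z.2 *
        ENNReal.ofReal (c / (1 - s ^ 2 + z.1 ^ 2 + z.2 ^ 2 - 2 * s * z.1 * z.2))) :=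
      Measurable.mul (hgm _ _ _ (by fun_prop) (by fun_prop)) (by fun_prop)
    exact hm6.lintegral_prod_right'
  rw [lintegral_const_mul _ hm5]

end PPX
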