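import Pool.Agent.PPX.Stmts

set_option autoImplicit false

namespace PPX

open MeasureTheory Set Filter Topology
open PPI PPG
open scoped Pointwise ENNReal

namespace SHI_

variable {n : ℕ}

theorem mem_hyp (u x : EE n) : x ∈ hyp u ↔ inner ℝ u x = 0 :=
  Submodule.mem_orthogonal_singleton_iff_inner_right

theorem map_mem (g : EE n ≃ₗᵢ[ℝ] EE n) (u x : EE n) (hx : x ∈ hyp u) : g x ∈ hyp (g u) := by
  rw [mem_hyp] at hx ⊢
  rw [LinearIsometryEquiv.inner_map_map]
  exact hx

theorem symm_mem (g : EE n ≃ₗᵢ[ℝ] EE n) (u x : EE n) (hx : x ∈ hyp (g u)) :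
    g.symm x ∈ hyp u := by
  rw [mem_hyp] at hx ⊢
  rw [← LinearIsometryEquiv.inner_map_map g, LinearIsometryEquiv.apply_symm_apply]
  exact hx

/-- the induced isometry of the hyperplanes -/
noncomputable def hypEquiv (g : EE n ≃ₗᵢ[ℝ] EE n) (u : EE n) : hyp u ≃ₗᵢ[ℝ] hyp (g u) where
  toFun y := ⟨g y, map_mem g u y y.2⟩
  invFun z := ⟨g.symm z, symm_mem g u z z.2⟩
  left_inv y := by
    apply Subtype.ext
    exact g.symm_apply_apply _
  right_inv z := by
    apply Subtype.ext
    exact g.apply_symm_apply _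
  map_add' y z := by
    apply Subtype.ext
    exact map_add g _ _
  map_smul' c y := by
    apply Subtype.ext
    exact map_smul g c _
  norm_map' y := g.norm_map _

theorem proj_eq (K : Set (EE n)) (g : EE n ≃ₗᵢ[ℝ] EE n) (u : EE n) :
    projSet K u = (hypEquiv g u) ⁻¹' (projSet (g '' K) (g u)) := by
  ext y
  constructor
  · rintro ⟨a, ha⟩
    refine ⟨a, (y : EE n) + a • u, ha, ?_⟩
    rw [map_add, map_smul]
    rfl
  · rintro ⟨a, x, hx, hxa⟩
    refine ⟨a, ?_⟩
    have h1 : g x = g ((y : EE n) + a • u) := by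
      rw [hxa, map_add, map_smul]
      rfl
    rw [← g.injective h1]
    exact hx

theorem main (K : Set (EE n)) (g : EE n ≃ₗᵢ[ℝ] EE n) (u : EE n) :
    shadow (g '' K) (g u) = shadow K u := by
  unfold shadow vol
  rw [proj_eq K g u]
  congr 1
  let i1 : MeasureSpace ↥(hyp u) := measureSpaceOfInnerProductSpace
  let i2 : MeasureSpace ↥(hyp (g u)) := measureSpaceOfInnerProductSpace
  have h := (hypEquiv g u).measurePreserving
  exact (h.measure_preimage_equiv (f := (hypEquiv g u).toMeasurableEquiv) _).symm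

end SHI_

theorem shi_proof : Stmt_SHI := fun _ K g u _ _ => SHI_.main K g u

end PPX
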