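import Pool.Agent.PPX.Stmts

/-!
# Squad PPX, module SM4: two mixed moments
-/

set_option autoImplicit false

namespace PPX

open MeasureTheory Set Filter Topology
open PPI PPG

namespace SM4

variable {n : ℕ}

theorem integrable_mono (hp : IsProbabilityMeasure (sph n)) (hn : ∀ᵐ v ∂(sph n), ‖v‖ = 1)
    (a b : EE n) (ha : ‖a‖ = 1) (hb : ‖b‖ = 1) (i j : ℕ) :
    Integrable (fun v : EE n => (inner ℝ a v : ℝ) ^ i * (inner ℝ b v) ^ j) (sph n) := by
  refine Integrable.of_bound ?_ 1 ?_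
  · apply Continuous.aestronglyMeasurable
    fun_prop
  · filter_upwards [hn] with v hv
    rw [Real.norm_eq_abs, abs_mul, abs_pow, abs_pow]
    have h1 : |(inner ℝ a v : ℝ)| ≤ 1 := by
      have := abs_real_inner_le_norm a v
      rwa [ha, hv, one_mul] at this
    have h2 : |(inner ℝ b v : ℝ)| ≤ 1 := by
      have := abs_real_inner_le_norm b v
      rwa [hb, hv, one_mul] at this
    have h3 := pow_le_one₀ (n := i) (abs_nonneg _) h1
    have h4 := pow_le_one₀ (n := j) (abs_nonneg _) h2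
    exact mul_le_one₀ h3 (by positivity) h4

end SM4

open SM4 in
theorem sm4_proof (hSMM : Stmt_SMM) (hSPH : Stmt_SPH) : Stmt_SM4 := by
  intro n a b hn ha hb hab
  have hn1 : 1 ≤ n := by omega
  obtain ⟨hprob, hnorm, -⟩ := hSPH n hn1
  have hn' : (0 : ℝ) < n := by exact_mod_cast hn1
  have I := integrable_mono hprob hnorm a b ha hb
  -- the norms
  have hN : ∀ t : ℝ, ‖a + t • b‖ ^ 2 = 1 + t ^ 2 := by
    intro t
    rw [← real_inner_self_eq_norm_sq, inner_add_left, inner_add_right, inner_add_right,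
      inner_smul_left, inner_smul_right, inner_smul_left, inner_smul_right, real_inner_comm a b, hab,
      real_inner_self_eq_norm_sq, real_inner_self_eq_norm_sq, ha, hb]
    simp
    ring
  have hin : ∀ (t : ℝ) (v : EE n), (inner ℝ (a + t • b) v : ℝ) = inner ℝ a v + t * inner ℝ b v := by
    intro t v
    rw [inner_add_left, inner_smul_left]
    simp
  set M : ℕ → ℕ → ℝ := fun i j => ∫ v, (inner ℝ a v : ℝ) ^ i * (inner ℝ b v) ^ j ∂(sph n) with hM
  have hMa : ∀ k, M (2 * k) 0 = smo n k := by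
    intro k
    have := hSMM n k a hn1
    rw [ha, one_pow, mul_one] at this
    simp only [hM, pow_zero, mul_one]
    exact this
  have hMb : ∀ k, M 0 (2 * k) = smo n k := by
    intro k
    have := hSMM n k b hn1
    rw [hb, one_pow, mul_one] at this
    simp only [hM, pow_zero, one_mul]
    exact this
  have h4 : ∀ t : ℝ, M 4 0 + 4 * t * M 3 1 + 6 * t ^ 2 * M 2 2 + 4 * t ^ 3 * M 1 3 + t ^ 4 * M 0 4 =
      smo n 2 * (1 + t ^ 2) ^ 2 := by
    intro t
    have h := hSMM n 2 (a + t • b) hn1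
    rw [pow_mul ‖a + t • b‖ 2 2, hN t] at h
    rw [← h]
    have e : ∀ v : EE n, (inner ℝ (a + t • b) v : ℝ) ^ (2 * 2) =
        (inner ℝ a v : ℝ) ^ 4 * (inner ℝ b v) ^ 0 + 4 * t * ((inner ℝ a v : ℝ) ^ 3 * (inner ℝ b v) ^ 1) +
        6 * t ^ 2 * ((inner ℝ a v : ℝ) ^ 2 * (inner ℝ b v) ^ 2) +
        4 * t ^ 3 * ((inner ℝ a v : ℝ) ^ 1 * (inner ℝ b v) ^ 3) +
        t ^ 4 * ((inner ℝ a v : ℝ) ^ 0 * (inner ℝ b v) ^ 4) := by
      intro v
      rw [hin]
      ring
    rw [show (fun v : EE n => (inner ℝ (a + t • b) v : ℝ) ^ (2 * 2)) = _ from funext e]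
    rw [integral_add, integral_add, integral_add, integral_add, integral_const_mul,
      integral_const_mul, integral_const_mul, integral_const_mul]
    · exact I 4 0
    · exact (I 3 1).const_mul _
    · exact (I 4 0).add ((I 3 1).const_mul _)
    · exact (I 2 2).const_mul _
    · exact ((I 4 0).add ((I 3 1).const_mul _)).add ((I 2 2).const_mul _)
    · exact (I 1 3).const_mul _
    · exact (((I 4 0).add ((I 3 1).const_mul _)).add ((I 2 2).const_mul _)).add
        ((I 1 3).const_mul _)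
    · exact (I 0 4).const_mul _
  have h6 : ∀ t : ℝ, M 6 0 + 6 * t * M 5 1 + 15 * t ^ 2 * M 4 2 + 20 * t ^ 3 * M 3 3 +
      15 * t ^ 4 * M 2 4 + 6 * t ^ 5 * M 1 5 + t ^ 6 * M 0 6 = smo n 3 * (1 + t ^ 2) ^ 3 := by
    intro t
    have h := hSMM n 3 (a + t • b) hn1
    rw [pow_mul ‖a + t • b‖ 2 3, hN t] at h
    rw [← h]
    have e : ∀ v : EE n, (inner ℝ (a + t • b) v : ℝ) ^ (2 * 3) =
        (inner ℝ a v : ℝ) ^ 6 * (inner ℝ b v) ^ 0 + 6 * t * ((inner ℝ a v : ℝ) ^ 5 * (inner ℝ b v) ^ 1) +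
        15 * t ^ 2 * ((inner ℝ a v : ℝ) ^ 4 * (inner ℝ b v) ^ 2) +
        20 * t ^ 3 * ((inner ℝ a v : ℝ) ^ 3 * (inner ℝ b v) ^ 3) +
        15 * t ^ 4 * ((inner ℝ a v : ℝ) ^ 2 * (inner ℝ b v) ^ 4) +
        6 * t ^ 5 * ((inner ℝ a v : ℝ) ^ 1 * (inner ℝ b v) ^ 5) +
        t ^ 6 * ((inner ℝ a v : ℝ) ^ 0 * (inner ℝ b v) ^ 6) := by
      intro v
      rw [hin]
      ring
    rw [show (fun v : EE n => (inner ℝ (a + t • b) v : ℝ) ^ (2 * 3)) = _ from funext e]
    have J1 := (I 6 0).add ((I 5 1).const_mul (6 * t))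
    have J2 := J1.add ((I 4 2).const_mul (15 * t ^ 2))
    have J3 := J2.add ((I 3 3).const_mul (20 * t ^ 3))
    have J4 := J3.add ((I 2 4).const_mul (15 * t ^ 4))
    have J5 := J4.add ((I 1 5).const_mul (6 * t ^ 5))
    rw [integral_add, integral_add, integral_add, integral_add, integral_add, integral_add,
      integral_const_mul, integral_const_mul, integral_const_mul, integral_const_mul,
      integral_const_mul, integral_const_mul]
    · exact I 6 0
    · exact (I 5 1).const_mul _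
    · exact J1
    · exact (I 4 2).const_mul _
    · exact J2
    · exact (I 3 3).const_mul _
    · exact J3
    · exact (I 2 4).const_mul _
    · exact J4
    · exact (I 1 5).const_mul _
    · exact J5
    · exact (I 0 6).const_mul _
  have s2 : smo n 2 = 3 / ((n : ℝ) * (n + 2)) := by
    simp only [smo, Finset.prod_range_succ, Finset.prod_range_zero]
    push_cast
    field_simp
    ring
  have s3 : smo n 3 = 15 / ((n : ℝ) * (n + 2) * (n + 4)) := by
    simp only [smo, Finset.prod_range_succ, Finset.prod_range_zero]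
    push_cast
    field_simp
    ring
  have a4 : M 4 0 = smo n 2 := hMa 2
  have b4 : M 0 4 = smo n 2 := hMb 2
  have a6 : M 6 0 = smo n 3 := hMa 3
  have b6 : M 0 6 = smo n 3 := hMb 3
  have g1 := h4 1
  have g2 := h4 (-1)
  have k1 := h6 1
  have k2 := h6 (-1)
  have k3 := h6 2
  have k4 := h6 (-2)
  have r1 : M 2 2 = smo n 2 / 3 := by
    rw [a4, b4] at g1 g2
    linarith
  have r2 : M 4 2 = smo n 3 / 5 := by
    rw [a6, b6] at k1 k2 k3 k4
    linarith
  constructor
  · show M 2 2 = _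
    rw [r1, s2]
    field_simp
  · show M 4 2 = _
    rw [r2, s3]
    field_simp
    ring

end PPX
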