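import Pool.Agent.PPX.Stmts

/-!
# Squad PPX (MP_0bf616_gt), module SMB: the moments of the sphere
-/

set_option autoImplicit false

namespace PPX

namespace SMB_

theorem smo_succ (n k : ℕ) :
    smo n (k + 1) = smo n k * ((2 * (k : ℝ) + 1) / ((n : ℝ) + 2 * k)) := by
  rw [smo, smo, Finset.prod_range_succ]

theorem smo_pos {n : ℕ} (hn : 1 ≤ n) (k : ℕ) : 0 < smo n k := by
  rw [smo]
  apply Finset.prod_pos
  intro i _
  have : (1 : ℝ) ≤ n := by exact_mod_cast hn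
  positivity

theorem factor_le {n : ℕ} (hn : 1 ≤ n) (k : ℕ) :
    (2 * (k : ℝ) + 1) / ((n : ℝ) + 2 * k) ≤ 1 := by
  have h1 : (1 : ℝ) ≤ n := by exact_mod_cast hn
  rw [div_le_one (by positivity)]
  linarith

theorem smo_succ_le {n : ℕ} (hn : 1 ≤ n) (k : ℕ) : smo n (k + 1) ≤ smo n k := by
  rw [smo_succ]
  exact mul_le_of_le_one_right (smo_pos hn k).le (factor_le hn k)

theorem smo_le_one {n : ℕ} (hn : 1 ≤ n) (k : ℕ) : smo n k ≤ 1 := by
  induction k with
  | zero => simp [smo]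
  | succ k ih => exact (smo_succ_le hn k).trans ih

theorem smo_mul_pow {n : ℕ} (hn : 1 ≤ n) (k : ℕ) :
    smo n k * (n : ℝ) ^ k ≤ (2 * k).factorial := by
  have h1 : (1 : ℝ) ≤ n := by exact_mod_cast hn
  induction k with
  | zero => simp [smo]
  | succ k ih =>
    have h2 : smo n (k + 1) * (n : ℝ) ^ (k + 1) =
        (smo n k * (n : ℝ) ^ k) * ((2 * (k : ℝ) + 1) * ((n : ℝ) / ((n : ℝ) + 2 * k))) := by
      rw [smo_succ]; ring
    have h3 : (n : ℝ) / ((n : ℝ) + 2 * k) ≤ 1 := by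
      rw [div_le_one (by positivity)]
      have : (0 : ℝ) ≤ k := by positivity
      linarith
    have h4 : (0 : ℝ) ≤ (n : ℝ) / ((n : ℝ) + 2 * k) := by positivity
    have h5 : (2 * (k : ℝ) + 1) * ((n : ℝ) / ((n : ℝ) + 2 * k)) ≤
        (2 * (k : ℝ) + 2) * (2 * (k : ℝ) + 1) := by
      have h6 : (0 : ℝ) ≤ k := by positivity
      calc (2 * (k : ℝ) + 1) * ((n : ℝ) / ((n : ℝ) + 2 * k))
          ≤ (2 * (k : ℝ) + 1) * 1 := by
            apply mul_le_mul_of_nonneg_left h3; positivity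
        _ ≤ (2 * (k : ℝ) + 2) * (2 * (k : ℝ) + 1) := by nlinarith
    rw [h2]
    have h7 : ((2 * (k + 1)).factorial : ℝ) =
        ((2 * k).factorial : ℝ) * ((2 * (k : ℝ) + 2) * (2 * (k : ℝ) + 1)) := by
      have : 2 * (k + 1) = (2 * k + 1) + 1 := by ring
      rw [this, Nat.factorial_succ, Nat.factorial_succ]
      push_cast
      ring
    rw [h7]
    have h8 : (0 : ℝ) ≤ (2 * (k : ℝ) + 1) * ((n : ℝ) / ((n : ℝ) + 2 * k)) := by positivity
    exact mul_le_mul ih h5 h8 (by positivity)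

theorem bound {n : ℕ} (hn : 12 ≤ n) (N : ℕ) :
    smo n (N + 3) * (((N : ℝ) + 4) * (N + 5) * (N + 6) * (N + 7) * (N + 8)) ≤
      15 * 6720 / (n : ℝ) ^ 3 := by
  have h1 : (12 : ℝ) ≤ n := by exact_mod_cast hn
  induction N with
  | zero =>
    have h2 : smo n (0 + 3) = 15 / ((n : ℝ) * (n + 2) * (n + 4)) := by
      rw [zero_add, smo]
      simp only [Finset.prod_range_succ, Finset.prod_range_zero]
      push_cast
      field_simp
      ring
    rw [h2]
    push_cast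
    have h3 : 15 / ((n : ℝ) * (n + 2) * (n + 4)) ≤ 15 / (n : ℝ) ^ 3 := by
      apply div_le_div_of_nonneg_left (by norm_num) (by positivity)
      nlinarith
    calc 15 / ((n : ℝ) * (n + 2) * (n + 4)) *
          ((0 + 4) * (0 + 5) * (0 + 6) * (0 + 7) * (0 + 8))
        ≤ 15 / (n : ℝ) ^ 3 * ((0 + 4) * (0 + 5) * (0 + 6) * (0 + 7) * (0 + 8)) := by
          apply mul_le_mul_of_nonneg_right h3 (by norm_num)
      _ = 15 * 6720 / (n : ℝ) ^ 3 := by ring
  | succ N ih =>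
    have h2 : smo n (N + 1 + 3) = smo n (N + 3) *
        ((2 * ((N : ℝ) + 3) + 1) / ((n : ℝ) + 2 * (N + 3))) := by
      have : N + 1 + 3 = (N + 3) + 1 := by ring
      rw [this, smo_succ]
      push_cast
      ring
    have h3 : (2 * ((N : ℝ) + 3) + 1) / ((n : ℝ) + 2 * (N + 3)) * ((N : ℝ) + 9) ≤
        (N : ℝ) + 4 := by
      rw [div_mul_eq_mul_div, div_le_iff₀ (by positivity)]
      have : (0 : ℝ) ≤ N := by positivity
      nlinarith
    have h4 : 0 < smo n (N + 3) := smo_pos (by omega) _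
    have h5 : smo n (N + 1 + 3) * ((((N + 1 : ℕ) : ℝ) + 4) * (((N + 1 : ℕ) : ℝ) + 5) *
        (((N + 1 : ℕ) : ℝ) + 6) * (((N + 1 : ℕ) : ℝ) + 7) * (((N + 1 : ℕ) : ℝ) + 8)) =
        smo n (N + 3) * (((N : ℝ) + 5) * (N + 6) * (N + 7) * (N + 8)) *
          ((2 * ((N : ℝ) + 3) + 1) / ((n : ℝ) + 2 * (N + 3)) * ((N : ℝ) + 9)) := by
      rw [h2]
      push_cast
      ring
    rw [h5]
    calc smo n (N + 3) * (((N : ℝ) + 5) * (N + 6) * (N + 7) * (N + 8)) *
          ((2 * ((N : ℝ) + 3) + 1) / ((n : ℝ) + 2 * (N + 3)) * ((N : ℝ) + 9))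
        ≤ smo n (N + 3) * (((N : ℝ) + 5) * (N + 6) * (N + 7) * (N + 8)) * ((N : ℝ) + 4) := by
          apply mul_le_mul_of_nonneg_left h3; positivity
      _ = smo n (N + 3) * (((N : ℝ) + 4) * (N + 5) * (N + 6) * (N + 7) * (N + 8)) := by ring
      _ ≤ 15 * 6720 / (n : ℝ) ^ 3 := ih

end SMB_

theorem smb_proof : Stmt_SMB := by
  refine ⟨fun n k hn => ⟨SMB_.smo_pos hn k, SMB_.smo_le_one hn k, SMB_.smo_succ_le hn k,
    SMB_.smo_mul_pow hn k⟩, 15 * 6720, by norm_num, ?_⟩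
  intro n N hn hN
  obtain ⟨M, rfl⟩ := Nat.exists_eq_add_of_le' hN
  have h1 := SMB_.bound hn M
  have h2 : 0 < smo n (M + 3) := SMB_.smo_pos (by omega) _
  have hn0 : (0 : ℝ) < n := by
    have : 0 < n := by omega
    exact_mod_cast this
  have hM : (0 : ℝ) ≤ M := by positivity
  rw [le_div_iff₀ (by positivity)]
  refine le_trans ?_ h1
  apply mul_le_mul_of_nonneg_left _ h2.le
  push_cast
  have h3 : ((M : ℝ) + 3) ^ 5 =
      ((M : ℝ) + 3) * (M + 3) * (M + 3) * (M + 3) * (M + 3) := by ring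
  rw [h3]
  have h4 : (0 : ℝ) ≤ (M : ℝ) + 3 := by positivity
  apply mul_le_mul _ (by linarith) h4 (by positivity)
  apply mul_le_mul _ (by linarith) h4 (by positivity)
  apply mul_le_mul _ (by linarith) h4 (by positivity)
  apply mul_le_mul (by linarith) (by linarith) h4 (by positivity)

end PPX
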