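import Pool.Agent.PPX.Stmts

/-!
# Squad PPX, module SMM: the even moments of the sphere
-/

set_option autoImplicit false

namespace PPX

open MeasureTheory Set Filter Topology
open PPI PPG

namespace SMM

variable {n : ℕ}

theorem kap_pos (n : ℕ) : 0 < kap n := by
  unfold kap vl Bn
  rw [ENNReal.toReal_pos_iff]
  exact ⟨Metric.measure_closedBall_pos volume _ one_pos, measure_closedBall_lt_top⟩

/-- the coisometry `x ↦ ⟨e, x⟩` -/
noncomputable def Ae (e : EE n) : EE n →L[ℝ] EE 1 :=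
  (innerSL ℝ e).smulRight (EuclideanSpace.single (0 : Fin 1) (1 : ℝ))

theorem Ae_apply (e x : EE n) :
    Ae e x = (inner ℝ e x : ℝ) • (EuclideanSpace.single (0 : Fin 1) (1 : ℝ) : EE 1) := by
  simp [Ae]

theorem norm_Ae (e x : EE n) : ‖Ae e x‖ = |inner ℝ e x| := by
  rw [Ae_apply, norm_smul]
  simp

theorem coi (e : EE n) (he : ‖e‖ = 1) : PPF.Coi (Ae e) := by
  unfold PPF.Coi
  ext y i
  rw [ContinuousLinearMap.comp_apply, Ae_apply, ContinuousLinearMap.adjoint_inner_right, Ae_apply]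
  have h1 : inner ℝ e e = (1 : ℝ) := by rw [real_inner_self_eq_norm_sq, he, one_pow]
  rw [h1, one_smul]
  fin_cases i
  simp [PiLp.inner_apply]

theorem prod_eq (n k : ℕ) (hn : 1 ≤ n) :
    ((n : ℝ) + 2 * k) / n * ∏ i ∈ Finset.range k, (((1 : ℕ) : ℝ) + 2 * i) / ((n : ℝ) + 2 + 2 * i) =
      smo n k := by
  have hn' : (0 : ℝ) < n := by exact_mod_cast hn
  induction k with
  | zero => simp [smo, hn'.ne']
  | succ k ih =>
    have h1 : (0 : ℝ) < (n : ℝ) + 2 * k := by positivity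
    have h2 : (0 : ℝ) < (n : ℝ) + 2 + 2 * k := by positivity
    unfold smo at ih ⊢
    rw [Finset.prod_range_succ, Finset.prod_range_succ, ← ih]
    push_cast
    field_simp
    ring

end SMM

open SMM in
theorem smm_proof (hSPH : Stmt_SPH) (hBMX : PPG.Stmt_BMX) : Stmt_SMM := by
  intro n k a hn
  obtain ⟨hprob, hnorm, -, -, h5, -⟩ := hSPH n hn
  have hn' : (0 : ℝ) < n := by exact_mod_cast hn
  have hk := kap_pos n
  -- normalisation
  obtain ⟨e, he, hae⟩ : ∃ e : EE n, ‖e‖ = 1 ∧ a = ‖a‖ • e := by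
    by_cases ha : a = 0
    · refine ⟨EuclideanSpace.single (⟨0, hn⟩ : Fin n) (1 : ℝ), by simp, ?_⟩
      rw [ha, norm_zero, zero_smul]
    · refine ⟨(‖a‖)⁻¹ • a, ?_, ?_⟩
      · rw [norm_smul, norm_inv, norm_norm, inv_mul_cancel₀ (norm_ne_zero_iff.mpr ha)]
      · rw [smul_smul, mul_inv_cancel₀ (norm_ne_zero_iff.mpr ha), one_smul]
  have key : ∫ v, (inner ℝ e v) ^ (2 * k) ∂(sph n) = smo n k := by
    -- the two integrals
    have hB := hBMX n 1 k (Ae e) le_rfl hn (coi e he)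
    have hnA : ∀ x : EE n, ‖Ae e x‖ ^ (2 * k) = (inner ℝ e x) ^ (2 * k) := by
      intro x
      rw [norm_Ae, pow_mul, sq_abs, ← pow_mul]
    rw [show (fun x : EE n => ‖Ae e x‖ ^ (2 * k)) = fun x => (inner ℝ e x) ^ (2 * k) from
      funext hnA] at hB
    have hcont : Continuous fun x : EE n => (inner ℝ e x : ℝ) ^ (2 * k) := by fun_prop
    have hL := h5 (fun v => ENNReal.ofReal ((inner ℝ e v) ^ (2 * k))) (2 * k)
      (by fun_prop)
    have e1 : ∀ x : EE n, ENNReal.ofReal (‖x‖ ^ (2 * k)) *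
        ENNReal.ofReal ((inner ℝ e ((‖x‖)⁻¹ • x)) ^ (2 * k)) =
        ENNReal.ofReal ((inner ℝ e x) ^ (2 * k)) := by
      intro x
      rw [← ENNReal.ofReal_mul (by positivity), ← mul_pow, inner_smul_right]
      congr 2
      by_cases hx : x = 0
      · rw [hx]; simp
      · rw [← mul_assoc, mul_inv_cancel₀ (norm_ne_zero_iff.mpr hx), one_mul]
    rw [lintegral_congr e1] at hL
    have hpos : ∀ x : EE n, 0 ≤ (inner ℝ e x : ℝ) ^ (2 * k) := fun x => by
      rw [pow_mul]; positivity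
    have e2 : ∫ x in Bn n, (inner ℝ e x : ℝ) ^ (2 * k) =
        (∫⁻ x in Bn n, ENNReal.ofReal ((inner ℝ e x) ^ (2 * k))).toReal :=
      integral_eq_lintegral_of_nonneg_ae (ae_of_all _ hpos) hcont.aestronglyMeasurable
    have e3 : ∫ v, (inner ℝ e v : ℝ) ^ (2 * k) ∂(sph n) =
        (∫⁻ v, ENNReal.ofReal ((inner ℝ e v) ^ (2 * k)) ∂(sph n)).toReal :=
      integral_eq_lintegral_of_nonneg_ae (ae_of_all _ hpos) hcont.aestronglyMeasurable
    rw [hL, ENNReal.toReal_mul, ENNReal.toReal_ofReal (by positivity), ← e3] at e2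
    unfold ave at hB
    rw [e2] at hB
    rw [← prod_eq n k hn, ← hB]
    push_cast
    field_simp
  have e4 : ∀ v : EE n, (inner ℝ a v : ℝ) ^ (2 * k) = ‖a‖ ^ (2 * k) * (inner ℝ e v) ^ (2 * k) := by
    intro v
    conv_lhs => rw [hae]
    rw [inner_smul_left, mul_pow]
    simp
  rw [show (fun v : EE n => (inner ℝ a v : ℝ) ^ (2 * k)) =
    fun v => ‖a‖ ^ (2 * k) * (inner ℝ e v) ^ (2 * k) from funext e4, integral_const_mul, key]
  ring

end PPX
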