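import Pool.Agent.PPX.Stmts

/-!
# Squad PPX, module SPH: the uniform measure of the sphere
-/

set_option autoImplicit false

namespace PPX

open MeasureTheory Set Filter Topology
open PPI PPG
open scoped Pointwise ENNReal

namespace SPH_

variable {n : ℕ}

theorem lintegral_volumeIoiPow (m : ℕ) (f : ℝ → ℝ≥0∞) (hf : Measurable f) :
    ∫⁻ r : Ioi (0 : ℝ), f r ∂(Measure.volumeIoiPow m) =
      ∫⁻ r in Ioi (0 : ℝ), ENNReal.ofReal (r ^ m) * f r := by
  rw [Measure.volumeIoiPow, lintegral_withDensity_eq_lintegral_mul]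
  · simp only [Pi.mul_apply]
    exact lintegral_subtype_comap measurableSet_Ioi (fun a : ℝ => ENNReal.ofReal (a ^ m) * f a)
  · exact (measurable_subtype_coe.pow_const _).ennreal_ofReal
  · exact hf.comp measurable_subtype_coe

/-- polar coordinates -/
theorem polar (hn : 1 ≤ n) (F : EE n → ℝ≥0∞) (hF : Measurable F) :
    ∫⁻ x, F x = ∫⁻ u : Metric.sphere (0 : EE n) 1,
      (∫⁻ r in Ioi (0 : ℝ), ENNReal.ofReal (r ^ (n - 1)) * F (r • (u : EE n)))
        ∂((volume : Measure (EE n)).toSphere) := by
  have : Nonempty (Fin n) := ⟨⟨0, hn⟩⟩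
  have : Nontrivial (EE n) := inferInstance
  have hmp := (volume : Measure (EE n)).measurePreserving_homeomorphUnitSphereProd
  have hdim : Module.finrank ℝ (EE n) = n := by simp
  rw [hdim] at hmp
  have hmp' : MeasurePreserving (homeomorphUnitSphereProd (EE n)).symm
      ((volume : Measure (EE n)).toSphere.prod (Measure.volumeIoiPow (n - 1)))
      ((volume : Measure (EE n)).comap (↑)) :=
    hmp.symm (homeomorphUnitSphereProd (EE n)).toMeasurableEquiv
  calc ∫⁻ x, F x = ∫⁻ x in ({0}ᶜ : Set (EE n)), F x := by rw [restrict_compl_singleton]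
  _ = ∫⁻ x : ({0}ᶜ : Set (EE n)), F x ∂(volume.comap Subtype.val) := by
      rw [lintegral_subtype_comap (measurableSet_singleton _).compl]
  _ = ∫⁻ p : Metric.sphere (0 : EE n) 1 × Ioi (0 : ℝ), F ((p.2 : ℝ) • (p.1 : EE n))
        ∂((volume : Measure (EE n)).toSphere.prod (Measure.volumeIoiPow (n - 1))) := by
      rw [← hmp'.lintegral_comp_emb (Homeomorph.measurableEmbedding _)]
      simp
  _ = ∫⁻ u : Metric.sphere (0 : EE n) 1, (∫⁻ r : Ioi (0 : ℝ), F ((r : ℝ) • (u : EE n))
        ∂(Measure.volumeIoiPow (n - 1))) ∂((volume : Measure (EE n)).toSphere) := by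
      rw [lintegral_prod]
      apply Measurable.aemeasurable
      apply hF.comp
      fun_prop
  _ = _ := by
      apply lintegral_congr
      intro u
      apply lintegral_volumeIoiPow (n - 1) (fun r => F (r • (u : EE n)))
      apply hF.comp
      fun_prop

/-- the radial integral -/
theorem rad (m : ℕ) (R : ℝ) (hR : 0 ≤ R) :
    ∫⁻ r in Ioc (0 : ℝ) R, ENNReal.ofReal (r ^ m) = ENNReal.ofReal (R ^ (m + 1) / (m + 1)) := by
  rw [← ofReal_integral_eq_lintegral_ofReal]
  · rw [← intervalIntegral.integral_of_le hR]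
    simp
  · exact (intervalIntegrable_iff_integrableOn_Ioc_of_le hR).mp
      ((continuous_pow m).intervalIntegrable _ _)
  · rw [Filter.EventuallyLE, ae_restrict_iff' measurableSet_Ioc]
    exact Filter.Eventually.of_forall fun x hx => pow_nonneg hx.1.le m

theorem norm_smul_pos {r : ℝ} (hr : 0 < r) (u : Metric.sphere (0 : EE n) 1) :
    ‖r • (u : EE n)‖ = r := by
  rw [norm_smul, norm_eq_of_mem_sphere, mul_one, Real.norm_of_nonneg hr.le]

theorem unit_smul_pos {r : ℝ} (hr : 0 < r) (u : Metric.sphere (0 : EE n) 1) :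
    (‖r • (u : EE n)‖)⁻¹ • (r • (u : EE n)) = (u : EE n) := by
  rw [norm_smul_pos hr, smul_smul, inv_mul_cancel₀ hr.ne', one_smul]

/-- the radial integral over the unit ball -/
theorem ballInt (hn : 1 ≤ n) (f : EE n → ℝ≥0∞) (q : ℕ) (hf : Measurable f) :
    ∫⁻ x in Bn n, ENNReal.ofReal (‖x‖ ^ q) * f ((‖x‖)⁻¹ • x) =
      ENNReal.ofReal (1 / (n + q)) *
        ∫⁻ u : Metric.sphere (0 : EE n) 1, f u ∂((volume : Measure (EE n)).toSphere) := by
  have hmeas : Measurable fun x : EE n => ENNReal.ofReal (‖x‖ ^ q) * f ((‖x‖)⁻¹ • x) := by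
    apply Measurable.mul
    · fun_prop
    · apply hf.comp
      fun_prop
  have hB : MeasurableSet (Bn n) := Metric.isClosed_closedBall.measurableSet
  rw [← lintegral_indicator hB, polar hn _ (hmeas.indicator hB), ← lintegral_const_mul]
  · apply lintegral_congr
    intro u
    have h1 : ∀ r ∈ Ioi (0 : ℝ), ENNReal.ofReal (r ^ (n - 1)) *
        (Bn n).indicator (fun x : EE n => ENNReal.ofReal (‖x‖ ^ q) * f ((‖x‖)⁻¹ • x))
          (r • (u : EE n)) =
        (Ioc (0 : ℝ) 1).indicator (fun r : ℝ => ENNReal.ofReal (r ^ (n - 1 + q)) * f u) r := by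
      intro r hr
      have hr0 : (0 : ℝ) < r := hr
      by_cases h : r ≤ 1
      · rw [indicator_of_mem, indicator_of_mem (show r ∈ Ioc (0 : ℝ) 1 from ⟨hr0, h⟩),
          unit_smul_pos hr0, norm_smul_pos hr0, ← mul_assoc, ← ENNReal.ofReal_mul (by positivity),
          ← pow_add]
        rw [Bn, mem_closedBall_zero_iff, norm_smul_pos hr0]
        exact h
      · rw [indicator_of_notMem, indicator_of_notMem (fun h' => h h'.2), mul_zero]
        rw [Bn, mem_closedBall_zero_iff, norm_smul_pos hr0]
        exact h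
    rw [setLIntegral_congr_fun measurableSet_Ioi h1, lintegral_indicator measurableSet_Ioc,
      Measure.restrict_restrict measurableSet_Ioc,
      inter_eq_left.mpr (fun r hr => hr.1), lintegral_mul_const _ (by fun_prop),
      rad _ _ zero_le_one]
    congr 2
    rw [one_pow]
    congr 1
    push_cast [Nat.cast_sub hn]
    ring
  · exact hf.comp measurable_subtype_coe

theorem kap_pos' (hA : PPI.Stmt_AVE) (hn : 1 ≤ n) : 0 < kap n := (hA n hn).1

theorem ofReal_kap : ENNReal.ofReal (kap n) = volume (Bn n) := by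
  rw [kap, vl, ENNReal.ofReal_toReal]
  exact (isCompact_closedBall (0 : EE n) 1).measure_ne_top

theorem measurable_unit : Measurable fun x : EE n => (‖x‖)⁻¹ • x := by
  fun_prop

/-- the integral with respect to `sph` -/
theorem sph_int (f : EE n → ℝ≥0∞) (hf : Measurable f) :
    ∫⁻ v, f v ∂(sph n) = (ENNReal.ofReal (kap n))⁻¹ * ∫⁻ x in Bn n, f ((‖x‖)⁻¹ • x) := by
  rw [sph, lintegral_smul_measure, lintegral_map hf measurable_unit, smul_eq_mul]

theorem sph_int' (hn : 1 ≤ n) (hk : 0 < kap n) (f : EE n → ℝ≥0∞) (hf : Measurable f) :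
    ∫⁻ u : Metric.sphere (0 : EE n) 1, f u ∂((volume : Measure (EE n)).toSphere) =
      ENNReal.ofReal (kap n * n) * ∫⁻ v, f v ∂(sph n) := by
  have h := ballInt hn f 0 hf
  simp only [pow_zero, ENNReal.ofReal_one, one_mul] at h
  rw [sph_int f hf, h, ← mul_assoc, ← mul_assoc]
  have hn0 : (0 : ℝ) < n := by exact_mod_cast hn
  have h2 : ENNReal.ofReal (kap n * n) * (ENNReal.ofReal (kap n))⁻¹ *
      ENNReal.ofReal (1 / (n + (0 : ℕ))) = 1 := by
    rw [← ENNReal.ofReal_inv_of_pos hk, ← ENNReal.ofReal_mul (by positivity),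
      ← ENNReal.ofReal_mul (by positivity), ← ENNReal.ofReal_one]
    congr 1
    push_cast
    field_simp
    ring
  rw [h2, one_mul]

end SPH_

open SPH_ in
theorem sph_proof (hA : PPI.Stmt_AVE) : Stmt_SPH := by
  intro n hn
  have hk : 0 < kap n := (hA n hn).1
  have : Nonempty (Fin n) := ⟨⟨0, hn⟩⟩
  have : Nontrivial (EE n) := inferInstance
  have hn0 : (0 : ℝ) < n := by exact_mod_cast hn
  have hB : MeasurableSet (Bn n) := Metric.isClosed_closedBall.measurableSet
  have hk0 : ENNReal.ofReal (kap n) ≠ 0 := by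
    rw [ne_eq, ENNReal.ofReal_eq_zero, not_le]
    exact hk
  refine ⟨⟨?_⟩, ?_, ?_, ?_, ?_, ?_⟩
  · rw [sph, Measure.smul_apply, Measure.map_apply measurable_unit MeasurableSet.univ,
      preimage_univ, Measure.restrict_apply_univ, smul_eq_mul, ← ofReal_kap]
    exact ENNReal.inv_mul_cancel hk0 ENNReal.ofReal_ne_top
  · rw [sph]
    apply Measure.ae_smul_measure
    rw [ae_map_iff measurable_unit.aemeasurable]
    · apply ae_restrict_of_ae
      have h0 : ∀ᵐ x : EE n, x ≠ 0 := by
        rw [ae_iff]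
        simp
      filter_upwards [h0] with x hx
      rw [norm_smul, norm_inv, norm_norm, inv_mul_cancel₀ (norm_ne_zero_iff.mpr hx)]
    · exact measurableSet_eq_fun measurable_norm measurable_const
  · intro g
    have hg : Measurable g := g.continuous.measurable
    rw [sph, Measure.map_smul, Measure.map_map hg measurable_unit]
    congr 1
    have h1 : (g ∘ fun x : EE n => (‖x‖)⁻¹ • x) = (fun x : EE n => (‖x‖)⁻¹ • x) ∘ g := by
      funext x
      simp
    rw [h1, ← Measure.map_map measurable_unit hg]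
    congr 1
    have h2 : MeasurePreserving g (volume.restrict (g ⁻¹' (Bn n))) (volume.restrict (Bn n)) :=
      g.measurePreserving.restrict_preimage hB
    have h3 : g ⁻¹' (Bn n) = Bn n := by
      ext x
      simp [Bn]
    rw [h3] at h2
    exact h2.map_eq
  · intro r hr hr0
    have hmeas : MeasurableSet {x : EE n | x ≠ 0 ∧ ‖x‖ ≤ r ((‖x‖)⁻¹ • x)} := by
      apply MeasurableSet.inter
      · exact (measurableSet_singleton (0 : EE n)).compl
      · exact measurableSet_le measurable_norm (hr.comp measurable_unit)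
    rw [← lintegral_indicator_one hmeas, polar hn _ (measurable_one.indicator hmeas)]
    have h1 : ∀ u : Metric.sphere (0 : EE n) 1,
        (∫⁻ ρ in Ioi (0 : ℝ), ENNReal.ofReal (ρ ^ (n - 1)) *
          ({x : EE n | x ≠ 0 ∧ ‖x‖ ≤ r ((‖x‖)⁻¹ • x)}).indicator 1 (ρ • (u : EE n))) =
        ENNReal.ofReal (1 / n) * ENNReal.ofReal (r u ^ n) := by
      intro u
      have h2 : ∀ ρ ∈ Ioi (0 : ℝ), ENNReal.ofReal (ρ ^ (n - 1)) *
          ({x : EE n | x ≠ 0 ∧ ‖x‖ ≤ r ((‖x‖)⁻¹ • x)}).indicator 1 (ρ • (u : EE n)) =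
          (Ioc (0 : ℝ) (r u)).indicator (fun ρ : ℝ => ENNReal.ofReal (ρ ^ (n - 1))) ρ := by
        intro ρ hρ
        have hρ0 : (0 : ℝ) < ρ := hρ
        by_cases h : ρ ≤ r u
        · rw [indicator_of_mem, indicator_of_mem (show ρ ∈ Ioc (0 : ℝ) (r u) from ⟨hρ0, h⟩),
            Pi.one_apply, mul_one]
          refine ⟨?_, ?_⟩
          · rw [← norm_ne_zero_iff, norm_smul_pos hρ0]
            exact hρ0.ne'
          · rw [unit_smul_pos hρ0, norm_smul_pos hρ0]
            exact h
        · rw [indicator_of_notMem, indicator_of_notMem (fun h' => h h'.2), mul_zero]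
          rintro ⟨-, h'⟩
          rw [unit_smul_pos hρ0, norm_smul_pos hρ0] at h'
          exact h h'
      rw [setLIntegral_congr_fun measurableSet_Ioi h2, lintegral_indicator measurableSet_Ioc,
        Measure.restrict_restrict measurableSet_Ioc,
        inter_eq_left.mpr (fun r hr => hr.1), rad _ _ (hr0 _), ← ENNReal.ofReal_mul (by positivity)]
      congr 1
      rw [Nat.sub_add_cancel hn, Nat.cast_sub hn]
      push_cast
      rw [sub_add_cancel]
      ring
    rw [lintegral_congr h1, lintegral_const_mul _ ?_, sph_int' hn hk (fun v => ENNReal.ofReal (r v ^ n)) ?_, ← mul_assoc,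
      ← ENNReal.ofReal_mul (by positivity)]
    · congr 2
      field_simp
    · exact (hr.pow_const n).ennreal_ofReal
    · exact ((hr.comp measurable_subtype_coe).pow_const n).ennreal_ofReal
  · intro f q hf
    rw [ballInt hn f q hf, sph_int' hn hk f hf, ← mul_assoc, ← ENNReal.ofReal_mul (by positivity)]
    congr 2
    ring
  · intro h2 w
    rw [ae_iff]
    have hs : MeasurableSet {v : EE n | ¬ v ≠ w} := by
      have : {v : EE n | ¬ v ≠ w} = {w} := by
        ext v
        simp
      rw [this]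
      exact measurableSet_singleton w
    rw [sph, Measure.smul_apply, Measure.map_apply measurable_unit hs, smul_eq_mul]
    have h3 : (volume.restrict (Bn n)) ((fun x : EE n => (‖x‖)⁻¹ • x) ⁻¹' {v : EE n | ¬ v ≠ w}) = 0 := by
      refine le_antisymm ?_ zero_le
      refine (Measure.restrict_apply_le _ _).trans ?_
      have h4 : volume ((ℝ ∙ w : Submodule ℝ (EE n)) : Set (EE n)) = 0 := by
        apply Measure.addHaar_submodule
        intro htop
        have h5 : Module.finrank ℝ (ℝ ∙ w : Submodule ℝ (EE n)) ≤ 1 := by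
          simpa using finrank_span_le_card (R := ℝ) ({w} : Set (EE n))
        rw [htop, finrank_top] at h5
        simp at h5
        omega
      rw [← h4]
      apply measure_mono
      intro x hx
      simp only [mem_preimage, Set.mem_ofPred_eq, not_not] at hx
      rw [SetLike.mem_coe, Submodule.mem_span_singleton]
      by_cases h0 : x = 0
      · exact ⟨0, by rw [h0, zero_smul]⟩
      · refine ⟨‖x‖, ?_⟩
        rw [← hx, smul_smul, mul_inv_cancel₀ (norm_ne_zero_iff.mpr h0), one_smul]
    rw [h3, mul_zero]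

end PPX
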