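import Pool.Agent.PPX.Stmts

/-!
# Squad PPX (MP_0bf616_gt), module SQR: the mean of `√(1 - ⟨a, v⟩²)` over the sphere
-/

set_option autoImplicit false

namespace PPX

open MeasureTheory Set Filter Topology
open PPI PPG
open scoped Pointwise ENNReal

namespace SQR_

/-- splitting off the first coordinate -/
noncomputable def φe (n : ℕ) : EE (n + 1) ≃ᵐ ℝ × EE n :=
  (MeasurableEquiv.toLp 2 (Fin (n + 1) → ℝ)).symm.trans
    ((MeasurableEquiv.piFinSuccAbove (fun _ : Fin (n + 1) => ℝ) 0).trans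
      ((MeasurableEquiv.refl ℝ).prodCongr (MeasurableEquiv.toLp 2 (Fin n → ℝ))))

theorem φe_fst (n : ℕ) (x : EE (n + 1)) : (φe n x).1 = x 0 := rfl

theorem φe_snd (n : ℕ) (x : EE (n + 1)) (j : Fin n) : (φe n x).2 j = x j.succ := by
  show x ((0 : Fin (n + 1)).succAbove j) = x j.succ
  rw [Fin.zero_succAbove]

theorem φe_mp (n : ℕ) : MeasurePreserving (φe n) volume volume := by
  have h1 := EuclideanSpace.volume_preserving_symm_measurableEquiv_toLp (Fin (n + 1))
  have h2 := volume_preserving_piFinSuccAbove (fun _ : Fin (n + 1) => ℝ) 0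
  have h3 : MeasurePreserving (MeasurableEquiv.toLp 2 (Fin n → ℝ)) volume volume :=
    PiLp.volume_preserving_toLp (Fin n)
  have h4 : MeasurePreserving ((MeasurableEquiv.refl ℝ).prodCongr
      (MeasurableEquiv.toLp 2 (Fin n → ℝ))) volume volume :=
    (MeasurePreserving.id (volume : Measure ℝ)).prod h3
  exact (h4.comp h2).comp h1

theorem norm_sq (n : ℕ) (x : EE (n + 1)) :
    ‖x‖ ^ 2 = (φe n x).1 ^ 2 + ‖(φe n x).2‖ ^ 2 := by
  rw [EuclideanSpace.norm_sq_eq, EuclideanSpace.norm_sq_eq, Fin.sum_univ_succ, φe_fst]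
  simp only [φe_snd, Real.norm_eq_abs, sq_abs]

theorem mem_Bn {n : ℕ} (x : EE n) : x ∈ Bn n ↔ ‖x‖ ^ 2 ≤ 1 := by
  unfold Bn
  rw [mem_closedBall_zero_iff]
  constructor
  · intro h
    nlinarith [norm_nonneg x]
  · intro h
    nlinarith [norm_nonneg x]

theorem vol_slice (s : ℝ) (hs : s ≤ 1) :
    volume {t : ℝ | t ^ 2 + s ≤ 1} = ENNReal.ofReal (2 * √(1 - s)) := by
  have : {t : ℝ | t ^ 2 + s ≤ 1} = Icc (-√(1 - s)) (√(1 - s)) := by
    ext t
    rw [mem_ofPred_eq, mem_Icc, ← abs_le]
    constructor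
    · intro h
      exact Real.abs_le_sqrt (by linarith)
    · intro h
      have h2 := pow_le_pow_left₀ (abs_nonneg t) h 2
      rw [sq_abs, Real.sq_sqrt (by linarith)] at h2
      linarith
  rw [this, Real.volume_Icc]
  congr 1
  ring

theorem slice (m : ℕ) (f : ℝ → ℝ≥0∞) (hf : Measurable f) :
    ∫⁻ x in Bn (m + 1), f ‖(φe m x).2‖ =
      ∫⁻ y in Bn m, f ‖y‖ * ENNReal.ofReal (2 * √(1 - ‖y‖ ^ 2)) := by
  set S : Set (ℝ × EE m) := {z | z.1 ^ 2 + ‖z.2‖ ^ 2 ≤ 1} with hS
  have hSm : MeasurableSet S := by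
    apply measurableSet_le
    · fun_prop
    · fun_prop
  have hBm : MeasurableSet (Bn m) := measurableSet_closedBall
  have hBm1 : MeasurableSet (Bn (m + 1)) := measurableSet_closedBall
  have hF : Measurable (S.indicator fun z : ℝ × EE m => f ‖z.2‖) := by
    apply Measurable.indicator _ hSm
    exact hf.comp (measurable_norm.comp measurable_snd)
  calc ∫⁻ x in Bn (m + 1), f ‖(φe m x).2‖
      = ∫⁻ x, (S.indicator fun z : ℝ × EE m => f ‖z.2‖) (φe m x) := by
        rw [← lintegral_indicator hBm1]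
        refine lintegral_congr fun x => ?_
        by_cases hx : x ∈ Bn (m + 1)
        · rw [indicator_of_mem hx, indicator_of_mem]
          rw [hS, mem_ofPred_eq, ← norm_sq]
          exact (mem_Bn x).1 hx
        · rw [indicator_of_notMem hx, indicator_of_notMem]
          rw [hS, mem_ofPred_eq, ← norm_sq]
          exact fun h => hx ((mem_Bn x).2 h)
    _ = ∫⁻ z : ℝ × EE m, (S.indicator fun z : ℝ × EE m => f ‖z.2‖) z :=
        (φe_mp m).lintegral_comp hF
    _ = ∫⁻ y : EE m, ∫⁻ t : ℝ, (S.indicator fun z : ℝ × EE m => f ‖z.2‖) (t, y) := by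
        rw [Measure.volume_eq_prod]
        exact lintegral_prod_symm' _ hF
    _ = ∫⁻ y in Bn m, f ‖y‖ * ENNReal.ofReal (2 * √(1 - ‖y‖ ^ 2)) := by
        rw [← lintegral_indicator hBm]
        refine lintegral_congr fun y => ?_
        have h1 : ∀ t : ℝ, (S.indicator fun z : ℝ × EE m => f ‖z.2‖) (t, y) =
            ({t : ℝ | t ^ 2 + ‖y‖ ^ 2 ≤ 1}.indicator fun _ => f ‖y‖) t := by
          intro t
          by_cases ht : t ^ 2 + ‖y‖ ^ 2 ≤ 1
          · rw [indicator_of_mem (by exact ht), indicator_of_mem (by exact ht)]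
          · rw [indicator_of_notMem (by exact ht), indicator_of_notMem (by exact ht)]
        simp_rw [h1]
        have hm : MeasurableSet {t : ℝ | t ^ 2 + ‖y‖ ^ 2 ≤ 1} := by
          apply measurableSet_le
          · fun_prop
          · fun_prop
        rw [lintegral_indicator hm, setLIntegral_const]
        by_cases hy : y ∈ Bn m
        · rw [indicator_of_mem hy, vol_slice _ ((mem_Bn y).1 hy)]
        · rw [indicator_of_notMem hy]
          have : {t : ℝ | t ^ 2 + ‖y‖ ^ 2 ≤ 1} = ∅ := by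
            ext t
            simp only [mem_ofPred_eq, mem_empty_iff_false, iff_false]
            intro h
            apply hy
            rw [mem_Bn]
            nlinarith [sq_nonneg t]
          rw [this, measure_empty, mul_zero]

theorem ball_real (m : ℕ) : volume.real (Metric.ball (0 : EE m) 1) = kap m := by
  unfold kap vl Bn Measure.real
  rw [Measure.addHaar_unitClosedBall_eq_addHaar_unitBall]

/-- radial integrals over the ball -/
theorem radial (m : ℕ) (hm : 1 ≤ m) (g : ℝ → ℝ) (hg : Measurable g) (hg0 : ∀ r, 0 ≤ g r) :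
    (∫⁻ y in Bn m, ENNReal.ofReal (g ‖y‖)).toReal =
      m * kap m * ∫ r in Ioi (0 : ℝ), r ^ (m - 1) * (Iic (1 : ℝ)).indicator g r := by
  have : Nonempty (Fin m) := ⟨⟨0, by omega⟩⟩
  have hnt : Nontrivial (EE m) := by
    apply Module.nontrivial_of_finrank_pos (R := ℝ)
    rw [finrank_euclideanSpace, Fintype.card_fin]
    omega
  have hBm : MeasurableSet (Bn m) := measurableSet_closedBall
  have h1 : ∫⁻ y in Bn m, ENNReal.ofReal (g ‖y‖) =
      ∫⁻ y : EE m, ENNReal.ofReal ((Iic (1 : ℝ)).indicator g ‖y‖) := by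
    rw [← lintegral_indicator hBm]
    refine lintegral_congr fun y => ?_
    by_cases hy : y ∈ Bn m
    · rw [indicator_of_mem hy, indicator_of_mem]
      simpa [Bn] using hy
    · rw [indicator_of_notMem hy, indicator_of_notMem, ENNReal.ofReal_zero]
      simpa [Bn] using hy
  have hgi : Measurable ((Iic (1 : ℝ)).indicator g) := hg.indicator measurableSet_Iic
  rw [h1, ← integral_eq_lintegral_of_nonneg_ae, integral_fun_norm_addHaar, ball_real,
    finrank_euclideanSpace, Fintype.card_fin]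
  · simp only [smul_eq_mul, nsmul_eq_mul]
    ring
  · exact Eventually.of_forall fun y => indicator_nonneg (fun r _ => hg0 r) _
  · exact (hgi.comp measurable_norm).aestronglyMeasurable

theorem kap0_aux : (volume (univ : Set (EE 0))).toReal = 1 := by
  have h := (PiLp.volume_preserving_toLp (Fin 0)).measure_preimage
    (s := univ) MeasurableSet.univ.nullMeasurableSet
  rw [preimage_univ] at h
  rw [← h, volume_pi, Measure.pi_univ]
  simp

theorem kap_zero : kap 0 = 1 := by
  unfold kap vl Bn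
  have : Metric.closedBall (0 : EE 0) 1 = univ := by
    ext x
    simp [Subsingleton.elim x 0]
  rw [this, kap0_aux]

/-- recursion for the volumes of balls -/
theorem kap_succ (m : ℕ) : kap (m + 2) = 2 * Real.pi * kap m / (m + 2) := by
  have hform : ∀ k : ℕ, kap k = √Real.pi ^ k / Real.Gamma ((k : ℝ) / 2 + 1) := by
    intro k
    rcases Nat.eq_zero_or_pos k with rfl | hk
    · unfold kap vl Bn
      have : Metric.closedBall (0 : EE 0) 1 = univ := by
        ext x
        simp [Subsingleton.elim x 0]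
      rw [this, kap0_aux]
      simp
    · have : Nonempty (Fin k) := ⟨⟨0, hk⟩⟩
      unfold kap vl Bn
      rw [EuclideanSpace.volume_closedBall, ENNReal.ofReal_one, one_pow, one_mul,
        ENNReal.toReal_ofReal, Fintype.card_fin]
      have := Real.Gamma_pos_of_pos (show (0 : ℝ) < (Fintype.card (Fin k) : ℝ) / 2 + 1 by positivity)
      positivity
  rw [hform, hform]
  have h1 : ((m + 2 : ℕ) : ℝ) / 2 + 1 = ((m : ℝ) / 2 + 1) + 1 := by push_cast; ring
  have h2 := Real.Gamma_add_one (s := (m : ℝ) / 2 + 1) (by positivity)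
  have h3 : 0 < Real.Gamma ((m : ℝ) / 2 + 1) := Real.Gamma_pos_of_pos (by positivity)
  rw [h1, h2, pow_add, Real.sq_sqrt Real.pi_pos.le]
  field_simp

end SQR_

open SQR_ in
theorem sqr_proof (h1 : Stmt_SPH) (h2 : PPI.Stmt_AVE) : Stmt_SQR := by
  intro n a hn ha
  obtain ⟨m, rfl⟩ : ∃ m, n = m + 1 := ⟨n - 1, by omega⟩
  have hm : 1 ≤ m := by omega
  have hk1 : 0 < kap (m + 1) := (h2 (m + 1) (by omega)).1
  have hk0 : 0 < kap m := (h2 m hm).1
  obtain ⟨-, -, -, -, hS5, -⟩ := h1 (m + 1) (by omega)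
  -- step 1: the left side
  have hJ : ∫ v, √(1 - (inner ℝ a v) ^ 2) ∂(sph (m + 1)) =
      (∫⁻ v, ENNReal.ofReal (√(1 - (inner ℝ a v) ^ 2)) ∂(sph (m + 1))).toReal := by
    apply integral_eq_lintegral_of_nonneg_ae
    · exact Eventually.of_forall fun _ => Real.sqrt_nonneg _
    · apply Measurable.aestronglyMeasurable
      fun_prop
  have hfm : Measurable fun v : EE (m + 1) => ENNReal.ofReal (√(1 - (inner ℝ a v) ^ 2)) := by
    fun_prop
  have h5 := congrArg ENNReal.toReal (hS5 _ 1 hfm)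
  rw [ENNReal.toReal_mul, ← hJ, ENNReal.toReal_ofReal (by positivity)] at h5
  -- step 2: the integrand
  set e : EE (m + 1) := EuclideanSpace.single 0 1 with he
  have hen : ‖e‖ = 1 := by simp [he]
  set g : EE (m + 1) ≃ₗᵢ[ℝ] EE (m + 1) := (ℝ ∙ (a - e))ᗮ.reflection with hg
  have hga : g a = e := Submodule.reflection_sub (by rw [ha, hen])
  have h6 : ∫⁻ x in Bn (m + 1), ENNReal.ofReal (‖x‖ ^ 1) *
      ENNReal.ofReal (√(1 - (inner ℝ a ((‖x‖)⁻¹ • x)) ^ 2)) =
      ∫⁻ x in Bn (m + 1), ENNReal.ofReal ‖(φe m x).2‖ := by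
    have hpt : ∀ x : EE (m + 1), ENNReal.ofReal (‖x‖ ^ 1) *
        ENNReal.ofReal (√(1 - (inner ℝ a ((‖x‖)⁻¹ • x)) ^ 2)) =
        ENNReal.ofReal ‖(φe m (g x)).2‖ := by
      intro x
      rw [← ENNReal.ofReal_mul (by positivity)]
      congr 1
      have e1 : inner ℝ a x = (φe m (g x)).1 := by
        rw [φe_fst, ← g.inner_map_map a x, hga, he, EuclideanSpace.inner_single_left]
        simp
      have e2 := norm_sq m (g x)
      rw [g.norm_map] at e2
      rw [inner_smul_right, e1, pow_one]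
      rcases eq_or_ne x 0 with rfl | hx
      · have : ‖(φe m (g 0)).2‖ = 0 := by
          rw [norm_zero] at e2
          have := sq_nonneg (φe m (g 0)).1
          have := sq_nonneg ‖(φe m (g 0)).2‖
          have h0 : ‖(φe m (g 0)).2‖ ^ 2 = 0 := by nlinarith
          exact pow_eq_zero_iff two_ne_zero |>.1 h0
        rw [this, norm_zero, zero_mul]
      · have hx0 : 0 < ‖x‖ := norm_pos_iff.2 hx
        have e3 : 1 - (‖x‖⁻¹ * (φe m (g x)).1) ^ 2 = (‖(φe m (g x)).2‖ / ‖x‖) ^ 2 := by
          rw [mul_pow, inv_pow, div_pow]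
          field_simp
          linarith
        rw [e3, Real.sqrt_sq (by positivity)]
        field_simp
    simp_rw [hpt]
    have hmp : MeasurePreserving g volume volume := g.measurePreserving
    have hpre : g ⁻¹' (Bn (m + 1)) = Bn (m + 1) := by
      ext x
      simp [Bn]
    have := hmp.setLIntegral_comp_preimage_emb g.toHomeomorph.measurableEmbedding
      (fun x => ENNReal.ofReal ‖(φe m x).2‖) (Bn (m + 1))
    rw [hpre] at this
    exact this
  rw [h6, slice m (fun r => ENNReal.ofReal r) ENNReal.measurable_ofReal] at h5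
  -- step 3: radial integrals
  have h7 : (∫⁻ y in Bn m, ENNReal.ofReal ‖y‖ * ENNReal.ofReal (2 * √(1 - ‖y‖ ^ 2))).toReal =
      m * kap m * ∫ r in Ioi (0 : ℝ), r ^ m * (Iic (1 : ℝ)).indicator
        (fun r => 2 * √(1 - r ^ 2)) r := by
    have h8 := radial m hm (fun r => |r| * (2 * √(1 - r ^ 2))) (by fun_prop)
      (fun r => by positivity)
    have h9 : ∀ y : EE m, ENNReal.ofReal ‖y‖ * ENNReal.ofReal (2 * √(1 - ‖y‖ ^ 2)) =
        ENNReal.ofReal (|‖y‖| * (2 * √(1 - ‖y‖ ^ 2))) := by
      intro y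
      rw [← ENNReal.ofReal_mul (norm_nonneg _), abs_norm]
    simp_rw [h9]
    rw [h8]
    congr 1
    refine setIntegral_congr_fun measurableSet_Ioi fun r hr => ?_
    have hr0 : (0 : ℝ) < r := hr
    by_cases hr1 : r ∈ Iic (1 : ℝ)
    · simp only [indicator_of_mem hr1, abs_of_pos hr0]
      rw [← mul_assoc, ← pow_succ]
      congr 2
      omega
    · simp only [indicator_of_notMem hr1, mul_zero]
  have h10 : kap (m + 2) = ((m + 1 : ℕ) : ℝ) * kap (m + 1) *
      ∫ r in Ioi (0 : ℝ), r ^ m * (Iic (1 : ℝ)).indicator (fun r => 2 * √(1 - r ^ 2)) r := by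
    have h11 := slice (m + 1) (fun _ => 1) measurable_const
    simp only [one_mul] at h11
    have h12 := radial (m + 1) (by omega) (fun r => 2 * √(1 - r ^ 2)) (by fun_prop)
      (fun r => by positivity)
    rw [← h11, setLIntegral_const, one_mul] at h12
    exact h12
  set I := ∫ r in Ioi (0 : ℝ), r ^ m * (Iic (1 : ℝ)).indicator (fun r => 2 * √(1 - r ^ 2)) r
    with hI
  rw [h7] at h5
  obtain ⟨k, rfl⟩ : ∃ k, m = k + 1 := ⟨m - 1, by omega⟩
  have r1 := kap_succ (k + 1)
  have r0 := kap_succ k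
  have hkk : 0 < kap k := by
    rcases Nat.eq_zero_or_pos k with rfl | hk
    · rw [kap_zero]; exact one_pos
    · exact (h2 k hk).1
  unfold mm om
  simp only [Nat.add_sub_cancel, show k + 1 + 1 - 2 = k from rfl]
  generalize (∫ v, √(1 - (inner ℝ a v) ^ 2) ∂(sph (k + 1 + 1))) = J at *
  rw [r1] at h10
  have hpi := Real.pi_pos
  have r0' : kap (k + 1 + 1) = 2 * Real.pi * kap k / (k + 2) := r0
  push_cast at h5 h10 ⊢
  rw [div_eq_iff (by positivity)] at h10
  have hJ0 : J = ((k : ℝ) + 1) * kap (k + 1) * I * (k + 1 + 1 + 1) /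
      (kap (k + 1 + 1) * (k + 1 + 1)) := by
    field_simp
    field_simp at h5
    linarith
  have hI0 : I = 2 * Real.pi * kap (k + 1) / (((k : ℝ) + 1 + 2) * ((k + 1 + 1) * kap (k + 1 + 1))) := by
    field_simp
    field_simp at h10
    linarith
  rw [hJ0, hI0, r0']
  field_simp
  ring

end PPX
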