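import Pool.Agent.PPX.Stmts

/-!
# Squad PPX (MP_0bf616_gt), module SUP: uniform bounds
-/

set_option autoImplicit false

namespace PPX

open MeasureTheory Set Filter Topology
open PPI PPG

namespace SUP_

theorem smo_zero (n : ℕ) : smo n 0 = 1 := by simp [smo]

theorem smo_one (n : ℕ) : smo n 1 = 1 / n := by simp [smo]

theorem ec_zero : ec 0 = -1 := by
  rw [ec, bt]; simp

end SUP_

theorem sup_proof (hTPD : Stmt_TPD) (hSMM : Stmt_SMM) (hMMS : Stmt_MMS) (hBTS : Stmt_BTS)
    (hSMB : Stmt_SMB) (_hSPH : Stmt_SPH) : Stmt_SUP := by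
  intro M hM
  refine ⟨1 + 2 * ((2 * (M + 1)).factorial : ℝ), by positivity, ?_⟩
  intro n ι _ p w δ v hn hIS hδ hT hv
  have hn1 : 1 ≤ n := by omega
  have hn0 : (0 : ℝ) < n := by
    have : 0 < n := by omega
    exact_mod_cast this
  obtain ⟨_, hB2, _, hB4, _⟩ := hBTS
  obtain ⟨hS1, _⟩ := hSMB
  have hs : ∀ i, (inner ℝ (w i) v) ^ 2 ≤ (1 : ℝ) := by
    intro i
    have h1 := abs_real_inner_le_norm (w i) v
    rw [hIS.nrm i, hv, one_mul] at h1
    have h2 := abs_le.1 h1
    nlinarith [h2.1, h2.2]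
  -- the function F
  set F : ℕ → ℝ := fun k => ∑ i, p i * (inner ℝ (w i) v) ^ (2 * k) - smo n k with hF
  have hsum : HasSum (fun k : ℕ => ec k * F k) (mm n - hh p w v) := by
    have h1 : HasSum (fun k : ℕ => ∑ i, p i * (ec k * ((inner ℝ (w i) v) ^ 2) ^ k))
        (∑ i, p i * (-√(1 - (inner ℝ (w i) v) ^ 2))) := by
      apply hasSum_sum
      intro i _
      exact (hB2 _ (sq_nonneg _) (hs i)).mul_left (p i)
    have h2 := h1.sub ((hMMS n hn).1)
    have h3 : (∑ i, p i * (-√(1 - (inner ℝ (w i) v) ^ 2))) - -mm n = mm n - hh p w v := by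
      rw [hh]
      simp only [mul_neg, Finset.sum_neg_distrib]
      ring
    rw [h3] at h2
    have h4 : (fun k : ℕ => (∑ i, p i * (ec k * ((inner ℝ (w i) v) ^ 2) ^ k)) - ec k * smo n k) =
        fun k : ℕ => ec k * F k := by
      funext k
      rw [hF]
      simp only [mul_sub, Finset.mul_sum]
      congr 1
      apply Finset.sum_congr rfl
      intro i _
      rw [← pow_mul]
      ring
    rw [h4] at h2
    exact h2
  have hF0 : F 0 = 0 := by
    rw [hF]
    simp [hIS.psum, SUP_.smo_zero]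
  have hF1 : F 1 = 0 := by
    rw [hF]
    simp only [mul_one]
    have h1 := hIS.iso v
    rw [hv, one_pow] at h1
    rw [SUP_.smo_one, sub_eq_zero, eq_div_iff hn0.ne']
    rw [mul_comm]; exact h1
  have hFk : ∀ k, 2 ≤ k → k ≤ M + 1 → |F k| ≤ δ := by
    intro k hk1 hk2
    have h1 := hTPD n ι p w k (fun _ => v) hn1 (fun i => (hIS.ppos i).le) hIS.psum hIS.nrm
      (fun _ => hv.le)
    have h2 := hT k (Finset.mem_Icc.2 ⟨hk1, hk2⟩)
    simp only [Finset.prod_const, Finset.card_univ, Fintype.card_fin] at h1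
    have h3 := hSMM n k v hn1
    rw [hv, one_pow, mul_one] at h3
    rw [h3] at h1
    have h4 : (∑ i, p i * (inner ℝ v (w i)) ^ (2 * k) - smo n k) = F k := by
      rw [hF]
      simp only [real_inner_comm]
    rw [h4] at h1
    exact abs_le_of_sq_le_sq (h1.trans h2) hδ
  have hsmo : smo n (M + 1) ≤ ((2 * (M + 1)).factorial : ℝ) / (n : ℝ) ^ (M + 1) := by
    rw [le_div_iff₀ (by positivity)]
    exact (hS1 n (M + 1) hn1).2.2.2
  have hanti : ∀ k, M + 1 ≤ k → smo n k ≤ smo n (M + 1) := by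
    intro k hk
    induction k, hk using Nat.le_induction with
    | base => exact le_rfl
    | succ k _ ih => exact ((hS1 n k hn1).2.2.1).trans ih
  have hsm0 : 0 < smo n (M + 1) := (hS1 n (M + 1) hn1).1
  have hall : ∀ k, |F k| ≤ δ + 2 * smo n (M + 1) := by
    intro k
    by_cases h0 : k = 0
    · rw [h0, hF0, abs_zero]; positivity
    by_cases h1 : k = 1
    · rw [h1, hF1, abs_zero]; positivity
    by_cases h2 : k ≤ M + 1
    · exact (hFk k (by omega) h2).trans (by linarith)
    · have h3 : M + 1 ≤ k := by omega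
      have h4 : ∑ i, p i * (inner ℝ (w i) v) ^ (2 * k) ≤
          ∑ i, p i * (inner ℝ (w i) v) ^ (2 * (M + 1)) := by
        apply Finset.sum_le_sum
        intro i _
        apply mul_le_mul_of_nonneg_left _ (hIS.ppos i).le
        rw [pow_mul, pow_mul]
        exact pow_le_pow_of_le_one (sq_nonneg _) (hs i) h3
      have h5 : 0 ≤ ∑ i, p i * (inner ℝ (w i) v) ^ (2 * k) := by
        apply Finset.sum_nonneg
        intro i _
        rw [pow_mul]
        have := (hIS.ppos i).le
        positivity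
      have h6 := hFk (M + 1) (by omega) le_rfl
      have h7 : F (M + 1) = ∑ i, p i * (inner ℝ (w i) v) ^ (2 * (M + 1)) - smo n (M + 1) := rfl
      have h8 : F k = ∑ i, p i * (inner ℝ (w i) v) ^ (2 * k) - smo n k := rfl
      have h9 := hanti k h3
      have h10 := (hS1 n k hn1).1
      have h11 := (abs_le.1 h6).2
      rw [abs_le, h8]
      constructor
      · linarith
      · linarith
  have hec : HasSum (fun k : ℕ => if k = 0 then (0 : ℝ) else ec k) 1 := by
    have h1 := hB2 1 (by norm_num) le_rfl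
    simp only [one_pow, mul_one, sub_self, Real.sqrt_zero, neg_zero] at h1
    have h2 : HasSum (fun k : ℕ => if k = 0 then (-1 : ℝ) else 0) (-1) := by
      exact hasSum_ite_eq 0 (-1 : ℝ)
    have h3 := h1.sub h2
    rw [zero_sub, neg_neg] at h3
    have h4 : (fun k : ℕ => ec k - if k = 0 then (-1 : ℝ) else 0) =
        fun k : ℕ => if k = 0 then (0 : ℝ) else ec k := by
      funext k
      split_ifs with hk
      · rw [hk, SUP_.ec_zero]; ring
      · ring
    rw [h4] at h3
    exact h3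
  have hb := hec.mul_right (δ + 2 * smo n (M + 1))
  rw [one_mul] at hb
  have hfin := hsum.norm_le_of_bounded hb (by
    intro k
    rw [Real.norm_eq_abs, abs_mul]
    split_ifs with hk
    · rw [hk, hF0, abs_zero, mul_zero, zero_mul]
    · rw [abs_of_pos (hB4 k (by omega)).1]
      exact mul_le_mul_of_nonneg_left (hall k) (hB4 k (by omega)).1.le)
  rw [Real.norm_eq_abs, abs_sub_comm] at hfin
  refine hfin.trans ?_
  have h1 : (0 : ℝ) < (n : ℝ) ^ (M + 1) := by positivity
  have h2 : (1 : ℝ) ≤ (2 * (M + 1)).factorial := by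
    exact_mod_cast Nat.one_le_iff_ne_zero.2 (Nat.factorial_ne_zero _)
  have h3 : (0 : ℝ) ≤ 1 / (n : ℝ) ^ (M + 1) := by positivity
  have h4 : ((2 * (M + 1)).factorial : ℝ) / (n : ℝ) ^ (M + 1) =
      ((2 * (M + 1)).factorial : ℝ) * (1 / (n : ℝ) ^ (M + 1)) := by ring
  rw [h4] at hsmo
  nlinarith [mul_nonneg (by linarith : (0 : ℝ) ≤ ((2 * (M + 1)).factorial : ℝ)) hδ]

end PPX
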