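import Pool.Agent.PPX.Stmts

/-!
# Squad PPX (MP_0bf616_gt), module SYF: the symmetrised family
-/

set_option autoImplicit false

namespace PPX

open MeasureTheory Set Filter Topology
open PPI PPG
open scoped Pointwise ENNReal

namespace SYF_

lemma huP {n : ℕ} (u : EE n) (y : hyp u) : inner ℝ u (y : EE n) = 0 :=
  Submodule.mem_orthogonal_singleton_iff_inner_right.1 y.2

lemma norm_le' {n : ℕ} (u : EE n) (y : hyp u) (a : ℝ) :
    ‖(y : EE n)‖ ≤ ‖(y : EE n) + a • u‖ := by
  have h : ‖(y : EE n) + a • u‖ ^ 2 = ‖(y : EE n)‖ ^ 2 + ‖a • u‖ ^ 2 := by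
    rw [norm_add_sq_real, inner_smul_right, real_inner_comm, huP]
    ring
  have h2 : ‖(y : EE n)‖ ^ 2 ≤ ‖(y : EE n) + a • u‖ ^ 2 := by
    rw [h]
    nlinarith [sq_nonneg ‖a • u‖]
  exact le_of_sq_le_sq h2 (norm_nonneg _)

lemma proj_sub {n : ℕ} (K : Set (EE n)) (R : ℝ) (hR : ∀ x ∈ K, ‖x‖ ≤ R) (u : EE n) :
    projSet K u ⊆ Metric.closedBall (0 : hyp u) R := by
  rintro y ⟨a, ha⟩
  rw [mem_closedBall_zero_iff]
  exact (norm_le' u y a).trans (hR _ ha)

lemma ball_ne_top {n : ℕ} (u : EE n) (R : ℝ) :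
    (measureSpaceOfInnerProductSpace (E := ↥(hyp u))).volume
      (Metric.closedBall (0 : hyp u) R) ≠ ⊤ :=
  (measure_closedBall_lt_top (μ := (measureSpaceOfInnerProductSpace (E := ↥(hyp u))).volume)).ne

lemma shadow_mono {n : ℕ} (K K' : Set (EE n)) (hK' : IsCompact K') (h : K ⊆ K') (u : EE n) :
    shadow K u ≤ shadow K' u := by
  obtain ⟨R, hR⟩ := hK'.isBounded.exists_norm_le
  unfold shadow vol
  apply ENNReal.toReal_mono
  · exact ne_top_of_le_ne_top (ball_ne_top u R) (measure_mono (proj_sub K' R hR u))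
  · apply measure_mono
    rintro y ⟨a, ha⟩
    exact ⟨a, h ha⟩

lemma dt_smul {n : ℕ} (c : Fin n → ℝ) (x : Fin n → EE n) :
    dt (fun k => c k • x k) = (∏ k, c k) * dt x := by
  unfold dt
  rw [← Matrix.det_mul_column]
  congr 1

lemma XT_resc {n : ℕ} {ι : Type} [Fintype ι] (a s : ι → ℝ) (u : ι → EE n) (S : ℝ) (hS : 0 < S)
    (hs : ∀ i, 0 < s i) :
    XT (fun i => a i * s i / S) (fun i => (s i)⁻¹ • u i) = (S ^ n)⁻¹ * XT a u := by
  unfold XT
  rw [Finset.mul_sum]
  refine Finset.sum_congr rfl fun f _ => ?_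
  rw [dt_smul (fun k => (s (f k))⁻¹) (fun k => u (f k)), abs_mul]
  have h1 : |∏ k : Fin n, (s (f k))⁻¹| = (∏ k : Fin n, s (f k))⁻¹ := by
    rw [Finset.prod_inv_distrib, abs_inv, abs_of_pos (Finset.prod_pos fun k _ => hs (f k))]
  have h2 : ∏ k : Fin n, (a (f k) * s (f k) / S) =
      (∏ k : Fin n, a (f k)) * (∏ k : Fin n, s (f k)) * (S ^ n)⁻¹ := by
    rw [Finset.prod_div_distrib, Finset.prod_mul_distrib, Finset.prod_const, Finset.card_univ,
      Fintype.card_fin, div_eq_mul_inv]
  have h3 : (∏ k : Fin n, s (f k)) ≠ 0 := (Finset.prod_pos fun k _ => hs (f k)).ne'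
  rw [h1, h2]
  field_simp

lemma vl_isom {n : ℕ} (g : EE n ≃ₗᵢ[ℝ] EE n) (S : Set (EE n)) : vl (g '' S) = vl S := by
  unfold vl
  have h := (g.measurePreserving).measure_preimage_equiv (f := g.toHomeomorph.toMeasurableEquiv)
    (g '' S)
  have h2 : (g.toHomeomorph.toMeasurableEquiv) ⁻¹' (g '' S) = S := by
    ext x
    constructor
    · rintro ⟨y, hy, hyx⟩
      have : y = x := g.injective hyx
      rw [← this]
      exact hy
    · intro hx
      exact ⟨x, hx, rfl⟩
  rw [h2] at h
  rw [h]

end SYF_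

open SYF_ in
theorem syf_proof (hGE4 : Stmt_GE4) (hORB : Stmt_ORB) (hIRQ : Stmt_IRQ) (hSHI : Stmt_SHI)
    (hZON : PPI.Stmt_ZON) (hMON : PPI.Stmt_MON) (_hCNB : Stmt_CNB) (hAVE : PPI.Stmt_AVE) :
    Stmt_SYF := by
  intro n N K v hn hK hIrr hPc hPv hPK
  obtain ⟨ι, hι, a, w, hMK, hsh, -⟩ := hGE4 n N v hn hPc hPv
  have hn1 : 1 ≤ n := by omega
  have hnp : (0 : ℝ) < n := by positivity
  have hk : 0 < kap n := (hAVE n hn1).1
  obtain ⟨m, c, g, hc, hc1, hg, hq2, hq4⟩ := hORB n K ι a w hn1 hK (fun i => (hMK.pos i).le)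
  set V := vl (Pol v) with hV
  have hW : 0 < V ^ (n - 1) := by positivity
  have hs : ∀ i, 0 < ‖w i‖ := fun i => norm_pos_iff.mpr (hMK.ne i)
  set S := ∑ i, a i * ‖w i‖ with hS
  have hPne : (Pol v).Nonempty := ⟨0, fun i => by simp⟩
  have hPconv : Convex ℝ (Pol v) := by
    intro x hx y hy a' b' ha hb hab i
    rw [inner_add_right, inner_smul_right, inner_smul_right]
    have h1 := hx i
    have h2 := hy i
    nlinarith
  have hι1 : Nonempty ι := by
    by_contra hne
    rw [not_nonempty_iff] at hne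
    have h := (hMK.mink (Pol v) (fun _ => 0) hPc hPconv hPne (fun i => hne.elim i)).2
    simp only [Finset.univ_eq_empty, Finset.sum_empty] at h
    rw [zero_pow (by omega)] at h
    have : 0 < (n : ℝ) ^ n * V ^ (n - 1) * V := by positivity
    linarith
  have hSpos : 0 < S := Finset.sum_pos (fun i _ => mul_pos (hMK.pos i) (hs i))
    Finset.univ_nonempty
  -- the big family
  set b : Fin m × ι → ℝ := fun x => c x.1 * a x.2 with hb
  set z : Fin m × ι → EE n := fun x => g x.1 (w x.2) with hz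
  set s : Fin m × ι → ℝ := fun x => ‖w x.2‖ with hsd
  set p : Fin m × ι → ℝ := fun x => b x * s x / S with hp
  set u : Fin m × ι → EE n := fun x => (s x)⁻¹ • z x with hu
  have hsx : ∀ x, 0 < s x := fun x => hs x.2
  have hbx : ∀ x, 0 < b x := fun x => mul_pos (hc x.1) (hMK.pos x.2)
  have hzn : ∀ x, ‖z x‖ = s x := fun x => by
    simp only [hz, hsd]
    exact (g x.1).norm_map _
  have hbs : ∑ x, b x * s x = S := by
    rw [Fintype.sum_prod_type]
    simp only [hb, hsd]
    calc ∑ j, ∑ i, c j * a i * ‖w i‖ = ∑ j, c j * S := by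
          refine Finset.sum_congr rfl fun j _ => ?_
          rw [hS, Finset.mul_sum]
          refine Finset.sum_congr rfl fun i _ => ?_
          ring
      _ = S := by rw [← Finset.sum_mul, hc1, one_mul]
  have hpsum : ∑ x, p x = 1 := by
    simp only [hp]
    rw [← Finset.sum_div, hbs]
    exact div_self hSpos.ne'
  have hVV : V * V ^ (n - 1) = V ^ n := by
    rw [← pow_succ']
    congr 1
    omega
  have hE : 0 < S ^ n / ((n : ℝ) ^ n * V ^ (n - 1) * kap n) := by positivity
  have hIS : IS p u := by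
    refine ⟨fun x => div_pos (mul_pos (hbx x) (hsx x)) hSpos, hpsum, fun x => ?_, fun x => ?_⟩
    · simp only [hu]
      rw [norm_smul, norm_inv, hzn, Real.norm_eq_abs, abs_of_pos (hsx x),
        inv_mul_cancel₀ (hsx x).ne']
    · have e1 := hIRQ n K (Fin m × ι) (fun y => b y / s y) z hn1 hIrr (by
        intro h hh y
        rw [Fintype.sum_prod_type, Fintype.sum_prod_type]
        have h2 := hq2 h hh y
        have e : ∀ y : EE n, ∑ j, ∑ i, b (j, i) / s (j, i) * (inner ℝ (z (j, i)) y) ^ 2 =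
            ∑ j, ∑ i, c j * a i * ((inner ℝ (g j (w i)) y) ^ 2 / ‖w i‖) := by
          intro y
          refine Finset.sum_congr rfl fun j _ => Finset.sum_congr rfl fun i _ => ?_
          simp only [hb, hz, hsd]
          ring
        rw [e, e]
        exact h2) x
      have e2 : ∑ y, p y * (inner ℝ (u y) x) ^ 2 =
          S⁻¹ * ∑ y, b y / s y * (inner ℝ (z y) x) ^ 2 := by
        rw [Finset.mul_sum]
        refine Finset.sum_congr rfl fun y _ => ?_
        simp only [hp, hu]
        rw [real_inner_smul_left]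
        have := (hsx y).ne'
        field_simp
      have e3 : ∑ y, b y / s y * ‖z y‖ ^ 2 = S := by
        rw [← hbs]
        refine Finset.sum_congr rfl fun y _ => ?_
        rw [hzn]
        have := (hsx y).ne'
        field_simp
      rw [e3] at e1
      rw [e2]
      calc (n : ℝ) * (S⁻¹ * ∑ y, b y / s y * (inner ℝ (z y) x) ^ 2)
          = S⁻¹ * (n * ∑ y, b y / s y * (inner ℝ (z y) x) ^ 2) := by ring
        _ = S⁻¹ * (S * ‖x‖ ^ 2) := by rw [e1]
        _ = ‖x‖ ^ 2 := by field_simp
  refine ⟨Fin m × ι, inferInstance, p, u,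
    Real.log (S ^ n / ((n : ℝ) ^ n * V ^ (n - 1) * kap n)), hIS, ?_, ?_, ?_⟩
  · -- Minkowski
    intro L d hL hLc hLn hd
    rw [Real.exp_log hE]
    set T : Fin m → ℝ := fun j => ∑ i, a i * (‖w i‖ * d (j, i)) with hT
    have hTj : ∀ j, 0 ≤ T j ∧ (n : ℝ) ^ n * V ^ (n - 1) * vl L ≤ T j ^ n := by
      intro j
      have h := hMK.mink ((g j).symm '' L) (fun i => ‖w i‖ * d (j, i))
        (hL.image (g j).symm.continuous)
        (hLc.linear_image ((g j).symm.toLinearEquiv : EE n →ₗ[ℝ] EE n)) (hLn.image _) (by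
          rintro i _ ⟨x, hx, rfl⟩
          have h7 := hd (j, i) x hx
          simp only [hu, hsd, hz] at h7
          rw [real_inner_smul_left, inv_mul_le_iff₀ (hs i)] at h7
          have h8 : inner ℝ (w i) ((g j).symm x) = inner ℝ (g j (w i)) x := by
            rw [← (g j).inner_map_map (w i) ((g j).symm x), LinearIsometryEquiv.apply_symm_apply]
          rw [h8]
          exact h7)
      rw [vl_isom] at h
      exact h
    have hpT : ∑ x, p x * d x = S⁻¹ * ∑ j, c j * T j := by
      rw [Fintype.sum_prod_type, Finset.mul_sum]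
      refine Finset.sum_congr rfl fun j _ => ?_
      simp only [hT]
      rw [Finset.mul_sum, Finset.mul_sum]
      refine Finset.sum_congr rfl fun i _ => ?_
      simp only [hp, hb, hsd]
      ring
    have hm : Nonempty (Fin m) := by
      by_contra hne
      rw [not_nonempty_iff] at hne
      rw [Finset.univ_eq_empty, Finset.sum_empty] at hc1
      exact zero_ne_one hc1
    obtain ⟨j, hj⟩ : ∃ j, T j ≤ ∑ j, c j * T j := by
      obtain ⟨j, -, hj⟩ := Finset.exists_min_image Finset.univ T Finset.univ_nonempty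
      refine ⟨j, ?_⟩
      calc T j = ∑ k, c k * T j := by rw [← Finset.sum_mul, hc1, one_mul]
        _ ≤ ∑ k, c k * T k := Finset.sum_le_sum fun k _ =>
            mul_le_mul_of_nonneg_left (hj k (Finset.mem_univ k)) (hc k).le
    refine ⟨?_, ?_⟩
    · rw [hpT]
      exact mul_nonneg (inv_nonneg.mpr hSpos.le)
        (Finset.sum_nonneg fun j _ => mul_nonneg (hc j).le (hTj j).1)
    · have h1 : (n : ℝ) ^ n * V ^ (n - 1) * vl L ≤ (∑ j, c j * T j) ^ n :=
        (hTj j).2.trans (pow_le_pow_left₀ (hTj j).1 hj n)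
      have e3 : (0 : ℝ) < (n : ℝ) ^ n * V ^ (n - 1) := by positivity
      have e4 : ∑ j, c j * T j = S * ∑ x, p x * d x := by
        rw [hpT]
        field_simp
      rw [e4, mul_pow] at h1
      have e5 : kap n * (S ^ n / ((n : ℝ) ^ n * V ^ (n - 1) * kap n)) * (∑ x, p x * d x) ^ n =
          (S ^ n * (∑ x, p x * d x) ^ n) / ((n : ℝ) ^ n * V ^ (n - 1)) := by
        field_simp
      rw [e5, le_div_iff₀ e3]
      linarith
  · -- fourth moments
    intro h hh x
    have e : ∀ x : EE n, ∑ y, p y * (inner ℝ (u y) x) ^ 4 =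
        S⁻¹ * ∑ j, ∑ i, c j * a i * ((inner ℝ (g j (w i)) x) ^ 4 / ‖w i‖ ^ 3) := by
      intro x
      rw [Fintype.sum_prod_type, Finset.mul_sum]
      refine Finset.sum_congr rfl fun j _ => ?_
      rw [Finset.mul_sum]
      refine Finset.sum_congr rfl fun i _ => ?_
      simp only [hp, hb, hsd, hu, hz]
      rw [real_inner_smul_left]
      have := (hs i).ne'
      field_simp
    rw [e, e, hq4 h hh x]
  · -- volume of the projection body
    intro hX
    rw [Real.exp_log hE] at hX
    have hXT : XT p u = (S ^ n)⁻¹ * XT b z := XT_resc b s z S hSpos hsx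
    have hzv := hZON n (Fin m × ι) b z hn1 hbx
    have hsub : zon b z ⊆ projBody K := by
      intro y hy t ht
      have h1 := hy t ht
      have h2 : ∑ x, b x * |inner ℝ (z x) t| = ∑ j, c j * ∑ i, a i * |inner ℝ (w i) ((g j).symm t)| := by
        rw [Fintype.sum_prod_type]
        refine Finset.sum_congr rfl fun j _ => ?_
        rw [Finset.mul_sum]
        refine Finset.sum_congr rfl fun i _ => ?_
        have h8 : inner ℝ (w i) ((g j).symm t) = inner ℝ (g j (w i)) t := by
          rw [← (g j).inner_map_map (w i) ((g j).symm t), LinearIsometryEquiv.apply_symm_apply]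
        simp only [hb, hz]
        rw [h8]
        ring
      have h3 : ∀ j, ∑ i, a i * |inner ℝ (w i) ((g j).symm t)| ≤ 2 * shadow K t := by
        intro j
        have ht' : ‖(g j).symm t‖ = 1 := by rw [(g j).symm.norm_map, ht]
        have h4 := hsh ((g j).symm t) ht'
        have h5 := shadow_mono (Pol v) K hK hPK ((g j).symm t)
        have h6 := hSHI n K (g j) ((g j).symm t) hn1 ht'
        have h7 : (g j) '' K = K := hg j
        rw [h7, LinearIsometryEquiv.apply_symm_apply] at h6
        rw [h6]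
        linarith
      have h9 : ∑ x, b x * |inner ℝ (z x) t| ≤ 2 * shadow K t := by
        rw [h2]
        calc ∑ j, c j * ∑ i, a i * |inner ℝ (w i) ((g j).symm t)|
            ≤ ∑ j, c j * (2 * shadow K t) := Finset.sum_le_sum fun j _ =>
              mul_le_mul_of_nonneg_left (h3 j) (hc j).le
          _ = 2 * shadow K t := by rw [← Finset.sum_mul, hc1, one_mul]
      linarith
    have hvl : vl (zon b z) ≤ vl (projBody K) := by
      unfold vl
      exact ENNReal.toReal_mono ((hMON n hn).1 K hK) (measure_mono hsub)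
    have hfac : (0 : ℝ) < n.factorial := by exact_mod_cast Nat.factorial_pos n
    have h10 : XT b z ≤ n.factorial * vl (projBody K) :=
      hzv.trans (mul_le_mul_of_nonneg_left hvl hfac.le)
    rw [hXT] at hX
    have h11 : S ^ n / ((n : ℝ) ^ n * V ^ (n - 1) * kap n) * ((S ^ n)⁻¹ * XT b z) =
        XT b z / ((n : ℝ) ^ n * V ^ (n - 1) * kap n) := by
      field_simp
    rw [h11, le_div_iff₀ (by positivity)] at hX
    have h12 : X0 n * ((n : ℝ) ^ n * V ^ (n - 1) * kap n) =
        n.factorial * (Pn n * V ^ (n - 1)) := by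
      unfold X0 Pn
      have h13 : kap n ^ (n - 1) = kap n ^ (n - 2) * kap n := by
        rw [← pow_succ]
        congr 1
        omega
      rw [h13]
      field_simp
    rw [h12] at hX
    exact le_of_mul_le_mul_left (hX.trans h10) hfac

end PPX
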