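import Pool.Agent.PPX.Stmts

set_option autoImplicit false

namespace PPX

open MeasureTheory Set Filter Topology
open PPI PPG
open scoped Pointwise ENNReal

theorem tht_proof (h1 : Stmt_RG1) (h4 : Stmt_RG4) : Stmt_THT := by
  obtain ⟨c, n₁, hc, h1⟩ := h1
  obtain ⟨n₂, h4⟩ := h4
  refine ⟨c, max n₁ n₂, hc, ?_⟩
  intro n ι _ p w D q L hn hIS hMI hQB hL hLn hDL hq
  by_cases hD : (n : ℝ) ^ (-13 : ℝ) ≤ D
  · exact h1 n ι p w D q L (le_trans (le_max_left _ _) hn) hIS hMI hQB hL hLn hD hDL hq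
  · exact h4 n ι p w D (le_trans (le_max_right _ _) hn) hIS hMI (lt_of_not_ge hD)

end PPX
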