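import Pool.Agent.PPX.Stmts

/-!
# Squad PPX, module TPD: positivity
-/

set_option autoImplicit false

namespace PPX

open MeasureTheory Set Filter Topology
open PPI PPG

namespace TPD

variable {n : ℕ}

theorem prod_inner {m : ℕ} (y : Fin m → EE n) (v : EE n) :
    ∏ l, inner ℝ (y l) v = ∑ α : Fin m → Fin n, (∏ l, y l (α l)) * ∏ l, v (α l) := by
  have h1 : ∀ l, inner ℝ (y l) v = ∑ a, y l a * v a := by
    intro l
    rw [PiLp.inner_apply]
    exact Finset.sum_congr rfl fun a _ => by
      simp [mul_comm]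
  rw [Finset.prod_congr rfl fun l _ => h1 l, Finset.prod_univ_sum]
  rw [Fintype.piFinset_univ]
  exact Finset.sum_congr rfl fun α _ => Finset.prod_mul_distrib

theorem integrable_prod (hp : IsProbabilityMeasure (sph n)) (hn : ∀ᵐ v ∂(sph n), ‖v‖ = 1)
    {m : ℕ} (α : Fin m → Fin n) : Integrable (fun v : EE n => ∏ l, v (α l)) (sph n) := by
  refine Integrable.of_bound ?_ 1 ?_
  · apply Continuous.aestronglyMeasurable
    fun_prop
  · filter_upwards [hn] with v hv
    rw [Real.norm_eq_abs, Finset.abs_prod]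
    apply Finset.prod_le_one
    · intro l _
      exact abs_nonneg _
    · intro l _
      have := PiLp.norm_apply_le v (α l)
      rw [Real.norm_eq_abs, hv] at this
      exact this

theorem integral_prod_inner (hp : IsProbabilityMeasure (sph n)) (hn : ∀ᵐ v ∂(sph n), ‖v‖ = 1)
    {m : ℕ} (y : Fin m → EE n) :
    ∫ v, ∏ l, inner ℝ (y l) v ∂(sph n) =
      ∑ α : Fin m → Fin n, (∏ l, y l (α l)) * ∫ v, ∏ l, v (α l) ∂(sph n) := by
  have h1 : (fun v : EE n => ∏ l, inner ℝ (y l) v) =
      fun v => ∑ α : Fin m → Fin n, (∏ l, y l (α l)) * ∏ l, v (α l) :=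
    funext fun v => prod_inner y v
  rw [h1, integral_finset_sum]
  · exact Finset.sum_congr rfl fun α _ => integral_const_mul _ _
  · intro α _
    exact (integrable_prod hp hn α).const_mul _

end TPD

open TPD in
theorem tpd_proof (hSMM : Stmt_SMM) (hSPH : Stmt_SPH) : Stmt_TPD := by
  intro n ι _ p w k y hn hp0 hp1 hw hy
  obtain ⟨hprob, hnorm, -⟩ := hSPH n hn
  -- the features
  let m : (Fin (2 * k) → Fin n) → ℝ := fun α => ∫ v, ∏ l, v (α l) ∂(sph n)
  let X : (Fin (2 * k) → Fin n) → ℝ := fun α => ∑ i, p i * ∏ l, w i (α l) - m α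
  have hpow : ∀ a v : EE n, (inner ℝ a v) ^ (2 * k) = ∏ l : Fin (2 * k), inner ℝ ((fun _ => a) l) v := by
    intro a v
    rw [Finset.prod_const, Finset.card_univ, Fintype.card_fin]
  have hcross : ∀ a : EE n, ∑ α : Fin (2 * k) → Fin n, (∏ l, a (α l)) * m α =
      smo n k * ‖a‖ ^ (2 * k) := by
    intro a
    have h := integral_prod_inner hprob hnorm (fun _ : Fin (2 * k) => a)
    rw [← h, ← hSMM n k a hn]
    exact integral_congr_ae (ae_of_all _ fun v => (hpow a v).symm)
  have hww : ∀ i j, ∑ α : Fin (2 * k) → Fin n, (∏ l, w i (α l)) * (∏ l, w j (α l)) =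
      (inner ℝ (w i) (w j)) ^ (2 * k) := by
    intro i j
    rw [hpow, prod_inner]
  have hmm : ∑ α, m α * m α = smo n k := by
    have h1 : ∀ α, m α * m α = ∫ v : EE n, (∏ l, v (α l)) * m α ∂(sph n) := by
      intro α
      rw [integral_mul_const]
    rw [Finset.sum_congr rfl fun α _ => h1 α, ← integral_finset_sum]
    · have h2 : ∫ v : EE n, ∑ α : Fin (2 * k) → Fin n, (∏ l, v (α l)) * m α ∂(sph n) =
          ∫ v : EE n, smo n k ∂(sph n) := by
        apply integral_congr_ae
        filter_upwards [hnorm] with v hv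
        rw [hcross v, hv, one_pow, mul_one]
      rw [h2, integral_const]
      simp
    · intro α _
      exact (integrable_prod hprob hnorm α).mul_const _
  have hX2 : ∑ α, X α ^ 2 = Tk p w k := by
    have e1 : ∀ α, X α ^ 2 = (∑ i, ∑ j, p i * p j * ((∏ l, w i (α l)) * ∏ l, w j (α l))) -
        2 * (∑ i, p i * ((∏ l, w i (α l)) * m α)) + m α * m α := by
      intro α
      have e2 : (∑ i, p i * ∏ l, w i (α l)) * (∑ j, p j * ∏ l, w j (α l)) =
          ∑ i, ∑ j, p i * p j * ((∏ l, w i (α l)) * ∏ l, w j (α l)) := by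
        rw [Finset.sum_mul_sum]
        exact Finset.sum_congr rfl fun i _ => Finset.sum_congr rfl fun j _ => by ring
      have e3 : (∑ i, p i * ∏ l, w i (α l)) * m α = ∑ i, p i * ((∏ l, w i (α l)) * m α) := by
        rw [Finset.sum_mul]
        exact Finset.sum_congr rfl fun i _ => by ring
      rw [← e2, ← e3]
      show (∑ i, p i * ∏ l, w i (α l) - m α) ^ 2 = _
      ring
    rw [Finset.sum_congr rfl fun α _ => e1 α, Finset.sum_add_distrib, Finset.sum_sub_distrib, hmm,
      ← Finset.mul_sum]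
    have e4 : ∑ α : Fin (2 * k) → Fin n, ∑ i, ∑ j, p i * p j * ((∏ l, w i (α l)) * ∏ l, w j (α l)) =
        ∑ i, ∑ j, p i * p j * (inner ℝ (w i) (w j)) ^ (2 * k) := by
      rw [Finset.sum_comm]
      refine Finset.sum_congr rfl fun i _ => ?_
      rw [Finset.sum_comm]
      refine Finset.sum_congr rfl fun j _ => ?_
      rw [← hww i j, Finset.mul_sum]
    have e5 : ∑ α : Fin (2 * k) → Fin n, ∑ i, p i * ((∏ l, w i (α l)) * m α) = smo n k := by
      rw [Finset.sum_comm]
      have : ∀ i, ∑ α : Fin (2 * k) → Fin n, p i * ((∏ l, w i (α l)) * m α) = p i * smo n k := by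
        intro i
        rw [← Finset.mul_sum, hcross (w i), hw i, one_pow, mul_one]
      rw [Finset.sum_congr rfl fun i _ => this i, ← Finset.sum_mul, hp1, one_mul]
    rw [e4, e5]
    unfold Tk
    ring
  have hlin : ∑ i, p i * ∏ l, inner ℝ (y l) (w i) - ∫ v, ∏ l, inner ℝ (y l) v ∂(sph n) =
      ∑ α, X α * ∏ l, y l (α l) := by
    rw [integral_prod_inner hprob hnorm y]
    have e6 : ∀ α, X α * ∏ l, y l (α l) =
        (∑ i, p i * ((∏ l, y l (α l)) * ∏ l, w i (α l))) - (∏ l, y l (α l)) * m α := by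
      intro α
      show (∑ i, p i * ∏ l, w i (α l) - m α) * _ = _
      rw [sub_mul, Finset.sum_mul]
      congr 1
      · exact Finset.sum_congr rfl fun i _ => by ring
      · ring
    rw [Finset.sum_congr rfl fun α _ => e6 α, Finset.sum_sub_distrib]
    congr 1
    rw [Finset.sum_comm]
    refine Finset.sum_congr rfl fun i _ => ?_
    rw [prod_inner, Finset.mul_sum]
  have hy2 : ∑ α : Fin (2 * k) → Fin n, (∏ l, y l (α l)) ^ 2 ≤ 1 := by
    have e7 : ∑ α : Fin (2 * k) → Fin n, (∏ l, y l (α l)) ^ 2 = ∏ l, ‖y l‖ ^ 2 := by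
      have e8 : ∀ l, ‖y l‖ ^ 2 = ∑ a, y l a ^ 2 := by
        intro l
        rw [EuclideanSpace.norm_sq_eq]
        exact Finset.sum_congr rfl fun a _ => by rw [Real.norm_eq_abs, sq_abs]
      rw [Finset.prod_congr rfl fun l _ => e8 l, Finset.prod_univ_sum, Fintype.piFinset_univ]
      exact Finset.sum_congr rfl fun α _ => by rw [Finset.prod_pow]
    rw [e7]
    apply Finset.prod_le_one
    · intro l _
      positivity
    · intro l _
      exact pow_le_one₀ (norm_nonneg _) (hy l)
  rw [hlin]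
  refine (Finset.sum_mul_sq_le_sq_mul_sq _ _ _).trans ?_
  rw [hX2]
  have hT : 0 ≤ Tk p w k := by
    rw [← hX2]
    exact Finset.sum_nonneg fun α _ => sq_nonneg _
  nlinarith

end PPX
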