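import Pool.Agent.PPX.Stmts

set_option autoImplicit false

namespace PPX

open MeasureTheory Set Filter Topology
open PPI PPG
open scoped Pointwise ENNReal

namespace WLD_

/-- the test body -/
def MM {n : ℕ} (ψ : EE n → ℝ) : Set (EE n) :=
  {x | ∀ v : EE n, ‖v‖ = 1 → inner ℝ v x ≤ 1 - ψ v / n}

lemma MM_compact {n : ℕ} (hn : 2 ≤ n) (ψ : EE n → ℝ)
    (hψ : ∀ v, ‖v‖ = 1 → |ψ v| ≤ (n : ℝ) / 8) : IsCompact (MM ψ) := by
  have hn0 : (0 : ℝ) < n := by positivity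
  refine Metric.isCompact_of_isClosed_isBounded ?_ ?_
  · have : MM ψ = ⋂ v : EE n, ⋂ (_ : ‖v‖ = 1), {x | inner ℝ v x ≤ 1 - ψ v / n} := by
      ext x; simp [MM]
    rw [this]
    refine isClosed_iInter fun v => isClosed_iInter fun _ => ?_
    exact isClosed_le (by fun_prop) continuous_const
  · refine (Metric.isBounded_closedBall (x := (0 : EE n)) (r := 9 / 8)).subset ?_
    intro x hx
    rw [mem_closedBall_zero_iff]
    by_cases h0 : x = 0
    · simp [h0]; norm_num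
    have hx0 : 0 < ‖x‖ := norm_pos_iff.mpr h0
    have h1 : ‖(‖x‖)⁻¹ • x‖ = 1 := by
      rw [norm_smul, norm_inv, norm_norm, inv_mul_cancel₀ hx0.ne']
    have h2 := hx _ h1
    rw [real_inner_smul_left, real_inner_self_eq_norm_sq] at h2
    have h3 : (‖x‖)⁻¹ * ‖x‖ ^ 2 = ‖x‖ := by field_simp
    rw [h3] at h2
    have h4 := (abs_le.mp (hψ _ h1)).1
    have h5 : -(1 / 8 : ℝ) ≤ ψ ((‖x‖)⁻¹ • x) / n := by
      rw [le_div_iff₀ hn0]; linarith
    linarith

lemma MM_convex {n : ℕ} (ψ : EE n → ℝ) : Convex ℝ (MM ψ) := by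
  intro x hx y hy a b ha hb hab v hv
  rw [inner_add_right, real_inner_smul_right, real_inner_smul_right]
  have h1 := mul_le_mul_of_nonneg_left (hx v hv) ha
  have h2 := mul_le_mul_of_nonneg_left (hy v hv) hb
  calc a * inner ℝ v x + b * inner ℝ v y ≤ a * (1 - ψ v / n) + b * (1 - ψ v / n) := by linarith
    _ = 1 - ψ v / n := by rw [← add_mul, hab, one_mul]

lemma MM_zero {n : ℕ} (hn : 2 ≤ n) (ψ : EE n → ℝ)
    (hψ : ∀ v, ‖v‖ = 1 → |ψ v| ≤ (n : ℝ) / 8) : (0 : EE n) ∈ MM ψ := by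
  have hn0 : (0 : ℝ) < n := by positivity
  intro v hv
  rw [inner_zero_right]
  have h4 := (abs_le.mp (hψ _ hv)).2
  have h5 : ψ v / n ≤ 1 / 8 := by
    rw [div_le_iff₀ hn0]; linarith
  linarith

/-- the radial function of the inner body -/
noncomputable def rr {n : ℕ} (ψ G : EE n → ℝ) (v : EE n) : ℝ :=
  max 0 (1 - ψ v / n - 2 * (G v) ^ 2 / (n : ℝ) ^ 2)

lemma key (a g d : ℝ) (ha : 7 / 8 ≤ a) (hg0 : 0 ≤ g) (hg : g ≤ 1 / 8) :
    (a - 2 * g ^ 2) * (1 - d ^ 2 / 2) ≤ a - g * d - d ^ 2 / 8 := by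
  have h1 : g ^ 2 * d ^ 2 ≤ 1 / 64 * d ^ 2 := by
    apply mul_le_mul_of_nonneg_right _ (sq_nonneg d)
    nlinarith
  have h2 : 7 / 8 * d ^ 2 ≤ a * d ^ 2 := mul_le_mul_of_nonneg_right ha (sq_nonneg d)
  nlinarith [sq_nonneg (4 * g - 2 * d), sq_nonneg (g - d / 2), sq_nonneg d, sq_nonneg g,
    sq_nonneg (2 * g - d / 2)]

lemma star {n : ℕ} (hn : 2 ≤ n) (ψ G : EE n → ℝ)
    (hψ : ∀ v, ‖v‖ = 1 → |ψ v| ≤ (n : ℝ) / 8)
    (hG : ∀ v, ‖v‖ = 1 → 0 ≤ G v ∧ G v ≤ (n : ℝ) / 8)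
    (hc : ∀ v t : EE n, ‖v‖ = 1 → ‖t‖ = 1 →
      ψ v ≤ ψ t + G t * ‖v - t‖ + (n : ℝ) / 8 * ‖v - t‖ ^ 2) :
    {x : EE n | x ≠ 0 ∧ ‖x‖ ≤ rr ψ G ((‖x‖)⁻¹ • x)} ⊆ MM ψ := by
  have hn0 : (0 : ℝ) < n := by positivity
  rintro x ⟨h0, hx⟩ v hv
  have hx0 : 0 < ‖x‖ := norm_pos_iff.mpr h0
  set t : EE n := (‖x‖)⁻¹ • x with ht
  have h1 : ‖t‖ = 1 := by
    rw [ht, norm_smul, norm_inv, norm_norm, inv_mul_cancel₀ hx0.ne']
  have hxt : x = ‖x‖ • t := by
    rw [ht, smul_smul, mul_inv_cancel₀ hx0.ne', one_smul]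
  have hin : inner ℝ v x = ‖x‖ * inner ℝ v t := by
    conv_lhs => rw [hxt]
    rw [real_inner_smul_right]
  have hψv : ψ v / n ≤ 1 / 8 := by
    rw [div_le_iff₀ hn0]; linarith [(abs_le.mp (hψ _ hv)).2]
  have hψt : ψ t / n ≤ 1 / 8 := by
    rw [div_le_iff₀ hn0]; linarith [(abs_le.mp (hψ _ h1)).2]
  have hg0 : 0 ≤ G t / n := div_nonneg (hG t h1).1 hn0.le
  have hg : G t / n ≤ 1 / 8 := by
    rw [div_le_iff₀ hn0]; linarith [(hG t h1).2]
  have hr : rr ψ G t = 1 - ψ t / n - 2 * (G t / n) ^ 2 := by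
    unfold rr
    have e : 2 * (G t) ^ 2 / (n : ℝ) ^ 2 = 2 * (G t / n) ^ 2 := by
      rw [div_pow]; ring
    rw [e, max_eq_right]
    nlinarith
  rw [hin]
  rcases le_or_gt (inner ℝ v t) 0 with hle | hgt
  · have : ‖x‖ * inner ℝ v t ≤ 0 := mul_nonpos_of_nonneg_of_nonpos hx0.le hle
    linarith
  · have hd : inner ℝ v t = 1 - ‖v - t‖ ^ 2 / 2 := by
      rw [norm_sub_sq_real, hv, h1]; ring
    have hle : ‖x‖ * inner ℝ v t ≤ rr ψ G t * inner ℝ v t :=
      mul_le_mul_of_nonneg_right hx hgt.le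
    have hk := key (1 - ψ t / n) (G t / n) ‖v - t‖ (by linarith) hg0 hg
    have hc1 := hc v t hv h1
    have hc2 : ψ v / n ≤ ψ t / n + G t / n * ‖v - t‖ + ‖v - t‖ ^ 2 / 8 := by
      rw [div_le_iff₀ hn0]
      have : (ψ t / n + G t / n * ‖v - t‖ + ‖v - t‖ ^ 2 / 8) * n =
          ψ t + G t * ‖v - t‖ + (n : ℝ) / 8 * ‖v - t‖ ^ 2 := by
        field_simp
      rw [this]; exact hc1
    calc ‖x‖ * inner ℝ v t ≤ rr ψ G t * inner ℝ v t := hle
      _ = (1 - ψ t / n - 2 * (G t / n) ^ 2) * (1 - ‖v - t‖ ^ 2 / 2) := by rw [hr, hd]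
      _ ≤ 1 - ψ t / n - G t / n * ‖v - t‖ - ‖v - t‖ ^ 2 / 8 := hk
      _ ≤ 1 - ψ v / n := by linarith

lemma log_lower (u : ℝ) (hu : |u| ≤ 1 / 2) : -u - u ^ 2 ≤ Real.log (1 - u) := by
  have h1 : 0 < 1 - u := by linarith [(abs_le.mp hu).2]
  -- `exp (-u - u²) ≤ 1 - u`
  rw [Real.le_log_iff_exp_le h1]
  have h2 : Real.exp (-u - u ^ 2) * Real.exp (u + u ^ 2) = 1 := by
    rw [← Real.exp_add]; simp
  have h3 : 1 + (u + u ^ 2) + (u + u ^ 2) ^ 2 / 2 ≤ Real.exp (u + u ^ 2) ∨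
      u + u ^ 2 < 0 := by
    rcases le_or_gt 0 (u + u ^ 2) with h | h
    · left; exact Real.quadratic_le_exp_of_nonneg h
    · right; exact h
  have h4 : 0 < Real.exp (-u - u ^ 2) := Real.exp_pos _
  have h5 : 1 ≤ (1 - u) * Real.exp (u + u ^ 2) := by
    have hle : u ≤ 1 / 2 := (abs_le.mp hu).2
    have hge : -(1 / 2) ≤ u := (abs_le.mp hu).1
    rcases le_or_gt 0 u with hu0 | hu0
    · have h6 : 1 + (u + u ^ 2) + (u + u ^ 2) ^ 2 / 2 ≤ Real.exp (u + u ^ 2) :=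
        Real.quadratic_le_exp_of_nonneg (by positivity)
      calc (1 : ℝ) ≤ (1 - u) * (1 + (u + u ^ 2) + (u + u ^ 2) ^ 2 / 2) := by
            have : (1 - u) * (1 + (u + u ^ 2) + (u + u ^ 2) ^ 2 / 2) - 1 =
              u ^ 2 * (1 / 2 + (- u / 2 - u ^ 2 / 2 - u ^ 3 / 2)) := by ring
            have h7 : 0 ≤ 1 / 2 + (- u / 2 - u ^ 2 / 2 - u ^ 3 / 2) := by
              nlinarith [mul_nonneg hu0 hu0, mul_nonneg (mul_nonneg hu0 hu0) hu0,
                mul_nonneg hu0 (sub_nonneg.mpr hle), mul_nonneg (mul_nonneg hu0 hu0)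
                (sub_nonneg.mpr hle)]
            nlinarith [mul_nonneg (sq_nonneg u) h7]
        _ ≤ (1 - u) * Real.exp (u + u ^ 2) := mul_le_mul_of_nonneg_left h6 h1.le
    · have h6 : 1 + (u + u ^ 2) ≤ Real.exp (u + u ^ 2) := by
        linarith [Real.add_one_le_exp (u + u ^ 2)]
      calc (1 : ℝ) ≤ (1 - u) * (1 + (u + u ^ 2)) := by
            have : (1 - u) * (1 + (u + u ^ 2)) = 1 + -u * u ^ 2 := by ring
            rw [this]
            nlinarith [mul_nonneg (neg_nonneg.mpr hu0.le) (sq_nonneg u)]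
        _ ≤ (1 - u) * Real.exp (u + u ^ 2) := mul_le_mul_of_nonneg_left h6 h1.le
  calc Real.exp (-u - u ^ 2) = Real.exp (-u - u ^ 2) * 1 := by ring
    _ ≤ Real.exp (-u - u ^ 2) * ((1 - u) * Real.exp (u + u ^ 2)) :=
        mul_le_mul_of_nonneg_left h5 h4.le
    _ = (1 - u) * (Real.exp (-u - u ^ 2) * Real.exp (u + u ^ 2)) := by ring
    _ = 1 - u := by rw [h2, mul_one]

lemma rr_pow {n : ℕ} (hn : 2 ≤ n) (ψ G : EE n → ℝ)
    (hψ : ∀ v, ‖v‖ = 1 → |ψ v| ≤ (n : ℝ) / 8)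
    (hG : ∀ v, ‖v‖ = 1 → 0 ≤ G v ∧ G v ≤ (n : ℝ) / 8) (v : EE n) (hv : ‖v‖ = 1) :
    Real.exp (-ψ v - 3 / n * (ψ v ^ 2 + G v ^ 2)) ≤ rr ψ G v ^ n := by
  have hn0 : (0 : ℝ) < n := by positivity
  set a := ψ v / n with ha
  set g := G v / n with hg
  have ha1 : |a| ≤ 1 / 8 := by
    rw [ha, abs_div, abs_of_pos hn0, div_le_iff₀ hn0]; linarith [hψ v hv]
  have hg0 : 0 ≤ g := div_nonneg (hG v hv).1 hn0.le
  have hg1 : g ≤ 1 / 8 := by
    rw [hg, div_le_iff₀ hn0]; linarith [(hG v hv).2]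
  have hψ' : ψ v = n * a := by rw [ha]; field_simp
  have hG' : G v = n * g := by rw [hg]; field_simp
  set u := a + 2 * g ^ 2 with hu
  have hu1 : |u| ≤ 1 / 2 := by
    rw [abs_le] at ha1 ⊢
    constructor <;> nlinarith [ha1.1, ha1.2]
  have hr : rr ψ G v = 1 - u := by
    unfold rr
    have e : 2 * (G v) ^ 2 / (n : ℝ) ^ 2 = 2 * g ^ 2 := by
      rw [hg, div_pow]; ring
    rw [e, ← ha, max_eq_right]
    · rw [hu]; ring
    · nlinarith [(abs_le.mp ha1).2]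
  have h1 : 0 < 1 - u := by linarith [(abs_le.mp hu1).2]
  rw [hr]
  have hpow : (1 - u) ^ n = Real.exp (n * Real.log (1 - u)) := by
    rw [mul_comm, Real.exp_mul, Real.exp_log h1, Real.rpow_natCast]
  rw [hpow, Real.exp_le_exp]
  have hl := mul_le_mul_of_nonneg_left (log_lower u hu1) hn0.le
  refine le_trans ?_ hl
  have e2 : 3 / (n : ℝ) * (ψ v ^ 2 + G v ^ 2) = n * (3 * a ^ 2 + 3 * g ^ 2) := by
    rw [hψ', hG']; field_simp
  rw [e2, hψ']
  have : -(n * a) - n * (3 * a ^ 2 + 3 * g ^ 2) = n * (-a - (3 * a ^ 2 + 3 * g ^ 2)) := by ring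
  rw [this]
  apply mul_le_mul_of_nonneg_left _ hn0.le
  rw [hu]
  have hg4 : g ^ 2 ≤ 1 / 64 := by nlinarith
  nlinarith [sq_nonneg (a - 2 * g ^ 2), mul_nonneg (sq_nonneg g) (sub_nonneg.mpr hg4),
    sq_nonneg a, sq_nonneg g]

end WLD_

open WLD_ in
theorem wld_proof (hSPH : Stmt_SPH) (hAVE : PPI.Stmt_AVE) : Stmt_WLD := by
  intro n ι _ p w D ψ G hn hIS hMI hψm hGm hψ hG hc
  have hn0 : (0 : ℝ) < n := by positivity
  obtain ⟨hprob, hae, -, hstar, -, -⟩ := hSPH n (by omega)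
  have hkap : 0 < kap n := (hAVE n (by omega)).1
  have hcomp := MM_compact hn ψ hψ
  set S := ∑ i, p i * ψ (w i) with hS
  -- upper bound
  have hup : vl (MM ψ) ≤ kap n * Real.exp (D - S) := by
    obtain ⟨h0, h1⟩ := hMI (MM ψ) (fun i => 1 - ψ (w i) / n) hcomp (MM_convex ψ)
      ⟨0, MM_zero hn ψ hψ⟩ (fun i x hx => hx _ (hIS.nrm i))
    have hsum : ∑ i, p i * (1 - ψ (w i) / n) = 1 - S / n := by
      have e : ∀ i, p i * (1 - ψ (w i) / n) = p i - p i * ψ (w i) / n := fun i => by ring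
      rw [Finset.sum_congr rfl fun i _ => e i, Finset.sum_sub_distrib, hIS.psum, hS,
        Finset.sum_div]
    simp only [hsum] at h0 h1
    have h2 : (1 - S / n) ^ n ≤ Real.exp (-S) := by
      have h3 : 1 - S / n ≤ Real.exp (-(S / n)) := by
        linarith [Real.add_one_le_exp (-(S / n))]
      calc (1 - S / n) ^ n ≤ (Real.exp (-(S / n))) ^ n := pow_le_pow_left₀ h0 h3 n
        _ = Real.exp (-S) := by
            rw [← Real.exp_nat_mul]
            congr 1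
            field_simp
    calc vl (MM ψ) ≤ kap n * Real.exp D * (1 - S / n) ^ n := h1
      _ ≤ kap n * Real.exp D * Real.exp (-S) :=
          mul_le_mul_of_nonneg_left h2 (by positivity)
      _ = kap n * Real.exp (D - S) := by
          rw [mul_assoc, ← Real.exp_add]; rfl
  -- integrability
  have hψi : Integrable ψ (sph n) := by
    refine Integrable.of_bound hψm.aestronglyMeasurable ((n : ℝ) / 8) ?_
    filter_upwards [hae] with v hv
    exact hψ v hv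
  have hqi : Integrable (fun v => ψ v ^ 2 + G v ^ 2) (sph n) := by
    refine Integrable.of_bound (by fun_prop) (((n : ℝ) / 8) ^ 2 + ((n : ℝ) / 8) ^ 2) ?_
    filter_upwards [hae] with v hv
    rw [Real.norm_of_nonneg (by positivity)]
    have h1 : ψ v ^ 2 ≤ ((n : ℝ) / 8) ^ 2 := by
      rw [← sq_abs]; exact pow_le_pow_left₀ (abs_nonneg _) (hψ v hv) 2
    have h2 : G v ^ 2 ≤ ((n : ℝ) / 8) ^ 2 := pow_le_pow_left₀ (hG v hv).1 (hG v hv).2 2
    exact add_le_add h1 h2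
  set F : EE n → ℝ := fun v => -ψ v - 3 / n * (ψ v ^ 2 + G v ^ 2) with hF
  have hFi : Integrable F (sph n) := by
    have h1 : Integrable (fun v => -ψ v) (sph n) := hψi.neg
    exact h1.sub (hqi.const_mul _)
  have hFm : Measurable F := by
    simp only [hF]; fun_prop
  set m := ∫ v, F v ∂(sph n) with hm
  have hmval : m = -∫ v, ψ v ∂(sph n) - 3 / n * ∫ v, (ψ v ^ 2 + G v ^ 2) ∂(sph n) := by
    have h1 : Integrable (fun v => -ψ v) (sph n) := hψi.neg
    rw [hm, hF, integral_sub h1 (hqi.const_mul _), integral_neg, integral_const_mul]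
  have hexpi : Integrable (fun v => Real.exp (F v)) (sph n) := by
    refine Integrable.of_bound (by fun_prop) (Real.exp ((n : ℝ) / 8)) ?_
    filter_upwards [hae] with v hv
    rw [Real.norm_of_nonneg (Real.exp_pos _).le, Real.exp_le_exp]
    have h1 := (abs_le.mp (hψ v hv)).1
    have h2 : 0 ≤ 3 / (n : ℝ) * (ψ v ^ 2 + G v ^ 2) := by positivity
    simp only [hF]
    linarith
  have hjen : Real.exp m ≤ ∫ v, Real.exp (F v) ∂(sph n) := by
    have h1 : ∫ v, Real.exp m * (1 + (F v - m)) ∂(sph n) ≤ ∫ v, Real.exp (F v) ∂(sph n) := by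
      apply integral_mono _ hexpi
      · intro v
        have h2 := Real.add_one_le_exp (F v - m)
        calc Real.exp m * (1 + (F v - m)) ≤ Real.exp m * Real.exp (F v - m) :=
              mul_le_mul_of_nonneg_left (by linarith) (Real.exp_pos _).le
          _ = Real.exp (F v) := by rw [← Real.exp_add]; congr 1; ring
      · exact ((integrable_const (1 : ℝ)).add (hFi.sub (integrable_const m))).const_mul _
    have h2 : ∫ v, Real.exp m * (1 + (F v - m)) ∂(sph n) = Real.exp m := by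
      have e1 : Integrable (fun v => F v - m) (sph n) := hFi.sub (integrable_const m)
      rw [integral_const_mul, integral_add (integrable_const _) e1,
        integral_sub hFi (integrable_const m), integral_const, integral_const, ← hm]
      simp
    rw [h2] at h1
    exact h1
  -- lower bound
  have hrm : Measurable (rr ψ G) := by
    unfold rr
    fun_prop
  have hlow : kap n * Real.exp m ≤ vl (MM ψ) := by
    have h1 := hstar (rr ψ G) hrm (fun v => le_max_left _ _)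
    have h2 : volume {x : EE n | x ≠ 0 ∧ ‖x‖ ≤ rr ψ G ((‖x‖)⁻¹ • x)} ≤ volume (MM ψ) :=
      measure_mono (star hn ψ G hψ hG hc)
    rw [h1] at h2
    have h3 : ENNReal.ofReal (Real.exp m) ≤ ∫⁻ v, ENNReal.ofReal (rr ψ G v ^ n) ∂(sph n) := by
      calc ENNReal.ofReal (Real.exp m) ≤ ENNReal.ofReal (∫ v, Real.exp (F v) ∂(sph n)) :=
            ENNReal.ofReal_le_ofReal hjen
        _ = ∫⁻ v, ENNReal.ofReal (Real.exp (F v)) ∂(sph n) :=
            ofReal_integral_eq_lintegral_ofReal hexpi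
              (Filter.Eventually.of_forall fun v => (Real.exp_pos _).le)
        _ ≤ ∫⁻ v, ENNReal.ofReal (rr ψ G v ^ n) ∂(sph n) := by
            apply lintegral_mono_ae
            filter_upwards [hae] with v hv
            exact ENNReal.ofReal_le_ofReal (rr_pow hn ψ G hψ hG v hv)
    have h4 : ENNReal.ofReal (kap n * Real.exp m) ≤ volume (MM ψ) := by
      rw [ENNReal.ofReal_mul hkap.le]
      exact le_trans (mul_le_mul_right h3 _) h2
    have hfin : volume (MM ψ) ≠ ⊤ := hcomp.measure_lt_top.ne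
    exact (ENNReal.ofReal_le_iff_le_toReal hfin).mp h4
  have hfinal : Real.exp m ≤ Real.exp (D - S) := by
    have := hlow.trans hup
    exact le_of_mul_le_mul_left this hkap
  rw [Real.exp_le_exp, hmval] at hfinal
  linarith

end PPX
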