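import Pool.Agent.PPX.Stmts

/-!
# Squad PPX (MP_0bf616_gt), module XUB: upper bound for the energy
-/

set_option autoImplicit false

namespace PPX

open MeasureTheory Set Filter Topology
open PPI PPG
open scoped Pointwise ENNReal

namespace XUB_

/-- tail of the series of `-√(1-t)` -/
theorem tail_bound (hB : Stmt_BTS) (m : ℕ) (t : ℝ) (h0 : 0 ≤ t) (h1 : t ≤ 1) :
    -√(1 - t) ≤ ∑ k ∈ Finset.range (m + 1), ec k * t ^ k + t ^ (m + 1) := by
  obtain ⟨-, hs, hb, he, hsum⟩ := hB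
  have e1 := (hasSum_nat_add_iff' (m + 1)).2 (hs t h0 h1)
  have e2 := (hasSum_nat_add_iff' (m + 1)).2 (hs 1 zero_le_one le_rfl)
  have e3 := e2.mul_right (t ^ (m + 1))
  have e4 := hasSum_le (fun k => ?_) e1 e3
  · have h5 : ∑ i ∈ Finset.range (m + 1), ec i * (1 : ℝ) ^ i = - bt m := by
      rw [← hsum m]
      apply Finset.sum_congr rfl
      intro i _
      rw [one_pow, mul_one]
    rw [h5, sub_self, Real.sqrt_zero, neg_zero, zero_sub, neg_neg] at e4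
    have h6 : bt m * t ^ (m + 1) ≤ 1 * t ^ (m + 1) :=
      mul_le_mul_of_nonneg_right (hb m).2.1 (pow_nonneg h0 _)
    linarith
  · have hk := (he (k + (m + 1)) (by omega)).1
    rw [one_pow, mul_one, pow_add]
    have h7 : t ^ k ≤ 1 := pow_le_one₀ h0 h1
    have h8 : 0 ≤ t ^ (m + 1) := pow_nonneg h0 _
    nlinarith [mul_le_mul_of_nonneg_left (mul_le_mul_of_nonneg_right h7 h8) hk.le]

/-- the kernel -/
noncomputable def KK (n : ℕ) (s : ℝ) : ℝ :=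
  2 * (n : ℝ) ^ 2 * (kk n s - 1) + ((n : ℝ) ^ 2 - n - (n : ℝ) ^ 2 * om n * √(1 - s ^ 2))

/-- the coefficients -/
noncomputable def AA (n : ℕ) (c : ℕ → ℝ) (k : ℕ) : ℝ :=
  2 * (n : ℝ) ^ 2 * c k + (n : ℝ) ^ 2 * om n * ec k

/-- pointwise bound for the kernel -/
theorem kernel_bound (hB : Stmt_BTS) (n m : ℕ) (hn : 4 ≤ n) (c : ℕ → ℝ)
    (ho1 : 0 ≤ om n) (ho2 : om n ≤ 1) (hc : ∀ k, 0 ≤ c k ∧ c k ≤ 2)
    (hk0 : ∀ s : ℝ, s ^ 2 ≤ 1 → 0 ≤ kk n s)
    (hkt : ∀ (m : ℕ) (s θ : ℝ), 0 < θ → θ ^ 2 ≤ 1 - s ^ 2 →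
      kk n s ≤ ∑ k ∈ Finset.range (m + 1), c k * s ^ (2 * k) + 2 / θ * s ^ (2 * (m + 1)))
    (s θ : ℝ) (hθ : 0 < θ) (hθ1 : θ ≤ 1) (hs : s ^ 2 ≤ 1) :
    KK n s ≤ ∑ k ∈ Finset.range (m + 1), AA n c k * s ^ (2 * k) - (n : ℝ) ^ 2 - n +
      5 * (n : ℝ) ^ 2 / θ * s ^ (2 * (m + 1)) +
      4 * (if 1 - s ^ 2 ≤ θ ^ 2 then (n : ℝ) ^ 2 * (kk n s + 1) else 0) := by
  have hn' : (4 : ℝ) ≤ n := by exact_mod_cast hn
  have hs0 : 0 ≤ s ^ 2 := sq_nonneg s
  have hsm : 0 ≤ s ^ (2 * (m + 1)) := by rw [pow_mul]; exact pow_nonneg hs0 _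
  have hn2 : 0 ≤ (n : ℝ) ^ 2 := sq_nonneg _
  by_cases h : 1 - s ^ 2 ≤ θ ^ 2
  · rw [if_pos h]
    have h1 : 0 ≤ ∑ k ∈ Finset.range m, AA n c (k + 1) * s ^ (2 * (k + 1)) := by
      apply Finset.sum_nonneg
      intro k _
      have e1 := (hB.2.2.2.1 (k + 1) (by omega)).1
      apply mul_nonneg
      · unfold AA
        have := (hc (k + 1)).1
        positivity
      · rw [pow_mul]; exact pow_nonneg hs0 _
    rw [Finset.sum_range_succ']
    have h2 : -(n : ℝ) ^ 2 ≤ AA n c 0 := by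
      unfold AA
      have e0 : ec 0 = -1 := by
        have := hB.2.2.2.2 0
        rw [Finset.sum_range_one] at this
        rw [this]
        unfold bt
        simp
      rw [e0]
      have := (hc 0).1
      nlinarith [mul_nonneg hn2 this, mul_le_mul_of_nonneg_left ho2 hn2]
    have h3 : 0 ≤ 5 * (n : ℝ) ^ 2 / θ * s ^ (2 * (m + 1)) := by positivity
    have h4 : 0 ≤ √(1 - s ^ 2) := Real.sqrt_nonneg _
    have h5 : 0 ≤ (n : ℝ) ^ 2 * om n * √(1 - s ^ 2) := by positivity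
    have h6 := hk0 s hs
    have h7 : 0 ≤ (n : ℝ) ^ 2 * kk n s := mul_nonneg hn2 h6
    unfold KK
    simp only [mul_zero, pow_zero, mul_one]
    nlinarith
  · rw [if_neg h]
    push Not at h
    have h1 := hkt m s θ hθ h.le
    have h2 := tail_bound hB m (s ^ 2) hs0 hs
    have h3 : s ^ (2 * (m + 1)) = (s ^ 2) ^ (m + 1) := by rw [pow_mul]
    have h4 : ∑ k ∈ Finset.range (m + 1), AA n c k * s ^ (2 * k) =
        2 * (n : ℝ) ^ 2 * ∑ k ∈ Finset.range (m + 1), c k * s ^ (2 * k) +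
        (n : ℝ) ^ 2 * om n * ∑ k ∈ Finset.range (m + 1), ec k * (s ^ 2) ^ k := by
      rw [Finset.mul_sum, Finset.mul_sum, ← Finset.sum_add_distrib]
      apply Finset.sum_congr rfl
      intro k _
      unfold AA
      rw [pow_mul]
      ring
    rw [h4]
    unfold KK
    have h5 : 2 * (n : ℝ) ^ 2 * kk n s ≤ 2 * (n : ℝ) ^ 2 *
        (∑ k ∈ Finset.range (m + 1), c k * s ^ (2 * k) + 2 / θ * s ^ (2 * (m + 1))) :=
      mul_le_mul_of_nonneg_left h1 (by positivity)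
    have h6 : (n : ℝ) ^ 2 * om n * (-√(1 - s ^ 2)) ≤ (n : ℝ) ^ 2 * om n *
        (∑ k ∈ Finset.range (m + 1), ec k * (s ^ 2) ^ k + (s ^ 2) ^ (m + 1)) :=
      mul_le_mul_of_nonneg_left h2 (by positivity)
    have h7 : (n : ℝ) ^ 2 * om n * (s ^ 2) ^ (m + 1) ≤ (n : ℝ) ^ 2 / θ * s ^ (2 * (m + 1)) := by
      rw [← h3]
      apply mul_le_mul_of_nonneg_right _ hsm
      have e1 : (n : ℝ) ^ 2 * om n ≤ (n : ℝ) ^ 2 * 1 := mul_le_mul_of_nonneg_left ho2 hn2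
      have e2 : (n : ℝ) ^ 2 ≤ (n : ℝ) ^ 2 / θ := by
        rw [le_div_iff₀ hθ]
        nlinarith
      linarith
    have h8 : 2 * (n : ℝ) ^ 2 * (2 / θ * s ^ (2 * (m + 1))) +
        (n : ℝ) ^ 2 / θ * s ^ (2 * (m + 1)) = 5 * (n : ℝ) ^ 2 / θ * s ^ (2 * (m + 1)) := by
      field_simp
      ring
    nlinarith

/-- the sum of the tail of the coefficients times the moments -/
theorem hasR (hmm : Stmt_MMS) (n : ℕ) (hn : 4 ≤ n) (c : ℕ → ℝ) (ho : 0 < om n)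
    (hc : HasSum (fun k : ℕ => c k * smo n k) 1) :
    HasSum (fun k : ℕ => AA n c (k + 2) * smo n (k + 2))
      ((n : ℝ) ^ 2 + n - AA n c 0 - AA n c 1 / n) := by
  have hn' : (4 : ℝ) ≤ n := by exact_mod_cast hn
  have h1 := (hc.mul_left (2 * (n : ℝ) ^ 2)).add
    ((hmm n (by omega)).1.mul_left ((n : ℝ) ^ 2 * om n))
  have h2 := (hasSum_nat_add_iff' 2).2 h1
  have h3 : (fun k : ℕ => AA n c (k + 2) * smo n (k + 2)) = fun k : ℕ =>
      2 * (n : ℝ) ^ 2 * (c (k + 2) * smo n (k + 2)) +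
        (n : ℝ) ^ 2 * om n * (ec (k + 2) * smo n (k + 2)) := by
    funext k
    unfold AA
    ring
  rw [h3]
  have h4 : 2 * (n : ℝ) ^ 2 * 1 + (n : ℝ) ^ 2 * om n * -mm n -
      ∑ i ∈ Finset.range 2, (2 * (n : ℝ) ^ 2 * (c i * smo n i) +
        (n : ℝ) ^ 2 * om n * (ec i * smo n i)) =
      (n : ℝ) ^ 2 + n - AA n c 0 - AA n c 1 / n := by
    have e0 : smo n 0 = 1 := by unfold smo; simp
    have e1 : smo n 1 = 1 / n := by unfold smo; simp
    rw [Finset.sum_range_succ, Finset.sum_range_one, e0, e1]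
    unfold mm AA
    have : (n : ℝ) ≠ 0 := by positivity
    field_simp
    ring
  rw [← h4]
  exact h2

theorem ec0 (hB : Stmt_BTS) : ec 0 = -1 := by
  have := hB.2.2.2.2 0
  rw [Finset.sum_range_one] at this
  rw [this]
  unfold bt
  simp

theorem AA_nonneg (hB : Stmt_BTS) (n : ℕ) (c : ℕ → ℝ) (ho : 0 ≤ om n)
    (hc : ∀ k, 0 ≤ c k ∧ c k ≤ 2) (k : ℕ) (hk : 1 ≤ k) : 0 ≤ AA n c k := by
  unfold AA
  have := (hc k).1
  have := (hB.2.2.2.1 k hk).1
  positivity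

theorem AA_le (hB : Stmt_BTS) (n : ℕ) (c : ℕ → ℝ) (ho : 0 ≤ om n) (ho2 : om n ≤ 1)
    (hc : ∀ k, 0 ≤ c k ∧ c k ≤ 2) (k : ℕ) (hk : 1 ≤ k) : AA n c k ≤ 5 * (n : ℝ) ^ 2 := by
  unfold AA
  have h1 := (hc k).2
  have h2 := (hB.2.2.2.1 k hk).1
  have h3 := (hB.2.2.2.1 k hk).2.1
  have hk' : (1 : ℝ) ≤ k := by exact_mod_cast hk
  have h4 : ec k ≤ 1 := by nlinarith
  have h5 : om n * ec k ≤ 1 := by nlinarith
  have hn2 : 0 ≤ (n : ℝ) ^ 2 := sq_nonneg _
  nlinarith [mul_le_mul_of_nonneg_left h1 hn2, mul_le_mul_of_nonneg_left h5 hn2]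

theorem AA0_ge (hB : Stmt_BTS) (n : ℕ) (c : ℕ → ℝ) (ho2 : om n ≤ 1)
    (hc : ∀ k, 0 ≤ c k ∧ c k ≤ 2) : -(n : ℝ) ^ 2 ≤ AA n c 0 := by
  unfold AA
  rw [ec0 hB]
  have := (hc 0).1
  have hn2 : 0 ≤ (n : ℝ) ^ 2 := sq_nonneg _
  nlinarith [mul_nonneg hn2 this, mul_le_mul_of_nonneg_left ho2 hn2]

/-- bound for the tail -/
theorem R_le (hB : Stmt_BTS) (hmm : Stmt_MMS) (hS : Stmt_SMB) : ∃ C : ℝ, 0 ≤ C ∧
    ∀ (n : ℕ) (c : ℕ → ℝ), 4 ≤ n → 0 < om n → om n ≤ 1 → (∀ k, 0 ≤ c k ∧ c k ≤ 2) →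
    HasSum (fun k : ℕ => c k * smo n k) 1 →
    (n : ℝ) ^ 2 + n - AA n c 0 - AA n c 1 / n ≤ C := by
  obtain ⟨hS1, C, hC, hS2⟩ := hS
  refine ⟨500 + 5 * C, by positivity, ?_⟩
  intro n c hn ho ho2 hc hsum
  have hn' : (4 : ℝ) ≤ n := by exact_mod_cast hn
  rcases Nat.lt_or_ge n 12 with h12 | h12
  · have h1 := AA0_ge hB n c ho2 hc
    have h2 : 0 ≤ AA n c 1 / n := div_nonneg (AA_nonneg hB n c ho.le hc 1 le_rfl) (by positivity)
    have h3 : (n : ℝ) ≤ 11 := by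
      have : n ≤ 11 := by omega
      exact_mod_cast this
    nlinarith
  · have h1 := hasR hmm n hn c ho hsum
    have h2 := h1.tendsto_sum_nat
    refine le_of_tendsto' h2 ?_
    intro N
    have h3 : ∀ N : ℕ, ∑ k ∈ Finset.range N, AA n c (k + 2) * smo n (k + 2) ≤
        120 + 5 * C * (1 - 1 / ((N : ℝ) + 1)) := by
      intro N
      induction N with
      | zero => simp
      | succ N ih =>
        rw [Finset.sum_range_succ]
        have hA := AA_le hB n c ho.le ho2 hc (N + 2) (by omega)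
        have hA0 := AA_nonneg hB n c ho.le hc (N + 2) (by omega)
        have hn2 : 0 < (n : ℝ) ^ 2 := by positivity
        rcases Nat.eq_zero_or_pos N with rfl | hN
        · have e1 := (hS1 n 2 (by omega)).2.2.2
          have e0 := (hS1 n 2 (by omega)).1
          have e2 : AA n c 2 * smo n 2 ≤ 5 * (n : ℝ) ^ 2 * smo n 2 :=
            mul_le_mul_of_nonneg_right hA e0.le
          have e3 : ((2 * 2).factorial : ℝ) = 24 := by norm_num [Nat.factorial]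
          rw [e3] at e1
          simp only [Finset.range_zero, Finset.sum_empty, zero_add, Nat.cast_one]
          have : 0 ≤ 5 * C * (1 - 1 / ((1 : ℝ) + 1)) := by
            apply mul_nonneg (by positivity)
            norm_num
          nlinarith
        · have e1 := hS2 n (N + 2) h12 (by omega)
          have hN' : (1 : ℝ) ≤ N := by exact_mod_cast hN
          have e2 : AA n c (N + 2) * smo n (N + 2) ≤
              5 * (n : ℝ) ^ 2 * (C / (n : ℝ) ^ 3 / ((N + 2 : ℕ) : ℝ) ^ 5) :=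
            mul_le_mul hA e1 (hS1 n (N + 2) (by omega)).1.le (by positivity)
          have e3 : 5 * (n : ℝ) ^ 2 * (C / (n : ℝ) ^ 3 / ((N + 2 : ℕ) : ℝ) ^ 5) ≤
              5 * C * (1 / (((N : ℝ) + 1) * ((N : ℝ) + 2))) := by
            push_cast
            have f1 : 5 * (n : ℝ) ^ 2 * (C / (n : ℝ) ^ 3 / ((N : ℝ) + 2) ^ 5) =
                5 * C * (1 / ((n : ℝ) * ((N : ℝ) + 2) ^ 5)) := by
              field_simp
            rw [f1]
            apply mul_le_mul_of_nonneg_left _ (by positivity)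
            apply one_div_le_one_div_of_le (by positivity)
            have f2 : ((N : ℝ) + 1) * ((N : ℝ) + 2) ≤ 1 * ((N : ℝ) + 2) ^ 2 := by nlinarith
            have f3 : ((N : ℝ) + 2) ^ 2 ≤ ((N : ℝ) + 2) ^ 5 :=
              pow_le_pow_right₀ (by linarith) (by norm_num)
            have f4 : 1 * ((N : ℝ) + 2) ^ 5 ≤ (n : ℝ) * ((N : ℝ) + 2) ^ 5 :=
              mul_le_mul_of_nonneg_right (by linarith) (by positivity)
            linarith
          have e4 : 1 / (((N : ℝ) + 1) * ((N : ℝ) + 2)) =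
              1 / ((N : ℝ) + 1) - 1 / ((N : ℝ) + 2) := by
            field_simp
            ring
          rw [e4] at e3
          push_cast at ih ⊢
          have e5 : (N : ℝ) + 1 + 1 = (N : ℝ) + 2 := by ring
          rw [e5]
          nlinarith
    have h4 := h3 N
    have h5 : 0 ≤ 5 * C * (1 / ((N : ℝ) + 1)) := by positivity
    nlinarith

/-- final arithmetic -/
theorem fin1 (n P x R A0 A1 Q T1 T2 F N1 J J1 X θ C0 M L : ℝ) (hn : 4 ≤ n)
    (hR : R = n ^ 2 + n - A0 - A1 / n) (hP : P = 1 - x) (hx0 : 0 ≤ x) (hx : x ≤ 1 / 4)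
    (hR0 : 0 ≤ R) (hRle : R ≤ C0) (hA1 : 0 ≤ A1) (hA5 : A1 ≤ 5 * n ^ 2) (hQ0 : 0 ≤ Q)
    (hT1 : 0 ≤ T1) (hT2 : 0 ≤ T2) (hF1 : 1 ≤ F) (hN1 : 0 ≤ N1) (hJ1 : J1 ≤ J) (hJ0 : 0 ≤ J)
    (hθ : 0 < θ) (hθ1 : θ ≤ 1) (hM : M ≤ R + 5 * n ^ 2 * T1)
    (hL : L ≤ 5 / θ * (n ^ 2 * T2) + 5 / θ * (F * N1))
    (hb : P ^ 2 * X ≤ A0 * P ^ 2 + A1 * ((1 - 2 * x) / n + Q) + M -
      (n ^ 2 + n) * P ^ 2 + L + 4 * J1) :
    X ≤ (4 * C0 + 10 * F + 10) / θ * (n ^ 2 * (T1 + T2) + N1) +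
      (4 * C0 + 10 * F + 10) * (x + n * x ^ 2 + n ^ 2 * Q) + 16 * J := by
  have hn0 : 0 < n := by linarith
  have hn2 : 0 ≤ n ^ 2 := sq_nonneg _
  have hC0 : 0 ≤ C0 := hR0.trans hRle
  have hF0 : 0 ≤ F := by linarith
  have hK : 0 ≤ 4 * C0 + 10 * F + 10 := by positivity
  -- the main bound
  have hE : P ^ 2 * X ≤ 2 * x * R + 5 * (n ^ 2 * Q) + 5 * n ^ 2 * T1 +
      5 / θ * (n ^ 2 * T2) + 5 / θ * (F * N1) + 4 * J := by
    have h1 : A1 * Q ≤ 5 * (n ^ 2 * Q) := by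
      have := mul_le_mul_of_nonneg_right hA5 hQ0
      linarith
    have h2 : A0 * P ^ 2 + A1 * ((1 - 2 * x) / n + Q) - (n ^ 2 + n) * P ^ 2 =
        -R * P ^ 2 - A1 / n * x ^ 2 + A1 * Q := by
      rw [hR, hP]
      field_simp
      ring
    have h3 : 0 ≤ A1 / n * x ^ 2 := by positivity
    have h4 : -R * P ^ 2 ≤ -R + 2 * x * R := by
      rw [hP]
      nlinarith [mul_nonneg hR0 (sq_nonneg x)]
    linarith
  have hE0 : 0 ≤ 2 * x * R + 5 * (n ^ 2 * Q) + 5 * n ^ 2 * T1 +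
      5 / θ * (n ^ 2 * T2) + 5 / θ * (F * N1) + 4 * J := by positivity
  have hE2 : X ≤ 2 * (2 * x * R + 5 * (n ^ 2 * Q) + 5 * n ^ 2 * T1 +
      5 / θ * (n ^ 2 * T2) + 5 / θ * (F * N1) + 4 * J) := by
    by_contra hcon
    push Not at hcon
    have h1 : 0 < X := by linarith
    have h2 : 1 / 2 ≤ P ^ 2 := by rw [hP]; nlinarith
    have h3 := mul_le_mul_of_nonneg_right h2 h1.le
    linarith
  have hb1 : 2 * (2 * x * R) ≤ (4 * C0 + 10 * F + 10) * x := by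
    have h1 : x * R ≤ x * C0 := mul_le_mul_of_nonneg_left hRle hx0
    have h2 : 0 ≤ (10 * F + 10) * x := by positivity
    linarith
  have hb2 : 2 * (5 * (n ^ 2 * Q)) ≤ (4 * C0 + 10 * F + 10) * (n ^ 2 * Q) := by
    have h1 : 0 ≤ (4 * C0 + 10 * F) * (n ^ 2 * Q) := by positivity
    linarith
  have hb3 : 0 ≤ (4 * C0 + 10 * F + 10) * (n * x ^ 2) := by positivity
  have h10 : 10 / θ ≤ (4 * C0 + 10 * F + 10) / θ := by
    rw [div_le_div_iff_of_pos_right hθ]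
    linarith
  have h11 : 10 ≤ 10 / θ := by
    rw [le_div_iff₀ hθ]
    linarith
  have hb4 : 2 * (5 * n ^ 2 * T1) ≤ (4 * C0 + 10 * F + 10) / θ * (n ^ 2 * T1) := by
    have h1 : 0 ≤ n ^ 2 * T1 := mul_nonneg hn2 hT1
    have h2 := mul_le_mul_of_nonneg_right (h11.trans h10) h1
    linarith
  have hb5 : 2 * (5 / θ * (n ^ 2 * T2)) ≤ (4 * C0 + 10 * F + 10) / θ * (n ^ 2 * T2) := by
    have h1 : 0 ≤ n ^ 2 * T2 := mul_nonneg hn2 hT2
    have h2 := mul_le_mul_of_nonneg_right h10 h1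
    have h3 : 2 * (5 / θ * (n ^ 2 * T2)) = 10 / θ * (n ^ 2 * T2) := by ring
    linarith
  have hb6 : 2 * (5 / θ * (F * N1)) ≤ (4 * C0 + 10 * F + 10) / θ * N1 := by
    have h2 : 10 * F / θ ≤ (4 * C0 + 10 * F + 10) / θ := by
      rw [div_le_div_iff_of_pos_right hθ]
      linarith
    have h3 := mul_le_mul_of_nonneg_right h2 hN1
    have h4 : 2 * (5 / θ * (F * N1)) = 10 * F / θ * N1 := by ring
    linarith
  have hb7 : 2 * (4 * J) ≤ 16 * J := by linarith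
  have e1 : (4 * C0 + 10 * F + 10) / θ * (n ^ 2 * (T1 + T2) + N1) =
      (4 * C0 + 10 * F + 10) / θ * (n ^ 2 * T1) +
      (4 * C0 + 10 * F + 10) / θ * (n ^ 2 * T2) +
      (4 * C0 + 10 * F + 10) / θ * N1 := by ring
  rw [e1]
  linarith

end XUB_

open Classical XUB_ in
theorem xub_proof (hKEN : Stmt_KEN) (hMMS : Stmt_MMS) (hBTS : Stmt_BTS) (hTPD : Stmt_TPD)
    (hSMB : Stmt_SMB) (hCNB : Stmt_CNB) : Stmt_XUB := by
  intro m hm
  obtain ⟨C0, hC0, hR⟩ := XUB_.R_le hBTS hMMS hSMB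
  refine ⟨4 * C0 + 10 * ((2 * m + 2).factorial : ℝ) + 10, by positivity, ?_⟩
  intro n ι _ p w θ g hn hI hθ hθ1 hx
  have hn' : (4 : ℝ) ≤ n := by exact_mod_cast hn
  have hn0 : (0 : ℝ) < n := by linarith
  have hn2 : 0 ≤ (n : ℝ) ^ 2 := sq_nonneg _
  obtain ⟨c, hc, -, hcs, hc1, hk0, hkt⟩ := hKEN n hn
  obtain ⟨-, -, -, ho1, ho2, -⟩ := hCNB n (by omega)
  have ho : 0 < om n := by
    have : 1 / (n : ℝ) ≤ 1 / 4 := one_div_le_one_div_of_le (by norm_num) hn'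
    linarith
  set x := ∑ i ∈ gᶜ, p i with hxdef
  have hx0 : 0 ≤ x := Finset.sum_nonneg fun i _ => (hI.ppos i).le
  set P := ∑ i ∈ g, p i with hPdef
  have hPx : P + x = 1 := by
    rw [hPdef, hxdef, Finset.sum_add_sum_compl, hI.psum]
  have hP : P = 1 - x := by linarith
  have hP0 : 3 / 4 ≤ P := by linarith
  have hP1 : P ≤ 1 := by linarith
  -- inner products
  have hs : ∀ i j, (inner ℝ (w i) (w j)) ^ 2 ≤ (1 : ℝ) := by
    intro i j
    have h1 := abs_real_inner_le_norm (w i) (w j)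
    rw [hI.nrm i, hI.nrm j, one_mul] at h1
    rw [← sq_abs]
    have h2 := abs_nonneg (inner ℝ (w i) (w j) : ℝ)
    nlinarith
  -- T_k is nonnegative
  have hT : ∀ k, 0 ≤ Tk p w k := by
    intro k
    have h1 := hTPD n ι p w k (fun _ => 0) (by omega) (fun i => (hI.ppos i).le) hI.psum hI.nrm
      (fun _ => by simp)
    exact (sq_nonneg _).trans h1
  -- abbreviations
  set R := (n : ℝ) ^ 2 + n - AA n c 0 - AA n c 1 / n with hRdef
  have hRle : R ≤ C0 := hR n c hn ho ho2 hc hc1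
  have hA : ∀ k, 1 ≤ k → 0 ≤ AA n c k := fun k hk => AA_nonneg hBTS n c ho.le hc k hk
  have hA5 : ∀ k, 1 ≤ k → AA n c k ≤ 5 * (n : ℝ) ^ 2 := fun k hk =>
    AA_le hBTS n c ho.le ho2 hc k hk
  have hsmo : ∀ k, 0 < smo n k := fun k => (hSMB.1 n k (by omega)).1
  have hRsum : ∑ k ∈ Finset.Icc 2 m, AA n c k * smo n k ≤ R := by
    have h1 := hasR hMMS n hn c ho hc1
    have h2 := sum_le_hasSum (Finset.range (m - 1)) (fun k _ => by
      exact mul_nonneg (hA (k + 2) (by omega)) (hsmo (k + 2)).le) h1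
    refine le_trans (le_of_eq ?_) h2
    rw [Finset.range_eq_Ico, Finset.sum_Ico_add' (fun k => AA n c k * smo n k) 0 (m - 1) 2]
    apply Finset.sum_congr _ (fun _ _ => rfl)
    ext k
    rw [Finset.mem_Icc, Finset.mem_Ico]
    omega
  have hR0 : 0 ≤ R := le_trans (Finset.sum_nonneg fun k hk =>
    mul_nonneg (hA k (by rw [Finset.mem_Icc] at hk; omega)) (hsmo k).le) hRsum
  -- double sums
  have hpp : ∀ i j, 0 ≤ p i * p j := fun i j => mul_nonneg (hI.ppos i).le (hI.ppos j).le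
  have hPP : ∑ i ∈ g, ∑ j ∈ g, p i * p j = P ^ 2 := by
    rw [← Finset.sum_mul_sum, sq]
  -- second moment
  set Q := ∑ i ∈ gᶜ, ∑ j ∈ gᶜ, p i * p j * (inner ℝ (w i) (w j)) ^ 2 with hQdef
  have hQ0 : 0 ≤ Q := Finset.sum_nonneg fun i _ => Finset.sum_nonneg fun j _ =>
    mul_nonneg (hpp i j) (sq_nonneg _)
  have hiso : ∀ i, ∑ j, p j * (inner ℝ (w i) (w j)) ^ 2 = 1 / (n : ℝ) := by
    intro i
    have h1 := hI.iso (w i)
    rw [hI.nrm i, one_pow] at h1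
    rw [eq_div_iff hn0.ne', mul_comm]
    rw [← h1]
    congr 1
    apply Finset.sum_congr rfl
    intro j _
    rw [real_inner_comm]
  have hiso1 : ∀ (S : Finset ι), ∑ i ∈ S, ∑ j, p i * p j * (inner ℝ (w i) (w j)) ^ 2 =
      (∑ i ∈ S, p i) / n := by
    intro S
    rw [Finset.sum_div]
    apply Finset.sum_congr rfl
    intro i _
    have : ∑ j, p i * p j * (inner ℝ (w i) (w j)) ^ 2 =
        p i * ∑ j, p j * (inner ℝ (w i) (w j)) ^ 2 := by
      rw [Finset.mul_sum]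
      apply Finset.sum_congr rfl
      intro j _
      ring
    rw [this, hiso i]
    ring
  have hS2 : ∑ i ∈ g, ∑ j ∈ g, p i * p j * (inner ℝ (w i) (w j)) ^ 2 =
      (1 - 2 * x) / n + Q := by
    have h1 : ∑ i ∈ g, ∑ j ∈ g, p i * p j * (inner ℝ (w i) (w j)) ^ 2 +
        ∑ i ∈ g, ∑ j ∈ gᶜ, p i * p j * (inner ℝ (w i) (w j)) ^ 2 = P / n := by
      rw [← hiso1 g, ← Finset.sum_add_distrib]
      apply Finset.sum_congr rfl
      intro i _
      exact Finset.sum_add_sum_compl g _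
    have h2 : ∑ i ∈ gᶜ, ∑ j ∈ g, p i * p j * (inner ℝ (w i) (w j)) ^ 2 + Q = x / n := by
      rw [← hiso1 gᶜ, hQdef, ← Finset.sum_add_distrib]
      apply Finset.sum_congr rfl
      intro i _
      exact Finset.sum_add_sum_compl g _
    have h3 : ∑ i ∈ g, ∑ j ∈ gᶜ, p i * p j * (inner ℝ (w i) (w j)) ^ 2 =
        ∑ i ∈ gᶜ, ∑ j ∈ g, p i * p j * (inner ℝ (w i) (w j)) ^ 2 := by
      rw [Finset.sum_comm]
      apply Finset.sum_congr rfl
      intro i _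
      apply Finset.sum_congr rfl
      intro j _
      rw [real_inner_comm, mul_comm (p j)]
    have h4 : (1 - 2 * x) / n = P / n - x / n := by
      rw [hP]
      ring
    linarith
  -- higher moments
  have hSk : ∀ k, ∑ i ∈ g, ∑ j ∈ g, p i * p j * (inner ℝ (w i) (w j)) ^ (2 * k) ≤
      smo n k + Tk p w k := by
    intro k
    have h1 : smo n k + Tk p w k = ∑ i, ∑ j, p i * p j * (inner ℝ (w i) (w j)) ^ (2 * k) := by
      unfold Tk
      ring
    rw [h1]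
    have h0 : ∀ i j, 0 ≤ p i * p j * (inner ℝ (w i) (w j)) ^ (2 * k) := by
      intro i j
      apply mul_nonneg (hpp i j)
      rw [pow_mul]
      exact pow_nonneg (sq_nonneg _) _
    refine le_trans (Finset.sum_le_sum_of_subset_of_nonneg (Finset.subset_univ g)
      (fun i _ _ => Finset.sum_nonneg fun j _ => h0 i j)) ?_
    apply Finset.sum_le_sum
    intro i _
    exact Finset.sum_le_sum_of_subset_of_nonneg (Finset.subset_univ g) (fun j _ _ => h0 i j)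
  -- the near part
  set J := ∑ i ∈ g, p i * JJ θ p w i with hJdef
  have hkk0 : ∀ i j, 0 ≤ kk n (inner ℝ (w i) (w j)) := fun i j => (hk0 _ (hs i j)).1
  have hJ1 : ∑ i ∈ g, ∑ j ∈ g, p i * p j * (if 1 - (inner ℝ (w i) (w j)) ^ 2 ≤ θ ^ 2 then
      (n : ℝ) ^ 2 * (kk n (inner ℝ (w i) (w j)) + 1) else 0) ≤ J := by
    rw [hJdef]
    apply Finset.sum_le_sum
    intro i _
    have h1 : p i * JJ θ p w i = ∑ j, p i * p j *
        (if 1 - (inner ℝ (w i) (w j)) ^ 2 ≤ θ ^ 2 then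
        (n : ℝ) ^ 2 * (kk n (inner ℝ (w i) (w j)) + 1) else 0) := by
      unfold JJ
      rw [Finset.mul_sum, Finset.mul_sum]
      apply Finset.sum_congr rfl
      intro j _
      split_ifs <;> ring
    rw [h1]
    apply Finset.sum_le_sum_of_subset_of_nonneg (Finset.subset_univ g)
    intro j _ _
    apply mul_nonneg (hpp i j)
    split_ifs
    · have := hkk0 i j
      positivity
    · exact le_rfl
  have hJ0 : 0 ≤ J := by
    refine le_trans (Finset.sum_nonneg fun i _ => Finset.sum_nonneg fun j _ => ?_) hJ1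
    apply mul_nonneg (hpp i j)
    split_ifs
    · have := hkk0 i j
      positivity
    · exact le_rfl
  -- the energy
  have hXX : P ^ 2 * XX g p w = ∑ i ∈ g, ∑ j ∈ g, p i * p j * KK n (inner ℝ (w i) (w j)) := by
    have h1 : ∑ i ∈ g, ∑ j ∈ g, p i * p j * KK n (inner ℝ (w i) (w j)) =
        2 * (n : ℝ) ^ 2 * (∑ i ∈ g, ∑ j ∈ g, p i * p j * kk n (inner ℝ (w i) (w j))) +
        ((n : ℝ) ^ 2 - n - 2 * (n : ℝ) ^ 2) * (∑ i ∈ g, ∑ j ∈ g, p i * p j) -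
        (n : ℝ) ^ 2 * om n *
          (∑ i ∈ g, ∑ j ∈ g, p i * p j * √(1 - (inner ℝ (w i) (w j)) ^ 2)) := by
      simp only [Finset.mul_sum]
      rw [← Finset.sum_add_distrib, ← Finset.sum_sub_distrib]
      apply Finset.sum_congr rfl
      intro i _
      rw [← Finset.sum_add_distrib, ← Finset.sum_sub_distrib]
      apply Finset.sum_congr rfl
      intro j _
      unfold KK
      ring
    rw [h1, hPP]
    unfold XX
    have hP2 : P ≠ 0 := by linarith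
    rw [← hPdef]
    field_simp
    ring
  have hbound : P ^ 2 * XX g p w ≤ ∑ i ∈ g, ∑ j ∈ g, p i * p j *
      (∑ k ∈ Finset.range (m + 1), AA n c k * (inner ℝ (w i) (w j)) ^ (2 * k) -
        (n : ℝ) ^ 2 - n + 5 * (n : ℝ) ^ 2 / θ * (inner ℝ (w i) (w j)) ^ (2 * (m + 1)) +
      4 * (if 1 - (inner ℝ (w i) (w j)) ^ 2 ≤ θ ^ 2 then
        (n : ℝ) ^ 2 * (kk n (inner ℝ (w i) (w j)) + 1) else 0)) := by
    rw [hXX]
    apply Finset.sum_le_sum
    intro i _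
    apply Finset.sum_le_sum
    intro j _
    exact mul_le_mul_of_nonneg_left (kernel_bound hBTS n m hn c ho.le ho2 hc
      (fun s hs => (hk0 s hs).1) hkt _ θ hθ hθ1 (hs i j)) (hpp i j)
  have hsplit : ∑ i ∈ g, ∑ j ∈ g, p i * p j *
      (∑ k ∈ Finset.range (m + 1), AA n c k * (inner ℝ (w i) (w j)) ^ (2 * k) -
        (n : ℝ) ^ 2 - n + 5 * (n : ℝ) ^ 2 / θ * (inner ℝ (w i) (w j)) ^ (2 * (m + 1)) +
      4 * (if 1 - (inner ℝ (w i) (w j)) ^ 2 ≤ θ ^ 2 then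
        (n : ℝ) ^ 2 * (kk n (inner ℝ (w i) (w j)) + 1) else 0)) =
      ∑ k ∈ Finset.range (m + 1), AA n c k *
        (∑ i ∈ g, ∑ j ∈ g, p i * p j * (inner ℝ (w i) (w j)) ^ (2 * k)) -
      ((n : ℝ) ^ 2 + n) * P ^ 2 +
      5 * (n : ℝ) ^ 2 / θ *
        (∑ i ∈ g, ∑ j ∈ g, p i * p j * (inner ℝ (w i) (w j)) ^ (2 * (m + 1))) +
      4 * ∑ i ∈ g, ∑ j ∈ g, p i * p j * (if 1 - (inner ℝ (w i) (w j)) ^ 2 ≤ θ ^ 2 then
        (n : ℝ) ^ 2 * (kk n (inner ℝ (w i) (w j)) + 1) else 0) := by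
    have h1 : ∑ k ∈ Finset.range (m + 1), AA n c k *
        (∑ i ∈ g, ∑ j ∈ g, p i * p j * (inner ℝ (w i) (w j)) ^ (2 * k)) =
        ∑ i ∈ g, ∑ j ∈ g, p i * p j *
          ∑ k ∈ Finset.range (m + 1), AA n c k * (inner ℝ (w i) (w j)) ^ (2 * k) := by
      simp only [Finset.mul_sum]
      rw [Finset.sum_comm]
      apply Finset.sum_congr rfl
      intro i _
      rw [Finset.sum_comm]
      apply Finset.sum_congr rfl
      intro j _
      apply Finset.sum_congr rfl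
      intro k _
      ring
    rw [h1, ← hPP]
    simp only [Finset.mul_sum (s := g)]
    rw [← Finset.sum_sub_distrib, ← Finset.sum_add_distrib, ← Finset.sum_add_distrib]
    apply Finset.sum_congr rfl
    intro i _
    rw [← Finset.sum_sub_distrib, ← Finset.sum_add_distrib, ← Finset.sum_add_distrib]
    apply Finset.sum_congr rfl
    intro j _
    ring
  rw [hsplit] at hbound
  have hrange : ∑ k ∈ Finset.range (m + 1), AA n c k *
      (∑ i ∈ g, ∑ j ∈ g, p i * p j * (inner ℝ (w i) (w j)) ^ (2 * k)) =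
      AA n c 0 * P ^ 2 + AA n c 1 * ((1 - 2 * x) / n + Q) +
      ∑ k ∈ Finset.Icc 2 m, AA n c k *
        (∑ i ∈ g, ∑ j ∈ g, p i * p j * (inner ℝ (w i) (w j)) ^ (2 * k)) := by
    have h1 : Finset.range (m + 1) = insert 0 (insert 1 (Finset.Icc 2 m)) := by
      ext k
      rw [Finset.mem_range, Finset.mem_insert, Finset.mem_insert, Finset.mem_Icc]
      omega
    rw [h1, Finset.sum_insert (by
      rw [Finset.mem_insert, Finset.mem_Icc]; omega), Finset.sum_insert (by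
      rw [Finset.mem_Icc]; omega)]
    have h2 : ∑ i ∈ g, ∑ j ∈ g, p i * p j * (inner ℝ (w i) (w j)) ^ (2 * 0) = P ^ 2 := by
      rw [← hPP]
      simp
    have h3 : ∑ i ∈ g, ∑ j ∈ g, p i * p j * (inner ℝ (w i) (w j)) ^ (2 * 1) =
        (1 - 2 * x) / n + Q := by
      rw [← hS2, mul_one]
    rw [h2, h3]
    ring
  have hmid : ∑ k ∈ Finset.Icc 2 m, AA n c k *
      (∑ i ∈ g, ∑ j ∈ g, p i * p j * (inner ℝ (w i) (w j)) ^ (2 * k)) ≤
      R + 5 * (n : ℝ) ^ 2 * ∑ k ∈ Finset.Icc 2 m, Tk p w k := by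
    have h1 : ∑ k ∈ Finset.Icc 2 m, AA n c k *
        (∑ i ∈ g, ∑ j ∈ g, p i * p j * (inner ℝ (w i) (w j)) ^ (2 * k)) ≤
        ∑ k ∈ Finset.Icc 2 m, (AA n c k * smo n k + 5 * (n : ℝ) ^ 2 * Tk p w k) := by
      apply Finset.sum_le_sum
      intro k hk
      rw [Finset.mem_Icc] at hk
      have e1 := mul_le_mul_of_nonneg_left (hSk k) (hA k (by omega))
      have e2 := mul_le_mul_of_nonneg_right (hA5 k (by omega)) (hT k)
      nlinarith
    rw [Finset.sum_add_distrib, ← Finset.mul_sum] at h1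
    linarith
  have hlast : 5 * (n : ℝ) ^ 2 / θ *
      (∑ i ∈ g, ∑ j ∈ g, p i * p j * (inner ℝ (w i) (w j)) ^ (2 * (m + 1))) ≤
      5 / θ * ((n : ℝ) ^ 2 * Tk p w (m + 1)) +
      5 / θ * (((2 * m + 2).factorial : ℝ) * (n : ℝ) ^ (1 - (m : ℝ))) := by
    have h1 := hSk (m + 1)
    have h2 := (hSMB.1 n (m + 1) (by omega)).2.2.2
    have h3 : (n : ℝ) ^ 2 * smo n (m + 1) ≤
        ((2 * m + 2).factorial : ℝ) * (n : ℝ) ^ (1 - (m : ℝ)) := by
      rw [Real.rpow_sub hn0, Real.rpow_one, Real.rpow_natCast]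
      have e1 : (2 * (m + 1)) = 2 * m + 2 := by ring
      rw [e1] at h2
      have hm0 : (0 : ℝ) < (n : ℝ) ^ m := pow_pos hn0 m
      rw [mul_div_assoc', le_div_iff₀ hm0]
      have e2 : (n : ℝ) ^ 2 * smo n (m + 1) * (n : ℝ) ^ m =
          (smo n (m + 1) * (n : ℝ) ^ (m + 1)) * n := by ring
      rw [e2]
      exact mul_le_mul_of_nonneg_right h2 hn0.le
    have h4 : 5 * (n : ℝ) ^ 2 / θ *
        (∑ i ∈ g, ∑ j ∈ g, p i * p j * (inner ℝ (w i) (w j)) ^ (2 * (m + 1))) ≤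
        5 * (n : ℝ) ^ 2 / θ * (smo n (m + 1) + Tk p w (m + 1)) :=
      mul_le_mul_of_nonneg_left h1 (by positivity)
    have h5 : 5 * (n : ℝ) ^ 2 / θ * (smo n (m + 1) + Tk p w (m + 1)) =
        5 / θ * ((n : ℝ) ^ 2 * Tk p w (m + 1)) + 5 / θ * ((n : ℝ) ^ 2 * smo n (m + 1)) := by
      ring
    have h6 : 5 / θ * ((n : ℝ) ^ 2 * smo n (m + 1)) ≤
        5 / θ * (((2 * m + 2).factorial : ℝ) * (n : ℝ) ^ (1 - (m : ℝ))) :=
      mul_le_mul_of_nonneg_left h3 (by positivity)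
    linarith
  have hTsum : ∑ k ∈ Finset.Icc 2 (m + 1), Tk p w k =
      ∑ k ∈ Finset.Icc 2 m, Tk p w k + Tk p w (m + 1) :=
    Finset.sum_Icc_succ_top (by omega) _
  rw [hTsum]
  rw [hrange] at hbound
  exact fin1 _ _ _ _ _ _ _ _ _ _ _ _ _ _ _ _ _ _ hn' rfl hP hx0 hx hR0 hRle (hA 1 le_rfl)
    (hA5 1 le_rfl) hQ0 (Finset.sum_nonneg fun k _ => hT k) (hT (m + 1))
    (by exact_mod_cast Nat.one_le_iff_ne_zero.2 (Nat.factorial_ne_zero _))
    (Real.rpow_nonneg hn0.le _) hJ1 hJ0 hθ hθ1 hmid hlast hbound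

end PPX
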