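import Pool.Agent.PPX.Stmts

/-!
# Squad PPX, module ZDT: the zonotope and determinants
-/

set_option autoImplicit false

namespace PPX

open MeasureTheory Set Filter Topology
open PPI PPG
open scoped Pointwise ENNReal

namespace ZDT_

theorem integ (c : ℝ → ℝ) (hm : Measurable c) (h0 : ∀ t, 0 ≤ c t)
    (h : ∫⁻ t : ℝ, ENNReal.ofReal (c t) ≤ 2) : Integrable c ∧ ∫ t, c t ≤ 2 := by
  have hfin : ∫⁻ t : ℝ, ENNReal.ofReal (c t) < ∞ := lt_of_le_of_lt h (by norm_num)
  have hi : Integrable c := by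
    refine ⟨hm.aestronglyMeasurable, ?_⟩
    rw [hasFiniteIntegral_iff_ofReal (Filter.Eventually.of_forall h0)]
    exact hfin
  refine ⟨hi, ?_⟩
  rw [integral_eq_lintegral_of_nonneg_ae (Filter.Eventually.of_forall h0) hm.aestronglyMeasurable]
  have := ENNReal.toReal_mono (by norm_num) h
  simpa using this

/-- the product of the functions, integrated over `R^n` -/
theorem prod_lint {n : ℕ} (d : Fin n → ℝ → ℝ) (hm : ∀ k, Measurable (d k))
    (h0 : ∀ k t, 0 ≤ d k t) (h : ∀ k, ∫⁻ t : ℝ, ENNReal.ofReal (d k t) ≤ 2) :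
    ∫⁻ y : Fin n → ℝ, ENNReal.ofReal (∏ k, d k (y k)) ≤ ENNReal.ofReal (2 ^ n) := by
  have hint : Integrable (fun y : Fin n → ℝ => ∏ k, d k (y k)) := by
    have := MeasureTheory.Integrable.fintype_prod_dep (𝕜 := ℝ) (ι := Fin n)
      (E := fun _ => ℝ) (f := d) (μ := fun _ => volume) (fun k => (integ (d k) (hm k) (h0 k) (h k)).1)
    exact this
  have hnn : ∀ y : Fin n → ℝ, 0 ≤ ∏ k, d k (y k) := fun y =>
    Finset.prod_nonneg fun k _ => h0 k _
  rw [← ofReal_integral_eq_lintegral_ofReal hint (Filter.Eventually.of_forall hnn)]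
  apply ENNReal.ofReal_le_ofReal
  rw [integral_fintype_prod_volume_eq_prod (𝕜 := ℝ) (ι := Fin n) (E := fun _ => ℝ) d]
  have hle : ∀ k ∈ (Finset.univ : Finset (Fin n)), ∫ t, d k t ≤ 2 := fun k _ =>
    (integ (d k) (hm k) (h0 k) (h k)).2
  have := Finset.prod_le_prod (s := (Finset.univ : Finset (Fin n)))
    (fun k _ => integral_nonneg (h0 k)) hle
  simpa using this

theorem lint_lin {n : ℕ} (w : Fin n → EE n) (hw : dt w ≠ 0) (d : Fin n → ℝ → ℝ)
    (hm : ∀ k, Measurable (d k))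
    (h0 : ∀ k t, 0 ≤ d k t) (h : ∀ k, ∫⁻ t : ℝ, ENNReal.ofReal (d k t) ≤ 2) :
    ∫⁻ x : EE n, ENNReal.ofReal (∏ k, d k (inner ℝ x (w k))) ≤
      ENNReal.ofReal (2 ^ n / |dt w|) := by
  let M : Matrix (Fin n) (Fin n) ℝ := Matrix.of fun k j => w k j
  let A : EE n →ₗ[ℝ] EE n := Matrix.toEuclideanLin M
  have hdet : LinearMap.det A = dt w := by
    have : A = Matrix.toLin (EuclideanSpace.basisFun (Fin n) ℝ).toBasis
        (EuclideanSpace.basisFun (Fin n) ℝ).toBasis M := by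
      show Matrix.toEuclideanLin M = _
      rw [Matrix.toEuclideanLin_eq_toLin_orthonormal]
    rw [this, LinearMap.det_toLin]
    rfl
  have hA : ∀ (x : EE n) (k : Fin n), inner ℝ x (w k) = (A x) k := by
    intro x k
    show _ = (Matrix.toEuclideanLin M x).ofLp k
    rw [Matrix.ofLp_toEuclideanLin_apply, PiLp.inner_apply]
    simp only [Matrix.mulVec, dotProduct, M, Matrix.of_apply]
    refine Finset.sum_congr rfl fun j _ => ?_
    simp
  have h1 : ∀ x : EE n, ENNReal.ofReal (∏ k, d k (inner ℝ x (w k))) =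
      ENNReal.ofReal (∏ k, d k ((A x).ofLp k)) := by
    intro x
    have h5 : ∏ k, d k (inner ℝ x (w k)) = ∏ k, d k ((A x).ofLp k) :=
      Finset.prod_congr rfl fun k _ => by rw [hA]
    rw [h5]
  simp_rw [h1]
  have hmm : Measurable fun y : Fin n → ℝ => ∏ k, d k (y k) :=
    Finset.measurable_prod _ fun k _ => (hm k).comp (measurable_pi_apply k)
  have hmeas : Measurable fun y : EE n => ENNReal.ofReal (∏ k, d k (y.ofLp k)) :=
    (hmm.comp (PiLp.volume_preserving_ofLp (Fin n)).measurable).ennreal_ofReal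
  have hAm : Measurable A := (LinearMap.continuous_of_finiteDimensional A).measurable
  have h2 : ∫⁻ x : EE n, ENNReal.ofReal (∏ k, d k ((A x).ofLp k)) =
      ∫⁻ y, ENNReal.ofReal (∏ k, d k (y.ofLp k)) ∂(Measure.map A volume) := by
    rw [lintegral_map hmeas hAm]
  have hne : LinearMap.det A ≠ 0 := by rw [hdet]; exact hw
  rw [h2, Measure.map_linearMap_addHaar_eq_smul_addHaar volume hne, lintegral_smul_measure]
  have h3 : ∫⁻ y : EE n, ENNReal.ofReal (∏ k, d k (y.ofLp k)) ≤ ENNReal.ofReal (2 ^ n) := by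
    refine le_trans (le_of_eq ?_) (prod_lint d hm h0 h)
    exact (PiLp.volume_preserving_ofLp (Fin n)).lintegral_comp
      (f := fun y => ENNReal.ofReal (∏ k, d k (y k))) hmm.ennreal_ofReal
  rw [hdet, smul_eq_mul]
  calc ENNReal.ofReal |(dt w)⁻¹| * ∫⁻ y : EE n, ENNReal.ofReal (∏ k, d k (y.ofLp k))
      ≤ ENNReal.ofReal |(dt w)⁻¹| * ENNReal.ofReal (2 ^ n) := by gcongr
    _ = ENNReal.ofReal (2 ^ n / |dt w|) := by
        rw [← ENNReal.ofReal_mul (abs_nonneg _), abs_inv]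
        congr 1
        field_simp

/-- the determinant of the vectors `T_x v` -/
theorem dt_tx {n : ℕ} (x : EE n) (v : Fin n → EE n) :
    dt (fun k => tx x (v k)) = √(1 + ‖x‖ ^ 2) * dt v := by
  have hs0 : 0 < 1 + √(1 + ‖x‖ ^ 2) := by positivity
  have hmat : (Matrix.of fun k j => tx x (v k) j : Matrix (Fin n) (Fin n) ℝ) =
      (Matrix.of fun k j => v k j) *
        (1 + Matrix.replicateCol Unit (fun j => x j) *
          Matrix.replicateRow Unit (fun j => x j / (1 + √(1 + ‖x‖ ^ 2)))) := by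
    ext k j
    rw [Matrix.mul_add, Matrix.mul_one, Matrix.add_apply, Matrix.of_apply, Matrix.of_apply,
      Matrix.mul_apply]
    have h1 : (tx x (v k)) j = v k j + (inner ℝ x (v k) / (1 + √(1 + ‖x‖ ^ 2))) * x j := by
      simp [tx]
    rw [h1, PiLp.inner_apply]
    congr 1
    rw [Finset.sum_div, Finset.sum_mul]
    refine Finset.sum_congr rfl fun l _ => ?_
    rw [Matrix.of_apply, Matrix.mul_apply]
    simp
    ring
  have hnorm : ∑ j, x j * x j = ‖x‖ ^ 2 := by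
    rw [EuclideanSpace.norm_sq_eq]
    refine Finset.sum_congr rfl fun j _ => ?_
    rw [Real.norm_eq_abs, sq_abs, sq]
  unfold dt
  rw [hmat, Matrix.det_mul, Matrix.det_one_add_replicateCol_mul_replicateRow, mul_comm]
  congr 1
  have h2 : (fun j => x j / (1 + √(1 + ‖x‖ ^ 2))) ⬝ᵥ (fun j => x j) =
      ‖x‖ ^ 2 / (1 + √(1 + ‖x‖ ^ 2)) := by
    unfold dotProduct
    rw [← hnorm, Finset.sum_div]
    refine Finset.sum_congr rfl fun j _ => ?_
    ring
  rw [h2]
  have h3 : √(1 + ‖x‖ ^ 2) ^ 2 = 1 + ‖x‖ ^ 2 := Real.sq_sqrt (by positivity)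
  field_simp
  linear_combination -h3

/-- the powers cancel -/
theorem cancel {n : ℕ} (a : ℝ) (ha : 0 < a) :
    √a ^ n * a * a ^ (-((n : ℝ) / 2) - 1) = 1 := by
  have h1 : √a ^ n = a ^ ((n : ℝ) / 2) := by
    rw [Real.sqrt_eq_rpow, ← Real.rpow_natCast, ← Real.rpow_mul ha.le]
    congr 1
    ring
  have h2 : a ^ ((n : ℝ) / 2) * a * a ^ (-((n : ℝ) / 2) - 1) =
      a ^ ((n : ℝ) / 2) * a ^ (1 : ℝ) * a ^ (-((n : ℝ) / 2) - 1) := by rw [Real.rpow_one]
  rw [h1, h2, ← Real.rpow_add ha, ← Real.rpow_add ha]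
  have : (n : ℝ) / 2 + 1 + (-((n : ℝ) / 2) - 1) = 0 := by ring
  rw [this, Real.rpow_zero]

end ZDT_

open ZDT_ in
theorem zdt_proof (hCBS : PPI.Stmt_CBS) (hAVE : PPI.Stmt_AVE) : Stmt_ZDT := by
  intro n ι _ p w c hn hp hcm hc0 hc2
  have hk : 0 < kap n := (hAVE n (by omega)).1
  have hk1 : 0 < kap (n - 1) := (hAVE (n - 1) (by omega)).1
  have hn0 : (0 : ℝ) < n := by exact_mod_cast (by omega : 0 < n)
  have hcn : 0 < PPX.cn n := by unfold PPX.cn; positivity
  -- the function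
  obtain ⟨F, hF⟩ : ∃ F : EE n → ℝ, F = fun x : EE n => (Mt (fun i => (n : ℝ) / PPX.cn n *
    √(1 + ‖x‖ ^ 2) * p i * c i (inner ℝ x (w i))) w x).det := ⟨_, rfl⟩
  have hFx : ∀ x, F x = (∑ f : Fin n → ι, (((n : ℝ) / PPX.cn n) ^ n * (∏ k, p (f k)) *
      dt (fun k => w (f k)) ^ 2) * (∏ k, c (f k) (inner ℝ x (w (f k)))) *
      (√(1 + ‖x‖ ^ 2) ^ n * (1 + ‖x‖ ^ 2))) / n.factorial := by
    intro x
    rw [hF]
    show (Mt (fun i => (n : ℝ) / PPX.cn n * √(1 + ‖x‖ ^ 2) * p i * c i (inner ℝ x (w i))) w x).det = _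
    unfold Mt
    rw [hCBS n ι _ (fun i => tx x (w i))]
    congr 1
    refine Finset.sum_congr rfl fun f _ => ?_
    rw [dt_tx x (fun k => w (f k))]
    have h1 : ∏ k, ((n : ℝ) / PPX.cn n * √(1 + ‖x‖ ^ 2) * p (f k) * c (f k) (inner ℝ x (w (f k)))) =
        ((n : ℝ) / PPX.cn n) ^ n * √(1 + ‖x‖ ^ 2) ^ n * (∏ k, p (f k)) *
          ∏ k, c (f k) (inner ℝ x (w (f k))) := by
      rw [Finset.prod_mul_distrib, Finset.prod_mul_distrib, Finset.prod_const]
      rw [Finset.card_univ, Fintype.card_fin, mul_pow]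
    rw [h1, mul_pow, Real.sq_sqrt (by positivity)]
    ring
  have hF0 : ∀ x, 0 ≤ F x := by
    intro x
    rw [hFx]
    apply div_nonneg _ (by positivity)
    refine Finset.sum_nonneg fun f _ => ?_
    have h1 : 0 ≤ ∏ k, p (f k) := Finset.prod_nonneg fun k _ => hp _
    have h2 : 0 ≤ ∏ k, c (f k) (inner ℝ x (w (f k))) := Finset.prod_nonneg fun k _ => hc0 _ _
    positivity
  have hcmeas : ∀ f : Fin n → ι, Measurable fun x : EE n => ∏ k, c (f k) (inner ℝ x (w (f k))) :=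
    fun f => Finset.measurable_prod _ fun k _ => (hcm (f k)).comp (by fun_prop)
  have hFm : Measurable F := by
    have : F = fun x => (∑ f : Fin n → ι, (((n : ℝ) / PPX.cn n) ^ n * (∏ k, p (f k)) *
      dt (fun k => w (f k)) ^ 2) * (∏ k, c (f k) (inner ℝ x (w (f k)))) *
      (√(1 + ‖x‖ ^ 2) ^ n * (1 + ‖x‖ ^ 2))) / (n.factorial : ℝ) := funext hFx
    rw [this]
    refine Measurable.div_const (Finset.measurable_sum _ fun f _ => ?_) _
    refine ((hcmeas f).const_mul _).mul ?_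
    fun_prop
  have hdm : Measurable fun x : EE n =>
      ENNReal.ofReal ((1 + ‖x‖ ^ 2) ^ (-((n : ℝ) / 2) - 1) / kap n) := by
    refine Measurable.ennreal_ofReal (Measurable.div_const ?_ _)
    exact Measurable.pow_const (by fun_prop) _
  -- the constant
  obtain ⟨C, hC⟩ : ∃ C : ℝ, C = ((n : ℝ) / PPX.cn n) ^ n / (n.factorial * kap n) := ⟨_, rfl⟩
  have hC0 : 0 < C := by rw [hC]; positivity
  have hprod : ∀ x : EE n, (1 + ‖x‖ ^ 2) ^ (-((n : ℝ) / 2) - 1) / kap n * F x =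
      ∑ f : Fin n → ι, (C * (∏ k, p (f k)) * dt (fun k => w (f k)) ^ 2) *
        (∏ k, c (f k) (inner ℝ x (w (f k)))) := by
    intro x
    have h1 := cancel (n := n) (1 + ‖x‖ ^ 2) (by positivity)
    rw [hFx, hC, Finset.sum_div, Finset.mul_sum]
    refine Finset.sum_congr rfl fun f _ => ?_
    calc (1 + ‖x‖ ^ 2) ^ (-((n : ℝ) / 2) - 1) / kap n *
        ((((n : ℝ) / PPX.cn n) ^ n * (∏ k, p (f k)) * dt (fun k => w (f k)) ^ 2) *
          (∏ k, c (f k) (inner ℝ x (w (f k)))) * (√(1 + ‖x‖ ^ 2) ^ n * (1 + ‖x‖ ^ 2)) /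
            n.factorial) =
        (((n : ℝ) / PPX.cn n) ^ n / (n.factorial * kap n) * (∏ k, p (f k)) *
          dt (fun k => w (f k)) ^ 2) * (∏ k, c (f k) (inner ℝ x (w (f k)))) *
          (√(1 + ‖x‖ ^ 2) ^ n * (1 + ‖x‖ ^ 2) * (1 + ‖x‖ ^ 2) ^ (-((n : ℝ) / 2) - 1)) := by
          field_simp
      _ = _ := by rw [h1, mul_one]
  have hcoef : ∀ f : Fin n → ι, 0 ≤ C * (∏ k, p (f k)) * dt (fun k => w (f k)) ^ 2 := by
    intro f
    have h1 : 0 ≤ ∏ k, p (f k) := Finset.prod_nonneg fun k _ => hp _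
    positivity
  have hlint : ∫⁻ x, ENNReal.ofReal (F x) ∂(mun n) ≤
      ENNReal.ofReal (C * 2 ^ n * XT p w) := by
    unfold mun
    rw [lintegral_withDensity_eq_lintegral_mul _ hdm hFm.ennreal_ofReal]
    have h1 : ∀ x : EE n, ((fun x : EE n => ENNReal.ofReal ((1 + ‖x‖ ^ 2) ^ (-((n : ℝ) / 2) - 1) /
        kap n)) * fun x => ENNReal.ofReal (F x)) x =
        ∑ f : Fin n → ι, ENNReal.ofReal (C * (∏ k, p (f k)) * dt (fun k => w (f k)) ^ 2) *
          ENNReal.ofReal (∏ k, c (f k) (inner ℝ x (w (f k)))) := by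
      intro x
      rw [Pi.mul_apply, ← ENNReal.ofReal_mul (by positivity), hprod,
        ENNReal.ofReal_sum_of_nonneg (fun f _ => mul_nonneg (hcoef f)
          (Finset.prod_nonneg fun k _ => hc0 _ _))]
      refine Finset.sum_congr rfl fun f _ => ?_
      rw [ENNReal.ofReal_mul (hcoef f)]
    rw [lintegral_congr h1, lintegral_finsetSum _ (fun f _ =>
      ((hcmeas f).ennreal_ofReal).const_mul _)]
    have h2 : ∀ f : Fin n → ι, ∫⁻ x : EE n,
        ENNReal.ofReal (C * (∏ k, p (f k)) * dt (fun k => w (f k)) ^ 2) *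
          ENNReal.ofReal (∏ k, c (f k) (inner ℝ x (w (f k)))) ≤
        ENNReal.ofReal (C * 2 ^ n * ((∏ k, p (f k)) * |dt (fun k => w (f k))|)) := by
      intro f
      rw [lintegral_const_mul _ (hcmeas f).ennreal_ofReal]
      by_cases hd : dt (fun k => w (f k)) = 0
      · rw [hd]
        simp
      · have h3 := lint_lin (fun k => w (f k)) hd (fun k => c (f k)) (fun k => hcm _)
          (fun k => hc0 _) (fun k => hc2 _)
        calc _ ≤ ENNReal.ofReal (C * (∏ k, p (f k)) * dt (fun k => w (f k)) ^ 2) *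
              ENNReal.ofReal (2 ^ n / |dt (fun k => w (f k))|) := by gcongr
          _ = _ := by
            rw [← ENNReal.ofReal_mul (hcoef f)]
            congr 1
            have h4 : |dt (fun k => w (f k))| ≠ 0 := abs_ne_zero.2 hd
            rw [← sq_abs (dt (fun k => w (f k)))]
            field_simp
    have hXnn : ∀ f : Fin n → ι, 0 ≤ C * 2 ^ n * ((∏ k, p (f k)) * |dt (fun k => w (f k))|) := by
      intro f
      have h1 : 0 ≤ ∏ k, p (f k) := Finset.prod_nonneg fun k _ => hp _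
      positivity
    calc _ ≤ ∑ f : Fin n → ι, ENNReal.ofReal (C * 2 ^ n * ((∏ k, p (f k)) *
          |dt (fun k => w (f k))|)) := Finset.sum_le_sum fun f _ => h2 f
      _ = ENNReal.ofReal (C * 2 ^ n * XT p w) := by
        rw [← ENNReal.ofReal_sum_of_nonneg (fun f _ => hXnn f), ← Finset.mul_sum]
        rfl
  have hXT0 : 0 ≤ XT p w := by
    unfold XT
    refine Finset.sum_nonneg fun f _ => ?_
    have h1 : 0 ≤ ∏ k, p (f k) := Finset.prod_nonneg fun k _ => hp _
    positivity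
  have hint : Integrable F (mun n) := by
    refine ⟨hFm.aestronglyMeasurable, ?_⟩
    rw [hasFiniteIntegral_iff_ofReal (Filter.Eventually.of_forall hF0)]
    exact lt_of_le_of_lt hlint ENNReal.ofReal_lt_top
  have hle : ∫ x, F x ∂(mun n) ≤ C * 2 ^ n * XT p w := by
    rw [integral_eq_lintegral_of_nonneg_ae (Filter.Eventually.of_forall hF0)
      hFm.aestronglyMeasurable]
    apply ENNReal.toReal_le_of_le_ofReal (by positivity) hlint
  rw [hF] at hint hle
  refine ⟨hint, ?_⟩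
  have hX0 : 0 < X0 n := by unfold X0; positivity
  have hone : X0 n * (C * 2 ^ n) = 1 := by
    rw [hC]
    unfold X0 PPX.cn
    obtain ⟨m, rfl⟩ : ∃ m, n = m + 1 := ⟨n - 1, by omega⟩
    have e1 : m + 1 - 1 = m := by omega
    rw [e1] at hk1 ⊢
    have h1 : ((m + 1 : ℕ) : ℝ) ≠ 0 := hn0.ne'
    rw [div_pow, div_pow, mul_pow, pow_succ (kap (m + 1)) m]
    have h2 : (((m + 1 : ℕ) : ℝ)) ^ (m + 1) ≠ 0 := pow_ne_zero _ h1
    have h3 : ((m + 1).factorial : ℝ) ≠ 0 := by positivity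
    field_simp
  calc X0 n * ∫ x, (Mt (fun i => (n : ℝ) / PPX.cn n * √(1 + ‖x‖ ^ 2) * p i *
      c i (inner ℝ x (w i))) w x).det ∂(mun n) ≤ X0 n * (C * 2 ^ n * XT p w) :=
        mul_le_mul_of_nonneg_left hle hX0.le
    _ = XT p w := by rw [← mul_assoc, hone, one_mul]

end PPX
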