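import Pool.Agent.PPG.Final
import Pool.Agent.PPX.BTS
import Pool.Agent.PPX.SMB
import Pool.Agent.PPX.DSB
import Pool.Agent.PPX.CNB
import Pool.Agent.PPX.BAS
import Pool.Agent.PPX.MUN
import Pool.Agent.PPX.C1D
import Pool.Agent.PPX.RD1
import Pool.Agent.PPX.RD2
import Pool.Agent.PPX.EW1
import Pool.Agent.PPX.IN3
import Pool.Agent.PPX.GQF
import Pool.Agent.PPX.KGM
import Pool.Agent.PPX.KSR
import Pool.Agent.PPX.SPH
import Pool.Agent.PPX.SPQ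
import Pool.Agent.PPX.KAV
import Pool.Agent.PPX.SMM
import Pool.Agent.PPX.PMM
import Pool.Agent.PPX.SM4
import Pool.Agent.PPX.SQR
import Pool.Agent.PPX.MMS
import Pool.Agent.PPX.KEN
import Pool.Agent.PPX.TPD
import Pool.Agent.PPX.PSQ
import Pool.Agent.PPX.WLD
import Pool.Agent.PPX.QBD
import Pool.Agent.PPX.TBD
import Pool.Agent.PPX.CLU
import Pool.Agent.PPX.LAY
import Pool.Agent.PPX.ZDT
import Pool.Agent.PPX.DTL
import Pool.Agent.PPX.XEX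
import Pool.Agent.PPX.EMB
import Pool.Agent.PPX.JLB
import Pool.Agent.PPX.XUB
import Pool.Agent.PPX.BQQ
import Pool.Agent.PPX.RG1
import Pool.Agent.PPX.QSR
import Pool.Agent.PPX.HSS
import Pool.Agent.PPX.SUP
import Pool.Agent.PPX.GRS
import Pool.Agent.PPX.RG4
import Pool.Agent.PPX.THT
import Pool.Agent.PPX.PRM
import Pool.Agent.PPX.GE4
import Pool.Agent.PPX.IS2
import Pool.Agent.PPX.FAA
import Pool.Agent.PPX.CEN
import Pool.Agent.PPX.ORB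
import Pool.Agent.PPX.IRQ
import Pool.Agent.PPX.IMG
import Pool.Agent.PPX.SHI
import Pool.Agent.PPX.SYF
import Pool.Agent.PPX.FBB
import Pool.Agent.PPX.LIN
import Pool.Agent.PPX.AFF
import Pool.Agent.PPX.FBC

/-!
# Squad PPX (MP_0bf616_gt): assembly
-/

set_option autoImplicit false

namespace PPX

theorem t_BTS : Stmt_BTS := bts_proof
theorem t_SMB : Stmt_SMB := smb_proof
theorem t_DSB : Stmt_DSB := dsb_proof t_BTS t_SMB
theorem t_CNB : Stmt_CNB := cnb_proof PPI.t_NUA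
theorem t_BAS : Stmt_BAS := bas_proof
theorem t_MUN : Stmt_MUN := mun_proof t_BAS PPI.t_AVE
theorem t_C1D : Stmt_C1D := c1d_proof PPI.t_AVE
theorem t_RD1 : Stmt_RD1 := rd1_proof t_BAS
theorem t_RD2 : Stmt_RD2 := rd2_proof t_BAS
theorem t_EW1 : Stmt_EW1 := ew1_proof t_RD1 t_C1D PPI.t_AVE
theorem t_IN3 : Stmt_IN3 := in3_proof t_RD2 t_C1D PPI.t_AVE
theorem t_GQF : Stmt_GQF := gqf_proof
theorem t_KGM : Stmt_KGM := kgm_proof t_GQF PPI.t_AVE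
theorem t_KSR : Stmt_KSR := ksr_proof t_BTS
theorem t_SPH : Stmt_SPH := sph_proof PPI.t_AVE
theorem t_SPQ : Stmt_SPQ := spq_proof t_SPH
theorem t_KAV : Stmt_KAV := kav_proof t_SPH t_SPQ t_EW1 t_KGM t_MUN
theorem t_SMM : Stmt_SMM := smm_proof t_SPH PPG.t_BMX
theorem t_PMM : Stmt_PMM := pmm_proof t_SMM t_SPH
theorem t_SM4 : Stmt_SM4 := sm4_proof t_SMM t_SPH
theorem t_SQR : Stmt_SQR := sqr_proof t_SPH PPI.t_AVE
theorem t_MMS : Stmt_MMS := mms_proof t_SQR t_SMM t_BTS t_SPH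
theorem t_KEN : Stmt_KEN := ken_proof t_KSR t_KAV t_SMM t_BTS t_SPH
theorem t_TPD : Stmt_TPD := tpd_proof t_SMM t_SPH
theorem t_PSQ : Stmt_PSQ := psq_proof t_PMM t_SMM t_TPD t_SPH
theorem t_WLD : Stmt_WLD := wld_proof t_SPH PPI.t_AVE
theorem t_QBD : Stmt_QBD := qbd_proof t_WLD t_SMM t_SPH
theorem t_TBD : Stmt_TBD := tbd_proof t_WLD t_PSQ t_TPD t_SMB t_SMM t_SPH
theorem t_CLU : Stmt_CLU := clu_proof PPF.t_CAP PPI.t_AVE
theorem t_LAY : Stmt_LAY := lay_proof t_CLU t_KEN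
theorem t_ZDT : Stmt_ZDT := zdt_proof PPI.t_CBS PPI.t_AVE
theorem t_DTL : Stmt_DTL := dtl_proof
theorem t_XEX : Stmt_XEX := xex_proof t_EW1 t_IN3 t_KGM t_MUN
theorem t_EMB : Stmt_EMB := emb_proof t_CNB t_MUN
theorem t_JLB : Stmt_JLB := jlb_proof t_ZDT t_DTL t_XEX t_EMB t_C1D t_CNB t_MUN
theorem t_XUB : Stmt_XUB := xub_proof t_KEN t_MMS t_BTS t_TPD t_SMB t_CNB
theorem t_BQQ : Stmt_BQQ := bqq_proof
theorem t_RG1 : Stmt_RG1 := rg1_proof t_JLB t_XUB t_BQQ t_TBD t_CLU t_LAY t_KEN PPI.t_AVE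
theorem t_QSR : Stmt_QSR := qsr_proof t_KEN t_BTS t_MMS t_TPD t_CNB
theorem t_HSS : Stmt_HSS := hss_proof t_TPD t_SMM t_SM4 t_MMS t_SPH
theorem t_SUP : Stmt_SUP := sup_proof t_TPD t_SMM t_MMS t_BTS t_SMB t_SPH
theorem t_GRS : Stmt_GRS := grs_proof t_PSQ t_DSB t_TPD t_QSR t_BTS t_MMS t_SMB t_SMM t_SPH
theorem t_RG4 : Stmt_RG4 := rg4_proof t_JLB t_QSR t_HSS t_SUP t_GRS t_WLD t_QBD t_TBD t_SQR t_SPH PPI.t_AVE t_TPD
theorem t_THT : Stmt_THT := tht_proof t_RG1 t_RG4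
theorem t_PRM : Stmt_PRM := prm_proof PPI.t_CEL
theorem t_GE4 : Stmt_GE4 := ge4_proof t_PRM PPI.t_CEL PPI.t_MKI PPI.t_PRJ
theorem t_IS2 : Stmt_IS2 := is2_proof t_GE4 PPG.t_PMN PPG.t_PFO PPI.t_SPN PPI.t_TRX PPI.t_ZON PPI.t_MON t_CNB PPI.t_AVE
theorem t_FAA : Stmt_FAA := faa_proof t_THT t_QBD t_IS2 PPG.t_AP2 PPI.t_MON PPI.t_AVE
theorem t_CEN : Stmt_CEN := cen_proof
theorem t_ORB : Stmt_ORB := orb_proof
theorem t_IRQ : Stmt_IRQ := irq_proof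
theorem t_IMG : Stmt_IMG := img_proof t_ORB t_IRQ
theorem t_SHI : Stmt_SHI := shi_proof
theorem t_SYF : Stmt_SYF := syf_proof t_GE4 t_ORB t_IRQ t_SHI PPI.t_ZON PPI.t_MON t_CNB PPI.t_AVE
theorem t_FBB : Stmt_FBB := fbb_proof t_THT t_QBD t_SYF t_IMG t_CEN t_CNB PPG.t_CRE PPG.t_AP2 PPI.t_AVE
theorem t_LIN : Stmt_LIN := lin_proof
theorem t_AFF : Stmt_AFF := aff_proof
theorem t_FBC : Stmt_FBC := fbc_proof t_FBB t_LIN t_AFF PPI.t_MON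

end PPX
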