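import Pool.Agent.PPX.Stmts

/-!
# Squad PPX (MP_0bf616_gt), module ORB: invariant weights
-/

set_option autoImplicit false

namespace PPX

open Set Filter Topology
open PPI PPG

namespace ORB_

/-! ## The convex hull of a compact set is compact -/

theorem isCompact_convexHull {F : Type*} [NormedAddCommGroup F] [NormedSpace ℝ F]
    [FiniteDimensional ℝ F] {s : Set F} (hs : IsCompact s) : IsCompact (convexHull ℝ s) := by
  classical
  rcases s.eq_empty_or_nonempty with rfl | ⟨z0, hz0⟩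
  · simp
  set N := Module.finrank ℝ F + 1 with hN
  let f : (Fin N → ℝ) × (Fin N → F) → F := fun p => ∑ j, p.1 j • p.2 j
  have hf : Continuous f := by fun_prop
  have hK : IsCompact ((stdSimplex ℝ (Fin N)) ×ˢ (Set.univ.pi (fun _ : Fin N => s))) :=
    (isCompact_stdSimplex ℝ (Fin N)).prod (isCompact_univ_pi (fun _ => hs))
  have heq : convexHull ℝ s = f '' ((stdSimplex ℝ (Fin N)) ×ˢ (Set.univ.pi (fun _ : Fin N => s))) := by
    apply Set.Subset.antisymm
    · intro x hx
      obtain ⟨ι, _, z, w, hz, hai, hw, hw1, hx⟩ := eq_pos_convex_span_of_mem_convexHull hx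
      have hcard : Fintype.card ι ≤ Fintype.card (Fin N) := by
        rw [Fintype.card_fin]
        refine le_trans hai.card_le_finrank_succ ?_
        exact Nat.add_le_add_right (Submodule.finrank_le _) 1
      obtain ⟨e⟩ := Function.Embedding.nonempty_of_card_le hcard
      have hinj := e.injective
      refine ⟨(Function.extend e w 0, Function.extend e z (fun _ => z0)), ⟨⟨?_, ?_⟩, ?_⟩, ?_⟩
      · intro j
        by_cases hj : ∃ i, e i = j
        · obtain ⟨i, rfl⟩ := hj
          show 0 ≤ Function.extend e w 0 (e i)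
          rw [hinj.extend_apply]
          exact (hw i).le
        · show 0 ≤ Function.extend e w 0 j
          rw [Function.extend_apply' _ _ _ hj]
          simp
      · rw [← hw1]
        symm
        apply Fintype.sum_of_injective e hinj
        · intro j hj
          exact Function.extend_apply' _ _ _ hj
        · intro i
          exact (hinj.extend_apply _ _ _).symm
      · intro j _
        by_cases hj : ∃ i, e i = j
        · obtain ⟨i, rfl⟩ := hj
          show Function.extend e z (fun _ => z0) (e i) ∈ s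
          rw [hinj.extend_apply]
          exact hz ⟨i, rfl⟩
        · show Function.extend e z (fun _ => z0) j ∈ s
          rw [Function.extend_apply' _ _ _ hj]
          exact hz0
      · rw [← hx]
        symm
        apply Fintype.sum_of_injective e hinj
        · intro j hj
          show Function.extend e w 0 j • _ = _
          rw [Function.extend_apply' _ _ _ hj]
          simp
        · intro i
          show w i • z i = Function.extend e w 0 (e i) • Function.extend e z (fun _ => z0) (e i)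
          rw [hinj.extend_apply, hinj.extend_apply]
    · rintro x ⟨⟨c, z⟩, ⟨⟨hc0, hc1⟩, hz⟩, rfl⟩
      exact (convex_convexHull ℝ s).sum_mem (fun j _ => hc0 j) hc1
        (fun j _ => subset_convexHull ℝ s (hz j (Set.mem_univ j)))
  rw [heq]
  exact hK.image hf

/-! ## Tensor powers -/

noncomputable section

variable {n : ℕ}

/-- the tensor power -/
def tau (k : ℕ) (v : EE n) : EuclideanSpace ℝ (Fin k → Fin n) :=
  WithLp.toLp 2 (fun α => ∏ l, v (α l))

theorem tau_inner (k : ℕ) (v v' : EE n) : inner ℝ (tau k v) (tau k v') = (inner ℝ v v') ^ k := by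
  simp only [tau, PiLp.inner_apply, RCLike.inner_apply, conj_trivial]
  rw [← Fin.prod_const, Finset.prod_univ_sum]
  simp only [Fintype.piFinset_univ, Finset.prod_mul_distrib]

theorem tau_cont (k : ℕ) : Continuous (tau k : EE n → _) := by
  unfold tau
  fun_prop

/-- the space of pairs of tensors -/
abbrev FF (n : ℕ) : Type :=
  WithLp 2 (EuclideanSpace ℝ (Fin 2 → Fin n) × EuclideanSpace ℝ (Fin 4 → Fin n))

variable {ι : Type} [Fintype ι]

/-- the pair of tensors of a family -/
def Phi (a : ι → ℝ) (w : ι → EE n) (T : EE n → EE n) : FF n :=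
  WithLp.toLp 2 (∑ i, (a i / ‖w i‖) • tau 2 (T (w i)), ∑ i, (a i / ‖w i‖ ^ 3) • tau 4 (T (w i)))

theorem Phi_inner (a : ι → ℝ) (w : ι → EE n) (T T' : EE n → EE n) :
    inner ℝ (Phi a w T) (Phi a w T') =
      (∑ i, ∑ i', a i / ‖w i‖ * (a i' / ‖w i'‖ * (inner ℝ (T (w i')) (T' (w i))) ^ 2)) +
      ∑ i, ∑ i', a i / ‖w i‖ ^ 3 * (a i' / ‖w i'‖ ^ 3 * (inner ℝ (T (w i')) (T' (w i))) ^ 4) := by
  simp only [Phi, WithLp.prod_inner_apply, sum_inner, inner_sum, real_inner_smul_left,
    real_inner_smul_right, tau_inner]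

theorem Phi_inner_left (a : ι → ℝ) (w : ι → EE n) (T : EE n → EE n) (x : EE n) (r s : ℝ) :
    inner ℝ (Phi a w T) (WithLp.toLp 2 (r • tau 2 x, s • tau 4 x) : FF n) =
      r * (∑ i, a i * ((inner ℝ (T (w i)) x) ^ 2 / ‖w i‖)) +
      s * ∑ i, a i * ((inner ℝ (T (w i)) x) ^ 4 / ‖w i‖ ^ 3) := by
  simp only [Phi, WithLp.prod_inner_apply, sum_inner, real_inner_smul_left,
    real_inner_smul_right, tau_inner]
  rw [Finset.mul_sum, Finset.mul_sum]
  congr 1
  · apply Finset.sum_congr rfl
    intro i _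
    ring
  · apply Finset.sum_congr rfl
    intro i _
    ring

theorem Phi_cont (a : ι → ℝ) (w : ι → EE n) :
    Continuous (fun T : EE n →L[ℝ] EE n => Phi a w T) := by
  have h2 := tau_cont (n := n) 2
  have h4 := tau_cont (n := n) 4
  have hev : ∀ x : EE n, Continuous (fun T : EE n →L[ℝ] EE n => T x) := by
    intro x
    exact (ContinuousLinearMap.apply ℝ (EE n) x).continuous
  unfold Phi
  apply (WithLp.prod_continuous_toLp 2 _ _).comp
  apply Continuous.prodMk
  · refine continuous_finsetSum _ (fun i _ => ?_)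
    have h := (h2.comp (hev (w i))).const_smul (a i / ‖w i‖)
    exact h
  · refine continuous_finsetSum _ (fun i _ => ?_)
    have h := (h4.comp (hev (w i))).const_smul (a i / ‖w i‖ ^ 3)
    exact h

/-- the compact set of the pairs of inverse isometries preserving `K` -/
def PP (K : Set (EE n)) : Set ((EE n →L[ℝ] EE n) × (EE n →L[ℝ] EE n)) :=
  {p | (∀ x, ‖p.1 x‖ = ‖x‖) ∧ (∀ x, ‖p.2 x‖ = ‖x‖) ∧ (∀ x, p.1 (p.2 x) = x) ∧
    (∀ x, p.2 (p.1 x) = x) ∧ (∀ x ∈ K, p.1 x ∈ K) ∧ (∀ x ∈ K, p.2 x ∈ K)}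

theorem PP_compact (K : Set (EE n)) (hK : IsCompact K) : IsCompact (PP K) := by
  have hev1 : ∀ x : EE n, Continuous (fun p : (EE n →L[ℝ] EE n) × (EE n →L[ℝ] EE n) => p.1 x) := by
    intro x
    exact (ContinuousLinearMap.apply ℝ (EE n) x).continuous.comp continuous_fst
  have hev2 : ∀ x : EE n, Continuous (fun p : (EE n →L[ℝ] EE n) × (EE n →L[ℝ] EE n) => p.2 x) := by
    intro x
    exact (ContinuousLinearMap.apply ℝ (EE n) x).continuous.comp continuous_snd
  have hev12 : ∀ x : EE n,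
      Continuous (fun p : (EE n →L[ℝ] EE n) × (EE n →L[ℝ] EE n) => p.1 (p.2 x)) := by
    intro x
    exact continuous_fst.clm_apply (hev2 x)
  have hev21 : ∀ x : EE n,
      Continuous (fun p : (EE n →L[ℝ] EE n) × (EE n →L[ℝ] EE n) => p.2 (p.1 x)) := by
    intro x
    exact continuous_snd.clm_apply (hev1 x)
  have hcl : IsClosed (PP K) := by
    have heq : PP K = (⋂ x, {p | ‖p.1 x‖ = ‖x‖}) ∩ ((⋂ x, {p | ‖p.2 x‖ = ‖x‖}) ∩
        ((⋂ x, {p | p.1 (p.2 x) = x}) ∩ ((⋂ x, {p | p.2 (p.1 x) = x}) ∩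
        ((⋂ x, ⋂ (_ : x ∈ K), {p | p.1 x ∈ K}) ∩ (⋂ x, ⋂ (_ : x ∈ K), {p | p.2 x ∈ K}))))) := by
      ext p
      simp only [PP, Set.mem_ofPred_eq, Set.mem_inter_iff, Set.mem_iInter]
    rw [heq]
    refine IsClosed.inter (isClosed_iInter fun x => isClosed_eq (hev1 x).norm continuous_const)
      (IsClosed.inter (isClosed_iInter fun x => isClosed_eq (hev2 x).norm continuous_const)
      (IsClosed.inter (isClosed_iInter fun x => isClosed_eq (hev12 x) continuous_const)
      (IsClosed.inter (isClosed_iInter fun x => isClosed_eq (hev21 x) continuous_const)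
      (IsClosed.inter
        (isClosed_iInter fun x => isClosed_iInter fun _ => hK.isClosed.preimage (hev1 x))
        (isClosed_iInter fun x => isClosed_iInter fun _ => hK.isClosed.preimage (hev2 x))))))
  have hbd : Bornology.IsBounded (PP K) := by
    rw [isBounded_iff_forall_norm_le]
    refine ⟨1, ?_⟩
    rintro p ⟨h1, h2, -⟩
    rw [Prod.norm_def]
    apply max_le
    · apply ContinuousLinearMap.opNorm_le_bound _ zero_le_one
      intro x
      rw [h1 x, one_mul]
    · apply ContinuousLinearMap.opNorm_le_bound _ zero_le_one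
      intro x
      rw [h2 x, one_mul]
  exact Metric.isCompact_of_isClosed_isBounded hcl hbd

theorem PP_of_GK (K : Set (EE n)) (g : EE n ≃ₗᵢ[ℝ] EE n) (hg : g ∈ GK K) :
    (((g : EE n ≃L[ℝ] EE n) : EE n →L[ℝ] EE n),
      ((g.symm : EE n ≃L[ℝ] EE n) : EE n →L[ℝ] EE n)) ∈ PP K := by
  have hg' : g '' K = K := hg
  refine ⟨fun x => g.norm_map x, fun x => g.symm.norm_map x, fun x => g.apply_symm_apply x,
    fun x => g.symm_apply_apply x, fun x hx => ?_, fun x hx => ?_⟩
  · show g x ∈ K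
    rw [← hg']
    exact ⟨x, hx, rfl⟩
  · show g.symm x ∈ K
    rw [← hg'] at hx
    obtain ⟨y, hy, rfl⟩ := hx
    rw [g.symm_apply_apply]
    exact hy

theorem GK_of_PP (K : Set (EE n)) (p : (EE n →L[ℝ] EE n) × (EE n →L[ℝ] EE n)) (hp : p ∈ PP K) :
    ∃ g : EE n ≃ₗᵢ[ℝ] EE n, g ∈ GK K ∧ ∀ x, g x = p.1 x := by
  obtain ⟨h1, h2, h12, h21, hK1, hK2⟩ := hp
  let g : EE n ≃ₗᵢ[ℝ] EE n :=
    { toFun := p.1
      invFun := p.2
      left_inv := h21
      right_inv := h12
      map_add' := p.1.map_add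
      map_smul' := p.1.map_smul
      norm_map' := h1 }
  refine ⟨g, ?_, fun x => rfl⟩
  show g '' K = K
  apply Set.Subset.antisymm
  · rintro _ ⟨x, hx, rfl⟩
    exact hK1 x hx
  · intro x hx
    exact ⟨p.2 x, hK2 x hx, h12 x⟩

theorem GK_comp (K : Set (EE n)) (g h : EE n ≃ₗᵢ[ℝ] EE n) (hg : g ∈ GK K) (hh : h ∈ GK K) :
    g.trans h ∈ GK K := by
  have hg' : g '' K = K := hg
  have hh' : h '' K = K := hh
  show (fun x => h (g x)) '' K = K
  have : (fun x => h (g x)) '' K = h '' (g '' K) := by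
    rw [Set.image_image]
  rw [this, hg', hh']

theorem eq_of_min {F : Type*} [NormedAddCommGroup F] [InnerProductSpace ℝ F] {C : Set F}
    (hC : Convex ℝ C) {x y : F} (hx : x ∈ C) (hy : y ∈ C) (hmin : ∀ z ∈ C, ‖x‖ ≤ ‖z‖)
    (hxy : ‖y‖ = ‖x‖) : y = x := by
  have hmid : (1 / 2 : ℝ) • x + (1 / 2 : ℝ) • y ∈ C :=
    hC hx hy (by norm_num) (by norm_num) (by norm_num)
  have h1 := hmin _ hmid
  rw [← smul_add, norm_smul, Real.norm_eq_abs, abs_of_pos (by norm_num : (0 : ℝ) < 1 / 2)] at h1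
  have h2 := parallelogram_law_with_norm ℝ x y
  have h3 : ‖x - y‖ * ‖x - y‖ ≤ 0 := by
    have hx0 := norm_nonneg x
    rw [hxy] at h2
    nlinarith [norm_nonneg (x + y)]
  have h4 : ‖x - y‖ = 0 := by
    have := norm_nonneg (x - y)
    nlinarith
  exact (sub_eq_zero.mp (norm_eq_zero.mp h4)).symm

end

end ORB_

open ORB_ in
theorem orb_proof : Stmt_ORB := by
  classical
  intro n K ι _ a w hn hK ha
  set O : Set (FF n) := (fun p : (EE n →L[ℝ] EE n) × (EE n →L[ℝ] EE n) => Phi a w p.1) '' PP K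
    with hO
  have hOc : IsCompact O := (PP_compact K hK).image ((Phi_cont a w).comp continuous_fst)
  have hmem : ∀ g ∈ GK K, Phi a w g ∈ O := by
    intro g hg
    exact ⟨_, PP_of_GK K g hg, rfl⟩
  have hmem' : ∀ y ∈ O, ∃ g ∈ GK K, Phi a w g = y := by
    rintro y ⟨p, hp, rfl⟩
    obtain ⟨g, hg, hgp⟩ := GK_of_PP K p hp
    refine ⟨g, hg, ?_⟩
    have : (g : EE n → EE n) = p.1 := funext hgp
    show Phi a w g = Phi a w p.1
    rw [this]
  have hone : LinearIsometryEquiv.refl ℝ (EE n) ∈ GK K := by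
    show (fun x => x) '' K = K
    simp
  have hne : (convexHull ℝ O).Nonempty := ⟨_, subset_convexHull ℝ O (hmem _ hone)⟩
  have hCc := isCompact_convexHull hOc
  obtain ⟨T0, hT0, hmin⟩ := hCc.exists_isMinOn hne continuous_norm.continuousOn
  obtain ⟨κ, _, z, c, hz, -, hc, hc1, hT⟩ := eq_pos_convex_span_of_mem_convexHull hT0
  have hg : ∀ j, ∃ g ∈ GK K, Phi a w g = z j := fun j => hmem' _ (hz ⟨j, rfl⟩)
  choose g hgK hgz using hg
  have hinv : ∀ h ∈ GK K, ∑ j, c j • Phi a w ((g j).trans h) = T0 := by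
    intro h hh
    apply eq_of_min (convex_convexHull ℝ O) hT0 ?_ (fun y hy => hmin hy)
    · have hsq : inner ℝ (∑ j, c j • Phi a w ((g j).trans h)) (∑ j, c j • Phi a w ((g j).trans h)) =
          inner ℝ T0 T0 := by
        rw [← hT]
        simp only [← hgz, sum_inner, inner_sum, real_inner_smul_left, real_inner_smul_right,
          Phi_inner, LinearIsometryEquiv.trans_apply, LinearIsometryEquiv.inner_map_map]
      rw [real_inner_self_eq_norm_sq, real_inner_self_eq_norm_sq] at hsq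
      exact (sq_eq_sq₀ (norm_nonneg _) (norm_nonneg _)).mp hsq
    · exact (convex_convexHull ℝ O).sum_mem (fun j _ => (hc j).le) hc1
        (fun j _ => subset_convexHull ℝ O (hmem _ (GK_comp K _ _ (hgK j) hh)))
  have key : ∀ h ∈ GK K, ∀ (x : EE n) (r s : ℝ),
      ∑ j, c j * (r * (∑ i, a i * ((inner ℝ (g j (w i)) (h x)) ^ 2 / ‖w i‖)) +
        s * ∑ i, a i * ((inner ℝ (g j (w i)) (h x)) ^ 4 / ‖w i‖ ^ 3)) =
      ∑ j, c j * (r * (∑ i, a i * ((inner ℝ (g j (w i)) x) ^ 2 / ‖w i‖)) +
        s * ∑ i, a i * ((inner ℝ (g j (w i)) x) ^ 4 / ‖w i‖ ^ 3)) := by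
    intro h hh x r s
    have h1 := hinv h hh
    have h2 : inner ℝ (∑ j, c j • Phi a w ((g j).trans h))
        (WithLp.toLp 2 (r • tau 2 (h x), s • tau 4 (h x)) : FF n) =
        inner ℝ T0 (WithLp.toLp 2 (r • tau 2 (h x), s • tau 4 (h x)) : FF n) := by
      rw [h1]
    rw [← hT] at h2
    simp only [← hgz, sum_inner, real_inner_smul_left, Phi_inner_left,
      LinearIsometryEquiv.trans_apply, LinearIsometryEquiv.inner_map_map] at h2
    exact h2.symm
  let e := Fintype.equivFin κ
  refine ⟨Fintype.card κ, fun j => c (e.symm j), fun j => g (e.symm j), fun j => hc _, ?_,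
    fun j => hgK _, ?_, ?_⟩
  · rw [← hc1]
    exact Equiv.sum_comp e.symm c
  · intro h hh x
    have h1 := key h hh x 1 0
    have h2 : ∀ y : EE n, ∑ j, ∑ i, c (e.symm j) * a i *
        ((inner ℝ (g (e.symm j) (w i)) y) ^ 2 / ‖w i‖) =
        ∑ j, c j * (∑ i, a i * ((inner ℝ (g j (w i)) y) ^ 2 / ‖w i‖)) := by
      intro y
      rw [← Equiv.sum_comp e.symm (fun j => c j * (∑ i, a i * ((inner ℝ (g j (w i)) y) ^ 2 / ‖w i‖)))]
      apply Finset.sum_congr rfl
      intro j _
      rw [Finset.mul_sum]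
      apply Finset.sum_congr rfl
      intro i _
      ring
    rw [h2, h2]
    simpa using h1
  · intro h hh x
    have h1 := key h hh x 0 1
    have h2 : ∀ y : EE n, ∑ j, ∑ i, c (e.symm j) * a i *
        ((inner ℝ (g (e.symm j) (w i)) y) ^ 4 / ‖w i‖ ^ 3) =
        ∑ j, c j * (∑ i, a i * ((inner ℝ (g j (w i)) y) ^ 4 / ‖w i‖ ^ 3)) := by
      intro y
      rw [← Equiv.sum_comp e.symm
        (fun j => c j * (∑ i, a i * ((inner ℝ (g j (w i)) y) ^ 4 / ‖w i‖ ^ 3)))]
      apply Finset.sum_congr rfl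
      intro j _
      rw [Finset.mul_sum]
      apply Finset.sum_congr rfl
      intro i _
      ring
    rw [h2, h2]
    simpa using h1

end PPX
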