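import Pool.Agent.PPX.Stmts

/-!
# Squad PPX, module SPQ: the mean of the weight over the sphere
-/

set_option autoImplicit false

namespace PPX

open MeasureTheory Set Filter Topology
open PPI PPG
open scoped Pointwise ENNReal

namespace SPQ_

variable {n : ℕ}

/-- the linear map `y ↦ y + c ⟨x, y⟩ x` -/
noncomputable def L (x : EE n) : EE n →ₗ[ℝ] EE n :=
  LinearMap.id + (1 / (1 + √(1 + ‖x‖ ^ 2))) •
    ((innerSL ℝ x).toLinearMap.smulRight x)

theorem L_apply (x y : EE n) :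
    L x y = y + ((1 / (1 + √(1 + ‖x‖ ^ 2))) * inner ℝ x y) • x := by
  simp [L, smul_smul]

theorem norm_L (x y : EE n) : ‖L x y‖ ^ 2 = ‖y‖ ^ 2 + (inner ℝ x y) ^ 2 := by
  rw [L_apply, ← real_inner_self_eq_norm_sq, inner_add_left, inner_add_right, inner_add_right,
    real_inner_self_eq_norm_sq, inner_smul_right, inner_smul_left, inner_smul_left,
    inner_smul_right, real_inner_self_eq_norm_sq, real_inner_comm x y]
  simp only [conj_trivial]
  have hs : 0 ≤ √(1 + ‖x‖ ^ 2) := Real.sqrt_nonneg _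
  have h2 : √(1 + ‖x‖ ^ 2) ^ 2 = 1 + ‖x‖ ^ 2 := Real.sq_sqrt (by positivity)
  set s := √(1 + ‖x‖ ^ 2) with hsd
  have h3 : ‖x‖ ^ 2 = s ^ 2 - 1 := by linarith
  have h4 : (1 + s) ≠ 0 := by positivity
  rw [h3]
  field_simp
  ring

theorem det_L (x : EE n) : LinearMap.det (L x) = √(1 + ‖x‖ ^ 2) := by
  have h1 : LinearMap.det (L x) = 1 + (1 / (1 + √(1 + ‖x‖ ^ 2))) * ‖x‖ ^ 2 := by
    have := LinearMap.det_toMatrix (EuclideanSpace.basisFun (Fin n) ℝ).toBasis (L x)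
    rw [← this]
    have h2 : LinearMap.toMatrix (EuclideanSpace.basisFun (Fin n) ℝ).toBasis
        (EuclideanSpace.basisFun (Fin n) ℝ).toBasis (L x) =
        1 + Matrix.replicateCol Unit (fun i => (1 / (1 + √(1 + ‖x‖ ^ 2))) * x i) *
          Matrix.replicateRow Unit (fun i => x i) := by
      ext i j
      rw [LinearMap.toMatrix_apply]
      simp [L_apply, Matrix.one_apply, Matrix.mul_apply, EuclideanSpace.basisFun_apply, eq_comm]
      have h9 : (inner ℝ x (EuclideanSpace.single j (1 : ℝ) : EE n) : ℝ) = x j := by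
        rw [EuclideanSpace.inner_single_right]
        simp
      rw [h9]
      ring
    rw [h2, Matrix.det_one_add_replicateCol_mul_replicateRow]
    rw [EuclideanSpace.norm_sq_eq]
    simp only [dotProduct, Real.norm_eq_abs, sq_abs, Finset.mul_sum]
    congr 1
    refine Finset.sum_congr rfl fun i _ => ?_
    ring
  rw [h1]
  have hs : 0 ≤ √(1 + ‖x‖ ^ 2) := Real.sqrt_nonneg _
  have h2 : √(1 + ‖x‖ ^ 2) ^ 2 = 1 + ‖x‖ ^ 2 := Real.sq_sqrt (by positivity)
  set s := √(1 + ‖x‖ ^ 2) with hsd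
  have h3 : ‖x‖ ^ 2 = s ^ 2 - 1 := by linarith
  have h4 : (1 + s) ≠ 0 := by positivity
  rw [h3]
  field_simp
  ring

theorem kap_pos (n : ℕ) : 0 < kap n := by
  unfold kap vl Bn
  rw [ENNReal.toReal_pos_iff]
  exact ⟨Metric.measure_closedBall_pos volume _ one_pos, measure_closedBall_lt_top⟩

theorem vol_Bn (n : ℕ) : volume (Bn n) = ENNReal.ofReal (kap n) := by
  unfold kap vl Bn
  rw [ENNReal.ofReal_toReal measure_closedBall_lt_top.ne]

end SPQ_

open SPQ_ in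
theorem spq_proof (hS : Stmt_SPH) : Stmt_SPQ := by
  intro n x hn
  obtain ⟨hP, h1, -, h4, -, -⟩ := hS n hn
  set r : EE n → ℝ := fun v => (1 + (inner ℝ x v) ^ 2) ^ (-(1 / 2 : ℝ)) with hr
  have hbase : ∀ v : EE n, 0 < 1 + (inner ℝ x v : ℝ) ^ 2 := fun v => by positivity
  have hrm : Measurable r := by
    have hc : Continuous r := by
      refine Continuous.rpow_const (by fun_prop) fun v => Or.inl (hbase v).ne'
    exact hc.measurable
  have hr0 : ∀ v, 0 ≤ r v := fun v => Real.rpow_nonneg (hbase v).le _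
  have hrn : ∀ v, r v ^ n = (1 + (inner ℝ x v) ^ 2) ^ (-((n : ℝ) / 2)) := fun v => by
    rw [hr]
    simp only
    rw [← Real.rpow_natCast, ← Real.rpow_mul (hbase v).le]
    congr 1
    ring
  have h5 := h4 r hrm hr0
  -- the set
  have hset : {y : EE n | y ≠ 0 ∧ ‖y‖ ≤ r ((‖y‖)⁻¹ • y)} = (L x ⁻¹' (Bn n)) \ {0} := by
    ext y
    simp only [mem_ofPred_eq, Set.mem_sdiff, mem_preimage, mem_singleton_iff, Bn,
      Metric.mem_closedBall, dist_zero_right]
    rw [and_comm]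
    refine and_congr_left fun hy => ?_
    have hy' : 0 < ‖y‖ := norm_pos_iff.2 hy
    have e1 : ‖L x y‖ ≤ 1 ↔ ‖y‖ ^ 2 + (inner ℝ x y : ℝ) ^ 2 ≤ 1 := by
      rw [← norm_L]
      exact (sq_le_one_iff₀ (norm_nonneg _)).symm
    rw [e1, hr]
    simp only
    rw [inner_smul_right]
    have h7 : (0 : ℝ) < 1 + (‖y‖⁻¹ * inner ℝ x y) ^ 2 := by positivity
    have h8 : ((1 + (‖y‖⁻¹ * inner ℝ x y) ^ 2) ^ (-(1 / 2 : ℝ)) : ℝ) =
        (√(1 + (‖y‖⁻¹ * inner ℝ x y) ^ 2))⁻¹ := by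
      rw [Real.rpow_neg h7.le, Real.sqrt_eq_rpow]
    rw [h8, le_inv_comm₀ hy' (Real.sqrt_pos.2 h7), Real.sqrt_le_left (by positivity)]
    constructor
    · intro h
      have : (1 + (‖y‖⁻¹ * inner ℝ x y) ^ 2) * ‖y‖ ^ 2 ≤ (‖y‖⁻¹) ^ 2 * ‖y‖ ^ 2 :=
        mul_le_mul_of_nonneg_right h (by positivity)
      have e2 : (1 + (‖y‖⁻¹ * inner ℝ x y) ^ 2) * ‖y‖ ^ 2 = ‖y‖ ^ 2 + (inner ℝ x y : ℝ) ^ 2 := by
        field_simp
      have e3 : (‖y‖⁻¹) ^ 2 * ‖y‖ ^ 2 = 1 := by field_simp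
      rw [e2, e3] at this
      exact this
    · intro h
      have : (‖y‖ ^ 2 + (inner ℝ x y : ℝ) ^ 2) * (‖y‖⁻¹) ^ 2 ≤ 1 * (‖y‖⁻¹) ^ 2 :=
        mul_le_mul_of_nonneg_right h (by positivity)
      have e2 : (‖y‖ ^ 2 + (inner ℝ x y : ℝ) ^ 2) * (‖y‖⁻¹) ^ 2 =
          1 + (‖y‖⁻¹ * inner ℝ x y) ^ 2 := by
        field_simp
      rw [e2, one_mul] at this
      exact this
  have hdet : LinearMap.det (L x) ≠ 0 := by
    rw [det_L]
    positivity
  have : Nonempty (Fin n) := ⟨⟨0, hn⟩⟩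
  have : Nontrivial (EE n) := inferInstance
  rw [hset, measure_sdiff_null (measure_singleton _),
    Measure.addHaar_preimage_linearMap volume hdet, vol_Bn, det_L] at h5
  have hk : ENNReal.ofReal (kap n) ≠ 0 := by
    simp only [ne_eq, ENNReal.ofReal_eq_zero, not_le]
    exact kap_pos n
  have hkt : ENNReal.ofReal (kap n) ≠ ⊤ := ENNReal.ofReal_ne_top
  rw [mul_comm] at h5
  have h6 := (ENNReal.mul_right_inj hk hkt).1 h5
  rw [integral_eq_lintegral_of_nonneg_ae]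
  · have : ∫⁻ v, ENNReal.ofReal ((1 + (inner ℝ x v) ^ 2) ^ (-((n : ℝ) / 2))) ∂(sph n) =
        ∫⁻ v, ENNReal.ofReal (r v ^ n) ∂(sph n) := by
      refine lintegral_congr fun v => ?_
      rw [hrn]
    rw [this, ← h6, ENNReal.toReal_ofReal (abs_nonneg _), abs_of_nonneg (by positivity),
      Real.rpow_neg (by positivity), Real.sqrt_eq_rpow]
  · exact Filter.Eventually.of_forall fun v => Real.rpow_nonneg (hbase v).le _
  · have hc : Continuous fun v : EE n => (1 + (inner ℝ x v : ℝ) ^ 2) ^ (-((n : ℝ) / 2)) := by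
      refine Continuous.rpow_const (by fun_prop) fun v => Or.inl (hbase v).ne'
    exact hc.aestronglyMeasurable

end PPX
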