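import Pool.Agent.PPX.Defs

/-!
# Squad PPX (MP_0bf616_gt): statements of the modules.  Recipes: /team-store/MP_0bf616_PPX.md
-/

set_option autoImplicit false

namespace PPX

open MeasureTheory Set Filter Topology
open PPI PPG
open scoped Pointwise ENNReal

/-! ## A. Series and constants -/

/-- the two series -/
def Stmt_BTS : Prop :=
  (∀ t : ℝ, 0 ≤ t → t < 1 → HasSum (fun k : ℕ => bt k * t ^ k) (1 / √(1 - t))) ∧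
  (∀ t : ℝ, 0 ≤ t → t ≤ 1 → HasSum (fun k : ℕ => ec k * t ^ k) (-√(1 - t))) ∧
  (∀ k : ℕ, 0 < bt k ∧ bt k ≤ 1 ∧ bt k ^ 2 * (2 * (k : ℝ) + 1) ≤ 1) ∧
  (∀ k : ℕ, 1 ≤ k → 0 < ec k ∧ 2 * (k : ℝ) * ec k ≤ 1 ∧ 1 / (8 * (k : ℝ) ^ 2) ≤ ec k) ∧
  (∀ N : ℕ, ∑ k ∈ Finset.range (N + 1), ec k = -bt N)

/-- the moments of the sphere -/
def Stmt_SMB : Prop :=
  (∀ n k : ℕ, 1 ≤ n → 0 < smo n k ∧ smo n k ≤ 1 ∧ smo n (k + 1) ≤ smo n k ∧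
    smo n k * (n : ℝ) ^ k ≤ (2 * k).factorial) ∧
  ∃ C : ℝ, 0 < C ∧ ∀ n N : ℕ, 12 ≤ n → 3 ≤ N → smo n N ≤ C / (n : ℝ) ^ 3 / (N : ℝ) ^ 5

/-- a double sum. Uses BTS, SMB -/
def Stmt_DSB : Prop :=
  ∃ C : ℝ, 0 < C ∧ ∀ n r N : ℕ, 12 ≤ n → 2 ≤ r →
    (∑ k ∈ Finset.Icc r N, ∑ l ∈ Finset.Icc r N,
      ec k * ec l * (4 * (k : ℝ) * l * smo n (k + l - 1)) ≤ C / (n : ℝ) ^ 3 * ec r) ∧
    ∑ k ∈ Finset.Icc r N, ∑ l ∈ Finset.Icc r N, ec k * ec l * smo n (k + l) ≤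
      C / (n : ℝ) ^ 3 * ec r

/-- constants. Uses PPI.NUA -/
def Stmt_CNB : Prop :=
  ∀ n : ℕ, 2 ≤ n → 0 < kap n ∧ √(n : ℝ) / 2 ≤ cn n ∧ cn n ≤ √(n : ℝ) ∧
    1 - 1 / (n : ℝ) ≤ om n ∧ om n ≤ 1 ∧
    X0 n ≤ √(Real.exp 1) * √((n.factorial : ℝ) / (n : ℝ) ^ n)

/-! ## B. Integrals over `R^n` -/

/-- the basic integrals -/
def Stmt_BAS : Prop :=
  (∀ (m : ℕ) (c : ℝ), 0 < c →
    ∫⁻ y : EE m, ENNReal.ofReal ((c + ‖y‖ ^ 2) ^ (-((m : ℝ) / 2) - 1)) =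
      ENNReal.ofReal (kap m / c)) ∧
  ∀ (n : ℕ) (t : ℝ), 1 ≤ n → 0 ≤ t →
    ∫⁻ x : EE n in {x | ‖x‖ ^ 2 ≤ t},
        ENNReal.ofReal ((1 + ‖x‖ ^ 2) ^ (-((n : ℝ) / 2) - 1)) =
      ENNReal.ofReal (kap n * (t / (1 + t)) ^ ((n : ℝ) / 2))

/-- the measure `mun`. Uses BAS, PPI.AVE -/
def Stmt_MUN : Prop :=
  ∀ n : ℕ, 1 ≤ n → IsProbabilityMeasure (mun n) ∧
    (∀ t : ℝ, 0 ≤ t → mun n {x : EE n | ‖x‖ ^ 2 ≤ t} =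
      ENNReal.ofReal ((t / (1 + t)) ^ ((n : ℝ) / 2))) ∧
    ∀ g : EE n ≃ₗᵢ[ℝ] EE n, (mun n).map g = mun n

/-- an integral over the line. Uses PPI.AVE -/
def Stmt_C1D : Prop :=
  ∀ n : ℕ, 1 ≤ n → ∫⁻ u : ℝ, ENNReal.ofReal ((1 + u ^ 2) ^ (-((n : ℝ) / 2) - 1)) =
    ENNReal.ofReal (kap n / kap (n - 1))

/-- integration over a hyperplane. Uses BAS -/
def Stmt_RD1 : Prop :=
  ∀ (n : ℕ) (a : EE n) (g : ℝ → ℝ≥0∞), 1 ≤ n → ‖a‖ = 1 → Measurable g →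
    ∫⁻ x : EE n, ENNReal.ofReal ((1 + ‖x‖ ^ 2) ^ (-(((n : ℝ) + 1) / 2))) * g (inner ℝ x a) =
      ENNReal.ofReal (kap (n - 1)) * ∫⁻ t : ℝ, g t * ENNReal.ofReal (1 / (1 + t ^ 2))

/-- integration over a subspace of codimension two. Uses BAS -/
def Stmt_RD2 : Prop :=
  ∀ (n : ℕ) (a b : EE n) (g : ℝ → ℝ → ℝ≥0∞) (s : ℝ), 2 ≤ n → ‖a‖ = 1 → ‖b‖ = 1 →
    inner ℝ a b = s → s ^ 2 < 1 → Measurable (Function.uncurry g) →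
    ∫⁻ x : EE n, ENNReal.ofReal ((1 + ‖x‖ ^ 2) ^ (-((n : ℝ) / 2))) *
        g (inner ℝ x a) (inner ℝ x b) =
      ENNReal.ofReal (kap (n - 2)) * ∫⁻ u : ℝ, ∫⁻ v : ℝ, g u v *
        ENNReal.ofReal (√(1 - s ^ 2) / (1 - s ^ 2 + u ^ 2 + v ^ 2 - 2 * s * u * v))

/-- the mean of the weight. Uses RD1, C1D, PPI.AVE -/
def Stmt_EW1 : Prop :=
  ∀ (n : ℕ) (a : EE n), 2 ≤ n → ‖a‖ = 1 →
    Integrable (fun x : EE n => ww x a) (mun n) ∧ ∫ x, ww x a ∂(mun n) = 1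

/-- the exact formula for the Gram determinants. Uses RD2, C1D, PPI.AVE -/
def Stmt_IN3 : Prop :=
  ∀ (n : ℕ) (a b : EE n), 2 ≤ n → ‖a‖ = 1 → ‖b‖ = 1 →
    Integrable (fun x : EE n => wv x a * wv x b *
      ((1 + (inner ℝ x a) ^ 2) * (1 + (inner ℝ x b) ^ 2) -
        (inner ℝ a b + inner ℝ x a * inner ℝ x b) ^ 2)) (mun n) ∧
    ∫ x, wv x a * wv x b *
      ((1 + (inner ℝ x a) ^ 2) * (1 + (inner ℝ x b) ^ 2) -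
        (inner ℝ a b + inner ℝ x a * inner ℝ x b) ^ 2) ∂(mun n) =
      om n * √(1 - (inner ℝ a b) ^ 2)

/-- a Gaussian integral -/
def Stmt_GQF : Prop :=
  ∀ (n : ℕ) (a b : EE n) (z u v : ℝ), 2 ≤ n → ‖a‖ = 1 → ‖b‖ = 1 → 0 < z → 0 ≤ u → 0 ≤ v →
    ∫⁻ x : EE n, ENNReal.ofReal
        (Real.exp (-(z * ‖x‖ ^ 2 + u * (inner ℝ x a) ^ 2 + v * (inner ℝ x b) ^ 2))) =
      ENNReal.ofReal (Real.pi ^ ((n : ℝ) / 2) * z ^ (-(((n : ℝ) - 2) / 2)) /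
        √((z + u) * (z + v) - u * v * (inner ℝ a b) ^ 2))

/-- the covariance of the weights. Uses GQF, PPI.AVE -/
def Stmt_KGM : Prop :=
  ∀ (n : ℕ) (a b : EE n), 2 ≤ n → ‖a‖ = 1 → ‖b‖ = 1 →
    Integrable (fun x : EE n => ww x a * ww x b) (mun n) ∧
    ∫ x, ww x a * ww x b ∂(mun n) = kk n (inner ℝ a b)

/-- the power series of the kernel. Uses BTS -/
def Stmt_KSR : Prop :=
  ∀ n : ℕ, 4 ≤ n → ∃ c : ℕ → ℝ, (∀ k, 0 ≤ c k ∧ c k ≤ 2 * bt k) ∧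
    (∀ k, 2 ≤ k → c k ≤ 3 * n * ec k) ∧
    ∀ s : ℝ, s ^ 2 ≤ 1 → HasSum (fun k : ℕ => c k * s ^ (2 * k)) (kk n s)

/-! ## C. The sphere -/

/-- the measure `sph`. Uses PPI.AVE -/
def Stmt_SPH : Prop :=
  ∀ n : ℕ, 1 ≤ n → IsProbabilityMeasure (sph n) ∧ (∀ᵐ v ∂(sph n), ‖v‖ = 1) ∧
    (∀ g : EE n ≃ₗᵢ[ℝ] EE n, (sph n).map g = sph n) ∧
    (∀ r : EE n → ℝ, Measurable r → (∀ v, 0 ≤ r v) →
      volume {x : EE n | x ≠ 0 ∧ ‖x‖ ≤ r ((‖x‖)⁻¹ • x)} =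
        ENNReal.ofReal (kap n) * ∫⁻ v, ENNReal.ofReal (r v ^ n) ∂(sph n)) ∧
    (∀ (f : EE n → ℝ≥0∞) (q : ℕ), Measurable f →
      ∫⁻ x in Bn n, ENNReal.ofReal (‖x‖ ^ q) * f ((‖x‖)⁻¹ • x) =
        ENNReal.ofReal (kap n * n / (n + q)) * ∫⁻ v, f v ∂(sph n)) ∧
    (2 ≤ n → ∀ w : EE n, ∀ᵐ v ∂(sph n), v ≠ w)

/-- the mean of the weight over the sphere. Uses SPH -/
def Stmt_SPQ : Prop :=
  ∀ (n : ℕ) (x : EE n), 1 ≤ n →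
    ∫ v, (1 + (inner ℝ x v) ^ 2) ^ (-((n : ℝ) / 2)) ∂(sph n) =
      (1 + ‖x‖ ^ 2) ^ (-(1 / 2 : ℝ))

/-- the mean of the kernel. Uses SPH, SPQ, EW1, KGM, MUN -/
def Stmt_KAV : Prop :=
  ∀ (n : ℕ) (a : EE n), 2 ≤ n → ‖a‖ = 1 →
    Integrable (fun v : EE n => kk n (inner ℝ a v)) (sph n) ∧
    ∫ v, kk n (inner ℝ a v) ∂(sph n) = 1

/-- moments. Uses SPH, PPG.BMX -/
def Stmt_SMM : Prop :=
  ∀ (n k : ℕ) (a : EE n), 1 ≤ n →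
    ∫ v, (inner ℝ a v) ^ (2 * k) ∂(sph n) = smo n k * ‖a‖ ^ (2 * k)

/-- moments of products. Uses SMM, SPH -/
def Stmt_PMM : Prop :=
  ∀ (n k l : ℕ), 2 ≤ n → 1 ≤ k → 1 ≤ l →
    (∃ c : ℕ → ℝ, (∀ r, 0 ≤ c r) ∧ ∑ r ∈ Finset.range (min k l + 1), c r = smo n (k + l) ∧
      ∀ a b : EE n, ‖a‖ = 1 → ‖b‖ = 1 →
        ∫ v, (inner ℝ a v) ^ (2 * k) * (inner ℝ b v) ^ (2 * l) ∂(sph n) =
          ∑ r ∈ Finset.range (min k l + 1), c r * (inner ℝ a b) ^ (2 * r)) ∧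
    ∃ c : ℕ → ℝ, (∀ r, 0 ≤ c r) ∧
      ∑ r ∈ Finset.range (min k l + 1), c r = smo n (k + l - 1) ∧
      ∀ a b : EE n, ‖a‖ = 1 → ‖b‖ = 1 →
        inner ℝ a b *
            ∫ v, (inner ℝ a v) ^ (2 * k - 1) * (inner ℝ b v) ^ (2 * l - 1) ∂(sph n) =
          ∑ r ∈ Finset.range (min k l + 1), c r * (inner ℝ a b) ^ (2 * r)

/-- two mixed moments. Uses SMM, SPH -/
def Stmt_SM4 : Prop :=
  ∀ (n : ℕ) (a b : EE n), 2 ≤ n → ‖a‖ = 1 → ‖b‖ = 1 → inner ℝ a b = (0 : ℝ) →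
    ∫ v, (inner ℝ a v) ^ 2 * (inner ℝ b v) ^ 2 ∂(sph n) = 1 / ((n : ℝ) * (n + 2)) ∧
    ∫ v, (inner ℝ a v) ^ 4 * (inner ℝ b v) ^ 2 ∂(sph n) =
      3 / ((n : ℝ) * (n + 2) * (n + 4))

/-- the mean of `√(1 - ⟨a, v⟩²)`. Uses SPH, PPI.AVE -/
def Stmt_SQR : Prop :=
  ∀ (n : ℕ) (a : EE n), 2 ≤ n → ‖a‖ = 1 → ∫ v, √(1 - (inner ℝ a v) ^ 2) ∂(sph n) = mm n

/-- series and bounds for `mm`. Uses SQR, SMM, BTS, SPH -/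
def Stmt_MMS : Prop :=
  ∀ n : ℕ, 2 ≤ n → HasSum (fun k : ℕ => ec k * smo n k) (-mm n) ∧ 1 - 1 / (n : ℝ) ≤ mm n ∧
    mm n ≤ 1 - 1 / (2 * (n : ℝ)) - 3 / (8 * (n : ℝ) * (n + 2))

/-- all facts on the kernel. Uses KSR, KAV, SMM, BTS, SPH -/
def Stmt_KEN : Prop :=
  ∀ n : ℕ, 4 ≤ n → ∃ c : ℕ → ℝ, (∀ k, 0 ≤ c k ∧ c k ≤ 2) ∧
    (∀ k, 2 ≤ k → c k ≤ 3 * n * ec k) ∧
    (∀ s : ℝ, s ^ 2 ≤ 1 → HasSum (fun k : ℕ => c k * s ^ (2 * k)) (kk n s)) ∧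
    HasSum (fun k : ℕ => c k * smo n k) 1 ∧
    (∀ s : ℝ, s ^ 2 ≤ 1 → 0 ≤ kk n s ∧ kk n s ≤ 8 * √(n : ℝ)) ∧
    ∀ (m : ℕ) (s θ : ℝ), 0 < θ → θ ^ 2 ≤ 1 - s ^ 2 →
      kk n s ≤ ∑ k ∈ Finset.range (m + 1), c k * s ^ (2 * k) + 2 / θ * s ^ (2 * (m + 1))

/-! ## D. Moments of `ρ - σ` -/

/-- positivity. Uses SMM, SPH -/
def Stmt_TPD : Prop :=
  ∀ (n : ℕ) (ι : Type) [Fintype ι] (p : ι → ℝ) (w : ι → EE n) (k : ℕ)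
    (y : Fin (2 * k) → EE n), 1 ≤ n → (∀ i, 0 ≤ p i) → ∑ i, p i = 1 → (∀ i, ‖w i‖ = 1) →
    (∀ l, ‖y l‖ ≤ 1) →
    (∑ i, p i * ∏ l, inner ℝ (y l) (w i) - ∫ v, ∏ l, inner ℝ (y l) v ∂(sph n)) ^ 2 ≤
      Tk p w k

/-- quadratic means. Uses PMM, SMM, TPD, SPH -/
def Stmt_PSQ : Prop :=
  ∀ (n : ℕ) (ι : Type) [Fintype ι] (p : ι → ℝ) (w : ι → EE n) (k l : ℕ), 2 ≤ n → IS p w →
    2 ≤ k → 2 ≤ l →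
    ∫ v, Fk p w k v * Fk p w l v ∂(sph n) ≤
      smo n (k + l) * ∑ r ∈ Finset.Icc 2 (min k l), Tk p w r ∧
    ∫ v, inner ℝ (Gk p w k v) (Gk p w l v) ∂(sph n) ≤
      4 * k * l * smo n (k + l - 1) * ∑ r ∈ Finset.Icc 2 (min k l), Tk p w r

/-! ## E. Test bodies -/

/-- THE TEST INEQUALITY. Uses SPH, PPI.AVE -/
def Stmt_WLD : Prop :=
  ∀ (n : ℕ) (ι : Type) [Fintype ι] (p : ι → ℝ) (w : ι → EE n) (D : ℝ) (ψ G : EE n → ℝ),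
    2 ≤ n → IS p w → MI p w D → Measurable ψ → Measurable G →
    (∀ v, ‖v‖ = 1 → |ψ v| ≤ (n : ℝ) / 8) →
    (∀ v, ‖v‖ = 1 → 0 ≤ G v ∧ G v ≤ (n : ℝ) / 8) →
    (∀ v t : EE n, ‖v‖ = 1 → ‖t‖ = 1 →
      ψ v ≤ ψ t + G t * ‖v - t‖ + (n : ℝ) / 8 * ‖v - t‖ ^ 2) →
    ∑ i, p i * ψ (w i) - ∫ v, ψ v ∂(sph n) ≤
      D + 3 / (n : ℝ) * ∫ v, (ψ v ^ 2 + G v ^ 2) ∂(sph n)

/-- fourth moments. Uses WLD, SMM, SPH -/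
def Stmt_QBD : Prop :=
  ∃ n₀ : ℕ, ∀ (n k : ℕ) (ι : Type) [Fintype ι] (p : ι → ℝ) (w : ι → EE n) (D : ℝ)
    (e : Fin k → EE n), n₀ ≤ n → k ≤ n → IS p w → MI p w D → (∀ j, ‖e j‖ = 1) →
    (∀ x, ∑ j, (inner ℝ (e j) x) ^ 2 ≤ 2 * ‖x‖ ^ 2) →
    ∑ j, (n : ℝ) * ∑ i, p i * (inner ℝ (w i) (e j)) ^ 4 ≤ 200 * D + 4 * k / n

/-- the moments `T_k` are controlled by `D`. Uses WLD, PSQ, TPD, SMB, SMM, SPH -/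
def Stmt_TBD : Prop :=
  ∀ M : ℕ, ∃ (C : ℝ) (n₀ : ℕ), 0 < C ∧ ∀ (n : ℕ) (ι : Type) [Fintype ι] (p : ι → ℝ)
    (w : ι → EE n) (D q : ℝ), n₀ ≤ n → IS p w → MI p w D → QB p w q →
    (n : ℝ) ^ 2 * ∑ k ∈ Finset.Icc 2 M, Tk p w k ≤ C * q * D

/-- clusters. Uses PPF.CAP, PPI.AVE -/
def Stmt_CLU : Prop :=
  ∀ A B : ℕ, ∃ n₀ : ℕ, ∀ (n : ℕ) (ι : Type) [Fintype ι] (p : ι → ℝ) (w : ι → EE n) (D θ : ℝ)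
    (S : Finset ι), n₀ ≤ n → IS p w → MI p w D → 0 ≤ θ → θ ≤ 1 →
    (∀ i ∈ S, (n : ℝ) ^ (-(A : ℝ)) ≤ nm θ p w i) →
    (n : ℝ) * (∑ i ∈ S, p i) * (1 - 2 * θ - (n : ℝ) ^ (-(1 / 3 : ℝ))) ≤
      D + (n : ℝ) ^ (-(B : ℝ))

/-- the energy of the vectors which are not clustered. Uses CLU, KEN -/
def Stmt_LAY : Prop :=
  ∀ A B : ℕ, ∃ n₀ : ℕ, ∀ (n : ℕ) (ι : Type) [Fintype ι] (p : ι → ℝ) (w : ι → EE n)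
    (D θ ε : ℝ) (g : Finset ι), n₀ ≤ n → IS p w → MI p w D → 0 ≤ θ → θ ≤ 1 / 16 → 0 < ε →
    ε ≤ 1 → (∀ i ∈ g, JJ θ p w i < ε * n) →
    ∑ i ∈ g, p i * JJ θ p w i ≤
      8 * ε * (D + (n : ℝ) ^ (-(B : ℝ))) + (n : ℝ) ^ (-(A : ℝ))

/-! ## F. The lower bound for `XT` -/

/-- the zonotope and determinants. Uses PPI.CBS, PPI.AVE -/
def Stmt_ZDT : Prop :=
  ∀ (n : ℕ) (ι : Type) [Fintype ι] (p : ι → ℝ) (w : ι → EE n) (c : ι → ℝ → ℝ), 2 ≤ n →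
    (∀ i, 0 ≤ p i) → (∀ i, Measurable (c i)) → (∀ i t, 0 ≤ c i t) →
    (∀ i, ∫⁻ t : ℝ, ENNReal.ofReal (c i t) ≤ 2) →
    Integrable (fun x : EE n => (Mt (fun i => (n : ℝ) / cn n * √(1 + ‖x‖ ^ 2) * p i *
      c i (inner ℝ x (w i))) w x).det) (mun n) ∧
    X0 n * ∫ x, (Mt (fun i => (n : ℝ) / cn n * √(1 + ‖x‖ ^ 2) * p i *
      c i (inner ℝ x (w i))) w x).det ∂(mun n) ≤ XT p w

/-- determinants -/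
def Stmt_DTL : Prop :=
  ∀ (n : ℕ) (A B : Matrix (Fin n) (Fin n) ℝ), A.PosSemidef → B.PosSemidef →
    1 + (A.trace - n) + 3 / 10 * min 1 B.trace - 32 * (hs (A - 1) + (A.trace - n) ^ 2) ≤
      (A + B).det

/-- the second moments of the narrow part. Uses EW1, IN3, KGM, MUN -/
def Stmt_XEX : Prop :=
  ∀ (n : ℕ) (ι : Type) [Fintype ι] (p : ι → ℝ) (w : ι → EE n) (g : Finset ι), 2 ≤ n →
    (∀ i, 0 < p i) → (∀ i, ‖w i‖ = 1) → g.Nonempty →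
    Integrable (fun x : EE n => (Mt (cg g p w x) w x).trace) (mun n) ∧
    ∫ x, (Mt (cg g p w x) w x).trace ∂(mun n) = n ∧
    Integrable (fun x : EE n => hs (Mt (cg g p w x) w x - 1) +
      ((Mt (cg g p w x) w x).trace - n) ^ 2) (mun n) ∧
    ∫ x, (hs (Mt (cg g p w x) w x - 1) +
      ((Mt (cg g p w x) w x).trace - n) ^ 2) ∂(mun n) = XX g p w

/-- the wide part. Uses CNB, MUN -/
def Stmt_EMB : Prop :=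
  ∃ c : ℝ, 0 < c ∧ ∀ (n : ℕ) (ι : Type) [Fintype ι] (p : ι → ℝ) (w : ι → EE n)
    (b : Finset ι), 4 ≤ n → (∀ i, 0 ≤ p i) → (∀ i, ‖w i‖ = 1) →
    c * min 1 ((n : ℝ) * ∑ i ∈ b, p i) ≤ ∫ x, min 1 (∑ i, cb b p w x i) ∂(mun n)

/-- THE LOWER BOUND. Uses ZDT, DTL, XEX, EMB, C1D, CNB, MUN -/
def Stmt_JLB : Prop :=
  ∃ c : ℝ, 0 < c ∧ c ≤ 1 ∧ ∀ (n : ℕ) (ι : Type) [Fintype ι] (p : ι → ℝ) (w : ι → EE n)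
    (g b : Finset ι), 4 ≤ n → IS p w → g.Nonempty → Disjoint g b →
    X0 n * ((∑ i ∈ g, p i) ^ n *
      (1 + c * min 1 ((n : ℝ) * ∑ i ∈ b, p i) - 32 * XX g p w)) ≤ XT p w

/-! ## G. The main regime -/

open Classical in
/-- upper bound for the energy. Uses KEN, MMS, BTS, TPD, SMB, CNB -/
def Stmt_XUB : Prop :=
  ∀ m : ℕ, 2 ≤ m → ∃ C : ℝ, 0 < C ∧ ∀ (n : ℕ) (ι : Type) [Fintype ι] (p : ι → ℝ)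
    (w : ι → EE n) (θ : ℝ) (g : Finset ι), 4 ≤ n → IS p w → 0 < θ → θ ≤ 1 →
    ∑ i ∈ gᶜ, p i ≤ 1 / 4 →
    XX g p w ≤ C / θ * ((n : ℝ) ^ 2 * ∑ k ∈ Finset.Icc 2 (m + 1), Tk p w k +
        (n : ℝ) ^ (1 - (m : ℝ))) +
      C * (∑ i ∈ gᶜ, p i + (n : ℝ) * (∑ i ∈ gᶜ, p i) ^ 2 + B2 gᶜ p w) +
      16 * ∑ i ∈ g, p i * JJ θ p w i

/-- the matrix `B` -/
def Stmt_BQQ : Prop :=
  ∀ (n : ℕ) (ι : Type) [Fintype ι] (p : ι → ℝ) (w : ι → EE n) (q : ℝ) (b : Finset ι),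
    1 ≤ n → IS p w → QB p w q → B2 b p w ^ 2 ≤ ((n : ℝ) * ∑ i ∈ b, p i) ^ 3 * q

/-- the main regime. Uses JLB, XUB, BQQ, TBD, CLU, LAY, KEN, PPI.AVE -/
def Stmt_RG1 : Prop :=
  ∃ (c : ℝ) (n₀ : ℕ), 0 < c ∧ ∀ (n : ℕ) (ι : Type) [Fintype ι] (p : ι → ℝ) (w : ι → EE n)
    (D q L : ℝ), n₀ ≤ n → IS p w → MI p w D → QB p w q → 1 ≤ L →
    L ≤ (n : ℝ) ^ (1 / 100 : ℝ) → (n : ℝ) ^ (-13 : ℝ) ≤ D → D ≤ L →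
    q * L ^ 6 ≤ c → X0 n ≤ Real.exp D * XT p w

/-! ## H. The regime of small `D` -/

/-- the energy and `QQ`. Uses KEN, BTS, MMS, TPD, CNB -/
def Stmt_QSR : Prop :=
  ∀ (n : ℕ) (ι : Type) [Fintype ι] (p : ι → ℝ) (w : ι → EE n), 4 ≤ n → IS p w →
    HasSum (fun r : ℕ => ec (r + 2) * Tk p w (r + 2)) (QQ p w) ∧
    XX Finset.univ p w ≤ 8 * (n : ℝ) ^ 3 * QQ p w

/-- semi-concavity. Uses TPD, SMM, SM4, MMS, SPH -/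
def Stmt_HSS : Prop :=
  ∀ (n : ℕ) (ι : Type) [Fintype ι] (p : ι → ℝ) (w : ι → EE n) (δ : ℝ) (t v : EE n), 3 ≤ n →
    IS p w → 0 ≤ δ → Tk p w 2 ≤ δ ^ 2 → Tk p w 3 ≤ δ ^ 2 → ‖t‖ = 1 → ‖v‖ = 1 →
    hh p w t + inner ℝ (gh p w t) (v - t) + 1 / 2 * ‖v - t‖ ^ 2 * (1 - ‖v - t‖ ^ 2 / 4) *
      (mm n - 40 / (n : ℝ) ^ 3 - 6 * δ - 4 * ‖v - t‖) ≤ hh p w v

/-- uniform bounds. Uses TPD, SMM, MMS, BTS, SMB, SPH -/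
def Stmt_SUP : Prop :=
  ∀ M : ℕ, 2 ≤ M → ∃ C : ℝ, 0 < C ∧ ∀ (n : ℕ) (ι : Type) [Fintype ι] (p : ι → ℝ)
    (w : ι → EE n) (δ : ℝ) (v : EE n), 2 ≤ n → IS p w → 0 ≤ δ →
    (∀ k ∈ Finset.Icc 2 (M + 1), Tk p w k ≤ δ ^ 2) → ‖v‖ = 1 →
    |hh p w v - mm n| ≤ C * (δ + 1 / (n : ℝ) ^ (M + 1))

/-- quadratic means for the cusp kernel. Uses PSQ, DSB, TPD, QSR, BTS, MMS, SMB, SMM, SPH -/
def Stmt_GRS : Prop :=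
  ∃ C : ℝ, 0 < C ∧ ∀ (n : ℕ) (ι : Type) [Fintype ι] (p : ι → ℝ) (w : ι → EE n), 12 ≤ n →
    IS p w →
    ∫ v, ((hh p w v - mm n) ^ 2 + ‖gh p w v - mm n • v‖ ^ 2) ∂(sph n) ≤
      C / (n : ℝ) ^ 3 * QQ p w

/-- the regime of small `D`. Uses JLB, QSR, HSS, SUP, GRS, WLD, QBD, TBD, SQR, SPH, PPI.AVE -/
def Stmt_RG4 : Prop :=
  ∃ n₀ : ℕ, ∀ (n : ℕ) (ι : Type) [Fintype ι] (p : ι → ℝ) (w : ι → EE n) (D : ℝ), n₀ ≤ n →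
    IS p w → MI p w D → D < (n : ℝ) ^ (-13 : ℝ) → X0 n ≤ Real.exp D * XT p w

/-- THE CORE. Uses RG1, RG4 -/
def Stmt_THT : Prop :=
  ∃ (c : ℝ) (n₀ : ℕ), 0 < c ∧ ∀ (n : ℕ) (ι : Type) [Fintype ι] (p : ι → ℝ) (w : ι → EE n)
    (D q L : ℝ), n₀ ≤ n → IS p w → MI p w D → QB p w q → 1 ≤ L →
    L ≤ (n : ℝ) ^ (1 / 100 : ℝ) → D ≤ L → q * L ^ 6 ≤ c → X0 n ≤ Real.exp D * XT p w

/-! ## I. Nearly isoperimetric bodies -/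

/-- prisms over the facets. Uses PPI.CEL -/
def Stmt_PRM : Prop :=
  ∀ (n N : ℕ) (v : Fin N → EE n) (L : Set (EE n)) (x : Fin N → EE n) (t : ℝ), 1 ≤ n →
    IsCompact (Pol v) → IsCompact L → Convex ℝ L → (0 : EE n) ∈ L → (∀ i, x i ∈ L) →
    (∀ i, ∀ y ∈ L, inner ℝ (v i) y ≤ inner ℝ (v i) (x i)) → 0 ≤ t →
    vl (Pol v) + t * ∑ i, fa v i * inner ℝ (v i) (x i) ≤ vl (Pol v + t • L)

/-- the facets of a polytope. Uses PRM, PPI.CEL, PPI.MKI, PPI.PRJ -/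
def Stmt_GE4 : Prop :=
  ∀ (n N : ℕ) (v : Fin N → EE n), 2 ≤ n → IsCompact (Pol v) → 0 < vl (Pol v) →
    ∃ (ι : Type) (_ : Fintype ι) (a : ι → ℝ) (w : ι → EE n),
      MK a w (vl (Pol v) ^ (n - 1)) ∧
      (∀ u : EE n, ‖u‖ = 1 → ∑ i, a i * |inner ℝ (w i) u| ≤ 2 * shadow (Pol v) u) ∧
      ∀ (L : Set (EE n)) (x : ι → EE n) (t : ℝ), IsCompact L → Convex ℝ L → (0 : EE n) ∈ L →
        (∀ i, x i ∈ L) → (∀ i, ∀ y ∈ L, inner ℝ (w i) y ≤ inner ℝ (w i) (x i)) → 0 ≤ t →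
        vl (Pol v) + t * ∑ i, a i * inner ℝ (w i) (x i) ≤ vl (Pol v + t • L)

/-- isotropic position. Uses GE4, PPG.PMN, PPG.PFO, PPI.SPN, PPI.TRX, PPI.ZON, PPI.MON, CNB,
PPI.AVE -/
def Stmt_IS2 : Prop :=
  ∀ (n N : ℕ) (v : Fin N → EE n), 2 ≤ n → IsCompact (Pol v) → 0 < vl (Pol v) →
    ∃ (ι : Type) (_ : Fintype ι) (p : ι → ℝ) (w : ι → EE n) (D : ℝ), IS p w ∧ MI p w D ∧
      (X0 n ≤ Real.exp D * XT p w →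
        Pn n * vl (Pol v) ^ (n - 1) ≤ vl (projBody (Pol v))) ∧
      ∀ (A : EE n →L[ℝ] EE n) (t : ℝ), |A.det| * kap n = vl (Pol v) → 0 ≤ t →
        vl (Pol v) * (1 + n * t * Real.exp (D / n)) ≤ vl (Pol v + t • (A '' Bn n))

/-- nearly isoperimetric bodies. Uses THT, QBD, IS2, PPG.AP2, PPI.MON, PPI.AVE -/
def Stmt_FAA : Prop :=
  ∃ (c : ℝ) (n₀ : ℕ), 0 < c ∧ ∀ (n : ℕ) (K : Set (EE n)), n₀ ≤ n → 2 ≤ n → Convex ℝ K →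
    IsCompact K → (interior K).Nonempty →
    (∃ (A : EE n →L[ℝ] EE n) (t : ℝ), |A.det| * kap n = vl K ∧ 0 < t ∧
      vl (K + t • (A '' Bn n)) < (1 + (1 + c / n) * n * t) * vl K) →
    Pn n * vl K ^ (n - 1) ≤ vl (projBody K)

/-! ## J. Irreducible symmetry -/

/-- the centre -/
def Stmt_CEN : Prop :=
  ∀ (n : ℕ) (K : Set (EE n)), 2 ≤ n → Convex ℝ K → IsCompact K → (interior K).Nonempty →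
    Irr K → (0 : EE n) ∈ interior K

/-- invariant weights -/
def Stmt_ORB : Prop :=
  ∀ (n : ℕ) (K : Set (EE n)) (ι : Type) [Fintype ι] (a : ι → ℝ) (w : ι → EE n), 1 ≤ n →
    IsCompact K → (∀ i, 0 ≤ a i) →
    ∃ (m : ℕ) (c : Fin m → ℝ) (g : Fin m → EE n ≃ₗᵢ[ℝ] EE n), (∀ j, 0 < c j) ∧
      ∑ j, c j = 1 ∧ (∀ j, g j ∈ GK K) ∧
      (∀ h ∈ GK K, ∀ x, ∑ j, ∑ i, c j * a i * ((inner ℝ (g j (w i)) (h x)) ^ 2 / ‖w i‖) =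
        ∑ j, ∑ i, c j * a i * ((inner ℝ (g j (w i)) x) ^ 2 / ‖w i‖)) ∧
      ∀ h ∈ GK K, ∀ x,
        ∑ j, ∑ i, c j * a i * ((inner ℝ (g j (w i)) (h x)) ^ 4 / ‖w i‖ ^ 3) =
          ∑ j, ∑ i, c j * a i * ((inner ℝ (g j (w i)) x) ^ 4 / ‖w i‖ ^ 3)

/-- invariant quadratic forms -/
def Stmt_IRQ : Prop :=
  ∀ (n : ℕ) (K : Set (EE n)) (ι : Type) [Fintype ι] (a : ι → ℝ) (u : ι → EE n), 1 ≤ n →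
    Irr K → (∀ h ∈ GK K, ∀ x, ∑ i, a i * (inner ℝ (u i) (h x)) ^ 2 =
      ∑ i, a i * (inner ℝ (u i) x) ^ 2) →
    ∀ x : EE n, (n : ℝ) * ∑ i, a i * (inner ℝ (u i) x) ^ 2 =
      (∑ i, a i * ‖u i‖ ^ 2) * ‖x‖ ^ 2

/-- almost orthogonal images. Uses ORB, IRQ -/
def Stmt_IMG : Prop :=
  ∀ (n k : ℕ) (K : Set (EE n)) (e : EE n), 64 ≤ n → IsCompact K → Irr K → ‖e‖ = 1 →
    (k : ℝ) ^ 3 ≤ n →
    ∃ g : Fin k → EE n ≃ₗᵢ[ℝ] EE n, (∀ j, g j ∈ GK K) ∧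
      ∀ x, ∑ j, (inner ℝ (g j e) x) ^ 2 ≤ 2 * ‖x‖ ^ 2

/-- shadows and isometries -/
def Stmt_SHI : Prop :=
  ∀ (n : ℕ) (K : Set (EE n)) (g : EE n ≃ₗᵢ[ℝ] EE n) (u : EE n), 1 ≤ n → ‖u‖ = 1 →
    shadow (g '' K) (g u) = shadow K u

/-- the symmetrised family. Uses GE4, ORB, IRQ, SHI, PPI.ZON, PPI.MON, CNB, PPI.AVE -/
def Stmt_SYF : Prop :=
  ∀ (n N : ℕ) (K : Set (EE n)) (v : Fin N → EE n), 2 ≤ n → IsCompact K → Irr K →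
    IsCompact (Pol v) → 0 < vl (Pol v) → Pol v ⊆ K →
    ∃ (ι : Type) (_ : Fintype ι) (p : ι → ℝ) (w : ι → EE n) (D : ℝ), IS p w ∧ MI p w D ∧
      (∀ h ∈ GK K, ∀ x, ∑ i, p i * (inner ℝ (w i) (h x)) ^ 4 =
        ∑ i, p i * (inner ℝ (w i) x) ^ 4) ∧
      (X0 n ≤ Real.exp D * XT p w → Pn n * vl (Pol v) ^ (n - 1) ≤ vl (projBody K))

/-- irreducible symmetry. Uses THT, QBD, SYF, IMG, CEN, CNB, PPG.CRE, PPG.AP2, PPI.AVE -/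
def Stmt_FBB : Prop :=
  ∃ n₀ : ℕ, ∀ (n : ℕ) (K : Set (EE n)), n₀ ≤ n → 2 ≤ n → Convex ℝ K → IsCompact K →
    (interior K).Nonempty → Irr K → Pn n * vl K ^ (n - 1) ≤ vl (projBody K)

end PPX
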