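import Pool.Agent.PPX.Stmts

/-!
# Squad PPX (MP_0bf616_gt): module XEX, the second moments of the narrow part.
-/

set_option autoImplicit false

namespace PPX

open MeasureTheory Set Filter Topology
open PPI PPG

namespace XEX_

lemma inner_eq {n : ℕ} (u v : EE n) : inner ℝ u v = ∑ k, u k * v k := by
  rw [PiLp.inner_apply]
  refine Finset.sum_congr rfl fun k _ => ?_
  simp [mul_comm]

lemma tx_inner {n : ℕ} (x a b : EE n) :
    inner ℝ (tx x a) (tx x b) = inner ℝ a b + inner ℝ x a * inner ℝ x b := by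
  unfold tx
  have hr0 : 0 ≤ √(1 + ‖x‖ ^ 2) := Real.sqrt_nonneg _
  have hr2 : √(1 + ‖x‖ ^ 2) ^ 2 = 1 + ‖x‖ ^ 2 := Real.sq_sqrt (by positivity)
  generalize √(1 + ‖x‖ ^ 2) = r at hr0 hr2
  rw [inner_add_left, inner_add_right, inner_add_right, real_inner_smul_left,
    real_inner_smul_left, real_inner_smul_right, real_inner_smul_right,
    real_inner_self_eq_norm_sq, real_inner_comm x a]
  have h0 : (r - 1) * (1 + r) = r ^ 2 - 1 := by ring
  have h1 : ‖x‖ ^ 2 = (r - 1) * (1 + r) := by linarith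
  have h2 : (1 + r) ≠ 0 := by positivity
  rw [h1]
  field_simp
  ring

lemma wv_ww {n : ℕ} (x v : EE n) : wv x v * (1 + (inner ℝ x v) ^ 2) = ww x v := by
  unfold wv ww
  have h : 0 < 1 + (inner ℝ x v) ^ 2 := by positivity
  rw [mul_assoc, Real.rpow_sub_one h.ne', div_mul_cancel₀ _ h.ne']

variable {n : ℕ} {ι : Type} [Fintype ι]

lemma tr_eq (c : ι → ℝ) (w : ι → EE n) (x : EE n) :
    (Mt c w x).trace = ∑ i, c i * inner ℝ (tx x (w i)) (tx x (w i)) := by
  unfold Mt Matrix.trace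
  simp only [Matrix.diag_apply, Matrix.of_apply]
  rw [Finset.sum_comm]
  refine Finset.sum_congr rfl fun i _ => ?_
  rw [inner_eq, Finset.mul_sum]

lemma sq_eq (c : ι → ℝ) (w : ι → EE n) (x : EE n) :
    hs (Mt c w x) = ∑ i, ∑ j, c i * c j * (inner ℝ (tx x (w i)) (tx x (w j))) ^ 2 := by
  unfold hs Mt
  simp only [Matrix.of_apply, inner_eq]
  calc _ = ∑ k, ∑ l, ∑ i, ∑ j,
        c i * (tx x (w i) k * tx x (w i) l) * (c j * (tx x (w j) k * tx x (w j) l)) := by
        refine Finset.sum_congr rfl fun k _ => Finset.sum_congr rfl fun l _ => ?_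
        rw [sq, Finset.sum_mul_sum]
    _ = ∑ k, ∑ i, ∑ l, ∑ j,
        c i * (tx x (w i) k * tx x (w i) l) * (c j * (tx x (w j) k * tx x (w j) l)) := by
        refine Finset.sum_congr rfl fun k _ => ?_
        rw [Finset.sum_comm]
    _ = ∑ i, ∑ k, ∑ l, ∑ j,
        c i * (tx x (w i) k * tx x (w i) l) * (c j * (tx x (w j) k * tx x (w j) l)) :=
        Finset.sum_comm
    _ = ∑ i, ∑ k, ∑ j, ∑ l,
        c i * (tx x (w i) k * tx x (w i) l) * (c j * (tx x (w j) k * tx x (w j) l)) := by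
        refine Finset.sum_congr rfl fun i _ => Finset.sum_congr rfl fun k _ => ?_
        rw [Finset.sum_comm]
    _ = ∑ i, ∑ j, ∑ k, ∑ l,
        c i * (tx x (w i) k * tx x (w i) l) * (c j * (tx x (w j) k * tx x (w j) l)) := by
        refine Finset.sum_congr rfl fun i _ => ?_
        rw [Finset.sum_comm]
    _ = _ := by
        refine Finset.sum_congr rfl fun i _ => Finset.sum_congr rfl fun j _ => ?_
        rw [sq, Finset.sum_mul_sum, Finset.mul_sum]
        refine Finset.sum_congr rfl fun k _ => ?_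
        rw [Finset.mul_sum]
        refine Finset.sum_congr rfl fun l _ => ?_
        ring

lemma hs_sub (M : Matrix (Fin n) (Fin n) ℝ) : hs (M - 1) = hs M - 2 * M.trace + n := by
  unfold hs Matrix.trace
  simp only [Matrix.sub_apply, Matrix.diag_apply]
  have h : ∀ k : Fin n, ∑ l, (M k l - (1 : Matrix (Fin n) (Fin n) ℝ) k l) ^ 2
      = ∑ l, M k l ^ 2 - 2 * M k k + 1 := by
    intro k
    have h1 : ∀ l, (M k l - (1 : Matrix (Fin n) (Fin n) ℝ) k l) ^ 2
        = M k l ^ 2 + (if k = l then (1 - 2 * M k l) else 0) := by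
      intro l
      rw [Matrix.one_apply]
      split_ifs with hkl
      · ring
      · ring
    rw [Finset.sum_congr rfl fun l _ => h1 l, Finset.sum_add_distrib,
      Finset.sum_ite_eq Finset.univ k]
    simp only [Finset.mem_univ, if_true]
    ring
  rw [Finset.sum_congr rfl fun k _ => h k, Finset.sum_add_distrib, Finset.sum_sub_distrib,
    ← Finset.mul_sum]
  simp

/-- the integrand of `IN3` -/
noncomputable def br (x a b : EE n) : ℝ := wv x a * wv x b *
      ((1 + (inner ℝ x a) ^ 2) * (1 + (inner ℝ x b) ^ 2) -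
        (inner ℝ a b + inner ℝ x a * inner ℝ x b) ^ 2)

lemma cg_sum (g : Finset ι) (p : ι → ℝ) (w : ι → EE n) (x : EE n) (F : ι → ℝ) :
    ∑ i, cg g p w x i * F i = ∑ i ∈ g, (n : ℝ) * (p i / ∑ j ∈ g, p j) * wv x (w i) * F i := by
  classical
  unfold cg
  rw [← Finset.sum_filter_add_sum_filter_not Finset.univ (fun i => i ∈ g)]
  rw [Finset.sum_eq_zero (s := Finset.univ.filter fun i => ¬ i ∈ g), add_zero]
  · rw [Finset.filter_mem_eq_inter, Finset.univ_inter]
    refine Finset.sum_congr rfl fun i hi => ?_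
    rw [if_pos hi]
  · intro i hi
    rw [Finset.mem_filter] at hi
    rw [if_neg hi.2, zero_mul]

lemma tr_cg (g : Finset ι) (p : ι → ℝ) (w : ι → EE n) (x : EE n) (hw : ∀ i, ‖w i‖ = 1) :
    (Mt (cg g p w x) w x).trace =
      ∑ i ∈ g, (n : ℝ) * (p i / ∑ j ∈ g, p j) * ww x (w i) := by
  rw [tr_eq, cg_sum]
  refine Finset.sum_congr rfl fun i _ => ?_
  rw [tx_inner, real_inner_self_eq_norm_sq, hw i, ← wv_ww]
  ring

lemma hs_cg (g : Finset ι) (p : ι → ℝ) (w : ι → EE n) (x : EE n) :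
    hs (Mt (cg g p w x) w x) =
      (∑ i ∈ g, ∑ j ∈ g, ((n : ℝ) * (p i / ∑ j ∈ g, p j)) * ((n : ℝ) * (p j / ∑ j ∈ g, p j)) *
        (ww x (w i) * ww x (w j))) -
      ∑ i ∈ g, ∑ j ∈ g, ((n : ℝ) * (p i / ∑ j ∈ g, p j)) * ((n : ℝ) * (p j / ∑ j ∈ g, p j)) *
        br x (w i) (w j) := by
  rw [sq_eq]
  have h1 : ∀ i, ∑ j, cg g p w x i * cg g p w x j * (inner ℝ (tx x (w i)) (tx x (w j))) ^ 2
      = cg g p w x i * ∑ j ∈ g, (n : ℝ) * (p j / ∑ j ∈ g, p j) * wv x (w j) *
        (inner ℝ (tx x (w i)) (tx x (w j))) ^ 2 := by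
    intro i
    rw [← cg_sum, Finset.mul_sum]
    refine Finset.sum_congr rfl fun j _ => ?_
    ring
  rw [Finset.sum_congr rfl fun i _ => h1 i, cg_sum, ← Finset.sum_sub_distrib]
  refine Finset.sum_congr rfl fun i _ => ?_
  rw [Finset.mul_sum, ← Finset.sum_sub_distrib]
  refine Finset.sum_congr rfl fun j _ => ?_
  rw [tx_inner, br, ← wv_ww, ← wv_ww]
  ring

lemma comb_int (μ : Measure (EE n)) [IsProbabilityMeasure μ] {A B T : EE n → ℝ}
    (hA : Integrable A μ) (hB : Integrable B μ) (hT : Integrable T μ) :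
    Integrable (fun x => 2 * A x - B x - (2 + 2 * (n : ℝ)) * T x + ((n : ℝ) + n ^ 2)) μ ∧
    ∫ x, (2 * A x - B x - (2 + 2 * (n : ℝ)) * T x + ((n : ℝ) + n ^ 2)) ∂μ =
      2 * ∫ x, A x ∂μ - ∫ x, B x ∂μ - (2 + 2 * (n : ℝ)) * ∫ x, T x ∂μ + ((n : ℝ) + n ^ 2) := by
  have h1 : Integrable (fun x => 2 * A x - B x) μ := (hA.const_mul 2).sub hB
  have h2 : Integrable (fun x => 2 * A x - B x - (2 + 2 * (n : ℝ)) * T x) μ :=
    h1.sub (hT.const_mul _)
  refine ⟨h2.add (integrable_const _), ?_⟩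
  rw [integral_add h2 (integrable_const _), integral_sub h1 (hT.const_mul _),
    integral_sub (hA.const_mul 2) hB, integral_const_mul, integral_const_mul, integral_const]
  simp

end XEX_

open XEX_

theorem xex_proof (hEW1 : Stmt_EW1) (hIN3 : Stmt_IN3) (hKGM : Stmt_KGM) (hMUN : Stmt_MUN) :
    Stmt_XEX := by
  intro n ι _ p w g hn hp hw hg
  have hprob : IsProbabilityMeasure (mun n) := (hMUN n (by omega)).1
  have hS : 0 < ∑ j ∈ g, p j := Finset.sum_pos (fun i _ => hp i) hg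
  set S : ℝ := ∑ j ∈ g, p j with hSdef
  have hIw : ∀ i ∈ g, Integrable (fun x : EE n => (n : ℝ) * (p i / S) * ww x (w i)) (mun n) :=
    fun i _ => (hEW1 n (w i) hn (hw i)).1.const_mul _
  have htrI : Integrable (fun x : EE n => (Mt (cg g p w x) w x).trace) (mun n) := by
    simp only [tr_cg g p w _ hw]
    exact integrable_finsetSum _ hIw
  have htr : ∫ x, (Mt (cg g p w x) w x).trace ∂(mun n) = n := by
    simp only [tr_cg g p w _ hw]
    rw [integral_finsetSum _ hIw]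
    have : ∀ i ∈ g, ∫ x, (n : ℝ) * (p i / S) * ww x (w i) ∂(mun n) = (n : ℝ) / S * p i := by
      intro i _
      rw [integral_const_mul, (hEW1 n (w i) hn (hw i)).2]
      ring
    rw [Finset.sum_congr rfl this, ← Finset.mul_sum, ← hSdef, div_mul_cancel₀ _ hS.ne']
  -- the double sums
  have hK2 : ∀ i ∈ g, ∀ j ∈ g, Integrable (fun x : EE n => ((n : ℝ) * (p i / S)) *
      ((n : ℝ) * (p j / S)) * (ww x (w i) * ww x (w j))) (mun n) :=
    fun i _ j _ => (hKGM n (w i) (w j) hn (hw i) (hw j)).1.const_mul _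
  have hB2 : ∀ i ∈ g, ∀ j ∈ g, Integrable (fun x : EE n => ((n : ℝ) * (p i / S)) *
      ((n : ℝ) * (p j / S)) * br x (w i) (w j)) (mun n) :=
    fun i _ j _ => (hIN3 n (w i) (w j) hn (hw i) (hw j)).1.const_mul _
  have hA1 : Integrable (fun x : EE n => ∑ i ∈ g, ∑ j ∈ g, ((n : ℝ) * (p i / S)) *
      ((n : ℝ) * (p j / S)) * (ww x (w i) * ww x (w j))) (mun n) :=
    integrable_finsetSum _ fun i hi => integrable_finsetSum _ fun j hj => hK2 i hi j hj
  have hA2 : Integrable (fun x : EE n => ∑ i ∈ g, ∑ j ∈ g, ((n : ℝ) * (p i / S)) *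
      ((n : ℝ) * (p j / S)) * br x (w i) (w j)) (mun n) :=
    integrable_finsetSum _ fun i hi => integrable_finsetSum _ fun j hj => hB2 i hi j hj
  have hE1 : ∫ x : EE n, ∑ i ∈ g, ∑ j ∈ g, ((n : ℝ) * (p i / S)) *
      ((n : ℝ) * (p j / S)) * (ww x (w i) * ww x (w j)) ∂(mun n) =
      (n : ℝ) ^ 2 * ((∑ i ∈ g, ∑ j ∈ g, p i * p j * kk n (inner ℝ (w i) (w j))) / S ^ 2) := by
    rw [integral_finsetSum _ fun i hi => integrable_finsetSum _ fun j hj => hK2 i hi j hj,
      Finset.sum_div, Finset.mul_sum]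
    refine Finset.sum_congr rfl fun i hi => ?_
    rw [integral_finsetSum _ fun j hj => hK2 i hi j hj, Finset.sum_div, Finset.mul_sum]
    refine Finset.sum_congr rfl fun j hj => ?_
    rw [integral_const_mul, (hKGM n (w i) (w j) hn (hw i) (hw j)).2]
    field_simp
  have hE2 : ∫ x : EE n, ∑ i ∈ g, ∑ j ∈ g, ((n : ℝ) * (p i / S)) *
      ((n : ℝ) * (p j / S)) * br x (w i) (w j) ∂(mun n) =
      (n : ℝ) ^ 2 * om n *
        ((∑ i ∈ g, ∑ j ∈ g, p i * p j * √(1 - (inner ℝ (w i) (w j)) ^ 2)) / S ^ 2) := by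
    rw [integral_finsetSum _ fun i hi => integrable_finsetSum _ fun j hj => hB2 i hi j hj,
      Finset.sum_div, Finset.mul_sum]
    refine Finset.sum_congr rfl fun i hi => ?_
    rw [integral_finsetSum _ fun j hj => hB2 i hi j hj, Finset.sum_div, Finset.mul_sum]
    refine Finset.sum_congr rfl fun j hj => ?_
    have h := (hIN3 n (w i) (w j) hn (hw i) (hw j)).2
    rw [integral_const_mul]
    unfold br
    rw [h]
    field_simp
  -- the pointwise identity
  have hpt : ∀ x : EE n, hs (Mt (cg g p w x) w x - 1) + ((Mt (cg g p w x) w x).trace - n) ^ 2 =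
      2 * (∑ i ∈ g, ∑ j ∈ g, ((n : ℝ) * (p i / S)) *
        ((n : ℝ) * (p j / S)) * (ww x (w i) * ww x (w j))) -
      (∑ i ∈ g, ∑ j ∈ g, ((n : ℝ) * (p i / S)) * ((n : ℝ) * (p j / S)) * br x (w i) (w j)) -
      (2 + 2 * n) * (Mt (cg g p w x) w x).trace + ((n : ℝ) + n ^ 2) := by
    intro x
    rw [hs_sub, hs_cg]
    have h2 : (Mt (cg g p w x) w x).trace ^ 2 = ∑ i ∈ g, ∑ j ∈ g, ((n : ℝ) * (p i / S)) *
        ((n : ℝ) * (p j / S)) * (ww x (w i) * ww x (w j)) := by
      rw [tr_cg g p w x hw, sq, Finset.sum_mul_sum]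
      refine Finset.sum_congr rfl fun i _ => Finset.sum_congr rfl fun j _ => ?_
      ring
    rw [← h2]
    ring
  have key := comb_int (mun n) (n := n) hA1 hA2 htrI
  refine ⟨htrI, htr, ?_, ?_⟩
  · simp only [hpt]
    exact key.1
  · simp only [hpt]
    rw [key.2, hE1, hE2, htr]
    unfold XX
    simp only [← hSdef]
    ring

end PPX
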